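import Pool.Agent.P0.LLZ33

set_option linter.all false

/-!
# P0, I7 (A1): the full word of an exceptional member

`J+` has one element: then one of `a`, `a'` is `{c, c + 2, …, c + 2 t}` and the other one is the complement
of `{c + 1, c + 3, …, c + 2 t - 1}`.
-/

namespace Pool.Agent.P0

/-- the full word -/
def Wd63 (r : ℕ) (a a' : ZMod r → ℕ) (c : ZMod r) (t : ℕ) : Prop :=
  2 * t + 1 ≤ r ∧ (∀ i, a i = 1 ↔ ∃ s : ℕ, s ≤ t ∧ i = c + 2 * (s : ZMod r)) ∧
    (∀ i, a' i = 1 ↔ ¬ ∃ s : ℕ, s < t ∧ i = c + 2 * (s : ZMod r) + 1)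

section nat

variable {r : ℕ} {a b b' a' : ℕ → ℕ}

/-- the data read from `c`: `J+ = {0}`, everything else tight, at most one bit missing -/
structure One63 (r : ℕ) (a b b' a' : ℕ → ℕ) : Prop where
  ln : LN33 r a b b' a'
  hr : 7 ≤ r
  h0 : a 0 = 1
  h0' : a' (r - 1) = 1
  ht : ∀ s, s + 1 < r → a' s + a (s + 1) = 1
  bits : ∀ i, 3 ≤ b i + b' i + b (i + 1) + b' (i + 1)

theorem One63.chain (D : One63 r a b b' a') (s : ℕ) (h1 : 1 ≤ s) (h2 : s + 2 < r) (h : a s = 0) :
    a (s + 2) = 0 := by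
  obtain ⟨i, rfl⟩ : ∃ i, s = i + 1 := ⟨s - 1, by omega⟩
  have hr := D.hr
  by_contra hne
  have e1 := D.ln.ba (i + 1 + 2)
  have e2 := D.ht i (by omega)
  have e3 : a (r - 1 + 1) = 1 := by
    have := D.ln.pa 0
    rw [Nat.zero_add] at this
    rw [show r - 1 + 1 = r by omega, this]
    exact D.h0
  obtain ⟨g1, g2⟩ := D.ln.w2' i (r - 1) (by omega) (by omega) (by omega)
    (by rw [show i + 3 = i + 1 + 2 by ring]; omega) D.h0' e3
  have e4 := D.bits (i + 1)
  rw [show i + 1 + 1 = i + 2 by ring] at e4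
  omega

theorem One63.chain' (D : One63 r a b b' a') (s : ℕ) (h1 : 1 ≤ s) (h : a s = 0) :
    ∀ k, s + 2 * k < r → a (s + 2 * k) = 0 := by
  intro k
  induction k with
  | zero => intro _; simpa using h
  | succ k ih =>
    intro hk
    rw [show s + 2 * (k + 1) = s + 2 * k + 2 by ring] at hk ⊢
    exact D.chain _ (by omega) (by omega) (ih (by omega))

/-- case I -/
theorem One63.one (D : One63 r a b b' a') (h1 : a 1 = 0) :
    ∃ t, 2 * t + 1 ≤ r ∧ ∀ s, s < r → (a s = 1 ↔ ∃ u, u ≤ t ∧ s = 2 * u) ∧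
      (a' s = 1 ↔ ¬ ∃ u, u < t ∧ s = 2 * u + 1) := by
  classical
  have hr := D.hr
  have hodd : ∀ k, 1 + 2 * k < r → a (1 + 2 * k) = 0 := D.chain' 1 le_rfl h1
  let P : ℕ → Prop := fun k => a (2 * k) = 1 ∧ 2 * k < r
  have hP0 : P 0 := ⟨by simpa using D.h0, by show 2 * 0 < r; omega⟩
  obtain ⟨t, ht1, ht2⟩ : ∃ t, P t ∧ ∀ k, t < k → ¬ P k := by
    refine ⟨Nat.findGreatest P r, Nat.findGreatest_spec (m := 0) (by omega) hP0, fun k hk hPk => ?_⟩
    have := Nat.le_findGreatest (P := P) (n := r) (m := k) (by have := hPk.2; omega) hPk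
    omega
  have hdown : ∀ k, 1 ≤ k → k ≤ t → a (2 * k) = 1 := by
    intro k hk1 hk2
    by_contra hne
    have e1 := D.ln.ba (2 * k)
    have e2 := D.chain' (2 * k) (by omega) (by omega) (t - k) (by have := ht1.2; omega)
    rw [show 2 * k + 2 * (t - k) = 2 * t by omega] at e2
    have := ht1.1
    omega
  have hev : ∀ s, s < r → (a s = 1 ↔ ∃ u, u ≤ t ∧ s = 2 * u) := by
    intro s hs
    constructor
    · intro h
      rcases Nat.even_or_odd' s with ⟨u, hu | hu⟩
      · refine ⟨u, ?_, hu⟩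
        by_contra hlt
        exact ht2 u (by omega) ⟨by rw [← hu]; exact h, by omega⟩
      · have := hodd u (by omega)
        rw [show 1 + 2 * u = s by omega] at this
        omega
    · rintro ⟨u, hu, rfl⟩
      rcases Nat.eq_zero_or_pos u with h | h
      · subst h; simpa using D.h0
      · exact hdown u h hu
  refine ⟨t, by have := ht1.2; omega, fun s hs => ⟨hev s hs, ?_⟩⟩
  have e1 := D.ln.ba' s
  rcases Nat.lt_or_ge (s + 1) r with h | h
  · have e2 := D.ht s h
    have e3 := hev (s + 1) h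
    constructor
    · intro h4
      rintro ⟨u, hu, rfl⟩
      have := e3.2 ⟨u + 1, by omega, by ring⟩
      omega
    · intro h4
      by_contra hne
      obtain ⟨u, hu, hu'⟩ := e3.1 (by omega)
      exact h4 ⟨u - 1, by omega, by omega⟩
  · have : s = r - 1 := by omega
    subst this
    constructor
    · intro _
      rintro ⟨u, hu, hu'⟩
      have := ht1.2
      omega
    · intro _
      exact D.h0'

/-- case II: the word ends with a one -/
theorem One63.two (D : One63 r a b b' a') (h1 : a 1 = 1) : a (r - 1) = 1 := by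
  classical
  have hr := D.hr
  by_contra hne
  have hz : a (r - 1) = 0 := by have := D.ln.ba (r - 1); omega
  have har : a r = 1 := by
    have := D.ln.pa 0
    rw [Nat.zero_add] at this
    rw [this]; exact D.h0
  have har1 : a (r + 1) = 1 := by
    have := D.ln.pa 1
    rw [show r + 1 = 1 + r by ring, this]; exact h1
  -- the first zero
  have hex : ∃ s, a s = 0 := ⟨r - 1, hz⟩
  obtain ⟨m', hm', hmin⟩ : ∃ m', a m' = 0 ∧ ∀ s, s < m' → a s = 1 := by
    refine ⟨Nat.find hex, Nat.find_spec hex, fun s hs => ?_⟩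
    have := Nat.find_min hex hs
    have := D.ln.ba s
    omega
  have hm2 : 2 ≤ m' := by
    by_contra hlt
    have h0 := D.h0
    rcases Nat.lt_or_ge m' 1 with h | h
    · have : m' = 0 := by omega
      rw [this] at hm'; omega
    · have : m' = 1 := by omega
      rw [this] at hm'; omega
  have hmr : m' ≤ r - 1 := by
    by_contra hlt
    have := hmin (r - 1) (by omega)
    omega
  obtain ⟨m, rfl⟩ : ∃ m, m' = m + 1 := ⟨m' - 1, by omega⟩
  -- the last one
  let P : ℕ → Prop := fun k => a k = 1 ∧ k < r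
  obtain ⟨L, hL1, hL2⟩ : ∃ L, P L ∧ ∀ k, L < k → ¬ P k := by
    refine ⟨Nat.findGreatest P r, Nat.findGreatest_spec (m := 0) (by omega)
      ⟨D.h0, by omega⟩, fun k hk hPk => ?_⟩
    have := Nat.le_findGreatest (P := P) (n := r) (m := k) (by have := hPk.2; omega) hPk
    omega
  have hlast : ∀ k, L < k → k < r → a k = 0 := by
    intro k hk hkr
    have h2 := hL2 k hk
    have h3 := D.ln.ba k
    by_contra h4
    exact h2 ⟨by omega, hkr⟩
  have hLr : L < r := hL1.2
  have hLr' : L + 1 < r := by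
    by_contra hlt
    have : L = r - 1 := by omega
    rw [this] at hL1
    have := hL1.1
    omega
  have hmL : m ≤ L := by
    by_contra hlt
    have h2 := hlast m (by omega) (by omega)
    have h3 := hmin m (by omega)
    omega
  have p1 : a' L = 1 := by
    have h2 := hlast (L + 1) (by omega) hLr'
    have h3 := D.ht L hLr'
    omega
  have p2 : a' (L + 1) = 1 := by
    rcases Nat.lt_or_ge (L + 2) r with h | h
    · have h2 := hlast (L + 2) (by omega) h
      have h3 := D.ht (L + 1) (by omega)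
      rw [show L + 1 + 1 = L + 2 by ring] at h3
      omega
    · rw [show L + 1 = r - 1 by omega]
      exact D.h0'
  rcases Nat.lt_or_ge m L with hlt | hge
  · have hpar : ¬ ∃ k, L = m + 1 + 2 * k := by
      rintro ⟨k, hk⟩
      have := D.chain' (m + 1) (by omega) hm' k (by omega)
      rw [← hk] at this
      have := hL1.1
      omega
    have hL2' : m + 2 ≤ L := by
      by_contra h
      exact hpar ⟨0, by omega⟩
    have p3 : a (m + 2) = 1 := by
      by_contra h
      have h2 := D.ln.ba (m + 2)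
      have h3 : ∃ k, L = m + 2 + 2 * k := by
        rcases Nat.even_or_odd' (L - m) with ⟨u, hu | hu⟩
        · exact ⟨u - 1, by omega⟩
        · exact absurd ⟨u, by omega⟩ hpar
      obtain ⟨k, hk⟩ := h3
      have := D.chain' (m + 2) (by omega) (by omega) k (by omega)
      rw [← hk] at this
      have := hL1.1
      omega
    have p4 := hmin (m - 1) (by omega)
    obtain ⟨g1, g2⟩ := D.ln.w1 (m - 1) L (by omega) (by omega) p4
      (by rw [show m - 1 + 3 = m + 2 by omega]; exact p3) p1 p2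
    rw [show m - 1 + 1 = m by omega, show m - 1 + 2 = m + 1 by omega] at g1 g2
    have := D.bits m
    omega
  · obtain rfl : m = L := by omega
    rcases Nat.lt_or_ge m 3 with h | h
    · have q1 : a' (r - 4) = 1 := by
        have h2 := hlast (r - 4 + 1) (by omega) (by omega)
        have h3 := D.ht (r - 4) (by omega)
        omega
      obtain ⟨g1, g2⟩ := D.ln.w1' (r - 4) r (by omega) (by omega) q1
        (by rw [show r - 4 + 3 = r - 1 by omega]; exact D.h0') har har1
      have := D.bits (r - 4 + 1)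
      rw [show r - 4 + 1 + 1 = r - 4 + 2 by ring] at this
      omega
    · obtain ⟨g1, g2⟩ := D.ln.w1 0 m (by omega) (by omega) D.h0 (hmin 3 (by omega)) p1 p2
      have := D.bits 1
      simp only [Nat.zero_add, Nat.reduceAdd] at g1 g2 this
      omega

end nat

section cyc

variable {r : ℕ} {a b b' a' : ZMod r → ℕ}

/-- the cyclic form of `One63` -/
structure OneZ63 (r : ℕ) (a b b' a' : ZMod r → ℕ) (c : ZMod r) : Prop where
  ll : LLZ r a b b' a'
  hr : 7 ≤ r
  h0 : a c = 1
  h0' : a' (c - 1) = 1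
  ht : ∀ j, j ≠ c → a' (j - 1) + a j = 1
  bits : ∀ i, 3 ≤ b i + b' i + b (i + 1) + b' (i + 1)

theorem neg_cast63 (c : ZMod r) (hr : 1 ≤ r) : c + ((r - 1 : ℕ) : ZMod r) = c - 1 := by
  rw [Nat.cast_sub hr]
  simp [sub_eq_add_neg]

theorem OneZ63.toN {c : ZMod r} (D : OneZ63 r a b b' a' c) :
    One63 r (fun n => a (c + (n : ℕ))) (fun n => b (c + (n : ℕ))) (fun n => b' (c + (n : ℕ)))
      (fun n => a' (c + (n : ℕ))) where
  ln := D.ll.toN c
  hr := D.hr
  h0 := by simpa using D.h0
  h0' := by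
    have := D.hr
    rw [neg_cast63 c (by omega)]
    exact D.h0'
  ht := fun s hs => by
    have h1 := D.ht (c + ((s + 1 : ℕ) : ZMod r)) (by
      intro h
      have h2 := cast_ne33 (r := r) (i := 0) (j := s + 1) (d := 0) (by omega) (by omega) c
      apply h2
      rw [h]; simp)
    have e : c + ((s + 1 : ℕ) : ZMod r) - 1 = c + (s : ℕ) := by push_cast; ring
    rw [e] at h1
    exact h1
  bits := fun i => by
    have h1 := D.bits (c + (i : ℕ))
    have e : c + (i : ℕ) + 1 = c + ((i + 1 : ℕ) : ZMod r) := by push_cast; ring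
    rw [e] at h1
    exact h1

theorem OneZ63.refl {c : ZMod r} (D : OneZ63 r a b b' a' c) :
    OneZ63 r (fun i => a' (-i)) (fun i => b' (-i)) (fun i => b (-i)) (fun i => a (-i)) (1 - c) where
  ll := D.ll.swap.refl
  hr := D.hr
  h0 := by
    show a' (-(1 - c)) = 1
    rw [show -(1 - c) = c - 1 by ring]; exact D.h0'
  h0' := by
    show a (-(1 - c - 1)) = 1
    rw [show -(1 - c - 1) = c by ring]; exact D.h0
  ht := fun j hj => by
    show a (-(j - 1)) + a' (-j) = 1
    have h1 := D.ht (1 - j) (fun h => hj (by rw [← h]; ring))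
    rw [show -(j - 1) = 1 - j by ring, show -j = 1 - j - 1 by ring]
    omega
  bits := fun i => by
    show 3 ≤ b' (-i) + b (-i) + b' (-(i + 1)) + b (-(i + 1))
    have h1 := D.bits (-(i + 1))
    rw [show -(i + 1) + 1 = -i by ring] at h1
    omega

theorem OneZ63.case1 [NeZero r] {c : ZMod r} (D : OneZ63 r a b b' a' c) (h1 : a (c + 1) = 0) :
    ∃ t, Wd63 r a a' c t := by
  have hr := D.hr
  obtain ⟨t, ht, h⟩ := D.toN.one (by simpa using h1)
  have hval : ∀ i : ZMod r, c + (((i - c).val : ℕ) : ZMod r) = i := by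
    intro i
    rw [ZMod.natCast_zmod_val]; ring
  have hlt : ∀ i : ZMod r, (i - c).val < r := fun i => ZMod.val_lt _
  have hcast : ∀ n, n < r → ((c + (n : ℕ)) - c : ZMod r).val = n := by
    intro n hn
    rw [show c + (n : ZMod r) - c = (n : ZMod r) by ring, ZMod.val_natCast, Nat.mod_eq_of_lt hn]
  refine ⟨t, ht, fun i => ?_, fun i => ?_⟩
  · have h2 := (h (i - c).val (hlt i)).1
    simp only [hval] at h2
    rw [h2]
    constructor
    · rintro ⟨u, hu, hu'⟩
      refine ⟨u, hu, ?_⟩
      have := hval i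
      rw [hu'] at this
      rw [← this]; push_cast; ring
    · rintro ⟨u, hu, rfl⟩
      refine ⟨u, hu, ?_⟩
      have e : c + 2 * (u : ZMod r) - c = ((2 * u : ℕ) : ZMod r) := by push_cast; ring
      rw [e, ZMod.val_natCast, Nat.mod_eq_of_lt (by omega)]
  · have h2 := (h (i - c).val (hlt i)).2
    simp only [hval] at h2
    rw [h2]
    apply not_congr
    constructor
    · rintro ⟨u, hu, hu'⟩
      refine ⟨u, hu, ?_⟩
      have := hval i
      rw [hu'] at this
      rw [← this]; push_cast; ring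
    · rintro ⟨u, hu, rfl⟩
      refine ⟨u, hu, ?_⟩
      have e : c + 2 * (u : ZMod r) + 1 - c = ((2 * u + 1 : ℕ) : ZMod r) := by push_cast; ring
      rw [e, ZMod.val_natCast, Nat.mod_eq_of_lt (by omega)]

theorem Wd63.refl {c : ZMod r} {t : ℕ} (h : Wd63 r (fun i => a' (-i)) (fun i => a (-i)) c t) :
    Wd63 r a' a (-c - 2 * (t : ZMod r)) t := by
  obtain ⟨h1, h2, h3⟩ := h
  refine ⟨h1, fun i => ?_, fun i => ?_⟩
  · have h4 := h2 (-i)
    simp only [neg_neg] at h4
    rw [h4]
    constructor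
    · rintro ⟨s, hs, hs'⟩
      refine ⟨t - s, by omega, ?_⟩
      rw [Nat.cast_sub hs]
      linear_combination -hs'
    · rintro ⟨s, hs, hs'⟩
      refine ⟨t - s, by omega, ?_⟩
      rw [Nat.cast_sub hs]
      linear_combination -hs'
  · have h4 := h3 (-i)
    simp only [neg_neg] at h4
    rw [h4]
    apply not_congr
    constructor
    · rintro ⟨s, hs, hs'⟩
      refine ⟨t - s - 1, by omega, ?_⟩
      have e : ((t - s - 1 : ℕ) : ZMod r) = (t : ZMod r) - (s : ZMod r) - 1 := by
        rw [Nat.cast_sub (by omega : 1 ≤ t - s), Nat.cast_sub hs.le]; simp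
      rw [e]
      linear_combination -hs'
    · rintro ⟨s, hs, hs'⟩
      refine ⟨t - s - 1, by omega, ?_⟩
      have e : ((t - s - 1 : ℕ) : ZMod r) = (t : ZMod r) - (s : ZMod r) - 1 := by
        rw [Nat.cast_sub (by omega : 1 ≤ t - s), Nat.cast_sub hs.le]; simp
      rw [e]
      linear_combination -hs'

/-- `J+ = {c}`: the full word -/
theorem OneZ63.main [NeZero r] {c : ZMod r} (D : OneZ63 r a b b' a' c) :
    ∃ c t, Wd63 r a a' c t ∨ Wd63 r a' a c t := by
  have hr := D.hr
  have hne1 : c - 1 ≠ c := by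
    intro h
    exact ne49 (by omega : 6 ≤ r) (k := 1) (by omega) (by omega) (x := c) (y := c - 1)
      (by push_cast; ring) h.symm
  rcases Nat.lt_or_ge (a (c + 1)) 1 with h | h
  · obtain ⟨t, ht⟩ := D.case1 (by omega)
    exact ⟨c, t, Or.inl ht⟩
  · have h1 : a (c + 1) = 1 := by have := D.ll.ba (c + 1); omega
    have h2 : a (c - 1) = 1 := by
      have := D.toN.two (by simpa using h1)
      rw [neg_cast63 c (by omega)] at this
      exact this
    have h3 := D.ht (c - 1) hne1
    rw [show c - 1 - 1 = c - 2 by ring] at h3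
    obtain ⟨t, ht⟩ := D.refl.case1 (by
      show a' (-(1 - c + 1)) = 0
      rw [show -(1 - c + 1) = c - 2 by ring]
      omega)
    exact ⟨_, t, Or.inr ht.refl⟩

/-- the tight sums -/
theorem tight63 [NeZero r] (D : LLZ r a b b' a') (hr : 7 ≤ r) (hT : 4 * r + 1 ≤ tot49 a b b' a')
    {c : ZMod r} (hJ : ∀ j, a' (j - 1) = 1 → a j = 1 → j = c) :
    OneZ63 r a b b' a' c ∧ ∑ i, a i + ∑ i, a' i = r + 1 := by
  classical
  have hb : ∑ i, b i ≤ r := by
    have := Finset.sum_le_card_nsmul (Finset.univ : Finset (ZMod r)) b 1 fun i _ => D.bb i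
    simpa [ZMod.card] using this
  have hb' : ∑ i, b' i ≤ r := by
    have := Finset.sum_le_card_nsmul (Finset.univ : Finset (ZMod r)) b' 1 fun i _ => D.bb' i
    simpa [ZMod.card] using this
  have hS : ∀ j, a' (j - 1) + a j ≤ 1 + if j = c then 1 else 0 := by
    intro j
    have e1 := D.ba' (j - 1)
    have e2 := D.ba j
    split_ifs with h
    · omega
    · by_contra hlt
      exact h (hJ j (by omega) (by omega))
  have hc : ∑ j : ZMod r, (1 + if j = c then 1 else 0) = r + 1 := by
    simp only [Finset.sum_add_distrib, Finset.sum_const, Finset.card_univ, ZMod.card,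
      Finset.sum_ite_eq', Finset.mem_univ, if_true, smul_eq_mul]
    ring
  have hsum : ∑ j, (a' (j - 1) + a j) = ∑ i, a i + ∑ i, a' i := by
    rw [Finset.sum_add_distrib, shiftN49]
    ring
  have hle : ∑ i, a i + ∑ i, a' i ≤ r + 1 := by
    rw [← hsum, ← hc]
    exact Finset.sum_le_sum fun j _ => hS j
  unfold tot49 at hT
  have heq : ∑ i, a i + ∑ i, a' i = r + 1 := by omega
  have hex : ∀ j, 1 + (if j = c then 1 else 0) ≤ a' (j - 1) + a j := by
    intro j
    have := extract49 (S := fun j => a' (j - 1) + a j) (c := fun j => 1 + if j = c then 1 else 0)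
      (e := 0) hS (by rw [hc, hsum, heq]) {j}
    simpa using this
  have hbits : ∀ i, 3 ≤ b i + b' i + b (i + 1) + b' (i + 1) := by
    intro i
    have h1 := extract49 (S := fun j => b j + b' j) (c := fun _ : ZMod r => 2) (e := 1)
      (fun j => by have := D.bb j; have := D.bb' j; show b j + b' j ≤ 2; omega) (by
        simp only [Finset.sum_add_distrib, Finset.sum_const, Finset.card_univ, ZMod.card,
          smul_eq_mul]
        omega) {i, i + 1}
    have hne : i ≠ i + 1 := by
      intro h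
      exact ne49 (by omega : 6 ≤ r) (k := 1) (by omega) (by omega) (x := i + 1) (y := i)
        (by push_cast; ring) h.symm
    rw [Finset.sum_pair hne, Finset.sum_pair hne] at h1
    omega
  have hcc := hex c
  rw [if_pos rfl] at hcc
  have e1 := D.ba' (c - 1)
  have e2 := D.ba c
  refine ⟨⟨D, hr, by omega, by omega, fun j hj => ?_, hbits⟩, heq⟩
  have h1 := hex j
  have h2 := hS j
  rw [if_neg hj] at h1 h2
  omega

/-- (A1): one of `J+`, `J-` is a singleton -/
theorem LLZ.a1 [NeZero r] (D : LLZ r a b b' a') (hr : 7 ≤ r) (hT : 4 * r + 1 ≤ tot49 a b b' a')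
    (hJ : (∃ c, ∀ j, a' (j - 1) = 1 → a j = 1 → j = c) ∨
      (∃ c, ∀ j, a (j - 1) = 1 → a' j = 1 → j = c)) :
    ∑ i, a i + ∑ i, a' i = r + 1 ∧ ∃ c t, Wd63 r a a' c t ∨ Wd63 r a' a c t := by
  rcases hJ with ⟨c, hc⟩ | ⟨c, hc⟩
  · obtain ⟨h1, h2⟩ := tight63 D hr hT hc
    exact ⟨h2, h1.main⟩
  · obtain ⟨h1, h2⟩ := tight63 D.swap hr (by rw [tot_swap49]; exact hT) hc
    obtain ⟨c', t, h3⟩ := h1.main
    exact ⟨by omega, c', t, h3.symm⟩

end cyc

end Pool.Agent.P0
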