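import Pool.Agent.P0.E149
import Pool.Agent.FRC.LemL

set_option linter.all false

/-!
# P0: the two ends of the longest path of an optimal family
-/

namespace Pool.Agent.P0

open Pool.Agent.Helper14.LongCyc Pool.Agent.LCK Pool.Agent.FRC

universe u

variable {V : Type u} {G : SimpleGraph V}

theorem seg_pa49 {U : Finset V} {p : ℕ} {v : ℕ → V} (h : Pa G U p v) :
    ∀ (n i : ℕ), i + n < p → Pth G (v i) (v (i + n)) (seg v i n) := by
  intro n
  induction n with
  | zero => intro i _; simpa [seg] using Pth.singleton (v i)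
  | succ n ih =>
    intro i hi
    have h1 := ih (i + 1) (by omega)
    have e : seg v i (n + 1) = v i :: seg v (i + 1) n := by
      simp only [seg, List.range'_succ, List.map_cons]
    rw [e, show i + (n + 1) = i + 1 + n by ring]
    refine h1.cons (h.ch i (by omega)) ?_
    rw [mem_seg]
    rintro ⟨j, h2, h3, h4⟩
    have := h.inj i j (by omega) (by omega) h4
    omega

theorem pa_of_pth49 {a b : V} {l : List V} (h : Pth G a b l) {U : Finset V}
    (hU : ∀ z ∈ l, z ∈ U) : ∃ v : ℕ → V, Pa G U l.length v ∧ v 0 = a ∧ v (l.length - 1) = b ∧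
      ∀ z, z ∈ l ↔ ∃ i, i < l.length ∧ v i = z := by
  have hpos := h.length_pos
  have hv : ∀ i (hi : i < l.length), l.getD i a = l[i] := fun i hi => by
    rw [List.getD_eq_getElem?_getD, List.getElem?_eq_getElem hi]; rfl
  refine ⟨fun i => l.getD i a, ⟨?_, ?_, ?_⟩, ?_, ?_, ?_⟩
  · intro i hi
    show l.getD i a ∈ U
    rw [hv i hi]
    exact hU _ (List.getElem_mem hi)
  · intro i j hi hj hij
    change l.getD i a = l.getD j a at hij
    rw [hv i hi, hv j hj] at hij
    exact (h.1.getElem_inj_iff).1 hij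
  · intro i hi
    show G.Adj (l.getD i a) (l.getD (i + 1) a)
    rw [hv i (by omega), hv (i + 1) hi]
    exact (List.isChain_iff_getElem.1 h.2.1) i hi
  · show l.getD 0 a = a
    rw [hv 0 (by omega)]
    have h1 := h.2.2.1
    rw [List.head?_eq_getElem?, List.getElem?_eq_getElem (by omega)] at h1
    exact Option.some.inj h1
  · show l.getD (l.length - 1) a = b
    rw [hv _ (by omega)]
    have h1 := h.2.2.2
    rw [List.getLast?_eq_getElem?, List.getElem?_eq_getElem (by omega)] at h1
    exact Option.some.inj h1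
  · intro z
    constructor
    · intro hz
      obtain ⟨i, hi, he⟩ := List.getElem_of_mem hz
      exact ⟨i, hi, by show l.getD i a = z; rw [hv i hi]; exact he⟩
    · rintro ⟨i, hi, he⟩
      change l.getD i a = z at he
      rw [hv i hi] at he
      rw [← he]
      exact List.getElem_mem hi

/-- an optimal family with a path of its rest, given by its sequence, longest over all optimal
families -/
structure OptV49 (G : SimpleGraph V) (U : Finset V) (r m : ℕ) (F : Finset (Finset V))
    (v : ℕ → V) : Prop where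
  opt : Opt49 G U r F
  pa : Pa G (rest U F) m v
  pos : 1 ≤ m
  max : ∀ F' a b l', Opt49 G U r F' → Pth G a b l' → (∀ z ∈ l', z ∈ rest U F') → l'.length ≤ m

theorem OptP49.toV {U : Finset V} {r : ℕ} {F : Finset (Finset V)} {w w' : V} {l : List V}
    (h : OptP49 G U r F w w' l) : ∃ v, OptV49 G U r l.length F v ∧ v 0 = w ∧
      v (l.length - 1) = w' ∧ ∀ z, z ∈ l ↔ ∃ i, i < l.length ∧ v i = z := by
  obtain ⟨v, h1, h2, h3, h4⟩ := pa_of_pth49 h.path h.sub
  exact ⟨v, ⟨h.opt, h1, h.path.length_pos, h.max⟩, h2, h3, h4⟩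

theorem OptV49.toP {U : Finset V} {r m : ℕ} {F : Finset (Finset V)} {v : ℕ → V}
    (h : OptV49 G U r m F v) : OptP49 G U r F (v 0) (v (m - 1)) (seg v 0 (m - 1)) where
  opt := h.opt
  path := by
    have := h.pos
    have h1 := seg_pa49 h.pa (m - 1) 0 (by omega)
    rwa [Nat.zero_add] at h1
  sub := fun z hz => by
    have := h.pos
    rw [mem_seg] at hz
    obtain ⟨j, _, h2, rfl⟩ := hz
    exact h.pa.mem j (by omega)
  max := fun F' a b m' h1 h2 h3 => by
    have := h.pos
    have := h.max F' a b m' h1 h2 h3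
    rw [seg_length]; omega

theorem OptV49.of_pa {U : Finset V} {r m : ℕ} {F : Finset (Finset V)} {v v' : ℕ → V}
    (h : OptV49 G U r m F v) (h' : Pa G (rest U F) m v') : OptV49 G U r m F v' :=
  ⟨h.opt, h', h.pos, h.max⟩

theorem Pa.rev49 {U : Finset V} {m : ℕ} {v : ℕ → V} (h : Pa G U m v) :
    Pa G U m (fun i => v (m - 1 - i)) := by
  refine ⟨fun i hi => h.mem _ (by omega), fun i j hi hj hij => ?_, fun i hi => ?_⟩
  · have := h.inj _ _ (by omega) (by omega) hij
    omega
  · have := h.ch (m - 1 - (i + 1)) (by omega)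
    rw [show m - 1 - (i + 1) + 1 = m - 1 - i by omega] at this
    exact this.symm

theorem OptV49.rev {U : Finset V} {r m : ℕ} {F : Finset (Finset V)} {v : ℕ → V}
    (h : OptV49 G U r m F v) : OptV49 G U r m F (fun i => v (m - 1 - i)) :=
  h.of_pa (Pa.rev49 h.pa)

theorem Opt49.noLong [DecidableEq V] {U : Finset V} {r : ℕ} {F : Finset (Finset V)}
    (h : Opt49 G U r F) : NoLong G r (rest U F) := by
  refine noLong_of fun C hC hCs => ?_
  by_contra hcon
  obtain ⟨h1, h2⟩ := h.fam.add hC hCs (Nat.le_of_not_lt hcon)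
  have := h.max _ h1
  omega

theorem tot_le49 [DecidableEq V] {U : Finset V} {r : ℕ} {F : Finset (Finset V)}
    (h : Fam G U (fun L => r ≤ L) F) : tot F ≤ U.card := by
  have := h.card_rest
  omega

theorem card_le49 [DecidableEq V] {U : Finset V} {r : ℕ} {F : Finset (Finset V)}
    (h : Fam G U (fun L => r ≤ L) F) : F.card ≤ U.card := by
  have h1 : F.card • 1 ≤ ∑ s ∈ F, s.card := Finset.card_nsmul_le_sum _ _ _ fun s hs => by
    have := (h.cyc s hs).three_le
    omega
  have h2 := tot_le49 h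
  unfold tot at h2
  rw [smul_eq_mul, mul_one] at h1
  omega

/-- there is an optimal family -/
theorem exists_opt49 [DecidableEq V] (G : SimpleGraph V) (U : Finset V) (r : ℕ) :
    ∃ F, Opt49 G U r F := by
  obtain ⟨F0, h0, h0max⟩ := exists_max_nat (α := Finset (Finset V))
    (fun F => Fam G U (fun L => r ≤ L) F) (fun F => F.card) U.card (fun F hF => card_le49 hF)
    ⟨∅, Fam.empty⟩
  obtain ⟨F1, h1, h1max⟩ := exists_max_nat (α := Finset (Finset V))
    (fun F => Fam G U (fun L => r ≤ L) F ∧ F.card = F0.card) (fun F => U.card - tot F) U.card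
    (fun F hF => Nat.sub_le _ _) ⟨F0, h0, rfl⟩
  refine ⟨F1, h1.1, fun F' hF' => ?_, fun F' hF' hc => ?_⟩
  · rw [h1.2]; exact h0max F' hF'
  · have h2 := h1max F' ⟨hF', hc.trans h1.2⟩
    have h3 := tot_le49 hF'
    have h4 := tot_le49 h1.1
    omega

/-- there is an optimal family with a path that is longest over all optimal families -/
theorem exists_optV49 [DecidableEq V] {U : Finset V} {r : ℕ}
    (hne : ∀ F, Opt49 G U r F → (rest U F).Nonempty) : ∃ m F v, OptV49 G U r m F v := by
  obtain ⟨F0, h0⟩ := exists_opt49 G U r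
  obtain ⟨x, hx⟩ := hne F0 h0
  obtain ⟨⟨F, l⟩, ⟨a, b, h1, h2, h3⟩, hmax⟩ := exists_max_nat (α := Finset (Finset V) × List V)
    (fun w => ∃ a b, Opt49 G U r w.1 ∧ Pth G a b w.2 ∧ ∀ z ∈ w.2, z ∈ rest U w.1)
    (fun w => w.2.length) U.card (by
      rintro ⟨F, l⟩ ⟨a, b, h1, h2, h3⟩
      exact h2.length_le fun z hz => rest_subset _ _ (h3 z hz))
    ⟨(F0, [x]), x, x, h0, Pth.singleton x, fun z hz => by rw [List.mem_singleton.1 hz]; exact hx⟩
  have hP : OptP49 G U r F a b l := ⟨h1, h2, h3, fun F' a' b' l' k1 k2 k3 =>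
    hmax (F', l') ⟨a', b', k1, k2, k3⟩⟩
  obtain ⟨v, hv, -⟩ := hP.toV
  exact ⟨_, F, v, hv⟩

section

variable [DecidableEq V] {U : Finset V} {r m : ℕ} {F : Finset (Finset V)} {v : ℕ → V}

/-- a vertex off the path is not adjacent to its first vertex -/
theorem OptV49.off (h : OptV49 G U r m F v) {z : V} (hz : z ∈ rest U F)
    (hzl : ∀ i, i < m → v i ≠ z) : ¬ G.Adj (v 0) z := by
  intro ha
  have h0 := h.pos
  have h1 := h.toP.path.cons ha.symm (by
    rw [mem_seg]
    rintro ⟨j, _, h2, h3⟩
    exact hzl j (by omega) h3.symm)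
  have h2 := h.max F _ _ _ h.opt h1 (by
    intro y hy
    rcases List.mem_cons.1 hy with hy | hy
    · rw [hy]; exact hz
    · exact h.toP.sub y hy)
  rw [List.length_cons, seg_length] at h2
  omega

/-- the neighbours of the first vertex are among the first `r - 1` vertices -/
theorem OptV49.nb (h : OptV49 G U r m F v) (hr : 3 ≤ r) {z : V} (hz : z ∈ rest U F)
    (ha : G.Adj (v 0) z) : ∃ j, 1 ≤ j ∧ j + 1 < r ∧ j < m ∧ z = v j := by
  have h0 := h.pos
  by_contra hcon
  refine h.off hz ?_ ha
  rintro j hj rfl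
  refine hcon ⟨j, ?_, Pa.cyc h.pa hr h.opt.noLong hj ha, hj, rfl⟩
  rcases Nat.eq_zero_or_pos j with h1 | h1
  · exact absurd ha (by rw [h1]; exact G.loopless.irrefl _)
  · exact h1

theorem dg_le49 {H S : Finset V} {x : V} (hs : ∀ z ∈ H, G.Adj x z → z ∈ S) :
    dg G H x ≤ S.card := by
  classical
  unfold dg
  refine Finset.card_le_card fun z hz => ?_
  rw [Finset.mem_filter] at hz
  exact hs z hz.1 hz.2

/-- the second vertex has no neighbour off the path -/
theorem OptV49.second (h : OptV49 G U r m F v) {k : ℕ} (hr : 4 ≤ r) (hk : F.card + 1 ≤ k)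
    (hdeg : ∀ v ∈ U, 2 * k * r ≤ 3 * dg G U v) (hm : 2 ≤ m) {z : V} (hz : z ∈ rest U F)
    (hzl : ∀ i, i < m → v i ≠ z) : ¬ G.Adj (v 1) z := by
  classical
  intro ha
  have hpa' : Pa G (rest U F) m (fun i => if i = 0 then z else v i) := by
    refine ⟨fun i hi => ?_, fun i j hi hj hij => ?_, fun i hi => ?_⟩
    · show (if i = 0 then z else v i) ∈ rest U F
      split_ifs
      · exact hz
      · exact h.pa.mem i hi
    · change (if i = 0 then z else v i) = (if j = 0 then z else v j) at hij
      split_ifs at hij with h1 h2 h2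
      · omega
      · exact absurd hij.symm (hzl j hj)
      · exact absurd hij (hzl i hi)
      · exact h.pa.inj i j hi hj hij
    · show G.Adj (if i = 0 then z else v i) (if i + 1 = 0 then z else v (i + 1))
      rw [if_neg (by omega : ¬ i + 1 = 0)]
      split_ifs with h1
      · subst h1; exact ha.symm
      · exact h.pa.ch i hi
  have h' := h.of_pa hpa'
  have hv0 : ∀ i, i < m → (fun i => if i = 0 then z else v i) i ≠ v 0 := by
    intro i hi
    show (if i = 0 then z else v i) ≠ v 0
    split_ifs with h1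
    · exact fun hh => hzl 0 (by omega) hh.symm
    · exact fun hh => h1 (h.pa.inj i 0 hi (by omega) hh)
  have e1 := h.toP.e2 hr hk hdeg hz (by
    rw [mem_seg]
    rintro ⟨j, _, h2, h3⟩
    exact hzl j (by omega) h3.symm)
  have e2 := h'.toP.e2 hr hk hdeg (h.pa.mem 0 (by omega)) (by
    rw [mem_seg]
    rintro ⟨j, _, h2, h3⟩
    exact hv0 j (by omega) h3.symm)
  simp only [if_true] at e2
  -- the two neighbourhoods
  set A := (Finset.range (r - 1)).filter (fun j => 1 ≤ j ∧ j < m ∧ G.Adj (v 0) (v j)) with hA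
  set B := (Finset.range (r - 1)).filter (fun j => 1 ≤ j ∧ j < m ∧ G.Adj z (v j)) with hB
  have d1 : dg G (rest U F) (v 0) ≤ A.card := by
    refine (dg_le49 (S := A.image v) ?_).trans Finset.card_image_le
    intro y hy hya
    obtain ⟨j, j1, j2, j3, rfl⟩ := h.nb (by omega) hy hya
    exact Finset.mem_image.2 ⟨j, Finset.mem_filter.2 ⟨Finset.mem_range.2 (by omega), j1, j3, hya⟩,
      rfl⟩
  have d2 : dg G (rest U F) z ≤ B.card := by
    refine (dg_le49 (S := B.image v) ?_).trans Finset.card_image_le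
    intro y hy hya
    obtain ⟨j, j1, j2, j3, j4⟩ := h'.nb (by omega) hy (by simpa using hya)
    rw [if_neg (by omega : ¬ j = 0)] at j4
    subst j4
    exact Finset.mem_image.2 ⟨j, Finset.mem_filter.2 ⟨Finset.mem_range.2 (by omega), j1, j3, hya⟩,
      rfl⟩
  have d3 : (A.image (fun j => j - 1)).card = A.card := by
    refine Finset.card_image_of_injOn fun i hi j hj hij => ?_
    have h1 := (Finset.mem_filter.1 (Finset.mem_coe.1 hi)).2.1
    have h2 := (Finset.mem_filter.1 (Finset.mem_coe.1 hj)).2.1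
    change i - 1 = j - 1 at hij
    omega
  have d4 : Disjoint (A.image (fun j => j - 1)) B := by
    rw [Finset.disjoint_left]
    intro i hi hiB
    obtain ⟨j, hj, rfl⟩ := Finset.mem_image.1 hi
    obtain ⟨j0, j1, j2, j3⟩ := Finset.mem_filter.1 hj
    obtain ⟨b0, b1, b2, b3⟩ := Finset.mem_filter.1 hiB
    -- a longer path
    have s1 := seg_pa49 h.pa (j - 1) 0 (by omega)
    rw [Nat.zero_add] at s1
    have s2 := s1.reverse.cons b3 (by
      rw [List.mem_reverse, mem_seg]
      rintro ⟨t, _, t2, t3⟩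
      exact hzl t (by omega) t3.symm)
    have s3 := seg_pa49 h.pa (m - 1 - j) j (by omega)
    have s4 := s2.append s3 j3 (by
      intro x hx hx'
      rw [mem_seg] at hx'
      obtain ⟨t, t1, t2, rfl⟩ := hx'
      rcases List.mem_cons.1 hx with hx | hx
      · exact hzl t (by omega) hx
      · rw [List.mem_reverse, mem_seg] at hx
        obtain ⟨t', _, t4, t5⟩ := hx
        have := h.pa.inj t t' (by omega) (by omega) t5
        omega)
    have s5 := h.max F _ _ _ h.opt s4 (by
      intro x hx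
      rcases List.mem_append.1 hx with hx | hx
      · rcases List.mem_cons.1 hx with hx | hx
        · rw [hx]; exact hz
        · rw [List.mem_reverse, mem_seg] at hx
          obtain ⟨t', _, t4, rfl⟩ := hx
          exact h.pa.mem t' (by omega)
      · rw [mem_seg] at hx
        obtain ⟨t', _, t4, rfl⟩ := hx
        exact h.pa.mem t' (by omega))
    rw [List.length_append, List.length_cons, List.length_reverse, seg_length, seg_length] at s5
    omega
  have d5 : (A.image (fun j => j - 1) ∪ B).card ≤ r - 1 := by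
    rw [← Finset.card_range (r - 1)]
    refine Finset.card_le_card (Finset.union_subset ?_ (Finset.filter_subset _ _))
    intro i hi
    obtain ⟨j, hj, rfl⟩ := Finset.mem_image.1 hi
    have := Finset.mem_range.1 (Finset.mem_filter.1 hj).1
    exact Finset.mem_range.2 (by omega)
  rw [Finset.card_union_of_disjoint d4, d3] at d5
  omega

/-- the neighbours of the second vertex -/
theorem OptV49.nb_second (h : OptV49 G U r m F v) {k : ℕ} (hr : 4 ≤ r) (hk : F.card + 1 ≤ k)
    (hdeg : ∀ v ∈ U, 2 * k * r ≤ 3 * dg G U v) (hm : 2 ≤ m) {z : V} (hz : z ∈ rest U F)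
    (ha : G.Adj (v 1) z) : ∃ j, j < r ∧ j ≠ 1 ∧ j < m ∧ z = v j := by
  by_contra hcon
  refine h.second hr hk hdeg hm hz ?_ ha
  rintro j hj rfl
  refine hcon ⟨j, ?_, ?_, hj, rfl⟩
  · rcases Nat.lt_or_ge j 2 with h1 | h1
    · omega
    · have hpa : Pa G (rest U F) (m - 1) (fun i => v (i + 1)) :=
        ⟨fun i hi => h.pa.mem _ (by omega), fun i i' hi hi' hii => by
          have := h.pa.inj _ _ (by omega) (by omega) hii
          omega, fun i hi => h.pa.ch (i + 1) (by omega)⟩
      have := Pa.cyc hpa (by omega) h.opt.noLong (m := j - 1) (by omega) (by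
        show G.Adj (v (0 + 1)) (v (j - 1 + 1))
        rw [Nat.zero_add, show j - 1 + 1 = j by omega]
        exact ha)
      omega
  · rintro rfl
    exact G.loopless.irrefl _ ha

theorem OptV49.deg_second (h : OptV49 G U r m F v) {k : ℕ} (hr : 4 ≤ r) (hk : F.card + 1 ≤ k)
    (hdeg : ∀ v ∈ U, 2 * k * r ≤ 3 * dg G U v) (hm : 2 ≤ m) :
    dg G (rest U F) (v 1) ≤ r - 1 := by
  classical
  have h1 : ((Finset.range r).erase 1).card = r - 1 := by
    rw [Finset.card_erase_of_mem (Finset.mem_range.2 (by omega)), Finset.card_range]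
  rw [← h1]
  refine (dg_le49 (S := ((Finset.range r).erase 1).image v) ?_).trans Finset.card_image_le
  intro z hz hza
  obtain ⟨j, j1, j2, j3, rfl⟩ := h.nb_second hr hk hdeg hm hz hza
  exact Finset.mem_image.2 ⟨j, Finset.mem_erase.2 ⟨j2, Finset.mem_range.2 j1⟩, rfl⟩

/-- (E3) for the path -/
theorem OptV49.e3 (h : OptV49 G U r m F v) {k : ℕ} (hr : 6 ≤ r) (hk : F.card + 1 ≤ k)
    (hdeg : ∀ v ∈ U, 2 * k * r ≤ 3 * dg G U v) (hm : r + 1 ≤ m) :
    4 * r ≤ 2 * (dg G (rest U F) (v 0) + dg G (rest U F) (v (m - 1))) + dg G (rest U F) (v 1)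
      + dg G (rest U F) (v (m - 2)) := by
  have h1 := seg_pa49 h.pa (m - 3) 1 (by omega)
  rw [show 1 + (m - 3) = m - 2 by omega] at h1
  refine h.opt.e3 hr hk hdeg h1 (h.pa.ch 0 (by omega)) ?_ ?_ ?_ ?_ (h.pa.mem _ (by omega))
    (h.pa.mem _ (by omega)) ?_ ?_
  · have := h.pa.ch (m - 2) (by omega)
    rwa [show m - 2 + 1 = m - 1 by omega] at this
  · intro hh
    have := h.pa.inj _ _ (by omega) (by omega) hh
    omega
  · rw [mem_seg]
    rintro ⟨j, j1, j2, j3⟩
    have := h.pa.inj _ _ (by omega) (by omega) j3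
    omega
  · rw [mem_seg]
    rintro ⟨j, j1, j2, j3⟩
    have := h.pa.inj _ _ (by omega) (by omega) j3
    omega
  · intro z hz
    rw [mem_seg] at hz
    obtain ⟨j, j1, j2, rfl⟩ := hz
    exact h.pa.mem j (by omega)
  · rw [seg_length]; omega

/-- **the two ends of the path have degree sum at least `r + 1`** -/
theorem OptV49.ends (h : OptV49 G U r m F v) {k : ℕ} (hr : 6 ≤ r) (hk : F.card + 1 ≤ k)
    (hdeg : ∀ v ∈ U, 2 * k * r ≤ 3 * dg G U v) (hm : r + 1 ≤ m) :
    r + 1 ≤ dg G (rest U F) (v 0) + dg G (rest U F) (v (m - 1)) := by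
  have h1 := h.e3 hr hk hdeg hm
  have h2 := h.deg_second (by omega) hk hdeg (by omega)
  have h3 := h.rev.deg_second (by omega) hk hdeg (by omega)
  rw [show m - 1 - 1 = m - 2 by omega] at h3
  omega

/-- **no crossing**: every neighbour of the first vertex comes before every neighbour of the last -/
theorem OptV49.no_cross (h : OptV49 G U r m F v) (hr : 3 ≤ r) (hm : r ≤ m)
    (hsum : r ≤ dg G (rest U F) (v 0) + dg G (rest U F) (v (m - 1))) {i j : ℕ} (hij : i < j)
    (hj : j < m) (hi : G.Adj (v (m - 1)) (v i)) (hja : G.Adj (v 0) (v j)) : False := by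
  classical
  -- the cycle of a crossing
  have hcyc : ∀ i j, i < j → j < m → G.Adj (v (m - 1)) (v i) → G.Adj (v 0) (v j) →
      i + 1 + (m - j) < r := by
    intro i j hij hj hi hja
    by_contra hcon
    have hi1 : i ≠ 0 := by
      rintro rfl
      have := Pa.cyc h.pa hr h.opt.noLong (m := m - 1) (by omega) hi.symm
      omega
    have s1 := seg_pa49 h.pa i 0 (by omega)
    have s2 := seg_pa49 h.pa (m - 1 - j) j (by omega)
    rw [Nat.zero_add] at s1
    rw [show j + (m - 1 - j) = m - 1 by omega] at s2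
    have s3 := s1.append s2.reverse hi.symm (by
      intro x hx hx'
      rw [List.mem_reverse, mem_seg] at hx'
      obtain ⟨t, t1, t2, rfl⟩ := hx'
      rw [mem_seg] at hx
      obtain ⟨t', _, t4, t5⟩ := hx
      have := h.pa.inj t t' (by omega) (by omega) t5
      omega)
    have s4 : Cyc G (seg v 0 i ++ (seg v j (m - 1 - j)).reverse) := by
      refine ⟨?_, _, _, s3, hja.symm⟩
      rw [List.length_append, List.length_reverse, seg_length, seg_length]
      omega
    have s5 := h.opt.noLong _ s4 (by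
      intro x hx
      rcases List.mem_append.1 hx with hx | hx
      · rw [mem_seg] at hx
        obtain ⟨t', _, t4, rfl⟩ := hx
        exact h.pa.mem t' (by omega)
      · rw [List.mem_reverse, mem_seg] at hx
        obtain ⟨t', _, t4, rfl⟩ := hx
        exact h.pa.mem t' (by omega))
    rw [List.length_append, List.length_reverse, seg_length, seg_length] at s5
    omega
  -- a crossing with smallest gap
  obtain ⟨⟨i0, j0⟩, ⟨p1, p2, p3, p4⟩, pmin⟩ := exists_max_nat (α := ℕ × ℕ)
    (fun w => w.1 < w.2 ∧ w.2 < m ∧ G.Adj (v (m - 1)) (v w.1) ∧ G.Adj (v 0) (v w.2))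
    (fun w => m - (w.2 - w.1)) m (fun w hw => Nat.sub_le _ _) ⟨(i, j), hij, hj, hi, hja⟩
  simp only at p1 p2 p3 p4 pmin
  have hmin : ∀ i j, i < j → j < m → G.Adj (v (m - 1)) (v i) → G.Adj (v 0) (v j) →
      j0 - i0 ≤ j - i := by
    intro i j h1 h2 h3 h4
    have := pmin (i, j) ⟨h1, h2, h3, h4⟩
    simp only at this
    omega
  have hc0 := hcyc i0 j0 p1 p2 p3 p4
  set A := (Finset.range m).filter (fun j => 1 ≤ j ∧ G.Adj (v 0) (v j)) with hA
  set B := (Finset.range (m - 1)).filter (fun j => G.Adj (v (m - 1)) (v j)) with hB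
  have d1 : dg G (rest U F) (v 0) ≤ A.card := by
    refine (dg_le49 (S := A.image v) ?_).trans Finset.card_image_le
    intro y hy hya
    obtain ⟨j, j1, j2, j3, rfl⟩ := h.nb (by omega) hy hya
    exact Finset.mem_image.2 ⟨j, Finset.mem_filter.2 ⟨Finset.mem_range.2 (by omega), j1, hya⟩,
      rfl⟩
  have d2 : dg G (rest U F) (v (m - 1)) ≤ B.card := by
    refine (dg_le49 (S := B.image v) ?_).trans Finset.card_image_le
    intro y hy hya
    obtain ⟨j, j1, j2, j3, j4⟩ := h.rev.nb (by omega) hy (by simpa using hya)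
    subst j4
    exact Finset.mem_image.2 ⟨m - 1 - j, Finset.mem_filter.2 ⟨Finset.mem_range.2 (by omega), hya⟩,
      rfl⟩
  have d3 : (A.image (fun j => j - 1)).card = A.card := by
    refine Finset.card_image_of_injOn fun i hi j hj hij => ?_
    have h1 := (Finset.mem_filter.1 (Finset.mem_coe.1 hi)).2.1
    have h2 := (Finset.mem_filter.1 (Finset.mem_coe.1 hj)).2.1
    change i - 1 = j - 1 at hij
    omega
  have d4 : Disjoint (A.image (fun j => j - 1)) B := by
    rw [Finset.disjoint_left]
    intro i hi hiB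
    obtain ⟨j, hj, rfl⟩ := Finset.mem_image.1 hi
    obtain ⟨j0', j1, j2⟩ := Finset.mem_filter.1 hj
    obtain ⟨b0, b1⟩ := Finset.mem_filter.1 hiB
    rw [Finset.mem_range] at j0'
    have := hcyc (j - 1) j (by omega) (by omega) b1 j2
    omega
  have d5 : (A.image (fun j => j - 1) ∪ B) ⊆ (Finset.range (m - 1)) \ (Finset.Ico (i0 + 1) (j0 - 1)) := by
    intro t ht
    rw [Finset.mem_sdiff, Finset.mem_range, Finset.mem_Ico]
    rcases Finset.mem_union.1 ht with ht | ht
    · obtain ⟨j, hj, rfl⟩ := Finset.mem_image.1 ht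
      obtain ⟨j0', j1, j2⟩ := Finset.mem_filter.1 hj
      rw [Finset.mem_range] at j0'
      refine ⟨by omega, fun hh => ?_⟩
      have := hmin i0 j (by omega) (by omega) p3 j2
      omega
    · obtain ⟨b0, b1⟩ := Finset.mem_filter.1 ht
      rw [Finset.mem_range] at b0
      refine ⟨b0, fun hh => ?_⟩
      have := hmin t j0 (by omega) (by omega) b1 p4
      omega
  have d6 := Finset.card_le_card d5
  rw [Finset.card_union_of_disjoint d4, d3] at d6
  have d7 : ((Finset.range (m - 1)) \ (Finset.Ico (i0 + 1) (j0 - 1))).card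
      = m - 1 - (j0 - 1 - (i0 + 1)) := by
    rw [Finset.card_sdiff_of_subset, Finset.card_range, Nat.card_Ico]
    intro t ht
    rw [Finset.mem_Ico] at ht
    exact Finset.mem_range.2 (by omega)
  rw [d7] at d6
  omega

end

end Pool.Agent.P0
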