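import Pool.Agent.P0.E149
import Pool.Agent.FRC.Defs
import Pool.Agent.Helper14.LongCyc.Piece

set_option linter.all false

/-!
# P0, row I6-A: the piece off a longest path of order at most `r`
-/

namespace Pool.Agent.P0

open Pool.Agent.Helper14.LongCyc Pool.Agent.LCK

universe u

variable {V : Type u} {G : SimpleGraph V}

theorem cf_eq85 {Q : List V} (hp : 0 < Q.length) {i : ℕ} (hi : i < Q.length) :
    cf Q hp i = Q[i]'hi := by
  simp only [cf, List.get_eq_getElem, Nat.mod_eq_of_lt hi]

theorem cf_head85 {a b : V} {c : List V} (h : Pth G a b c) (hp : 0 < c.length) :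
    cf c hp 0 = a := by
  rw [cf_eq85 hp hp]
  have := h.2.2.1
  rw [List.head?_eq_getElem?, List.getElem?_eq_getElem hp] at this
  simpa using this

theorem cf_last85 {a b : V} {c : List V} (h : Pth G a b c) (hp : 0 < c.length) :
    cf c hp (c.length - 1) = b := by
  rw [cf_eq85 hp (by omega)]
  have := h.2.2.2
  rw [List.getLast?_eq_getElem?, List.getElem?_eq_getElem (by omega)] at this
  simpa using this

/-- initial part of a path -/
theorem take_pth85 {a b : V} {l : List V} (h : Pth G a b l) (hp : 0 < l.length) {j : ℕ}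
    (hj : j < l.length) :
    Pth G a (cf l hp j) (l.take (j + 1)) ∧ (l.take (j + 1)).length = j + 1 := by
  have hlen : (l.take (j + 1)).length = j + 1 := by rw [List.length_take]; omega
  refine ⟨⟨h.1.sublist (List.take_sublist _ _), h.2.1.take _, ?_, ?_⟩, hlen⟩
  · rw [List.head?_take, if_neg (by omega)]
    exact h.2.2.1
  · rw [List.getLast?_eq_getElem?, hlen, List.getElem?_take, if_pos (by omega),
      Nat.add_sub_cancel, List.getElem?_eq_getElem hj, cf_eq85 hp hj]

/-- final part of a path -/
theorem drop_pth85 {a b : V} {l : List V} (h : Pth G a b l) (hp : 0 < l.length) {j : ℕ}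
    (hj : j < l.length) :
    Pth G (cf l hp j) b (l.drop j) ∧ (l.drop j).length = l.length - j := by
  have hlen : (l.drop j).length = l.length - j := List.length_drop
  refine ⟨⟨h.1.sublist (List.drop_sublist _ _), h.2.1.drop _, ?_, ?_⟩, hlen⟩
  · rw [List.head?_drop, List.getElem?_eq_getElem hj, cf_eq85 hp hj]
  · rw [List.getLast?_drop, if_neg (by omega)]
    exact h.2.2.2

/-- a path attached to a longest path by one of its ends -/
theorem attach85 {R : Finset V} {w w' : V} {l : List V} (hl : Pth G w w' l)
    (hlR : ∀ z ∈ l, z ∈ R) (hmax : ∀ a b m, Pth G a b m → (∀ z ∈ m, z ∈ R) → m.length ≤ l.length)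
    (hp : 0 < l.length) {z x : V} {q : List V} (hq : Pth G z x q) (hqR : ∀ y ∈ q, y ∈ R ∧ y ∉ l)
    {j : ℕ} (hj : j < l.length) (hx : G.Adj x (cf l hp j)) :
    q.length ≤ j ∧ j + 1 + q.length ≤ l.length := by
  obtain ⟨t1, t2⟩ := take_pth85 hl hp hj
  obtain ⟨d1, d2⟩ := drop_pth85 hl hp hj
  constructor
  · have h1 := hq.append d1 hx (fun y hy hy' => (hqR y hy).2 (List.mem_of_mem_drop hy'))
    have h2 := hmax _ _ _ h1 (by
      intro y hy
      rcases List.mem_append.1 hy with hy | hy
      · exact (hqR y hy).1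
      · exact hlR y (List.mem_of_mem_drop hy))
    rw [List.length_append, d2] at h2
    omega
  · have h1 := t1.append hq.reverse hx.symm (fun y hy hy' =>
      (hqR y (List.mem_reverse.1 hy')).2 (List.mem_of_mem_take hy))
    have h2 := hmax _ _ _ h1 (by
      intro y hy
      rcases List.mem_append.1 hy with hy | hy
      · exact hlR y (List.mem_of_mem_take hy)
      · exact (hqR y (List.mem_reverse.1 hy)).1)
    rw [List.length_append, t2, List.length_reverse] at h2
    exact h2

/-- an interval without two consecutive elements -/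
theorem sparse85 {B : Finset ℕ} {L m : ℕ} (hB : ∀ i ∈ B, L ≤ i ∧ i + 1 + L ≤ m)
    (h2 : ∀ i ∈ B, i + 1 ∉ B) (hne : B.Nonempty) : 2 * B.card + 2 * L ≤ m + 1 := by
  classical
  have h3 : Disjoint B (B.image (· + 1)) := by
    rw [Finset.disjoint_left]
    intro t ht ht'
    obtain ⟨s, hs, rfl⟩ := Finset.mem_image.1 ht'
    exact h2 s hs ht
  have h4 : (B.image (· + 1)).card = B.card :=
    Finset.card_image_of_injective _ (fun a b hab => by simpa using hab)
  have h5 : B ∪ B.image (· + 1) ⊆ Finset.Icc L (m - L) := by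
    intro t ht
    rw [Finset.mem_Icc]
    rcases Finset.mem_union.1 ht with ht | ht
    · have := hB t ht
      omega
    · obtain ⟨s, hs, rfl⟩ := Finset.mem_image.1 ht
      have := hB s hs
      omega
  have h6 := Finset.card_le_card h5
  rw [Finset.card_union_of_disjoint h3, h4, Nat.card_Icc] at h6
  obtain ⟨i, hi⟩ := hne
  have := hB i hi
  omega

/-- a path from inside to outside contains an edge leaving -/
theorem exit85 {S : Finset V} : ∀ (p : List V) (a b : V), Pth G a b p → a ∈ S → b ∉ S →
    ∃ x y, x ∈ S ∧ y ∉ S ∧ G.Adj x y ∧ x ∈ p ∧ y ∈ p := by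
  intro p
  induction p with
  | nil => intro a b h; exact absurd rfl h.ne_nil
  | cons v t ih =>
    intro a b h ha hb
    have hva : v = a := by simpa using h.2.2.1
    subst hva
    cases t with
    | nil =>
      have : v = b := by simpa using h.2.2.2
      exact absurd ha (this ▸ hb)
    | cons y t =>
      have hch := h.2.1
      rw [List.isChain_cons_cons] at hch
      by_cases hy : y ∈ S
      · have h' : Pth G y b (y :: t) := by
          refine ⟨(List.nodup_cons.1 h.1).2, hch.2, by simp, ?_⟩
          have := h.2.2.2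
          rwa [List.getLast?_cons_cons] at this
        obtain ⟨x', y', h1, h2, h3, h4, h5⟩ := ih y b h' hy hb
        exact ⟨x', y', h1, h2, h3, List.mem_cons_of_mem _ h4, List.mem_cons_of_mem _ h5⟩
      · exact ⟨v, y, ha, hy, hch.1, by simp, by simp⟩

/-- degrees are counted on the path -/
theorem dg_count85 {K : Finset V} {Q : List V} (hp : 0 < Q.length) {v : V}
    (hv : ∀ u ∈ K, G.Adj v u → u ∈ Q) {P : Finset ℕ} (f : ℕ → ℕ)
    (hP : ∀ i, i < Q.length → G.Adj v (cf Q hp i) → ∃ j ∈ P, f j = i) :
    dg G K v ≤ P.card := by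
  classical
  unfold dg
  have hsub : (K.filter fun u => G.Adj v u) ⊆ P.image (fun j => cf Q hp (f j)) := by
    intro u hu
    rw [Finset.mem_filter] at hu
    obtain ⟨i, hi, rfl⟩ := exists_cf hp (hv u hu.1 hu.2)
    obtain ⟨j, hj, hji⟩ := hP i hi hu.2
    exact Finset.mem_image.2 ⟨j, hj, by rw [hji]⟩
  exact (Finset.card_le_card hsub).trans Finset.card_image_le

/-- the crossing cycle -/
theorem crossing85 {a b : V} {Q : List V} (hQ : Pth G a b Q) (hp : 0 < Q.length) (h3 : 3 ≤ Q.length)
    {i : ℕ} (hi : i + 1 < Q.length) (h1 : G.Adj a (cf Q hp (i + 1))) (h2 : G.Adj b (cf Q hp i)) :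
    ∃ c, Cyc G c ∧ c.length = Q.length ∧ ∀ z, z ∈ c ↔ z ∈ Q := by
  obtain ⟨t1, t2⟩ := take_pth85 hQ hp (show i < Q.length by omega)
  obtain ⟨d1, d2⟩ := drop_pth85 hQ hp hi
  have hd : ∀ x ∈ Q.take (i + 1), x ∉ (Q.drop (i + 1)).reverse := by
    intro x hx hx'
    rw [List.mem_reverse] at hx'
    have hn := hQ.1
    rw [← List.take_append_drop (i + 1) Q, List.nodup_append] at hn
    exact hn.2.2 x hx x hx' rfl
  have h4 := t1.append d1.reverse h2.symm hd
  have hlen : (Q.take (i + 1) ++ (Q.drop (i + 1)).reverse).length = Q.length := by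
    rw [List.length_append, List.length_reverse, t2, d2]
    omega
  refine ⟨_, ⟨by rw [hlen]; exact h3, _, _, h4, h1.symm⟩, hlen, fun z => ?_⟩
  rw [List.mem_append, List.mem_reverse, ← List.mem_append, List.take_append_drop]

/-- a connected region of large minimum degree whose paths are short is spanned by a cycle -/
theorem spanned85 [DecidableEq V] {K : Finset V} {r : ℕ} (hr : 4 ≤ r) (hconn : Conn G K)
    (hne : K.Nonempty) (hdeg : ∀ v ∈ K, r + 2 ≤ 2 * dg G K v)
    (hpath : ∀ a b m, Pth G a b m → (∀ z ∈ m, z ∈ K) → m.length ≤ r) (hno : NoLong G r K) :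
    K.card + 1 ≤ r := by
  classical
  -- a longest path
  obtain ⟨⟨⟨a, b⟩, Q⟩, ⟨hQ, hQK⟩, hQmax⟩ := exists_max_nat
    (fun x : (V × V) × List V => Pth G x.1.1 x.1.2 x.2 ∧ ∀ z ∈ x.2, z ∈ K) (fun x => x.2.length) r
    (fun x hx => hpath _ _ _ hx.1 hx.2) (by
      obtain ⟨v, hv⟩ := hne
      exact ⟨((v, v), [v]), Pth.singleton v, by simpa using hv⟩)
  simp only at hQ hQK hQmax
  have hmax : ∀ c d m, Pth G c d m → (∀ z ∈ m, z ∈ K) → m.length ≤ Q.length :=
    fun c d m h1 h2 => hQmax ((c, d), m) ⟨h1, h2⟩
  have hp : 0 < Q.length := hQ.length_pos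
  have ha : ∀ u ∈ K, G.Adj a u → u ∈ Q := by
    intro u hu hau
    by_contra hc
    have := hmax _ _ _ (hQ.cons hau.symm hc) (by
      intro z hz
      rcases List.mem_cons.1 hz with hz | hz
      · exact hz ▸ hu
      · exact hQK z hz)
    simp only [List.length_cons] at this
    omega
  have hb : ∀ u ∈ K, G.Adj b u → u ∈ Q := by
    intro u hu hbu
    by_contra hc
    have := hmax _ _ _ (hQ.concat hbu hc) (by
      intro z hz
      rcases List.mem_append.1 hz with hz | hz
      · exact hQK z hz
      · rw [List.mem_singleton] at hz; exact hz ▸ hu)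
    simp only [List.length_append, List.length_singleton] at this
    omega
  have hda := hdeg a (hQK a hQ.head_mem)
  have hdb := hdeg b (hQK b hQ.last_mem)
  have hQr := hpath _ _ _ hQ hQK
  set A := (Finset.range (Q.length - 1)).filter fun i => G.Adj a (cf Q hp (i + 1)) with hA
  set B := (Finset.range (Q.length - 1)).filter fun i => G.Adj b (cf Q hp i) with hB
  have hAc : dg G K a ≤ A.card := by
    refine dg_count85 hp ha (fun i => i + 1) ?_
    intro i hi hai
    have h0 : i ≠ 0 := by
      rintro rfl
      rw [cf_head85 hQ hp] at hai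
      exact hai.ne rfl
    refine ⟨i - 1, ?_, by show i - 1 + 1 = i; omega⟩
    rw [hA, Finset.mem_filter, Finset.mem_range, show i - 1 + 1 = i by omega]
    exact ⟨by omega, hai⟩
  have hBc : dg G K b ≤ B.card := by
    refine dg_count85 hp hb (fun i => i) ?_
    intro i hi hbi
    have h0 : i ≠ Q.length - 1 := by
      rintro rfl
      rw [cf_last85 hQ hp] at hbi
      exact hbi.ne rfl
    exact ⟨i, by rw [hB, Finset.mem_filter, Finset.mem_range]; exact ⟨by omega, hbi⟩, rfl⟩
  obtain ⟨i, hiA, hiB⟩ : ∃ i, i ∈ A ∧ i ∈ B := by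
    by_contra hcon
    push Not at hcon
    have h1 : Disjoint A B := Finset.disjoint_left.2 hcon
    have h2 : A ∪ B ⊆ Finset.range (Q.length - 1) :=
      Finset.union_subset (Finset.filter_subset _ _) (Finset.filter_subset _ _)
    have h3 := Finset.card_le_card h2
    rw [Finset.card_union_of_disjoint h1, Finset.card_range] at h3
    omega
  rw [hA, Finset.mem_filter, Finset.mem_range] at hiA
  rw [hB, Finset.mem_filter, Finset.mem_range] at hiB
  have hQ3 : 3 ≤ Q.length := by
    have h1 : A.card ≤ Q.length - 1 := by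
      refine (Finset.card_filter_le _ _).trans ?_
      rw [Finset.card_range]
    omega
  obtain ⟨c, hc1, hc2, hc3⟩ := crossing85 hQ hp hQ3 (by omega) hiA.2 hiB.2
  have hcr := hno c hc1 (fun z hz => hQK z ((hc3 z).1 hz))
  -- `Q` spans `K`
  have hall : ∀ v ∈ K, v ∈ Q := by
    intro v hv
    by_contra hvQ
    obtain ⟨p, hp1, hp2⟩ := hconn a (hQK a hQ.head_mem) v hv
    obtain ⟨x, y, hx, hy, hxy, -, hyp⟩ := exit85 (S := Q.toFinset) p a v hp1
      (List.mem_toFinset.2 hQ.head_mem) (by rw [List.mem_toFinset]; exact hvQ)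
    rw [List.mem_toFinset] at hx hy
    have hxc : x ∈ c := (hc3 x).2 hx
    have hpc : 0 < c.length := List.length_pos_of_mem hxc
    obtain ⟨j, hj, rfl⟩ := exists_cf hpc hxc
    have h4 := arc_pth hc1 hpc (c.length - 1) j (by omega)
    have h5 := hmax _ _ _ (h4.cons hxy.symm (by
      intro hh
      rw [mem_seg] at hh
      obtain ⟨s, -, -, hs⟩ := hh
      exact hy ((hc3 y).1 (hs ▸ cf_mem hpc s)))) (by
      intro z hz
      rcases List.mem_cons.1 hz with hz | hz
      · exact hz ▸ hp2 y hyp
      · rw [mem_seg] at hz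
        obtain ⟨s, -, -, hs⟩ := hz
        exact hQK z ((hc3 z).1 (hs ▸ cf_mem hpc s)))
    rw [List.length_cons, seg_length] at h5
    omega
  have : K.card ≤ Q.length := by
    have h6 : K ⊆ Q.toFinset := fun v hv => List.mem_toFinset.2 (hall v hv)
    exact (Finset.card_le_card h6).trans (List.toFinset_card_le _)
  omega

theorem pieceII [DecidableEq V] {U : Finset V} {k r : ℕ} (hr : 4 ≤ r) {F : Finset (Finset V)}
    {w w' : V} {l : List V} (h : OptP49 G U r F w w' l) (hk : F.card + 1 ≤ k)
    (hdeg : ∀ v ∈ U, 2 * k * r ≤ 3 * dg G U v) (hm : l.length ≤ r)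
    (hH : l.length < (rest U F).card) :
    ∃ K : Finset V, K ⊆ rest U F ∧ (∀ x ∈ K, x ∉ l) ∧ K.Nonempty ∧ K.card + 1 ≤ r ∧
      (∀ u ∈ K, r + 2 ≤ 2 * dg G K u) ∧ (∀ u ∈ K, dg G (rest U F) u = dg G K u) ∧
      dg G (rest U F) w + 2 ≤ r := by
  classical
  set R := rest U F with hR
  have hno : NoLong G r R := by
    refine Pool.Agent.FRC.noLong_of fun C hC hCR => ?_
    by_contra hcon
    push Not at hcon
    obtain ⟨h1, h2⟩ := h.opt.fam.add hC hCR hcon
    have := h.opt.max _ h1
    omega
  have hmax : ∀ a b m, Pth G a b m → (∀ z ∈ m, z ∈ R) → m.length ≤ l.length :=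
    fun a b m h1 h2 => h.max F a b m h.opt h1 h2
  have hp : 0 < l.length := h.path.length_pos
  -- the degree of `w`
  have hw : dg G R w ≤ r - 2 := by
    have hwl : ∀ u ∈ R, G.Adj w u → u ∈ l := by
      intro u hu hwu
      by_contra hc
      have := hmax _ _ _ (h.path.cons hwu.symm hc) (by
        intro z hz
        rcases List.mem_cons.1 hz with hz | hz
        · exact hz ▸ hu
        · exact h.sub z hz)
      simp only [List.length_cons] at this
      omega
    obtain ⟨z, t, hzt⟩ : ∃ z t, l = z :: t := by
      cases hl : l with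
      | nil => rw [hl] at hp; simp at hp
      | cons z t => exact ⟨z, t, rfl⟩
    have hzw : z = w := by
      have := h.path.2.2.1
      rw [hzt] at this
      simpa using this
    have h1 := h.path
    rw [hzt, hzw] at h1
    refine leaf_deg (by omega) hno h1 ?_ ?_
    · intro x hx
      exact h.sub x (by rw [hzt, hzw]; exact hx)
    · intro u hu hzu
      rw [← hzw, ← hzt]
      exact hwl u hu hzu
  have hdX : ∀ u ∈ R, u ∉ l → r + 2 ≤ 2 * dg G R u := by
    intro u hu hul
    have := h.e2 hr hk hdeg hu hul
    rw [← hR] at this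
    omega
  -- a vertex off the path
  obtain ⟨u0, hu0R, hu0l⟩ : ∃ u ∈ R, u ∉ l := by
    by_contra hcon
    push Not at hcon
    have h6 : R ⊆ l.toFinset := fun v hv => List.mem_toFinset.2 (hcon v hv)
    have := (Finset.card_le_card h6).trans (List.toFinset_card_le _)
    omega
  set X := R.filter fun u => u ∉ l with hX
  set K := comp G X u0 with hK
  have hKX : ∀ u ∈ K, u ∈ R ∧ u ∉ l := fun u hu => by
    have := comp_subset X u0 hu
    rw [hX, Finset.mem_filter] at this
    exact this
  have hu0K : u0 ∈ K := self_mem_comp (by rw [hX, Finset.mem_filter]; exact ⟨hu0R, hu0l⟩)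
  have hconn : Conn G K := comp_conn
  have hKadj : ∀ u ∈ K, ∀ v ∈ R, G.Adj u v → v ∉ l → v ∈ K := by
    intro u hu v hv huv hvl
    exact comp_adj hu (by rw [hX, Finset.mem_filter]; exact ⟨hv, hvl⟩) huv
  -- no edges between `K` and the path
  have hsep : ∀ v ∈ K, ∀ x ∈ l, ¬ G.Adj v x := by
    intro v hv x hx hvx
    obtain ⟨q, z, hq1, hq2, hq3, hq4⟩ := extend (G := G) K (K \ [v].toFinset).card [v] v v le_rfl
      (Pth.singleton v)
    have hzK : z ∈ K := by
      rcases hq3 with h1 | h1
      · rw [h1]; exact hv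
      · exact h1
    have hqK : ∀ y ∈ q ++ [v], y ∈ K := by
      intro y hy
      rcases List.mem_append.1 hy with hy | hy
      · exact hq1 y hy
      · rw [List.mem_singleton] at hy; exact hy ▸ hv
    have hqR : ∀ y ∈ q ++ [v], y ∈ R ∧ y ∉ l := fun y hy => hKX y (hqK y hy)
    have hqR' : ∀ y ∈ (q ++ [v]).reverse, y ∈ R ∧ y ∉ l := fun y hy =>
      hqR y (List.mem_reverse.1 hy)
    set L := (q ++ [v]).length with hL
    have hzR := hKX z hzK
    -- degree of `z` inside `K`
    have hzd : dg G K z + 1 ≤ L := by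
      have hsub : insert z (K.filter fun u => G.Adj z u) ⊆ (q ++ [v]).toFinset := by
        intro u hu
        rw [List.mem_toFinset]
        rcases Finset.mem_insert.1 hu with hu | hu
        · rw [hu]; exact hq2.head_mem
        · rw [Finset.mem_filter] at hu
          exact hq4 u hu.1 hu.2
      have h1 := (Finset.card_le_card hsub).trans (List.toFinset_card_le _)
      rw [Finset.card_insert_of_notMem (by
        rw [Finset.mem_filter]
        exact fun hh => hh.2.ne rfl)] at h1
      exact h1
    set B := (Finset.range l.length).filter fun i => G.Adj z (cf l hp i) with hB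
    have hdR : dg G R z ≤ dg G K z + B.card := by
      have h1 : dg G R z ≤ dg G (K ∪ (l.toFinset ∩ R)) z := by
        unfold dg
        refine Finset.card_le_card ?_
        intro u hu
        rw [Finset.mem_filter] at hu ⊢
        refine ⟨?_, hu.2⟩
        rw [Finset.mem_union, Finset.mem_inter, List.mem_toFinset]
        by_cases hul : u ∈ l
        · exact Or.inr ⟨hul, hu.1⟩
        · exact Or.inl (hKadj z hzK u hu.1 hu.2 hul)
      have h2 : dg G (l.toFinset ∩ R) z ≤ B.card := by
        refine dg_count85 hp ?_ (fun i => i) ?_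
        · intro u hu _
          rw [Finset.mem_inter, List.mem_toFinset] at hu
          exact hu.1
        · intro i hi hai
          exact ⟨i, by rw [hB, Finset.mem_filter, Finset.mem_range]; exact ⟨hi, hai⟩, rfl⟩
      have h3 := dg_union_le (G := G) K (l.toFinset ∩ R) z
      omega
    have hzr := hdX z hzR.1 hzR.2
    have hB0 : ¬ B.Nonempty := by
      intro hne
      have h1 := sparse85 (B := B) (L := L) (m := l.length) (by
        intro i hi
        rw [hB, Finset.mem_filter, Finset.mem_range] at hi
        have := attach85 h.path h.sub hmax hp hq2.reverse hqR' hi.1 hi.2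
        rw [List.length_reverse] at this
        exact ⟨this.1, this.2⟩) (by
        intro i hi hi'
        rw [hB, Finset.mem_filter, Finset.mem_range] at hi hi'
        -- insertion of `z`
        obtain ⟨t1, t2⟩ := take_pth85 h.path hp hi.1
        obtain ⟨d1, d2⟩ := drop_pth85 h.path hp hi'.1
        have h4 := (t1.concat hi.2.symm (fun hh => hzR.2 (List.mem_of_mem_take hh))).append d1
          hi'.2 (by
            intro y hy hy'
            rcases List.mem_append.1 hy with hy | hy
            · have hn := h.path.1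
              rw [← List.take_append_drop (i + 1) l, List.nodup_append] at hn
              exact hn.2.2 y hy y hy' rfl
            · rw [List.mem_singleton] at hy
              exact hzR.2 (hy ▸ List.mem_of_mem_drop hy'))
        have h5 := hmax _ _ _ h4 (by
          intro y hy
          rcases List.mem_append.1 hy with hy | hy
          · rcases List.mem_append.1 hy with hy | hy
            · exact h.sub y (List.mem_of_mem_take hy)
            · rw [List.mem_singleton] at hy
              exact hy ▸ hzR.1
          · exact h.sub y (List.mem_of_mem_drop hy))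
        rw [List.length_append, List.length_append, t2, d2, List.length_singleton] at h5
        omega) hne
      omega
    have hBc : B.card = 0 := by
      rw [Finset.card_eq_zero]
      exact Finset.not_nonempty_iff_eq_empty.1 hB0
    obtain ⟨j, hj, rfl⟩ := exists_cf hp hx
    have h6 := attach85 h.path h.sub hmax hp hq2 hqR hj hvx
    rw [← hL] at h6
    omega
  have hdK : ∀ u ∈ K, dg G R u = dg G K u := by
    intro u hu
    refine le_antisymm ?_ (dg_mono (fun v hv => (hKX v hv).1) u)
    unfold dg
    refine Finset.card_le_card ?_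
    intro v hv
    rw [Finset.mem_filter] at hv ⊢
    refine ⟨hKadj u hu v hv.1 hv.2 ?_, hv.2⟩
    intro hvl
    exact hsep u hu v hvl hv.2
  have hKR : K ⊆ R := fun v hv => (hKX v hv).1
  refine ⟨K, hKR, fun x hx => (hKX x hx).2, ⟨u0, hu0K⟩, ?_, ?_, hdK, by omega⟩
  · refine spanned85 hr hconn ⟨u0, hu0K⟩ ?_ ?_ (hno.mono hKR)
    · intro v hv
      rw [← hdK v hv]
      exact hdX v (hKX v hv).1 (hKX v hv).2
    · intro a b m h1 h2
      exact (hmax a b m h1 (fun z hz => hKR (h2 z hz))).trans hm
  · intro u hu
    rw [← hdK u hu]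
    exact hdX u (hKX u hu).1 (hKX u hu).2

end Pool.Agent.P0
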