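import Pool.Agent.P0.E149
import Pool.Agent.P0.PieceII
import Pool.Agent.P0.Ends49

set_option linter.all false

/-!
# P0, I7: the frame for exactly `k r` vertices
-/

namespace Pool.Agent.P0

open Pool.Agent.Helper14.LongCyc Pool.Agent.LCK Pool.Agent.FRC

universe u

variable {V : Type u} {G : SimpleGraph V}

/-! ### three disjoint long cycles -/

/-- three disjoint long cycles inside `W` -/
def Three41 (G : SimpleGraph V) (r : ℕ) (W : Finset V) : Prop :=
  ∃ A B D : Finset V, CycSet G A ∧ CycSet G B ∧ CycSet G D ∧ A ⊆ W ∧ B ⊆ W ∧ D ⊆ W ∧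
    r ≤ A.card ∧ r ≤ B.card ∧ r ≤ D.card ∧ Disjoint A B ∧ Disjoint A D ∧ Disjoint B D

theorem Three41.mono {r : ℕ} {W W' : Finset V} (h : Three41 G r W) (hW : W ⊆ W') :
    Three41 G r W' := by
  obtain ⟨A, B, D, h1, h2, h3, h4, h5, h6, h7⟩ := h
  exact ⟨A, B, D, h1, h2, h3, h4.trans hW, h5.trans hW, h6.trans hW, h7⟩

theorem CycSet.ne41 {A B : Finset V} (hA : CycSet G A) (h : Disjoint A B) : A ≠ B := by
  rintro rfl
  have e1 : A = ∅ := by simpa using h
  have e2 := hA.three_le
  rw [e1] at e2
  simp at e2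

/-- two members of an optimal family and the rest do not contain three disjoint long cycles -/
theorem Opt49.no_three [DecidableEq V] {U : Finset V} {r : ℕ} {F : Finset (Finset V)}
    (hF : Opt49 G U r F) {C E : Finset V} (hC : C ∈ F) (hE : E ∈ F) (hCE : C ≠ E) :
    ¬ Three41 G r (C ∪ E ∪ rest U F) := by
  rintro ⟨A, B, D, h1, h2, h3, h4, h5, h6, h7, h8, h9, h10, h11, h12⟩
  have hAB := CycSet.ne41 h1 h10
  have hAD := CycSet.ne41 h1 h11
  have hBD := CycSet.ne41 h2 h12
  have hsub : ({C, E} : Finset (Finset V)) ⊆ F := by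
    intro s hs
    rcases Finset.mem_insert.1 hs with h | h
    · rw [h]; exact hC
    · rw [Finset.mem_singleton.1 h]; exact hE
  have hW : ({C, E} : Finset (Finset V)).biUnion id ∪ rest U F = C ∪ E ∪ rest U F := by
    simp
  have hmem : ∀ s ∈ ({A, B, D} : Finset (Finset V)), s = A ∨ s = B ∨ s = D := by
    intro s hs
    simpa using hs
  have hB : Fam G (({C, E} : Finset (Finset V)).biUnion id ∪ rest U F) (fun L => r ≤ L)
      {A, B, D} := by
    rw [hW]
    refine ⟨?_, ?_, ?_, ?_⟩
    · intro s hs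
      rcases hmem s hs with h | h | h <;> rw [h] <;> assumption
    · intro s hs
      rcases hmem s hs with h | h | h <;> rw [h] <;> assumption
    · intro s hs
      rcases hmem s hs with h | h | h <;> rw [h] <;> assumption
    · intro s hs t ht hst
      rcases hmem s hs with h | h | h <;> rcases hmem t ht with h' | h' | h' <;> rw [h, h'] <;>
        first
        | exact absurd (h.trans h'.symm) hst
        | assumption
        | (apply Disjoint.symm; assumption)
  obtain ⟨f1, f2, -⟩ := hF.fam.swap hsub hB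
  have f3 := hF.max _ f1
  rw [Finset.card_union_of_disjoint f2, Finset.card_sdiff_of_subset hsub,
    Finset.card_pair hCE] at f3
  have f4 : ({A, B, D} : Finset (Finset V)).card = 3 := Finset.card_eq_three.2
    ⟨A, B, D, hAB, hAD, hBD, rfl⟩
  have f5 := Finset.card_le_card hsub
  rw [Finset.card_pair hCE] at f5
  omega

/-! ### the ends of a spanning path -/

theorem ends41 {H : Finset V} {a b : V} {Q : List V} (hQ : Pth G a b Q)
    (hH : ∀ z, z ∈ H → z ∈ Q) (h3 : 3 ≤ Q.length)
    (hno : ∀ D, CycSet G D → (∀ z, z ∈ D ↔ z ∈ Q) → False) :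
    dg G H a + dg G H b + 1 ≤ Q.length := by
  classical
  have hp : 0 < Q.length := by omega
  have ha := cf_head85 hQ hp
  have hb := cf_last85 hQ hp
  set A := (Finset.range (Q.length - 1)).filter fun i => G.Adj a (cf Q hp (i + 1)) with hA
  set B := (Finset.range (Q.length - 1)).filter fun i => G.Adj b (cf Q hp i) with hB
  have h1 : dg G H a ≤ A.card := by
    refine dg_count85 hp (fun u hu _ => hH u hu) (fun j => j + 1) ?_
    intro i hi hadj
    rcases i with _ | i
    · rw [ha] at hadj
      exact absurd hadj G.irrefl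
    · exact ⟨i, Finset.mem_filter.2 ⟨Finset.mem_range.2 (by omega), hadj⟩, rfl⟩
  have h2 : dg G H b ≤ B.card := by
    refine dg_count85 hp (fun u hu _ => hH u hu) (fun j => j) ?_
    intro i hi hadj
    rcases Nat.lt_or_ge i (Q.length - 1) with h | h
    · exact ⟨i, Finset.mem_filter.2 ⟨Finset.mem_range.2 h, hadj⟩, rfl⟩
    · have e : i = Q.length - 1 := by omega
      rw [e, hb] at hadj
      exact absurd hadj G.irrefl
  have h4 : Disjoint A B := by
    rw [Finset.disjoint_left]
    intro i hi hi'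
    rw [hA, Finset.mem_filter, Finset.mem_range] at hi
    rw [hB, Finset.mem_filter] at hi'
    obtain ⟨c, hc, hl, hz⟩ := crossing85 hQ hp h3 (i := i) (by omega) hi.2 hi'.2
    exact hno c.toFinset (Cyc.cycSet hc) fun z => by rw [List.mem_toFinset]; exact hz z
  have h5 : (A ∪ B).card ≤ Q.length - 1 := by
    refine (Finset.card_le_card ?_).trans (Finset.card_range (Q.length - 1)).le
    exact Finset.union_subset (Finset.filter_subset _ _) (Finset.filter_subset _ _)
  rw [Finset.card_union_of_disjoint h4] at h5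
  omega

/-! ### the setting -/

/-- exactly `k r` vertices, no `k` disjoint long cycles: every optimal family has `k - 1` members,
all with exactly `r` vertices, and exactly `r` vertices are left -/
structure Set41 (G : SimpleGraph V) (U : Finset V) (k r : ℕ) : Prop where
  card : U.card = k * r
  deg : ∀ v ∈ U, 2 * k * r ≤ 3 * dg G U v
  fcard : ∀ F, Opt49 G U r F → F.card + 1 = k
  mem : ∀ F, Opt49 G U r F → ∀ C ∈ F, C.card = r
  rest : ∀ F, Opt49 G U r F → (rest U F).card = r

/-- admissible: `F` is optimal and the rest is a path `x, Q, y`, with `Q` from `p` to `q` -/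
structure Adm41 (G : SimpleGraph V) (U : Finset V) (r : ℕ) (Q : List V) (p q : V)
    (F : Finset (Finset V)) (x y : V) : Prop where
  opt : Opt49 G U r F
  path : Pth G p q Q
  len : Q.length + 2 = r
  xp : G.Adj x p
  qy : G.Adj q y
  ne : x ≠ y
  xQ : x ∉ Q
  yQ : y ∉ Q
  rest : ∀ z, z ∈ rest U F ↔ z = x ∨ z = y ∨ z ∈ Q

/-- the weighted degree of a path `x, p, …, q, y` into `C` -/
noncomputable def TT41 (G : SimpleGraph V) (p q x y : V) (C : Finset V) : ℕ :=
  2 * (dg G C x + dg G C y) + dg G C p + dg G C q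

section

variable {U : Finset V} {k r : ℕ} {Q : List V} {p q x y : V} {F : Finset (Finset V)}

theorem Adm41.symm (h : Adm41 G U r Q p q F x y) : Adm41 G U r Q.reverse q p F y x where
  opt := h.opt
  path := h.path.reverse
  len := by rw [List.length_reverse]; exact h.len
  xp := h.qy.symm
  qy := h.xp.symm
  ne := h.ne.symm
  xQ := by rw [List.mem_reverse]; exact h.yQ
  yQ := by rw [List.mem_reverse]; exact h.xQ
  rest := fun z => by
    rw [h.rest, List.mem_reverse]
    tauto

theorem TT41.symm (G : SimpleGraph V) (p q x y : V) (C : Finset V) :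
    TT41 G q p y x C = TT41 G p q x y C := by
  unfold TT41; omega

theorem Adm41.x_mem (h : Adm41 G U r Q p q F x y) : x ∈ Pool.Agent.LCK.rest U F :=
  (h.rest x).2 (Or.inl rfl)

theorem Adm41.y_mem (h : Adm41 G U r Q p q F x y) : y ∈ Pool.Agent.LCK.rest U F :=
  (h.rest y).2 (Or.inr (Or.inl rfl))

theorem Adm41.Q_mem (h : Adm41 G U r Q p q F x y) {z : V} (hz : z ∈ Q) :
    z ∈ Pool.Agent.LCK.rest U F :=
  (h.rest z).2 (Or.inr (Or.inr hz))

theorem Adm41.p_mem (h : Adm41 G U r Q p q F x y) : p ∈ Pool.Agent.LCK.rest U F :=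
  h.Q_mem h.path.head_mem

theorem Adm41.q_mem (h : Adm41 G U r Q p q F x y) : q ∈ Pool.Agent.LCK.rest U F :=
  h.Q_mem h.path.last_mem

/-- the whole path `x, Q, y` -/
theorem Adm41.full (h : Adm41 G U r Q p q F x y) : Pth G x y (x :: (Q ++ [y])) := by
  have h1 := h.path.concat h.qy h.yQ
  refine h1.cons h.xp ?_
  rw [List.mem_append, List.mem_singleton]
  rintro (h2 | h2)
  · exact h.xQ h2
  · exact h.ne h2

theorem Adm41.noLong [DecidableEq V] (h : Adm41 G U r Q p q F x y) :
    NoLong G r (Pool.Agent.LCK.rest U F) := h.opt.noLong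

/-- the ends have at most `r - 1` neighbours in the rest, in all -/
theorem Adm41.inner (h : Adm41 G U r Q p q F x y) (hr : 3 ≤ r) :
    dg G (Pool.Agent.LCK.rest U F) x + dg G (Pool.Agent.LCK.rest U F) y + 1 ≤ r := by
  classical
  have h1 : (x :: (Q ++ [y])).length = r := by
    simp only [List.length_cons, List.length_append, List.length_nil]
    have := h.len
    omega
  have hz : ∀ z, z ∈ Pool.Agent.LCK.rest U F ↔ z ∈ x :: (Q ++ [y]) := by
    intro z
    rw [h.rest, List.mem_cons, List.mem_append, List.mem_singleton]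
    tauto
  have h2 := ends41 h.full (H := Pool.Agent.LCK.rest U F) (fun z hz' => (hz z).1 hz')
    (by rw [h1]; exact hr) (by
      intro D hD hDQ
      have h3 : (x :: (Q ++ [y])).length = D.card := (card_of_list h.full.1 fun z => (hDQ z).symm).symm
      have h4 : D ⊆ Pool.Agent.LCK.rest U F := fun z hz' => (hz z).2 ((hDQ z).1 hz')
      obtain ⟨h5, h6⟩ := h.opt.fam.add hD h4 (by show r ≤ D.card; rw [← h3, h1])
      have h7 := h.opt.max _ h5
      omega)
  rw [h1] at h2
  exact h2

theorem dg_lt41 {W : Finset V} {v : V} (hv : v ∈ W) : dg G W v + 1 ≤ W.card := by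
  classical
  unfold dg
  have h1 : (W.filter fun u => G.Adj v u) ⊆ W.erase v := by
    intro u hu
    rw [Finset.mem_filter] at hu
    exact Finset.mem_erase.2 ⟨fun he => by rw [he] at hu; exact G.irrefl hu.2, hu.1⟩
  have h2 := Finset.card_le_card h1
  rw [Finset.card_erase_of_mem hv] at h2
  have h3 := Finset.card_pos.2 ⟨v, hv⟩
  omega

/-- **(0)**: the average over the members -/
theorem Adm41.sum0 [DecidableEq V] (h : Adm41 G U r Q p q F x y) (S : Set41 G U k r) (hr : 3 ≤ r) :
    4 * (k * r) + 4 ≤ ∑ C ∈ F, TT41 G p q x y C + 4 * r := by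
  have h1 := S.deg x (rest_subset _ _ h.x_mem)
  have h2 := S.deg y (rest_subset _ _ h.y_mem)
  have h3 := S.deg p (rest_subset _ _ h.p_mem)
  have h4 := S.deg q (rest_subset _ _ h.q_mem)
  rw [h.opt.fam.dg_split] at h1 h2 h3 h4
  have h5 := h.inner hr
  have h6 := dg_lt41 (G := G) h.p_mem
  have h7 := dg_lt41 (G := G) h.q_mem
  rw [S.rest F h.opt] at h6 h7
  unfold TT41
  simp only [Finset.sum_add_distrib, ← Finset.mul_sum]
  have h8 : 2 * k * r = 2 * (k * r) := by ring
  rw [h8] at h1 h2 h3 h4
  omega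

/-- (0) with the excesses: `∑ (T_C - 4 r) ≥ 4` -/
theorem Adm41.sum0' [DecidableEq V] (h : Adm41 G U r Q p q F x y) (S : Set41 G U k r)
    (hr : 3 ≤ r) : F.card * (4 * r) + 4 ≤ ∑ C ∈ F, TT41 G p q x y C := by
  have h1 := h.sum0 S hr
  have h2 := S.fcard F h.opt
  rw [← h2] at h1
  have h3 : 4 * ((F.card + 1) * r) = F.card * (4 * r) + 4 * r := by ring
  omega

/-! ### swaps -/

/-- the general swap -/
theorem Adm41.swap [DecidableEq V] (h : Adm41 G U r Q p q F x y) {C D : Finset V} (hC : C ∈ F)
    (hD : CycSet G D) (hDs : D ⊆ C ∪ Pool.Agent.LCK.rest U F) (hDc : D.card = C.card) {x' y' : V}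
    (hx : G.Adj x' p) (hy : G.Adj q y') (hne : x' ≠ y') (hxQ : x' ∉ Q) (hyQ : y' ∉ Q)
    (hrest : ∀ z, z ∈ (C ∪ Pool.Agent.LCK.rest U F) \ D ↔ z = x' ∨ z = y' ∨ z ∈ Q) :
    Adm41 G U r Q p q (insert D (F.erase C)) x' y' := by
  obtain ⟨h1, h2⟩ := h.opt.replace_same hC hD hDs hDc
  exact ⟨h1, h.path, h.len, hx, hy, hne, hxQ, hyQ, fun z => by rw [h2]; exact hrest z⟩

theorem Adm41.notQ (h : Adm41 G U r Q p q F x y) {C : Finset V} (hC : C ∈ F) {z : V}
    (hz : z ∈ C) : z ∉ Q := fun hq => (mem_rest.1 (h.Q_mem hq)).2 C hC hz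

theorem Adm41.x_notC (h : Adm41 G U r Q p q F x y) {C : Finset V} (hC : C ∈ F) : x ∉ C :=
  (mem_rest.1 h.x_mem).2 C hC

theorem Adm41.y_notC (h : Adm41 G U r Q p q F x y) {C : Finset V} (hC : C ∈ F) : y ∉ C :=
  (mem_rest.1 h.y_mem).2 C hC

theorem card_swap41 [DecidableEq V] {C : Finset V} {z w : V} (hz : z ∈ C) (hw : w ∉ C) :
    (insert w (C.erase z)).card = C.card := by
  rw [Finset.card_insert_of_notMem fun h => hw (Finset.mem_of_mem_erase h),
    Finset.card_erase_of_mem hz]
  have := Finset.card_pos.2 ⟨z, hz⟩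
  omega

/-- `y` replaces `z ∈ C`, and `z` becomes the second end -/
theorem Adm41.swapR [DecidableEq V] (h : Adm41 G U r Q p q F x y) {C : Finset V} (hC : C ∈ F)
    {z : V} (hz : z ∈ C) (hD : CycSet G (insert y (C.erase z))) (hqz : G.Adj q z) :
    Adm41 G U r Q p q (insert (insert y (C.erase z)) (F.erase C)) x z := by
  refine h.swap hC hD ?_ (card_swap41 hz (h.y_notC hC)) h.xp hqz ?_ h.xQ (h.notQ hC hz) ?_
  · intro w hw
    rcases Finset.mem_insert.1 hw with rfl | hw
    · exact Finset.mem_union_right _ h.y_mem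
    · exact Finset.mem_union_left _ (Finset.mem_of_mem_erase hw)
  · rintro rfl
    exact h.x_notC hC hz
  · intro w
    rw [Finset.mem_sdiff, Finset.mem_union, Finset.mem_insert, Finset.mem_erase, h.rest]
    constructor
    · rintro ⟨h1 | h1, h2⟩
      · push Not at h2
        right; left
        by_contra hne
        exact h2.2 hne h1
      · push Not at h2
        rcases h1 with h1 | h1 | h1
        · exact Or.inl h1
        · exact absurd h1 h2.1
        · exact Or.inr (Or.inr h1)
    · rintro (h1 | h1 | h1)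
      · rw [h1]
        refine ⟨Or.inr (Or.inl rfl), ?_⟩
        push Not
        exact ⟨h.ne, fun _ => h.x_notC hC⟩
      · rw [h1]
        refine ⟨Or.inl hz, ?_⟩
        push Not
        exact ⟨fun he => h.y_notC hC (he ▸ hz), fun he => absurd rfl he⟩
      · refine ⟨Or.inr (Or.inr (Or.inr h1)), ?_⟩
        push Not
        exact ⟨fun he => h.yQ (he ▸ h1), fun _ hwC => h.notQ hC hwC h1⟩

/-- `x` replaces `z ∈ C`, and `z` becomes the first end -/
theorem Adm41.swapL [DecidableEq V] (h : Adm41 G U r Q p q F x y) {C : Finset V} (hC : C ∈ F)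
    {z : V} (hz : z ∈ C) (hD : CycSet G (insert x (C.erase z))) (hzp : G.Adj z p) :
    Adm41 G U r Q p q (insert (insert x (C.erase z)) (F.erase C)) z y := by
  have h1 := (h.symm.swapR hC hz hD hzp.symm).symm
  rwa [List.reverse_reverse] at h1

/-- `y` replaces `z ∈ C`, and the path runs backwards: the ends are `z` (first) and `x` -/
theorem Adm41.flipR [DecidableEq V] (h : Adm41 G U r Q p q F x y) {C : Finset V} (hC : C ∈ F)
    {z : V} (hz : z ∈ C) (hD : CycSet G (insert y (C.erase z))) (hzp : G.Adj z p)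
    (hqx : G.Adj q x) :
    Adm41 G U r Q p q (insert (insert y (C.erase z)) (F.erase C)) z x := by
  refine h.swap hC hD ?_ (card_swap41 hz (h.y_notC hC)) hzp hqx ?_ (h.notQ hC hz) h.xQ ?_
  · intro w hw
    rcases Finset.mem_insert.1 hw with rfl | hw
    · exact Finset.mem_union_right _ h.y_mem
    · exact Finset.mem_union_left _ (Finset.mem_of_mem_erase hw)
  · rintro rfl
    exact h.x_notC hC hz
  · intro w
    rw [Finset.mem_sdiff, Finset.mem_union, Finset.mem_insert, Finset.mem_erase, h.rest]
    constructor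
    · rintro ⟨h1 | h1, h2⟩
      · push Not at h2
        left
        by_contra hne
        exact h2.2 hne h1
      · push Not at h2
        rcases h1 with h1 | h1 | h1
        · exact Or.inr (Or.inl h1)
        · exact absurd h1 h2.1
        · exact Or.inr (Or.inr h1)
    · rintro (h1 | h1 | h1)
      · rw [h1]
        refine ⟨Or.inl hz, ?_⟩
        push Not
        exact ⟨fun he => h.y_notC hC (he ▸ hz), fun he => absurd rfl he⟩
      · rw [h1]
        refine ⟨Or.inr (Or.inl rfl), ?_⟩
        push Not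
        exact ⟨h.ne, fun _ => h.x_notC hC⟩
      · refine ⟨Or.inr (Or.inr (Or.inr h1)), ?_⟩
        push Not
        exact ⟨fun he => h.yQ (he ▸ h1), fun _ hwC => h.notQ hC hwC h1⟩

/-- both ends are replaced: `z, z' ∈ C` become the ends -/
theorem Adm41.swapB [DecidableEq V] (h : Adm41 G U r Q p q F x y) {C : Finset V} (hC : C ∈ F)
    {z z' : V} (hz : z ∈ C) (hz' : z' ∈ C) (hzz : z ≠ z')
    (hD : CycSet G (insert x (insert y ((C.erase z).erase z')))) (hzp : G.Adj z p)
    (hqz : G.Adj q z') :
    Adm41 G U r Q p q (insert (insert x (insert y ((C.erase z).erase z'))) (F.erase C)) z z' := by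
  have hxC := h.x_notC hC
  have hyC := h.y_notC hC
  have hz'' : z' ∈ C.erase z := Finset.mem_erase.2 ⟨hzz.symm, hz'⟩
  refine h.swap hC hD ?_ ?_ hzp hqz hzz (h.notQ hC hz) (h.notQ hC hz') ?_
  · intro w hw
    rcases Finset.mem_insert.1 hw with rfl | hw
    · exact Finset.mem_union_right _ h.x_mem
    · rcases Finset.mem_insert.1 hw with rfl | hw
      · exact Finset.mem_union_right _ h.y_mem
      · exact Finset.mem_union_left _ (Finset.mem_of_mem_erase (Finset.mem_of_mem_erase hw))
  · rw [Finset.card_insert_of_notMem, Finset.card_insert_of_notMem,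
      Finset.card_erase_of_mem hz'', Finset.card_erase_of_mem hz]
    · have h1 := Finset.card_pos.2 ⟨z', hz''⟩
      rw [Finset.card_erase_of_mem hz] at h1
      omega
    · exact fun h' => hyC (Finset.mem_of_mem_erase (Finset.mem_of_mem_erase h'))
    · rw [Finset.mem_insert]
      rintro (h' | h')
      · exact h.ne h'
      · exact hxC (Finset.mem_of_mem_erase (Finset.mem_of_mem_erase h'))
  · intro w
    rw [Finset.mem_sdiff, Finset.mem_union, Finset.mem_insert, Finset.mem_insert,
      Finset.mem_erase, Finset.mem_erase, h.rest]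
    constructor
    · rintro ⟨h1 | h1, h2⟩
      · push Not at h2
        by_contra hcon
        push Not at hcon
        exact h2.2.2 hcon.2.1 hcon.1 h1
      · push Not at h2
        rcases h1 with h1 | h1 | h1
        · exact absurd h1 h2.1
        · exact absurd h1 h2.2.1
        · exact Or.inr (Or.inr h1)
    · rintro (h1 | h1 | h1)
      · rw [h1]
        refine ⟨Or.inl hz, ?_⟩
        push Not
        exact ⟨fun he => hxC (he ▸ hz), fun he => hyC (he ▸ hz), fun _ he => absurd rfl he⟩
      · rw [h1]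
        refine ⟨Or.inl hz', ?_⟩
        push Not
        exact ⟨fun he => hxC (he ▸ hz'), fun he => hyC (he ▸ hz'), fun he => absurd rfl he⟩
      · refine ⟨Or.inr (Or.inr (Or.inr h1)), ?_⟩
        push Not
        exact ⟨fun he => h.xQ (he ▸ h1), fun he => h.yQ (he ▸ h1),
          fun _ _ hwC => h.notQ hC hwC h1⟩

/-- the other members are untouched -/
theorem mem_swap41 [DecidableEq V] {C D E : Finset V} (hE : E ∈ F) (hEC : E ≠ C) :
    E ∈ insert D (F.erase C) :=
  Finset.mem_insert_of_mem (Finset.mem_erase.2 ⟨hEC, hE⟩)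

end

/-- the path of the last item as an admissible pair -/
theorem OptV49.adm41 {U : Finset V} {r : ℕ} {F : Finset (Finset V)} {v : ℕ → V}
    (h : OptV49 G U r r F v) (hr : 4 ≤ r) (hc : (rest U F).card = r) :
    Adm41 G U r (seg v 1 (r - 3)) (v 1) (v (r - 2)) F (v 0) (v (r - 1)) := by
  classical
  have hin : ∀ i j, i < r → j < r → v i = v j → i = j := h.pa.inj
  have h1 : ∀ z, z ∈ seg v 1 (r - 3) ↔ ∃ i, 1 ≤ i ∧ i ≤ r - 2 ∧ z = v i := by
    intro z
    rw [mem_seg]
    constructor
    · rintro ⟨j, j1, j2, j3⟩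
      exact ⟨j, j1, by omega, j3⟩
    · rintro ⟨j, j1, j2, j3⟩
      exact ⟨j, j1, by omega, j3⟩
  have h2 : ∀ z ∈ rest U F, ∃ i, i < r ∧ v i = z := by
    have h3 : (Finset.range r).image v = rest U F := by
      refine Finset.eq_of_subset_of_card_le ?_ ?_
      · intro z hz
        obtain ⟨i, hi, rfl⟩ := Finset.mem_image.1 hz
        exact h.pa.mem i (Finset.mem_range.1 hi)
      · rw [Finset.card_image_of_injOn, Finset.card_range, hc]
        intro i hi j hj hij
        exact hin i j (by simpa using hi) (by simpa using hj) hij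
    intro z hz
    rw [← h3] at hz
    obtain ⟨i, hi, he⟩ := Finset.mem_image.1 hz
    exact ⟨i, Finset.mem_range.1 hi, he⟩
  refine ⟨h.opt, ?_, ?_, ?_, ?_, ?_, ?_, ?_, ?_⟩
  · have h3 := seg_pa49 h.pa (r - 3) 1 (by omega)
    rwa [show 1 + (r - 3) = r - 2 by omega] at h3
  · rw [seg_length]; omega
  · exact h.pa.ch 0 (by omega)
  · have h3 := h.pa.ch (r - 2) (by omega)
    rwa [show r - 2 + 1 = r - 1 by omega] at h3
  · intro he
    have := hin _ _ (by omega) (by omega) he
    omega
  · rw [h1]
    rintro ⟨i, i1, i2, i3⟩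
    have := hin _ _ (by omega) (by omega) i3
    omega
  · rw [h1]
    rintro ⟨i, i1, i2, i3⟩
    have := hin _ _ (by omega) (by omega) i3
    omega
  · intro z
    constructor
    · intro hz
      obtain ⟨i, hi, rfl⟩ := h2 z hz
      rcases Nat.eq_zero_or_pos i with rfl | hi0
      · exact Or.inl rfl
      · rcases Nat.lt_or_ge i (r - 1) with hi1 | hi1
        · exact Or.inr (Or.inr ((h1 _).2 ⟨i, hi0, by omega, rfl⟩))
        · rw [show i = r - 1 by omega]
          exact Or.inr (Or.inl rfl)
    · rintro (rfl | rfl | hz)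
      · exact h.pa.mem 0 (by omega)
      · exact h.pa.mem _ (by omega)
      · obtain ⟨i, i1, i2, rfl⟩ := (h1 z).1 hz
        exact h.pa.mem i (by omega)

end Pool.Agent.P0
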