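import Pool.Agent.P0.OutG49
import Pool.Agent.P0.Adm41

set_option linter.all false

/-!
# P0, I7: the local data of an admissible pair on a member
-/

namespace Pool.Agent.P0

open Pool.Agent.Helper14.LongCyc Pool.Agent.LCK

universe u

variable {V : Type u} {G : SimpleGraph V}

theorem sum_indC49 [DecidableEq V] {c : List V} {hp : 0 < c.length} [NeZero c.length]
    (hc : Cyc G c) {C : Finset V} (hs : ∀ z, z ∈ c ↔ z ∈ C) (w : V) :
    ∑ i, ind49 G c hp w i = dg G C w := by
  rw [sum_ind49 hp (Cyc.nodup hc)]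
  have : c.toFinset = C := by
    ext z; rw [List.mem_toFinset]; exact hs z
  rw [this]

theorem tot_ind49 [DecidableEq V] {c : List V} {hp : 0 < c.length} [NeZero c.length]
    (hc : Cyc G c) {C : Finset V} (hs : ∀ z, z ∈ c ↔ z ∈ C) (x p q y : V) :
    tot49 (ind49 G c hp x) (ind49 G c hp p) (ind49 G c hp q) (ind49 G c hp y) =
      TT41 G p q x y C := by
  unfold tot49 TT41
  rw [sum_indC49 hc hs, sum_indC49 hc hs, sum_indC49 hc hs, sum_indC49 hc hs]

variable {U : Finset V} {k r : ℕ} {Q : List V} {p q x y : V} {F : Finset (Finset V)}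

/-- the moves of LL0 on a member with exactly `r` vertices -/
theorem Adm41.data49 [DecidableEq V] (h : Adm41 G U r Q p q F x y) (hr : 3 ≤ r) {C : Finset V}
    (hC : C ∈ F) (hCr : C.card = r) :
    ∃ (c : List V) (hp : 0 < c.length), c.length = r ∧ Cyc G c ∧ (∀ z, z ∈ c ↔ z ∈ C) ∧
      LLZ c.length (ind49 G c hp x) (ind49 G c hp p) (ind49 G c hp q) (ind49 G c hp y) := by
  refine llz49 hr (h.opt.fam.cyc C hC) hCr h.path h.xp h.qy h.ne h.xQ h.yQ (h.x_notC hC)
    (h.y_notC hC) (fun z hz hzC => h.notQ hC hzC hz) (by have := h.len; omega) ?_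
  intro hT
  refine h.opt.no_two hC (hT.mono ?_)
  intro z hz
  rw [Finset.mem_insert, Finset.mem_insert, Finset.mem_union, List.mem_toFinset] at hz
  rcases hz with rfl | rfl | hz | hz
  · exact Finset.mem_union_right _ h.x_mem
  · exact Finset.mem_union_right _ h.y_mem
  · exact Finset.mem_union_right _ (h.Q_mem hz)
  · exact Finset.mem_union_left _ hz

/-- the same for a given cyclic order of the member -/
theorem Adm41.dataC49 [DecidableEq V] (h : Adm41 G U r Q p q F x y) (hr : 3 ≤ r) {C : Finset V}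
    (hC : C ∈ F) {c : List V} (hc : Cyc G c) (hs : ∀ z, z ∈ c ↔ z ∈ C) (hcr : c.length = r)
    (hp : 0 < c.length) :
    LLZ c.length (ind49 G c hp x) (ind49 G c hp p) (ind49 G c hp q) (ind49 G c hp y) := by
  have D : DatZ49 G c x y p q Q :=
    { cyc := hc
      path := h.path
      px := h.xp
      yq := h.qy
      pq := h.ne
      pm := h.xQ
      qm := h.yQ
      pc := fun hh => h.x_notC hC ((hs _).1 hh)
      qc := fun hh => h.y_notC hC ((hs _).1 hh)
      mc := fun z hz hh => h.notQ hC ((hs _).1 hh) hz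
      len := by have := h.len; omega }
  refine D.llz hp ?_
  intro hT
  rw [hcr] at hT
  refine h.opt.no_two hC (hT.mono ?_)
  intro z hz
  rw [D.mem_U] at hz
  rcases hz with rfl | rfl | hz | hz
  · exact Finset.mem_union_right _ h.x_mem
  · exact Finset.mem_union_right _ h.y_mem
  · exact Finset.mem_union_right _ (h.Q_mem hz)
  · exact Finset.mem_union_left _ ((hs _).1 hz)

end Pool.Agent.P0
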