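import Pool.Agent.P0.Adm41

set_option linter.all false

/-!
# P0, I7: an admissible pair whose rest has the largest number of edges
-/

namespace Pool.Agent.P0

open Pool.Agent.Helper14.LongCyc Pool.Agent.LCK Pool.Agent.FRC

universe u

variable {V : Type u} {G : SimpleGraph V} {U : Finset V} {r : ℕ}

/-- among all admissible pairs there is one whose rest spans the largest number of edges -/
theorem exists_admMax41 {Q : List V} {p q x y : V} {F : Finset (Finset V)}
    (h : Adm41 G U r Q p q F x y) :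
    ∃ (Q' : List V) (p' q' : V) (F' : Finset (Finset V)) (x' y' : V),
      Adm41 G U r Q' p' q' F' x' y' ∧
      ∀ (Q'' : List V) (p'' q'' : V) (F'' : Finset (Finset V)) (x'' y'' : V),
        Adm41 G U r Q'' p'' q'' F'' x'' y'' →
          eS G (Pool.Agent.LCK.rest U F'') (Pool.Agent.LCK.rest U F'')
            ≤ eS G (Pool.Agent.LCK.rest U F') (Pool.Agent.LCK.rest U F') := by
  set s : Set ℕ := {m | ∃ (Q' : List V) (p' q' : V) (F' : Finset (Finset V)) (x' y' : V),
    Adm41 G U r Q' p' q' F' x' y' ∧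
      eS G (Pool.Agent.LCK.rest U F') (Pool.Agent.LCK.rest U F') = m} with hs
  have h1 : s.Nonempty := ⟨_, Q, p, q, F, x, y, h, rfl⟩
  have h2 : BddAbove s := by
    refine ⟨U.card * U.card, ?_⟩
    rintro m ⟨Q', p', q', F', x', y', h3, rfl⟩
    refine (eS_le _ _).trans ?_
    have h4 := Finset.card_le_card (rest_subset U F')
    exact Nat.mul_le_mul h4 h4
  obtain ⟨Q', p', q', F', x', y', h3, h4⟩ := Nat.sSup_mem h1 h2
  refine ⟨Q', p', q', F', x', y', h3, fun Q'' p'' q'' F'' x'' y'' h5 => ?_⟩
  rw [h4]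
  exact le_csSup h2 ⟨Q'', p'', q'', F'', x'', y'', h5, rfl⟩

end Pool.Agent.P0
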