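import Pool.Agent.P0.AdmL49

set_option linter.all false

/-!
# P0, I7: an admissible pair as an optimal path `v 0, …, v (r - 1)`
-/

namespace Pool.Agent.P0

open Pool.Agent.Helper14.LongCyc Pool.Agent.LCK

universe u

variable {V : Type u} {G : SimpleGraph V}

variable {U : Finset V} {k r : ℕ} {Q : List V} {p q x y : V} {F : Finset (Finset V)}

theorem Adm41.optV49 [DecidableEq V] (h : Adm41 G U r Q p q F x y) (S : Set41 G U k r) :
    ∃ v, OptV49 G U r r F v ∧ v 0 = x ∧ v 1 = p ∧ v (r - 2) = q ∧ v (r - 1) = y := by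
  have hQ := h.path.length_pos
  have hl := h.len
  have hr : 3 ≤ r := by omega
  obtain ⟨w, hw, hw0, hw1, hwm⟩ := pa_of_pth49 h.path (U := Pool.Agent.LCK.rest U F)
    (fun z hz => h.Q_mem hz)
  have hin : ∀ i, i < Q.length → w i ∈ Q := fun i hi => (hwm _).2 ⟨i, hi, rfl⟩
  set v : ℕ → V := fun i => if i = 0 then x else if i ≤ r - 2 then w (i - 1) else y with hv
  have v0 : v 0 = x := by simp [hv]
  have vm : ∀ i, 1 ≤ i → i ≤ r - 2 → v i = w (i - 1) := by
    intro i h1 h2
    simp only [hv]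
    rw [if_neg (by omega), if_pos h2]
  have v1 : v (r - 1) = y := by
    simp only [hv]
    rw [if_neg (by omega), if_neg (by omega)]
  have key : ∀ i, i < r → (i = 0 ∧ v i = x) ∨ (1 ≤ i ∧ i ≤ r - 2 ∧ v i = w (i - 1) ∧ v i ∈ Q) ∨
      (i = r - 1 ∧ v i = y) := by
    intro i hi
    rcases Nat.eq_zero_or_pos i with rfl | h1
    · exact Or.inl ⟨rfl, v0⟩
    · rcases Nat.lt_or_ge (r - 2) i with h2 | h2
      · right; right
        have : i = r - 1 := by omega
        exact ⟨this, by rw [this]; exact v1⟩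
      · right; left
        refine ⟨h1, h2, vm i h1 h2, ?_⟩
        rw [vm i h1 h2]
        exact hin _ (by omega)
  refine ⟨v, ⟨h.opt, ⟨?_, ?_, ?_⟩, by omega, ?_⟩, v0, ?_, ?_, v1⟩
  · intro i hi
    rcases key i hi with ⟨_, e⟩ | ⟨_, _, _, e⟩ | ⟨_, e⟩
    · rw [e]; exact h.x_mem
    · exact h.Q_mem e
    · rw [e]; exact h.y_mem
  · intro i j hi hj hij
    rcases key i hi with ⟨e1, e⟩ | ⟨e1, e2, e3, e⟩ | ⟨e1, e⟩ <;>
      rcases key j hj with ⟨f1, f⟩ | ⟨f1, f2, f3, f⟩ | ⟨f1, f⟩
    · omega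
    · exact absurd (by rw [← e, hij]; exact f) h.xQ
    · exact absurd (by rw [← e, ← f, hij]) h.ne
    · exact absurd (by rw [← f, ← hij]; exact e) h.xQ
    · have := hw.inj (i - 1) (j - 1) (by omega) (by omega) (by rw [← e3, ← f3, hij])
      omega
    · exact absurd (by rw [← f, ← hij]; exact e) h.yQ
    · exact absurd (by rw [← e, ← f, hij]) h.ne.symm
    · exact absurd (by rw [← e, hij]; exact f) h.yQ
    · omega
  · intro i hi
    rcases Nat.eq_zero_or_pos i with rfl | h1
    · rw [v0, vm (0 + 1) (by omega) (by omega)]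
      simpa [hw0] using h.xp
    · rcases Nat.lt_or_ge (r - 2) (i + 1) with h2 | h2
      · have e : i + 1 = r - 1 := by omega
        rw [e, v1, vm i h1 (by omega), show i - 1 = Q.length - 1 by omega, hw1]
        exact h.qy
      · rw [vm i h1 (by omega), vm (i + 1) (by omega) h2]
        have := hw.ch (i - 1) (by omega)
        rwa [show i - 1 + 1 = i + 1 - 1 by omega] at this
  · intro F' a b l' hF' hl' hs
    have h1 := Finset.card_le_card (s := l'.toFinset) (t := Pool.Agent.LCK.rest U F')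
      (fun z hz => hs z (List.mem_toFinset.1 hz))
    rw [List.toFinset_card_of_nodup hl'.1, S.rest F' hF'] at h1
    exact h1
  · rw [vm 1 (by omega) (by omega)]; simpa using hw0
  · rw [vm (r - 2) (by omega) le_rfl, show r - 2 - 1 = Q.length - 1 by omega]; exact hw1

end Pool.Agent.P0
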