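import Pool.Agent.P0.Adm41

set_option linter.all false

/-!
# P0, I7, part (B): the two cases of the sum argument

`Bad p q x y C z1 z2` is an abstract predicate: the member `C` is bad with small end `x`, and
`z1, z2` are its third ends.  The mirror image is `Bad q p y x C w1 w2`.
-/

namespace Pool.Agent.P0

open Pool.Agent.Helper14.LongCyc Pool.Agent.LCK

universe u

variable {V : Type u} {G : SimpleGraph V}
variable {U : Finset V} {k r : ℕ} {Q : List V} {p q x y : V} {F : Finset (Finset V)}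

/-- the first outcome of LL0, without the types -/
def Out35 (G : SimpleGraph V) (r : ℕ) (p q x y : V) (C : Finset V) : Prop :=
  TT41 G p q x y C ≤ 4 * r ∨ (TT41 G p q x y C = 4 * r + 1 ∧ dg G C p + dg G C q + 1 = 2 * r)

/-- exchange in one member, second end -/
theorem relR35 [DecidableEq V] {M : Finset (Finset V)} {C E : Finset V} {z : V}
    (h : Adm41 G U r Q p q F x y) (hC : C ∈ F) (hE : E ∈ F) (hCE : C ≠ E)
    (hM : (F.erase C).erase E = M) (hz : z ∈ C) (hD : CycSet G (insert y (C.erase z)))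
    (hqz : G.Adj q z) :
    ∃ F' C', Adm41 G U r Q p q F' x z ∧ C' ∈ F' ∧ E ∈ F' ∧ C' ≠ E ∧
      (F'.erase C').erase E = M := by
  have hy : insert y (C.erase z) ∉ F.erase C := by
    intro h1
    exact h.y_notC (Finset.mem_of_mem_erase h1) (Finset.mem_insert_self _ _)
  refine ⟨_, insert y (C.erase z), h.swapR hC hz hD hqz, Finset.mem_insert_self _ _,
    mem_swap41 hE hCE.symm, ?_, ?_⟩
  · rintro rfl
    exact h.y_notC hE (Finset.mem_insert_self _ _)
  · rw [Finset.erase_insert hy]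
    exact hM

/-- exchange in one member, first end -/
theorem relL35 [DecidableEq V] {M : Finset (Finset V)} {C E : Finset V} {w : V}
    (h : Adm41 G U r Q p q F x y) (hC : C ∈ F) (hE : E ∈ F) (hCE : C ≠ E)
    (hM : (F.erase C).erase E = M) (hw : w ∈ E) (hD : CycSet G (insert x (E.erase w)))
    (hpw : G.Adj p w) :
    ∃ F' E', Adm41 G U r Q p q F' w y ∧ C ∈ F' ∧ E' ∈ F' ∧ C ≠ E' ∧
      (F'.erase C).erase E' = M := by
  have hx : insert x (E.erase w) ∉ F.erase E := by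
    intro h1
    exact h.x_notC (Finset.mem_of_mem_erase h1) (Finset.mem_insert_self _ _)
  refine ⟨_, insert x (E.erase w), h.swapL hE hw hD hpw.symm, mem_swap41 hC hCE,
    Finset.mem_insert_self _ _, ?_, ?_⟩
  · rintro rfl
    exact h.x_notC hC (Finset.mem_insert_self _ _)
  · rw [Finset.erase_right_comm, Finset.erase_insert hx, Finset.erase_right_comm]
    exact hM

/-- all members but two -/
theorem fin35 [DecidableEq V] {M : Finset (Finset V)} {C E : Finset V}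
    (h : Adm41 G U r Q p q F x y) (S : Set41 G U k r) (hr : 3 ≤ r)
    (hLL : ∀ D ∈ F, Out35 G r p q x y D) (hC : C ∈ F) (hE : E ∈ F) (hCE : C ≠ E)
    (hM : (F.erase C).erase E = M) :
    M.card * (4 * r) + 2 ≤ ∑ D ∈ M, TT41 G p q x y D ∧ ∀ D ∈ M, Out35 G r p q x y D := by
  have h1 := h.sum0' S hr
  have hE' : E ∈ F.erase C := Finset.mem_erase.2 ⟨hCE.symm, hE⟩
  have h2 : M.card + 2 = F.card := by
    rw [← hM, Finset.card_erase_of_mem hE', Finset.card_erase_of_mem hC]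
    have h3 := Finset.card_pos.2 ⟨E, hE'⟩
    rw [Finset.card_erase_of_mem hC] at h3
    omega
  have h4 : ∑ D ∈ F, TT41 G p q x y D =
      TT41 G p q x y C + (TT41 G p q x y E + ∑ D ∈ M, TT41 G p q x y D) := by
    rw [← hM, Finset.add_sum_erase _ _ hE', Finset.add_sum_erase _ _ hC]
  have h5 : TT41 G p q x y C ≤ 4 * r + 1 := by
    rcases hLL C hC with h6 | ⟨h6, -⟩ <;> omega
  have h6 : TT41 G p q x y E ≤ 4 * r + 1 := by
    rcases hLL E hE with h6 | ⟨h6, -⟩ <;> omega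
  refine ⟨?_, fun D hD => ?_⟩
  · rw [← h2, h4] at h1
    have h7 : (M.card + 2) * (4 * r) = M.card * (4 * r) + 8 * r := by ring
    omega
  · rw [← hM] at hD
    exact hLL D (Finset.mem_of_mem_erase (Finset.mem_of_mem_erase hD))

/-- all members but one -/
theorem fin1_35 [DecidableEq V] {M : Finset (Finset V)} {C : Finset V}
    (h : Adm41 G U r Q p q F x y) (S : Set41 G U k r) (hr : 3 ≤ r)
    (hLL : ∀ D ∈ F, Out35 G r p q x y D) (hC : C ∈ F) (hM : F.erase C = M) :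
    M.card * (4 * r) + 3 ≤ ∑ D ∈ M, TT41 G p q x y D ∧ ∀ D ∈ M, Out35 G r p q x y D := by
  have h1 := h.sum0' S hr
  have h2 : M.card + 1 = F.card := by
    rw [← hM, Finset.card_erase_of_mem hC]
    have h3 := Finset.card_pos.2 ⟨C, hC⟩
    omega
  have h4 : ∑ D ∈ F, TT41 G p q x y D =
      TT41 G p q x y C + ∑ D ∈ M, TT41 G p q x y D := by
    rw [← hM, Finset.add_sum_erase _ _ hC]
  have h5 : TT41 G p q x y C ≤ 4 * r + 1 := by
    rcases hLL C hC with h6 | ⟨h6, -⟩ <;> omega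
  refine ⟨?_, fun D hD => ?_⟩
  · rw [← h2, h4] at h1
    have h7 : (M.card + 1) * (4 * r) = M.card * (4 * r) + 4 * r := by ring
    omega
  · rw [← hM] at hD
    exact hLL D (Finset.mem_of_mem_erase hD)

/-- the degree form of an outcome -/
theorem Out35.le {p q x y : V} {C : Finset V} (h : Out35 G r p q x y C) :
    TT41 G p q x y C ≤ 4 * r + 1 := by
  rcases h with h | ⟨h, -⟩ <;> omega

/-- the claim of Case I for one member -/
theorem oneI35 {D : Finset V} {x y z1 z2 : V} (h0 : Out35 G r p q x y D)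
    (h1 : Out35 G r p q x z1 D) (h2 : Out35 G r p q x z2 D)
    (hP : 4 * r < TT41 G p q x y D → dg G D z1 + dg G D z2 + 2 ≤ 2 * dg G D y) :
    2 * TT41 G p q x y D + TT41 G p q x z1 D + TT41 G p q x z2 D ≤ 16 * r := by
  have l0 := h0.le
  have l1 := h1.le
  have l2 := h2.le
  rcases Nat.lt_or_ge (4 * r) (TT41 G p q x y D) with hT | hT
  · have h3 := hP hT
    rcases h0 with h0 | ⟨h0, h0'⟩
    · omega
    · unfold TT41 at *
      omega
  · rcases h0 with h0 | ⟨h0, h0'⟩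
    swap
    · omega
    rcases h1 with h1 | ⟨h1, h1'⟩
    · rcases h2 with h2 | ⟨h2, h2'⟩
      · omega
      · unfold TT41 at *
        omega
    · unfold TT41 at *
      omega

/-- the claim of Case II for one member -/
theorem oneII35 {D : Finset V} {x w1 w2 y z1 z2 : V} (h00 : Out35 G r p q x y D)
    (h01 : Out35 G r p q x z1 D) (h02 : Out35 G r p q x z2 D)
    (h10 : Out35 G r p q w1 y D) (h11 : Out35 G r p q w1 z1 D) (h12 : Out35 G r p q w1 z2 D)
    (h20 : Out35 G r p q w2 y D) (h21 : Out35 G r p q w2 z1 D) (h22 : Out35 G r p q w2 z2 D)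
    (hP : 4 * r < TT41 G p q x y D → dg G D z1 + dg G D z2 + 2 ≤ 2 * dg G D y ∨
      dg G D w1 + dg G D w2 + 2 ≤ 2 * dg G D x) :
    4 * TT41 G p q x y D + 2 * TT41 G p q x z1 D + 2 * TT41 G p q x z2 D +
      (2 * TT41 G p q w1 y D + TT41 G p q w1 z1 D + TT41 G p q w1 z2 D) +
      (2 * TT41 G p q w2 y D + TT41 G p q w2 z1 D + TT41 G p q w2 z2 D) ≤ 64 * r := by
  by_cases hB : dg G D p + dg G D q + 1 = 2 * r
  · have l00 := h00.le
    have l01 := h01.le
    have l02 := h02.le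
    have l10 := h10.le
    have l11 := h11.le
    have l12 := h12.le
    have l20 := h20.le
    have l21 := h21.le
    have l22 := h22.le
    rcases Nat.lt_or_ge (4 * r) (TT41 G p q x y D) with hT | hT
    · have h3 := hP hT
      unfold TT41 at *
      rcases h3 with h3 | h3 <;> omega
    · unfold TT41 at *
      omega
  · have t : ∀ {x y : V}, Out35 G r p q x y D → TT41 G p q x y D ≤ 4 * r := by
      intro x y h
      rcases h with h | ⟨-, h⟩
      · exact h
      · exact absurd h hB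
    have l00 := t h00
    have l01 := t h01
    have l02 := t h02
    have l10 := t h10
    have l11 := t h11
    have l12 := t h12
    have l20 := t h20
    have l21 := t h21
    have l22 := t h22
    omega

section

variable {Bad : V → V → V → V → Finset V → V → V → Prop}

/-- LL0 with the types -/
def LLB35 (G : SimpleGraph V) (U : Finset V) (r : ℕ)
    (Bad : V → V → V → V → Finset V → V → V → Prop) : Prop :=
  ∀ (Q : List V) (p q : V) (F : Finset (Finset V)) (x y : V), Adm41 G U r Q p q F x y →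
    ∀ C ∈ F, TT41 G p q x y C ≤ 4 * r ∨ (TT41 G p q x y C = 4 * r + 1 ∧
      dg G C p + dg G C q + 1 = 2 * r ∧
      ((∃ z1 z2, Bad p q x y C z1 z2) ∨ (∃ z1 z2, Bad q p y x C z1 z2)))

theorem LLB35.out (hLL : LLB35 G U r Bad) (h : Adm41 G U r Q p q F x y) :
    ∀ C ∈ F, Out35 G r p q x y C := by
  intro C hC
  rcases hLL Q p q F x y h C hC with h1 | ⟨h1, h2, -⟩
  · exact Or.inl h1
  · exact Or.inr ⟨h1, h2⟩

/-- the third ends -/
def ZB35 (G : SimpleGraph V) [DecidableEq V]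
    (Bad : V → V → V → V → Finset V → V → V → Prop) : Prop :=
  ∀ p q x y C z1 z2, Bad p q x y C z1 z2 → z1 ∈ C ∧ z2 ∈ C ∧ CycSet G (insert y (C.erase z1)) ∧
    CycSet G (insert y (C.erase z2)) ∧ G.Adj q z1 ∧ G.Adj q z2

/-- the pair lemma -/
def PLB35 (G : SimpleGraph V) (U : Finset V) (r : ℕ)
    (Bad : V → V → V → V → Finset V → V → V → Prop) : Prop :=
  ∀ (Q : List V) (p q : V) (F : Finset (Finset V)) (x y : V), Adm41 G U r Q p q F x y →
    ∀ C ∈ F, ∀ E ∈ F, C ≠ E → ∀ z1 z2 e1 e2, Bad p q x y C z1 z2 → Bad p q x y E e1 e2 →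
      dg G E z1 + dg G E z2 + 2 ≤ 2 * dg G E y

/-- Case I -/
theorem caseI35 [DecidableEq V] (S : Set41 G U k r) (hr : 3 ≤ r) (hLL : LLB35 G U r Bad)
    (hZ : ZB35 G Bad) (hPL : PLB35 G U r Bad) (h : Adm41 G U r Q p q F x y) {C : Finset V}
    (hC : C ∈ F) {z1 z2 : V} (hB : Bad p q x y C z1 z2)
    (hno : ∀ E ∈ F, ∀ w1 w2, ¬ Bad q p y x E w1 w2) : False := by
  obtain ⟨m1, m2, c1, c2, a1, a2⟩ := hZ _ _ _ _ _ _ _ hB
  have key : ∀ {z : V}, z ∈ C → CycSet G (insert y (C.erase z)) → G.Adj q z →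
      (F.erase C).card * (4 * r) + 3 ≤ ∑ D ∈ F.erase C, TT41 G p q x z D ∧
        ∀ D ∈ F.erase C, Out35 G r p q x z D := by
    intro z hz hc ha
    have h1 := h.swapR hC hz hc ha
    have hy : insert y (C.erase z) ∉ F.erase C := by
      intro h1
      exact h.y_notC (Finset.mem_of_mem_erase h1) (Finset.mem_insert_self _ _)
    exact fin1_35 h1 S hr (hLL.out h1) (Finset.mem_insert_self _ _) (Finset.erase_insert hy)
  obtain ⟨s0, o0⟩ := fin1_35 h S hr (hLL.out h) hC rfl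
  obtain ⟨s1, o1⟩ := key m1 c1 a1
  obtain ⟨s2, o2⟩ := key m2 c2 a2
  have h3 : ∑ D ∈ F.erase C, (2 * TT41 G p q x y D + TT41 G p q x z1 D + TT41 G p q x z2 D) ≤
      (F.erase C).card • (16 * r) := by
    refine Finset.sum_le_card_nsmul _ _ _ fun D hD => ?_
    refine oneI35 (o0 D hD) (o1 D hD) (o2 D hD) fun hT => ?_
    have hD' := Finset.mem_erase.1 hD
    rcases hLL Q p q F x y h D hD'.2 with h4 | ⟨-, -, h4⟩
    · omega
    · rcases h4 with ⟨e1, e2, h4⟩ | ⟨e1, e2, h4⟩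
      · exact hPL Q p q F x y h C hC D hD'.2 hD'.1.symm z1 z2 e1 e2 hB h4
      · exact absurd h4 (hno D hD'.2 e1 e2)
  rw [Finset.sum_add_distrib, Finset.sum_add_distrib, ← Finset.mul_sum, smul_eq_mul] at h3
  have h5 : (F.erase C).card * (16 * r) = 4 * ((F.erase C).card * (4 * r)) := by ring
  omega

/-- Case II -/
theorem caseII35 [DecidableEq V] (S : Set41 G U k r) (hr : 3 ≤ r) (hLL : LLB35 G U r Bad)
    (hZ : ZB35 G Bad) (hPL : PLB35 G U r Bad) (h : Adm41 G U r Q p q F x y) {C E : Finset V}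
    (hC : C ∈ F) (hE : E ∈ F) (hCE : C ≠ E) {z1 z2 w1 w2 : V} (hB : Bad p q x y C z1 z2)
    (hB' : Bad q p y x E w1 w2) : False := by
  obtain ⟨m1, m2, c1, c2, a1, a2⟩ := hZ _ _ _ _ _ _ _ hB
  obtain ⟨m1', m2', c1', c2', a1', a2'⟩ := hZ _ _ _ _ _ _ _ hB'
  set M := (F.erase C).erase E with hM
  -- the pairs `(x, z)`
  obtain ⟨F1, C1, f1, f1c, f1e, f1n, f1m⟩ := relR35 h hC hE hCE hM.symm m1 c1 a1
  obtain ⟨F2, C2, f2, f2c, f2e, f2n, f2m⟩ := relR35 h hC hE hCE hM.symm m2 c2 a2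
  -- the pairs `(w, y)`
  obtain ⟨G1, E1, g1, g1c, g1e, g1n, g1m⟩ := relL35 h hC hE hCE hM.symm m1' c1' a1'
  obtain ⟨G2, E2, g2, g2c, g2e, g2n, g2m⟩ := relL35 h hC hE hCE hM.symm m2' c2' a2'
  -- the pairs `(w, z)`
  obtain ⟨H11, _, i11, j11, k11, l11, n11⟩ := relL35 f1 f1c f1e f1n f1m m1' c1' a1'
  obtain ⟨H12, _, i12, j12, k12, l12, n12⟩ := relL35 f2 f2c f2e f2n f2m m1' c1' a1'
  obtain ⟨H21, _, i21, j21, k21, l21, n21⟩ := relL35 f1 f1c f1e f1n f1m m2' c2' a2'
  obtain ⟨H22, _, i22, j22, k22, l22, n22⟩ := relL35 f2 f2c f2e f2n f2m m2' c2' a2'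
  obtain ⟨s00, o00⟩ := fin35 h S hr (hLL.out h) hC hE hCE hM.symm
  obtain ⟨s01, o01⟩ := fin35 f1 S hr (hLL.out f1) f1c f1e f1n f1m
  obtain ⟨s02, o02⟩ := fin35 f2 S hr (hLL.out f2) f2c f2e f2n f2m
  obtain ⟨s10, o10⟩ := fin35 g1 S hr (hLL.out g1) g1c g1e g1n g1m
  obtain ⟨s20, o20⟩ := fin35 g2 S hr (hLL.out g2) g2c g2e g2n g2m
  obtain ⟨s11, o11⟩ := fin35 i11 S hr (hLL.out i11) j11 k11 l11 n11
  obtain ⟨s12, o12⟩ := fin35 i12 S hr (hLL.out i12) j12 k12 l12 n12
  obtain ⟨s21, o21⟩ := fin35 i21 S hr (hLL.out i21) j21 k21 l21 n21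
  obtain ⟨s22, o22⟩ := fin35 i22 S hr (hLL.out i22) j22 k22 l22 n22
  have h3 : ∑ D ∈ M, (4 * TT41 G p q x y D + 2 * TT41 G p q x z1 D + 2 * TT41 G p q x z2 D +
      (2 * TT41 G p q w1 y D + TT41 G p q w1 z1 D + TT41 G p q w1 z2 D) +
      (2 * TT41 G p q w2 y D + TT41 G p q w2 z1 D + TT41 G p q w2 z2 D)) ≤
      M.card • (64 * r) := by
    refine Finset.sum_le_card_nsmul _ _ _ fun D hD => ?_
    refine oneII35 (o00 D hD) (o01 D hD) (o02 D hD) (o10 D hD) (o11 D hD) (o12 D hD) (o20 D hD)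
      (o21 D hD) (o22 D hD) fun hT => ?_
    have hD' := Finset.mem_erase.1 hD
    have hD'' := Finset.mem_erase.1 hD'.2
    rcases hLL Q p q F x y h D hD''.2 with h4 | ⟨-, -, h4⟩
    · omega
    · rcases h4 with ⟨e1, e2, h4⟩ | ⟨e1, e2, h4⟩
      · exact Or.inl (hPL Q p q F x y h C hC D hD''.2 hD''.1.symm z1 z2 e1 e2 hB h4)
      · exact Or.inr (hPL _ q p F y x h.symm E hE D hD''.2 hD'.1.symm w1 w2 e1 e2 hB' h4)
  simp only [Finset.sum_add_distrib, ← Finset.mul_sum, smul_eq_mul] at h3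
  have h5 : M.card * (64 * r) = 16 * (M.card * (4 * r)) := by ring
  omega

/-- **part (B)**: no admissible pair at all -/
theorem b35 [DecidableEq V] (S : Set41 G U k r) (hr : 3 ≤ r) (hLL : LLB35 G U r Bad)
    (hZ : ZB35 G Bad) (hPL : PLB35 G U r Bad)
    (hdis : ∀ p q x y C z1 z2 w1 w2, Bad p q x y C z1 z2 → Bad q p y x C w1 w2 → False)
    (h : Adm41 G U r Q p q F x y) : False := by
  by_cases hx : ∃ C ∈ F, ∃ z1 z2, Bad p q x y C z1 z2
  · obtain ⟨C, hC, z1, z2, hB⟩ := hx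
    by_cases hy : ∃ E ∈ F, ∃ w1 w2, Bad q p y x E w1 w2
    · obtain ⟨E, hE, w1, w2, hB'⟩ := hy
      refine caseII35 S hr hLL hZ hPL h hC hE ?_ hB hB'
      rintro rfl
      exact hdis _ _ _ _ _ _ _ _ _ hB hB'
    · refine caseI35 S hr hLL hZ hPL h hC hB fun E hE w1 w2 hB' => ?_
      exact hy ⟨E, hE, w1, w2, hB'⟩
  · by_cases hy : ∃ E ∈ F, ∃ w1 w2, Bad q p y x E w1 w2
    · obtain ⟨E, hE, w1, w2, hB'⟩ := hy
      refine caseI35 S hr hLL hZ hPL h.symm hE hB' fun D hD z1 z2 hB => ?_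
      exact hx ⟨D, hD, z1, z2, hB⟩
    · have h1 := h.sum0' S hr
      have h2 : ∑ C ∈ F, TT41 G p q x y C ≤ F.card • (4 * r) := by
        refine Finset.sum_le_card_nsmul _ _ _ fun C hC => ?_
        rcases hLL Q p q F x y h C hC with h3 | ⟨-, -, h3⟩
        · exact h3
        · rcases h3 with ⟨z1, z2, h3⟩ | ⟨z1, z2, h3⟩
          · exact absurd ⟨C, hC, z1, z2, h3⟩ hx
          · exact absurd ⟨C, hC, z1, z2, h3⟩ hy
      rw [smul_eq_mul] at h2
      omega

end

end Pool.Agent.P0
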