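import Pool.Agent.P0.OutA49
import Pool.Agent.P0.AdmV49

set_option linter.all false

/-!
# P0, I7: forms of the output of LL0 used by the rows (B), (C1), (C2)
-/

namespace Pool.Agent.P0

open Pool.Agent.Helper14.LongCyc Pool.Agent.LCK

universe u

variable {V : Type u} {G : SimpleGraph V}

section

variable {c : List V} {hp : 0 < c.length} {u s t v : V}

/-- positions inside one turn are different -/
theorem mod_ne49 {L n j k : ℕ} (hj : j < L) (hk : k < L) (h : j ≠ k) :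
    (n + j) % L ≠ (n + k) % L := by
  intro he
  have h1 : j ≡ k [MOD L] := Nat.ModEq.add_left_cancel' n he
  unfold Nat.ModEq at h1
  rw [Nat.mod_eq_of_lt hj, Nat.mod_eq_of_lt hk] at h1
  exact h h1

/-- every position is `n + j` with `j < c.length` -/
theorem pos49 {L : ℕ} (hL : 0 < L) (n i : ℕ) : ∃ j, j < L ∧ (n + j) % L = i % L := by
  refine ⟨(i + n * (L - 1)) % L, Nat.mod_lt _ hL, ?_⟩
  rw [Nat.add_mod, Nat.mod_mod, ← Nat.add_mod,
    show n + (i + n * (L - 1)) = i + n * (1 + (L - 1)) by ring,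
    show 1 + (L - 1) = L by omega, Nat.add_mul_mod_self_right]

/-- type 1 with all bits -/
theorem OneW49.tOne49 [DecidableEq V] {n : ℕ} (h : OneW49 G c hp u s t v n) (hc : Cyc G c)
    {C : Finset V} (hs : ∀ z, z ∈ c ↔ z ∈ C)
    (hB : 2 * c.length ≤ dg G C s + dg G C t + 1) : TOne49 G c hp u s t v n := by
  have hL := hc.1
  obtain ⟨b1, b2⟩ := bitsG49 (hp := hp) hc hs hB
  have hm : ¬ (G.Adj s (cf c hp (n + 2)) ∧ G.Adj t (cf c hp (n + 2))) := fun hh => h.2.2 hh.2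
  have b3 : ∀ j, j < c.length → j ≠ 2 →
      G.Adj s (cf c hp (n + j)) ∧ G.Adj t (cf c hp (n + j)) := fun j hj hj2 =>
    b2 (n + 2) (n + j) (mod_ne49 (by omega) hj (fun e => hj2 e.symm)) hm
  refine ⟨h.1, h.2.1, ?_, ?_⟩
  · intro i
    obtain ⟨j, hj, he⟩ := pos49 hp n i
    rw [← cf_congr hp he]
    by_cases hj2 : j = 2
    · subst hj2
      exact (b1 (n + 2)).resolve_right h.2.2
    · exact (b3 j hj hj2).1
  · intro j hj
    constructor
    · rintro hh rfl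
      exact h.2.2 hh
    · exact fun hj2 => (b3 j hj hj2).2

/-- type 2 minus one bit, or a good third end in the middle -/
theorem TwoW49.split49 [DecidableEq V] {n : ℕ} (h : TwoW49 G c hp u v n) (hc : Cyc G c)
    (hL : 4 ≤ c.length) {C : Finset V} (hs : ∀ z, z ∈ c ↔ z ∈ C)
    (hB : 2 * c.length ≤ dg G C s + dg G C t + 1) :
    TTwo49 G c hp u s t v n ∨
      (G.Adj s (cf c hp (n + 2)) ∧ G.Adj t (cf c hp (n + 2))) := by
  obtain ⟨b1, b2⟩ := bitsG49 (hp := hp) hc hs hB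
  by_cases hm : G.Adj s (cf c hp (n + 2)) ∧ G.Adj t (cf c hp (n + 2))
  · exact Or.inr hm
  · left
    have b3 : ∀ j, j < c.length → j ≠ 2 →
        G.Adj s (cf c hp (n + j)) ∧ G.Adj t (cf c hp (n + j)) := fun j hj hj2 =>
      b2 (n + 2) (n + j) (mod_ne49 (by omega) hj (fun e => hj2 e.symm)) hm
    refine ⟨fun j hj => (h j hj).1, fun j hj => (h j hj).2, fun j hj hj2 => (b3 j hj hj2).1,
      fun j hj hj2 => (b3 j hj hj2).2, ?_⟩
    intro hiff
    rcases b1 (n + 2) with h1 | h1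
    · exact hm ⟨h1, hiff.1 h1⟩
    · exact hm ⟨hiff.2 h1, h1⟩

/-- a third end of a word of type 2 -/
theorem TwoW49.third49 {n : ℕ} (h : TwoW49 G c hp u v n) (hL : 4 ≤ c.length)
    (hst : G.Adj s (cf c hp (n + 2)) ∧ G.Adj t (cf c hp (n + 2))) :
    Third49 G c hp u s t v (n + 1) := by
  refine ⟨?_, ?_, ?_, ?_, ?_, ?_⟩
  · exact (h 1 (by omega)).1.2 (Or.inl rfl)
  · exact (h 3 (by omega)).1.2 (Or.inr rfl)
  · exact (h 1 (by omega)).2.2 (by omega)
  · exact (h 3 (by omega)).2.2 (by omega)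
  · exact hst.1
  · exact hst.2

/-- a third end of a word with the bit missing in the middle -/
theorem ThrW49.third49 [DecidableEq V] {n : ℕ} (h : ThrW49 G c hp u s t v n) (hc : Cyc G c)
    (hL : 6 ≤ c.length) {C : Finset V} (hs : ∀ z, z ∈ c ↔ z ∈ C)
    (hB : 2 * c.length ≤ dg G C s + dg G C t + 1) : Third49 G c hp u s t v (n + 1) := by
  obtain ⟨b1, b2⟩ := bitsG49 (hp := hp) hc hs hB
  have b3 := b2 (n + 3) (n + 2) (mod_ne49 (by omega) (by omega) (by omega)) h.2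
  exact ⟨(h.1 1 (by omega)).1.2 (Or.inl rfl), (h.1 3 (by omega)).1.2 (Or.inr (Or.inl rfl)),
    (h.1 1 (by omega)).2.2 ⟨by omega, by omega⟩, (h.1 3 (by omega)).2.2 ⟨by omega, by omega⟩,
    b3.1, b3.2⟩

/-- a third end of a word with four ends (there are two of them) -/
theorem Four49.third49 [DecidableEq V] {n : ℕ} (h : Four49 G c hp u s t v n) (hc : Cyc G c)
    (hL : 6 ≤ c.length) {C : Finset V} (hs : ∀ z, z ∈ c ↔ z ∈ C)
    (hB : 2 * c.length ≤ dg G C s + dg G C t + 1) :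
    Third49 G c hp u s t v (n + 1) ∨ Third49 G c hp u s t v (n + 3) := by
  obtain ⟨b1, b2⟩ := bitsG49 (hp := hp) hc hs hB
  obtain ⟨h1, h2, h3, h4, h5, h6, h7, h8⟩ := h
  by_cases hm : G.Adj s (cf c hp (n + 2)) ∧ G.Adj t (cf c hp (n + 2))
  · exact Or.inl ⟨h1, h2, h4, h5, hm.1, hm.2⟩
  · have b3 := b2 (n + 2) (n + 4) (mod_ne49 (by omega) (by omega) (by omega)) hm
    exact Or.inr ⟨h2, h3, h5, h6, b3.1, b3.2⟩

/-- the bits of four ends -/
theorem Four49.bits49 [DecidableEq V] {n : ℕ} (hc : Cyc G c)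
    (hL : 6 ≤ c.length) {C : Finset V} (hs : ∀ z, z ∈ c ↔ z ∈ C)
    (hB : 2 * c.length ≤ dg G C s + dg G C t + 1) :
    (G.Adj s (cf c hp (n + 2)) ∧ G.Adj t (cf c hp (n + 4))) ∨
      (G.Adj s (cf c hp (n + 4)) ∧ G.Adj t (cf c hp (n + 2))) := by
  obtain ⟨b1, b2⟩ := bitsG49 (hp := hp) hc hs hB
  by_cases hm : G.Adj s (cf c hp (n + 2)) ∧ G.Adj t (cf c hp (n + 2))
  · rcases b1 (n + 4) with h1 | h1
    · exact Or.inr ⟨h1, hm.2⟩
    · exact Or.inl ⟨hm.1, h1⟩
  · have b3 := b2 (n + 2) (n + 4) (mod_ne49 (by omega) (by omega) (by omega)) hm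
    rcases b1 (n + 2) with h1 | h1
    · exact Or.inl ⟨h1, b3.2⟩
    · exact Or.inr ⟨b3.1, h1⟩

end

/-! ### exchanges on the frame -/

variable {U : Finset V} {k r : ℕ} {Q : List V} {p q x y : V} {F : Finset (Finset V)}

/-- `y` replaces position `n + 1` -/
theorem Adm41.replR49 [DecidableEq V] (h : Adm41 G U r Q p q F x y) {C : Finset V} (hC : C ∈ F)
    {c : List V} (hc : Cyc G c) (hs : ∀ z, z ∈ c ↔ z ∈ C) (hp : 0 < c.length) (n : ℕ)
    (h1 : G.Adj y (cf c hp n)) (h2 : G.Adj y (cf c hp (n + 2)))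
    (h3 : G.Adj q (cf c hp (n + 1))) :
    Adm41 G U r Q p q (insert (insert y (C.erase (cf c hp (n + 1)))) (F.erase C)) x
      (cf c hp (n + 1)) :=
  h.swapR hC ((hs _).1 (cf_mem hp _))
    (cyc_repl49 hc hp n (fun hh => h.y_notC hC ((hs _).1 hh)) h1 h2 hs) h3

/-- `x` replaces position `n + 1` -/
theorem Adm41.replL49 [DecidableEq V] (h : Adm41 G U r Q p q F x y) {C : Finset V} (hC : C ∈ F)
    {c : List V} (hc : Cyc G c) (hs : ∀ z, z ∈ c ↔ z ∈ C) (hp : 0 < c.length) (n : ℕ)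
    (h1 : G.Adj x (cf c hp n)) (h2 : G.Adj x (cf c hp (n + 2)))
    (h3 : G.Adj p (cf c hp (n + 1))) :
    Adm41 G U r Q p q (insert (insert x (C.erase (cf c hp (n + 1)))) (F.erase C))
      (cf c hp (n + 1)) y :=
  h.swapL hC ((hs _).1 (cf_mem hp _))
    (cyc_repl49 hc hp n (fun hh => h.x_notC hC ((hs _).1 hh)) h1 h2 hs) h3.symm

end Pool.Agent.P0
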