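import Pool.Agent.P0.PLB19
import Pool.Agent.P0.B35
import Pool.Agent.P0.Cons49

set_option linter.all false

/-!
# P0, I7 (B): the bad members on the graph
-/

namespace Pool.Agent.P0

open Pool.Agent.Helper14.LongCyc Pool.Agent.LCK

universe u

variable {V : Type u} {G : SimpleGraph V}
variable {r : ℕ} {C : Finset V} {f : ℕ → V} {p q x y : V}

/-! ### labellings -/

/-- a cyclic list gives a labelling -/
theorem rot35 {c : List V} (hc : Cyc G c) (hp : 0 < c.length) (hs : ∀ z, z ∈ c ↔ z ∈ C)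
    (hcr : c.length = r) (n : ℕ) : Rot19 G r C (fun j => cf c hp (n + j)) where
  adj := fun i => cf_adj hc hp (n + i)
  per := fun i => by
    rw [← Nat.add_assoc, ← hcr]
    exact cf_congr hp (Nat.add_mod_right _ _)
  inj := fun i j h1 h2 => far49 hc hp n h1 (by omega)
  mem := fun z => by
    rw [← hs]
    constructor
    · intro hz
      obtain ⟨i, _, rfl⟩ := exists_cf hp hz
      obtain ⟨j, hj, he⟩ := pos49 hp n i
      exact ⟨j, by omega, (cf_congr hp he).symm⟩
    · rintro ⟨i, _, rfl⟩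
      exact cf_mem hp _

theorem Rot19.card35 [DecidableEq V] (h : Rot19 G r C f) : C.card = r := by
  have e : C = (Finset.range r).image f := by
    ext z
    rw [h.mem, Finset.mem_image]
    constructor
    · rintro ⟨i, hi, rfl⟩
      exact ⟨i, Finset.mem_range.2 hi, rfl⟩
    · rintro ⟨i, hi, rfl⟩
      exact ⟨i, Finset.mem_range.1 hi, rfl⟩
  rw [e, Finset.card_image_of_injOn, Finset.card_range]
  intro i hi j hj hij
  have hi' : i < r := by simpa using hi
  have hj' : j < r := by simpa using hj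
  rcases Nat.lt_trichotomy i j with h1 | h1 | h1
  · exact absurd hij (h.inj i j h1 (by omega))
  · exact h1
  · exact absurd hij.symm (h.inj j i h1 (by omega))

/-- the exchange at position `n + 1` -/
theorem Rot19.repl35 [DecidableEq V] (h : Rot19 G r C f) (hr : 3 ≤ r) {w : V} (hw : w ∉ C) (n : ℕ)
    (h1 : G.Adj w (f n)) (h2 : G.Adj w (f (n + 2))) :
    CycSet G (insert w (C.erase (f (n + 1)))) := by
  have hW := h.wk (n + 2) (r - 2)
  have e0 : f (n + 2 + (r - 2)) = f n := by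
    rw [show n + 2 + (r - 2) = n + r by omega, h.per]
  rw [e0] at hW
  have hW' := hW.cons h2
  have hm : ∀ z, z ∈ seg f (n + 2) (r - 2) ↔ z ∈ C.erase (f (n + 1)) := by
    intro z
    rw [Pool.Agent.Helper14.LongCyc.mem_seg, Finset.mem_erase]
    constructor
    · rintro ⟨j, j1, j2, rfl⟩
      refine ⟨?_, h.mem' (by omega) _⟩
      exact (h.inj (n + 1) j (by omega) (by omega)).symm
    · rintro ⟨hz, hzC⟩
      obtain ⟨i, i1, i2, rfl⟩ := h.win (by omega) (n + 1) hzC
      rcases Nat.eq_or_lt_of_le i1 with h3 | h3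
      · exact absurd (by rw [← h3]) hz
      · exact ⟨i, by omega, by omega, rfl⟩
  have hnd : (w :: seg f (n + 2) (r - 2)).Nodup := by
    rw [List.nodup_cons]
    refine ⟨fun hh => hw (Finset.mem_of_mem_erase ((hm w).1 hh)), h.nodup _ _ (by omega)⟩
  refine ⟨w :: seg f (n + 2) (r - 2), hW'.cyc h1.symm hnd ?_, ?_⟩
  · rw [List.length_cons, seg_length]; omega
  · intro z
    rw [List.mem_cons, hm, Finset.mem_insert]

/-! ### the predicate -/

/-- a bad member, disjoint from the ends -/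
def Bad35 (G : SimpleGraph V) (r : ℕ) (p q x y : V) (C : Finset V) (z1 z2 : V) : Prop :=
  Bad19 G r p q x y C z1 z2 ∧ x ∉ C ∧ y ∉ C

theorem BadOne19.deg35 [DecidableEq V] (h : BadOne19 G r p q x y C f) (hr : 5 ≤ r) :
    dg G C x ≤ 2 ∧ r ≤ dg G C y + 1 := by
  classical
  have hc := h.rot.card35
  constructor
  · have h1 : dg G C x ≤ ({f 2} : Finset V).card := by
      unfold dg
      refine Finset.card_le_card fun z hz => ?_
      rw [Finset.mem_filter] at hz
      rw [Finset.mem_singleton]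
      exact (h.ax z hz.1).1 hz.2
    rw [Finset.card_singleton] at h1
    omega
  · have h1 : C.card ≤ dg G C y := by
      unfold dg
      refine Finset.card_le_card fun z hz => ?_
      rw [Finset.mem_filter]
      exact ⟨hz, h.ay z hz⟩
    omega

theorem BadTwo19.deg35 [DecidableEq V] (h : BadTwo19 G r p q x y C f) (hr : 5 ≤ r) :
    dg G C x ≤ 2 ∧ r ≤ dg G C y + 1 := by
  classical
  have hc := h.rot.card35
  constructor
  · have h1 : dg G C x ≤ ({f 1, f 3} : Finset V).card := by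
      unfold dg
      refine Finset.card_le_card fun z hz => ?_
      rw [Finset.mem_filter] at hz
      rw [Finset.mem_insert, Finset.mem_singleton]
      exact (h.ax z hz.1).1 hz.2
    exact h1.trans Finset.card_le_two
  · have h1 : (C.erase (f 2)).card ≤ dg G C y := by
      unfold dg
      refine Finset.card_le_card fun z hz => ?_
      rw [Finset.mem_erase] at hz
      rw [Finset.mem_filter]
      exact ⟨hz.2, (h.ay z hz.2).2 hz.1⟩
    rw [Finset.card_erase_of_mem (h.rot.mem' (by omega) 2)] at h1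
    omega

theorem Bad35.deg35 [DecidableEq V] {z1 z2 : V} (h : Bad35 G r p q x y C z1 z2) (hr : 5 ≤ r) :
    dg G C x ≤ 2 ∧ r ≤ dg G C y + 1 := by
  obtain ⟨⟨f, ⟨h1, -⟩ | ⟨h1, -⟩⟩, -⟩ := h
  · exact h1.deg35 hr
  · exact h1.deg35 hr

/-- the two small ends are different -/
theorem bad_dis35 [DecidableEq V] (hr : 5 ≤ r) {z1 z2 w1 w2 : V}
    (h : Bad35 G r p q x y C z1 z2) (h' : Bad35 G r q p y x C w1 w2) : False := by
  have h1 := h.deg35 hr
  have h2 := h'.deg35 hr
  omega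

/-- the third ends -/
theorem zb35 [DecidableEq V] (hr : 5 ≤ r) : ZB35 G (Bad35 G r) := by
  rintro p q x y C z1 z2 ⟨⟨f, ⟨h, rfl, rfl⟩ | ⟨h, rfl, rfl⟩⟩, hx, hy⟩
  · have hm : ∀ i, f i ∈ C := fun i => h.rot.mem' (by omega) i
    have hne : ∀ i j, i < j → j < i + r → f i ≠ f j := h.rot.inj
    refine ⟨hm 1, hm 3, ?_, ?_, ?_, ?_⟩
    · exact h.rot.repl35 (by omega) hy 0 (h.ay _ (hm 0)) (h.ay _ (hm 2))
    · exact h.rot.repl35 (by omega) hy 2 (h.ay _ (hm 2)) (h.ay _ (hm 4))
    · exact (h.aq _ (hm 1)).2 (hne 1 2 (by omega) (by omega))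
    · exact (h.aq _ (hm 3)).2 (hne 2 3 (by omega) (by omega)).symm
  · have hm : ∀ i, f i ∈ C := fun i => h.rot.mem' (by omega) i
    have hne : ∀ i j, i < j → j < i + r → f i ≠ f j := h.rot.inj
    refine ⟨hm 0, hm 4, ?_, ?_, ?_, ?_⟩
    · -- position `r`
      have h1 := h.rot.repl35 (by omega) hy (r - 1)
        ((h.ay _ (hm _)).2 (hne 2 (r - 1) (by omega) (by omega)).symm)
        (by
          rw [show r - 1 + 2 = 1 + r by omega, h.rot.per]
          exact (h.ay _ (hm 1)).2 (hne 1 2 (by omega) (by omega)))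
      rwa [show r - 1 + 1 = 0 + r by omega, h.rot.per] at h1
    · have h5 : f 5 ≠ f 2 := (hne 2 5 (by omega) (by omega)).symm
      exact h.rot.repl35 (by omega) hy 3
        ((h.ay _ (hm _)).2 (hne 2 3 (by omega) (by omega)).symm) ((h.ay _ (hm 5)).2 h5)
    · exact h.aq _ (hm 0) (hne 0 2 (by omega) (by omega))
    · exact h.aq _ (hm 4) (hne 2 4 (by omega) (by omega)).symm

/-! ### from the words -/

/-- type 1 -/
theorem bad_one35 {c : List V} (hc : Cyc G c) (hp : 0 < c.length) (hs : ∀ z, z ∈ c ↔ z ∈ C)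
    (hcr : c.length = r) (hr : 5 ≤ r) (hx : x ∉ C) (hy : y ∉ C) {n : ℕ}
    (h : TOne49 G c hp x p q y n) : ∃ z1 z2, Bad35 G r p q x y C z1 z2 := by
  have hR := rot35 hc hp hs hcr n
  refine ⟨_, _, ⟨_, Or.inl ⟨⟨hR, ?_, ?_, ?_, ?_⟩, rfl, rfl⟩⟩, hx, hy⟩
  · intro z hz
    obtain ⟨i, hi, rfl⟩ := (hR.mem z).1 hz
    rw [h.hu i (by omega)]
    constructor
    · rintro rfl; rfl
    · intro he
      by_contra hne
      rcases Nat.lt_or_gt_of_ne hne with h1 | h1
      · exact hR.inj i 2 h1 (by omega) he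
      · exact hR.inj 2 i h1 (by omega) he.symm
  · intro z hz
    obtain ⟨i, hi, rfl⟩ := (hR.mem z).1 hz
    exact h.hv _
  · intro z hz
    obtain ⟨i, hi, rfl⟩ := (hR.mem z).1 hz
    exact h.hs _
  · intro z hz
    obtain ⟨i, hi, rfl⟩ := (hR.mem z).1 hz
    rw [h.ht i (by omega)]
    constructor
    · intro hne he
      rcases Nat.lt_or_gt_of_ne hne with h1 | h1
      · exact hR.inj i 2 h1 (by omega) he
      · exact hR.inj 2 i h1 (by omega) he.symm
    · rintro hne rfl
      exact hne rfl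

/-- type 2 minus a bit -/
theorem bad_two35 {c : List V} (hc : Cyc G c) (hp : 0 < c.length) (hs : ∀ z, z ∈ c ↔ z ∈ C)
    (hcr : c.length = r) (hr : 5 ≤ r) (hx : x ∉ C) (hy : y ∉ C) {n : ℕ}
    (h : TTwo49 G c hp x p q y n) : ∃ z1 z2, Bad35 G r p q x y C z1 z2 := by
  have hR := rot35 hc hp hs hcr n
  have key : ∀ i k, i < r → k < r → (cf c hp (n + i) = cf c hp (n + k) ↔ i = k) := by
    intro i k hi hk
    constructor
    · intro he
      by_contra hne
      rcases Nat.lt_or_gt_of_ne hne with h1 | h1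
      · exact hR.inj i k h1 (by omega) he
      · exact hR.inj k i h1 (by omega) he.symm
    · rintro rfl; rfl
  refine ⟨_, _, ⟨_, Or.inr ⟨⟨hR, ?_, ?_, ?_, ?_, ?_⟩, rfl, rfl⟩⟩, hx, hy⟩
  · intro z hz
    obtain ⟨i, hi, rfl⟩ := (hR.mem z).1 hz
    rw [h.hu i (by omega)]
    show _ ↔ cf c hp (n + i) = cf c hp (n + 1) ∨ cf c hp (n + i) = cf c hp (n + 3)
    rw [key i 1 hi (by omega), key i 3 hi (by omega)]
  · intro z hz
    obtain ⟨i, hi, rfl⟩ := (hR.mem z).1 hz
    rw [h.hv i (by omega)]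
    show _ ↔ cf c hp (n + i) ≠ cf c hp (n + 2)
    rw [Ne, Ne, key i 2 hi (by omega)]
  · intro z hz hne
    obtain ⟨i, hi, rfl⟩ := (hR.mem z).1 hz
    exact h.hs i (by omega) fun he => hne (by rw [he])
  · intro z hz hne
    obtain ⟨i, hi, rfl⟩ := (hR.mem z).1 hz
    exact h.ht i (by omega) fun he => hne (by rw [he])
  · have h1 := h.one
    by_cases h2 : G.Adj p (cf c hp (n + 2))
    · left
      exact ⟨h2, fun h3 => h1 ⟨fun _ => h3, fun _ => h2⟩⟩
    · right
      refine ⟨h2, ?_⟩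
      by_contra h3
      exact h1 ⟨fun h4 => absurd h4 h2, fun h4 => absurd h4 h3⟩

/-- the pair lemma for the smaller predicate -/
theorem plb_of35 {U : Finset V} (h : PLB35 G U r (Bad19 G r)) : PLB35 G U r (Bad35 G r) := by
  intro Q p q F x y hA C hC E hE hCE z1 z2 e1 e2 h1 h2
  exact h Q p q F x y hA C hC E hE hCE z1 z2 e1 e2 h1.1 h2.1

/-- **part (B)**, with the words of LL0 as hypothesis -/
theorem part_b35 [DecidableEq V] {U : Finset V} {k : ℕ} {Q : List V} {F : Finset (Finset V)}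
    (S : Set41 G U k r) (hr : 6 ≤ r)
    (hLL : ∀ (Q : List V) (p q : V) (F : Finset (Finset V)) (x y : V),
      Adm41 G U r Q p q F x y → ∀ C ∈ F, 4 * r < TT41 G p q x y C →
      TT41 G p q x y C = 4 * r + 1 ∧ dg G C p + dg G C q + 1 = 2 * r ∧
      ∃ (c : List V) (hp : 0 < c.length), c.length = r ∧ Cyc G c ∧ (∀ z, z ∈ c ↔ z ∈ C) ∧
        ((∃ n, TOne49 G c hp x p q y n) ∨ (∃ n, TOne49 G c hp y q p x n) ∨
          (∃ n, TTwo49 G c hp x p q y n) ∨ (∃ n, TTwo49 G c hp y q p x n)))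
    (h : Adm41 G U r Q p q F x y) : False := by
  refine b35 S (by omega) ?_ (zb35 (by omega)) (plb_of35 (plb19 hr))
    (fun p q x y C z1 z2 w1 w2 h1 h2 => bad_dis35 (by omega) h1 h2) h
  intro Q p q F x y hA C hC
  rcases Nat.lt_or_ge (4 * r) (TT41 G p q x y C) with hT | hT
  swap
  · exact Or.inl hT
  right
  obtain ⟨h1, h2, c, hp, hcr, hc, hs, h3⟩ := hLL Q p q F x y hA C hC hT
  have hx := hA.x_notC hC
  have hy := hA.y_notC hC
  refine ⟨h1, h2, ?_⟩
  rcases h3 with ⟨n, h3⟩ | ⟨n, h3⟩ | ⟨n, h3⟩ | ⟨n, h3⟩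
  · exact Or.inl (bad_one35 hc hp hs hcr (by omega) hx hy h3)
  · exact Or.inr (bad_one35 hc hp hs hcr (by omega) hy hx h3)
  · exact Or.inl (bad_two35 hc hp hs hcr (by omega) hx hy h3)
  · exact Or.inr (bad_two35 hc hp hs hcr (by omega) hy hx h3)

end Pool.Agent.P0
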