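import Pool.Agent.P0.LLZ33

set_option linter.all false

/-!
# P0, I7 (A): the list of the exceptional words, cyclic form
-/

namespace Pool.Agent.P0

/-- four ends `x, y, c - 1, c + 1` -/
def Four97 (r : ℕ) (a b b' a' : ZMod r → ℕ) : Prop :=
  ∃ c : ZMod r, a (c - 2) = 1 ∧ a c = 1 ∧ a (c + 2) = 1 ∧ a' (c - 2) = 1 ∧ a' c = 1 ∧
    a' (c + 2) = 1 ∧ b c = 1 ∧ b' c = 1

/-- type 1 -/
def One97 (r : ℕ) (a b b' a' : ZMod r → ℕ) : Prop :=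
  ∃ c : ZMod r, (∀ i, (a i = 1 ↔ i = c) ∧ a' i = 1) ∧ b' c = 0

/-- type 2 with a short interval; the missing bit, if any, is anywhere -/
def Two97 (r : ℕ) (a b b' a' : ZMod r → ℕ) : Prop :=
  ∃ c : ZMod r, ∀ i, (a i = 1 ↔ i = c - 1 ∨ i = c + 1) ∧ (a' i = 1 ↔ i ≠ c)

/-- type 2 with an interval of length 5 and the missing bit in the middle -/
def Thr97 (r : ℕ) (a b b' a' : ZMod r → ℕ) : Prop :=
  ∃ c : ZMod r, (∀ i, (a i = 1 ↔ i = c - 2 ∨ i = c ∨ i = c + 2) ∧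
    (a' i = 1 ↔ i ≠ c - 1 ∧ i ≠ c + 1)) ∧ b c + b' c = 1

/-- the exceptional words -/
def Out97 (r : ℕ) (a b b' a' : ZMod r → ℕ) : Prop :=
  Four97 r a b b' a' ∨ One97 r a b b' a' ∨ One97 r a' b' b a ∨ Two97 r a b b' a' ∨
    Two97 r a' b' b a ∨ Thr97 r a b b' a' ∨ Thr97 r a' b' b a

end Pool.Agent.P0
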