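import Pool.Agent.P0.AdmL49
import Pool.Agent.P0.Out97

set_option linter.all false

/-!
# P0, I7 (A): the exceptional words of LL0 on the graph

`u, v` the two ends, `s, t` their neighbours on the path; positions `cf c hp n` on the member.
-/

namespace Pool.Agent.P0

open Pool.Agent.Helper14.LongCyc Pool.Agent.LCK

universe u

/-! ### bits -/

theorem bitsZ49 {r : ℕ} [NeZero r] {b b' : ZMod r → ℕ} (hb : ∀ i, b i ≤ 1) (hb' : ∀ i, b' i ≤ 1)
    (h : 2 * r ≤ ∑ i, b i + ∑ i, b' i + 1) :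
    (∀ i, 1 ≤ b i + b' i) ∧ ∀ i j, i ≠ j → 3 ≤ b i + b' i + (b j + b' j) := by
  rw [← Finset.sum_add_distrib] at h
  have hle : ∀ i ∈ (Finset.univ : Finset (ZMod r)), b i + b' i ≤ 2 := by
    intro i _
    have := hb i
    have := hb' i
    omega
  have hcard : (Finset.univ : Finset (ZMod r)).card = r := by
    rw [Finset.card_univ, ZMod.card]
  constructor
  · intro i
    have h1 := Finset.add_sum_erase Finset.univ (fun i => b i + b' i) (Finset.mem_univ i)
    have h2 := Finset.sum_le_card_nsmul (Finset.univ.erase i) (fun i => b i + b' i) 2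
      (fun j _ => hle j (Finset.mem_univ j))
    rw [Finset.card_erase_of_mem (Finset.mem_univ i), hcard, smul_eq_mul] at h2
    have := NeZero.pos r
    omega
  · intro i j hij
    have h1 := Finset.add_sum_erase Finset.univ (fun i => b i + b' i) (Finset.mem_univ i)
    have hj : j ∈ Finset.univ.erase i := Finset.mem_erase.2 ⟨hij.symm, Finset.mem_univ j⟩
    have h2 := Finset.add_sum_erase (Finset.univ.erase i) (fun i => b i + b' i) hj
    have h3 := Finset.sum_le_card_nsmul ((Finset.univ.erase i).erase j) (fun i => b i + b' i) 2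
      (fun k _ => hle k (Finset.mem_univ k))
    have h4 : ((Finset.univ.erase i).erase j : Finset (ZMod r)).card + 2 = r := by
      have h5 := Finset.card_erase_of_mem hj
      have h6 := Finset.card_pos.2 ⟨j, hj⟩
      rw [Finset.card_erase_of_mem (Finset.mem_univ i), hcard] at h5 h6
      omega
    rw [smul_eq_mul] at h3
    omega

variable {V : Type u} {G : SimpleGraph V}

section

variable {c : List V} {hp : 0 < c.length} {u s t v : V}

/-- at most one bit is missing -/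
theorem bitsG49 [DecidableEq V] (hc : Cyc G c) {C : Finset V} (hs : ∀ z, z ∈ c ↔ z ∈ C)
    (h : 2 * c.length ≤ dg G C s + dg G C t + 1) :
    (∀ j, G.Adj s (cf c hp j) ∨ G.Adj t (cf c hp j)) ∧
      ∀ i j, i % c.length ≠ j % c.length → ¬ (G.Adj s (cf c hp i) ∧ G.Adj t (cf c hp i)) →
        G.Adj s (cf c hp j) ∧ G.Adj t (cf c hp j) := by
  haveI : NeZero c.length := ⟨by omega⟩
  have h1 := bitsZ49 (b := ind49 G c hp s) (b' := ind49 G c hp t) (ind_le49 hp s) (ind_le49 hp t)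
    (by rw [sum_indC49 hc hs, sum_indC49 hc hs]; exact h)
  have e : ∀ w j, G.Adj w (cf c hp j) ↔ ind49 G c hp w ((j : ℕ) : ZMod c.length) = 1 :=
    fun w j => (ind_nat49 hp j rfl).symm
  have l : ∀ w (i : ZMod c.length), ind49 G c hp w i ≤ 1 := fun w i => ind_le49 hp w i
  constructor
  · intro j
    rw [e, e]
    have h2 := h1.1 ((j : ℕ) : ZMod c.length)
    have h3 := l s ((j : ℕ) : ZMod c.length)
    have h4 := l t ((j : ℕ) : ZMod c.length)
    omega
  · intro i j hij hi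
    rw [e, e] at hi ⊢
    have h2 := h1.2 ((i : ℕ) : ZMod c.length) ((j : ℕ) : ZMod c.length) (by
      intro he
      rw [ZMod.natCast_eq_natCast_iff] at he
      exact hij he)
    have h3 := l s ((i : ℕ) : ZMod c.length)
    have h4 := l t ((i : ℕ) : ZMod c.length)
    have h5 := l s ((j : ℕ) : ZMod c.length)
    have h6 := l t ((j : ℕ) : ZMod c.length)
    omega

/-! ### the words -/

/-- four ends, centre at position `n + 3` -/
def Four49 (G : SimpleGraph V) (c : List V) (hp : 0 < c.length) (u s t v : V) (n : ℕ) : Prop :=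
  G.Adj u (cf c hp (n + 1)) ∧ G.Adj u (cf c hp (n + 3)) ∧ G.Adj u (cf c hp (n + 5)) ∧
    G.Adj v (cf c hp (n + 1)) ∧ G.Adj v (cf c hp (n + 3)) ∧ G.Adj v (cf c hp (n + 5)) ∧
    G.Adj s (cf c hp (n + 3)) ∧ G.Adj t (cf c hp (n + 3))

/-- the word of type 1, centre at position `n + 2` -/
def OneW49 (G : SimpleGraph V) (c : List V) (hp : 0 < c.length) (u s t v : V) (n : ℕ) : Prop :=
  (∀ j, j < c.length → (G.Adj u (cf c hp (n + j)) ↔ j = 2)) ∧ (∀ j, G.Adj v (cf c hp j)) ∧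
    ¬ G.Adj t (cf c hp (n + 2))

/-- the word of type 2 (short interval), centre at position `n + 2` -/
def TwoW49 (G : SimpleGraph V) (c : List V) (hp : 0 < c.length) (u v : V) (n : ℕ) : Prop :=
  ∀ j, j < c.length → (G.Adj u (cf c hp (n + j)) ↔ j = 1 ∨ j = 3) ∧
    (G.Adj v (cf c hp (n + j)) ↔ j ≠ 2)

/-- the word of type 2 (interval of length 5), centre at position `n + 3`, bit missing there -/
def ThrW49 (G : SimpleGraph V) (c : List V) (hp : 0 < c.length) (u s t v : V) (n : ℕ) : Prop :=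
  (∀ j, j < c.length → (G.Adj u (cf c hp (n + j)) ↔ j = 1 ∨ j = 3 ∨ j = 5) ∧
    (G.Adj v (cf c hp (n + j)) ↔ j ≠ 2 ∧ j ≠ 4)) ∧
    ¬ (G.Adj s (cf c hp (n + 3)) ∧ G.Adj t (cf c hp (n + 3)))

theorem four_of49 (h : Four97 c.length (ind49 G c hp u) (ind49 G c hp s) (ind49 G c hp t)
    (ind49 G c hp v)) (hL : 7 ≤ c.length) : ∃ n, Four49 G c hp u s t v n := by
  obtain ⟨i, h1, h2, h3, h4, h5, h6, h7, h8⟩ := h
  obtain ⟨n, hn⟩ := shiftZ49 (L := c.length) (by omega) i 3 (by omega)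
  have e0 : i - 2 = ((n + 1 : ℕ) : ZMod c.length) := by rw [← hn]; push_cast; ring
  have e1 : i = ((n + 3 : ℕ) : ZMod c.length) := hn.symm
  have e2 : i + 2 = ((n + 5 : ℕ) : ZMod c.length) := by rw [← hn]; push_cast; ring
  exact ⟨n, (ind_nat49 hp _ e0).1 h1, (ind_nat49 hp _ e1).1 h2, (ind_nat49 hp _ e2).1 h3,
    (ind_nat49 hp _ e0).1 h4, (ind_nat49 hp _ e1).1 h5, (ind_nat49 hp _ e2).1 h6,
    (ind_nat49 hp _ e1).1 h7, (ind_nat49 hp _ e1).1 h8⟩

theorem oneW_of49 (h : One97 c.length (ind49 G c hp u) (ind49 G c hp s) (ind49 G c hp t)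
    (ind49 G c hp v)) (hL : 7 ≤ c.length) : ∃ n, OneW49 G c hp u s t v n := by
  obtain ⟨i, h, h'⟩ := h
  obtain ⟨n, hn⟩ := shiftZ49 (L := c.length) (by omega) i 2 (by omega)
  refine ⟨n, ?_, ?_, ?_⟩
  · intro j hj
    rw [← ind_nat49 hp (n + j) rfl, (h _).1, ← hn, cast_eq49 hj (by omega)]
  · intro j
    exact (ind_nat49 hp j rfl).1 (h _).2
  · rw [← ind_nat49 hp (n + 2) rfl, hn]
    omega

theorem twoW_of49 (h : Two97 c.length (ind49 G c hp u) (ind49 G c hp s) (ind49 G c hp t)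
    (ind49 G c hp v)) (hL : 7 ≤ c.length) : ∃ n, TwoW49 G c hp u v n := by
  obtain ⟨i, h⟩ := h
  obtain ⟨n, hn⟩ := shiftZ49 (L := c.length) (by omega) i 2 (by omega)
  have e1 : i - 1 = ((n + 1 : ℕ) : ZMod c.length) := by rw [← hn]; push_cast; ring
  have e3 : i + 1 = ((n + 3 : ℕ) : ZMod c.length) := by rw [← hn]; push_cast; ring
  refine ⟨n, ?_⟩
  intro j hj
  refine ⟨?_, ?_⟩
  · rw [← ind_nat49 hp (n + j) rfl, (h _).1, e1, e3, cast_eq49 hj (by omega),
      cast_eq49 hj (by omega)]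
  · rw [← ind_nat49 hp (n + j) rfl, (h _).2, ← hn, Ne, Ne, not_iff_not, cast_eq49 hj (by omega)]

theorem thrW_of49 (h : Thr97 c.length (ind49 G c hp u) (ind49 G c hp s) (ind49 G c hp t)
    (ind49 G c hp v)) (hL : 7 ≤ c.length) : ∃ n, ThrW49 G c hp u s t v n := by
  obtain ⟨i, h, h'⟩ := h
  obtain ⟨n, hn⟩ := shiftZ49 (L := c.length) (by omega) i 3 (by omega)
  have e1 : i - 2 = ((n + 1 : ℕ) : ZMod c.length) := by rw [← hn]; push_cast; ring
  have e2 : i - 1 = ((n + 2 : ℕ) : ZMod c.length) := by rw [← hn]; push_cast; ring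
  have e4 : i + 1 = ((n + 4 : ℕ) : ZMod c.length) := by rw [← hn]; push_cast; ring
  have e5 : i + 2 = ((n + 5 : ℕ) : ZMod c.length) := by rw [← hn]; push_cast; ring
  refine ⟨n, ?_, ?_⟩
  · intro j hj
    refine ⟨?_, ?_⟩
    · rw [← ind_nat49 hp (n + j) rfl, (h _).1, e1, e5, ← hn, cast_eq49 hj (by omega),
        cast_eq49 hj (by omega), cast_eq49 hj (by omega)]
    · rw [← ind_nat49 hp (n + j) rfl, (h _).2, e2, e4, Ne, Ne, cast_eq49 hj (by omega),
        cast_eq49 hj (by omega)]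
  · rw [← ind_nat49 hp (n + 3) rfl, ← ind_nat49 hp (n + 3) rfl, hn]
    omega

/-- the exceptional words on the cycle `c` -/
def OutA49 (G : SimpleGraph V) (c : List V) (hp : 0 < c.length) (u s t v : V) : Prop :=
  (∃ n, Four49 G c hp u s t v n) ∨ (∃ n, OneW49 G c hp u s t v n) ∨
    (∃ n, OneW49 G c hp v t s u n) ∨ (∃ n, TwoW49 G c hp u v n) ∨ (∃ n, TwoW49 G c hp v u n) ∨
    (∃ n, ThrW49 G c hp u s t v n) ∨ (∃ n, ThrW49 G c hp v t s u n)

theorem outA_of49 (h : Out97 c.length (ind49 G c hp u) (ind49 G c hp s) (ind49 G c hp t)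
    (ind49 G c hp v)) (hL : 7 ≤ c.length) : OutA49 G c hp u s t v := by
  rcases h with h | h | h | h | h | h | h
  · exact Or.inl (four_of49 h hL)
  · exact Or.inr (Or.inl (oneW_of49 h hL))
  · exact Or.inr (Or.inr (Or.inl (oneW_of49 h hL)))
  · exact Or.inr (Or.inr (Or.inr (Or.inl (twoW_of49 h hL))))
  · exact Or.inr (Or.inr (Or.inr (Or.inr (Or.inl (twoW_of49 h hL)))))
  · exact Or.inr (Or.inr (Or.inr (Or.inr (Or.inr (Or.inl (thrW_of49 h hL))))))
  · exact Or.inr (Or.inr (Or.inr (Or.inr (Or.inr (Or.inr (thrW_of49 h hL))))))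

end

/-! ### LL0 for an admissible pair -/

/-- the pure statement LL0 -/
def LL0Pure49 (r : ℕ) : Prop := ∀ [NeZero r] {a b b' a' : ZMod r → ℕ}, LLZ r a b b' a' →
  4 * r + 1 ≤ tot49 a b b' a' →
  ∑ i, a i + ∑ i, a' i = r + 1 ∧ 2 * r ≤ ∑ i, b i + ∑ i, b' i + 1 ∧ Out97 r a b b' a'

variable {U : Finset V} {k r : ℕ} {Q : List V} {p q x y : V} {F : Finset (Finset V)}

/-- LL0 on a given cyclic order of the member -/
theorem Adm41.ll0C49 [DecidableEq V] (hpure : LL0Pure49 r) (h : Adm41 G U r Q p q F x y)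
    (hr : 7 ≤ r) {C : Finset V} (hC : C ∈ F) {c : List V} (hc : Cyc G c)
    (hs : ∀ z, z ∈ c ↔ z ∈ C) (hcr : c.length = r) (hp : 0 < c.length)
    (hT : 4 * r + 1 ≤ TT41 G p q x y C) :
    dg G C x + dg G C y = r + 1 ∧ 2 * r ≤ dg G C p + dg G C q + 1 ∧ OutA49 G c hp x p q y := by
  haveI : NeZero c.length := ⟨by omega⟩
  have D := h.dataC49 (by omega) hC hc hs hcr hp
  subst hcr
  rw [← tot_ind49 (hp := hp) hc hs] at hT
  obtain ⟨h1, h2, h3⟩ := hpure D hT
  rw [sum_indC49 hc hs, sum_indC49 hc hs] at h1 h2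
  exact ⟨h1, h2, outA_of49 h3 hr⟩

/-- LL0 for a member -/
theorem Adm41.ll0_49 [DecidableEq V] (hpure : LL0Pure49 r) (h : Adm41 G U r Q p q F x y)
    (hr : 7 ≤ r) {C : Finset V} (hC : C ∈ F) (hCr : C.card = r)
    (hT : 4 * r + 1 ≤ TT41 G p q x y C) :
    dg G C x + dg G C y = r + 1 ∧ 2 * r ≤ dg G C p + dg G C q + 1 ∧
      ∃ (c : List V) (hp : 0 < c.length), c.length = r ∧ Cyc G c ∧ (∀ z, z ∈ c ↔ z ∈ C) ∧
        OutA49 G c hp x p q y := by
  obtain ⟨c, hc, hs⟩ := h.opt.fam.cyc C hC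
  have hcard := card_of_list (Cyc.nodup hc) hs
  have hcr : c.length = r := by omega
  have hp : 0 < c.length := by omega
  obtain ⟨h1, h2, h3⟩ := h.ll0C49 hpure hr hC hc hs hcr hp hT
  exact ⟨h1, h2, c, hp, hcr, hc, hs, h3⟩

end Pool.Agent.P0
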