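import Pool.Agent.P0.FourEnd81
import Pool.Agent.P0.OutA49

set_option linter.all false

/-!
# P0, I7 (C1) in the form of `Four49`
-/

namespace Pool.Agent.P0

open Pool.Agent.Helper14.LongCyc Pool.Agent.LCK Pool.Agent.FRC

universe u

variable {V : Type u} {G : SimpleGraph V}

/-- **(C1)** -/
theorem Four49.false81 [DecidableEq V] {U : Finset V} {k r : ℕ} {Q : List V} {p q x y : V}
    {F : Finset (Finset V)} (S : Set41 G U k r) (hr : 5 ≤ r)
    (h : Adm41 G U r Q p q F x y) {C : Finset V} (hC : C ∈ F) {c : List V} (hc : Cyc G c)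
    {hp : 0 < c.length} (hs : ∀ z, z ∈ c ↔ z ∈ C) {n : ℕ} (P : Four49 G c hp x p q y n)
    (hmiss : 2 * r ≤ dg G C p + dg G C q + 1) : False := by
  obtain ⟨x1, x3, x5, y1, y3, y5, p3, q3⟩ := P
  exact h.c181 S hr hC hc hp hs n x1 x3 x5 y1 y3 y5 p3 q3 hmiss

end Pool.Agent.P0
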