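import Pool.Agent.P0.AdmV49
import Pool.Agent.P0.Out97

set_option linter.all false

/-!
# P0, I7 (C2): no good third end

`z` a vertex of a member `C`, adjacent to `p` and `q`, which can be replaced by `x` and by `y`.  Then
all three pairs of `x, y, z` are the ends of admissible paths; the sum of the three functionals
`TT41` exceeds `12 r` on some other member, which is exceptional for one pair; the third vertex has
few neighbours there.
-/

namespace Pool.Agent.P0

open Pool.Agent.Helper14.LongCyc Pool.Agent.LCK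

universe u

/-- the pure local lemma (LL0) -/
def LLP53 : Prop := ∀ (r : ℕ) [NeZero r] (a b b' a' : ZMod r → ℕ), 7 ≤ r → LLZ r a b b' a' →
  4 * r + 1 ≤ tot49 a b b' a' →
    ∑ i, a i + ∑ i, a' i = r + 1 ∧ 2 * r ≤ ∑ i, b i + ∑ i, b' i + 1 ∧ Out97 r a b b' a'

/-! ### pure part -/

section pure

variable {r : ℕ} [NeZero r]

theorem sum_le53 (A : Finset (ZMod r)) {w B : ZMod r → ℕ} (hw : ∀ i, w i ≤ 1)
    (hB : ∀ i, B i ≤ 1) (h : ∀ i, i ∉ A → B i + w i ≤ 1) :
    ∑ i, w i + ∑ i, B i ≤ r + A.card := by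
  classical
  have h1 : ∀ i ∈ (Finset.univ : Finset (ZMod r)), w i + B i ≤ 1 + (if i ∈ A then 1 else 0) := by
    intro i _
    have e1 := hw i
    have e2 := hB i
    have e3 := h i
    by_cases hi : i ∈ A
    · rw [if_pos hi]; omega
    · rw [if_neg hi]
      have := e3 hi
      omega
  have h2 := Finset.sum_le_sum h1
  rw [Finset.sum_add_distrib, Finset.sum_add_distrib, Finset.sum_const, Finset.card_univ, ZMod.card,
    ← Finset.sum_filter, Finset.sum_const] at h2
  simp only [smul_eq_mul, mul_one, Finset.filter_mem_eq_inter, Finset.univ_inter] at h2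
  exact h2

theorem sum_le53' (A : Finset (ZMod r)) {w : ZMod r → ℕ} (hw : ∀ i, w i ≤ 1)
    (h : ∀ i, i ∉ A → w i = 0) : ∑ i, w i ≤ A.card := by
  classical
  have h1 : ∑ i, w i = ∑ i ∈ A, w i := by
    symm
    exact Finset.sum_subset (Finset.subset_univ A) fun i _ hi => h i hi
  rw [h1]
  have := Finset.sum_le_card_nsmul A w 1 fun i _ => hw i
  simpa using this

/-- the possible words of the big end -/
def Big53 (r : ℕ) (v b b' : ZMod r → ℕ) : Prop :=
  (∀ i, v i = 1) ∨ (∃ c, ∀ i, v i = 1 ↔ i ≠ c) ∨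
    (∃ c, (∀ i, v i = 1 ↔ i ≠ c - 1 ∧ i ≠ c + 1) ∧ b c + b' c = 1)

theorem Big53.symm {v b b' : ZMod r → ℕ} (h : Big53 r v b b') : Big53 r v b' b := by
  rcases h with h | h | ⟨c, h, h'⟩
  · exact Or.inl h
  · exact Or.inr (Or.inl h)
  · exact Or.inr (Or.inr ⟨c, h, by omega⟩)

theorem out_big53 {a b b' a' : ZMod r → ℕ} (h : Out97 r a b b' a') :
    Four97 r a b b' a' ∨ Big53 r a' b b' ∨ Big53 r a b b' := by
  rcases h with h | ⟨c, h, -⟩ | ⟨c, h, -⟩ | ⟨c, h⟩ | ⟨c, h⟩ | ⟨c, h, h'⟩ | ⟨c, h, h'⟩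
  · exact Or.inl h
  · exact Or.inr (Or.inl (Or.inl fun i => (h i).2))
  · exact Or.inr (Or.inr (Or.inl fun i => (h i).2))
  · exact Or.inr (Or.inl (Or.inr (Or.inl ⟨c, fun i => (h i).2⟩)))
  · exact Or.inr (Or.inr (Or.inr (Or.inl ⟨c, fun i => (h i).2⟩)))
  · exact Or.inr (Or.inl (Or.inr (Or.inr ⟨c, fun i => (h i).2, h'⟩)))
  · exact Or.inr (Or.inr (Or.inr (Or.inr ⟨c, fun i => (h i).2, by omega⟩)))

/-- the bound for the third vertex `w` on an exceptional member -/
theorem third53 (hr : 7 ≤ r) {u v w B B' : ZMod r → ℕ} (hw : ∀ i, w i ≤ 1) (hB1 : ∀ i, B i ≤ 1)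
    (hB1' : ∀ i, B' i ≤ 1) (hS : ∑ i, u i + ∑ i, v i = r + 1)
    (hB : 2 * r ≤ ∑ i, B i + ∑ i, B' i + 1)
    (hm : ∀ i, v (i - 1) = 1 → v (i + 1) = 1 → B i + w i ≤ 1) (hword : Big53 r v B B') :
    4 * (∑ i, u i + ∑ i, v i + ∑ i, w i) + 3 * (∑ i, B i + ∑ i, B' i) ≤ 12 * r := by
  classical
  have hBr : ∑ i, B' i ≤ r := by
    have := Finset.sum_le_card_nsmul (Finset.univ : Finset (ZMod r)) B' 1 fun i _ => hB1' i
    rw [Finset.card_univ, ZMod.card] at this
    simpa using this
  rcases hword with h | ⟨c, h⟩ | ⟨c, h, h'⟩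
  · have h1 := sum_le53 (r := r) ∅ hw hB1 (fun i _ => hm i (h _) (h _))
    rw [Finset.card_empty] at h1
    omega
  · have h1 := sum_le53 (r := r) {c - 1, c + 1} hw hB1 (fun i hi => by
      rw [Finset.mem_insert, Finset.mem_singleton] at hi
      push Not at hi
      refine hm i ((h _).2 fun e => hi.2 ?_) ((h _).2 fun e => hi.1 ?_)
      · linear_combination e
      · linear_combination e)
    have h2 := Finset.card_le_two (a := c - 1) (b := c + 1)
    omega
  · have h0 : ∀ i, i ≠ c → B i = 1 := by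
      intro i hi
      by_contra hne
      have e1 := hB1 i
      have e2 := hB1' i
      have h1 : ∑ j ∈ ({i, c} : Finset (ZMod r)), (B j + B' j)
          + ∑ j ∈ ({i, c} : Finset (ZMod r))ᶜ, (B j + B' j) = ∑ j, (B j + B' j) :=
        Finset.sum_add_sum_compl _ _
      have h2 := Finset.sum_le_card_nsmul (({i, c} : Finset (ZMod r))ᶜ) (fun j => B j + B' j) 2
        (fun j _ => by have := hB1 j; have := hB1' j; omega)
      rw [Finset.card_compl, Finset.card_pair hi, ZMod.card, smul_eq_mul] at h2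
      rw [Finset.sum_pair hi] at h1
      have h6 : ∑ j, (B j + B' j) = ∑ j, B j + ∑ j, B' j := Finset.sum_add_distrib
      omega
    have h1 := sum_le53' (r := r) {c - 2, c, c + 2} hw (fun i hi => by
      rw [Finset.mem_insert, Finset.mem_insert, Finset.mem_singleton] at hi
      push Not at hi
      have h3 := hm i ((h _).2 ⟨fun e => hi.2.1 (by linear_combination e),
        fun e => hi.2.2 (by linear_combination e)⟩) ((h _).2 ⟨fun e => hi.1 (by linear_combination e),
        fun e => hi.2.1 (by linear_combination e)⟩)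
      have h4 := h0 i hi.2.1
      omega)
    have h2 := Finset.card_le_three (a := c - 2) (b := c) (c := c + 2)
    have h5 : ∑ i, B i + ∑ i, B' i + 1 ≤ 2 * r := by
      have e1 := Finset.add_sum_erase (Finset.univ : Finset (ZMod r)) (fun j => B j + B' j)
        (Finset.mem_univ c)
      have e2 := Finset.sum_le_card_nsmul ((Finset.univ : Finset (ZMod r)).erase c)
        (fun j => B j + B' j) 2 (fun j _ => by have := hB1 j; have := hB1' j; omega)
      rw [Finset.card_erase_of_mem (Finset.mem_univ c), Finset.card_univ, ZMod.card,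
        smul_eq_mul] at e2
      have e3 : ∑ j, (B j + B' j) = ∑ j, B j + ∑ j, B' j := Finset.sum_add_distrib
      omega
    omega

end pure

/-! ### graph part -/

variable {V : Type u} {G : SimpleGraph V}

/-- (C1): no member of an admissible pair has the word of four ends -/
def NoFour53 (G : SimpleGraph V) (U : Finset V) (r : ℕ) : Prop :=
  ∀ (Q : List V) (p q : V) (F : Finset (Finset V)) (x y : V), Adm41 G U r Q p q F x y →
    ∀ C ∈ F, ∀ (c : List V) (hp : 0 < c.length) [NeZero c.length], Cyc G c →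
      (∀ z, z ∈ c ↔ z ∈ C) → c.length = r →
      ∑ i, ind49 G c hp x i + ∑ i, ind49 G c hp y i = c.length + 1 →
      2 * c.length ≤ ∑ i, ind49 G c hp p i + ∑ i, ind49 G c hp q i + 1 →
      ¬ Four97 c.length (ind49 G c hp x) (ind49 G c hp p) (ind49 G c hp q) (ind49 G c hp y)

variable {U : Finset V} {k r : ℕ} {Q : List V} {p q x y : V} {F : Finset (Finset V)}

/-- the functional is at most `4 r + 2` on every member -/
theorem Adm41.le53 [DecidableEq V] (hLL : LLP53) (hr : 7 ≤ r) (S : Set41 G U k r)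
    (h : Adm41 G U r Q p q F x y) {C : Finset V} (hC : C ∈ F) : TT41 G p q x y C ≤ 4 * r + 2 := by
  obtain ⟨c, hp, hcr, hc, hs, hD⟩ := h.data49 (by omega) hC (S.mem F h.opt C hC)
  haveI : NeZero c.length := ⟨by omega⟩
  by_contra hcon
  have h1 := tot_ind49 (hp := hp) hc hs x p q y
  obtain ⟨h2, -, -⟩ := hLL c.length _ _ _ _ (by omega) hD (by omega)
  have h3 : ∑ i, ind49 G c hp p i ≤ c.length := by
    have := Finset.sum_le_card_nsmul (Finset.univ : Finset (ZMod c.length)) (ind49 G c hp p) 1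
      fun i _ => ind_le49 hp p i
    rw [Finset.card_univ, ZMod.card] at this
    simpa using this
  have h4 : ∑ i, ind49 G c hp q i ≤ c.length := by
    have := Finset.sum_le_card_nsmul (Finset.univ : Finset (ZMod c.length)) (ind49 G c hp q) 1
      fun i _ => ind_le49 hp q i
    rw [Finset.card_univ, ZMod.card] at this
    simpa using this
  unfold tot49 at h1
  omega

/-- the three functionals on another member -/
theorem three_le53 [DecidableEq V] (hLL : LLP53) (hr : 7 ≤ r) (hN : NoFour53 G U r)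
    {z : V} {F1 F2 F3 : Finset (Finset V)} (h1 : Adm41 G U r Q p q F1 x y)
    (h2 : Adm41 G U r Q p q F2 x z) (h3 : Adm41 G U r Q p q F3 z y) {E : Finset V} (hE1 : E ∈ F1)
    (hE2 : E ∈ F2) (hE3 : E ∈ F3) (hEr : E.card = r) :
    TT41 G p q x y E + TT41 G p q x z E + TT41 G p q z y E ≤ 12 * r := by
  obtain ⟨c, hc, hs⟩ := h1.opt.fam.cyc E hE1
  have hcr : c.length = r := by
    rw [← card_of_list (Cyc.nodup hc) hs]; exact hEr
  have hp : 0 < c.length := by omega
  haveI : NeZero c.length := ⟨by omega⟩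
  have d1 := h1.dataC49 (by omega) hE1 hc hs hcr hp
  have d2 := h2.dataC49 (by omega) hE2 hc hs hcr hp
  have d3 := h3.dataC49 (by omega) hE3 hc hs hcr hp
  have t1 := tot_ind49 (hp := hp) hc hs x p q y
  have t2 := tot_ind49 (hp := hp) hc hs x p q z
  have t3 := tot_ind49 (hp := hp) hc hs z p q y
  have n1 := hN _ _ _ _ _ _ h1 E hE1 c hp hc hs hcr
  have n2 := hN _ _ _ _ _ _ h2 E hE2 c hp hc hs hcr
  have n3 := hN _ _ _ _ _ _ h3 E hE3 c hp hc hs hcr
  by_contra hcon
  have hr' : 7 ≤ c.length := by omega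
  have fin : ∀ A : ℕ, 4 * (∑ i, ind49 G c hp x i + ∑ i, ind49 G c hp y i + ∑ i, ind49 G c hp z i)
      + 3 * (∑ i, ind49 G c hp p i + ∑ i, ind49 G c hp q i) ≤ 12 * c.length → False := by
    intro _ hA
    unfold tot49 at t1 t2 t3
    omega
  have hcase : 4 * c.length + 1 ≤ TT41 G p q x y E ∨ 4 * c.length + 1 ≤ TT41 G p q x z E ∨
      4 * c.length + 1 ≤ TT41 G p q z y E := by
    rw [hcr]
    omega
  rcases hcase with hT | hT | hT
  · rw [← t1] at hT
    obtain ⟨e1, e2, e3⟩ := hLL c.length _ _ _ _ hr' d1 hT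
    rcases out_big53 e3 with e4 | e4 | e4
    · exact n1 e1 e2 e4
    · have := third53 hr' (u := ind49 G c hp x) (w := ind49 G c hp z) (B := ind49 G c hp q)
        (B' := ind49 G c hp p) (ind_le49 hp z) (ind_le49 hp q) (ind_le49 hp p) e1 (by omega)
        d3.m1' e4.symm
      exact fin 0 (by omega)
    · have := third53 hr' (u := ind49 G c hp y) (w := ind49 G c hp z) (B := ind49 G c hp p)
        (B' := ind49 G c hp q) (ind_le49 hp z) (ind_le49 hp p) (ind_le49 hp q) (by omega) e2
        d2.m1 e4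
      exact fin 0 (by omega)
  · rw [← t2] at hT
    obtain ⟨e1, e2, e3⟩ := hLL c.length _ _ _ _ hr' d2 hT
    rcases out_big53 e3 with e4 | e4 | e4
    · exact n2 e1 e2 e4
    · have := third53 hr' (u := ind49 G c hp x) (w := ind49 G c hp y) (B := ind49 G c hp p)
        (B' := ind49 G c hp q) (ind_le49 hp y) (ind_le49 hp p) (ind_le49 hp q) e1 e2
        d3.m1 e4
      exact fin 0 (by omega)
    · have := third53 hr' (u := ind49 G c hp z) (w := ind49 G c hp y) (B := ind49 G c hp p)
        (B' := ind49 G c hp q) (ind_le49 hp y) (ind_le49 hp p) (ind_le49 hp q) (by omega) e2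
        d1.m1 e4
      exact fin 0 (by omega)
  · rw [← t3] at hT
    obtain ⟨e1, e2, e3⟩ := hLL c.length _ _ _ _ hr' d3 hT
    rcases out_big53 e3 with e4 | e4 | e4
    · exact n3 e1 e2 e4
    · have := third53 hr' (u := ind49 G c hp z) (w := ind49 G c hp x) (B := ind49 G c hp q)
        (B' := ind49 G c hp p) (ind_le49 hp x) (ind_le49 hp q) (ind_le49 hp p) e1 (by omega)
        d1.m1' e4.symm
      exact fin 0 (by omega)
    · have := third53 hr' (u := ind49 G c hp y) (w := ind49 G c hp x) (B := ind49 G c hp q)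
        (B' := ind49 G c hp p) (ind_le49 hp x) (ind_le49 hp q) (ind_le49 hp p) (by omega)
        (by omega) d2.m1' e4.symm
      exact fin 0 (by omega)

/-- the sum over a swapped family -/
theorem sum_swap53 [DecidableEq V] (h : Adm41 G U r Q p q F x y) {C D : Finset V} (hC : C ∈ F)
    {w : V} (hw : w ∈ D) (hw' : w ∈ Pool.Agent.LCK.rest U F) (f : Finset V → ℕ) :
    ∑ E ∈ insert D (F.erase C), f E = f D + ∑ E ∈ F.erase C, f E ∧
      (insert D (F.erase C)).card = F.card := by
  have h1 : D ∉ F.erase C := fun hD =>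
    (mem_rest.1 hw').2 D (Finset.mem_of_mem_erase hD) hw
  refine ⟨Finset.sum_insert h1, ?_⟩
  rw [Finset.card_insert_of_notMem h1, Finset.card_erase_of_mem hC]
  have := Finset.card_pos.2 ⟨C, hC⟩
  omega

/-- **(C2)**: no good third end -/
theorem noThird53 [DecidableEq V] (hLL : LLP53) (hr : 7 ≤ r) (S : Set41 G U k r)
    (hN : NoFour53 G U r) (h : Adm41 G U r Q p q F x y) {C : Finset V} (hC : C ∈ F) {z : V}
    (hz : z ∈ C) (hDx : CycSet G (insert x (C.erase z))) (hDy : CycSet G (insert y (C.erase z)))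
    (hzp : G.Adj z p) (hqz : G.Adj q z) : False := by
  have h2 := h.swapR hC hz hDy hqz
  have h3 := h.swapL hC hz hDx hzp
  have s1 := h.sum0' S (by omega)
  have s2 := h2.sum0' S (by omega)
  have s3 := h3.sum0' S (by omega)
  obtain ⟨a2, b2⟩ := sum_swap53 h hC (D := insert y (C.erase z)) (Finset.mem_insert_self _ _)
    h.y_mem (TT41 G p q x z)
  obtain ⟨a3, b3⟩ := sum_swap53 h hC (D := insert x (C.erase z)) (Finset.mem_insert_self _ _)
    h.x_mem (TT41 G p q z y)
  rw [a2, b2] at s2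
  rw [a3, b3] at s3
  rw [← Finset.add_sum_erase F _ hC] at s1
  have t1 := h.le53 hLL hr S hC
  have t2 := h2.le53 hLL hr S (Finset.mem_insert_self _ _)
  have t3 := h3.le53 hLL hr S (Finset.mem_insert_self _ _)
  have key := Finset.sum_le_card_nsmul (F.erase C)
    (fun E => TT41 G p q x y E + TT41 G p q x z E + TT41 G p q z y E) (12 * r) (fun E hE => by
      have hEF := Finset.mem_of_mem_erase hE
      exact three_le53 hLL hr hN h h2 h3 hEF (mem_swap41 hEF (Finset.ne_of_mem_erase hE))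
        (mem_swap41 hEF (Finset.ne_of_mem_erase hE)) (S.mem F h.opt E hEF))
  rw [Finset.sum_add_distrib, Finset.sum_add_distrib, Finset.card_erase_of_mem hC,
    smul_eq_mul] at key
  obtain ⟨n, hn⟩ : ∃ n, F.card = n + 1 := ⟨F.card - 1, by
    have := Finset.card_pos.2 ⟨C, hC⟩
    omega⟩
  rw [hn] at s1 s2 s3 key
  rw [Nat.add_sub_cancel] at key
  have e1 : (n + 1) * (4 * r) = n * (4 * r) + 4 * r := by ring
  have e2 : n * (12 * r) = 3 * (n * (4 * r)) := by ring
  rw [e1] at s1 s2 s3
  rw [e2] at key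
  omega

/-- (C2) on a cyclic list: position `n + 1` is not a good third end -/
theorem noThird53' [DecidableEq V] (hLL : LLP53) (hr : 7 ≤ r) (S : Set41 G U k r)
    (hN : NoFour53 G U r) (h : Adm41 G U r Q p q F x y) {C : Finset V} (hC : C ∈ F) {c : List V}
    (hp : 0 < c.length) (hc : Cyc G c) (hs : ∀ z, z ∈ c ↔ z ∈ C) (n : ℕ) :
    ¬ Third49 G c hp x p q y n := by
  rintro ⟨h1, h2, h3, h4, h5, h6⟩
  have hxc : x ∉ c := fun hh => h.x_notC hC ((hs _).1 hh)
  have hyc : y ∉ c := fun hh => h.y_notC hC ((hs _).1 hh)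
  exact noThird53 hLL hr S hN h hC ((hs _).1 (cf_mem hp (n + 1)))
    (cyc_repl49 hc hp n hxc h1 h2 hs) (cyc_repl49 hc hp n hyc h3 h4 hs) h5.symm h6

end Pool.Agent.P0
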