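import Pool.Agent.P0.LL0F49
import Pool.Agent.P0.FourC81
import Pool.Agent.P0.Three53
import Pool.Agent.P0.BadG35

set_option linter.all false

/-!
# P0, I7: the final assembly for exactly `k r` vertices, `r ≥ 7`
-/

namespace Pool.Agent.P0

open Pool.Agent.Helper14.LongCyc Pool.Agent.LCK

universe u

theorem llp63 : LLP53 := fun r _ a b b' a' hr D hT => ll0_63 D hr hT (llJ33 D hr hT)

theorem Third49.symm63 {V : Type u} {G : SimpleGraph V} {c : List V} {hp : 0 < c.length}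
    {u s t v : V} {n : ℕ} (h : Third49 G c hp v t s u n) : Third49 G c hp u s t v n := by
  obtain ⟨h1, h2, h3, h4, h5, h6⟩ := h
  exact ⟨h3, h4, h1, h2, h6, h5⟩

variable {V : Type u} [DecidableEq V] {G : SimpleGraph V}
variable {U : Finset V} {k r : ℕ} {Q : List V} {p q x y : V} {F : Finset (Finset V)}

/-- (C1) in the form used by (C2) -/
theorem noFour63 (S : Set41 G U k r) (hr : 7 ≤ r) : NoFour53 G U r := by
  intro Q p q F x y h C hC c hp _ hc hs hcr _ hB h4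
  obtain ⟨n, hn⟩ := four_of49 h4 (by omega)
  rw [sum_indC49 hc hs, sum_indC49 hc hs, hcr] at hB
  exact hn.false81 S (by omega) h hC hc hs hB

/-- (C2) -/
theorem noThird63 (S : Set41 G U k r) (hr : 7 ≤ r) (h : Adm41 G U r Q p q F x y) {C : Finset V}
    (hC : C ∈ F) {c : List V} (hp : 0 < c.length) (hc : Cyc G c) (hs : ∀ z, z ∈ c ↔ z ∈ C)
    (n : ℕ) : ¬ Third49 G c hp x p q y n :=
  noThird53' llp63 hr S (noFour63 S hr) h hC hp hc hs n

/-- LL0 with (C1) and (C2): only type 1 and type 2 minus a bit are left -/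
theorem llB63 (S : Set41 G U k r) (hr : 7 ≤ r) (h : Adm41 G U r Q p q F x y) {C : Finset V}
    (hC : C ∈ F) (hT : 4 * r < TT41 G p q x y C) :
    TT41 G p q x y C = 4 * r + 1 ∧ dg G C p + dg G C q + 1 = 2 * r ∧
      ∃ (c : List V) (hp : 0 < c.length), c.length = r ∧ Cyc G c ∧ (∀ z, z ∈ c ↔ z ∈ C) ∧
        ((∃ n, TOne49 G c hp x p q y n) ∨ (∃ n, TOne49 G c hp y q p x n) ∨
          (∃ n, TTwo49 G c hp x p q y n) ∨ (∃ n, TTwo49 G c hp y q p x n)) := by
  have hCr := S.mem F h.opt C hC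
  obtain ⟨h1, h2, c, hp, hcr, hc, hs, hout⟩ := h.ll0 hr hC hCr hT
  have hB : 2 * c.length ≤ dg G C p + dg G C q + 1 := by omega
  have hB' : 2 * c.length ≤ dg G C q + dg G C p + 1 := by omega
  have hth : ∀ n, ¬ Third49 G c hp x p q y n := noThird63 S hr h hC hp hc hs
  -- a missing bit determines the numbers
  have hnum : ∀ z ∈ C, ¬ (G.Adj p z ∧ G.Adj q z) →
      TT41 G p q x y C = 4 * r + 1 ∧ dg G C p + dg G C q + 1 = 2 * r := by
    intro z hz hno
    have e1 := LCK.dg_le (G := G) C p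
    have e2 := LCK.dg_le (G := G) C q
    have e3 : dg G C p + dg G C q + 1 = 2 * r := by
      by_cases hpz : G.Adj p z
      · have := dg_miss81 (G := G) (p := q) hz (fun hq => hno ⟨hpz, hq⟩)
        omega
      · have := dg_miss81 (G := G) (p := p) hz hpz
        omega
    refine ⟨?_, e3⟩
    unfold TT41
    omega
  have hmem : ∀ j, cf c hp j ∈ C := fun j => (hs _).1 (cf_mem hp j)
  have mk : (∃ z ∈ C, ¬ (G.Adj p z ∧ G.Adj q z)) →
      ((∃ n, TOne49 G c hp x p q y n) ∨ (∃ n, TOne49 G c hp y q p x n) ∨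
        (∃ n, TTwo49 G c hp x p q y n) ∨ (∃ n, TTwo49 G c hp y q p x n)) →
      TT41 G p q x y C = 4 * r + 1 ∧ dg G C p + dg G C q + 1 = 2 * r ∧
      ∃ (c : List V) (hp : 0 < c.length), c.length = r ∧ Cyc G c ∧ (∀ z, z ∈ c ↔ z ∈ C) ∧
        ((∃ n, TOne49 G c hp x p q y n) ∨ (∃ n, TOne49 G c hp y q p x n) ∨
          (∃ n, TTwo49 G c hp x p q y n) ∨ (∃ n, TTwo49 G c hp y q p x n)) := by
    rintro ⟨z, hz, hno⟩ h5
    exact ⟨(hnum z hz hno).1, (hnum z hz hno).2, c, hp, hcr, hc, hs, h5⟩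
  rcases hout with ⟨n, h5⟩ | ⟨n, h5⟩ | ⟨n, h5⟩ | ⟨n, h5⟩ | ⟨n, h5⟩ | ⟨n, h5⟩ | ⟨n, h5⟩
  · exact (h5.false81 S (by omega) h hC hc hs h2).elim
  · have h6 := h5.tOne49 hc hs hB
    refine mk ⟨_, hmem (n + 2), fun hh => ?_⟩ (Or.inl ⟨n, h6⟩)
    exact (h6.ht 2 (by omega)).1 hh.2 rfl
  · have h6 := h5.tOne49 hc hs hB'
    refine mk ⟨_, hmem (n + 2), fun hh => ?_⟩ (Or.inr (Or.inl ⟨n, h6⟩))
    exact (h6.ht 2 (by omega)).1 hh.1 rfl
  · rcases h5.split49 hc (by omega) hs hB with h6 | h6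
    · refine mk ⟨_, hmem (n + 2), fun hh => ?_⟩ (Or.inr (Or.inr (Or.inl ⟨n, h6⟩)))
      exact h6.one ⟨fun _ => hh.2, fun _ => hh.1⟩
    · exact (hth _ (h5.third49 (by omega) h6)).elim
  · rcases h5.split49 hc (by omega) hs hB' with h6 | h6
    · refine mk ⟨_, hmem (n + 2), fun hh => ?_⟩ (Or.inr (Or.inr (Or.inr ⟨n, h6⟩)))
      exact h6.one ⟨fun _ => hh.1, fun _ => hh.2⟩
    · exact (hth _ (Third49.symm63 (h5.third49 (by omega) h6))).elim
  · exact (hth _ (h5.third49 hc (by omega) hs hB)).elim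
  · exact (hth _ (Third49.symm63 (h5.third49 hc (by omega) hs hB'))).elim

/-- **the core of `n = k r`, `r ≥ 7`** -/
theorem core63 (S : Set41 G U k r) (hr : 7 ≤ r) (h : Adm41 G U r Q p q F x y) : False :=
  part_b35 S (by omega) (fun Q p q F x y h' C hC hT => llB63 S hr h' hC hT) h

end Pool.Agent.P0
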