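import Pool.Agent.P0.Five61G
import Pool.Agent.P0.Core63

set_option linter.all false

/-!
# P0: the whole statement (Q1 of MP_2b93ca_co)
-/

namespace Pool.Agent.P0

open Pool.Agent.Helper14.LongCyc Pool.Agent.LCK Pool.Agent.FRC

universe u

/-- the whole statement for vertex sets -/
theorem full41 {k r : ℕ} (hk : 2 ≤ k) (hr : 3 ≤ r) : T41.{u} k r (k * r) :=
  all41_of (fun _ hk => five61 hk)
    (fun _ _ _ hr => icoreEq41_of (by omega) fun S h => core63 S hr h) hk hr

/-- **Q1**: for `k ≥ 2` and `r ≥ 3` every graph with at least `k r` vertices and minimum degree at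
least `(2/3) k r` contains `k` disjoint cycles, each of length at least `r` -/
theorem answer41 (k r : ℕ) (hk : 2 ≤ k) (hr : 3 ≤ r) (V : Type u) [Fintype V]
    (G : SimpleGraph V) [DecidableRel G.Adj] (hn : k * r ≤ Fintype.card V)
    (hdeg : (2 / 3 : ℝ) * k * r ≤ (G.minDegree : ℝ)) :
    ∃ (a : Fin k → V) (c : (i : Fin k) → G.Walk (a i) (a i)),
      (∀ i, (c i).IsCycle ∧ r ≤ (c i).length) ∧
      ∀ i j, i ≠ j → ∀ x, x ∈ (c i).support → x ∉ (c j).support :=
  walks41 (full41 hk hr) V G hn hdeg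

end Pool.Agent.P0
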