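import Pool.Agent.P0.Pan13

set_option linter.all false

/-!
# P0, row I6: the arc rule
-/

namespace Pool.Agent.P0

open Pool.Agent.Helper14.LongCyc Pool.Agent.LCK

universe u

variable {V : Type u} {G : SimpleGraph V}

/-- the data of case II -/
structure DatII (G : SimpleGraph V) (U : Finset V) (r : ℕ) (F : Finset (Finset V)) (w w' : V)
    (l : List V) (K : Finset V) : Prop where
  opt : OptP49 G U r F w w' l
  sub : K ⊆ rest U F
  off : ∀ x ∈ K, x ∉ l
  five : 5 ≤ K.card
  lt : K.card + 1 ≤ r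
  deg : ∀ u ∈ K, r + 2 ≤ 2 * dg G K u

theorem DatII.pan [DecidableEq V] {U : Finset V} {r : ℕ} {F : Finset (Finset V)} {w w' : V}
    {l : List V} {K : Finset V} (D : DatII G U r F w w' l K) {u u' : V} (hu : u ∈ K)
    (hu' : u' ∈ K) (hne : u ≠ u') {t : ℕ} (ht : 3 ≤ t) (htq : t ≤ K.card) :
    ∃ l : List V, Pth G u u' l ∧ l.length = t ∧ ∀ x ∈ l, x ∈ K :=
  pan13 D.five (fun v hv => by have := D.deg v hv; have := D.lt; omega) hu hu' hne ht htq

section

variable {c : List V} (hp : 0 < c.length)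

/-- an arc of `c` closed by a path of `K` -/
theorem DatII.arcCyc [DecidableEq V] {U : Finset V} {r : ℕ} {F : Finset (Finset V)} {w w' : V}
    {l : List V} {K : Finset V} (D : DatII G U r F w w' l K) (hc : Cyc G c)
    (hcK : ∀ x ∈ c, x ∉ K) {u u' : V} (hu : u ∈ K)
    (hu' : u' ∈ K) (hne : u ≠ u') {n j t : ℕ} (hj : j < c.length) (ht : 3 ≤ t)
    (htq : t ≤ K.card) (h1 : G.Adj u (cf c hp n)) (h2 : G.Adj u' (cf c hp (n + j))) :
    ∃ E : Finset V, CycSet G E ∧ E.card = j + 1 + t ∧
      (∀ z ∈ E, z ∈ K ∨ z ∈ seg (cf c hp) n j) := by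
  obtain ⟨m, hm, hml, hmK⟩ := D.pan hu hu' hne ht htq
  have hA := arc_pth hc hp j n hj
  obtain ⟨e1, e2⟩ := joinSet hA hm (fun x hx hx' => hcK x (arc_mem49 hp hx) (hmK x hx'))
    (by rw [hml]; omega) (Or.inl ⟨h1.symm, h2.symm⟩)
  refine ⟨_, e1, ?_, ?_⟩
  · rw [e2, seg_length, hml]
  · intro z hz
    rw [List.mem_toFinset, List.mem_append] at hz
    rcases hz with hz | hz
    · exact Or.inr hz
    · exact Or.inl (hmK z hz)

/-- arc rule for members longer than `r` -/
theorem DatII.arcLong [DecidableEq V] {U : Finset V} {r : ℕ} {F : Finset (Finset V)} {w w' : V}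
    {l : List V} {K : Finset V} (D : DatII G U r F w w' l K) {C : Finset V} (hC : C ∈ F)
    (hc : Cyc G c) (hs : ∀ x, x ∈ c ↔ x ∈ C) {u u' : V} (hu : u ∈ K)
    (hu' : u' ∈ K) (hne : u ≠ u') {n j t : ℕ} (hj : j < c.length) (ht : 3 ≤ t)
    (htq : t ≤ K.card) (h1 : G.Adj u (cf c hp n)) (h2 : G.Adj u' (cf c hp (n + j)))
    (hr : r ≤ j + 1 + t) (hL : j + 1 + t < c.length) : False := by
  have hcK : ∀ x ∈ c, x ∉ K := fun x hx hx' => (mem_rest.1 (D.sub hx')).2 C hC ((hs x).1 hx)
  obtain ⟨E, e1, e2, e3⟩ := D.arcCyc hp hc hcK hu hu' hne hj ht htq h1 h2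
  have hcard := card_of_list (Cyc.nodup hc) hs
  have := D.opt.opt.short hC e1 (by
    intro z hz
    rcases e3 z hz with h | h
    · exact Finset.mem_union_right _ (D.sub h)
    · exact Finset.mem_union_left _ ((hs z).1 (arc_mem49 hp h))) (by omega)
  omega

/-- arc rule for members of size `r` -/
theorem DatII.arcR [DecidableEq V] {U : Finset V} {r : ℕ} {F : Finset (Finset V)} {w w' : V}
    {l : List V} {K : Finset V} (D : DatII G U r F w w' l K) {C : Finset V} (hC : C ∈ F)
    (hc : Cyc G c) (hs : ∀ x, x ∈ c ↔ x ∈ C) {u u' : V} (hu : u ∈ K)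
    (hu' : u' ∈ K) (hne : u ≠ u') {n j : ℕ} (hL : c.length = r) (hj : j + 4 ≤ r)
    (hq : r ≤ j + 1 + K.card) (h1 : G.Adj u (cf c hp n)) (h2 : G.Adj u' (cf c hp (n + j)))
    {z : V} (hz : z ∈ C) (hwz : G.Adj w z) : z ∈ seg (cf c hp) n j := by
  have hcK : ∀ x ∈ c, x ∉ K := fun x hx hx' => (mem_rest.1 (D.sub hx')).2 C hC ((hs x).1 hx)
  obtain ⟨E, e1, e2, e3⟩ := D.arcCyc hp hc hcK hu hu' hne (t := r - (j + 1)) (by omega) (by omega)
    (by omega) h1 h2
  have hcard := card_of_list (Cyc.nodup hc) hs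
  by_contra hcon
  obtain ⟨o1, o2⟩ := D.opt.opt.replace_same hC e1 (by
    intro y hy
    rcases e3 y hy with h | h
    · exact Finset.mem_union_right _ (D.sub h)
    · exact Finset.mem_union_left _ ((hs y).1 (arc_mem49 hp h))) (by omega)
  have hzl : z ∉ l := fun hh => (mem_rest.1 (D.opt.sub _ hh)).2 C hC hz
  have hlong := D.opt.max _ _ _ _ o1 (D.opt.path.cons hwz.symm hzl) (by
    intro y hy
    rw [o2, Finset.mem_sdiff]
    rcases List.mem_cons.1 hy with hy | hy
    · rw [hy]
      refine ⟨Finset.mem_union_left _ hz, fun hh => ?_⟩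
      rcases e3 z hh with h | h
      · exact (mem_rest.1 (D.sub h)).2 C hC hz
      · exact hcon h
    · have hyr := D.opt.sub y hy
      refine ⟨Finset.mem_union_right _ hyr, fun hh => ?_⟩
      rcases e3 y hh with h | h
      · exact D.off y h hy
      · exact (mem_rest.1 hyr).2 C hC ((hs y).1 (arc_mem49 hp h)))
  simp only [List.length_cons] at hlong
  omega

/-- the neighbours of `w` on `C` lie in an arc with `j + 1` vertices -/
theorem dg_seg13 [DecidableEq V] {C : Finset V} {w : V} {n j : ℕ}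
    (h : ∀ z ∈ C, G.Adj w z → z ∈ seg (cf c hp) n j) : dg G C w ≤ j + 1 := by
  classical
  unfold dg
  have hsub : (C.filter fun u => G.Adj w u) ⊆ (seg (cf c hp) n j).toFinset := by
    intro z hz
    rw [Finset.mem_filter] at hz
    exact List.mem_toFinset.2 (h z hz.1 hz.2)
  have h1 := Finset.card_le_card hsub
  have h2 := List.toFinset_card_le (seg (cf c hp) n j)
  rw [seg_length] at h2
  omega

/-- both arcs in the range: `w` has at most two neighbours -/
theorem DatII.two13 [DecidableEq V] {U : Finset V} {r : ℕ} {F : Finset (Finset V)} {w w' : V}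
    {l : List V} {K : Finset V} (D : DatII G U r F w w' l K) {C : Finset V} (hC : C ∈ F)
    (hc : Cyc G c) (hs : ∀ x, x ∈ c ↔ x ∈ C) {u u' : V} (hu : u ∈ K)
    (hu' : u' ∈ K) (hne : u ≠ u') {n j : ℕ} (hL : c.length = r) (hj : j + 4 ≤ r) (hj4 : 4 ≤ j)
    (hq : r ≤ j + 1 + K.card) (hq' : j ≤ 1 + K.card)
    (h1 : G.Adj u (cf c hp n)) (h2 : G.Adj u' (cf c hp (n + j))) : dg G C w ≤ 2 := by
  classical
  have e0 : cf c hp (n + j + (c.length - j)) = cf c hp n := by
    apply cf_congr
    rw [show n + j + (c.length - j) = n + c.length by omega, Nat.add_mod_right]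
  have key1 : ∀ z ∈ C, G.Adj w z → z ∈ seg (cf c hp) n j :=
    fun z hz hwz => D.arcR hp hC hc hs hu hu' hne hL hj hq h1 h2 hz hwz
  have key2 : ∀ z ∈ C, G.Adj w z → z ∈ seg (cf c hp) (n + j) (c.length - j) :=
    fun z hz hwz => D.arcR hp hC hc hs hu' hu hne.symm hL (by omega) (by omega) h2
      (by rw [e0]; exact h1) hz hwz
  unfold dg
  have hsub : (C.filter fun u => G.Adj w u) ⊆ {cf c hp n, cf c hp (n + j)} := by
    intro z hz
    rw [Finset.mem_filter] at hz
    have k1 := key1 z hz.1 hz.2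
    have k2 := key2 z hz.1 hz.2
    rw [mem_seg] at k1 k2
    obtain ⟨a, a1, a2, a3⟩ := k1
    obtain ⟨b, b1, b2, b3⟩ := k2
    rw [Finset.mem_insert, Finset.mem_singleton]
    by_cases ha : a = n
    · exact Or.inl (ha ▸ a3)
    by_cases hb : b = n + c.length
    · left
      rw [b3, hb]
      apply cf_congr
      rw [Nat.add_mod_right]
    by_cases hab : a = n + j
    · exact Or.inr (hab ▸ a3)
    · exfalso
      rw [a3, show a = n + (a - n) by omega, show b = n + (b - n) by omega] at b3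
      exact far49 hc hp n (s := a - n) (t := b - n) (by omega) (by omega) b3
  exact (Finset.card_le_card hsub).trans Finset.card_le_two

/-- classification, `|C| = r`, `w` with at least five neighbours -/
theorem DatII.badA [DecidableEq V] {U : Finset V} {r : ℕ} {F : Finset (Finset V)} {w w' : V}
    {l : List V} {K : Finset V} (D : DatII G U r F w w' l K) {C : Finset V} (hC : C ∈ F)
    (hc : Cyc G c) (hs : ∀ x, x ∈ c ↔ x ∈ C) (hL : c.length = r) (hr : 8 ≤ r)
    (hx : 5 ≤ dg G C w) {u u' : V} (hu : u ∈ K) (hu' : u' ∈ K) (hne : u ≠ u') {n j : ℕ}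
    (hj : j < c.length) (hq : r ≤ K.card + j + 1) (hq' : j ≤ K.card + 1)
    (h1 : G.Adj u (cf c hp n)) (h2 : G.Adj u' (cf c hp (n + j))) : False := by
  -- the short arc
  have short : ∀ {u u' : V} (hu : u ∈ K) (hu' : u' ∈ K) (hne : u ≠ u') {n j : ℕ}
      (hj : 2 * j ≤ r) (hq : r ≤ K.card + j + 1) (hq' : j ≤ K.card + 1)
      (h1 : G.Adj u (cf c hp n)) (h2 : G.Adj u' (cf c hp (n + j))), False := by
    intro u u' hu hu' hne n j hj hq hq' h1 h2
    have h3 := dg_seg13 (G := G) hp (C := C) (w := w) (n := n) (j := j)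
      fun z hz hwz => D.arcR hp hC hc hs hu hu' hne hL (by omega) (by omega) h1 h2 hz hwz
    have h4 := D.two13 hp hC hc hs hu hu' hne hL (by omega) (by omega) (by omega) (by omega) h1 h2
    omega
  rcases Nat.lt_or_ge r (2 * j) with h | h
  · have e0 : cf c hp (n + j + (c.length - j)) = cf c hp n := by
      apply cf_congr
      rw [show n + j + (c.length - j) = n + c.length by omega, Nat.add_mod_right]
    exact short hu' hu hne.symm (n := n + j) (j := c.length - j) (by omega) (by omega) (by omega)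
      h2 (by rw [e0]; exact h1)
  · exact short hu hu' hne h hq hq' h1 h2

/-- classification, `|C| = r`, `w` with at least three neighbours -/
theorem DatII.badB [DecidableEq V] {U : Finset V} {r : ℕ} {F : Finset (Finset V)} {w w' : V}
    {l : List V} {K : Finset V} (D : DatII G U r F w w' l K) {C : Finset V} (hC : C ∈ F)
    (hc : Cyc G c) (hs : ∀ x, x ∈ c ↔ x ∈ C) (hL : c.length = r)
    (hx : 3 ≤ dg G C w) {u u' : V} (hu : u ∈ K) (hu' : u' ∈ K) (hne : u ≠ u') {n j : ℕ}
    (hj : j + 4 ≤ r) (hj4 : 4 ≤ j) (hq : r ≤ K.card + j + 1) (hq' : j ≤ K.card + 1)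
    (h1 : G.Adj u (cf c hp n)) (h2 : G.Adj u' (cf c hp (n + j))) : False := by
  have h4 := D.two13 hp hC hc hs hu hu' hne hL hj hj4 (by omega) (by omega) h1 h2
  omega

/-- classification, `|C| > r` -/
theorem DatII.badC [DecidableEq V] {U : Finset V} {r : ℕ} {F : Finset (Finset V)} {w w' : V}
    {l : List V} {K : Finset V} (D : DatII G U r F w w' l K) {C : Finset V} (hC : C ∈ F)
    (hc : Cyc G c) (hs : ∀ x, x ∈ c ↔ x ∈ C) (hL : r < c.length) (hr : 8 ≤ r)
    {u u' : V} (hu : u ∈ K) (hu' : u' ∈ K) (hne : u ≠ u') {n j : ℕ}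
    (hj : j < c.length) (hq : r ≤ K.card + j + 1) (hq' : r + j ≤ K.card + c.length + 1)
    (h1 : G.Adj u (cf c hp n)) (h2 : G.Adj u' (cf c hp (n + j))) : False := by
  have hK5 := D.five
  have short : ∀ {u u' : V} (hu : u ∈ K) (hu' : u' ∈ K) (hne : u ≠ u') {n j : ℕ}
      (hj : 2 * j ≤ c.length) (hq : r ≤ K.card + j + 1)
      (h1 : G.Adj u (cf c hp n)) (h2 : G.Adj u' (cf c hp (n + j))), False := by
    intro u u' hu hu' hne n j hj hq h1 h2
    rcases Nat.lt_or_ge (j + 4) r with h | h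
    · exact D.arcLong hp hC hc hs hu hu' hne (t := r - (j + 1)) (by omega) (by omega) (by omega)
        h1 h2 (by omega) (by omega)
    · exact D.arcLong hp hC hc hs hu hu' hne (t := 3) (by omega) (by omega) (by omega)
        h1 h2 (by omega) (by omega)
  rcases Nat.lt_or_ge c.length (2 * j) with h | h
  · have e0 : cf c hp (n + j + (c.length - j)) = cf c hp n := by
      apply cf_congr
      rw [show n + j + (c.length - j) = n + c.length by omega, Nat.add_mod_right]
    exact short hu' hu hne.symm (n := n + j) (j := c.length - j) (by omega) (by omega)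
      h2 (by rw [e0]; exact h1)
  · exact short hu hu' hne h hq h1 h2

end

end Pool.Agent.P0
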