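import Pool.Agent.P0.TwoDefs49

set_option linter.all false

/-!
# P0, I4, sections 4.1: interleaved arcs
-/

namespace Pool.Agent.P0

open Pool.Agent.Helper14.LongCyc Pool.Agent.LCK Pool.Agent.FRC

universe u

/-- the sum of a set and an interval in a cyclic group -/
theorem interval81 {n : ℕ} [NeZero n] (A : Finset (ZMod n)) (hA : A.Nonempty) : ∀ w : ℕ,
    n ≤ ((Finset.range (w + 1)).biUnion fun j => A.image fun a => a + (j : ZMod n)).card ∨
    A.card + w ≤ ((Finset.range (w + 1)).biUnion fun j => A.image fun a => a + (j : ZMod n)).card := by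
  classical
  intro w
  induction w with
  | zero =>
    right
    have : (Finset.range (0 + 1)).biUnion (fun j => A.image fun a => a + (j : ZMod n)) = A := by
      ext x
      simp
    rw [this]
    omega
  | succ w ih =>
    set X := (Finset.range (w + 1)).biUnion fun j => A.image fun a => a + (j : ZMod n) with hX
    set Y := (Finset.range (w + 1 + 1)).biUnion fun j => A.image fun a => a + (j : ZMod n) with hY
    have hXY : X ⊆ Y := by
      rw [hX, hY]
      exact Finset.biUnion_subset_biUnion_of_subset_left _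
        (Finset.range_subset_range.2 (by omega))
    have hstep : ∀ x ∈ X, x + 1 ∈ Y := by
      intro x hx
      rw [hX, Finset.mem_biUnion] at hx
      obtain ⟨j, hj, hx⟩ := hx
      rw [Finset.mem_image] at hx
      obtain ⟨a, ha, rfl⟩ := hx
      rw [hY, Finset.mem_biUnion]
      refine ⟨j + 1, Finset.mem_range.2 (by rw [Finset.mem_range] at hj; omega), ?_⟩
      rw [Finset.mem_image]
      exact ⟨a, ha, by push_cast; ring⟩
    have hcXY := Finset.card_le_card hXY
    by_cases hfull : n ≤ X.card
    · left; omega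
    have hih : A.card + w ≤ X.card := by
      rcases ih with h | h
      · exact absurd h hfull
      · exact h
    right
    -- some element of `X` has its successor outside
    obtain ⟨a0, ha0⟩ := hA
    have ha0X : a0 ∈ X := by
      rw [hX, Finset.mem_biUnion]
      exact ⟨0, Finset.mem_range.2 (by omega), Finset.mem_image.2 ⟨a0, ha0, by simp⟩⟩
    obtain ⟨x, hx, hx1⟩ : ∃ x ∈ X, x + 1 ∉ X := by
      by_contra hcon
      push Not at hcon
      have hall : ∀ m : ℕ, a0 + (m : ZMod n) ∈ X := by
        intro m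
        induction m with
        | zero => simpa using ha0X
        | succ m ihm =>
          have := hcon _ ihm
          push_cast
          rwa [← add_assoc]
      have huniv : X = Finset.univ := by
        ext y
        refine ⟨fun _ => Finset.mem_univ _, fun _ => ?_⟩
        have := hall (y - a0).val
        rwa [ZMod.natCast_zmod_val, add_sub_cancel] at this
      apply hfull
      rw [huniv, Finset.card_univ, ZMod.card]
    have hins : insert (x + 1) X ⊆ Y := by
      intro y hy
      rcases Finset.mem_insert.1 hy with h | h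
      · rw [h]; exact hstep x hx
      · exact hXY h
    have := Finset.card_le_card hins
    rw [Finset.card_insert_of_notMem hx1] at this
    omega

/-- two sets and an interval -/
theorem meet81 {n : ℕ} [NeZero n] (A B : Finset (ZMod n)) (hA : A.Nonempty) (hB : B.Nonempty)
    (c w : ℕ) (h : n < A.card + w + B.card) :
    ∃ a ∈ A, ∃ b ∈ B, ∃ j ≤ w, a + ((c + j : ℕ) : ZMod n) = b := by
  classical
  set X := (Finset.range (w + 1)).biUnion fun j => A.image fun a => a + (j : ZMod n) with hX
  set B' := B.image fun b => b - (c : ZMod n) with hB'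
  have hB'c : B'.card = B.card :=
    Finset.card_image_of_injective _ (fun a b hab => by simpa using hab)
  have hne : ¬ Disjoint X B' := by
    intro hd
    have h1 : (X ∪ B').card ≤ n := by
      have := Finset.card_le_univ (X ∪ B')
      rwa [ZMod.card] at this
    rw [Finset.card_union_of_disjoint hd, hB'c] at h1
    have hBpos := hB.card_pos
    rcases interval81 A hA w with h2 | h2
    · rw [← hX] at h2; omega
    · rw [← hX] at h2; omega
  rw [Finset.not_disjoint_iff] at hne
  obtain ⟨x, hx, hx'⟩ := hne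
  rw [hX, Finset.mem_biUnion] at hx
  obtain ⟨j, hj, hx⟩ := hx
  rw [Finset.mem_image] at hx
  obtain ⟨a, ha, hax⟩ := hx
  rw [hB', Finset.mem_image] at hx'
  obtain ⟨b, hb, hbx⟩ := hx'
  refine ⟨a, ha, b, hb, j, by rw [Finset.mem_range] at hj; omega, ?_⟩
  push_cast
  have : a + (j : ZMod n) = b - (c : ZMod n) := by rw [hax, hbx]
  linear_combination this

variable {V : Type u} {G : SimpleGraph V}

open Classical in
/-- positions of the neighbours -/
noncomputable def pos81 (G : SimpleGraph V) (c : List V) [NeZero c.length] (hp : 0 < c.length)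
    (p : V) : Finset (ZMod c.length) :=
  Finset.univ.filter fun i => G.Adj p (cf c hp i.val)

theorem card_pos81 [DecidableEq V] {c : List V} [NeZero c.length] (hp : 0 < c.length)
    (hn : c.Nodup) (p : V) : (pos81 G c hp p).card = dg G c.toFinset p := by
  classical
  rw [← sum_ind49 hp hn p]
  unfold pos81 ind49
  rw [Finset.card_filter]

theorem mem_pos81 {c : List V} [NeZero c.length] (hp : 0 < c.length) {p : V} {i : ZMod c.length}
    (n : ℕ) (hn : i = (n : ZMod c.length)) : i ∈ pos81 G c hp p ↔ G.Adj p (cf c hp n) := by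
  classical
  rw [← ind_nat49 hp n hn, ind_one49]
  simp [pos81]

/-- both arcs are long: two cycles -/
theorem arcs81 [DecidableEq V] {c : List V} (hc : Cyc G c) (hp : 0 < c.length)
    {u u' v v' : V} {l l' : List V} (hl : Pth G u u' l) (hl' : Pth G v v' l')
    (hll : ∀ x ∈ l, x ∉ l') (hlc : ∀ x ∈ l, x ∉ c) (hlc' : ∀ x ∈ l', x ∉ c)
    (n0 s : ℕ) (hs : s + 2 ≤ c.length) (h1 : c.length ≤ s + 1 + l'.length)
    (h2 : s + 1 ≤ l.length) (hu : G.Adj u (cf c hp (n0 + c.length - 1)))
    (hv : G.Adj v (cf c hp n0)) (hv' : G.Adj v' (cf c hp (n0 + s)))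
    (hu' : G.Adj u' (cf c hp (n0 + s + 1))) :
    Two49 G c.length (c.toFinset ∪ l.toFinset ∪ l'.toFinset) := by
  have hL := hc.1
  have hA := arc_pth hc hp s n0 (by omega)
  have hB := arc_pth hc hp (c.length - 2 - s) (n0 + s + 1) (by omega)
  rw [show n0 + s + 1 + (c.length - 2 - s) = n0 + c.length - 1 by omega] at hB
  refine mk49 hl' hA hl hB ?_ ?_ hL ?_ ?_ (Or.inl ⟨hv, hv'⟩) (Or.inr ⟨hu, hu'⟩) ?_ ?_ ?_
  · intro x hx hx'
    exact hlc' x hx (arc_mem49 hp hx')
  · intro x hx hx'
    exact hlc x hx (arc_mem49 hp hx')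
  · rw [seg_length]; omega
  · rw [seg_length]; omega
  · intro x hx
    rw [Finset.mem_union, Finset.mem_union, List.mem_toFinset, List.mem_toFinset,
      List.mem_toFinset]
    rcases hx with hx | hx
    · exact Or.inr hx
    · exact Or.inl (Or.inl (arc_mem49 hp hx))
  · intro x hx
    rw [Finset.mem_union, Finset.mem_union, List.mem_toFinset, List.mem_toFinset,
      List.mem_toFinset]
    rcases hx with hx | hx
    · exact Or.inl (Or.inr hx)
    · exact Or.inl (Or.inl (arc_mem49 hp hx))
  · intro x hx hx'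
    rcases hx with hx | hx <;> rcases hx' with hx' | hx'
    · exact hll x hx' hx
    · exact hlc' x hx (arc_mem49 hp hx')
    · exact hlc x hx' (arc_mem49 hp hx)
    · rw [mem_seg] at hx hx'
      obtain ⟨j, j1, j2, j3⟩ := hx
      obtain ⟨j', j1', j2', j3'⟩ := hx'
      have e : cf c hp (n0 + (j - n0)) = cf c hp (n0 + (j' - n0)) := by
        rw [show n0 + (j - n0) = j by omega, show n0 + (j' - n0) = j' by omega, ← j3, ← j3']
      exact far49 hc hp n0 (s := j - n0) (t := j' - n0) (by omega) (by omega) e

/-- **(4.1), one half** -/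
theorem quad81_list [DecidableEq V] {c : List V} (hc : Cyc G c) (hp : 0 < c.length)
    {u u' v v' : V} {l l' : List V} (hl : Pth G u u' l) (hl' : Pth G v v' l')
    (hll : ∀ x ∈ l, x ∉ l') (hlc : ∀ x ∈ l, x ∉ c) (hlc' : ∀ x ∈ l', x ∉ c)
    (h1 : l.length + 1 ≤ c.length) (h1' : l'.length + 1 ≤ c.length)
    (h2 : c.length ≤ l.length + l'.length)
    (hno : ¬ Two49 G c.length (c.toFinset ∪ l.toFinset ∪ l'.toFinset)) :
    dg G c.toFinset u + dg G c.toFinset u' + dg G c.toFinset v + dg G c.toFinset v'
        + l.length + l'.length ≤ 4 * c.length ∨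
      dg G c.toFinset u + dg G c.toFinset v ≤ c.length ∨
      dg G c.toFinset u' + dg G c.toFinset v' ≤ c.length := by
  classical
  haveI : NeZero c.length := ⟨by omega⟩
  have hn := Cyc.nodup hc
  have hc0 : ((c.length : ℕ) : ZMod c.length) = 0 := ZMod.natCast_self _
  by_contra hcon
  push Not at hcon
  obtain ⟨g1, g2, g3⟩ := hcon
  rw [← card_pos81 hp hn u, ← card_pos81 hp hn v] at g2
  rw [← card_pos81 hp hn u', ← card_pos81 hp hn v'] at g3
  rw [← card_pos81 hp hn u, ← card_pos81 hp hn u', ← card_pos81 hp hn v,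
    ← card_pos81 hp hn v'] at g1
  set N1 := (pos81 G c hp u).image fun i => i + 1 with hN1
  set N2 := (pos81 G c hp u').image fun i => i - 1 with hN2
  have c1 : N1.card = (pos81 G c hp u).card :=
    Finset.card_image_of_injective _ (fun a b hab => by simpa using hab)
  have c2 : N2.card = (pos81 G c hp u').card :=
    Finset.card_image_of_injective _ (fun a b hab => by simpa using hab)
  have hle : ∀ S : Finset (ZMod c.length), S.card ≤ c.length := by
    intro S
    have := Finset.card_le_univ S
    rwa [ZMod.card] at this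
  have k1 := Finset.card_union_add_card_inter N1 (pos81 G c hp v)
  have k2 := Finset.card_union_add_card_inter N2 (pos81 G c hp v')
  have k3 := hle (N1 ∪ pos81 G c hp v)
  have k4 := hle (N2 ∪ pos81 G c hp v')
  have hAne : (N1 ∩ pos81 G c hp v).Nonempty := Finset.card_pos.1 (by omega)
  have hBne : (N2 ∩ pos81 G c hp v').Nonempty := Finset.card_pos.1 (by omega)
  obtain ⟨a, ha, b, hb, j, hj, hab⟩ := meet81 _ _ hAne hBne (c.length - 1 - l'.length)
    (l.length + l'.length - c.length) (by omega)
  rw [Finset.mem_inter, hN1, Finset.mem_image] at ha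
  rw [Finset.mem_inter, hN2, Finset.mem_image] at hb
  obtain ⟨⟨a', ha', rfl⟩, ha2⟩ := ha
  obtain ⟨⟨b', hb', hb1⟩, hb2⟩ := hb
  set s := c.length - 1 - l'.length + j with hs
  set n0 := (a' + 1).val with hn0
  have e0 : a' + 1 = ((n0 : ℕ) : ZMod c.length) := (ZMod.natCast_zmod_val _).symm
  have e1 : a' = ((n0 + c.length - 1 : ℕ) : ZMod c.length) := by
    have h3 : ((n0 + c.length - 1 : ℕ) : ZMod c.length) + 1 = ((n0 + c.length : ℕ) : ZMod c.length) := by
      rw [← Nat.cast_succ]
      congr 1
      omega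
    rw [Nat.cast_add, hc0, add_zero, ← e0] at h3
    exact (add_right_cancel h3).symm
  have e2 : b = ((n0 + s : ℕ) : ZMod c.length) := by
    rw [Nat.cast_add n0 s, ← e0, hab]
  have e3 : b' = ((n0 + s + 1 : ℕ) : ZMod c.length) := by
    rw [Nat.cast_succ, ← e2, ← hb1]
    ring
  refine hno (arcs81 hc hp hl hl' hll hlc hlc' n0 s (by omega) (by omega) (by omega) ?_ ?_ ?_ ?_)
  · exact (mem_pos81 hp _ e1).1 ha'
  · exact (mem_pos81 hp _ e0).1 ha2
  · exact (mem_pos81 hp _ e2).1 hb2
  · exact (mem_pos81 hp _ e3).1 hb'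

/-- **(4.1)** -/
theorem quad81 [DecidableEq V] {r : ℕ} {C : Finset V} (hC : CycSet G C) (hCr : C.card = r)
    {u u' v v' : V} {l l' : List V} (hl : Pth G u u' l) (hl' : Pth G v v' l')
    (hll : ∀ x ∈ l, x ∉ l') (hlc : ∀ x ∈ l, x ∉ C) (hlc' : ∀ x ∈ l', x ∉ C)
    (h1 : l.length + 1 ≤ r) (h1' : l'.length + 1 ≤ r)
    (h2 : r ≤ l.length + l'.length)
    (hno : ¬ Two49 G r (C ∪ l.toFinset ∪ l'.toFinset)) :
    dg G C u + dg G C u' + dg G C v + dg G C v' + l.length + l'.length ≤ 4 * r ∨
      ((dg G C u + dg G C v ≤ r ∨ dg G C u' + dg G C v' ≤ r) ∧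
       (dg G C u + dg G C v' ≤ r ∨ dg G C u' + dg G C v ≤ r)) := by
  obtain ⟨c, hc, hs⟩ := hC
  have hcard := card_of_list (Cyc.nodup hc) hs
  have hCc : c.toFinset = C := by
    ext z; rw [List.mem_toFinset]; exact hs z
  have hlr : c.length = r := by omega
  subst hlr
  have hp : 0 < c.length := by
    have := hc.1
    omega
  have k1 := quad81_list hc hp hl hl' hll (fun x hx h => hlc x hx ((hs x).1 h))
    (fun x hx h => hlc' x hx ((hs x).1 h)) h1 h1' h2 (by rw [hCc]; exact hno)
  have k2 := quad81_list hc hp hl hl'.reverse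
    (fun x hx h => hll x hx (List.mem_reverse.1 h)) (fun x hx h => hlc x hx ((hs x).1 h))
    (fun x hx h => hlc' x (List.mem_reverse.1 hx) ((hs x).1 h)) h1
    (by rw [List.length_reverse]; exact h1') (by rw [List.length_reverse]; exact h2)
    (by rw [hCc, List.toFinset_reverse]; exact hno)
  rw [hCc] at k1 k2
  rw [List.length_reverse] at k2
  by_cases h : dg G C u + dg G C u' + dg G C v + dg G C v' + l.length + l'.length ≤ 4 * c.length
  · exact Or.inl h
  · refine Or.inr ⟨?_, ?_⟩
    · rcases k1 with k1 | k1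
      · exact absurd k1 h
      · exact k1
    · rcases k2 with k2 | k2
      · omega
      · exact k2

end Pool.Agent.P0
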