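import Mathlib

set_option linter.all false

/-!
# P0 / I5: two disjoint arcs in a cyclic group
-/

namespace Pool.Agent.P0

variable {L : ℕ} [NeZero L]

/-- a nonempty set of residues closed under adding one is everything -/
theorem closed_univ9 {S : Finset (ZMod L)} (hne : S.Nonempty) (h : ∀ x ∈ S, x + 1 ∈ S) :
    S = Finset.univ := by
  obtain ⟨a, ha⟩ := hne
  have h1 : ∀ n : ℕ, a + (n : ZMod L) ∈ S := by
    intro n
    induction n with
    | zero => simpa using ha
    | succ n ih =>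
      have := h _ ih
      rwa [add_assoc, ← Nat.cast_succ] at this
  rw [Finset.eq_univ_iff_forall]
  intro x
  have := h1 (x - a).val
  rwa [ZMod.natCast_zmod_val, add_sub_cancel] at this

/-- **interval sumset lemma** -/
theorem sumset9 {A B : Finset (ZMod L)} (hA : A.Nonempty) (hB : B.Nonempty) (w c : ℕ)
    (h : L < A.card + w + B.card) :
    ∃ a ∈ A, ∃ j ≤ w, a + ((c + j : ℕ) : ZMod L) ∈ B := by
  classical
  let S : ℕ → Finset (ZMod L) := fun w =>
    Finset.univ.filter fun x => ∃ a ∈ A, ∃ j ≤ w, a + ((c + j : ℕ) : ZMod L) = x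
  have hS : ∀ w x, x ∈ S w ↔ ∃ a ∈ A, ∃ j ≤ w, a + ((c + j : ℕ) : ZMod L) = x := by
    intro w x
    simp [S]
  have hcard : ∀ w, S w = Finset.univ ∨ A.card + w ≤ (S w).card := by
    intro w
    induction w with
    | zero =>
      right
      have h1 : A.image (fun a => a + ((c + 0 : ℕ) : ZMod L)) ⊆ S 0 := by
        intro x hx
        obtain ⟨a, ha, rfl⟩ := Finset.mem_image.1 hx
        exact (hS 0 _).2 ⟨a, ha, 0, le_rfl, rfl⟩
      have h2 := Finset.card_le_card h1
      rwa [Finset.card_image_of_injective _ (add_left_injective _)] at h2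
    | succ w ih =>
      have hsub : S w ⊆ S (w + 1) := by
        intro x hx
        obtain ⟨a, ha, j, hj, he⟩ := (hS w x).1 hx
        exact (hS _ x).2 ⟨a, ha, j, by omega, he⟩
      rcases ih with ih | ih
      · left
        rw [Finset.eq_univ_iff_forall] at ih ⊢
        exact fun x => hsub (ih x)
      · have hne : (S w).Nonempty := by
          have := Finset.card_pos.2 hA
          exact Finset.card_pos.1 (by omega)
        by_cases hcl : ∀ x ∈ S w, x + 1 ∈ S w
        · left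
          have := closed_univ9 hne hcl
          rw [Finset.eq_univ_iff_forall] at this ⊢
          exact fun x => hsub (this x)
        · right
          push Not at hcl
          obtain ⟨x, hx, hx1⟩ := hcl
          have h1 : insert (x + 1) (S w) ⊆ S (w + 1) := by
            intro y hy
            rcases Finset.mem_insert.1 hy with hy | hy
            · obtain ⟨a, ha, j, hj, he⟩ := (hS w x).1 hx
              refine (hS _ y).2 ⟨a, ha, j + 1, by omega, ?_⟩
              rw [hy, ← he]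
              push_cast
              ring
            · exact hsub hy
          have h2 := Finset.card_le_card h1
          rw [Finset.card_insert_of_notMem hx1] at h2
          omega
  by_contra hcon
  push Not at hcon
  have hdis : Disjoint (S w) B := by
    rw [Finset.disjoint_left]
    intro x hx hxB
    obtain ⟨a, ha, j, hj, he⟩ := (hS w x).1 hx
    exact hcon a ha j hj (he ▸ hxB)
  have hu : ((S w) ∪ B).card ≤ L := by
    have := Finset.card_le_univ ((S w) ∪ B)
    rwa [ZMod.card] at this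
  rw [Finset.card_union_of_disjoint hdis] at hu
  rcases hcard w with h1 | h1
  · obtain ⟨b, hb⟩ := hB
    exact (Finset.disjoint_left.1 hdis) (h1 ▸ Finset.mem_univ b) hb
  · omega

/-- the positions `j < N` with `x + j ∈ Y` miss at most `L - N` members of `Y` -/
theorem posCount9 (Y : Finset (ZMod L)) (x : ZMod L) {N : ℕ} (hN : N ≤ L) :
    Y.card ≤ ((Finset.range N).filter fun j => x + ((j : ℕ) : ZMod L) ∈ Y).card + (L - N) := by
  classical
  have h1 : Y ⊆ ((Finset.range L).filter fun j => x + ((j : ℕ) : ZMod L) ∈ Y).image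
      (fun j => x + ((j : ℕ) : ZMod L)) := by
    intro y hy
    refine Finset.mem_image.2 ⟨(y - x).val, ?_, ?_⟩
    · rw [Finset.mem_filter, Finset.mem_range, ZMod.natCast_zmod_val, add_sub_cancel]
      exact ⟨ZMod.val_lt _, hy⟩
    · rw [ZMod.natCast_zmod_val, add_sub_cancel]
  have h2 := (Finset.card_le_card h1).trans Finset.card_image_le
  have h3 : ((Finset.range L).filter fun j => x + ((j : ℕ) : ZMod L) ∈ Y) ⊆
      ((Finset.range N).filter fun j => x + ((j : ℕ) : ZMod L) ∈ Y) ∪ Finset.Ico N L := by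
    intro j hj
    rw [Finset.mem_filter, Finset.mem_range] at hj
    rw [Finset.mem_union, Finset.mem_filter, Finset.mem_range, Finset.mem_Ico]
    by_cases h : j < N
    · exact Or.inl ⟨h, hj.2⟩
    · exact Or.inr ⟨by omega, hj.1⟩
  have h4 := (Finset.card_le_card h3).trans (Finset.card_union_le _ _)
  rw [Nat.card_Ico] at h4
  omega

/-- two disjoint arcs `[x, x+e]`, `[x+e+1+g, x+e+1+g+f]`, the first with ends in `X1`, `X2` and at
least `s` vertices, the second with ends in `Y1`, `Y2` and at least `t` vertices -/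
def Arcs9 (X1 X2 Y1 Y2 : Finset (ZMod L)) (s t : ℕ) : Prop :=
  ∃ (x : ZMod L) (e g f : ℕ), s ≤ e + 1 ∧ t ≤ f + 1 ∧ e + 1 + g + f + 1 ≤ L ∧
    ((x ∈ X1 ∧ x + ((e : ℕ) : ZMod L) ∈ X2) ∨ (x ∈ X2 ∧ x + ((e : ℕ) : ZMod L) ∈ X1)) ∧
    ((x + ((e + 1 + g : ℕ) : ZMod L) ∈ Y1 ∧ x + ((e + 1 + g + f : ℕ) : ZMod L) ∈ Y2) ∨
      (x + ((e + 1 + g : ℕ) : ZMod L) ∈ Y2 ∧ x + ((e + 1 + g + f : ℕ) : ZMod L) ∈ Y1))

theorem Arcs9.symm {X1 X2 Y1 Y2 : Finset (ZMod L)} {s t : ℕ} (h : Arcs9 X1 X2 Y1 Y2 s t) :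
    Arcs9 Y1 Y2 X1 X2 t s := by
  obtain ⟨x, e, g, f, h1, h2, h3, h4, h5⟩ := h
  have e0 : ((L : ℕ) : ZMod L) = 0 := ZMod.natCast_self L
  refine ⟨x + ((e + 1 + g : ℕ) : ZMod L), f, L - (e + 1 + g + f + 1), e, h2, h1, by omega, ?_, ?_⟩
  · have e1 : x + ((e + 1 + g : ℕ) : ZMod L) + ((f : ℕ) : ZMod L)
        = x + ((e + 1 + g + f : ℕ) : ZMod L) := by push_cast; ring
    rw [e1]
    exact h5
  · have e1 : x + ((e + 1 + g : ℕ) : ZMod L)
        + ((f + 1 + (L - (e + 1 + g + f + 1)) : ℕ) : ZMod L) = x := by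
      rw [add_assoc, ← Nat.cast_add,
        show e + 1 + g + (f + 1 + (L - (e + 1 + g + f + 1))) = L by omega, e0, add_zero]
    have e2 : x + ((e + 1 + g : ℕ) : ZMod L)
        + ((f + 1 + (L - (e + 1 + g + f + 1)) + e : ℕ) : ZMod L) = x + ((e : ℕ) : ZMod L) := by
      rw [add_assoc, ← Nat.cast_add,
        show e + 1 + g + (f + 1 + (L - (e + 1 + g + f + 1)) + e) = L + e by omega, Nat.cast_add,
        e0, zero_add]
    rw [e1, e2]
    exact h4

/-- the second arc is found in the complement of a short first arc -/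
theorem second9 {X1 X2 Y1 Y2 : Finset (ZMod L)} {s t b : ℕ} (ht : 1 ≤ t) (hY1 : b ≤ Y1.card)
    (hY2 : b ≤ Y2.card) {x : ZMod L} {e : ℕ} (hx : x ∈ X1) (hxe : x + ((e : ℕ) : ZMod L) ∈ X2)
    (hs : s ≤ e + 1) (he : e + 1 + t ≤ b) : Arcs9 X1 X2 Y1 Y2 s t := by
  classical
  have hbL : b ≤ L := by
    have := hY1.trans (Finset.card_le_univ Y1)
    rwa [ZMod.card] at this
  set N := L - (e + 1) with hN
  let T : Finset (ZMod L) → Finset ℕ := fun Y =>
    (Finset.range N).filter fun j => x + ((e + 1 : ℕ) : ZMod L) + ((j : ℕ) : ZMod L) ∈ Y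
  have hT : ∀ Y : Finset (ZMod L), b ≤ Y.card → t ≤ (T Y).card := by
    intro Y hY
    have := posCount9 Y (x + ((e + 1 : ℕ) : ZMod L)) (N := N) (by omega)
    show t ≤ ((Finset.range N).filter fun j =>
      x + ((e + 1 : ℕ) : ZMod L) + ((j : ℕ) : ZMod L) ∈ Y).card
    omega
  have h1 := hT Y1 hY1
  have h2 := hT Y2 hY2
  have hne1 : (T Y1).Nonempty := Finset.card_pos.1 (by omega)
  have hne2 : (T Y2).Nonempty := Finset.card_pos.1 (by omega)
  have span : ∀ (S : Finset ℕ) (hS : S.Nonempty), S.card ≤ S.max' hS - S.min' hS + 1 ∧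
      S.min' hS ≤ S.max' hS := by
    intro S hS
    have hsub : S ⊆ Finset.Icc (S.min' hS) (S.max' hS) := fun j hj =>
      Finset.mem_Icc.2 ⟨Finset.min'_le _ _ hj, Finset.le_max' _ _ hj⟩
    have := Finset.card_le_card hsub
    rw [Nat.card_Icc] at this
    have h3 := Finset.min'_le S _ (Finset.max'_mem S hS)
    exact ⟨by omega, h3⟩
  obtain ⟨a1, a2⟩ := span (T Y1) hne1
  obtain ⟨b1, b2⟩ := span (T Y2) hne2
  have c1 := Finset.mem_filter.1 (Finset.min'_mem (T Y1) hne1)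
  have c2 := Finset.mem_filter.1 (Finset.max'_mem (T Y1) hne1)
  have c3 := Finset.mem_filter.1 (Finset.min'_mem (T Y2) hne2)
  have c4 := Finset.mem_filter.1 (Finset.max'_mem (T Y2) hne2)
  rw [Finset.mem_range] at c1 c2 c3 c4
  set f1 := (T Y1).min' hne1
  set l1 := (T Y1).max' hne1
  set f2 := (T Y2).min' hne2
  set l2 := (T Y2).max' hne2
  have conv : ∀ j : ℕ, x + ((e + 1 : ℕ) : ZMod L) + ((j : ℕ) : ZMod L)
      = x + ((e + 1 + j : ℕ) : ZMod L) := by
    intro j
    rw [add_assoc, ← Nat.cast_add]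
  rcases Nat.lt_or_ge (l2 + 1) (f1 + t) with hc | hc
  · refine ⟨x, e, f2, l1 - f2, hs, by omega, by omega, Or.inl ⟨hx, hxe⟩, Or.inr ⟨?_, ?_⟩⟩
    · rw [← conv]; exact c3.2
    · rw [show e + 1 + f2 + (l1 - f2) = e + 1 + l1 by omega, ← conv]; exact c2.2
  · refine ⟨x, e, f1, l2 - f1, hs, by omega, by omega, Or.inl ⟨hx, hxe⟩, Or.inl ⟨?_, ?_⟩⟩
    · rw [← conv]; exact c1.2
    · rw [show e + 1 + f1 + (l2 - f1) = e + 1 + l2 by omega, ← conv]; exact c4.2

/-- two arcs, plain form -/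
theorem plain9 {X1 X2 Y1 Y2 : Finset (ZMod L)} {s t a b : ℕ} (hs : 1 ≤ s) (ht : 1 ≤ t)
    (hX1 : a ≤ X1.card) (hX2 : a ≤ X2.card) (hY1 : b ≤ Y1.card) (hY2 : b ≤ Y2.card)
    (ha : 1 ≤ a) (hb : s + t ≤ b) (h : L + 1 + s + t ≤ 2 * a + b) : Arcs9 X1 X2 Y1 Y2 s t := by
  obtain ⟨x, hx, j, hj, hxj⟩ := sumset9 (A := X1) (B := X2) (Finset.card_pos.1 (by omega))
    (Finset.card_pos.1 (by omega)) (b - s - t) (s - 1) (by omega)
  exact second9 (b := b) ht hY1 hY2 hx hxj (by omega) (by omega)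

/-- two arcs, when `X2` contains no two residues at distance `3` -/
theorem avoid9 {X1 X2 Y1 Y2 : Finset (ZMod L)} {s t a b : ℕ} (hs : 1 ≤ s) (ht : 1 ≤ t)
    (hX1 : a ≤ X1.card) (hX2 : a ≤ X2.card) (hY1 : b ≤ Y1.card) (hY2 : b ≤ Y2.card)
    (ha : 1 ≤ a) (hav : ∀ x ∈ X2, x + 3 ∉ X2) (hb : s + t + 3 ≤ b)
    (h : L + 4 + s + t ≤ 3 * a + b) : Arcs9 X1 X2 Y1 Y2 s t := by
  classical
  set Z := X2 ∪ X2.image (fun x => x + 3) with hZ
  have hZc : Z.card = 2 * X2.card := by
    rw [hZ, Finset.card_union_of_disjoint, Finset.card_image_of_injective _ (add_left_injective _)]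
    · ring
    · rw [Finset.disjoint_left]
      intro x hx hx'
      obtain ⟨y, hy, rfl⟩ := Finset.mem_image.1 hx'
      exact hav y hy hx
  obtain ⟨x, hx, j, hj, hxj⟩ := sumset9 (A := X1) (B := Z) (Finset.card_pos.1 (by omega))
    (Finset.card_pos.1 (by omega)) (b - s - t - 3) (s + 2) (by omega)
  rcases Finset.mem_union.1 hxj with h1 | h1
  · exact second9 (b := b) ht hY1 hY2 hx h1 (by omega) (by omega)
  · obtain ⟨y, hy, hye⟩ := Finset.mem_image.1 h1
    have h2 : x + ((s - 1 + j : ℕ) : ZMod L) ∈ X2 := by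
      have : y = x + ((s - 1 + j : ℕ) : ZMod L) := by
        have e1 : ((s + 2 + j : ℕ) : ZMod L) = ((s - 1 + j : ℕ) : ZMod L) + 3 := by
          rw [show s + 2 + j = (s - 1 + j) + 3 by omega]
          push_cast
          ring
        rw [e1, ← add_assoc] at hye
        exact add_right_cancel hye
      rw [← this]
      exact hy
    exact second9 (b := b) ht hY1 hY2 hx h2 (by omega) (by omega)

/-- two arcs, the case of two large thresholds -/
theorem large9 {X1 X2 Y1 Y2 : Finset (ZMod L)} {s t a b : ℕ} (hs : 1 ≤ s) (ht : 1 ≤ t)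
    (hX1 : a ≤ X1.card) (hX2 : a ≤ X2.card) (hY1 : b ≤ Y1.card) (hY2 : b ≤ Y2.card)
    (ha : a + 1 ≤ s + t) (hb : b + 1 ≤ s + t) (ha3 : L + 3 * s ≤ 3 * a)
    (hb3 : L + 3 * t ≤ 3 * b) (hst : s + t + 1 ≤ L) : Arcs9 X1 X2 Y1 Y2 s t := by
  classical
  set z := L - s - t with hz
  set w := (z + 2) / 2 with hw
  set Q := X1.filter (fun p => p + ((s - 1 : ℕ) : ZMod L) ∈ X2) with hQ
  set T1 := Finset.univ.filter (fun p : ZMod L => ∀ j, j < w → p + ((s + j : ℕ) : ZMod L) ∉ Y1)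
    with hT1
  set T2 := Finset.univ.filter (fun p : ZMod L => ∀ y ∈ Y2, ∀ j, j < w →
    y + ((1 + j : ℕ) : ZMod L) ≠ p) with hT2
  have hQc : 2 * a ≤ Q.card + L := by
    have hsub : Q ⊆ X1 := Finset.filter_subset _ _
    have h1 : X1.card = Q.card + (X1 \ Q).card := by
      rw [Finset.card_sdiff_of_subset hsub]
      have := Finset.card_le_card hsub
      omega
    have h2 : Disjoint ((X1 \ Q).image (fun p => p + ((s - 1 : ℕ) : ZMod L))) X2 := by
      rw [Finset.disjoint_left]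
      intro x hx hx2
      obtain ⟨p, hp, rfl⟩ := Finset.mem_image.1 hx
      rw [Finset.mem_sdiff] at hp
      exact hp.2 (Finset.mem_filter.2 ⟨hp.1, hx2⟩)
    have h3 := Finset.card_le_univ ((X1 \ Q).image (fun p => p + ((s - 1 : ℕ) : ZMod L)) ∪ X2)
    rw [Finset.card_union_of_disjoint h2, Finset.card_image_of_injective _ (add_left_injective _),
      ZMod.card] at h3
    omega
  have hT1c : T1.card = 0 ∨ T1.card + w + b ≤ L + 1 := by
    rcases Nat.eq_zero_or_pos T1.card with h0 | h0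
    · exact Or.inl h0
    · right
      by_contra hcon
      obtain ⟨p, hp, j, hj, hpj⟩ := sumset9 (A := T1) (B := Y1) (Finset.card_pos.1 h0)
        (Finset.card_pos.1 (by omega)) (w - 1) s (by omega)
      exact (Finset.mem_filter.1 hp).2 j (by omega) hpj
  have hT2c : T2.card = 0 ∨ T2.card + w + b ≤ L + 1 := by
    rcases Nat.eq_zero_or_pos T2.card with h0 | h0
    · exact Or.inl h0
    · right
      by_contra hcon
      obtain ⟨y, hy, j, hj, hyj⟩ := sumset9 (A := Y2) (B := T2) (Finset.card_pos.1 (by omega))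
        (Finset.card_pos.1 h0) (w - 1) 1 (by omega)
      exact (Finset.mem_filter.1 hyj).2 y hy j (by omega) rfl
  have hex : ∃ p ∈ Q, p ∉ T1 ∧ p ∉ T2 := by
    by_contra hcon
    push Not at hcon
    have h1 : Q ⊆ T1 ∪ T2 := by
      intro p hp
      rw [Finset.mem_union]
      by_cases h : p ∈ T1
      · exact Or.inl h
      · exact Or.inr (hcon p hp h)
    have h2 := (Finset.card_le_card h1).trans (Finset.card_union_le _ _)
    rcases hT1c with h3 | h3 <;> rcases hT2c with h4 | h4 <;> omega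
  obtain ⟨p, hp, hp1, hp2⟩ := hex
  obtain ⟨j, hj, hj1⟩ : ∃ j, j < w ∧ p + ((s + j : ℕ) : ZMod L) ∈ Y1 := by
    by_contra hcon
    push Not at hcon
    exact hp1 (Finset.mem_filter.2 ⟨Finset.mem_univ _, hcon⟩)
  obtain ⟨y, hy, i, hi, hyi⟩ : ∃ y ∈ Y2, ∃ i, i < w ∧ y + ((1 + i : ℕ) : ZMod L) = p := by
    by_contra hcon
    push Not at hcon
    exact hp2 (Finset.mem_filter.2 ⟨Finset.mem_univ _, hcon⟩)
  have hpQ := Finset.mem_filter.1 hp
  have hLw : 2 * w ≤ z + 2 := by omega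
  have e0 : ((L : ℕ) : ZMod L) = 0 := ZMod.natCast_self L
  refine ⟨p, s - 1, j, L - 1 - i - s - j, by omega, by omega, by omega, Or.inl ⟨hpQ.1, hpQ.2⟩,
    Or.inl ⟨?_, ?_⟩⟩
  · rw [show s - 1 + 1 + j = s + j by omega]
    exact hj1
  · rw [show s - 1 + 1 + j + (L - 1 - i - s - j) = L - (1 + i) by omega, ← hyi, add_assoc,
      ← Nat.cast_add, show 1 + i + (L - (1 + i)) = L by omega, e0, add_zero]
    exact hy

/-- **two disjoint arcs**, cycle of length `r` -/
theorem arcs9 {X1 X2 Y1 Y2 : Finset (ZMod L)} {s t a b : ℕ} (hs : 1 ≤ s) (ht : 1 ≤ t)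
    (hX1 : a ≤ X1.card) (hX2 : a ≤ X2.card) (hY1 : b ≤ Y1.card) (hY2 : b ≤ Y2.card)
    (ha3 : L + 3 * s ≤ 3 * a) (hb3 : L + 3 * t ≤ 3 * b) (hst : s + t + 1 ≤ L) :
    Arcs9 X1 X2 Y1 Y2 s t := by
  have hL : 0 < L := Nat.pos_of_ne_zero (NeZero.ne L)
  by_cases h1 : s + t ≤ b
  · exact plain9 hs ht hX1 hX2 hY1 hY2 (by omega) h1 (by omega)
  by_cases h2 : s + t ≤ a
  · exact (plain9 ht hs hY1 hY2 hX1 hX2 (by omega) (by omega) (by omega)).symm
  · exact large9 hs ht hX1 hX2 hY1 hY2 (by omega) (by omega) ha3 hb3 hst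

end Pool.Agent.P0
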