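import Pool.Agent.P0.Ends49
import Pool.Agent.FRC.Final
import Pool.Agent.FRC.CH.Main

set_option linter.all false

/-!
# P0: the glue of the full answer (more than `k r` vertices)
-/

namespace Pool.Agent.P0

open Pool.Agent.Helper14.LongCyc Pool.Agent.LCK Pool.Agent.FRC

universe u

/-- the statement for fixed `k`, `r` and at least `N` vertices -/
def T41 (k r N : ℕ) : Prop := ∀ {V : Type u} [DecidableEq V] (G : SimpleGraph V) (U : Finset V),
  N ≤ U.card → (∀ v ∈ U, 2 * k * r ≤ 3 * dg G U v) →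
    ∃ F, Fam G U (fun L => r ≤ L) F ∧ F.card = k

/-- item I3: the rest of an optimal family of `k - 1` cycles has more than `r` vertices -/
def IRest41 (k r : ℕ) : Prop := ∀ {V : Type u} [DecidableEq V] {G : SimpleGraph V} {U : Finset V}
  {F : Finset (Finset V)}, Opt49 G U r F → F.card + 1 = k → k * r + 1 ≤ U.card →
    (∀ v ∈ U, 2 * k * r ≤ 3 * dg G U v) → r + 1 ≤ (rest U F).card

/-- item I6: the longest path of the rest has at most `r` vertices -/
def ICaseII41 (k r : ℕ) : Prop := ∀ {V : Type u} [DecidableEq V] {G : SimpleGraph V}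
  {U : Finset V} {F : Finset (Finset V)} {w w' : V} {l : List V}, OptP49 G U r F w w' l →
    F.card + 1 = k → (∀ v ∈ U, 2 * k * r ≤ 3 * dg G U v) → l.length ≤ r →
    l.length < (rest U F).card → False

/-- items I2, I4: the longest path of the rest has at least `r + 1` vertices -/
def ICaseI41 (k r : ℕ) : Prop := ∀ {V : Type u} [DecidableEq V] {G : SimpleGraph V}
  {U : Finset V} {m : ℕ} {F : Finset (Finset V)} {v : ℕ → V}, OptV49 G U r m F v →
    (∀ F', Opt49 G U r F' → F'.card + 1 = k) → (∀ F', Opt49 G U r F' → r + 1 ≤ (rest U F').card) →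
    (∀ v ∈ U, 2 * k * r ≤ 3 * dg G U v) → r + 1 ≤ m → False

/-- the induction step -/
theorem step41 {k r : ℕ} (hk : 2 ≤ k) (hr : 3 ≤ r) (hT : T41.{u} k r (k * r + 1))
    (h3 : IRest41.{u} (k + 1) r) (h6 : ICaseII41.{u} (k + 1) r) (h4 : ICaseI41.{u} (k + 1) r) :
    T41.{u} (k + 1) r ((k + 1) * r + 1) := by
  intro V _ G U hU hdeg
  by_contra hcon
  push Not at hcon
  -- the number of members of an optimal family is exactly `k`
  obtain ⟨F1, hF1, hF1k⟩ := hT G U (by nlinarith) (fun v hv => by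
    have := hdeg v hv
    nlinarith)
  have hcard : ∀ F, Opt49 G U r F → F.card + 1 = k + 1 := by
    intro F hF
    have h1 := hF.max F1 hF1
    rcases Nat.lt_or_ge k F.card with h | h
    · exfalso
      obtain ⟨F', hs, hc⟩ := Finset.exists_subset_card_eq (s := F) (n := k + 1) h
      refine hcon F' ⟨fun s hs' => hF.fam.cyc s (hs hs'), fun s hs' => hF.fam.sub s (hs hs'),
        fun s hs' => hF.fam.len s (hs hs'), fun s hs' t ht hne => hF.fam.disj s (hs hs') t (hs ht)
          hne⟩ hc
    · omega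
  have hrest : ∀ F, Opt49 G U r F → r + 1 ≤ (rest U F).card := fun F hF =>
    h3 hF (hcard F hF) hU hdeg
  obtain ⟨m, F, v, hv⟩ := exists_optV49 (G := G) (U := U) (r := r) (fun F hF => by
    have := hrest F hF
    exact Finset.card_pos.1 (by omega))
  rcases Nat.lt_or_ge r m with hm | hm
  · exact h4 hv hcard hrest hdeg hm
  · have hl : (seg v 0 (m - 1)).length ≤ r := by
      rw [seg_length]
      have := hv.pos
      omega
    have := hrest F hv.opt
    exact h6 hv.toP (hcard F hv.opt) hdeg hl (by omega)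

/-- all `k ≥ 2` -/
theorem all41 {r : ℕ} (hr : 3 ≤ r) (h2 : T41.{u} 2 r (2 * r + 1))
    (h3 : ∀ k, 3 ≤ k → IRest41.{u} k r) (h6 : ∀ k, 3 ≤ k → ICaseII41.{u} k r)
    (h4 : ∀ k, 3 ≤ k → ICaseI41.{u} k r) : ∀ k, 2 ≤ k → T41.{u} k r (k * r + 1) := by
  intro k hk
  induction k, hk using Nat.le_induction with
  | base => exact h2
  | succ k hk ih => exact step41 hk hr ih (h3 _ (by omega)) (h6 _ (by omega)) (h4 _ (by omega))

/-- Corradi-Hajnal: `r = 3` -/
theorem three41 (k : ℕ) : T41.{u} k 3 (k * 3) := by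
  intro V _ G U hU hdeg
  exact CH G U k (by omega) fun v hv => by
    have := hdeg v hv
    omega

/-- the translation to walks -/
theorem walks41 {k r N : ℕ} (h : T41.{u} k r N) (V : Type u) [Fintype V] (G : SimpleGraph V)
    [DecidableRel G.Adj] (hcard : N ≤ Fintype.card V)
    (hdeg : (2 / 3 : ℝ) * k * r ≤ (G.minDegree : ℝ)) :
    ∃ (a : Fin k → V) (c : (i : Fin k) → G.Walk (a i) (a i)),
      (∀ i, (c i).IsCycle ∧ r ≤ (c i).length) ∧
      ∀ i j, i ≠ j → ∀ x, x ∈ (c i).support → x ∉ (c j).support := by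
  classical
  obtain ⟨F, hF, hFk⟩ := h G Finset.univ (by simpa using hcard) (by
    intro v _
    have h1 : G.minDegree ≤ G.degree v := G.minDegree_le_degree v
    have h2 : dg G Finset.univ v = G.degree v := by
      rw [dg_eq_card, ← SimpleGraph.card_neighborFinset_eq_degree]
      congr 1
      ext w
      simp
    rw [h2]
    have h3 : (G.minDegree : ℝ) ≤ (G.degree v : ℝ) := by exact_mod_cast h1
    have h4 : ((2 * k * r : ℕ) : ℝ) ≤ ((3 * G.degree v : ℕ) : ℝ) := by
      push_cast
      linarith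
    exact_mod_cast h4)
  exact hF.walks (fun n hn => hn) hFk

end Pool.Agent.P0
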