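import Pool.Agent.P0.End17
import Pool.Agent.P0.Glue41

set_option linter.all false

/-!
# P0: the items I2 for `r = 4` and `r = 5` in the form the glue needs
-/

namespace Pool.Agent.P0

open Pool.Agent.Helper14.LongCyc Pool.Agent.LCK Pool.Agent.FRC

universe u

theorem icaseI_four17 (k : ℕ) : ICaseI41.{u} k 4 := by
  intro V _ G U m F v h hc hrest hdeg hm
  exact h.no_four17 (hc F h.opt).le hdeg (by have := hrest F h.opt; omega)

theorem icaseI_five17 (k : ℕ) : ICaseI41.{u} k 5 := by
  intro V _ G U m F v h hc hrest hdeg hm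
  exact h.no_five17 (hc F h.opt).le hdeg (hrest F h.opt)

/-- for `r = 4, 5` the path spans the rest: item I6 -/
theorem icaseII_four_five17 (k : ℕ) {r : ℕ} (hr : 4 ≤ r) (hr5 : r ≤ 5) : ICaseII41.{u} k r := by
  intro V _ G U F w w' l h hc hdeg hl hlt
  obtain ⟨v, hv, -⟩ := h.toV
  have := hv.card17 hr hr5 hc.le hdeg
  omega

end Pool.Agent.P0
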