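import Pool.Agent.P0.Cls13
import Pool.Agent.P0.PieceII

set_option linter.all false

/-!
# P0, item I6: the case in which a longest path of the rest has at most `r` vertices
-/

namespace Pool.Agent.P0

open Pool.Agent.Helper14.LongCyc Pool.Agent.LCK

universe u

variable {V : Type u} {G : SimpleGraph V}

/-- the two demands -/
theorem DatII.demand [DecidableEq V] {U : Finset V} {k r : ℕ} {F : Finset (Finset V)} {w w' : V}
    {l : List V} {K : Finset V} (D : DatII G U r F w w' l K)
    (hdeg : ∀ v ∈ U, 2 * k * r ≤ 3 * dg G U v)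
    (hK : ∀ u ∈ K, dg G (rest U F) u = dg G K u) (hw : dg G (rest U F) w + 2 ≤ r) :
    2 * k * r + 6 ≤ 3 * ∑ C ∈ F, dg G C w + 3 * r ∧
    K.card * (2 * k * r) + 3 * K.card ≤
      3 * ∑ C ∈ F, ∑ u ∈ K, dg G C u + 3 * (K.card * K.card) := by
  classical
  have hwr := D.opt.sub w D.opt.path.head_mem
  constructor
  · have h1 := hdeg w (rest_subset _ _ hwr)
    rw [D.opt.opt.fam.dg_split] at h1
    omega
  · rw [Finset.sum_comm]
    have h1 : ∀ u ∈ K, 2 * k * r + 3 ≤ 3 * ∑ C ∈ F, dg G C u + 3 * K.card := by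
      intro u hu
      have h1 := hdeg u (rest_subset _ _ (D.sub hu))
      rw [D.opt.opt.fam.dg_split, hK u hu] at h1
      have h2 := dg_erase_self13 (G := G) K u
      have h3 := dg_le (G := G) (K.erase u) u
      have h4 := Finset.card_erase_of_mem hu
      have h5 := Finset.card_pos.2 ⟨u, hu⟩
      omega
    have h2 := Finset.card_nsmul_le_sum K _ _ h1
    rw [Finset.sum_add_distrib, ← Finset.mul_sum, Finset.sum_const, smul_eq_mul, smul_eq_mul] at h2
    nlinarith

/-- `r ≥ 8`, `k ≥ 3`: the linear inequality for one member -/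
theorem DatII.lin [DecidableEq V] {U : Finset V} {r : ℕ} {F : Finset (Finset V)} {w w' : V}
    {l : List V} {K : Finset V} (D : DatII G U r F w w' l K) (hr : 8 ≤ r) {C : Finset V}
    (hC : C ∈ F) {g gs : ℕ} (hg : g + K.card = r) (hgs : gs = max (g - 1) 1) :
    ((r : ℤ) - gs) * (K.card * dg G C w) + ((r : ℤ) - 2) * ((∑ u ∈ K, dg G C u : ℕ) : ℤ) ≤
      K.card * ((r : ℤ) ^ 2 - 2 * gs) := by
  have hq := D.q_ge
  have hlt := D.lt
  obtain ⟨h0, h1⟩ := D.cls hr hC hg hgs
  have hgr : gs + 3 ≤ r := by omega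
  set E := ∑ u ∈ K, dg G C u with hE
  set x := dg G C w with hx
  set q := K.card with hqd
  have hr' : (8 : ℤ) ≤ r := by exact_mod_cast hr
  have hgr' : (gs : ℤ) + 3 ≤ r := by exact_mod_cast hgr
  have hq0 : (0 : ℤ) < q := by
    have := D.five
    exact_mod_cast (by omega : 0 < q)
  have hgs1 : (1 : ℤ) ≤ gs := by
    have : 1 ≤ gs := by omega
    exact_mod_cast this
  have key : ∀ X Y : ℤ, (x : ℤ) ≤ X → (E : ℤ) ≤ q * Y →
      ((r : ℤ) - gs) * X + ((r : ℤ) - 2) * Y ≤ (r : ℤ) ^ 2 - 2 * gs →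
      ((r : ℤ) - gs) * (q * x) + ((r : ℤ) - 2) * (E : ℤ) ≤ q * ((r : ℤ) ^ 2 - 2 * gs) := by
    intro X Y hX hY hXY
    have a1 : ((r : ℤ) - gs) * (q * x) ≤ ((r : ℤ) - gs) * (q * X) :=
      mul_le_mul_of_nonneg_left (mul_le_mul_of_nonneg_left hX hq0.le) (by linarith)
    have a2 : ((r : ℤ) - 2) * (E : ℤ) ≤ ((r : ℤ) - 2) * (q * Y) :=
      mul_le_mul_of_nonneg_left hY (by linarith)
    have a3 := mul_le_mul_of_nonneg_left hXY hq0.le
    nlinarith
  rcases h1 with ⟨h1, h2⟩ | ⟨h1, h2⟩ | ⟨h1, h2⟩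
  · refine key r gs (by exact_mod_cast h1) (by exact_mod_cast h2) ?_
    nlinarith
  · rcases le_total gs 4 with h4 | h4
    · rw [max_eq_right h4] at h2
      refine key 4 4 (by exact_mod_cast h1) (by exact_mod_cast h2) ?_
      nlinarith
    · rw [max_eq_left h4] at h2
      refine key r gs ?_ (by exact_mod_cast h2) (by nlinarith)
      have : x ≤ r := by omega
      exact_mod_cast this
  · refine key 2 r (by exact_mod_cast h1) (by exact_mod_cast h2) ?_
    nlinarith

/-- the arithmetic of case II for `r ≥ 8`, `k ≥ 3` -/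
theorem arith13 {r gs q X E k g m : ℤ} (hr : 8 ≤ r) (hgs : gs + 3 ≤ r) (hgs1 : 1 ≤ gs)
    (hgg : gs ≤ g) (hg2 : 2 * gs ≤ r - 6 ∨ gs = 1) (hq : 0 < q) (hqr : q = r - g) (hk : 3 ≤ k)
    (hm : m ≤ k - 1) (d1 : 2 * k * r + 6 ≤ 3 * X + 3 * r)
    (d2 : q * (2 * k * r) + 3 * q ≤ 3 * E + 3 * (q * q))
    (h1 : (r - gs) * (q * X) + (r - 2) * E ≤ m * (q * (r ^ 2 - 2 * gs))) : False := by
  have a1 : 0 < r ^ 2 - 2 * gs := by nlinarith
  have a2 : m * (q * (r ^ 2 - 2 * gs)) ≤ (k - 1) * (q * (r ^ 2 - 2 * gs)) :=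
    mul_le_mul_of_nonneg_right hm (by positivity)
  have a3 : (r - gs) * (q * (2 * k * r + 6 - 3 * r)) ≤ (r - gs) * (q * (3 * X)) :=
    mul_le_mul_of_nonneg_left (mul_le_mul_of_nonneg_left (by linarith) hq.le) (by linarith)
  have a4 : (r - 2) * (q * (2 * k * r) + 3 * q - 3 * (q * q)) ≤ (r - 2) * (3 * E) :=
    mul_le_mul_of_nonneg_left (by linarith) (by linarith)
  have a5 : q * ((r - gs) * (2 * k * r + 6 - 3 * r) + (r - 2) * (2 * k * r + 3 - 3 * q)) ≤
      q * (3 * ((k - 1) * (r ^ 2 - 2 * gs))) := by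
    have f1 : q * ((r - gs) * (2 * k * r + 6 - 3 * r) + (r - 2) * (2 * k * r + 3 - 3 * q)) =
        (r - gs) * (q * (2 * k * r + 6 - 3 * r)) +
        (r - 2) * (q * (2 * k * r) + 3 * q - 3 * (q * q)) := by ring
    have f2 : q * (3 * ((k - 1) * (r ^ 2 - 2 * gs))) = 3 * ((k - 1) * (q * (r ^ 2 - 2 * gs))) := by
      ring
    have f3 : (r - gs) * (q * (3 * X)) = 3 * ((r - gs) * (q * X)) := by ring
    have f4 : (r - 2) * (3 * E) = 3 * ((r - 2) * E) := by ring
    rw [f1, f2]
    rw [f3] at a3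
    rw [f4] at a4
    linarith
  have a6 := le_of_mul_le_mul_left a5 hq
  have hslope : 0 ≤ r ^ 2 - 4 * r - 2 * gs * (r - 3) := by
    rcases hg2 with hg2 | hg2
    · nlinarith
    · rw [hg2]
      nlinarith
  have a7 : 0 ≤ (k - 3) * (r ^ 2 - 4 * r - 2 * gs * (r - 3)) := mul_nonneg (by linarith) hslope
  have a8 : 0 ≤ (r - 2) * (g - gs) := mul_nonneg (by linarith) (by linarith)
  rw [hqr] at a6
  have f5 : (r - gs) * (2 * k * r + 6 - 3 * r) + (r - 2) * (2 * k * r + 3 - 3 * (r - g)) -
      3 * ((k - 1) * (r ^ 2 - 2 * gs)) =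
      (k - 3) * (r ^ 2 - 4 * r - 2 * gs * (r - 3)) + 3 * ((r - 2) * (g - gs)) + 3 * (r - 2) := by
    ring
  linarith

/-- case II, `r ≥ 8` -/
theorem DatII.big [DecidableEq V] {U : Finset V} {k r : ℕ} {F : Finset (Finset V)} {w w' : V}
    {l : List V} {K : Finset V} (D : DatII G U r F w w' l K) (hr : 8 ≤ r) (hk2 : 2 ≤ k)
    (hk : F.card + 1 ≤ k) (hdeg : ∀ v ∈ U, 2 * k * r ≤ 3 * dg G U v)
    (hK : ∀ u ∈ K, dg G (rest U F) u = dg G K u) (hw : dg G (rest U F) w + 2 ≤ r) : False := by
  classical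
  obtain ⟨d1, d2⟩ := D.demand hdeg hK hw
  have hq := D.q_ge
  have hlt := D.lt
  obtain ⟨g, hg⟩ : ∃ g, g + K.card = r := ⟨r - K.card, by omega⟩
  obtain ⟨gs, hgs⟩ : ∃ gs, gs = max (g - 1) 1 := ⟨_, rfl⟩
  rcases Nat.lt_or_ge k 3 with hk3 | hk3
  · -- `k = 2`
    have hk' : k = 2 := by omega
    subst hk'
    rcases Nat.eq_zero_or_pos F.card with h0 | h0
    · rw [Finset.card_eq_zero.1 h0] at d1
      simp only [Finset.sum_empty] at d1
      omega
    · obtain ⟨C, hCF⟩ := Finset.card_eq_one.1 (by omega : F.card = 1)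
      have hC : C ∈ F := by rw [hCF]; exact Finset.mem_singleton_self C
      obtain ⟨h0, h1⟩ := D.cls hr hC hg hgs
      rw [hCF, Finset.sum_singleton] at d1 d2
      have hE : ∑ u ∈ K, dg G C u ≤ K.card * gs := by
        rcases h1 with h1 | h1 | h1
        · exact h1.2
        · exfalso; omega
        · exfalso; omega
      have h5 := D.five
      have h6 : K.card * (2 * 2 * r) + 3 * K.card ≤ 3 * (K.card * gs) + 3 * (K.card * K.card) := by
        omega
      have h7 : K.card * (2 * 2 * r + 3) ≤ K.card * (3 * gs + 3 * K.card) := by nlinarith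
      have h8 := Nat.le_of_mul_le_mul_left h7 (by omega)
      omega
  · -- `k ≥ 3`
    have h1 := Finset.sum_le_sum fun C hC => D.lin hr hC hg hgs
    rw [Finset.sum_add_distrib, ← Finset.mul_sum, ← Finset.mul_sum, ← Finset.mul_sum,
      Finset.sum_const, nsmul_eq_mul] at h1
    have e1 : (∑ C ∈ F, ((dg G C w : ℕ) : ℤ)) = ((∑ C ∈ F, dg G C w : ℕ) : ℤ) := by push_cast; rfl
    have e2 : (∑ C ∈ F, ((∑ u ∈ K, dg G C u : ℕ) : ℤ)) =
        ((∑ C ∈ F, ∑ u ∈ K, dg G C u : ℕ) : ℤ) := by push_cast; rfl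
    rw [e1, e2] at h1
    have h5 := D.five
    have hgr : gs + 3 ≤ r := by omega
    have hgs1 : 1 ≤ gs := by omega
    have hgg : gs ≤ g := by omega
    have hg2 : 2 * gs + 6 ≤ r ∨ gs = 1 := by omega
    have hg2' : 2 * (gs : ℤ) ≤ r - 6 ∨ (gs : ℤ) = 1 := by
      rcases hg2 with h | h
      · left
        have : ((2 * gs + 6 : ℕ) : ℤ) ≤ r := by exact_mod_cast h
        push_cast at this
        linarith
      · right
        exact_mod_cast h
    have hqr : (K.card : ℤ) = r - g := by
      have : ((g + K.card : ℕ) : ℤ) = r := by exact_mod_cast hg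
      push_cast at this
      linarith
    have hF : ((F.card : ℕ) : ℤ) ≤ (k : ℤ) - 1 := by
      have : ((F.card + 1 : ℕ) : ℤ) ≤ k := by exact_mod_cast hk
      push_cast at this
      linarith
    exact arith13 (X := ((∑ C ∈ F, dg G C w : ℕ) : ℤ)) (E := ((∑ C ∈ F, ∑ u ∈ K, dg G C u : ℕ) : ℤ))
      (by exact_mod_cast hr) (by exact_mod_cast hgr) (by exact_mod_cast hgs1)
      (by exact_mod_cast hgg) hg2' (by exact_mod_cast (by omega : 0 < K.card)) hqr
      (by exact_mod_cast hk3) hF (by exact_mod_cast d1) (by exact_mod_cast d2) h1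

/-- case II, `r = 6, 7`: the linear inequality -/
theorem DatII.linS [DecidableEq V] {U : Finset V} {r : ℕ} {F : Finset (Finset V)} {w w' : V}
    {l : List V} {K : Finset V} (D : DatII G U r F w w' l K) (hr : r ≤ 7) {C : Finset V}
    (hC : C ∈ F) : (r = 6 ∨ r = 7) ∧ K.card + 1 = r ∧
      (r * (r - 2)) * dg G C w + (r - 1) * ∑ u ∈ K, dg G C u ≤ r ^ 3 - r ^ 2 - r := by
  classical
  have hq := D.q_ge
  have hlt := D.lt
  have h5 := D.five
  have hr6 : r = 6 ∨ r = 7 := by omega
  have hqr : K.card + 1 = r := by omega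
  refine ⟨hr6, hqr, ?_⟩
  have hCr := D.opt.opt.fam.len C hC
  have hwr := D.opt.sub w D.opt.path.head_mem
  -- crude bound
  have crude : ∀ M, (∀ u ∈ K, dg G C u ≤ M) → ∑ u ∈ K, dg G C u ≤ K.card * M := fun M hM => by
    have := Finset.sum_le_card_nsmul _ _ _ hM
    rwa [smul_eq_mul] at this
  rcases Nat.lt_or_ge r C.card with hL | hL
  · have hx := D.opt.opt.outside (by omega) hC hL hwr
    have hE := crude _ fun u hu => D.opt.opt.outside (by omega) hC hL (D.sub hu)
    rcases hr6 with h | h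
    · subst h
      have : K.card = 5 := by omega
      rw [this] at hE
      norm_num at hx hE ⊢
      omega
    · subst h
      have : K.card = 6 := by omega
      rw [this] at hE
      norm_num at hx hE ⊢
      omega
  · have hCc : C.card = r := le_antisymm hL hCr
    rcases Nat.lt_or_ge (dg G C w) 2 with hx | hx
    · have hE := crude r fun u hu => by have := dg_le (G := G) C u; omega
      rcases hr6 with h | h
      · subst h
        have : K.card = 5 := by omega
        rw [this] at hE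
        norm_num at hE ⊢
        omega
      · subst h
        have : K.card = 6 := by omega
        rw [this] at hE
        norm_num at hE ⊢
        omega
    · have hx' := dg_le (G := G) C w
      have hE : ∑ u ∈ K, dg G C u ≤ r := by
        have e : ∑ u ∈ K, dg G C u = eS G C K := by
          rw [eS_comm]; rfl
        rw [e]
        unfold eS
        have h1 : ∀ z ∈ C, dg G K z ≤ 1 := by
          intro z hz
          by_contra hcon
          have h2 : 1 < (K.filter fun u => G.Adj z u).card := by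
            unfold dg at hcon
            have e3 : (Finset.filter (fun u => G.Adj z u) K).card =
              @Finset.card V (@Finset.filter V (fun u => G.Adj z u)
                (fun a => Classical.propDecidable _) K) := by congr
            rw [e3]; omega
          obtain ⟨u, hu, u', hu', hne⟩ := Finset.one_lt_card.1 h2
          rw [Finset.mem_filter] at hu hu'
          obtain ⟨c, hc, hs⟩ := D.opt.opt.fam.cyc C hC
          have hcard := card_of_list (Cyc.nodup hc) hs
          have h3 := hc.1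
          have hp : 0 < c.length := by omega
          obtain ⟨n, hn, rfl⟩ := exists_cf hp ((hs z).2 hz)
          have h4 := dg_seg13 (G := G) hp (C := C) (w := w) (n := n) (j := 0)
            fun z hz hwz => D.arcR hp hC hc hs (n := n) (j := 0) hu.1 hu'.1 hne (by omega) (by omega)
              (by omega) (by simpa using hu.2.symm) (by simpa using hu'.2.symm) hz hwz
          omega
        have h2 := Finset.sum_le_card_nsmul _ _ _ h1
        rw [smul_eq_mul, mul_one, hCc] at h2
        exact h2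
      rcases hr6 with h | h
      · subst h
        norm_num at hE ⊢
        omega
      · subst h
        norm_num at hE ⊢
        omega

/-- case II, `r ≤ 7` -/
theorem DatII.small [DecidableEq V] {U : Finset V} {k r : ℕ} {F : Finset (Finset V)} {w w' : V}
    {l : List V} {K : Finset V} (D : DatII G U r F w w' l K) (hr : r ≤ 7) (hk2 : 2 ≤ k)
    (hk : F.card + 1 ≤ k) (hdeg : ∀ v ∈ U, 2 * k * r ≤ 3 * dg G U v)
    (hK : ∀ u ∈ K, dg G (rest U F) u = dg G K u) (hw : dg G (rest U F) w + 2 ≤ r) : False := by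
  classical
  obtain ⟨d1, d2⟩ := D.demand hdeg hK hw
  have hq := D.q_ge
  have hlt := D.lt
  have hr6 : r = 6 ∨ r = 7 := by omega
  have h1 := Finset.sum_le_sum fun C hC => (D.linS hr hC).2.2
  rw [Finset.sum_add_distrib, ← Finset.mul_sum, ← Finset.mul_sum, Finset.sum_const,
    smul_eq_mul] at h1
  rcases hr6 with h | h
  · subst h
    have : K.card = 5 := by omega
    rw [this] at d2
    norm_num at h1 d1 d2
    omega
  · subst h
    have : K.card = 6 := by omega
    rw [this] at d2
    norm_num at h1 d1 d2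
    omega

/-- **Case II (item I6).**  If a longest path of the rest has at most `r` vertices, it spans the
rest. -/
theorem caseII [DecidableEq V] {U : Finset V} {k r : ℕ} (hr : 4 ≤ r) (hk2 : 2 ≤ k)
    {F : Finset (Finset V)} {w w' : V} {l : List V} (h : OptP49 G U r F w w' l)
    (hk : F.card + 1 ≤ k) (hdeg : ∀ v ∈ U, 2 * k * r ≤ 3 * dg G U v) (hm : l.length ≤ r)
    (hH : l.length < (rest U F).card) : False := by
  classical
  obtain ⟨K, k1, k2, k3, k4, k5, k6, k7⟩ := pieceII hr h hk hdeg hm hH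
  have h5 : 5 ≤ K.card := by
    obtain ⟨u, hu⟩ := k3
    have h1 := k5 u hu
    have h2 := dg_erase_self13 (G := G) K u
    have h3 := dg_le (G := G) (K.erase u) u
    have h4 := Finset.card_erase_of_mem hu
    omega
  have D : DatII G U r F w w' l K := ⟨h, k1, k2, h5, k4, k5⟩
  rcases Nat.lt_or_ge r 8 with h8 | h8
  · exact D.small (by omega) hk2 hk hdeg k6 k7
  · exact D.big h8 hk2 hk hdeg k6 k7

end Pool.Agent.P0
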