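import Pool.Agent.P0.TwoDefs49

set_option linter.all false

/-!
# P0, I4 section 5: two dense ends, the final count for `k ≥ 3`
-/

namespace Pool.Agent.P0

open Pool.Agent.Helper14.LongCyc Pool.Agent.LCK

universe u

variable {V : Type u} {G : SimpleGraph V}

/-- the sum of the degrees into a set `H` over a set `D` whose vertices see in `H` only `D` and two
more vertices -/
theorem sum_two97 [DecidableEq V] {H D : Finset V} {z x : V} (hz : z ∉ D) (hx : x ∉ D)
    (hn : ∀ u ∈ D, ∀ y ∈ H, G.Adj u y → y ∈ D ∨ y = z ∨ y = x) :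
    ∑ u ∈ D, dg G H u + D.card ≤ D.card * D.card + dg G D z + dg G D x := by
  classical
  have h1 : ∀ u ∈ D, dg G H u + 1 ≤ D.card + (if G.Adj u z then 1 else 0)
      + (if G.Adj u x then 1 else 0) := by
    intro u hu
    have hs : H.filter (fun y => G.Adj u y) ⊆ (D.erase u) ∪
        (({z} : Finset V).filter (fun y => G.Adj u y) ∪
        ({x} : Finset V).filter (fun y => G.Adj u y)) := by
      intro y hy
      rw [Finset.mem_filter] at hy
      rw [Finset.mem_union, Finset.mem_union, Finset.mem_filter, Finset.mem_filter,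
        Finset.mem_singleton, Finset.mem_singleton, Finset.mem_erase]
      rcases hn u hu y hy.1 hy.2 with h | h | h
      · exact Or.inl ⟨hy.2.ne', h⟩
      · exact Or.inr (Or.inl ⟨h, hy.2⟩)
      · exact Or.inr (Or.inr ⟨h, hy.2⟩)
    have h2 := Finset.card_le_card hs
    have h3 := Finset.card_union_le (D.erase u)
      (({z} : Finset V).filter (fun y => G.Adj u y) ∪ ({x} : Finset V).filter (fun y => G.Adj u y))
    have h4 := Finset.card_union_le (({z} : Finset V).filter (fun y => G.Adj u y))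
      (({x} : Finset V).filter (fun y => G.Adj u y))
    have h5 : (({z} : Finset V).filter (fun y => G.Adj u y)).card = if G.Adj u z then 1 else 0 := by
      rw [Finset.filter_singleton]; split_ifs <;> simp
    have h6 : (({x} : Finset V).filter (fun y => G.Adj u y)).card = if G.Adj u x then 1 else 0 := by
      rw [Finset.filter_singleton]; split_ifs <;> simp
    have h7 := Finset.card_erase_of_mem hu
    have h8 : 0 < D.card := Finset.card_pos.2 ⟨u, hu⟩
    have h9 : dg G H u = (H.filter (fun y => G.Adj u y)).card := by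
      unfold dg; congr
    omega
  have h2 := Finset.sum_le_sum h1
  rw [Finset.sum_add_distrib, Finset.sum_add_distrib, Finset.sum_add_distrib, Finset.sum_const,
    Finset.sum_const, smul_eq_mul, smul_eq_mul, mul_one] at h2
  have h3 : ∀ w : V, ∑ u ∈ D, (if G.Adj u w then 1 else 0) = dg G D w := by
    intro w
    unfold dg
    rw [Finset.card_filter]
    refine Finset.sum_congr rfl fun u _ => ?_
    simp only [G.adj_comm]
  rw [h3, h3] at h2
  exact h2

theorem TwoEnds49.side1 [DecidableEq V] {H : Finset V} {r : ℕ} {D₁ D₂ : Finset V} {z₁ z₂ x₀ : V}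
    (h : TwoEnds49 G H r D₁ D₂ z₁ z₂ x₀) :
    ∑ u ∈ D₁, dg G H u + D₁.card ≤ D₁.card * D₁.card + dg G D₁ z₁ + dg G D₁ x₀ :=
  sum_two97 h.z11 h.x01 h.nb1

theorem sum_one97 [DecidableEq V] {H D : Finset V} {z : V} (hz : z ∉ D)
    (hn : ∀ u ∈ D, ∀ y ∈ H, G.Adj u y → y ∈ D ∨ y = z) :
    ∑ u ∈ D, dg G H u + D.card ≤ D.card * D.card + dg G D z := by
  classical
  have h1 : ∀ u ∈ D, dg G H u + 1 ≤ D.card + (if G.Adj u z then 1 else 0) := by
    intro u hu
    have hs : H.filter (fun y => G.Adj u y) ⊆ (D.erase u) ∪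
        (({z} : Finset V).filter (fun y => G.Adj u y)) := by
      intro y hy
      rw [Finset.mem_filter] at hy
      rw [Finset.mem_union, Finset.mem_filter, Finset.mem_singleton, Finset.mem_erase]
      rcases hn u hu y hy.1 hy.2 with h | h
      · exact Or.inl ⟨hy.2.ne', h⟩
      · exact Or.inr ⟨h, hy.2⟩
    have h2 := Finset.card_le_card hs
    have h3 := Finset.card_union_le (D.erase u) (({z} : Finset V).filter (fun y => G.Adj u y))
    have h5 : (({z} : Finset V).filter (fun y => G.Adj u y)).card = if G.Adj u z then 1 else 0 := by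
      rw [Finset.filter_singleton]; split_ifs <;> simp
    have h7 := Finset.card_erase_of_mem hu
    have h8 : 0 < D.card := Finset.card_pos.2 ⟨u, hu⟩
    have h9 : dg G H u = (H.filter (fun y => G.Adj u y)).card := by
      unfold dg; congr
    omega
  have h2 := Finset.sum_le_sum h1
  rw [Finset.sum_add_distrib, Finset.sum_add_distrib, Finset.sum_const,
    Finset.sum_const, smul_eq_mul, smul_eq_mul, mul_one] at h2
  have h3 : ∑ u ∈ D, (if G.Adj u z then 1 else 0) = dg G D z := by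
    unfold dg
    rw [Finset.card_filter]
    refine Finset.sum_congr rfl fun u _ => ?_
    simp only [G.adj_comm]
  rw [h3] at h2
  exact h2

theorem TwoEnds49.side2 [DecidableEq V] {H : Finset V} {r : ℕ} {D₁ D₂ : Finset V} {z₁ z₂ x₀ : V}
    (h : TwoEnds49 G H r D₁ D₂ z₁ z₂ x₀) :
    ∑ u ∈ D₂, dg G H u + D₂.card ≤ D₂.card * D₂.card + dg G D₂ z₂ :=
  sum_one97 h.z22 h.nb2

/-- the pure count -/
theorem count97 {k r f L1 L2 a b S1 S2 Z1 Z2 X : ℕ} (hr : 6 ≤ r) (hk3 : 3 ≤ k) (hf : f + 1 ≤ k)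
    (h1 : L1 + 2 ≤ r) (h2 : L2 + 2 ≤ r) (h3 : 4 * r ≤ 3 * (L1 + L2)) (h4 : 4 ≤ L1) (h5 : 4 ≤ L2)
    (ha : a + L1 ≤ L1 * L1 + Z1 + X) (hb : b + L2 ≤ L2 * L2 + Z2) (hX : X < L1) (hZ1 : Z1 ≤ L1)
    (hZ2 : Z2 ≤ L2)
    (d1 : L1 * (2 * k * r) ≤ 3 * (a + S1)) (d2 : L2 * (2 * k * r) ≤ 3 * (b + S2))
    (s1 : 2 * (L2 * S1 + L1 * S2) + f * (L1 * L2 * (L1 + L2)) ≤ f * (L1 * L2 * (4 * r)))
    (s2 : (3 ≤ Z1 ∨ 3 ≤ Z2) →
      2 * (L2 * S1 + L1 * S2) + f * (L1 * L2 * (L1 + L2 + 1)) ≤ f * (L1 * L2 * (4 * r))) : False := by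
  -- everything over the integers
  zify at *
  set P : ℤ := (L1 : ℤ) * L2 with hP
  have hL1 : (4 : ℤ) ≤ L1 := h4
  have hL2 : (4 : ℤ) ≤ L2 := h5
  have hPpos : 0 < P := by positivity
  have e1 := mul_le_mul_of_nonneg_left d1 (show (0 : ℤ) ≤ 2 * L2 by positivity)
  have e2 := mul_le_mul_of_nonneg_left d2 (show (0 : ℤ) ≤ 2 * L1 by positivity)
  have e3 := mul_le_mul_of_nonneg_left ha (show (0 : ℤ) ≤ 6 * L2 by positivity)
  have e4 := mul_le_mul_of_nonneg_left hb (show (0 : ℤ) ≤ 6 * L1 by positivity)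
  have e5 : P * (8 * (k * r)) ≤ 6 * (L2 * a + L1 * b) + 3 * (2 * (L2 * S1 + L1 * S2)) := by
    have : P * (8 * ((k : ℤ) * r)) = 2 * L2 * (L1 * (2 * k * r)) + 2 * L1 * (L2 * (2 * k * r)) := by
      rw [hP]; ring
    linarith
  have e6 : 6 * (L2 * a + L1 * b) ≤ P * (6 * (L1 + L2) - 12) + 6 * (L2 * (Z1 + X) + L1 * Z2) := by
    have : P * (6 * ((L1 : ℤ) + L2) - 12) + 6 * (L2 * (Z1 + X) + L1 * Z2) =
        6 * L2 * (L1 * L1 + Z1 + X) + 6 * L1 * (L2 * L2 + Z2) - 6 * L2 * L1 - 6 * L1 * L2 := by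
      rw [hP]; ring
    linarith
  have e7 : (f : ℤ) * (P * (4 * r - (L1 + L2))) ≤ (k - 1) * (P * (4 * r - (L1 + L2))) := by
    have : (0 : ℤ) ≤ P * (4 * r - (L1 + L2)) := mul_nonneg hPpos.le (by linarith)
    exact mul_le_mul_of_nonneg_right (by linarith) this
  have e8 : (0 : ℤ) ≤ P * ((k - 3) * (3 * (L1 + L2) - 4 * r)) :=
    mul_nonneg hPpos.le (mul_nonneg (by linarith) (by linarith))
  have g1 : (L2 : ℤ) * X ≤ P - L2 := by
    have := mul_le_mul_of_nonneg_left (show (X : ℤ) ≤ L1 - 1 by linarith) (show (0 : ℤ) ≤ L2 by linarith)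
    have e : (L2 : ℤ) * (L1 - 1) = P - L2 := by rw [hP]; ring
    linarith
  -- first use
  have k1 : P * 12 ≤ 6 * (L2 * (Z1 + X) + L1 * Z2) := by
    have : (f : ℤ) * (P * (4 * r)) - f * (P * (L1 + L2)) = f * (P * (4 * r - (L1 + L2))) := by ring
    have e : ((k : ℤ) - 1) * (P * (4 * r - (L1 + L2))) * 3 =
      P * (8 * (k * r)) - (P * (6 * (L1 + L2) - 12)) - P * 12
        - P * ((k - 3) * (3 * (L1 + L2) - 4 * r)) := by ring
    linarith
  have hfull : 3 ≤ Z1 ∨ 3 ≤ Z2 := by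
    by_contra hcon
    push Not at hcon
    obtain ⟨c1, c2⟩ := hcon
    have c1' : (Z1 : ℤ) ≤ 2 := by omega
    have c2' : (Z2 : ℤ) ≤ 2 := by omega
    have c3 := mul_le_mul_of_nonneg_left c1' (show (0 : ℤ) ≤ L2 by linarith)
    have c4 := mul_le_mul_of_nonneg_left c2' (show (0 : ℤ) ≤ L1 by linarith)
    nlinarith
  have s2' := s2 (by omega)
  have e9 : (f : ℤ) * (P * (4 * r - (L1 + L2 + 1))) ≤ (k - 1) * (P * (4 * r - (L1 + L2 + 1))) := by
    have : (0 : ℤ) ≤ P * (4 * r - (L1 + L2 + 1)) := mul_nonneg hPpos.le (by linarith)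
    exact mul_le_mul_of_nonneg_right (by linarith) this
  have k2 : P * 12 + P * (3 * (k - 1)) ≤ 6 * (L2 * (Z1 + X) + L1 * Z2) := by
    have : (f : ℤ) * (P * (4 * r)) - f * (P * (L1 + L2 + 1)) = f * (P * (4 * r - (L1 + L2 + 1))) := by
      ring
    have e : ((k : ℤ) - 1) * (P * (4 * r - (L1 + L2 + 1))) * 3 =
      P * (8 * (k * r)) - (P * (6 * (L1 + L2) - 12)) - P * 12 - P * (3 * (k - 1))
        - P * ((k - 3) * (3 * (L1 + L2) - 4 * r)) := by ring
    linarith
  have g2 := mul_le_mul_of_nonneg_left hZ1 (show (0 : ℤ) ≤ L2 by linarith)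
  have g3 := mul_le_mul_of_nonneg_left hZ2 (show (0 : ℤ) ≤ L1 by linarith)
  have g4 : P * 6 ≤ P * (3 * (k - 1)) := mul_le_mul_of_nonneg_left (by linarith) hPpos.le
  have g5 : (L2 : ℤ) * L1 = P := by rw [hP]; ring
  have g6 : (L1 : ℤ) * L2 = P := hP.symm
  rw [g5] at g2
  rw [g6] at g3
  have g7 : (6 : ℤ) * (L2 * (Z1 + X) + L1 * Z2) = 6 * (L2 * Z1) + 6 * (L2 * X) + 6 * (L1 * Z2) := by
    ring
  linarith

/-- **I4, end**: two dense ends are impossible for `k ≥ 3`, given the average bounds -/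
theorem TwoEnds49.final [DecidableEq V] {U : Finset V} {k r : ℕ} (hr : 6 ≤ r) (hk3 : 3 ≤ k)
    {F : Finset (Finset V)} (hF : Opt49 G U r F) (hk : F.card + 1 ≤ k)
    (hdeg : ∀ v ∈ U, 2 * k * r ≤ 3 * dg G U v) {D₁ D₂ : Finset V} {z₁ z₂ x₀ : V}
    (h : TwoEnds49 G (rest U F) r D₁ D₂ z₁ z₂ x₀)
    (avg : ∀ C ∈ F, 2 * (D₂.card * (∑ u ∈ D₁, dg G C u) + D₁.card * (∑ v ∈ D₂, dg G C v))
      + D₁.card * D₂.card * (D₁.card + D₂.card) ≤ D₁.card * D₂.card * (4 * r))
    (avgf : (3 ≤ dg G D₁ z₁ ∨ 3 ≤ dg G D₂ z₂) → ∀ C ∈ F,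
      2 * (D₂.card * (∑ u ∈ D₁, dg G C u) + D₁.card * (∑ v ∈ D₂, dg G C v))
      + D₁.card * D₂.card * (D₁.card + D₂.card + 1) ≤ D₁.card * D₂.card * (4 * r)) : False := by
  classical
  have hp1 : 0 < D₁.card := by have := h.few; omega
  have hp2 : 0 < D₂.card := by have := h.size; have := h.le1; omega
  obtain ⟨u1, hu1⟩ := Finset.card_pos.1 hp1
  obtain ⟨u2, hu2⟩ := Finset.card_pos.1 hp2
  have hins : ∀ (D : Finset V) (z u : V), z ∉ D → u ∈ D → dg G (insert z D) u ≤ D.card := by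
    intro D z u hz hu
    have hs : (insert z D).filter (fun y => G.Adj u y) ⊆ insert z (D.erase u) := by
      intro y hy
      rw [Finset.mem_filter, Finset.mem_insert] at hy
      rw [Finset.mem_insert, Finset.mem_erase]
      rcases hy.1 with h | h
      · exact Or.inl h
      · exact Or.inr ⟨hy.2.ne', h⟩
    have h2 := Finset.card_le_card hs
    have h3 := Finset.card_insert_le z (D.erase u)
    have h4 := Finset.card_erase_of_mem hu
    have h5 : 0 < D.card := Finset.card_pos.2 ⟨u, hu⟩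
    have h6 : dg G (insert z D) u = ((insert z D).filter (fun y => G.Adj u y)).card := by
      unfold dg; congr
    omega
  have hL1 : 4 ≤ D₁.card := by
    have := h.deg1 u1 hu1
    have := hins D₁ z₁ u1 h.z11 hu1
    omega
  have hL2 : 4 ≤ D₂.card := by
    have := h.deg2 u2 hu2
    have := hins D₂ z₂ u2 h.z22 hu2
    omega
  have hdeg' : ∀ D : Finset V, D ⊆ U → D.card * (2 * k * r) ≤
      3 * (∑ u ∈ D, dg G (rest U F) u + ∑ C ∈ F, ∑ u ∈ D, dg G C u) := by
    intro D hD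
    have h1 : ∑ u ∈ D, (2 * k * r) ≤ ∑ u ∈ D, 3 * dg G U u :=
      Finset.sum_le_sum fun u hu => hdeg u (hD hu)
    rw [Finset.sum_const, smul_eq_mul, ← Finset.mul_sum] at h1
    refine h1.trans (le_of_eq ?_)
    congr 1
    rw [Finset.sum_comm, ← Finset.sum_add_distrib]
    refine Finset.sum_congr rfl fun u _ => ?_
    rw [hF.fam.dg_split]
  have hsum : ∀ x : ℕ, (∀ C ∈ F,
      2 * (D₂.card * (∑ u ∈ D₁, dg G C u) + D₁.card * (∑ v ∈ D₂, dg G C v))
      + D₁.card * D₂.card * x ≤ D₁.card * D₂.card * (4 * r)) →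
      2 * (D₂.card * (∑ C ∈ F, ∑ u ∈ D₁, dg G C u) + D₁.card * (∑ C ∈ F, ∑ v ∈ D₂, dg G C v))
      + F.card * (D₁.card * D₂.card * x) ≤ F.card * (D₁.card * D₂.card * (4 * r)) := by
    intro x hx
    have h1 := Finset.sum_le_sum hx
    rw [Finset.sum_add_distrib, ← Finset.mul_sum, Finset.sum_add_distrib, ← Finset.mul_sum,
      ← Finset.mul_sum, Finset.sum_const, Finset.sum_const, smul_eq_mul, smul_eq_mul] at h1
    exact h1
  exact count97 hr hk3 hk h.le1 h.le2 h.size hL1 hL2 h.side1 h.side2 h.few (dg_le _ _) (dg_le _ _)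
    (hdeg' D₁ (h.sub1.trans (rest_subset _ _))) (hdeg' D₂ (h.sub2.trans (rest_subset _ _)))
    (hsum _ avg) (fun hh => hsum _ (avgf hh))

end Pool.Agent.P0
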