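import Pool.Agent.P0.Piece49

set_option linter.all false

/-!
# P0, I4: the two ends are two dense closed pieces
-/

namespace Pool.Agent.P0

open Pool.Agent.Helper14.LongCyc Pool.Agent.LCK Pool.Agent.FRC

universe u

variable {V : Type u} [DecidableEq V] {G : SimpleGraph V}

/-! ### small facts -/

theorem dg_insert_self49 {K : Finset V} {x : V} (hx : x ∉ K) :
    dg G (insert x K) x = dg G K x := by
  classical
  rw [Finset.insert_eq, LCK.dg_union (Finset.disjoint_singleton_left.2 hx)]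
  have : dg G {x} x = 0 := by
    unfold dg
    rw [Finset.card_eq_zero, Finset.filter_eq_empty_iff]
    intro y hy hxy
    rw [Finset.mem_singleton] at hy
    subst hy
    exact G.loopless.irrefl _ hxy
  omega

theorem eS_insert49 {K : Finset V} {x : V} (hx : x ∉ K) :
    eS G (insert x K) (insert x K) = eS G K K + 2 * dg G K x := by
  classical
  rw [Finset.insert_eq, eS_self_union (Finset.disjoint_singleton_left.2 hx)]
  have h1 : eS G {x} {x} = 0 := by
    unfold eS
    rw [Finset.sum_singleton]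
    unfold dg
    rw [Finset.card_eq_zero, Finset.filter_eq_empty_iff]
    intro y hy hxy
    rw [Finset.mem_singleton] at hy
    subst hy
    exact G.loopless.irrefl _ hxy
  have h2 : eS G {x} K = dg G K x := by
    unfold eS
    rw [Finset.sum_singleton]
  omega

theorem dg_insert_le49 {K : Finset V} (x u : V) : dg G (insert x K) u ≤ dg G K u + 1 := by
  classical
  unfold dg
  rw [Finset.filter_insert]
  split_ifs
  · exact Finset.card_insert_le _ _
  · omega

/-- the vertex set of a piece -/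
def pc49 (v : ℕ → V) (s : ℕ) : Finset V := (Finset.range s).image v

theorem mem_pc49 {v : ℕ → V} {s : ℕ} {z : V} : z ∈ pc49 v s ↔ ∃ i, i < s ∧ z = v i := by
  unfold pc49
  rw [Finset.mem_image]
  constructor
  · rintro ⟨i, hi, rfl⟩
    exact ⟨i, by rw [Finset.mem_range] at hi; omega, rfl⟩
  · rintro ⟨i, hi, rfl⟩
    exact ⟨i, Finset.mem_range.2 (by omega), rfl⟩

theorem card_pc49 {U : Finset V} {m s : ℕ} {v : ℕ → V} (h : Pa G U m v) (hs : s ≤ m) :
    (pc49 v s).card = s := by
  unfold pc49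
  rw [Finset.card_image_of_injOn, Finset.card_range]
  intro i hi j hj hij
  rw [Finset.mem_coe, Finset.mem_range] at hi hj
  exact h.inj i j (by omega) (by omega) hij

/-- degrees in a piece -/
theorem Piece49.deg_le {U : Finset V} {r s : ℕ} {v : ℕ → V} (h : Piece49 G U r s v) {j : ℕ}
    (hj : j < s) : dg G U (v j) ≤ dg G (insert (v s) (pc49 v s)) (v j) := by
  classical
  unfold dg
  refine Finset.card_le_card fun z hz => ?_
  rw [Finset.mem_filter] at hz ⊢
  refine ⟨?_, hz.2⟩
  obtain ⟨i, hi, rfl⟩ := h.nb j hj z hz.1 hz.2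
  rcases Nat.lt_or_ge i s with h1 | h1
  · exact Finset.mem_insert_of_mem (mem_pc49.2 ⟨i, h1, rfl⟩)
  · have : i = s := by omega
    subst this
    exact Finset.mem_insert_self _ _

theorem Piece49.deg_le_s {U : Finset V} {r s m : ℕ} {v : ℕ → V} (h : Piece49 G U r s v)
    (hp : Pa G U m v) (hs : s < m) {j : ℕ} (hj : j < s) : dg G U (v j) ≤ s := by
  classical
  have h1 : dg G U (v j) ≤ ((insert (v s) (pc49 v s)).erase (v j)).card := by
    refine dg_le49 fun z hz hza => ?_
    obtain ⟨i, hi, rfl⟩ := h.nb j hj z hz hza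
    refine Finset.mem_erase.2 ⟨fun hh => ?_, ?_⟩
    · rw [hh] at hza
      exact G.loopless.irrefl _ hza
    · rcases Nat.lt_or_ge i s with h1 | h1
      · exact Finset.mem_insert_of_mem (mem_pc49.2 ⟨i, h1, rfl⟩)
      · have : i = s := by omega
        subst this
        exact Finset.mem_insert_self _ _
  have h2 : v j ∈ insert (v s) (pc49 v s) :=
    Finset.mem_insert_of_mem (mem_pc49.2 ⟨j, hj, rfl⟩)
  rw [Finset.card_erase_of_mem h2, Finset.card_insert_of_notMem, card_pc49 hp (by omega)] at h1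
  · omega
  · rw [mem_pc49]
    rintro ⟨i, hi, e⟩
    have := hp.inj s i (by omega) (by omega) e
    omega

section

variable {U : Finset V} {k r m : ℕ} {F : Finset (Finset V)} {v : ℕ → V}

/-- case N: all ends are dense -/
theorem caseN49 (h : OptV49 G U r m F v) (hr : 6 ≤ r) (hk : F.card + 1 ≤ k)
    (hdeg : ∀ v ∈ U, 2 * k * r ≤ 3 * dg G U v) (hm : r + 1 ≤ m)
    (hN : ∀ v', OptV49 G U r m F v' → r + 1 ≤ 2 * dg G (rest U F) (v' 0)) :
    ∃ D₁ D₂ z₁ z₂ x₀, TwoEnds49 G (rest U F) r D₁ D₂ z₁ z₂ x₀ := by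
  classical
  have hno := h.opt.noLong
  -- left piece
  obtain ⟨s1, v1, hs1, hp1, f1, f2, f3, P1⟩ := piece49 (G := G) (by omega : 4 ≤ r) h.pa
    (by omega : m - 1 < m) hno (by
      intro s hs v' hv' g1 g2 g3
      have hO := h.of_pa hv'
      refine ⟨fun z hz hza => ?_, hN v' hO⟩
      obtain ⟨j, j1, j2, j3, rfl⟩ := hO.nb (by omega) hz hza
      rcases Nat.lt_or_ge j s with h1 | h1
      · obtain ⟨j', hj', e⟩ := g2 j h1
        exact ⟨j', by omega, e⟩
      · exact ⟨j, by omega, g1 j h1⟩)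
  have hO1 := h.of_pa hp1
  have hlt1 := P1.lt
  have hlt3 := P1.three
  -- right piece
  have hpr := Pa.rev49 hp1
  obtain ⟨s2, v2, hs2, hp2, g1, g2, g3, P2⟩ := piece49 (G := G) (by omega : 4 ≤ r) hpr
    (by omega : m - 1 - s1 < m) hno (by
      intro s hs v' hv' g1 g2 g3
      have hO := h.of_pa hv'
      refine ⟨fun z hz hza => ?_, hN v' hO⟩
      obtain ⟨j, j1, j2, j3, rfl⟩ := hO.nb (by omega) hz hza
      rcases Nat.lt_or_ge (m - 1 - s1) j with h0 | h0
      · exfalso
        have e0 : v' (m - 1) = v1 0 := by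
          rw [g1 (m - 1) (by omega)]
          simp
        have e1 : v' (m - 1 - s1) = v1 s1 := by
          rw [g1 (m - 1 - s1) hs]
          show v1 (m - 1 - (m - 1 - s1)) = v1 s1
          rw [show m - 1 - (m - 1 - s1) = s1 by omega]
        have hends := hO.rev.ends hr hk hdeg hm
        refine hO.rev.no_cross (by omega) (by omega) (by omega) (i := m - 1 - j) (j := s1)
          (by omega) (by omega) ?_ ?_
        · show G.Adj (v' (m - 1 - (m - 1))) (v' (m - 1 - (m - 1 - j)))
          rw [show m - 1 - (m - 1) = 0 by omega, show m - 1 - (m - 1 - j) = j by omega]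
          exact hza
        · show G.Adj (v' (m - 1 - 0)) (v' (m - 1 - s1))
          rw [show m - 1 - 0 = m - 1 by omega, e0, e1]
          exact P1.adj
      · rcases Nat.lt_or_ge j s with h1 | h1
        · obtain ⟨j', hj', e⟩ := g2 j h1
          exact ⟨j', by omega, e⟩
        · exact ⟨j, h0, g1 j h1⟩)
  have hlt2 := P2.lt
  have hlt4 := P2.three
  have c1 : (pc49 v1 s1).card = s1 := card_pc49 hp1 (by omega)
  have c2 : (pc49 v2 s2).card = s2 := card_pc49 hp2 (by omega)
  -- the second piece along the first path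
  have k2 : ∀ j, j ≤ s2 → ∃ i, m - 1 - s2 ≤ i ∧ i < m ∧ v2 j = v1 i ∧ (j < s2 → s1 < i) := by
    intro j hj
    rcases Nat.lt_or_ge j s2 with h1 | h1
    · obtain ⟨j', hj', e⟩ := g2 j h1
      exact ⟨m - 1 - j', by omega, by omega, e, fun _ => by omega⟩
    · have : j = s2 := by omega
      subst this
      exact ⟨m - 1 - j, le_rfl, by omega, g1 j le_rfl, fun h => absurd h (by omega)⟩
  have hz2 : v2 s2 = v1 (m - 1 - s2) := g1 s2 le_rfl
  have far : ∀ j, j < s2 → ∀ i, i ≤ s1 → v2 j ≠ v1 i := by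
    intro j hj i hi hh
    obtain ⟨i', q1, q2, q3, q4⟩ := k2 j hj.le
    rw [q3] at hh
    have := hp1.inj i' i q2 (by omega) hh
    have := q4 hj
    omega
  refine ⟨pc49 v1 s1, pc49 v2 s2, v1 s1, v2 s2, v2 0, ?_⟩
  refine ⟨?_, ?_, hp1.mem _ (by omega), hp2.mem _ (by omega), ?_, ?_, ?_, ?_, ?_, ?_, by omega,
    by omega, ?_, ?_, ?_, ?_, ?_, ?_⟩
  · intro z hz
    obtain ⟨i, hi, rfl⟩ := mem_pc49.1 hz
    exact hp1.mem i (by omega)
  · intro z hz
    obtain ⟨i, hi, rfl⟩ := mem_pc49.1 hz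
    exact hp2.mem i (by omega)
  · rw [mem_pc49]
    rintro ⟨i, hi, e⟩
    have := hp1.inj s1 i (by omega) (by omega) e
    omega
  · rw [mem_pc49]
    rintro ⟨i, hi, e⟩
    exact far i hi s1 le_rfl e.symm
  · rw [mem_pc49]
    rintro ⟨i, hi, e⟩
    rw [hz2] at e
    have := hp1.inj _ i (by omega) (by omega) e
    omega
  · rw [mem_pc49]
    rintro ⟨i, hi, e⟩
    have := hp2.inj s2 i (by omega) (by omega) e
    omega
  · rw [mem_pc49]
    rintro ⟨i, hi, e⟩
    exact far 0 (by omega) i (by omega) e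
  · rw [Finset.disjoint_left]
    intro z hz hz'
    obtain ⟨i, hi, rfl⟩ := mem_pc49.1 hz
    obtain ⟨j, hj, e⟩ := mem_pc49.1 hz'
    exact far j hj i (by omega) e.symm
  · intro u hu y hy hya
    obtain ⟨j, hj, rfl⟩ := mem_pc49.1 hu
    obtain ⟨i, hi, rfl⟩ := P1.nb j hj y hy hya
    rcases Nat.lt_or_ge i s1 with h1 | h1
    · exact Or.inl (mem_pc49.2 ⟨i, h1, rfl⟩)
    · right; left
      rw [show i = s1 by omega]
  · intro u hu y hy hya
    obtain ⟨j, hj, rfl⟩ := mem_pc49.1 hu
    obtain ⟨i, hi, rfl⟩ := P2.nb j hj y hy hya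
    rcases Nat.lt_or_ge i s2 with h1 | h1
    · exact Or.inl (mem_pc49.2 ⟨i, h1, rfl⟩)
    · right
      rw [show i = s2 by omega]
  · intro u hu
    obtain ⟨j, hj, rfl⟩ := mem_pc49.1 hu
    have := P1.deg j hj
    have := P1.deg_le hj
    omega
  · intro u hu
    obtain ⟨j, hj, rfl⟩ := mem_pc49.1 hu
    have := P2.deg j hj
    have := P2.deg_le hj
    omega
  · have : dg G (pc49 v1 s1) (v2 0) = 0 := by
      unfold dg
      rw [Finset.card_eq_zero, Finset.filter_eq_empty_iff]
      intro y hy hxy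
      obtain ⟨j, hj, rfl⟩ := mem_pc49.1 hy
      obtain ⟨i, hi, e⟩ := P1.nb j hj _ (hp2.mem 0 (by omega)) hxy.symm
      exact far 0 (by omega) i hi e
    omega
  · have e3 := hO1.e3 hr hk hdeg hm
    have d0 := P1.deg_le_s hp1 (by omega) (by omega : 0 < s1)
    have d1 := P1.deg_le_s hp1 (by omega) (by omega : 1 < s1)
    obtain ⟨j0, q0, q1⟩ := g3 0 (by omega)
    obtain ⟨j1, q2, q3⟩ := g3 1 (by omega)
    rw [Nat.sub_zero] at q1
    rw [show m - 1 - 1 = m - 2 by omega] at q3
    have d2 := P2.deg_le_s hp2 (by omega) q0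
    have d3 := P2.deg_le_s hp2 (by omega) q2
    rw [← q1] at d2
    rw [← q3] at d3
    omega

/-- the swap of a sparse last vertex -/
theorem OptV49.swap (h : OptV49 G U r m F v) (hr : 4 ≤ r) (hk : F.card + 1 ≤ k)
    (hdeg : ∀ v ∈ U, 2 * k * r ≤ 3 * dg G U v) (hm : 2 ≤ m)
    (hα : 2 * dg G (rest U F) (v (m - 1)) + dg G (rest U F) (v 0) < 2 * r) :
    ∃ F' c v', OptV49 G U r m F' v' ∧ v' 0 = c ∧ (∀ i, v' (i + 1) = v i) ∧ c ∉ rest U F ∧
      F'.card = F.card ∧ rest U F' = insert c ((rest U F).erase (v (m - 1))) := by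
  classical
  have hx := h.pa.mem (m - 1) (by omega)
  have hw := h.pa.mem 0 (by omega)
  have hmem : ∃ C ∈ F, C.card = r ∧ 2 * r < 2 * dg G C (v (m - 1)) + dg G C (v 0) := by
    by_contra hcon
    push Not at hcon
    have h0 : ∀ C ∈ F, 2 * dg G C (v (m - 1)) + dg G C (v 0) ≤ 2 * r := by
      intro C hC
      have hCr := h.opt.fam.len C hC
      rcases Nat.lt_or_ge r C.card with h3 | h3
      · have h1 := h.opt.outside hr hC h3 hx
        have h2 := h.opt.outside hr hC h3 hw
        omega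
      · exact hcon C hC (le_antisymm h3 hCr)
    have h1 := hdeg _ (rest_subset _ _ hx)
    have h2 := hdeg _ (rest_subset _ _ hw)
    rw [h.opt.fam.dg_split] at h1 h2
    have h5 : ∑ C ∈ F, (2 * dg G C (v (m - 1)) + dg G C (v 0)) ≤ F.card * (2 * r) := by
      rw [← smul_eq_mul]
      exact Finset.sum_le_card_nsmul _ _ _ h0
    simp only [Finset.sum_add_distrib, ← Finset.mul_sum] at h5
    have h6 : F.card * (2 * r) + 2 * r ≤ 2 * (k * r) := by
      have : (F.card + 1) * r ≤ k * r := Nat.mul_le_mul_right r hk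
      nlinarith
    have h7 : 2 * k * r = 2 * (k * r) := by ring
    rw [h7] at h1 h2
    omega
  obtain ⟨C, hC, hCr, hbig⟩ := hmem
  have hxC : v (m - 1) ∉ C := (mem_rest.1 hx).2 C hC
  obtain ⟨c, hcC, hcw, hcyc⟩ := sandwich49 (h.opt.fam.cyc C hC) (by omega) hxC
    (by rw [hCr]; exact hbig)
  obtain ⟨o1, o2⟩ := h.opt.replace_same hC hcyc (by
    intro z hz
    rcases Finset.mem_insert.1 hz with hz | hz
    · rw [hz]; exact Finset.mem_union_right _ hx
    · exact Finset.mem_union_left _ (Finset.mem_of_mem_erase hz)) (by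
    rw [Finset.card_insert_of_notMem (fun hh => hxC (Finset.mem_of_mem_erase hh)),
      Finset.card_erase_of_mem hcC]
    omega)
  have hcr : c ∉ rest U F := fun hh => (mem_rest.1 hh).2 C hC hcC
  have hrest : rest U (insert (insert (v (m - 1)) (C.erase c)) (F.erase C))
      = insert c ((rest U F).erase (v (m - 1))) := by
    rw [o2]
    ext z
    simp only [Finset.mem_sdiff, Finset.mem_union, Finset.mem_insert, Finset.mem_erase]
    constructor
    · rintro ⟨h1 | h1, h2⟩
      · left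
        by_contra h3
        exact h2 (Or.inr ⟨h3, h1⟩)
      · exact Or.inr ⟨fun h3 => h2 (Or.inl h3), h1⟩
    · rintro (h1 | ⟨h1, h2⟩)
      · subst h1
        refine ⟨Or.inl hcC, ?_⟩
        rintro (h3 | h3)
        · exact hxC (h3 ▸ hcC)
        · exact h3.1 rfl
      · refine ⟨Or.inr h2, ?_⟩
        rintro (h3 | h3)
        · exact h1 h3
        · exact (mem_rest.1 h2).2 C hC h3.2
  obtain ⟨v', e0, e1⟩ : ∃ v' : ℕ → V, v' 0 = c ∧ ∀ i, v' (i + 1) = v i :=
    ⟨fun i => if i = 0 then c else v (i - 1), if_pos rfl, fun i => if_neg (by omega)⟩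
  have hval : ∀ i, i ≠ 0 → v' i = v (i - 1) := fun i hi => by
    have := e1 (i - 1)
    rwa [show i - 1 + 1 = i by omega] at this
  have hcard : (insert (insert (v (m - 1)) (C.erase c)) (F.erase C)).card = F.card := by
    apply le_antisymm
    · exact h.opt.max _ o1.fam
    · exact o1.max _ h.opt.fam
  refine ⟨_, c, v', ⟨o1, ⟨fun i hi => ?_, fun i j hi hj hij => ?_, fun i hi => ?_⟩, h.pos, h.max⟩,
    e0, e1, hcr, hcard, hrest⟩
  · rw [hrest]
    rcases Nat.eq_zero_or_pos i with h1 | h1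
    · rw [h1, e0]; exact Finset.mem_insert_self _ _
    · rw [hval i (by omega)]
      refine Finset.mem_insert_of_mem (Finset.mem_erase.2 ⟨fun hh => ?_, h.pa.mem _ (by omega)⟩)
      have := h.pa.inj _ _ (by omega) (by omega) hh
      omega
  · have hne : ∀ i, i < m → v i ≠ c := fun i hi hh => hcr (hh ▸ h.pa.mem i hi)
    rcases Nat.eq_zero_or_pos i with h1 | h1 <;> rcases Nat.eq_zero_or_pos j with h2 | h2
    · omega
    · rw [h1, e0, hval j (by omega)] at hij
      exact absurd hij.symm (hne _ (by omega))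
    · rw [h2, e0, hval i (by omega)] at hij
      exact absurd hij (hne _ (by omega))
    · rw [hval i (by omega), hval j (by omega)] at hij
      have := h.pa.inj _ _ (by omega) (by omega) hij
      omega
  · rw [e1 i]
    rcases Nat.eq_zero_or_pos i with h1 | h1
    · rw [h1, e0]; exact hcw.symm
    · rw [hval i (by omega)]
      have := h.pa.ch (i - 1) (by omega)
      rwa [show i - 1 + 1 = i by omega] at this

/-- case S: some end is sparse, and the number of edges of the rest is largest possible -/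
theorem caseS49 (h : OptV49 G U r m F v) (hr : 6 ≤ r) (hk : F.card + 1 ≤ k)
    (hdeg : ∀ v ∈ U, 2 * k * r ≤ 3 * dg G U v) (hm : r + 1 ≤ m)
    (hmax : ∀ F' v', OptV49 G U r m F' v' →
      eS G (rest U F') (rest U F') ≤ eS G (rest U F) (rest U F))
    (hα : 2 * dg G (rest U F) (v (m - 1)) ≤ r) :
    ∃ D₁ D₂ z₁ z₂ x₀, TwoEnds49 G (rest U F) r D₁ D₂ z₁ z₂ x₀ := by
  classical
  -- the dense piece
  obtain ⟨s2, v1, hs2, hp1, f1, f2, f3, P2⟩ := piece49 (G := G) (by omega : 4 ≤ r) h.pa
    (by omega : m - 1 < m) h.opt.noLong (by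
      intro s hs v' hv' g1 g2 g3
      have hO := h.of_pa hv'
      constructor
      · intro z hz hza
        obtain ⟨j, j1, j2, j3, rfl⟩ := hO.nb (by omega) hz hza
        rcases Nat.lt_or_ge j s with h1 | h1
        · obtain ⟨j', hj', e⟩ := g2 j h1
          exact ⟨j', by omega, e⟩
        · exact ⟨j, by omega, g1 j h1⟩
      · have := hO.ends hr hk hdeg hm
        rw [g1 (m - 1) hs] at this
        omega)
  have hO1 := h.of_pa hp1
  have hlt1 := P2.lt
  have hlt3 := P2.three
  have hx0 : v1 (m - 1) = v (m - 1) := f1 (m - 1) (by omega)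
  rw [← hx0] at hα
  have hd0 := P2.deg_le_s hp1 (by omega) (by omega : 0 < s2)
  have hd1 := P2.deg_le_s hp1 (by omega) (by omega : 1 < s2)
  -- the swap
  obtain ⟨F', c, v', hO', e0, e1, hcr, hcard, hrest⟩ := hO1.swap (by omega) hk hdeg (by omega)
    (by omega)
  have hk' : F'.card + 1 ≤ k := by omega
  have hxr := hp1.mem (m - 1) (by omega)
  set K := (rest U F).erase (v1 (m - 1)) with hK
  have hcK : c ∉ K := fun hh => hcr (Finset.mem_of_mem_erase hh)
  have hxK : v1 (m - 1) ∉ K := Finset.notMem_erase _ _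
  have hH : rest U F = insert (v1 (m - 1)) K := (Finset.insert_erase hxr).symm
  have hc1 : dg G (rest U F') c ≤ dg G (rest U F) (v1 (m - 1)) := by
    have := hmax F' v' hO'
    rw [hrest, eS_insert49 hcK, hH, eS_insert49 hxK] at this
    rw [hrest, hH, dg_insert_self49 hcK, dg_insert_self49 hxK]
    omega
  have hsub : ∀ z, z ∈ rest U F → z ≠ v1 (m - 1) → z ∈ rest U F' := fun z hz hne => by
    rw [hrest]; exact Finset.mem_insert_of_mem (Finset.mem_erase.2 ⟨hne, hz⟩)
  have hsub' : ∀ z, z ∈ rest U F' → z ≠ c → z ∈ rest U F := fun z hz hne => by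
    rw [hrest] at hz
    exact Finset.mem_of_mem_erase ((Finset.mem_insert.1 hz).resolve_left hne)
  -- the reversed path, starting in the other piece
  have hpl := Pa.rev49 hO'.pa
  have hvl : ∀ i, i ≤ m - 2 → (fun i => v' (m - 1 - i)) i = v1 (m - 2 - i) := fun i hi => by
    show v' (m - 1 - i) = v1 (m - 2 - i)
    rw [show m - 1 - i = m - 2 - i + 1 by omega, e1]
  have hvl' : (fun i => v' (m - 1 - i)) (m - 1) = c := by
    show v' (m - 1 - (m - 1)) = c
    rw [show m - 1 - (m - 1) = 0 by omega, e0]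
  set vl : ℕ → V := fun i => v' (m - 1 - i) with hvldef
  obtain ⟨s1, v2, hs1, hp2, g1, g2, g3, P1⟩ := piece49 (G := G) (by omega : 4 ≤ r) hpl
    (by omega : m - 2 - s2 < m) hO'.opt.noLong (by
      intro s hs w hw q1 q2 q3
      have hO := hO'.of_pa hw
      constructor
      · intro z hz hza
        obtain ⟨j, j1, j2, j3, rfl⟩ := hO.nb (by omega) hz hza
        rcases Nat.lt_or_ge (m - 2 - s2) j with h0 | h0
        · exfalso
          rw [q1 j (by omega), hvl j (by omega)] at hza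
          obtain ⟨i1, a1, a2, a3⟩ : ∃ i1, s2 < i1 ∧ i1 < m ∧ w 0 = v1 i1 := by
            rcases Nat.eq_zero_or_pos s with h1 | h1
            · refine ⟨m - 2, by omega, by omega, ?_⟩
              rw [q1 0 (by omega), hvl 0 (by omega), Nat.sub_zero]
            · obtain ⟨j', b1, b2⟩ := q2 0 h1
              refine ⟨m - 2 - j', by omega, by omega, ?_⟩
              rw [b2, hvl j' (by omega)]
          rw [a3] at hza
          obtain ⟨i2, b1, b2⟩ := P2.nb (m - 2 - j) (by omega) (v1 i1) (hp1.mem i1 a2) hza.symm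
          have := hp1.inj i1 i2 a2 (by omega) b2
          omega
        · rcases Nat.lt_or_ge j s with h1 | h1
          · obtain ⟨j', hj', e⟩ := q2 j h1
            exact ⟨j', by omega, e⟩
          · exact ⟨j, h0, q1 j h1⟩
      · have := hO.ends hr hk' hdeg hm
        rw [q1 (m - 1) (by omega), hvl'] at this
        omega)
  have hlt2 := P1.lt
  have hlt4 := P1.three
  have c1 : (pc49 v2 s1).card = s1 := card_pc49 hp2 (by omega)
  have c2 : (pc49 v1 s2).card = s2 := card_pc49 hp1 (by omega)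
  -- the first piece along the path `v1`
  have k2 : ∀ j, j < s1 → ∃ i, s2 < i ∧ i ≤ m - 2 ∧ v2 j = v1 i := by
    intro j hj
    obtain ⟨j', hj', e⟩ := g2 j hj
    exact ⟨m - 2 - j', by omega, by omega, e.trans (hvl j' (by omega))⟩
  have hz1 : v2 s1 = v1 (m - 2 - s1) := (g1 s1 le_rfl).trans (hvl s1 (by omega))
  have far : ∀ j, j < s1 → ∀ i, i ≤ s2 ∨ i = m - 1 → v2 j ≠ v1 i := by
    intro j hj i hi hh
    obtain ⟨i', q1, q2, q3⟩ := k2 j hj
    rw [q3] at hh
    have := hp1.inj i' i (by omega) (by omega) hh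
    omega
  have hds : ∀ j, j < s1 → dg G (rest U F') (v2 j) ≤ s1 := fun j hj =>
    P1.deg_le_s hp2 (by omega) hj
  have hdegH : ∀ u, dg G (rest U F) u ≤ dg G (rest U F') u + 1 := by
    intro u
    have h1 : dg G (rest U F) u ≤ dg G K u + 1 := by
      rw [hH]; exact dg_insert_le49 _ _
    have h2 : dg G K u ≤ dg G (rest U F') u := by
      refine dg_mono ?_ u
      rw [hrest]; exact Finset.subset_insert _ _
    omega
  have hdegH' : ∀ u, dg G (rest U F') u ≤ dg G (rest U F) u + 1 := by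
    intro u
    have h1 : dg G (rest U F') u ≤ dg G K u + 1 := by
      rw [hrest]; exact dg_insert_le49 _ _
    have h2 : dg G K u ≤ dg G (rest U F) u := dg_mono (Finset.erase_subset _ _) u
    omega
  refine ⟨pc49 v2 s1, pc49 v1 s2, v2 s1, v1 s2, v1 (m - 1), ?_⟩
  refine ⟨?_, ?_, ?_, hp1.mem _ (by omega), ?_, ?_, ?_, ?_, ?_, ?_, by omega,
    by omega, ?_, ?_, ?_, ?_, ?_, ?_⟩
  · intro z hz
    obtain ⟨i, hi, rfl⟩ := mem_pc49.1 hz
    obtain ⟨i', q1, q2, q3⟩ := k2 i hi
    rw [q3]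
    exact hp1.mem i' (by omega)
  · intro z hz
    obtain ⟨i, hi, rfl⟩ := mem_pc49.1 hz
    exact hp1.mem i (by omega)
  · rw [hz1]; exact hp1.mem _ (by omega)
  · rw [mem_pc49]
    rintro ⟨i, hi, e⟩
    have := hp2.inj s1 i (by omega) (by omega) e
    omega
  · rw [mem_pc49]
    rintro ⟨i, hi, e⟩
    rw [hz1] at e
    have := hp1.inj _ i (by omega) (by omega) e
    omega
  · rw [mem_pc49]
    rintro ⟨i, hi, e⟩
    exact far i hi s2 (Or.inl le_rfl) e.symm
  · rw [mem_pc49]
    rintro ⟨i, hi, e⟩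
    have := hp1.inj s2 i (by omega) (by omega) e
    omega
  · rw [mem_pc49]
    rintro ⟨i, hi, e⟩
    exact far i hi (m - 1) (Or.inr rfl) e.symm
  · rw [Finset.disjoint_left]
    intro z hz hz'
    obtain ⟨i, hi, rfl⟩ := mem_pc49.1 hz
    obtain ⟨j, hj, e⟩ := mem_pc49.1 hz'
    exact far i hi j (Or.inl hj.le) e
  · intro u hu y hy hya
    obtain ⟨j, hj, rfl⟩ := mem_pc49.1 hu
    by_cases hyx : y = v1 (m - 1)
    · exact Or.inr (Or.inr hyx)
    · obtain ⟨i, hi, rfl⟩ := P1.nb j hj y (hsub y hy hyx) hya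
      rcases Nat.lt_or_ge i s1 with h1 | h1
      · exact Or.inl (mem_pc49.2 ⟨i, h1, rfl⟩)
      · right; left
        rw [show i = s1 by omega]
  · intro u hu y hy hya
    obtain ⟨j, hj, rfl⟩ := mem_pc49.1 hu
    obtain ⟨i, hi, rfl⟩ := P2.nb j hj y hy hya
    rcases Nat.lt_or_ge i s2 with h1 | h1
    · exact Or.inl (mem_pc49.2 ⟨i, h1, rfl⟩)
    · right
      rw [show i = s2 by omega]
  · intro u hu
    obtain ⟨j, hj, rfl⟩ := mem_pc49.1 hu
    have := P1.deg j hj
    have := P1.deg_le hj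
    omega
  · intro u hu
    obtain ⟨j, hj, rfl⟩ := mem_pc49.1 hu
    have := P2.deg j hj
    have := P2.deg_le hj
    omega
  · have h1 : dg G (pc49 v2 s1) (v1 (m - 1)) ≤ dg G (rest U F) (v1 (m - 1)) := by
      refine dg_mono ?_ _
      intro z hz
      obtain ⟨i, hi, rfl⟩ := mem_pc49.1 hz
      obtain ⟨i', q1, q2, q3⟩ := k2 i hi
      rw [q3]
      exact hp1.mem i' (by omega)
    have h2 := P1.deg 0 (by omega)
    have h3 := hds 0 (by omega)
    omega
  · -- the two applications of (E3)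
    have a1 := hO1.e3 hr hk hdeg hm
    obtain ⟨j0, q0, q1⟩ := g3 0 (by omega)
    obtain ⟨j1, q2, q3⟩ := g3 1 (by omega)
    have b0 := hds j0 q0
    have b1 := hds j1 q2
    rw [← q1] at b0
    rw [← q3] at b1
    have a2 := hO'.e3 hr hk' hdeg hm
    have b2 : dg G (rest U F) (v1 (m - 2)) ≤ s1 + 1 := by
      have := hvl 0 (by omega)
      rw [Nat.sub_zero] at this
      rw [← this]
      exact (hdegH _).trans (by omega)
    have b3 : dg G (rest U F') (v' 1) ≤ s2 + 1 := by
      rw [e1 0]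
      exact (hdegH' _).trans (by omega)
    have b4 : vl 0 = v' (m - 1) := by show v' (m - 1 - 0) = v' (m - 1); rw [Nat.sub_zero]
    have b5 : vl 1 = v' (m - 2) := by
      show v' (m - 1 - 1) = v' (m - 2); rw [show m - 1 - 1 = m - 2 by omega]
    rw [b4] at b0
    rw [b5] at b1
    rw [e0] at a2
    omega

end

/-- **structure of the rest**: if every optimal family has at most `k - 1` members and a path with
at least `r + 1` vertices outside it, then some optimal family has two dense ends -/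
theorem exists_twoEnds49 {U : Finset V} {k r m : ℕ} (hr : 6 ≤ r)
    (hdeg : ∀ v ∈ U, 2 * k * r ≤ 3 * dg G U v) (hk : ∀ F, Opt49 G U r F → F.card + 1 ≤ k)
    (hm : r + 1 ≤ m) {F₀ : Finset (Finset V)} {v₀ : ℕ → V} (h₀ : OptV49 G U r m F₀ v₀) :
    ∃ F D₁ D₂ z₁ z₂ x₀, Opt49 G U r F ∧ TwoEnds49 G (rest U F) r D₁ D₂ z₁ z₂ x₀ := by
  classical
  obtain ⟨⟨F, v⟩, hO, hmax⟩ := exists_max_nat (α := Finset (Finset V) × (ℕ → V))
    (fun w => OptV49 G U r m w.1 w.2) (fun w => eS G (rest U w.1) (rest U w.1))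
    (U.card * U.card) (by
      intro w hw
      refine (eS_le _ _).trans (Nat.mul_le_mul ?_ ?_) <;>
        exact Finset.card_le_card (rest_subset _ _)) ⟨(F₀, v₀), h₀⟩
  simp only at hO hmax
  have hmax' : ∀ F' v', OptV49 G U r m F' v' →
      eS G (rest U F') (rest U F') ≤ eS G (rest U F) (rest U F) := fun F' v' h => hmax (F', v') h
  have hkF := hk F hO.opt
  by_cases hN : ∀ v', OptV49 G U r m F v' → r + 1 ≤ 2 * dg G (rest U F) (v' 0)
  · obtain ⟨D₁, D₂, z₁, z₂, x₀, h1⟩ := caseN49 hO hr hkF hdeg hm hN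
    exact ⟨F, D₁, D₂, z₁, z₂, x₀, hO.opt, h1⟩
  · push Not at hN
    obtain ⟨v', hv', hlt⟩ := hN
    obtain ⟨D₁, D₂, z₁, z₂, x₀, h1⟩ := caseS49 hv'.rev hr hkF hdeg hm hmax' (by
      show 2 * dg G (rest U F) (v' (m - 1 - (m - 1))) ≤ r
      rw [show m - 1 - (m - 1) = 0 by omega]
      omega)
    exact ⟨F, D₁, D₂, z₁, z₂, x₀, hO.opt, h1⟩

end Pool.Agent.P0
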