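import Pool.Agent.P0.Avg81
import Pool.Agent.P0.End97
import Pool.Agent.P0.Swap49
import Pool.Agent.P0.Glue41

set_option linter.all false

/-!
# P0, I4: end of case I for `k ≥ 3`, `r ≥ 6`
-/

namespace Pool.Agent.P0

open Pool.Agent.Helper14.LongCyc Pool.Agent.LCK Pool.Agent.FRC

universe u

theorem end81 {V : Type u} {G : SimpleGraph V} [DecidableEq V] {U : Finset V} {k r : ℕ}
    (hk : 3 ≤ k) (hr : 6 ≤ r) {F : Finset (Finset V)} (hF : Opt49 G U r F) (hc : F.card + 1 ≤ k)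
    (hdeg : ∀ v ∈ U, 2 * k * r ≤ 3 * dg G U v) {D₁ D₂ : Finset V} {z₁ z₂ x₀ : V}
    (h : TwoEnds49 G (rest U F) r D₁ D₂ z₁ z₂ x₀) : False :=
  h.final hr hk hF hc hdeg (fun C hC => h.avg81 hr hF hC)
    (fun h3 C hC => h.avg_full81 hr hF hC h3)

/-- **case I for `k ≥ 3` and `r ≥ 6`** -/
theorem caseI81 {k r : ℕ} (hk : 3 ≤ k) (hr : 6 ≤ r) : ICaseI41.{u} k r := by
  intro V _ G U m F v hO hcard hrest hdeg hm
  obtain ⟨F', D₁, D₂, z₁, z₂, x₀, h1, h2⟩ := exists_twoEnds49 hr hdeg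
    (fun F' hF' => (hcard F' hF').le) hm hO
  exact end81 hk hr h1 (hcard F' h1).le hdeg h2

end Pool.Agent.P0
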