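import Pool.Agent.P0.Two9A

set_option linter.all false

/-!
# P0 / I5: steps 1 and 2
-/

namespace Pool.Agent.P0

open Pool.Agent.Helper14.LongCyc Pool.Agent.LCK Pool.Agent.FRC

universe u

variable {V : Type u} {G : SimpleGraph V}

section

variable [DecidableEq V] {U C : Finset V} {r L m A : ℕ} {v : ℕ → V}

/-- the cycle as a cyclic list -/
theorem PV9.list (h : PV9 G U C L m v) : ∃ c : List V, Cyc G c ∧ (∀ z, z ∈ c ↔ z ∈ C) ∧
    c.length = L ∧ c.toFinset = C := by
  obtain ⟨c, hc, hs⟩ := h.cyc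
  have h1 := card_of_list (Cyc.nodup hc) hs
  refine ⟨c, hc, hs, by rw [← h1, h.card], ?_⟩
  ext z
  rw [List.mem_toFinset]
  exact hs z

theorem PV9.split (h : PV9 G U C L m v) (x : V) :
    dg G U x = dg G (U \ C) x + dg G C x := LCK.dg_split h.sub x

theorem PV9.notC (h : PV9 G U C L m v) {i : ℕ} (hi : i < m) : v i ∉ C :=
  (Finset.mem_sdiff.1 (h.pa.mem i hi)).2

theorem PV9.inU (h : PV9 G U C L m v) {i : ℕ} (hi : i < m) : v i ∈ U :=
  (Finset.mem_sdiff.1 (h.pa.mem i hi)).1

/-- a long cycle in the union of `C` and the first vertex of a path is not shorter than `C` -/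
theorem Ext9.shrink (E : Ext9 G U r L m A) (h : PV9 G U C L m v) (hr : 3 ≤ r) (hm : r + 1 ≤ m)
    {D : Finset V} (hD : CycSet G D) (hDs : D ⊆ insert (v 0) C) (hDr : r ≤ D.card) :
    L ≤ D.card := by
  have h1 := seg_pa49 h.pa (m - 2) 1 (by omega)
  refine E.minL D _ _ _ ⟨hD, ?_, hDr, h1, ?_, by rw [seg_length]; omega⟩
  · intro z hz
    rcases Finset.mem_insert.1 (hDs hz) with h2 | h2
    · rw [h2]; exact h.inU (by omega)
    · exact h.sub h2
  · intro z hz
    rw [mem_seg] at hz
    obtain ⟨j, j1, j2, rfl⟩ := hz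
    rw [Finset.mem_sdiff]
    refine ⟨h.inU (by omega), fun hh => ?_⟩
    rcases Finset.mem_insert.1 (hDs hh) with h2 | h2
    · have := h.pa.inj _ _ (by omega) (by omega) h2
      omega
    · exact h.notC (by omega) h2

theorem Ext9.out (E : Ext9 G U r L m A) (h : PV9 G U C L m v) (hr : 4 ≤ r) (hL : r < L)
    (hm : r + 1 ≤ m) : dg G C (v 0) ≤ (r + 1) / 2 := by
  refine LCK.outside hr h.cyc (by rw [h.card]; exact hL) (h.notC (by omega)) ?_
  intro D hD hDs hDr
  rw [h.card]
  exact E.shrink h (by omega) hm hD hDs hDr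

/-- no two neighbours on `C` of an end at a distance between `3` and `L - r + 2` -/
theorem Ext9.gap1 (E : Ext9 G U r L m A) (h : PV9 G U C L m v) (hr : 4 ≤ r) (hm : r + 1 ≤ m)
    {c : List V} (hc : Cyc G c) (hs : ∀ z, z ∈ c ↔ z ∈ C) (hcl : c.length = L)
    (hp : 0 < c.length) {n s : ℕ} (hs3 : 3 ≤ s) (hsr : s + r ≤ L + 2)
    (h1 : G.Adj (v 0) (cf c hp n)) (h2 : G.Adj (v 0) (cf c hp (n + s))) : False := by
  have hA := arc_pth hc hp (c.length - s) (n + s) (by omega)
  have e0 : cf c hp (n + s + (c.length - s)) = cf c hp n := by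
    apply cf_congr
    rw [show n + s + (c.length - s) = n + c.length by omega, Nat.add_mod_right]
  rw [e0] at hA
  have hv : v 0 ∉ c := fun hh => h.notC (i := 0) (by omega) ((hs _).1 hh)
  obtain ⟨e1, e2⟩ := joinSet hA (Pth.singleton (v 0)) (by
    intro z hz hz'
    rw [List.mem_singleton] at hz'
    exact hv (hz' ▸ arc_mem49 hp hz)) (by
    rw [seg_length]; simp only [List.length_singleton]; omega)
    (Or.inl ⟨h2.symm, h1.symm⟩)
  rw [seg_length, List.length_singleton] at e2
  have := E.shrink h (by omega) hm e1 (by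
    intro z hz
    rw [List.mem_toFinset, List.mem_append, List.mem_singleton] at hz
    rcases hz with hz | hz
    · exact Finset.mem_insert_of_mem ((hs z).1 (arc_mem49 hp hz))
    · rw [hz]; exact Finset.mem_insert_self _ _) (by rw [e2]; omega)
  rw [e2] at this
  omega

theorem Ext9.count (E : Ext9 G U r L m A) (h : PV9 G U C L m v) (hr : 5 ≤ r) (hL : r < L)
    (hm : r + 1 ≤ m) : (L - r + 5) * dg G C (v 0) ≤ 3 * L := by
  classical
  obtain ⟨c, hc, hs, hcl, hct⟩ := h.list
  have hp : 0 < c.length := by omega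
  have hcount := out_count (L := L) (r := r) hr hL (fun i => G.Adj (v 0) (cf c hp i))
    (by
      intro i
      have e1 : cf c hp (i + L) = cf c hp i := cf_congr hp (by rw [← hcl, Nat.add_mod_right])
      simp only [e1])
    (fun i s hs3 hsr h1 h2 => E.gap1 h (by omega) hm hc hs hcl hp hs3 hsr h1 h2)
  have hdI : dg G C (v 0) ≤ L.count fun i => G.Adj (v 0) (cf c hp i) := by
    rw [Nat.count_eq_card_filter_range]
    have : (C.filter fun u => G.Adj (v 0) u) ⊆
        ((Finset.range L).filter fun i => G.Adj (v 0) (cf c hp i)).image (cf c hp) := by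
      intro u hu
      rw [Finset.mem_filter] at hu
      obtain ⟨i, hi, rfl⟩ := exists_cf hp ((hs u).2 hu.1)
      rw [Finset.mem_image]
      exact ⟨i, by rw [Finset.mem_filter, Finset.mem_range]; exact ⟨by omega, hu.2⟩, rfl⟩
    rw [dg_eq_card]
    exact le_trans (Finset.card_le_card this) Finset.card_image_le
  exact (Nat.mul_le_mul_left _ hdI).trans hcount

/-- step 1, cycle length `r + 1`, one inequality -/
theorem Ext9.step1a (E : Ext9 G U r L m A) (h : PV9 G U C L m v) (hr : 4 ≤ r) (hL : L = r + 1)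
    (hm : r ≤ m) : 2 * dg G C (v 0) + dg G C (v (m - 1)) ≤ 2 * L := by
  classical
  obtain ⟨c, hc, hs, hcl, hct⟩ := h.list
  have hp : 0 < c.length := by omega
  haveI : NeZero c.length := ⟨by omega⟩
  have hvc : ∀ i, i < m → v i ∉ c := fun i hi hh => h.notC hi ((hs _).1 hh)
  have hloc : ∀ i : ZMod c.length, ind49 G c hp (v 0) (i - 1) + ind49 G c hp (v 0) (i + 2)
      + ind49 G c hp (v (m - 1)) i ≤ 2 := by
    intro i
    have l1 := ind_le49 (G := G) hp (v 0) (i - 1)
    have l2 := ind_le49 (G := G) hp (v 0) (i + 2)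
    have l3 := ind_le49 (G := G) hp (v (m - 1)) i
    by_contra hne
    have k1 : ind49 G c hp (v 0) (i - 1) = 1 := by omega
    have k2 : ind49 G c hp (v 0) (i + 2) = 1 := by omega
    have k3 : ind49 G c hp (v (m - 1)) i = 1 := by omega
    obtain ⟨n, hn⟩ : ∃ n : ℕ, i - 1 = ((n : ℕ) : ZMod c.length) :=
      ⟨(i - 1).val, (ZMod.natCast_zmod_val _).symm⟩
    have hi : i = ((n + 1 : ℕ) : ZMod c.length) := by
      push_cast
      rw [← hn]; ring
    have hi' : i + 2 = ((n + 3 : ℕ) : ZMod c.length) := by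
      push_cast
      rw [← hn]; ring
    rw [ind_nat49 hp n hn] at k1
    rw [ind_nat49 hp (n + 3) hi'] at k2
    rw [ind_nat49 hp (n + 1) hi] at k3
    have hA := arc_pth hc hp (c.length - 3) (n + 3) (by omega)
    have e0 : cf c hp (n + 3 + (c.length - 3)) = cf c hp n := by
      apply cf_congr
      rw [show n + 3 + (c.length - 3) = n + c.length by omega, Nat.add_mod_right]
    rw [e0] at hA
    have key : ∀ z ∈ seg (cf c hp) (n + 3) (c.length - 3), z ≠ cf c hp (n + 1) := by
      intro z hz hzz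
      rw [mem_seg] at hz
      obtain ⟨j, j1, j2, j3⟩ := hz
      rw [hzz, show j = n + (j - n) by omega] at j3
      exact far49 hc hp n (s := 1) (t := j - n) (by omega) (by omega) j3
    obtain ⟨e1, e2⟩ := joinSet hA (Pth.singleton (v 0)) (by
      intro z hz hz'
      rw [List.mem_singleton] at hz'
      exact hvc 0 (by omega) (hz' ▸ arc_mem49 hp hz)) (by
      rw [seg_length]; simp only [List.length_singleton]; omega)
      (Or.inl ⟨k2.symm, k1.symm⟩)
    rw [seg_length, List.length_singleton] at e2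
    have h1 := seg_pa49 h.pa (m - 2) 1 (by omega)
    rw [show 1 + (m - 2) = m - 1 by omega] at h1
    have h2 := h1.concat k3 (by
      intro hh
      rw [mem_seg] at hh
      obtain ⟨j, j1, j2, j3⟩ := hh
      exact hvc j (by omega) (j3 ▸ cf_mem hp _))
    have h3 := E.minL _ _ _ _ ⟨e1, ?_, by rw [e2]; omega, h2, ?_, by
      rw [List.length_append, seg_length, List.length_singleton]; omega⟩
    · rw [e2] at h3
      omega
    · intro z hz
      rw [List.mem_toFinset, List.mem_append, List.mem_singleton] at hz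
      rcases hz with hz | hz
      · exact h.sub ((hs z).1 (arc_mem49 hp hz))
      · rw [hz]; exact h.inU (by omega)
    · intro z hz
      rw [Finset.mem_sdiff, List.mem_toFinset, List.mem_append, List.mem_singleton]
      rw [List.mem_append, List.mem_singleton] at hz
      rcases hz with hz | hz
      · rw [mem_seg] at hz
        obtain ⟨j, j1, j2, rfl⟩ := hz
        refine ⟨h.inU (by omega), ?_⟩
        rintro (hh | hh)
        · exact hvc j (by omega) (arc_mem49 hp hh)
        · have := h.pa.inj _ _ (by omega) (by omega) hh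
          omega
      · rw [hz]
        refine ⟨h.sub ((hs _).1 (cf_mem hp _)), ?_⟩
        rintro (hh | hh)
        · exact key _ hh rfl
        · exact hvc 0 (by omega) (hh ▸ cf_mem hp _)
  have hsum : ∑ i, (ind49 G c hp (v 0) (i - 1) + ind49 G c hp (v 0) (i + 2)
      + ind49 G c hp (v (m - 1)) i) ≤ ∑ _i : ZMod c.length, 2 :=
    Finset.sum_le_sum fun i _ => hloc i
  have hn := Cyc.nodup hc
  have hsh : ∑ i, ind49 G c hp (v 0) (i + 2) = ∑ i, ind49 G c hp (v 0) i :=
    Equiv.sum_comp (Equiv.addRight (2 : ZMod c.length)) (ind49 G c hp (v 0))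
  rw [Finset.sum_add_distrib, Finset.sum_add_distrib, shiftN49, hsh,
    sum_ind49 hp hn, sum_ind49 hp hn, hct, Finset.sum_const, Finset.card_univ, ZMod.card,
    smul_eq_mul] at hsum
  omega

/-- exchange: the cycle `C - c_i + v_0` and the path `v_1, …, v_(m-1), c_i` -/
theorem Ext9.exch (E : Ext9 G U r L m A) (h : PV9 G U C L m v) (hr : 4 ≤ r) (hL : L = r)
    (hm : r ≤ m) (hpos : 2 * r < 2 * dg G C (v 0) + dg G C (v (m - 1))) :
    ∃ (C' : Finset V) (w : ℕ → V) (S : ℕ), PV9 G U C' L m w ∧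
      2 * dg G C (v 0) + dg G C (v (m - 1)) ≤ S + 2 * r ∧
      dg G C' (w 0) + S ≤ r + 1 ∧ dg G C' (w (m - 1)) ≤ r := by
  classical
  obtain ⟨c, hc, hs, hcl, hct⟩ := h.list
  have hp : 0 < c.length := by omega
  haveI : NeZero c.length := ⟨by omega⟩
  have hn := Cyc.nodup hc
  have hvc : ∀ i, i < m → v i ∉ c := fun i hi hh => h.notC hi ((hs _).1 hh)
  set T := (Finset.univ : Finset (ZMod c.length)).filter fun i =>
    ind49 G c hp (v 0) (i - 1) = 1 ∧ ind49 G c hp (v 0) (i + 1) = 1 ∧
      ind49 G c hp (v (m - 1)) i = 1 with hT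
  -- the arc around a member of `T`
  have harc : ∀ i ∈ T, ∃ n : ℕ, i = ((n + 1 : ℕ) : ZMod c.length) ∧
      G.Adj (v 0) (cf c hp n) ∧ G.Adj (v 0) (cf c hp (n + 2)) ∧
      G.Adj (v (m - 1)) (cf c hp (n + 1)) := by
    intro i hi
    obtain ⟨_, k1, k2, k3⟩ := Finset.mem_filter.1 hi
    obtain ⟨n, hn⟩ : ∃ n : ℕ, i - 1 = ((n : ℕ) : ZMod c.length) :=
      ⟨(i - 1).val, (ZMod.natCast_zmod_val _).symm⟩
    have hi1 : i = ((n + 1 : ℕ) : ZMod c.length) := by
      push_cast
      rw [← hn]; ring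
    have hi' : i + 1 = ((n + 2 : ℕ) : ZMod c.length) := by
      push_cast
      rw [← hn]; ring
    rw [ind_nat49 hp n hn] at k1
    rw [ind_nat49 hp (n + 2) hi'] at k2
    rw [ind_nat49 hp (n + 1) hi1] at k3
    exact ⟨n, hi1, k1, k2, k3⟩
  have hmain : ∀ n : ℕ, G.Adj (v 0) (cf c hp n) → G.Adj (v 0) (cf c hp (n + 2)) →
      ∃ D : Finset V, CycSet G D ∧ D.card = L ∧ D ⊆ insert (v 0) C ∧ v 0 ∈ D ∧
        cf c hp (n + 1) ∉ D := by
    intro n k1 k2
    have hA := arc_pth hc hp (c.length - 2) (n + 2) (by omega)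
    have e0 : cf c hp (n + 2 + (c.length - 2)) = cf c hp n := by
      apply cf_congr
      rw [show n + 2 + (c.length - 2) = n + c.length by omega, Nat.add_mod_right]
    rw [e0] at hA
    have key : ∀ z ∈ seg (cf c hp) (n + 2) (c.length - 2), z ≠ cf c hp (n + 1) := by
      intro z hz hzz
      rw [mem_seg] at hz
      obtain ⟨j, j1, j2, j3⟩ := hz
      rw [hzz, show j = n + (j - n) by omega] at j3
      exact far49 hc hp n (s := 1) (t := j - n) (by omega) (by omega) j3
    obtain ⟨e1, e2⟩ := joinSet hA (Pth.singleton (v 0)) (by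
      intro z hz hz'
      rw [List.mem_singleton] at hz'
      exact hvc 0 (by omega) (hz' ▸ arc_mem49 hp hz)) (by
      rw [seg_length]; simp only [List.length_singleton]; omega)
      (Or.inl ⟨k2.symm, k1.symm⟩)
    rw [seg_length, List.length_singleton] at e2
    refine ⟨_, e1, by rw [e2]; omega, ?_, ?_, ?_⟩
    · intro z hz
      rw [List.mem_toFinset, List.mem_append, List.mem_singleton] at hz
      rcases hz with hz | hz
      · exact Finset.mem_insert_of_mem ((hs z).1 (arc_mem49 hp hz))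
      · rw [hz]; exact Finset.mem_insert_self _ _
    · rw [List.mem_toFinset, List.mem_append, List.mem_singleton]
      exact Or.inr rfl
    · rw [List.mem_toFinset, List.mem_append, List.mem_singleton]
      rintro (hh | hh)
      · exact key _ hh rfl
      · exact hvc 0 (by omega) (hh ▸ cf_mem hp _)
  have hpath := seg_pa49 h.pa (m - 2) 1 (by omega)
  rw [show 1 + (m - 2) = m - 1 by omega] at hpath
  have hpc : ∀ n : ℕ, cf c hp n ∉ seg v 1 (m - 2) := by
    intro n hh
    rw [mem_seg] at hh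
    obtain ⟨j, j1, j2, j3⟩ := hh
    exact hvc j (by omega) (j3 ▸ cf_mem hp _)
  -- sums
  have hsum : 2 * dg G C (v 0) + dg G C (v (m - 1)) ≤ T.card + 2 * r := by
    have hle : ∑ i, (ind49 G c hp (v 0) (i - 1) + ind49 G c hp (v 0) (i + 1)
        + ind49 G c hp (v (m - 1)) i) ≤
        ∑ i : ZMod c.length, ((if i ∈ T then 1 else 0) + 2) := by
      refine Finset.sum_le_sum fun i _ => ?_
      have l1 := ind_le49 (G := G) hp (v 0) (i - 1)
      have l2 := ind_le49 (G := G) hp (v 0) (i + 1)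
      have l3 := ind_le49 (G := G) hp (v (m - 1)) i
      split_ifs with hiT
      · omega
      · by_contra hne
        exact hiT (Finset.mem_filter.2 ⟨Finset.mem_univ _, by omega, by omega, by omega⟩)
    rw [Finset.sum_add_distrib, Finset.sum_add_distrib, shiftN49,
      shift49 (ind49 G c hp (v 0)), sum_ind49 hp hn, sum_ind49 hp hn, hct,
      Finset.sum_add_distrib, Finset.sum_ite_mem, Finset.univ_inter, Finset.sum_const,
      Finset.sum_const, Finset.card_univ, ZMod.card, smul_eq_mul, smul_eq_mul] at hle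
    omega
  have hTpos : 0 < T.card := by omega
  obtain ⟨i0, hi0⟩ := Finset.card_pos.1 hTpos
  obtain ⟨n, hin, k1, k2, k3⟩ := harc i0 hi0
  -- the second vertex of the path has no neighbour in `T`
  have hp2 : ∀ i ∈ T, ind49 G c hp (v 1) i = 0 := by
    intro i hi
    obtain ⟨n', hi', q1, q2, q3⟩ := harc i hi
    have l := ind_le49 (G := G) hp (v 1) i
    by_contra hne
    have q4 : ind49 G c hp (v 1) i = 1 := by omega
    rw [ind_nat49 hp (n' + 1) hi'] at q4
    obtain ⟨D, D1, D2, D3, D4, D5⟩ := hmain n' q1 q2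
    obtain ⟨e1, e2⟩ := joinSet hpath (Pth.singleton (cf c hp (n' + 1))) (by
      intro z hz hz'
      rw [List.mem_singleton] at hz'
      exact hpc _ (hz' ▸ hz)) (by
      rw [seg_length]; simp only [List.length_singleton]; omega)
      (Or.inl ⟨q4, q3⟩)
    rw [seg_length, List.length_singleton] at e2
    refine E.two ⟨D, _, D1, e1, ?_, ?_, by omega, by rw [e2]; omega, ?_⟩
    · intro z hz
      rcases Finset.mem_insert.1 (D3 hz) with hz | hz
      · rw [hz]; exact h.inU (by omega)
      · exact h.sub hz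
    · intro z hz
      rw [List.mem_toFinset, List.mem_append, List.mem_singleton, mem_seg] at hz
      rcases hz with ⟨j, j1, j2, rfl⟩ | hz
      · exact h.inU (by omega)
      · rw [hz]; exact h.sub ((hs _).1 (cf_mem hp _))
    · rw [Finset.disjoint_left]
      intro z hz hz'
      rw [List.mem_toFinset, List.mem_append, List.mem_singleton, mem_seg] at hz'
      rcases hz' with ⟨j, j1, j2, rfl⟩ | hz'
      · rcases Finset.mem_insert.1 (D3 hz) with hz | hz
        · have := h.pa.inj _ _ (by omega) (by omega) hz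
          omega
        · exact h.notC (by omega) hz
      · exact D5 (hz' ▸ hz)
  have hcard2 : dg G C (v 1) + T.card ≤ r := by
    have hle : ∑ i, (ind49 G c hp (v 1) i + (if i ∈ T then 1 else 0)) ≤
        ∑ _i : ZMod c.length, 1 := by
      refine Finset.sum_le_sum fun i _ => ?_
      have l1 := ind_le49 (G := G) hp (v 1) i
      split_ifs with hiT
      · have := hp2 i hiT
        omega
      · omega
    rw [Finset.sum_add_distrib, sum_ind49 hp hn, hct, Finset.sum_ite_mem, Finset.univ_inter,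
      Finset.sum_const, Finset.sum_const, Finset.card_univ, ZMod.card, smul_eq_mul,
      smul_eq_mul] at hle
    omega
  -- the new pair
  obtain ⟨D, D1, D2, D3, D4, D5⟩ := hmain n k1 k2
  have hnew := hpath.concat k3 (hpc _)
  have hmem : ∀ z ∈ seg v 1 (m - 2) ++ [cf c hp (n + 1)], z ∈ U \ D := by
    intro z hz
    rw [List.mem_append, List.mem_singleton, mem_seg] at hz
    rw [Finset.mem_sdiff]
    rcases hz with ⟨j, j1, j2, rfl⟩ | hz
    · refine ⟨h.inU (by omega), fun hh => ?_⟩
      rcases Finset.mem_insert.1 (D3 hh) with hz | hz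
      · have := h.pa.inj _ _ (by omega) (by omega) hz
        omega
      · exact h.notC (by omega) hz
    · rw [hz]
      exact ⟨h.sub ((hs _).1 (cf_mem hp _)), D5⟩
  obtain ⟨w, w1, w2, w3, w4⟩ := pa_of_pth49 hnew hmem
  have hlen : (seg v 1 (m - 2) ++ [cf c hp (n + 1)]).length = m := by
    rw [List.length_append, seg_length, List.length_singleton]; omega
  rw [hlen] at w1 w3
  refine ⟨D, w, T.card, ⟨D1, ?_, D2, w1⟩, hsum, ?_, ?_⟩
  · intro z hz
    rcases Finset.mem_insert.1 (D3 hz) with hz | hz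
    · rw [hz]; exact h.inU (by omega)
    · exact h.sub hz
  · rw [w2]
    have h1 : dg G D (v 1) ≤ dg G (insert (v 0) C) (v 1) := dg_mono D3 _
    have h2 : dg G (insert (v 0) C) (v 1) ≤ dg G {v 0} (v 1) + dg G C (v 1) := by
      rw [Finset.insert_eq]
      exact dg_union_le _ _ _
    have h3 : dg G {v 0} (v 1) ≤ 1 := by
      have := dg_le (G := G) {v 0} (v 1)
      rwa [Finset.card_singleton] at this
    omega
  · have := dg_le (G := G) D (w (m - 1))
    omega

/-- one exchange, degrees -/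
theorem Ext9.exch2 (E : Ext9 G U r L m A) (h : PV9 G U C L m v) (hr : 4 ≤ r) (hL : L = r)
    (hm : r ≤ m) (hdeg : ∀ x ∈ U, 4 * r ≤ 3 * dg G U x)
    (hle : dg G (U \ C) (v 0) ≤ dg G (U \ C) (v (m - 1)))
    (hsm : dg G (U \ C) (v 0) + dg G (U \ C) (v (m - 1)) ≤ r) :
    ∃ (C' : Finset V) (w : ℕ → V), PV9 G U C' L m w ∧
      5 * ((4 * r + 2) / 3) ≤ dg G (U \ C') (w 0) + dg G (U \ C') (w (m - 1)) + 4 * r + 1
        + 2 * dg G (U \ C) (v 0) + dg G (U \ C) (v (m - 1)) ∧
      (4 * r + 2) / 3 ≤ dg G (U \ C') (w (m - 1)) + r ∧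
      4 * ((4 * r + 2) / 3) ≤ dg G (U \ C') (w 0) + 3 * r + 1
        + 2 * dg G (U \ C) (v 0) + dg G (U \ C) (v (m - 1)) := by
  have h1 := hdeg _ (h.inU (i := 0) (by omega))
  have h2 := hdeg _ (h.inU (i := m - 1) (by omega))
  rw [h.split] at h1 h2
  obtain ⟨C', w, S, hw, e1, e2, e3⟩ := E.exch h hr hL hm (by omega)
  have h3 := hdeg _ (hw.inU (i := 0) (by omega))
  have h4 := hdeg _ (hw.inU (i := m - 1) (by omega))
  rw [hw.split] at h3 h4
  have g1 : (4 * r + 2) / 3 ≤ dg G (U \ C) (v 0) + dg G C (v 0) := by omega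
  have g2 : (4 * r + 2) / 3 ≤ dg G (U \ C) (v (m - 1)) + dg G C (v (m - 1)) := by omega
  have g3 : (4 * r + 2) / 3 ≤ dg G (U \ C') (w 0) + dg G C' (w 0) := by omega
  have g4 : (4 * r + 2) / 3 ≤ dg G (U \ C') (w (m - 1)) + dg G C' (w (m - 1)) := by omega
  refine ⟨C', w, hw, ?_, ?_, ?_⟩ <;> omega

/-- **step 2**: the ends of a best path have degree sum at least `r + 1` -/
theorem Ext9.ends (E : Ext9 G U r L m A) (h : PV9 G U C L m v) (hr : 4 ≤ r) (hL : r ≤ L)
    (hm : r ≤ m) (hm' : r < L → r + 1 ≤ m) (hdeg : ∀ x ∈ U, 4 * r ≤ 3 * dg G U x)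
    (hA : dg G (U \ C) (v 0) + dg G (U \ C) (v (m - 1)) = A) : r + 1 ≤ A := by
  have h1 := hdeg _ (h.inU (i := 0) (by omega))
  have h2 := hdeg _ (h.inU (i := m - 1) (by omega))
  rw [h.split] at h1 h2
  rcases Nat.lt_or_ge r L with hc | hc
  · have h3 := E.out h hr hc (hm' hc)
    have h4 := E.out h.rev hr hc (hm' hc)
    simp only [Nat.sub_zero] at h4
    omega
  · have hLr : L = r := by omega
    -- one exchange from either side
    have key : ∀ (C : Finset V) (v : ℕ → V), PV9 G U C L m v →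
        dg G (U \ C) (v 0) + dg G (U \ C) (v (m - 1)) = A →
        dg G (U \ C) (v 0) ≤ dg G (U \ C) (v (m - 1)) → A ≤ r →
        ∃ (C' : Finset V) (w : ℕ → V), PV9 G U C' L m w ∧
          dg G (U \ C') (w 0) + dg G (U \ C') (w (m - 1)) ≤ A ∧
          5 * ((4 * r + 2) / 3) ≤ A + 4 * r + 1
            + 2 * dg G (U \ C) (v 0) + dg G (U \ C) (v (m - 1)) ∧
          (4 * r + 2) / 3 ≤ dg G (U \ C') (w (m - 1)) + r ∧
          4 * ((4 * r + 2) / 3) ≤ dg G (U \ C') (w 0) + 3 * r + 1
            + 2 * dg G (U \ C) (v 0) + dg G (U \ C) (v (m - 1)) := by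
      intro C v h k1 k2 k3
      obtain ⟨C', w, hw, e1, e2, e3⟩ := E.exch2 h hr hLr hm hdeg k2 (by omega)
      have e4 := E.sum hw (by omega) hL hm
      exact ⟨C', w, hw, e4, by omega, e2, e3⟩
    by_contra hcon
    -- a pair with the smaller degree first
    obtain ⟨C1, v1, p1, p2, p3⟩ : ∃ (C1 : Finset V) (v1 : ℕ → V), PV9 G U C1 L m v1 ∧
        dg G (U \ C1) (v1 0) + dg G (U \ C1) (v1 (m - 1)) = A ∧
        dg G (U \ C1) (v1 0) ≤ dg G (U \ C1) (v1 (m - 1)) := by
      rcases Nat.le_total (dg G (U \ C) (v 0)) (dg G (U \ C) (v (m - 1))) with hh | hh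
      · exact ⟨C, v, h, hA, hh⟩
      · refine ⟨C, _, h.rev, ?_, ?_⟩
        · simp only [Nat.sub_zero, Nat.sub_self]
          omega
        · simp only [Nat.sub_zero, Nat.sub_self]
          exact hh
    obtain ⟨C2, w, w1, w2, w3, w4, w5⟩ := key C1 v1 p1 p2 p3 (by omega)
    have hr6 : r = 6 := by
      have hr' : r ≤ 6 := by omega
      interval_cases r <;> omega
    subst hr6
    obtain ⟨C3, z, z1, z2, z3, z4, z5⟩ := key C2 _ w1.rev (by
      simp only [Nat.sub_zero, Nat.sub_self]; omega) (by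
      simp only [Nat.sub_zero, Nat.sub_self]; omega) (by omega)
    simp only [Nat.sub_zero, Nat.sub_self] at z3
    omega

end

end Pool.Agent.P0
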