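import Pool.Agent.P0.Two9C
import Pool.Agent.P0.Two9D

set_option linter.all false

/-!
# P0 / I5: the ends of the path, steps 3 - 5
-/

namespace Pool.Agent.P0

open Pool.Agent.Helper14.LongCyc Pool.Agent.LCK Pool.Agent.FRC

universe u

variable {V : Type u} {G : SimpleGraph V}

/-- `x` is the first vertex of a best path with the same last vertex -/
def Rot9 [DecidableEq V] (G : SimpleGraph V) (U C : Finset V) (L m : ℕ) (v : ℕ → V) (x : V) :
    Prop := ∃ w, PV9 G U C L m w ∧ w 0 = x ∧ w (m - 1) = v (m - 1)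

section

variable [DecidableEq V] {U C : Finset V} {r L m A : ℕ} {v : ℕ → V}

theorem Ext9.rotDeg (E : Ext9 G U r L m A) (hr : 1 ≤ r) (hL : r ≤ L) (hm : r ≤ m)
    (hA : dg G (U \ C) (v 0) + dg G (U \ C) (v (m - 1)) = A) {x : V}
    (hx : Rot9 G U C L m v x) : dg G (U \ C) x ≤ dg G (U \ C) (v 0) := by
  obtain ⟨w, w1, w2, w3⟩ := hx
  have := E.sum w1 hr hL hm
  rw [w2, w3] at this
  omega

theorem Rot9.inU (hm : 1 ≤ m) {x : V} (hx : Rot9 G U C L m v x) : x ∈ U := by
  obtain ⟨w, w1, w2, w3⟩ := hx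
  rw [← w2]
  exact w1.inU (by omega)

/-- the reach of the first vertex -/
theorem Ext9.reach (E : Ext9 G U r L m A) (h : PV9 G U C L m v) (hr : 3 ≤ r) (hL : r ≤ L)
    (hm : r ≤ m) : ∃ s, 1 ≤ s ∧ s + 1 < r ∧ s < m ∧ G.Adj (v 0) (v s) ∧
      dg G (U \ C) (v 0) ≤ s ∧
      (s + 2 ≤ 2 * dg G (U \ C) (v 0) →
        ∃ j, 1 ≤ j ∧ j + 1 ≤ s ∧ G.Adj (v 0) (v j) ∧ G.Adj (v 0) (v (j + 1))) := by
  classical
  obtain ⟨s, ⟨s1, s2, s3⟩, smax⟩ := exists_max_nat (α := ℕ)
    (fun j => 1 ≤ j ∧ j < m ∧ G.Adj (v 0) (v j)) (fun j => j) m (fun j hj => by omega)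
    ⟨1, le_rfl, by omega, h.pa.ch 0 (by omega)⟩
  have hcyc := Pa.cyc h.pa hr (E.noLong h hL) s2 s3
  set N := (Finset.range m).filter (fun j => 1 ≤ j ∧ G.Adj (v 0) (v j)) with hN
  have hc : dg G (U \ C) (v 0) ≤ N.card := E.cntL h hr hL hm
  have hsub : N ⊆ Finset.Icc 1 s := by
    intro j hj
    obtain ⟨j0, j1, j2⟩ := Finset.mem_filter.1 hj
    rw [Finset.mem_Icc]
    exact ⟨j1, smax j ⟨j1, Finset.mem_range.1 j0, j2⟩⟩
  have hle := Finset.card_le_card hsub
  rw [Nat.card_Icc] at hle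
  refine ⟨s, s1, hcyc, s2, s3, by omega, fun hs => ?_⟩
  by_contra hcon
  push Not at hcon
  have hd : Disjoint N (N.image (· + 1)) := by
    rw [Finset.disjoint_left]
    intro t ht ht'
    obtain ⟨j, hj, rfl⟩ := Finset.mem_image.1 ht'
    obtain ⟨j0, j1, j2⟩ := Finset.mem_filter.1 hj
    obtain ⟨t0, t1, t2⟩ := Finset.mem_filter.1 ht
    have := Finset.mem_Icc.1 (hsub ht)
    exact hcon j j1 this.2 j2 t2
  have hsub2 : N ∪ N.image (· + 1) ⊆ Finset.Icc 1 (s + 1) := by
    intro t ht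
    rw [Finset.mem_Icc]
    rcases Finset.mem_union.1 ht with ht | ht
    · have := Finset.mem_Icc.1 (hsub ht)
      omega
    · obtain ⟨j, hj, rfl⟩ := Finset.mem_image.1 ht
      have := Finset.mem_Icc.1 (hsub hj)
      omega
  have hle2 := Finset.card_le_card hsub2
  rw [Finset.card_union_of_disjoint hd, Finset.card_image_of_injective _ (add_left_injective 1),
    Nat.card_Icc] at hle2
  omega

/-- the short path at the first vertex -/
theorem PV9.short (h : PV9 G U C L m v) {s : ℕ} (hs : 1 ≤ s) (hsm : s < m)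
    (ha : G.Adj (v 0) (v s)) : ∃ (x y : V) (l : List V), Pth G x y l ∧ l.length = s ∧
      (∀ z ∈ l, ∃ i, i < s ∧ z = v i) ∧ Rot9 G U C L m v x ∧ Rot9 G U C L m v y := by
  have h1 := seg_pa49 h.pa (s - 1) 0 (by omega)
  rw [Nat.zero_add] at h1
  refine ⟨_, _, _, h1, by rw [seg_length]; omega, fun z hz => ?_, ⟨v, h, rfl, rfl⟩,
    h.rot hs hsm ha⟩
  rw [mem_seg] at hz
  obtain ⟨j, _, j2, j3⟩ := hz
  exact ⟨j, by omega, j3⟩

/-- the full path at the first vertex -/
theorem PV9.full (h : PV9 G U C L m v) {s j : ℕ} (hj : 1 ≤ j) (hjs : j + 1 ≤ s) (hsm : s < m)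
    (ha : G.Adj (v 0) (v s)) (h1 : G.Adj (v 0) (v j)) (h2 : G.Adj (v 0) (v (j + 1))) :
    ∃ (x y : V) (l : List V), Pth G x y l ∧ l.length = s + 1 ∧
      (∀ z ∈ l, ∃ i, i ≤ s ∧ z = v i) ∧ Rot9 G U C L m v x ∧ Rot9 G U C L m v y := by
  have p1 := seg_pa49 h.pa (j - 1) 0 (by omega)
  rw [Nat.zero_add] at p1
  have p2 := seg_pa49 h.pa (s - j) j (by omega)
  rw [show j + (s - j) = s by omega] at p2
  have p3 := p1.reverse.append p2.reverse ha (by
    intro x hx hx'
    rw [List.mem_reverse, mem_seg] at hx hx'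
    obtain ⟨t, t1, t2, rfl⟩ := hx'
    obtain ⟨t', _, t4, t5⟩ := hx
    have := h.pa.inj t t' (by omega) (by omega) t5
    omega)
  have r2 := h.rot (j := j + 1) (by omega) (by omega) h2
  rw [show j + 1 - 1 = j by omega] at r2
  refine ⟨_, _, _, p3, ?_, fun z hz => ?_, h.rot hj (by omega) h1, r2⟩
  · rw [List.length_append, List.length_reverse, List.length_reverse, seg_length, seg_length]
    omega
  · rw [List.mem_append, List.mem_reverse, List.mem_reverse, mem_seg, mem_seg] at hz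
    rcases hz with ⟨t, t1, t2, t3⟩ | ⟨t, t1, t2, t3⟩
    · exact ⟨t, by omega, t3⟩
    · exact ⟨t, by omega, t3⟩

theorem q_le9 {q r : ℕ} (hr : 4 ≤ r) (h : (q + 5) * (r + 6) ≤ 9 * (r + q)) : q ≤ 3 := by
  by_contra hcon
  obtain ⟨p, rfl⟩ : ∃ p, q = p + 4 := ⟨q - 4, by omega⟩
  have h1 : p * 4 ≤ p * r := Nat.mul_le_mul_left _ hr
  have h2 : (p + 4 + 5) * (r + 6) = p * r + 6 * p + 9 * r + 54 := by ring
  omega

/-- the contradiction from the two ends -/
theorem Ext9.fin (E : Ext9 G U r L m A) (h : PV9 G U C L m v) (hr : 4 ≤ r) (hL : r ≤ L)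
    (hm : r ≤ m) (hm' : r < L → r + 1 ≤ m) (hdeg : ∀ x ∈ U, 4 * r ≤ 3 * dg G U x)
    (hA : dg G (U \ C) (v 0) + dg G (U \ C) (v (m - 1)) = A) (hAr : r + 1 ≤ A) : False := by
  classical
  obtain ⟨d, hd1, hd2⟩ : ∃ d, 4 * r ≤ 3 * d ∧ 3 * d ≤ 4 * r + 2 :=
    ⟨(4 * r + 2) / 3, by omega, by omega⟩
  have hdeg' : ∀ x ∈ U, d ≤ dg G (U \ C) x + dg G C x := by
    intro x hx
    have := hdeg x hx
    rw [h.split] at this
    omega
  have hA' : dg G (U \ C) ((fun i => v (m - 1 - i)) 0)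
      + dg G (U \ C) ((fun i => v (m - 1 - i)) (m - 1)) = A := by
    simp only [Nat.sub_zero, Nat.sub_self]
    omega
  obtain ⟨s, s1, s2, s3, s4, s5, s6⟩ := E.reach h (by omega) hL hm
  obtain ⟨t, t1, t2, t3, t4, t5, t6⟩ := E.reach h.rev (by omega) hL hm
  simp only [Nat.sub_zero] at t4 t5
  -- no crossing
  have hst : s + t + 1 ≤ m := by
    by_contra hcon
    exact E.no_cross h (by omega) hL hm (by omega) (i := m - 1 - t) (j := s) (by omega) s3 t4 s4
  obtain ⟨c, hc, hs, hcl, hct⟩ := h.list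
  subst hcl
  have hp : 0 < c.length := by omega
  haveI : NeZero c.length := ⟨by omega⟩
  have hn := Cyc.nodup hc
  have hcU : ∀ z ∈ c, z ∈ U := fun z hz => h.sub ((hs z).1 hz)
  have hvU : ∀ i, i < m → v i ∈ U ∧ v i ∉ c := fun i hi =>
    ⟨h.inU hi, fun hh => h.notC hi ((hs _).1 hh)⟩
  have hcard : ∀ x, (nbr9 G c hp x).card = dg G C x := fun x => by rw [nbr9_card hn, hct]
  -- degrees of the rotation ends
  have dl : ∀ x, Rot9 G U C c.length m v x → d - s ≤ (nbr9 G c hp x).card := by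
    intro x hx
    have e1 := E.rotDeg (by omega) hL hm hA hx
    have e2 := hdeg' x (hx.inU (by omega))
    rw [hcard]
    omega
  have dr : ∀ x, Rot9 G U C c.length m (fun i => v (m - 1 - i)) x →
      d - t ≤ (nbr9 G c hp x).card := by
    intro x hx
    have e1 := E.rotDeg (by omega) hL hm hA' hx
    simp only [Nat.sub_zero] at e1
    have e2 := hdeg' x (hx.inU (by omega))
    rw [hcard]
    omega
  obtain ⟨x1, y1, l1, a1, a2, a3, a4, a5⟩ := h.short s1 s3 s4
  have hl1 : ∀ z ∈ l1, z ∈ U ∧ z ∉ c := by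
    intro z hz
    obtain ⟨i, hi, rfl⟩ := a3 z hz
    exact hvU i (by omega)
  rcases Nat.lt_or_ge r c.length with hrL | hrL
  · -- longer cycle: short path on the left, full path on the right
    have hm1 := hm' hrL
    have o1 := E.out h (by omega) hrL hm1
    have o2 := E.out h.rev (by omega) hrL hm1
    simp only [Nat.sub_zero] at o2
    have g1 := hdeg' _ (h.inU (i := 0) (by omega))
    have g2 := hdeg' _ (h.inU (i := m - 1) (by omega))
    have hr5 : 5 ≤ r := by
      by_contra hcon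
      have : r = 4 := by omega
      subst this
      omega
    obtain ⟨j, j1, j2, j3, j4⟩ := t6 (by simp only [Nat.sub_zero]; omega)
    obtain ⟨x2, y2, l2, b1, b2, b3, b4, b5⟩ := h.rev.full j1 j2 t3 (by
      simp only [Nat.sub_zero]; exact t4) j3 j4
    have hl2 : ∀ z ∈ l2, z ∈ U ∧ z ∉ c := by
      intro z hz
      obtain ⟨i, hi, rfl⟩ := b3 z hz
      exact hvU (m - 1 - i) (by omega)
    have hdis : ∀ z ∈ l1, z ∉ l2 := by
      intro z hz hz'
      obtain ⟨i, hi, rfl⟩ := a3 z hz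
      obtain ⟨i', hi', he⟩ := b3 _ hz'
      have := h.pa.inj i (m - 1 - i') (by omega) (by omega) he
      omega
    have hcnt := E.count h (by omega) hrL hm1
    obtain ⟨q, hq⟩ : ∃ q, c.length = r + q := ⟨c.length - r, by omega⟩
    have hcnt2 : (q + 5) * (r + 6) ≤ 9 * (r + q) := by
      have e1 : r + 6 ≤ 3 * dg G C (v 0) := by omega
      have e2 : c.length - r + 5 = q + 5 := by omega
      rw [e2, hq] at hcnt
      have e3 : (q + 5) * (r + 6) ≤ (q + 5) * (3 * dg G C (v 0)) := Nat.mul_le_mul_left _ e1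
      have e4 : (q + 5) * (3 * dg G C (v 0)) = 3 * ((q + 5) * dg G C (v 0)) := by ring
      omega
    have hq3 : q ≤ 3 := q_le9 hr hcnt2
    have hfin : Arcs9 (nbr9 G c hp x1) (nbr9 G c hp y1) (nbr9 G c hp x2) (nbr9 G c hp y2)
        (r - s) (r - (t + 1)) → False := fun hArc =>
      E.two (fin9 hc hcU (by omega) a1 b1 hl1 hl2 hdis (by omega) (by omega) hArc)
    apply hfin
    rcases Nat.lt_or_ge q 3 with hq2 | hq2
    · exact plain9 (a := d - s) (b := d - t) (by omega) (by omega)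
        (dl _ a4) (dl _ a5) (dr _ b4) (dr _ b5) (by omega) (by omega) (by omega)
    · have hq3' : q = 3 := by omega
      subst hq3'
      have e1 : c.length - r + 5 = 8 := by omega
      rw [e1] at hcnt
      refine avoid9 (a := d - s) (b := d - t) (by omega) (by omega)
        (dl _ a4) (dl _ a5) (dr _ b4) (dr _ b5) (by omega) ?_ (by omega) (by omega)
      intro x hx hx3
      obtain ⟨w, w1, w2, w3⟩ := a5
      have e2 : x = ((x.val : ℕ) : ZMod c.length) := (ZMod.natCast_zmod_val x).symm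
      have e3 : x + 3 = ((x.val + 3 : ℕ) : ZMod c.length) := by
        rw [Nat.cast_add, ZMod.natCast_zmod_val]
        rfl
      rw [e3, mem_nbr9] at hx3
      rw [mem_nbr9_val] at hx
      rw [← w2] at hx hx3
      exact E.gap1 w1 hr hm1 hc hs rfl hp (s := 3) le_rfl (by omega) hx hx3
  · -- cycle length `r`: short paths on both sides
    obtain ⟨x2, y2, l2, b1, b2, b3, b4, b5⟩ := h.rev.short t1 t3 (by
      simp only [Nat.sub_zero]; exact t4)
    have hl2 : ∀ z ∈ l2, z ∈ U ∧ z ∉ c := by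
      intro z hz
      obtain ⟨i, hi, rfl⟩ := b3 z hz
      exact hvU (m - 1 - i) (by omega)
    have hdis : ∀ z ∈ l1, z ∉ l2 := by
      intro z hz hz'
      obtain ⟨i, hi, rfl⟩ := a3 z hz
      obtain ⟨i', hi', he⟩ := b3 _ hz'
      have := h.pa.inj i (m - 1 - i') (by omega) (by omega) he
      omega
    have hfin : Arcs9 (nbr9 G c hp x1) (nbr9 G c hp y1) (nbr9 G c hp x2) (nbr9 G c hp y2)
        (r - s) (r - t) → False := fun hArc =>
      E.two (fin9 hc hcU (by omega) a1 b1 hl1 hl2 hdis (by omega) (by omega) hArc)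
    apply hfin
    exact arcs9 (a := d - s) (b := d - t) (by omega) (by omega)
      (dl _ a4) (dl _ a5) (dr _ b4) (dr _ b5) (by omega) (by omega) (by omega)

end

end Pool.Agent.P0
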