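import Pool.Agent.P0.Two9C
import Pool.Agent.P0.Two9D

set_option linter.all false

/-!
# P0 / I5: step 1 (a pair with `L > r` has a path with at least `r + 1` vertices)
-/

namespace Pool.Agent.P0

open Pool.Agent.Helper14.LongCyc Pool.Agent.LCK Pool.Agent.FRC

universe u

variable {V : Type u} {G : SimpleGraph V}

section

variable [DecidableEq V] {U C : Finset V} {r L m A : ℕ} {v : ℕ → V}

/-- step 1, cycle length at least `r + 2` -/
theorem Ext9.step1b (E : Ext9 G U r L m A) (h : PV9 G U C L m v) (hr : 4 ≤ r) (hL : r + 2 ≤ L)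
    (hm : m = r) (hX : 0 < dg G C (v 0)) (hY : 0 < dg G C (v (m - 1))) :
    dg G C (v 0) + dg G C (v (m - 1)) + (L - r - 2) ≤ L := by
  classical
  obtain ⟨c, hc, hs, hcl, hct⟩ := h.list
  have hp : 0 < c.length := by omega
  haveI : NeZero c.length := ⟨by omega⟩
  have hn := Cyc.nodup hc
  have hvc : ∀ i, i < m → v i ∉ c := fun i hi hh => h.notC hi ((hs _).1 hh)
  have cX : (nbr9 G c hp (v 0)).card = dg G C (v 0) := by rw [nbr9_card hn, hct]
  have cY : (nbr9 G c hp (v (m - 1))).card = dg G C (v (m - 1)) := by rw [nbr9_card hn, hct]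
  by_contra hcon
  obtain ⟨a, ha, j, hj, haj⟩ := sumset9 (A := nbr9 G c hp (v 0)) (B := nbr9 G c hp (v (m - 1)))
    (Finset.card_pos.1 (by omega)) (Finset.card_pos.1 (by omega)) (L - r - 2) 0 (by
      rw [cX, cY]; omega)
  have hjv : a + ((0 + j : ℕ) : ZMod c.length) = ((a.val + j : ℕ) : ZMod c.length) := by
    rw [Nat.zero_add, Nat.cast_add, ZMod.natCast_zmod_val]
  rw [hjv, mem_nbr9] at haj
  rw [mem_nbr9_val] at ha
  set n := a.val with hna
  have s1 := seg_pa49 h.pa (m - 1) 0 (by omega)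
  rw [Nat.zero_add] at s1
  have s2 := arc_pth hc hp j n (by omega)
  obtain ⟨e1, e2⟩ := joinSet s1 s2 (by
    intro z hz hz'
    rw [mem_seg] at hz
    obtain ⟨i, _, i2, rfl⟩ := hz
    exact hvc i (by omega) (arc_mem49 hp hz')) (by
    rw [seg_length, seg_length]; omega) (Or.inl ⟨ha, haj⟩)
  rw [seg_length, seg_length] at e2
  have s3 := arc_pth hc hp (L - j - 2) (n + j + 1) (by omega)
  have h3 := E.minL _ _ _ _ ⟨e1, ?_, by rw [e2]; omega, s3, ?_, by rw [seg_length]; omega⟩
  · rw [e2] at h3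
    omega
  · intro z hz
    rw [List.mem_toFinset, List.mem_append] at hz
    rcases hz with hz | hz
    · rw [mem_seg] at hz
      obtain ⟨i, _, i2, rfl⟩ := hz
      exact h.inU (by omega)
    · exact h.sub ((hs z).1 (arc_mem49 hp hz))
  · intro z hz
    rw [Finset.mem_sdiff, List.mem_toFinset, List.mem_append]
    refine ⟨h.sub ((hs z).1 (arc_mem49 hp hz)), ?_⟩
    rintro (hh | hh)
    · rw [mem_seg] at hh
      obtain ⟨i, _, i2, rfl⟩ := hh
      exact hvc i (by omega) (arc_mem49 hp hz)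
    · rw [mem_seg] at hz hh
      obtain ⟨i, i1, i2, i3⟩ := hz
      obtain ⟨t, t1, t2, t3⟩ := hh
      have hf := far49 hc hp n (s := t - n) (t := i - n) (by omega) (by omega)
      apply hf
      rw [show n + (t - n) = t by omega, show n + (i - n) = i by omega, ← i3, ← t3]

/-- **step 1** -/
theorem Ext9.step1 (E : Ext9 G U r L m A) (h : PV9 G U C L m v) (hr : 4 ≤ r) (hL : r < L)
    (hm : r ≤ m) (hdeg : ∀ x ∈ U, 4 * r ≤ 3 * dg G U x) : r + 1 ≤ m := by
  by_contra hcon
  have hmr : m = r := by omega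
  have h1 := hdeg _ (h.inU (i := 0) (by omega))
  have h2 := hdeg _ (h.inU (i := m - 1) (by omega))
  rw [h.split] at h1 h2
  have h3 := E.open h (by omega) (by omega) hm
  rcases Nat.lt_or_ge (r + 1) L with hc | hc
  · have h4 := E.step1b h hr (by omega) hmr (by omega) (by omega)
    omega
  · have hLr : L = r + 1 := by omega
    have h4 := E.step1a h hr hLr hm
    have h5 := E.step1a h.rev hr hLr hm
    simp only [Nat.sub_zero, Nat.sub_self] at h5
    omega

end

end Pool.Agent.P0
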