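import Pool.Agent.P0.Two9B
import Pool.Agent.P0.Two9E
import Pool.Agent.P0.Two9F

set_option linter.all false

/-!
# P0 / I5: two disjoint cycles of length at least `r`

Every graph with at least `2 r` vertices and minimum degree at least `4 r / 3` has two disjoint
cycles of length at least `r`, for every `r ≥ 4`.
-/

namespace Pool.Agent.P0

open Pool.Agent.Helper14.LongCyc Pool.Agent.LCK Pool.Agent.FRC

universe u

variable {V : Type u} {G : SimpleGraph V}

/-- **two disjoint long cycles**, all `r ≥ 4`, at least `2 r` vertices -/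
theorem two9 [DecidableEq V] {U : Finset V} {r : ℕ} (hr : 4 ≤ r) (hU : 2 * r ≤ U.card)
    (hdeg : ∀ x ∈ U, 4 * r ≤ 3 * dg G U x) : Two49 G r U := by
  classical
  by_contra hcon
  obtain ⟨G1, hle, htwo, hpair⟩ := exists_pair9 (by omega) hU hcon
  have hdeg1 : ∀ x ∈ U, 4 * r ≤ 3 * dg G1 U x := by
    intro x hx
    have h1 : dg G U x ≤ dg G1 U x := by
      unfold dg
      refine Finset.card_le_card fun z hz => ?_
      rw [Finset.mem_filter] at hz ⊢
      exact ⟨hz.1, hle hz.2⟩
    have := hdeg x hx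
    omega
  obtain ⟨L, m, A, C, v, E, h, hL, hm, hA⟩ := exists_ext9 (by omega) htwo hpair
  have hm' : r < L → r + 1 ≤ m := fun hlt => E.step1 h hr hlt hm hdeg1
  exact E.fin h hr hL hm hm' hdeg1 hA (E.ends h hr hL hm hm' hdeg1 hA)

/-- the same with families -/
theorem two9_fam [DecidableEq V] {U : Finset V} {r : ℕ} (hr : 4 ≤ r) (hU : 2 * r ≤ U.card)
    (hdeg : ∀ x ∈ U, 2 * 2 * r ≤ 3 * dg G U x) : ∃ F, Fam G U (fun L => r ≤ L) F ∧ F.card = 2 :=
  (two9 hr hU (fun x hx => by have := hdeg x hx; omega)).fam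

end Pool.Agent.P0
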