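import Pool.Agent.P0.Glue41
import Pool.Agent.P0.Two9
import Pool.Agent.P0.Case17
import Pool.Agent.P0.CaseII13
import Pool.Agent.P0.End81

set_option linter.all false

/-!
# P0: assembly of the items I1, I2, I4, I5, I6
-/

namespace Pool.Agent.P0

open Pool.Agent.Helper14.LongCyc Pool.Agent.LCK Pool.Agent.FRC

universe u

theorem two14 {r : ℕ} (hr : 4 ≤ r) : T41.{u} 2 r (2 * r) := fun _ _ hU hdeg =>
  two9_fam hr hU hdeg

theorem T41.mono14 {k r N N' : ℕ} (h : T41.{u} k r N) (hN : N ≤ N') : T41.{u} k r N' :=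
  fun G U hU hdeg => h G U (hN.trans hU) hdeg

theorem caseI14 {k r : ℕ} (hk : 3 ≤ k) (hr : 4 ≤ r) : ICaseI41.{u} k r := by
  rcases Nat.lt_or_ge r 6 with h | h
  · interval_cases r
    · exact icaseI_four17 k
    · exact icaseI_five17 k
  · exact caseI81 hk h

theorem caseII14 {k r : ℕ} (hk : 3 ≤ k) (hr : 4 ≤ r) : ICaseII41.{u} k r := by
  intro V _ G U F w w' l h hc hdeg hl hlt
  exact caseII hr (by omega) h hc.le hdeg hl hlt

/-- all `k ≥ 2`, `r ≥ 4`, at least `k r + 1` vertices, from item I3 -/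
theorem main14 {r : ℕ} (hr : 4 ≤ r) (h3 : ∀ k, 3 ≤ k → IRest41.{u} k r) :
    ∀ k, 2 ≤ k → T41.{u} k r (k * r + 1) :=
  all41 (by omega) (T41.mono14 (two14 hr) (by omega)) h3 (fun k hk => caseII14 hk hr)
    (fun k hk => caseI14 hk hr)

end Pool.Agent.P0
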