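import Pool.Agent.P0.Arc81

set_option linter.all false

/-!
# P0, I4, sections 4.2 and 4.3: averages over the two dense pieces
-/

namespace Pool.Agent.P0

open Pool.Agent.Helper14.LongCyc Pool.Agent.LCK Pool.Agent.FRC

universe u

variable {V : Type u} {G : SimpleGraph V}

/-! ### Hamilton paths inside dense sets -/

/-- a listing whose jumps are inside a dense part can be turned into a path -/
theorem ham_list81 [DecidableEq V] {T S : Finset V} {L0 : List V} {a b : V}
    (hn : L0.Nodup) (hm : ∀ x, x ∈ L0 ↔ x ∈ T) (ha : L0.head? = some a)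
    (hb : L0.getLast? = some b)
    (hch : L0.IsChain fun x y => G.Adj x y ∨ (x ∈ S ∧ y ∈ S))
    (hd : ∀ x ∈ S, ∀ y ∈ S, T.card + 1 ≤ dg G T x + dg G T y) :
    ∃ l, Pth G a b l ∧ l.length = T.card ∧ ∀ x, x ∈ l → x ∈ T := by
  classical
  have hcard := card_of_list hn hm
  have hne : L0 ≠ [] := by
    rintro rfl
    simp at ha
  have hpos : 0 < L0.length := List.length_pos_iff.2 hne
  set w : ℕ → V := fun i => L0.getD i a with hw
  have hwi : ∀ i (hi : i < L0.length), w i = L0[i] := fun i hi => by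
    show L0.getD i a = L0[i]
    rw [List.getD_eq_getElem?_getD, List.getElem?_eq_getElem hi]; rfl
  have hL : Lst T L0.length w := by
    refine ⟨?_, ?_, ?_⟩
    · intro i hi
      rw [hwi i hi]
      exact (hm _).1 (List.getElem_mem hi)
    · intro i j hi hj hij
      rw [hwi i hi, hwi j hj] at hij
      exact (hn.getElem_inj_iff).1 hij
    · intro x hx
      obtain ⟨i, hi, he⟩ := List.getElem_of_mem ((hm x).2 hx)
      exact ⟨i, hi, by rw [hwi i hi]; exact he⟩
  have h0 : w 0 = a := by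
    rw [hwi 0 hpos]
    rw [List.head?_eq_getElem?, List.getElem?_eq_getElem hpos] at ha
    exact Option.some.inj ha
  have h1 : w (L0.length - 1) = b := by
    rw [hwi _ (by omega)]
    rw [List.getLast?_eq_getElem?, List.getElem?_eq_getElem (by omega)] at hb
    exact Option.some.inj hb
  obtain ⟨w', f1, f2, f3, f4⟩ := closure (G := G) (T := T) (S := S) (m := L0.length) (z := a)
    (c := b) (fun x hx y hy => by
      rw [dT_eq_dg, dT_eq_dg, ← hcard]; exact hd x hx y hy) _ w le_rfl hL h0 h1 (by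
      intro i hi
      rw [hwi i (by omega), hwi (i + 1) hi]
      exact (List.isChain_iff_getElem.1 hch) i hi)
  have hpa : Pa G T L0.length w' := ⟨f1.mem, f1.inj, f2⟩
  have hp := seg_pa49 hpa (L0.length - 1) 0 (by omega)
  rw [zero_add, f3, f4] at hp
  refine ⟨_, hp, ?_, ?_⟩
  · rw [seg_length, hcard]; omega
  · intro x hx
    rw [mem_seg] at hx
    obtain ⟨j, j1, j2, j3⟩ := hx
    rw [j3]
    exact f1.mem j (by omega)

theorem chain_all81 {S : Finset V} {R : V → V → Prop} (L : List V) (h : ∀ x ∈ L, x ∈ S)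
    (hR : ∀ x ∈ S, ∀ y ∈ S, R x y) : L.IsChain R := by
  rw [List.isChain_iff_getElem]
  intro i hi
  exact hR _ (h _ (List.getElem_mem _)) _ (h _ (List.getElem_mem _))

/-- ORE, for a set all of whose degree sums are large -/
theorem ham81 [DecidableEq V] {D : Finset V} {a b : V} (ha : a ∈ D) (hb : b ∈ D) (hab : a ≠ b)
    (hd : ∀ x ∈ D, ∀ y ∈ D, D.card + 1 ≤ dg G D x + dg G D y) :
    ∃ l, Pth G a b l ∧ l.length = D.card ∧ ∀ x, x ∈ l → x ∈ D := by
  classical
  have hmem : ∀ x, x ∈ a :: (((D.erase a).erase b).toList ++ [b]) ↔ x ∈ D := by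
    intro x
    rw [List.mem_cons, List.mem_append, Finset.mem_toList, List.mem_singleton, Finset.mem_erase,
      Finset.mem_erase]
    constructor
    · rintro (h | h | h)
      · rw [h]; exact ha
      · exact h.2.2
      · rw [h]; exact hb
    · intro h
      by_cases h1 : x = a
      · exact Or.inl h1
      by_cases h2 : x = b
      · exact Or.inr (Or.inr h2)
      exact Or.inr (Or.inl ⟨h2, h1, h⟩)
  refine ham_list81 (S := D) (L0 := a :: (((D.erase a).erase b).toList ++ [b])) ?_ hmem rfl ?_ ?_ hd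
  · rw [List.nodup_cons, List.nodup_append]
    refine ⟨?_, Finset.nodup_toList _, List.nodup_singleton _, ?_⟩
    · rw [List.mem_append, Finset.mem_toList, List.mem_singleton, Finset.mem_erase,
        Finset.mem_erase]
      rintro (h | h)
      · exact h.2.1 rfl
      · exact hab h
    · intro x hx y hy hxy
      rw [Finset.mem_toList, Finset.mem_erase] at hx
      rw [List.mem_singleton] at hy
      exact hx.1 (hxy.trans hy)
  · rw [List.getLast?_cons, List.getLast?_append]; rfl
  · exact chain_all81 _ (fun x hx => (hmem x).1 hx) fun x hx y hy => Or.inr ⟨hx, hy⟩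

/-- the same through the extra vertex `z`, one order of the ends -/
theorem ham_z81 [DecidableEq V] {D : Finset V} {z a b p q : V} (hz : z ∉ D) (ha : a ∈ D)
    (hb : b ∈ D) (hab : a ≠ b) (hp : p ∈ D) (hpa : p ≠ a) (hpb : p ≠ b) (hzp : G.Adj z p)
    (hq : q ∈ D) (hqp : q ≠ p) (hqb : q ≠ b) (hzq : G.Adj z q)
    (hd : ∀ x ∈ D, ∀ y ∈ D, D.card + 2 ≤ dg G (insert z D) x + dg G (insert z D) y) :
    ∃ l, Pth G a b l ∧ l.length = D.card + 1 ∧ ∀ x, x ∈ l → x ∈ insert z D := by
  classical
  have hcz : (insert z D).card = D.card + 1 := Finset.card_insert_of_notMem hz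
  have hza : z ≠ a := fun h => hz (h ▸ ha)
  have hzb : z ≠ b := fun h => hz (h ▸ hb)
  have hzp' : z ≠ p := fun h => hz (h ▸ hp)
  have hzq' : z ≠ q := fun h => hz (h ▸ hq)
  rw [← hcz]
  by_cases hqa : q = a
  · subst hqa
    -- q, z, p, rest, b
    set R := (((D.erase q).erase b).erase p) with hR
    have hRm : ∀ x, x ∈ R ↔ x ≠ p ∧ x ≠ b ∧ x ≠ q ∧ x ∈ D := by
      intro x
      rw [hR, Finset.mem_erase, Finset.mem_erase, Finset.mem_erase]
    have hmem : ∀ x, x ∈ q :: z :: p :: (R.toList ++ [b]) ↔ x ∈ insert z D := by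
      intro x
      rw [List.mem_cons, List.mem_cons, List.mem_cons, List.mem_append, Finset.mem_toList,
        List.mem_singleton, hRm, Finset.mem_insert]
      constructor
      · rintro (h | h | h | h | h)
        · rw [h]; exact Or.inr hq
        · exact Or.inl h
        · rw [h]; exact Or.inr hp
        · exact Or.inr h.2.2.2
        · rw [h]; exact Or.inr hb
      · rintro (h | h)
        · exact Or.inr (Or.inl h)
        · by_cases h1 : x = q
          · exact Or.inl h1
          by_cases h2 : x = b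
          · exact Or.inr (Or.inr (Or.inr (Or.inr h2)))
          by_cases h3 : x = p
          · exact Or.inr (Or.inr (Or.inl h3))
          exact Or.inr (Or.inr (Or.inr (Or.inl ⟨h3, h2, h1, h⟩)))
    refine ham_list81 (S := D) (L0 := q :: z :: p :: (R.toList ++ [b])) ?_ hmem rfl ?_ ?_
      (by rw [hcz]; exact hd)
    · rw [List.nodup_cons, List.nodup_cons, List.nodup_cons, List.nodup_append]
      refine ⟨?_, ?_, ?_, Finset.nodup_toList _, List.nodup_singleton _, ?_⟩
      · rw [List.mem_cons, List.mem_cons, List.mem_append, Finset.mem_toList, List.mem_singleton,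
          hRm]
        rintro (h | h | h | h)
        · exact hza h.symm
        · exact hqp h
        · exact h.2.2.1 rfl
        · exact hqb h
      · rw [List.mem_cons, List.mem_append, Finset.mem_toList, List.mem_singleton, hRm]
        rintro (h | h | h)
        · exact hzp' h
        · exact hz h.2.2.2
        · exact hzb h
      · rw [List.mem_append, Finset.mem_toList, List.mem_singleton, hRm]
        rintro (h | h)
        · exact h.1 rfl
        · exact hpb h
      · intro x hx y hy hxy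
        rw [Finset.mem_toList, hRm] at hx
        rw [List.mem_singleton] at hy
        exact hx.2.1 (hxy.trans hy)
    · simp only [List.getLast?_cons_cons]
      rw [List.getLast?_cons, List.getLast?_append]; rfl
    · have hin : (p :: (R.toList ++ [b])).IsChain fun x y => G.Adj x y ∨ (x ∈ D ∧ y ∈ D) := by
        refine chain_all81 (S := D) _ ?_ fun x hx y hy => Or.inr ⟨hx, hy⟩
        intro x hx
        rw [List.mem_cons, List.mem_append, Finset.mem_toList, List.mem_singleton, hRm] at hx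
        rcases hx with h | h | h
        · rw [h]; exact hp
        · exact h.2.2.2
        · rw [h]; exact hb
      exact List.IsChain.cons_cons (Or.inl hzq.symm) (List.IsChain.cons_cons (Or.inl hzp) hin)
  · -- a, q, z, p, rest, b
    set R := ((((D.erase q).erase b).erase p).erase a) with hR
    have hRm : ∀ x, x ∈ R ↔ x ≠ a ∧ x ≠ p ∧ x ≠ b ∧ x ≠ q ∧ x ∈ D := by
      intro x
      rw [hR, Finset.mem_erase, Finset.mem_erase, Finset.mem_erase, Finset.mem_erase]
    have hmem : ∀ x, x ∈ a :: q :: z :: p :: (R.toList ++ [b]) ↔ x ∈ insert z D := by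
      intro x
      rw [List.mem_cons, List.mem_cons, List.mem_cons, List.mem_cons, List.mem_append,
        Finset.mem_toList, List.mem_singleton, hRm, Finset.mem_insert]
      constructor
      · rintro (h | h | h | h | h | h)
        · rw [h]; exact Or.inr ha
        · rw [h]; exact Or.inr hq
        · exact Or.inl h
        · rw [h]; exact Or.inr hp
        · exact Or.inr h.2.2.2.2
        · rw [h]; exact Or.inr hb
      · rintro (h | h)
        · exact Or.inr (Or.inr (Or.inl h))
        · by_cases h0 : x = a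
          · exact Or.inl h0
          by_cases h1 : x = q
          · exact Or.inr (Or.inl h1)
          by_cases h2 : x = b
          · exact Or.inr (Or.inr (Or.inr (Or.inr (Or.inr h2))))
          by_cases h3 : x = p
          · exact Or.inr (Or.inr (Or.inr (Or.inl h3)))
          exact Or.inr (Or.inr (Or.inr (Or.inr (Or.inl ⟨h0, h3, h2, h1, h⟩))))
    refine ham_list81 (S := D) (L0 := a :: q :: z :: p :: (R.toList ++ [b])) ?_ hmem rfl ?_ ?_
      (by rw [hcz]; exact hd)
    · rw [List.nodup_cons, List.nodup_cons, List.nodup_cons, List.nodup_cons, List.nodup_append]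
      refine ⟨?_, ?_, ?_, ?_, Finset.nodup_toList _, List.nodup_singleton _, ?_⟩
      · rw [List.mem_cons, List.mem_cons, List.mem_cons, List.mem_append, Finset.mem_toList,
          List.mem_singleton, hRm]
        rintro (h | h | h | h | h)
        · exact hqa h.symm
        · exact hza h.symm
        · exact hpa h.symm
        · exact h.1 rfl
        · exact hab h
      · rw [List.mem_cons, List.mem_cons, List.mem_append, Finset.mem_toList, List.mem_singleton,
          hRm]
        rintro (h | h | h | h)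
        · exact hzq' h.symm
        · exact hqp h
        · exact h.2.2.2.1 rfl
        · exact hqb h
      · rw [List.mem_cons, List.mem_append, Finset.mem_toList, List.mem_singleton, hRm]
        rintro (h | h | h)
        · exact hzp' h
        · exact hz h.2.2.2.2
        · exact hzb h
      · rw [List.mem_append, Finset.mem_toList, List.mem_singleton, hRm]
        rintro (h | h)
        · exact h.2.1 rfl
        · exact hpb h
      · intro x hx y hy hxy
        rw [Finset.mem_toList, hRm] at hx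
        rw [List.mem_singleton] at hy
        exact hx.2.2.1 (hxy.trans hy)
    · simp only [List.getLast?_cons_cons]
      rw [List.getLast?_cons, List.getLast?_append]; rfl
    · have hin : (p :: (R.toList ++ [b])).IsChain fun x y => G.Adj x y ∨ (x ∈ D ∧ y ∈ D) := by
        refine chain_all81 (S := D) _ ?_ fun x hx y hy => Or.inr ⟨hx, hy⟩
        intro x hx
        rw [List.mem_cons, List.mem_append, Finset.mem_toList, List.mem_singleton, hRm] at hx
        rcases hx with h | h | h
        · rw [h]; exact hp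
        · exact h.2.2.2.2
        · rw [h]; exact hb
      exact List.IsChain.cons_cons (Or.inr ⟨ha, hq⟩)
        (List.IsChain.cons_cons (Or.inl hzq.symm) (List.IsChain.cons_cons (Or.inl hzp) hin))

/-- the full side -/
theorem ham_full81 [DecidableEq V] {D : Finset V} {z a b : V} (hz : z ∉ D) (ha : a ∈ D)
    (hb : b ∈ D) (hab : a ≠ b) (h3 : 3 ≤ dg G D z)
    (hd : ∀ x ∈ D, ∀ y ∈ D, D.card + 2 ≤ dg G (insert z D) x + dg G (insert z D) y) :
    ∃ l, Pth G a b l ∧ l.length = D.card + 1 ∧ ∀ x, x ∈ l → x ∈ insert z D := by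
  classical
  have hN : dg G D z = (D.filter fun u => G.Adj z u).card := dg_eq_card _ _
  rw [hN] at h3
  -- a neighbour different from both ends
  obtain ⟨p, hp, hpab⟩ : ∃ p ∈ D.filter (fun u => G.Adj z u), p ∉ ({a, b} : Finset V) := by
    by_contra hcon
    push Not at hcon
    have := Finset.card_le_card (fun x hx => hcon x hx : (D.filter fun u => G.Adj z u) ⊆ {a, b})
    have := Finset.card_le_two (a := a) (b := b)
    omega
  obtain ⟨q, hq, hqp⟩ : ∃ q ∈ D.filter (fun u => G.Adj z u), q ∉ ({p} : Finset V) := by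
    by_contra hcon
    push Not at hcon
    have := Finset.card_le_card (fun x hx => hcon x hx : (D.filter fun u => G.Adj z u) ⊆ {p})
    rw [Finset.card_singleton] at this
    omega
  rw [Finset.mem_filter] at hp hq
  rw [Finset.mem_insert, Finset.mem_singleton, not_or] at hpab
  rw [Finset.mem_singleton] at hqp
  by_cases hqb : q = b
  · have hqa : q ≠ a := by rw [hqb]; exact hab.symm
    obtain ⟨l, l1, l2, l3⟩ := ham_z81 hz hb ha hab.symm hp.1 hpab.2 hpab.1 hp.2 hq.1 hqp hqa hq.2 hd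
    exact ⟨l.reverse, l1.reverse, by rw [List.length_reverse]; exact l2,
      fun x hx => l3 x (List.mem_reverse.1 hx)⟩
  · exact ham_z81 hz ha hb hab hp.1 hpab.1 hpab.2 hp.2 hq.1 hqp hqb hq.2 hd

/-! ### the two largest values -/

theorem top_two81 [DecidableEq V] {D : Finset V} (f : V → ℕ) (h2 : 2 ≤ D.card) :
    ∃ u ∈ D, ∃ u' ∈ D, u ≠ u' ∧ f u' ≤ f u ∧ (∀ x ∈ D, x ≠ u → f x ≤ f u') ∧
      ∑ x ∈ D, f x ≤ f u + (D.card - 1) * f u' := by
  classical
  have hne : D.Nonempty := Finset.card_pos.1 (by omega)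
  obtain ⟨u, hu, hmax⟩ := D.exists_max_image f hne
  have hne' : (D.erase u).Nonempty := Finset.card_pos.1 (by
    rw [Finset.card_erase_of_mem hu]; omega)
  obtain ⟨u', hu', hmax'⟩ := (D.erase u).exists_max_image f hne'
  refine ⟨u, hu, u', Finset.mem_of_mem_erase hu', (Finset.ne_of_mem_erase hu').symm,
    hmax u' (Finset.mem_of_mem_erase hu'), fun x hx hxu => hmax' x (Finset.mem_erase.2 ⟨hxu, hx⟩),
    ?_⟩
  rw [← Finset.add_sum_erase D f hu, ← Finset.card_erase_of_mem hu, ← smul_eq_mul]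
  exact Nat.add_le_add_left (Finset.sum_le_card_nsmul (D.erase u) f (f u') hmax') _

/-- the arithmetic of the degenerate case -/
theorem arith81a {r a b A1 A2 B1 S1 S2 e : ℕ} (ha4 : 4 ≤ a) (ha : a + 2 ≤ r) (hb : b + 2 ≤ r)
    (hA : A2 ≤ A1) (hA1 : A1 ≤ r) (hS1 : S1 ≤ A1 + (a - 1) * A2) (hS2 : S2 ≤ b * B1) (he : e ≤ 1)
    (h : A2 + B1 ≤ r) :
    2 * (b * S1 + a * S2) + a * b * (a + b + e) ≤ a * b * (4 * r) := by
  obtain ⟨g, rfl⟩ : ∃ g, A1 = A2 + g := ⟨A1 - A2, by omega⟩
  have hS1' : S1 ≤ a * A2 + g := by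
    obtain ⟨s, rfl⟩ : ∃ s, a = s + 1 := ⟨a - 1, by omega⟩
    rw [Nat.add_sub_cancel] at hS1
    have : (s + 1) * A2 = s * A2 + A2 := by ring
    omega
  have hg : g ≤ r := by omega
  have k3 : 2 * (b * S1 + a * S2) ≤ 2 * (a * b * r) + 2 * (b * r) := by
    calc 2 * (b * S1 + a * S2) ≤ 2 * (b * (a * A2 + g) + a * (b * B1)) := by gcongr
      _ = 2 * (a * b * (A2 + B1)) + 2 * (b * g) := by ring
      _ ≤ 2 * (a * b * r) + 2 * (b * r) := by gcongr
  have k4 : 2 * r + a * (a + b + e) ≤ 2 * (a * r) := by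
    obtain ⟨x, rfl⟩ : ∃ x, r = a + 2 + x := ⟨r - (a + 2), by omega⟩
    have h1 : a * (a + b + e) ≤ a * (a + (a + x) + 1) := by
      gcongr
      omega
    have h2 : 4 * (1 + x) ≤ a * (1 + x) := Nat.mul_le_mul_right _ ha4
    have h3 : 2 * (a + 2 + x) + a * (a + (a + x) + 1) + a * (1 + x)
        = 2 * (a * (a + 2 + x)) + (4 + 2 * x) := by ring
    omega
  calc 2 * (b * S1 + a * S2) + a * b * (a + b + e)
      ≤ 2 * (a * b * r) + 2 * (b * r) + a * b * (a + b + e) := Nat.add_le_add_right k3 _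
    _ = 2 * (a * b * r) + b * (2 * r + a * (a + b + e)) := by ring
    _ ≤ 2 * (a * b * r) + b * (2 * (a * r)) := Nat.add_le_add_left (Nat.mul_le_mul_left _ k4) _
    _ = a * b * (4 * r) := by ring

/-- the arithmetic -/
theorem arith81 {r a b A1 A2 B1 B2 S1 S2 e : ℕ} (hr : 6 ≤ r) (ha : a + 2 ≤ r) (hb : b + 2 ≤ r)
    (ha' : r + 1 ≤ 2 * a) (hb' : r + 1 ≤ 2 * b) (hA : A2 ≤ A1) (hB : B2 ≤ B1) (hA1 : A1 ≤ r)
    (hB1 : B1 ≤ r) (hS1 : S1 ≤ A1 + (a - 1) * A2) (hS2 : S2 ≤ B1 + (b - 1) * B2) (he : e ≤ 1)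
    (h : A1 + A2 + B1 + B2 + (a + b + e) ≤ 4 * r ∨ A1 + B2 ≤ r ∨ A2 + B1 ≤ r) :
    2 * (b * S1 + a * S2) + a * b * (a + b + e) ≤ a * b * (4 * r) := by
  have ea : S1 ≤ a * A1 := by
    obtain ⟨s, rfl⟩ : ∃ s, a = s + 1 := ⟨a - 1, by omega⟩
    rw [Nat.add_sub_cancel] at hS1
    have h1 : s * A2 ≤ s * A1 := Nat.mul_le_mul_left _ hA
    have : (s + 1) * A1 = s * A1 + A1 := by ring
    omega
  have eb : S2 ≤ b * B1 := by
    obtain ⟨s, rfl⟩ : ∃ s, b = s + 1 := ⟨b - 1, by omega⟩
    rw [Nat.add_sub_cancel] at hS2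
    have h1 : s * B2 ≤ s * B1 := Nat.mul_le_mul_left _ hB
    have : (s + 1) * B1 = s * B1 + B1 := by ring
    omega
  rcases h with h | h | h
  · obtain ⟨g, rfl⟩ : ∃ g, A1 = A2 + g := ⟨A1 - A2, by omega⟩
    obtain ⟨g', rfl⟩ : ∃ g', B1 = B2 + g' := ⟨B1 - B2, by omega⟩
    have hS1' : S1 ≤ a * A2 + g := by
      obtain ⟨s, rfl⟩ : ∃ s, a = s + 1 := ⟨a - 1, by omega⟩
      rw [Nat.add_sub_cancel] at hS1
      have : (s + 1) * A2 = s * A2 + A2 := by ring
      omega
    have hS2' : S2 ≤ b * B2 + g' := by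
      obtain ⟨s, rfl⟩ : ∃ s, b = s + 1 := ⟨b - 1, by omega⟩
      rw [Nat.add_sub_cancel] at hS2
      have : (s + 1) * B2 = s * B2 + B2 := by ring
      omega
    have g1 : 2 * (b * g) ≤ a * (b * g) := Nat.mul_le_mul_right _ (by omega)
    have g2 : 2 * (a * g') ≤ b * (a * g') := Nat.mul_le_mul_right _ (by omega)
    calc 2 * (b * S1 + a * S2) + a * b * (a + b + e)
        ≤ 2 * (b * (a * A2 + g) + a * (b * B2 + g')) + a * b * (a + b + e) := by gcongr
      _ = 2 * (b * (a * A2)) + 2 * (a * (b * B2)) + 2 * (b * g) + 2 * (a * g')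
          + a * b * (a + b + e) := by ring
      _ ≤ 2 * (b * (a * A2)) + 2 * (a * (b * B2)) + a * (b * g) + b * (a * g')
          + a * b * (a + b + e) := by gcongr
      _ = a * b * (A2 + g + A2 + (B2 + g') + B2 + (a + b + e)) := by ring
      _ ≤ a * b * (4 * r) := Nat.mul_le_mul_left _ h
  · have := arith81a (r := r) (a := b) (b := a) (A1 := B1) (A2 := B2) (B1 := A1) (S1 := S2)
      (S2 := S1) (e := e) (by omega) hb ha hB hB1 hS2 ea he (by omega)
    have e1 : 2 * (a * S2 + b * S1) = 2 * (b * S1 + a * S2) := by ring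
    have e2 : b * a * (b + a + e) = a * b * (a + b + e) := by ring
    have e3 : b * a * (4 * r) = a * b * (4 * r) := by ring
    rw [e1, e2, e3] at this
    exact this
  · exact arith81a (by omega) ha hb hA hA1 hS1 eb he h

/-! ### the two estimates -/

/-- a vertex of the piece sees at most the others and `z` -/
theorem dg_insert_le81 [DecidableEq V] {D : Finset V} {z u : V} (hu : u ∈ D) :
    dg G (insert z D) u ≤ D.card := by
  have h : dg G (insert z D) u ≤ (insert z (D.erase u)).card := by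
    refine dg_le49 ?_
    intro y hy hadj
    rw [Finset.mem_insert] at hy ⊢
    rcases hy with h | h
    · exact Or.inl h
    · exact Or.inr (Finset.mem_erase.2 ⟨fun h' => G.loopless.irrefl u (by rw [h'] at hadj; exact hadj), h⟩)
  have h1 := Finset.card_insert_le z (D.erase u)
  have h2 := Finset.card_erase_of_mem hu
  have h3 : 0 < D.card := Finset.card_pos.2 ⟨u, hu⟩
  omega

theorem dg_insert_le81' [DecidableEq V] {D : Finset V} {z u : V} (hz : z ∉ D) :
    dg G (insert z D) u ≤ dg G D u + 1 := by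
  have h1 : insert z D = {z} ∪ D := rfl
  rw [h1, dg_union (Finset.disjoint_singleton_left.2 hz)]
  have := dg_le (G := G) ({z} : Finset V) u
  rw [Finset.card_singleton] at this
  omega

section

variable [DecidableEq V] {U : Finset V} {r : ℕ} {F : Finset (Finset V)} {D₁ D₂ : Finset V}
  {z₁ z₂ x₀ : V}

theorem TwoEnds49.big1 (h : TwoEnds49 G (rest U F) r D₁ D₂ z₁ z₂ x₀) (hr : 6 ≤ r) :
    r + 1 ≤ 2 * D₁.card := by
  have h1 := h.size
  have h2 := h.le1
  have h3 := h.le2
  obtain ⟨u, hu⟩ : D₁.Nonempty := Finset.card_pos.1 (by omega)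
  have h4 := h.deg1 u hu
  have h5 := dg_insert_le81 (G := G) (z := z₁) hu
  omega

theorem TwoEnds49.big2 (h : TwoEnds49 G (rest U F) r D₁ D₂ z₁ z₂ x₀) (hr : 6 ≤ r) :
    r + 1 ≤ 2 * D₂.card := by
  have h1 := h.size
  have h2 := h.le1
  have h3 := h.le2
  obtain ⟨u, hu⟩ : D₂.Nonempty := Finset.card_pos.1 (by omega)
  have h4 := h.deg2 u hu
  have h5 := dg_insert_le81 (G := G) (z := z₂) hu
  omega

/-- inside one piece -/
theorem join81 {D : Finset V} {z : V} (hz : z ∉ D) (hle : D.card + 2 ≤ r)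
    (hdeg : ∀ u ∈ D, r + 1 ≤ 2 * dg G (insert z D) u) {a b : V} (ha : a ∈ D) (hb : b ∈ D)
    (hab : a ≠ b) : ∃ l, Pth G a b l ∧ l.length = D.card ∧ ∀ x, x ∈ l → x ∈ D := by
  refine ham81 ha hb hab ?_
  intro x hx y hy
  have h1 := hdeg x hx
  have h2 := hdeg y hy
  have h3 := dg_insert_le81' (G := G) (u := x) hz
  have h4 := dg_insert_le81' (G := G) (u := y) hz
  omega

theorem join_full81 {D : Finset V} {z : V} (hz : z ∉ D) (hle : D.card + 2 ≤ r)
    (h3 : 3 ≤ dg G D z)
    (hdeg : ∀ u ∈ D, r + 1 ≤ 2 * dg G (insert z D) u) {a b : V} (ha : a ∈ D) (hb : b ∈ D)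
    (hab : a ≠ b) : ∃ l, Pth G a b l ∧ l.length = D.card + 1 ∧ ∀ x, x ∈ l → x ∈ insert z D := by
  refine ham_full81 hz ha hb hab h3 ?_
  intro x hx y hy
  have h1 := hdeg x hx
  have h2 := hdeg y hy
  omega

/-- both estimates at once -/
theorem TwoEnds49.avg_aux (hr : 6 ≤ r) (hF : Opt49 G U r F)
    (h : TwoEnds49 G (rest U F) r D₁ D₂ z₁ z₂ x₀) {C : Finset V} (hC : C ∈ F)
    {e1 e2 : ℕ} {T1 T2 : Finset V} (he : e1 + e2 ≤ 1)
    (hT1 : ∀ x ∈ T1, x ∈ rest U F) (hT2 : ∀ x ∈ T2, x ∈ rest U F) (hT : Disjoint T1 T2)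
    (p1 : ∀ a ∈ D₁, ∀ b ∈ D₁, a ≠ b →
      ∃ l, Pth G a b l ∧ l.length = D₁.card + e1 ∧ ∀ x, x ∈ l → x ∈ T1)
    (p2 : ∀ a ∈ D₂, ∀ b ∈ D₂, a ≠ b →
      ∃ l, Pth G a b l ∧ l.length = D₂.card + e2 ∧ ∀ x, x ∈ l → x ∈ T2) :
    2 * (D₂.card * (∑ u ∈ D₁, dg G C u) + D₁.card * (∑ v ∈ D₂, dg G C v))
      + D₁.card * D₂.card * (D₁.card + D₂.card + (e1 + e2)) ≤ D₁.card * D₂.card * (4 * r) := by
  have hb1 := h.big1 hr
  have hb2 := h.big2 hr
  have hl1 := h.le1
  have hl2 := h.le2
  have hCr := hF.fam.len C hC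
  obtain ⟨u, hu, u', hu', huu, hA, -, hS1⟩ := top_two81 (D := D₁) (fun x => dg G C x) (by omega)
  obtain ⟨v, hv, v', hv', hvv, hB, -, hS2⟩ := top_two81 (D := D₂) (fun x => dg G C x) (by omega)
  rcases Nat.lt_or_ge r C.card with h0 | h0
  · -- a longer member
    have hout : ∀ x ∈ rest U F, dg G C x ≤ (r + 1) / 2 := fun x hx =>
      hF.outside (by omega) hC h0 hx
    have s1 : ∑ u ∈ D₁, dg G C u ≤ D₁.card * ((r + 1) / 2) := by
      rw [← smul_eq_mul]
      exact Finset.sum_le_card_nsmul _ _ _ fun x hx => hout x (h.sub1 hx)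
    have s2 : ∑ u ∈ D₂, dg G C u ≤ D₂.card * ((r + 1) / 2) := by
      rw [← smul_eq_mul]
      exact Finset.sum_le_card_nsmul _ _ _ fun x hx => hout x (h.sub2 hx)
    have h2 : 4 * ((r + 1) / 2) + (D₁.card + D₂.card + (e1 + e2)) ≤ 4 * r := by omega
    calc 2 * (D₂.card * (∑ u ∈ D₁, dg G C u) + D₁.card * (∑ v ∈ D₂, dg G C v))
          + D₁.card * D₂.card * (D₁.card + D₂.card + (e1 + e2))
        ≤ 2 * (D₂.card * (D₁.card * ((r + 1) / 2)) + D₁.card * (D₂.card * ((r + 1) / 2)))
          + D₁.card * D₂.card * (D₁.card + D₂.card + (e1 + e2)) := by gcongr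
      _ = D₁.card * D₂.card * (4 * ((r + 1) / 2) + (D₁.card + D₂.card + (e1 + e2))) := by ring
      _ ≤ D₁.card * D₂.card * (4 * r) := Nat.mul_le_mul_left _ h2
  · have hCc : C.card = r := le_antisymm h0 hCr
    obtain ⟨l, l1, l2, l3⟩ := p1 u hu u' hu' huu
    obtain ⟨l', l1', l2', l3'⟩ := p2 v hv v' hv' hvv
    have hq := quad81 (hF.fam.cyc C hC) hCc l1 l1'
      (fun x hx hx' => Finset.disjoint_left.1 hT (l3 x hx) (l3' x hx'))
      (fun x hx => (mem_rest.1 (hT1 x (l3 x hx))).2 C hC)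
      (fun x hx => (mem_rest.1 (hT2 x (l3' x hx))).2 C hC)
      (by omega) (by omega) (by omega) (by
        intro h2
        refine hF.no_two hC (h2.mono ?_)
        intro x hx
        rw [Finset.mem_union, Finset.mem_union, List.mem_toFinset, List.mem_toFinset] at hx
        rw [Finset.mem_union]
        rcases hx with (hx | hx) | hx
        · exact Or.inl hx
        · exact Or.inr (hT1 x (l3 x hx))
        · exact Or.inr (hT2 x (l3' x hx)))
    rw [l2, l2'] at hq
    have q1 : dg G C u ≤ r := by rw [← hCc]; exact dg_le _ _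
    have q2 : dg G C v ≤ r := by rw [← hCc]; exact dg_le _ _
    refine arith81 hr hl1 hl2 hb1 hb2 hA hB q1 q2 hS1 hS2 he ?_
    rcases hq with hq | ⟨-, hq | hq⟩
    · left; omega
    · right; left; exact hq
    · right; right; exact hq

/-- **(4.2)** -/
theorem TwoEnds49.avg81 (hr : 6 ≤ r) (hF : Opt49 G U r F)
    (h : TwoEnds49 G (rest U F) r D₁ D₂ z₁ z₂ x₀) {C : Finset V} (hC : C ∈ F) :
    2 * (D₂.card * (∑ u ∈ D₁, dg G C u) + D₁.card * (∑ v ∈ D₂, dg G C v))
      + D₁.card * D₂.card * (D₁.card + D₂.card) ≤ D₁.card * D₂.card * (4 * r) :=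
  h.avg_aux (e1 := 0) (e2 := 0) hr hF hC (by omega) (fun x hx => h.sub1 hx)
    (fun x hx => h.sub2 hx) h.disj (fun a ha b hb hab => join81 h.z11 h.le1 h.deg1 ha hb hab)
    (fun a ha b hb hab => join81 h.z22 h.le2 h.deg2 ha hb hab)

/-- **(4.3)** -/
theorem TwoEnds49.avg_full81 (hr : 6 ≤ r) (hF : Opt49 G U r F)
    (h : TwoEnds49 G (rest U F) r D₁ D₂ z₁ z₂ x₀) {C : Finset V} (hC : C ∈ F)
    (h3 : 3 ≤ dg G D₁ z₁ ∨ 3 ≤ dg G D₂ z₂) :
    2 * (D₂.card * (∑ u ∈ D₁, dg G C u) + D₁.card * (∑ v ∈ D₂, dg G C v))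
      + D₁.card * D₂.card * (D₁.card + D₂.card + 1) ≤ D₁.card * D₂.card * (4 * r) := by
  rcases h3 with h3 | h3
  · exact h.avg_aux (e1 := 1) (e2 := 0) (T1 := insert z₁ D₁) (T2 := D₂) hr hF hC (by omega)
      (fun x hx => by
        rcases Finset.mem_insert.1 hx with hx | hx
        · rw [hx]; exact h.z1
        · exact h.sub1 hx)
      (fun x hx => h.sub2 hx) (Finset.disjoint_insert_left.2 ⟨h.z12, h.disj⟩)
      (fun a ha b hb hab => join_full81 h.z11 h.le1 h3 h.deg1 ha hb hab)
      (fun a ha b hb hab => join81 h.z22 h.le2 h.deg2 ha hb hab)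
  · exact h.avg_aux (e1 := 0) (e2 := 1) (T1 := D₁) (T2 := insert z₂ D₂) hr hF hC (by omega)
      (fun x hx => h.sub1 hx)
      (fun x hx => by
        rcases Finset.mem_insert.1 hx with hx | hx
        · rw [hx]; exact h.z2
        · exact h.sub2 hx)
      (Finset.disjoint_insert_right.2 ⟨h.z21, h.disj⟩)
      (fun a ha b hb hab => join81 h.z11 h.le1 h.deg1 ha hb hab)
      (fun a ha b hb hab => join_full81 h.z22 h.le2 h3 h.deg2 ha hb hab)

end

end Pool.Agent.P0
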