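import Pool.Agent.P0.BPair57
import Pool.Agent.P0.B35

set_option linter.all false

/-!
# P0, I7 (B), part 5: the predicate, the third ends, and the conclusion
-/

namespace Pool.Agent.P0

open Pool.Agent.Helper14.LongCyc Pool.Agent.LCK Pool.Agent.FRC

universe u

variable {V : Type u} {G : SimpleGraph V} {U : Finset V} {k r : ℕ} {Q : List V} {p q x y : V}
  {F : Finset (Finset V)} {C E : Finset V} {f g : ℕ → V}

/-- `C` is bad with small end `x`; the third ends are `z1`, `z2` -/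
def Bad57 (G : SimpleGraph V) (r : ℕ) (p q x y : V) (C : Finset V) (z1 z2 : V) : Prop :=
  y ∉ C ∧ ∃ f : ℕ → V, (One57 G r x y p q C f ∧ z1 = f 1 ∧ z2 = f 3) ∨
    (Two57 G r x y p q C f ∧ z1 = f 0 ∧ z2 = f 4)

/-- the exchange cycle -/
theorem Rot19.exch57 [DecidableEq V] (h : Rot19 G r C f) (hr : 3 ≤ r) (hy : y ∉ C) {a : ℕ}
    (h1 : G.Adj y (f (a + 1))) (h2 : G.Adj y (f (a + (r - 1)))) :
    CycSet G (insert y (C.erase (f a))) := by
  have P : Pth G (f (a + 1)) (f (a + 1 + (r - 2))) (seg f (a + 1) (r - 2)) :=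
    ⟨h.nodup (a + 1) (r - 2) (by omega), h.wk (a + 1) (r - 2)⟩
  rw [show a + 1 + (r - 2) = a + (r - 1) by omega] at P
  obtain ⟨q1, -⟩ := joinSet P (Pth.singleton y) (by
    intro z hz hz'
    rw [List.mem_singleton] at hz'
    rw [Pool.Agent.Helper14.LongCyc.mem_seg] at hz
    obtain ⟨j, _, _, rfl⟩ := hz
    exact hy (hz' ▸ h.mem' (by omega) j)) (by
    rw [seg_length]
    simp only [List.length_singleton]
    omega) (Or.inl ⟨h1.symm, h2.symm⟩)
  have e : insert y (C.erase (f a)) = (seg f (a + 1) (r - 2) ++ [y]).toFinset := by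
    ext z
    rw [Finset.mem_insert, Finset.mem_erase, List.mem_toFinset, List.mem_append,
      List.mem_singleton, Pool.Agent.Helper14.LongCyc.mem_seg]
    constructor
    · rintro (hz | ⟨hz, hz'⟩)
      · exact Or.inr hz
      · obtain ⟨i, i1, i2, i3⟩ := h.win (by omega) (a + 1) hz'
        left
        refine ⟨i, i1, ?_, i3⟩
        by_contra hi
        have : i = a + r := by omega
        rw [this, h.per] at i3
        exact hz i3
    · rintro (⟨j, j1, j2, rfl⟩ | hz)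
      · right
        exact ⟨(h.inj a j (by omega) (by omega)).symm, h.mem' (by omega) j⟩
      · exact Or.inl hz
  rw [e]
  exact q1

theorem zb57 [DecidableEq V] (hr : 6 ≤ r) : ZB35 G (Bad57 G r) := by
  rintro p q x y C z1 z2 ⟨hy, f, ⟨B, rfl, rfl⟩ | ⟨B, rfl, rfl⟩⟩
  · have fm : ∀ i, f i ∈ C := fun i => B.rot.mem' (by omega) i
    have n1 : f 1 ≠ f 2 := B.rot.ne57 (by omega) (by omega) (by omega)
    have n3 : f 3 ≠ f 2 := B.rot.ne57 (by omega) (by omega) (by omega)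
    exact ⟨fm _, fm _, B.rot.exch57 (by omega) hy (B.hy _ (fm _)) (B.hy _ (fm _)),
      B.rot.exch57 (by omega) hy (B.hy _ (fm _)) (B.hy _ (fm _)), B.hq _ (fm _) n1,
      B.hq _ (fm _) n3⟩
  · have fm : ∀ i, f i ∈ C := fun i => B.rot.mem' (by omega) i
    have n : ∀ {i}, i < r → i ≠ 2 → f i ≠ f 2 := fun h1 h2 => B.rot.ne57 h1 (by omega) h2
    refine ⟨fm _, fm _, B.rot.exch57 (by omega) hy ((B.hy _ (fm _)).2 (n (by omega) (by omega)))
      ((B.hy _ (fm _)).2 ?_), B.rot.exch57 (by omega) hy ((B.hy _ (fm _)).2 (n (by omega)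
      (by omega))) ((B.hy _ (fm _)).2 ?_), B.hq _ (fm _) (n (by omega) (by omega)),
      B.hq _ (fm _) (n (by omega) (by omega))⟩
    · rw [Nat.zero_add]
      exact n (by omega) (by omega)
    · rw [show 4 + (r - 1) = 3 + r by omega, B.rot.per]
      exact n (by omega) (by omega)

theorem plb57 [DecidableEq V] (hr : 7 ≤ r) : PLB35 G U r (Bad57 G r) := by
  rintro Q p q F x y h C hC E hE hne z1 z2 e1 e2 ⟨-, f, ⟨B, rfl, rfl⟩ | ⟨B, rfl, rfl⟩⟩
    ⟨-, g, ⟨B', -⟩ | ⟨B', -⟩⟩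
  · exact h.pair_oo57 (by omega) hC hE hne B B'
  · exact h.pair_ot57 (by omega) hC hE hne B B'
  · exact h.pair_to57 hr hC hE hne B B'
  · exact h.pair_tt57 (by omega) hC hE hne B B'

theorem bdis57 (hr : 6 ≤ r) : ∀ p q x y C z1 z2 w1 w2, Bad57 G r p q x y C z1 z2 →
    Bad57 G r q p y x C w1 w2 → False := by
  rintro p q x y C z1 z2 w1 w2 ⟨-, f, hf⟩ ⟨-, g, hg⟩
  have R : Rot19 G r C f := by
    rcases hf with ⟨B, -⟩ | ⟨B, -⟩ <;> exact B.rot
  have fm : ∀ i, f i ∈ C := fun i => R.mem' (by omega) i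
  have h1 : ∀ i, 3 ≤ i → i ≤ 5 → G.Adj y (f i) := by
    intro i h3 h5
    rcases hf with ⟨B, -⟩ | ⟨B, -⟩
    · exact B.hy _ (fm _)
    · exact (B.hy _ (fm _)).2 (R.ne57 (by omega) (by omega) (by omega))
  have h2 : ∃ a b, ∀ z ∈ C, G.Adj y z → z = a ∨ z = b := by
    rcases hg with ⟨B, -⟩ | ⟨B, -⟩
    · exact ⟨g 2, g 2, fun z hz ha => Or.inl ((B.hx z hz).1 ha)⟩
    · exact ⟨g 1, g 3, fun z hz ha => (B.hx z hz).1 ha⟩
  obtain ⟨a, b, hab⟩ := h2
  have k3 := hab _ (fm 3) (h1 3 (by omega) (by omega))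
  have k4 := hab _ (fm 4) (h1 4 (by omega) (by omega))
  have k5 := hab _ (fm 5) (h1 5 (by omega) (by omega))
  have n34 : f 3 ≠ f 4 := R.ne57 (by omega) (by omega) (by omega)
  have n35 : f 3 ≠ f 5 := R.ne57 (by omega) (by omega) (by omega)
  have n45 : f 4 ≠ f 5 := R.ne57 (by omega) (by omega) (by omega)
  rcases k3 with k3 | k3 <;> rcases k4 with k4 | k4 <;> rcases k5 with k5 | k5
  · exact n34 (k3.trans k4.symm)
  · exact n34 (k3.trans k4.symm)
  · exact n35 (k3.trans k5.symm)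
  · exact n45 (k4.trans k5.symm)
  · exact n45 (k4.trans k5.symm)
  · exact n35 (k3.trans k5.symm)
  · exact n34 (k3.trans k4.symm)
  · exact n34 (k3.trans k4.symm)

/-- **(B)**: if every exceptional member of every admissible pair is bad, there is no admissible
pair -/
theorem b57 [DecidableEq V] (S : Set41 G U k r) (hr : 7 ≤ r) (hLL : LLB35 G U r (Bad57 G r))
    (h : Adm41 G U r Q p q F x y) : False :=
  b35 S (by omega) hLL (zb57 (by omega)) (plb57 hr) (bdis57 (by omega)) h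

end Pool.Agent.P0
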