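import Pool.Agent.P0.Graph49

set_option linter.all false

/-!
# P0, I7 (B), part 1: index calculus for three disjoint cycles

Two disjoint cycles `C`, `E` with `r` vertices, two more vertices `x`, `y` and a path `mid` from `s` to `t`
with `r - 2` vertices.  The vertices of `C`, `E`, `x`, `y` are `w 0, …, w (2 r + 1)`.
-/

namespace Pool.Agent.P0

open Pool.Agent.Helper14.LongCyc Pool.Agent.LCK

universe u

variable {V : Type u} {G : SimpleGraph V}

/-- three disjoint long cycles inside `U` -/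
def Three57 (G : SimpleGraph V) (r : ℕ) (U : Finset V) : Prop :=
  ∃ A B D : Finset V, CycSet G A ∧ CycSet G B ∧ CycSet G D ∧ A ⊆ U ∧ B ⊆ U ∧ D ⊆ U ∧
    r ≤ A.card ∧ r ≤ B.card ∧ r ≤ D.card ∧ Disjoint A B ∧ Disjoint A D ∧ Disjoint B D

theorem Three57.mono {r : ℕ} {U U' : Finset V} (h : Three57 G r U) (hU : U ⊆ U') :
    Three57 G r U' := by
  obtain ⟨A, B, D, h1, h2, h3, h4, h5, h6, h7⟩ := h
  exact ⟨A, B, D, h1, h2, h3, h4.trans hU, h5.trans hU, h6.trans hU, h7⟩

/-- the labelled configuration -/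
structure Lab57 (G : SimpleGraph V) (r : ℕ) (w : ℕ → V) (s t : V) (mid : List V) : Prop where
  inj : ∀ i j, i < 2 * r + 2 → j < 2 * r + 2 → w i = w j → i = j
  cadj : ∀ i, i + 1 < r → G.Adj (w i) (w (i + 1))
  cclose : G.Adj (w (r - 1)) (w 0)
  eadj : ∀ i, r ≤ i → i + 1 < 2 * r → G.Adj (w i) (w (i + 1))
  eclose : G.Adj (w (2 * r - 1)) (w r)
  path : Pth G s t mid
  len : mid.length + 2 = r
  off : ∀ z ∈ mid, ∀ i, i < 2 * r + 2 → z ≠ w i

/-- index segment -/
def iseg57 (i n : ℕ) : List ℕ := List.range' i (n + 1)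

theorem mem_iseg57 {x i n : ℕ} : x ∈ iseg57 i n ↔ i ≤ x ∧ x ≤ i + n := by
  unfold iseg57
  rw [List.mem_range'_1]
  omega

theorem iseg_length57 {i n : ℕ} : (iseg57 i n).length = n + 1 := by simp [iseg57]

theorem iseg_pth57 {H : SimpleGraph ℕ} : ∀ (n i : ℕ), (∀ j, i ≤ j → j < i + n → H.Adj j (j + 1)) →
    Pth H i (i + n) (iseg57 i n) := by
  intro n
  induction n with
  | zero => intro i _; simpa [iseg57] using Pth.singleton i
  | succ n ih =>
    intro i hi
    have h1 := ih (i + 1) (fun j h1 h2 => hi j (by omega) (by omega))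
    have e : iseg57 i (n + 1) = i :: iseg57 (i + 1) n := by
      simp only [iseg57, List.range'_succ]
    rw [e, show i + (n + 1) = i + 1 + n by ring]
    refine h1.cons (hi i le_rfl (by omega)) ?_
    rw [mem_iseg57]
    omega

variable {r : ℕ} {w : ℕ → V} {s t : V} {mid : List V}

theorem Lab57.cseg (h : Lab57 G r w s t mid) {i n : ℕ} (hi : i + n < r) :
    Pth (G.comap w) i (i + n) (iseg57 i n) :=
  iseg_pth57 n i fun j h1 h2 => h.cadj j (by omega)

theorem Lab57.eseg (h : Lab57 G r w s t mid) {i n : ℕ} (hr : r ≤ i) (hi : i + n < 2 * r) :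
    Pth (G.comap w) i (i + n) (iseg57 i n) :=
  iseg_pth57 n i fun j h1 h2 => h.eadj j (by omega) (by omega)

/-- a closed index path gives a cycle -/
theorem Lab57.cyc [DecidableEq V] (h : Lab57 G r w s t mid) {i j : ℕ} {l : List ℕ}
    (hl : Pth (G.comap w) i j l) (hm : ∀ z ∈ l, z < 2 * r + 2) (hc : G.Adj (w j) (w i))
    (h3 : 3 ≤ l.length) :
    CycSet G (l.map w).toFinset ∧ (l.map w).toFinset.card = l.length := by
  have hn : (l.map w).Nodup := by
    refine (List.nodup_map_iff_inj_on hl.1).2 ?_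
    intro a ha b hb hab
    exact h.inj a b (hm a ha) (hm b hb) hab
  refine ⟨⟨l.map w, ⟨by simpa using h3, w i, w j, ⟨hn, ?_, ?_, ?_⟩, hc⟩,
    fun x => List.mem_toFinset.symm⟩, ?_⟩
  · exact (List.isChain_map (R := G.Adj) w).2 hl.2.1
  · rw [List.head?_map, hl.2.2.1]; rfl
  · rw [List.getLast?_map, hl.2.2.2]; rfl
  · rw [List.toFinset_card_of_nodup hn, List.length_map]

/-- the region -/
def Lab57.reg [DecidableEq V] (h : Lab57 G r w s t mid) : Finset V :=
  (Finset.range (2 * r + 2)).image w ∪ mid.toFinset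

/-- the three cycles -/
theorem Lab57.three [DecidableEq V] (h : Lab57 G r w s t mid) (hr : 3 ≤ r) {a b : ℕ}
    (ha : a < 2 * r + 2) (hb : b < 2 * r + 2) (hne : a ≠ b) (hab : G.Adj (w a) (w b))
    (hst : (G.Adj s (w a) ∧ G.Adj t (w b)) ∨ (G.Adj s (w b) ∧ G.Adj t (w a)))
    {i j i' j' : ℕ} {l l' : List ℕ} (hl : Pth (G.comap w) i j l) (hm : ∀ z ∈ l, z < 2 * r + 2)
    (hc : G.Adj (w j) (w i)) (hlen : r ≤ l.length)
    (hl' : Pth (G.comap w) i' j' l') (hm' : ∀ z ∈ l', z < 2 * r + 2)
    (hc' : G.Adj (w j') (w i')) (hlen' : r ≤ l'.length)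
    (hd : ∀ z ∈ l, z ∉ l' ∧ z ≠ a ∧ z ≠ b) (hd' : ∀ z ∈ l', z ≠ a ∧ z ≠ b) :
    Three57 G r h.reg := by
  have hP : Pth G (w a) (w b) [w a, w b] :=
    (Pth.singleton (w b)).cons hab (by
      rw [List.mem_singleton]
      intro hh
      exact hne (h.inj a b ha hb hh))
  obtain ⟨q1, q2⟩ := joinSet h.path hP (by
      intro z hz hz'
      rcases List.mem_cons.1 hz' with e | e
      · exact h.off z hz a ha e
      · rw [List.mem_singleton] at e
        exact h.off z hz b hb e) (by
      have := h.len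
      simp only [List.length_cons, List.length_nil]
      omega) hst
  obtain ⟨p1, p2⟩ := h.cyc hl hm hc (by omega)
  obtain ⟨p1', p2'⟩ := h.cyc hl' hm' hc' (by omega)
  refine ⟨_, _, _, q1, p1, p1', ?_, ?_, ?_, ?_, by omega, by omega, ?_, ?_, ?_⟩
  · intro z hz
    rw [List.mem_toFinset, List.mem_append] at hz
    unfold Lab57.reg
    rw [Finset.mem_union]
    rcases hz with hz | hz
    · exact Or.inr (List.mem_toFinset.2 hz)
    · refine Or.inl (Finset.mem_image.2 ?_)
      rcases List.mem_cons.1 hz with e | e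
      · exact ⟨a, Finset.mem_range.2 ha, e.symm⟩
      · rw [List.mem_singleton] at e
        exact ⟨b, Finset.mem_range.2 hb, e.symm⟩
  · intro z hz
    rw [List.mem_toFinset, List.mem_map] at hz
    obtain ⟨i, hi, rfl⟩ := hz
    exact Finset.mem_union_left _ (Finset.mem_image.2 ⟨i, Finset.mem_range.2 (hm i hi), rfl⟩)
  · intro z hz
    rw [List.mem_toFinset, List.mem_map] at hz
    obtain ⟨i, hi, rfl⟩ := hz
    exact Finset.mem_union_left _ (Finset.mem_image.2 ⟨i, Finset.mem_range.2 (hm' i hi), rfl⟩)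
  · have := h.len
    rw [q2]
    simp only [List.length_cons, List.length_nil]
    omega
  · rw [Finset.disjoint_left]
    intro z hz hz'
    rw [List.mem_toFinset, List.mem_append] at hz
    rw [List.mem_toFinset, List.mem_map] at hz'
    obtain ⟨k, hk, rfl⟩ := hz'
    rcases hz with hz | hz
    · exact h.off _ hz k (hm k hk) rfl
    · rcases List.mem_cons.1 hz with e | e
      · exact (hd k hk).2.1 (h.inj k a (hm k hk) ha e)
      · rw [List.mem_singleton] at e
        exact (hd k hk).2.2 (h.inj k b (hm k hk) hb e)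
  · rw [Finset.disjoint_left]
    intro z hz hz'
    rw [List.mem_toFinset, List.mem_append] at hz
    rw [List.mem_toFinset, List.mem_map] at hz'
    obtain ⟨k, hk, rfl⟩ := hz'
    rcases hz with hz | hz
    · exact h.off _ hz k (hm' k hk) rfl
    · rcases List.mem_cons.1 hz with e | e
      · exact (hd' k hk).1 (h.inj k a (hm' k hk) ha e)
      · rw [List.mem_singleton] at e
        exact (hd' k hk).2 (h.inj k b (hm' k hk) hb e)
  · rw [Finset.disjoint_left]
    intro z hz hz'
    rw [List.mem_toFinset, List.mem_map] at hz hz'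
    obtain ⟨k, hk, rfl⟩ := hz
    obtain ⟨k', hk', e⟩ := hz'
    have := h.inj k' k (hm' k' hk') (hm k hk) e
    subst this
    exact (hd k' hk).1 hk'

end Pool.Agent.P0
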