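import Pool.Agent.P0.BIdx57

set_option linter.all false

/-!
# P0, I7 (B), part 2: the five constructions of three disjoint cycles
-/

namespace Pool.Agent.P0

open Pool.Agent.Helper14.LongCyc Pool.Agent.LCK

universe u

variable {V : Type u} {G : SimpleGraph V} {r : ℕ} {w : ℕ → V} {s t : V} {mid : List V}

/-- both cycles of the second kind -/
theorem Lab57.k1 [DecidableEq V] (h : Lab57 G r w s t mid) (hr : 6 ≤ r)
    (xC : G.Adj (w (2 * r)) (w 2)) (xE : G.Adj (w (2 * r)) (w (r + 2)))
    (yC : G.Adj (w (2 * r + 1)) (w 0)) (yE : G.Adj (w (2 * r + 1)) (w (2 * r - 4)))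
    (hst : (G.Adj s (w r) ∧ G.Adj t (w (r + 1))) ∨ (G.Adj s (w (r + 1)) ∧ G.Adj t (w r)))
    (hz : (G.Adj (w (r - 1)) (w (2 * r - 3)) ∧ G.Adj (w 3) (w (2 * r - 1))) ∨
      (G.Adj (w (r - 1)) (w (2 * r - 1)) ∧ G.Adj (w 3) (w (2 * r - 3)))) : Three57 G r h.reg := by
  have P1 := h.eseg (i := r + 2) (n := r - 6) (by omega) (by omega)
  rw [show r + 2 + (r - 6) = 2 * r - 4 by omega] at P1
  have P2 := h.cseg (i := 0) (n := 2) (by omega)
  have B := ((P1.cons (c := 2 * r) xE (by rw [mem_iseg57]; omega)).concat (c := 2 * r + 1) yE.symm
    (by rw [List.mem_cons, mem_iseg57]; omega)).append P2 yC (by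
      intro z hz
      rw [List.mem_append, List.mem_cons, mem_iseg57, List.mem_singleton] at hz
      rw [mem_iseg57]
      omega)
  have P3 := h.cseg (i := 3) (n := r - 4) (by omega)
  rw [show 3 + (r - 4) = r - 1 by omega] at P3
  have P4 := h.eseg (i := 2 * r - 3) (n := 2) (by omega) (by omega)
  rw [show 2 * r - 3 + 2 = 2 * r - 1 by omega] at P4
  have eab := h.eadj r le_rfl (by omega)
  rcases hz with ⟨z1, z2⟩ | ⟨z1, z2⟩
  · have D := P3.append P4 z1 (by
      intro z hz
      rw [mem_iseg57] at hz ⊢
      omega)
    refine h.three (by omega) (a := r) (b := r + 1) (by omega) (by omega) (by omega) eab hst B ?_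
      xC.symm ?_ D ?_ z2.symm ?_ ?_ ?_
    · intro z hz
      simp only [List.mem_append, List.mem_cons, mem_iseg57, List.not_mem_nil, or_false] at hz
      omega
    · simp only [List.length_append, List.length_cons, iseg_length57, List.length_nil]
      omega
    · intro z hz
      simp only [List.mem_append, mem_iseg57] at hz
      omega
    · simp only [List.length_append, iseg_length57]
      omega
    · intro z hz
      simp only [List.mem_append, List.mem_cons, mem_iseg57, List.not_mem_nil, or_false] at hz ⊢
      omega
    · intro z hz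
      simp only [List.mem_append, mem_iseg57] at hz
      omega
  · have D := P3.append P4.reverse z1 (by
      intro z hz
      rw [List.mem_reverse, mem_iseg57]
      rw [mem_iseg57] at hz
      omega)
    refine h.three (by omega) (a := r) (b := r + 1) (by omega) (by omega) (by omega) eab hst B ?_
      xC.symm ?_ D ?_ z2.symm ?_ ?_ ?_
    · intro z hz
      simp only [List.mem_append, List.mem_cons, mem_iseg57, List.not_mem_nil, or_false] at hz
      omega
    · simp only [List.length_append, List.length_cons, iseg_length57, List.length_nil]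
      omega
    · intro z hz
      simp only [List.mem_append, List.mem_reverse, mem_iseg57] at hz
      omega
    · simp only [List.length_append, List.length_reverse, iseg_length57]
      omega
    · intro z hz
      simp only [List.mem_append, List.mem_cons, List.mem_reverse, mem_iseg57,
        List.not_mem_nil, or_false] at hz ⊢
      omega
    · intro z hz
      simp only [List.mem_append, List.mem_reverse, mem_iseg57] at hz
      omega

/-- `C` of the first, `E` of the second kind -/
theorem Lab57.k2 [DecidableEq V] (h : Lab57 G r w s t mid) (hr : 6 ≤ r)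
    (xC : G.Adj (w (2 * r)) (w 0)) (xE : G.Adj (w (2 * r)) (w (r + 2)))
    (yC : G.Adj (w (2 * r + 1)) (w 0)) (yE : G.Adj (w (2 * r + 1)) (w (2 * r - 2)))
    (hst : (G.Adj s (w r) ∧ G.Adj t (w (r + 1))) ∨ (G.Adj s (w (r + 1)) ∧ G.Adj t (w r)))
    (z1 : G.Adj (w (r - 1)) (w (2 * r - 1))) (z2 : G.Adj (w 1) (w (2 * r - 1))) :
    Three57 G r h.reg := by
  have P1 := h.eseg (i := r + 2) (n := r - 4) (by omega) (by omega)
  rw [show r + 2 + (r - 4) = 2 * r - 2 by omega] at P1
  have B := ((P1.cons (c := 2 * r) xE (by rw [mem_iseg57]; omega)).concat (c := 2 * r + 1) yE.symm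
    (by rw [List.mem_cons, mem_iseg57]; omega)).concat (c := 0) yC (by
      rw [List.mem_append, List.mem_cons, mem_iseg57, List.mem_singleton]
      omega)
  have P3 := h.cseg (i := 1) (n := r - 2) (by omega)
  rw [show 1 + (r - 2) = r - 1 by omega] at P3
  have eab := h.eadj r le_rfl (by omega)
  have D := P3.concat (c := 2 * r - 1) z1 (by
      rw [mem_iseg57]
      omega)
  refine h.three (by omega) (a := r) (b := r + 1) (by omega) (by omega) (by omega) eab hst B ?_
    xC.symm ?_ D ?_ z2.symm ?_ ?_ ?_
  · intro z hz
    simp only [List.mem_append, List.mem_cons, mem_iseg57, List.not_mem_nil, or_false] at hz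
    omega
  · simp only [List.length_append, List.length_cons, iseg_length57, List.length_nil]
    omega
  · intro z hz
    simp only [List.mem_append, mem_iseg57, List.mem_singleton] at hz
    omega
  · simp only [List.length_append, iseg_length57, List.length_cons, List.length_nil]
    omega
  · intro z hz
    simp only [List.mem_append, List.mem_cons, mem_iseg57, List.not_mem_nil, or_false] at hz ⊢
    omega
  · intro z hz
    simp only [List.mem_append, mem_iseg57, List.mem_singleton] at hz
    omega

/-- `C` of the second, `E` of the first kind -/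
theorem Lab57.k3 [DecidableEq V] (h : Lab57 G r w s t mid) (hr : 7 ≤ r)
    (xC : G.Adj (w (2 * r)) (w 2)) (xE : G.Adj (w (2 * r)) (w r))
    (yE : G.Adj (w (2 * r + 1)) (w r)) (yC : G.Adj (w (2 * r + 1)) (w 6))
    (hst : (G.Adj s (w 4) ∧ G.Adj t (w 5)) ∨ (G.Adj s (w 5) ∧ G.Adj t (w 4)))
    (z1 : G.Adj (w (2 * r - 1)) (w 3)) (z2 : G.Adj (w 3) (w (r + 1))) :
    Three57 G r h.reg := by
  have P1 := h.eseg (i := r + 1) (n := r - 2) (by omega) (by omega)
  rw [show r + 1 + (r - 2) = 2 * r - 1 by omega] at P1
  have B := P1.concat (c := 3) z1 (by rw [mem_iseg57]; omega)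
  have P3 := h.cseg (i := 6) (n := r - 7) (by omega)
  rw [show 6 + (r - 7) = r - 1 by omega] at P3
  have P4 := h.cseg (i := 0) (n := 2) (by omega)
  have D := (((P3.append P4 h.cclose (by
      intro z hz
      rw [mem_iseg57] at hz ⊢
      omega)).concat (c := 2 * r) xC.symm (by
        rw [List.mem_append, mem_iseg57, mem_iseg57]
        omega)).concat (c := r) xE (by
          simp only [List.mem_append, mem_iseg57, List.mem_singleton]
          omega)).concat (c := 2 * r + 1) yE.symm (by
            simp only [List.mem_append, mem_iseg57, List.mem_singleton]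
            omega)
  refine h.three (by omega) (a := 4) (b := 5) (by omega) (by omega) (by omega)
    (h.cadj 4 (by omega)) hst B ?_ z2 ?_ D ?_ yC ?_ ?_ ?_
  · intro z hz
    simp only [List.mem_append, mem_iseg57, List.mem_singleton] at hz
    omega
  · simp only [List.length_append, List.length_cons, iseg_length57, List.length_nil]
    omega
  · intro z hz
    simp only [List.mem_append, mem_iseg57, List.mem_singleton] at hz
    omega
  · simp only [List.length_append, iseg_length57, List.length_cons, List.length_nil]
    omega
  · intro z hz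
    simp only [List.mem_append, mem_iseg57, List.mem_singleton] at hz ⊢
    omega
  · intro z hz
    simp only [List.mem_append, mem_iseg57, List.mem_singleton] at hz
    omega

/-- both cycles of the first kind -/
theorem Lab57.k4 [DecidableEq V] (h : Lab57 G r w s t mid) (hr : 5 ≤ r)
    (xC : G.Adj (w (2 * r)) (w 0)) (xE : G.Adj (w (2 * r)) (w r))
    (yE : G.Adj (w (2 * r + 1)) (w r)) (yC : G.Adj (w (2 * r + 1)) (w 4))
    (hst : (G.Adj s (w 2) ∧ G.Adj t (w 3)) ∨ (G.Adj s (w 3) ∧ G.Adj t (w 2)))
    (z1 : G.Adj (w (2 * r - 1)) (w 1)) (z2 : G.Adj (w 1) (w (r + 1))) :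
    Three57 G r h.reg := by
  have P1 := h.eseg (i := r + 1) (n := r - 2) (by omega) (by omega)
  rw [show r + 1 + (r - 2) = 2 * r - 1 by omega] at P1
  have B := P1.concat (c := 1) z1 (by rw [mem_iseg57]; omega)
  have P3 := h.cseg (i := 4) (n := r - 5) (by omega)
  rw [show 4 + (r - 5) = r - 1 by omega] at P3
  have D := (((P3.concat (c := 0) h.cclose (by
      rw [mem_iseg57]
      omega)).concat (c := 2 * r) xC.symm (by
        simp only [List.mem_append, mem_iseg57, List.mem_singleton]
        omega)).concat (c := r) xE (by
          simp only [List.mem_append, mem_iseg57, List.mem_singleton]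
          omega)).concat (c := 2 * r + 1) yE.symm (by
            simp only [List.mem_append, mem_iseg57, List.mem_singleton]
            omega)
  refine h.three (by omega) (a := 2) (b := 3) (by omega) (by omega) (by omega)
    (h.cadj 2 (by omega)) hst B ?_ z2 ?_ D ?_ yC ?_ ?_ ?_
  · intro z hz
    simp only [List.mem_append, mem_iseg57, List.mem_singleton] at hz
    omega
  · simp only [List.length_append, List.length_cons, iseg_length57, List.length_nil]
    omega
  · intro z hz
    simp only [List.mem_append, mem_iseg57, List.mem_singleton] at hz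
    omega
  · simp only [List.length_append, iseg_length57, List.length_cons, List.length_nil]
    omega
  · intro z hz
    simp only [List.mem_append, mem_iseg57, List.mem_singleton] at hz ⊢
    omega
  · intro z hz
    simp only [List.mem_append, mem_iseg57, List.mem_singleton] at hz
    omega

/-- a third end adjacent to the centre of `E` -/
theorem Lab57.k5 [DecidableEq V] (h : Lab57 G r w s t mid) (hr : 3 ≤ r)
    (y1 : G.Adj (w (2 * r + 1)) (w 1)) (y2 : G.Adj (w (2 * r + 1)) (w (r - 1)))
    (x1 : G.Adj (w (2 * r)) (w (r + 1))) (x2 : G.Adj (w (2 * r)) (w (2 * r - 1)))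
    (hst : (G.Adj s (w 0) ∧ G.Adj t (w r)) ∨ (G.Adj s (w r) ∧ G.Adj t (w 0)))
    (z : G.Adj (w 0) (w r)) : Three57 G r h.reg := by
  have P1 := h.eseg (i := r + 1) (n := r - 2) (by omega) (by omega)
  rw [show r + 1 + (r - 2) = 2 * r - 1 by omega] at P1
  have B := P1.concat (c := 2 * r) x2.symm (by rw [mem_iseg57]; omega)
  have P3 := h.cseg (i := 1) (n := r - 2) (by omega)
  rw [show 1 + (r - 2) = r - 1 by omega] at P3
  have D := P3.concat (c := 2 * r + 1) y2.symm (by rw [mem_iseg57]; omega)
  refine h.three (by omega) (a := 0) (b := r) (by omega) (by omega) (by omega)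
    z hst B ?_ x1 ?_ D ?_ y1 ?_ ?_ ?_
  · intro z hz
    simp only [List.mem_append, mem_iseg57, List.mem_singleton] at hz
    omega
  · simp only [List.length_append, List.length_cons, iseg_length57, List.length_nil]
    omega
  · intro z hz
    simp only [List.mem_append, mem_iseg57, List.mem_singleton] at hz
    omega
  · simp only [List.length_append, iseg_length57, List.length_cons, List.length_nil]
    omega
  · intro z hz
    simp only [List.mem_append, mem_iseg57, List.mem_singleton] at hz ⊢
    omega
  · intro z hz
    simp only [List.mem_append, mem_iseg57, List.mem_singleton] at hz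
    omega

end Pool.Agent.P0
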