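import Pool.Agent.P0.Adm41

set_option linter.all false

/-!
# P0, I7: a tool for three disjoint cycles

Walks are lists without any condition on repetitions; that the vertices are different comes from one
permutation of the list of all vertices.
-/

namespace Pool.Agent.P0

open Pool.Agent.Helper14.LongCyc Pool.Agent.LCK Pool.Agent.FRC

universe u

variable {V : Type u} {G : SimpleGraph V}

/-- a walk from `a` to `b` -/
def Wk19 (G : SimpleGraph V) (a b : V) (l : List V) : Prop :=
  l.IsChain G.Adj ∧ l.head? = some a ∧ l.getLast? = some b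

theorem Wk19.of {a b : V} {l : List V} (h : Pth G a b l) : Wk19 G a b l := h.2

theorem Wk19.single (a : V) : Wk19 G a a [a] := by simp [Wk19]

theorem Wk19.append {a b c d : V} {l l' : List V} (h : Wk19 G a b l) (h' : Wk19 G c d l')
    (hbc : G.Adj b c) : Wk19 G a d (l ++ l') := by
  obtain ⟨h2, h3, h4⟩ := h
  obtain ⟨h2', h3', h4'⟩ := h'
  refine ⟨?_, ?_, ?_⟩
  · refine h2.append h2' ?_
    intro x hx y hy
    rw [h4] at hx; rw [h3'] at hy
    simp only [Option.mem_def, Option.some.injEq] at hx hy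
    subst hx; subst hy; exact hbc
  · rw [List.head?_append, h3]; rfl
  · rw [List.getLast?_append, h4']; rfl

theorem Wk19.cons {a b c : V} {l : List V} (h : Wk19 G a b l) (hc : G.Adj c a) :
    Wk19 G c b (c :: l) := by
  have := (Wk19.single (G := G) c).append h hc
  simpa using this

theorem Wk19.concat {a b c : V} {l : List V} (h : Wk19 G a b l) (hc : G.Adj b c) :
    Wk19 G a c (l ++ [c]) := h.append (Wk19.single c) hc

theorem Wk19.reverse {a b : V} {l : List V} (h : Wk19 G a b l) : Wk19 G b a l.reverse := by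
  obtain ⟨h2, h3, h4⟩ := h
  refine ⟨?_, by simpa using h4, by simpa using h3⟩
  rw [List.isChain_reverse]
  exact h2.imp fun _ _ h => h.symm

/-- a closed walk without repetitions is a cycle -/
theorem Wk19.cyc {a b : V} {l : List V} (h : Wk19 G a b l) (hba : G.Adj b a) (hn : l.Nodup)
    (h3 : 3 ≤ l.length) : Cyc G l := ⟨h3, a, b, ⟨hn, h⟩, hba⟩

/-- **the tool**: three closed walks which together are a permutation of a list without
repetitions -/
theorem three19 [DecidableEq V] {r : ℕ} (hr : 3 ≤ r) {W : Finset V} {L : List V} (hL : L.Nodup)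
    (hW : ∀ z ∈ L, z ∈ W) {a₁ b₁ a₂ b₂ a₃ b₃ : V} {l₁ l₂ l₃ : List V}
    (h₁ : Wk19 G a₁ b₁ l₁) (e₁ : G.Adj b₁ a₁) (h₂ : Wk19 G a₂ b₂ l₂) (e₂ : G.Adj b₂ a₂)
    (h₃ : Wk19 G a₃ b₃ l₃) (e₃ : G.Adj b₃ a₃) (n₁ : r ≤ l₁.length) (n₂ : r ≤ l₂.length)
    (n₃ : r ≤ l₃.length) (hp : (l₁ ++ (l₂ ++ l₃)).Perm L) : Three41 G r W := by
  have hn := hp.nodup_iff.2 hL
  rw [List.nodup_append, List.nodup_append] at hn
  obtain ⟨m1, ⟨m2, m3, m23⟩, m1'⟩ := hn
  have hs : ∀ z, z ∈ l₁ ∨ z ∈ l₂ ∨ z ∈ l₃ → z ∈ W := by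
    intro z hz
    refine hW z (hp.mem_iff.1 ?_)
    rw [List.mem_append, List.mem_append]
    exact hz
  refine ⟨l₁.toFinset, l₂.toFinset, l₃.toFinset, Cyc.cycSet (h₁.cyc e₁ m1 (by omega)),
    Cyc.cycSet (h₂.cyc e₂ m2 (by omega)), Cyc.cycSet (h₃.cyc e₃ m3 (by omega)), ?_, ?_, ?_, ?_, ?_, ?_,
    ?_, ?_, ?_⟩
  · exact fun z hz => hs z (Or.inl (List.mem_toFinset.1 hz))
  · exact fun z hz => hs z (Or.inr (Or.inl (List.mem_toFinset.1 hz)))
  · exact fun z hz => hs z (Or.inr (Or.inr (List.mem_toFinset.1 hz)))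
  · rw [List.toFinset_card_of_nodup m1]; exact n₁
  · rw [List.toFinset_card_of_nodup m2]; exact n₂
  · rw [List.toFinset_card_of_nodup m3]; exact n₃
  · rw [Finset.disjoint_left]
    intro z hz hz'
    exact m1' z (List.mem_toFinset.1 hz) z
      (List.mem_append.2 (Or.inl (List.mem_toFinset.1 hz'))) rfl
  · rw [Finset.disjoint_left]
    intro z hz hz'
    exact m1' z (List.mem_toFinset.1 hz) z
      (List.mem_append.2 (Or.inr (List.mem_toFinset.1 hz'))) rfl
  · rw [Finset.disjoint_left]
    intro z hz hz'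
    exact m23 z (List.mem_toFinset.1 hz) z (List.mem_toFinset.1 hz') rfl

/-! ### cyclic labellings -/

/-- `f` runs around the cycle `C` of length `r` -/
structure Rot19 (G : SimpleGraph V) (r : ℕ) (C : Finset V) (f : ℕ → V) : Prop where
  adj : ∀ i, G.Adj (f i) (f (i + 1))
  per : ∀ i, f (i + r) = f i
  inj : ∀ i j, i < j → j < i + r → f i ≠ f j
  mem : ∀ z, z ∈ C ↔ ∃ i, i < r ∧ z = f i

section

variable {r : ℕ} {C : Finset V} {f : ℕ → V}

theorem Rot19.mem' (h : Rot19 G r C f) (hr : 0 < r) (i : ℕ) : f i ∈ C := by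
  have h1 : ∀ q s, f (s + r * q) = f s := by
    intro q
    induction q with
    | zero => intro s; simp
    | succ q ih => intro s; rw [show s + r * (q + 1) = s + r * q + r by ring, h.per, ih]
  rw [h.mem]
  refine ⟨i % r, Nat.mod_lt _ hr, ?_⟩
  conv_lhs => rw [← Nat.mod_add_div i r]
  exact h1 _ _

theorem Rot19.perq (h : Rot19 G r C f) (q s : ℕ) : f (s + r * q) = f s := by
  induction q with
  | zero => simp
  | succ q ih => rw [show s + r * (q + 1) = s + r * q + r by ring, h.per, ih]

theorem Rot19.congr (h : Rot19 G r C f) {i j : ℕ} (hij : i % r = j % r) : f i = f j := by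
  conv_lhs => rw [← Nat.mod_add_div i r, h.perq]
  conv_rhs => rw [← Nat.mod_add_div j r, h.perq]
  rw [hij]

/-- every vertex of the cycle is met in each window of length `r` -/
theorem Rot19.win (h : Rot19 G r C f) (hr : 0 < r) (n : ℕ) {z : V} (hz : z ∈ C) :
    ∃ i, n ≤ i ∧ i < n + r ∧ z = f i := by
  obtain ⟨i, hi, rfl⟩ := (h.mem z).1 hz
  have hm := Nat.mod_lt n hr
  have hd := Nat.mod_add_div n r
  rcases Nat.lt_or_ge i (n % r) with h1 | h1
  · refine ⟨i + r * (n / r + 1), ?_, ?_, (h.perq _ _).symm⟩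
    · rw [Nat.mul_add]; omega
    · rw [Nat.mul_add]; omega
  · refine ⟨i + r * (n / r), ?_, ?_, (h.perq _ _).symm⟩
    · omega
    · omega

/-- the list of all vertices, from position `n` -/
theorem Rot19.nodup (h : Rot19 G r C f) (n m : ℕ) (hm : m < r) : (seg f n m).Nodup := by
  unfold seg
  refine List.Nodup.map_on ?_ List.nodup_range'
  intro i hi j hj hij
  rw [List.mem_range'_1] at hi hj
  rcases Nat.lt_trichotomy i j with h1 | h1 | h1
  · exact absurd hij (h.inj i j h1 (by omega))
  · exact h1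
  · exact absurd hij.symm (h.inj j i h1 (by omega))

theorem Rot19.mem_seg (h : Rot19 G r C f) (hr : 0 < r) (n : ℕ) (z : V) :
    z ∈ seg f n (r - 1) ↔ z ∈ C := by
  rw [Pool.Agent.Helper14.LongCyc.mem_seg]
  constructor
  · rintro ⟨j, _, _, rfl⟩
    exact h.mem' hr j
  · intro hz
    obtain ⟨i, h1, h2, h3⟩ := h.win hr n hz
    exact ⟨i, h1, by omega, h3⟩

theorem Rot19.wk (h : Rot19 G r C f) (n m : ℕ) : Wk19 G (f n) (f (n + m)) (seg f n m) := by
  induction m generalizing n with
  | zero => simpa [seg] using Wk19.single (G := G) (f n)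
  | succ m ih =>
    have e : seg f n (m + 1) = f n :: seg f (n + 1) m := by
      simp only [seg, List.range'_succ, List.map_cons]
    have h1 := ih (n + 1)
    rw [show n + 1 + m = n + (m + 1) by ring] at h1
    rw [e]
    exact h1.cons (h.adj n)

/-- rotation -/
theorem Rot19.rot (h : Rot19 G r C f) (hr : 0 < r) (n : ℕ) :
    Rot19 G r C (fun j => f (n + j)) where
  adj := fun i => h.adj (n + i)
  per := fun i => by rw [← Nat.add_assoc]; exact h.per (n + i)
  inj := fun i j h1 h2 => h.inj _ _ (by omega) (by omega)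
  mem := fun z => by
    constructor
    · intro hz
      obtain ⟨i, h1, h2, h3⟩ := h.win hr n hz
      exact ⟨i - n, by omega, by rw [show n + (i - n) = i by omega]; exact h3⟩
    · rintro ⟨i, _, rfl⟩
      exact h.mem' hr _

/-- reflection: the position `j` becomes `n - j` -/
theorem Rot19.ref (h : Rot19 G r C f) (hr : 0 < r) (n : ℕ) :
    Rot19 G r C (fun j => f (n + (r - 1) * j)) := by
  have key : ∀ j, f (n + (r - 1) * j) = f (n + (r - 1) * (j + 1) + 1) := by
    intro j
    rw [show n + (r - 1) * (j + 1) + 1 = n + (r - 1) * j + r by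
      rw [Nat.mul_add, Nat.mul_one]; omega, h.per]
  refine ⟨?_, ?_, ?_, ?_⟩
  · intro j
    show G.Adj (f (n + (r - 1) * j)) (f (n + (r - 1) * (j + 1)))
    rw [key j]
    exact (h.adj _).symm
  · intro j
    show f (n + (r - 1) * (j + r)) = f (n + (r - 1) * j)
    rw [show n + (r - 1) * (j + r) = (n + (r - 1) * j) + r * (r - 1) by ring, h.perq]
  · intro i j h1 h2 h3
    -- `f (n + (r - 1) i) = f (n + (r - 1) j + (j - i))` up to the period
    have h5 : f (n + (r - 1) * i) = f (n + (r - 1) * j + (j - i)) := by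
      have e : n + (r - 1) * j + (j - i) = n + (r - 1) * i + r * (j - i) := by
        obtain ⟨d, rfl⟩ : ∃ d, j = i + d := ⟨j - i, by omega⟩
        obtain ⟨s, rfl⟩ : ∃ s, r = s + 1 := ⟨r - 1, by omega⟩
        rw [Nat.add_sub_cancel_left, Nat.add_sub_cancel]
        ring
      rw [e, h.perq]
    exact h.inj (n + (r - 1) * j) (n + (r - 1) * j + (j - i)) (by omega) (by omega)
      (h3.symm.trans h5)
  · intro z
    constructor
    · intro hz
      obtain ⟨i, h1, h2, h3⟩ := h.win hr (n + 1) hz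
      -- position `i` with `n < i ≤ n + r` is `n - j` with `j = n + r - i`
      refine ⟨n + r - i, by omega, ?_⟩
      show z = f (n + (r - 1) * (n + r - i))
      have e : n + (r - 1) * (n + r - i) + r * 1 = i + r * (n + r - i) := by
        obtain ⟨j, hj⟩ : ∃ j, n + r - i = j := ⟨_, rfl⟩
        obtain ⟨s, rfl⟩ : ∃ s, r = s + 1 := ⟨r - 1, by omega⟩
        rw [hj, Nat.add_sub_cancel]
        have e1 : (s + 1) * j = s * j + j := by ring
        rw [e1]
        omega
      rw [h3, ← h.perq 1 (n + (r - 1) * (n + r - i)), e, h.perq]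
    · rintro ⟨i, _, rfl⟩
      exact h.mem' hr _

end

end Pool.Agent.P0
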