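import Pool.Agent.P0.BK57
import Pool.Agent.P0.Three19

set_option linter.all false

/-!
# P0, I7 (B), part 3: the pair lemma
-/

namespace Pool.Agent.P0

open Pool.Agent.Helper14.LongCyc Pool.Agent.LCK Pool.Agent.FRC

universe u

variable {V : Type u} {G : SimpleGraph V}

/-- the labels -/
def lab57 (f g : ℕ → V) (r : ℕ) (x y : V) (i : ℕ) : V :=
  if i < r then f i else if i < 2 * r then g (i - r) else if i = 2 * r then x else y

section

variable {f g : ℕ → V} {r : ℕ} {x y : V}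

theorem labC57 {i : ℕ} (hi : i < r) : lab57 f g r x y i = f i := by
  unfold lab57; rw [if_pos hi]

theorem labE57 {i j : ℕ} (hi : i < r) (hj : j = r + i) : lab57 f g r x y j = g i := by
  unfold lab57
  rw [if_neg (by omega), if_pos (by omega)]
  congr 1
  omega

theorem labx57 : lab57 f g r x y (2 * r) = x := by
  unfold lab57
  rw [if_neg (by omega), if_neg (by omega), if_pos rfl]

theorem laby57 : lab57 f g r x y (2 * r + 1) = y := by
  unfold lab57
  rw [if_neg (by omega), if_neg (by omega), if_neg (by omega)]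

end

/-- first kind, small end `x`, centre `f 2` -/
structure One57 (G : SimpleGraph V) (r : ℕ) (x y p q : V) (C : Finset V) (f : ℕ → V) : Prop where
  rot : Rot19 G r C f
  hx : ∀ z ∈ C, (G.Adj x z ↔ z = f 2)
  hy : ∀ z ∈ C, G.Adj y z
  hp : ∀ z ∈ C, G.Adj p z
  hq : ∀ z ∈ C, z ≠ f 2 → G.Adj q z

/-- second kind, small end `x`, centre `f 2` -/
structure Two57 (G : SimpleGraph V) (r : ℕ) (x y p q : V) (C : Finset V) (f : ℕ → V) : Prop where
  rot : Rot19 G r C f
  hx : ∀ z ∈ C, (G.Adj x z ↔ z = f 1 ∨ z = f 3)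
  hy : ∀ z ∈ C, (G.Adj y z ↔ z ≠ f 2)
  hp : ∀ z ∈ C, z ≠ f 2 → G.Adj p z
  hq : ∀ z ∈ C, z ≠ f 2 → G.Adj q z
  one : G.Adj p (f 2) ∨ G.Adj q (f 2)

section

variable {U : Finset V} {k r : ℕ} {Q : List V} {p q x y : V} {F : Finset (Finset V)}
  {C E : Finset V} {f g : ℕ → V}

theorem Rot19.ne57 (h : Rot19 G r C f) {i j : ℕ} (hi : i < r) (hj : j < r) (hij : i ≠ j) :
    f i ≠ f j := by
  rcases Nat.lt_or_ge i j with h1 | h1
  · exact h.inj i j h1 (by omega)
  · exact (h.inj j i (by omega) (by omega)).symm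

/-- the labelled configuration of two members of an admissible pair -/
theorem Adm41.lab57 (h : Adm41 G U r Q p q F x y) (hC : C ∈ F) (hE : E ∈ F) (hne : C ≠ E)
    (R : Rot19 G r C f) (S : Rot19 G r E g) (hr : 3 ≤ r) :
    Lab57 G r (lab57 f g r x y) p q Q := by
  have hd : ∀ z, z ∈ C → z ∉ E := by
    intro z h1 h2
    have := h.opt.fam.disj C hC E hE hne
    exact (Finset.disjoint_left.1 this) h1 h2
  have fC : ∀ i, f i ∈ C := fun i => R.mem' (by omega) i
  have gE : ∀ i, g i ∈ E := fun i => S.mem' (by omega) i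
  refine ⟨?_, ?_, ?_, ?_, ?_, h.path, h.len, ?_⟩
  · intro i j hi hj hij
    by_contra hne'
    unfold P0.lab57 at hij
    split_ifs at hij with a1 a2 a3 a4 a5 a6 a7 a8 a9 a10 a11 a12
    · exact R.ne57 a1 a2 hne' hij
    · exact hd _ (fC i) (hij ▸ gE _)
    · exact h.x_notC hC (hij ▸ fC i)
    · exact h.y_notC hC (hij ▸ fC i)
    · exact hd _ (fC j) (hij ▸ gE _)
    · exact S.ne57 (by omega) (by omega) (by omega) hij
    · exact h.x_notC hE (hij ▸ gE _)
    · exact h.y_notC hE (hij ▸ gE _)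
    · exact h.x_notC hC (hij.symm ▸ fC j)
    · exact h.x_notC hE (hij.symm ▸ gE _)
    · omega
    · exact h.ne hij
    · exact h.y_notC hC (hij.symm ▸ fC j)
    · exact h.y_notC hE (hij.symm ▸ gE _)
    · exact h.ne hij.symm
    · omega
  · intro i hi
    rw [labC57 (by omega), labC57 hi]
    exact R.adj i
  · rw [labC57 (by omega), labC57 (by omega)]
    have := R.adj (r - 1)
    rw [show r - 1 + 1 = 0 + r by omega, R.per] at this
    exact this
  · intro i hi hi'
    rw [labE57 (i := i - r) (by omega) (by omega), labE57 (i := i - r + 1) (by omega) (by omega)]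
    exact S.adj _
  · rw [labE57 (i := r - 1) (by omega) (by omega), labE57 (i := 0) (by omega) (by omega)]
    have := S.adj (r - 1)
    rw [show r - 1 + 1 = 0 + r by omega, S.per] at this
    exact this
  · intro z hz i hi hzi
    unfold P0.lab57 at hzi
    split_ifs at hzi with a1 a2 a3
    · exact h.notQ hC (hzi ▸ fC i) hz
    · exact h.notQ hE (hzi ▸ gE _) hz
    · exact h.xQ (hzi ▸ hz)
    · exact h.yQ (hzi ▸ hz)

/-- no three cycles -/
theorem Adm41.no57 [DecidableEq V] (h : Adm41 G U r Q p q F x y) (hC : C ∈ F) (hE : E ∈ F)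
    (hne : C ≠ E) (R : Rot19 G r C f) (S : Rot19 G r E g) (hr : 3 ≤ r)
    (T : Three57 G r (h.lab57 hC hE hne R S hr).reg) : False := by
  refine h.opt.no_three hC hE hne (Three57.mono T ?_)
  intro z hz
  unfold Lab57.reg at hz
  rw [Finset.mem_union] at hz ⊢
  rw [Finset.mem_union]
  rcases hz with hz | hz
  · rw [Finset.mem_image] at hz
    obtain ⟨i, hi, rfl⟩ := hz
    unfold P0.lab57
    split_ifs with a1 a2 a3
    · exact Or.inl (Or.inl (R.mem' (by omega) _))
    · exact Or.inl (Or.inr (S.mem' (by omega) _))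
    · exact Or.inr h.x_mem
    · exact Or.inr h.y_mem
  · exact Or.inr (h.Q_mem (List.mem_toFinset.1 hz))

theorem dg_miss57 [DecidableEq V] {M : Finset V} {z : V} (hM : M ⊆ E) (hz : ∀ m ∈ M, ¬ G.Adj z m) :
    dg G E z + M.card ≤ E.card := by
  classical
  have h1 : (E.filter fun u => G.Adj z u) ⊆ E \ M := by
    intro u hu
    rw [Finset.mem_filter] at hu
    exact Finset.mem_sdiff.2 ⟨hu.1, fun hm => hz u hm hu.2⟩
  have h2 := Finset.card_le_card h1
  rw [Finset.card_sdiff_of_subset hM] at h2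
  have h3 := Finset.card_le_card hM
  have h4 : dg G E z = (E.filter fun u => G.Adj z u).card := by
    unfold dg
    congr
  have h5 : (E \ M).card = E.card - M.card := Finset.card_sdiff_of_subset hM
  omega

theorem Rot19.card57 [DecidableEq V] (h : Rot19 G r C f) (hr : 0 < r) : C.card = r := by
  have h1 : C = (seg f 0 (r - 1)).toFinset := by
    ext z
    rw [List.mem_toFinset, h.mem_seg hr]
  rw [h1, List.toFinset_card_of_nodup (h.nodup 0 (r - 1) (by omega)), seg_length]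
  omega

/-- reflection around the centre -/
theorem Rot19.refl57 (h : Rot19 G r C f) (hr : 5 ≤ r) :
    ∃ f', Rot19 G r C f' ∧ f' 0 = f 4 ∧ f' 1 = f 3 ∧ f' 2 = f 2 ∧ f' 3 = f 1 ∧ f' 4 = f 0 := by
  refine ⟨fun j => f (4 + (r - 1) * j), h.ref (by omega) 4, ?_, ?_, ?_, ?_, ?_⟩
  · show f (4 + (r - 1) * 0) = f 4
    simp
  · show f (4 + (r - 1) * 1) = f 3
    rw [show 4 + (r - 1) * 1 = 3 + r * 1 by omega, h.perq]
  · show f (4 + (r - 1) * 2) = f 2
    rw [show 4 + (r - 1) * 2 = 2 + r * 2 by omega, h.perq]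
  · show f (4 + (r - 1) * 3) = f 1
    rw [show 4 + (r - 1) * 3 = 1 + r * 3 by omega, h.perq]
  · show f (4 + (r - 1) * 4) = f 0
    rw [show 4 + (r - 1) * 4 = 0 + r * 4 by omega, h.perq]

theorem Two57.refl (h : Two57 G r x y p q C f) (hr : 5 ≤ r) :
    ∃ f', Two57 G r x y p q C f' ∧ f' 0 = f 4 ∧ f' 4 = f 0 ∧ f' 2 = f 2 := by
  obtain ⟨f', h1, h2, h3, h4, h5, h6⟩ := h.rot.refl57 hr
  refine ⟨f', ⟨h1, ?_, ?_, ?_, ?_, ?_⟩, h2, h6, h4⟩
  · intro z hz
    rw [h.hx z hz, h3, h5]
    tauto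
  · intro z hz
    rw [h.hy z hz, h4]
  · intro z hz
    rw [h4]
    exact h.hp z hz
  · intro z hz
    rw [h4]
    exact h.hq z hz
  · rw [h4]
    exact h.one

theorem One57.refl (h : One57 G r x y p q C f) (hr : 5 ≤ r) :
    ∃ f', One57 G r x y p q C f' ∧ f' 1 = f 3 ∧ f' 3 = f 1 ∧ f' 2 = f 2 := by
  obtain ⟨f', h1, h2, h3, h4, h5, h6⟩ := h.rot.refl57 hr
  refine ⟨f', ⟨h1, ?_, ?_, ?_, ?_⟩, h3, h5, h4⟩
  · intro z hz
    rw [h.hx z hz, h4]
  · exact h.hy
  · exact h.hp
  · intro z hz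
    rw [h4]
    exact h.hq z hz

/-- a third end is not adjacent to the centre of `E` -/
theorem Adm41.centre57 [DecidableEq V] (h : Adm41 G U r Q p q F x y) (hr : 5 ≤ r) (hC : C ∈ F)
    (hE : E ∈ F) (hne : C ≠ E) (R : Rot19 G r C f) (BE : Two57 G r x y p q E g) {a : ℕ}
    (y1 : G.Adj y (f (a + 1))) (y2 : G.Adj y (f (a + (r - 1)))) (hp : G.Adj p (f a))
    (hq : G.Adj q (f a)) : ¬ G.Adj (f a) (g 2) := by
  intro hz
  have R' := R.rot (by omega) a
  have S' := BE.rot.rot (by omega) 2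
  have L := h.lab57 hC hE hne R' S' (by omega)
  refine h.no57 hC hE hne R' S' (by omega) (L.k5 (by omega) ?_ ?_ ?_ ?_ ?_ ?_)
  · rw [laby57, labC57 (by omega)]; exact y1
  · rw [laby57, labC57 (by omega)]; exact y2
  · rw [labx57, labE57 (i := 1) (by omega) (by omega)]
    exact (BE.hx _ (BE.rot.mem' (by omega) _)).2 (Or.inr rfl)
  · rw [labx57, labE57 (i := r - 1) (by omega) (by omega)]
    refine (BE.hx _ (BE.rot.mem' (by omega) _)).2 (Or.inl ?_)
    show g (2 + (r - 1)) = g 1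
    rw [show 2 + (r - 1) = 1 + r by omega, BE.rot.per]
  · rw [labC57 (by omega), labE57 (i := 0) (j := r) (by omega) (by omega)]
    rcases BE.one with h1 | h1
    · exact Or.inr ⟨h1, hq⟩
    · exact Or.inl ⟨hp, h1⟩
  · rw [labC57 (by omega), labE57 (i := 0) (j := r) (by omega) (by omega)]
    exact hz

end

end Pool.Agent.P0
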