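import Pool.Agent.P0.BPL57

set_option linter.all false

/-!
# P0, I7 (B), part 4: the pair lemma, counting
-/

namespace Pool.Agent.P0

open Pool.Agent.Helper14.LongCyc Pool.Agent.LCK Pool.Agent.FRC

universe u

variable {V : Type u} {G : SimpleGraph V} {U : Finset V} {r : ℕ} {Q : List V} {p q x y : V}
  {F : Finset (Finset V)} {C E : Finset V} {f g : ℕ → V}

theorem Adm41.tt57 [DecidableEq V] (h : Adm41 G U r Q p q F x y) (hr : 6 ≤ r) (hC : C ∈ F)
    (hE : E ∈ F) (hne : C ≠ E) (BC : Two57 G r x y p q C f) (BE : Two57 G r x y p q E g)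
    (hz : (G.Adj (f 0) (g (r - 2)) ∧ G.Adj (f 4) (g 0)) ∨
      (G.Adj (f 0) (g 0) ∧ G.Adj (f 4) (g (r - 2)))) : False := by
  have R' := BC.rot.rot (by omega) 1
  have S' := BE.rot.rot (by omega) 1
  have L := h.lab57 hC hE hne R' S' (by omega)
  have fm : ∀ i, f i ∈ C := fun i => BC.rot.mem' (by omega) i
  have gm : ∀ i, g i ∈ E := fun i => BE.rot.mem' (by omega) i
  refine h.no57 hC hE hne R' S' (by omega) (L.k1 hr ?_ ?_ ?_ ?_ ?_ ?_)
  · rw [labx57, labC57 (by omega)]
    exact (BC.hx _ (fm _)).2 (Or.inr rfl)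
  · rw [labx57, labE57 (i := 2) (by omega) (by omega)]
    exact (BE.hx _ (gm _)).2 (Or.inr rfl)
  · rw [laby57, labC57 (by omega)]
    exact (BC.hy _ (fm _)).2 (BC.rot.ne57 (by omega) (by omega) (by omega))
  · rw [laby57, labE57 (i := r - 4) (by omega) (by omega)]
    exact (BE.hy _ (gm _)).2 (BE.rot.ne57 (by omega) (by omega) (by omega))
  · rw [labE57 (i := 0) (j := r) (by omega) (by omega), labE57 (i := 1) (by omega) (by omega)]
    have h1 : g 1 ≠ g 2 := BE.rot.ne57 (by omega) (by omega) (by omega)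
    rcases BE.one with h2 | h2
    · exact Or.inr ⟨h2, BE.hq _ (gm _) h1⟩
    · exact Or.inl ⟨BE.hp _ (gm _) h1, h2⟩
  · rw [labC57 (i := r - 1) (by omega), labE57 (i := r - 3) (by omega) (by omega),
      labC57 (i := 3) (by omega), labE57 (i := r - 1) (by omega) (by omega)]
    show (G.Adj (f (1 + (r - 1))) (g (1 + (r - 3))) ∧ G.Adj (f 4) (g (1 + (r - 1)))) ∨
      (G.Adj (f (1 + (r - 1))) (g (1 + (r - 1))) ∧ G.Adj (f 4) (g (1 + (r - 3))))
    rw [show 1 + (r - 1) = 0 + r by omega, BC.rot.per, BE.rot.per, show 1 + (r - 3) = r - 2 by omega]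
    exact hz

theorem Adm41.ot57 [DecidableEq V] (h : Adm41 G U r Q p q F x y) (hr : 6 ≤ r) (hC : C ∈ F)
    (hE : E ∈ F) (hne : C ≠ E) (BC : One57 G r x y p q C f) (BE : Two57 G r x y p q E g)
    (z1 : G.Adj (f 1) (g 0)) (z2 : G.Adj (f 3) (g 0)) : False := by
  have R' := BC.rot.rot (by omega) 2
  have S' := BE.rot.rot (by omega) 1
  have L := h.lab57 hC hE hne R' S' (by omega)
  have fm : ∀ i, f i ∈ C := fun i => BC.rot.mem' (by omega) i
  have gm : ∀ i, g i ∈ E := fun i => BE.rot.mem' (by omega) i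
  refine h.no57 hC hE hne R' S' (by omega) (L.k2 hr ?_ ?_ ?_ ?_ ?_ ?_ ?_)
  · rw [labx57, labC57 (by omega)]
    exact (BC.hx _ (fm _)).2 rfl
  · rw [labx57, labE57 (i := 2) (by omega) (by omega)]
    exact (BE.hx _ (gm _)).2 (Or.inr rfl)
  · rw [laby57, labC57 (by omega)]
    exact BC.hy _ (fm _)
  · rw [laby57, labE57 (i := r - 2) (by omega) (by omega)]
    exact (BE.hy _ (gm _)).2 (BE.rot.ne57 (by omega) (by omega) (by omega))
  · rw [labE57 (i := 0) (j := r) (by omega) (by omega), labE57 (i := 1) (by omega) (by omega)]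
    have h1 : g 1 ≠ g 2 := BE.rot.ne57 (by omega) (by omega) (by omega)
    rcases BE.one with h2 | h2
    · exact Or.inr ⟨h2, BE.hq _ (gm _) h1⟩
    · exact Or.inl ⟨BE.hp _ (gm _) h1, h2⟩
  · rw [labC57 (i := r - 1) (by omega), labE57 (i := r - 1) (by omega) (by omega)]
    show G.Adj (f (2 + (r - 1))) (g (1 + (r - 1)))
    rw [show 2 + (r - 1) = 1 + r by omega, BC.rot.per, show 1 + (r - 1) = 0 + r by omega,
      BE.rot.per]
    exact z1
  · rw [labC57 (i := 1) (by omega), labE57 (i := r - 1) (by omega) (by omega)]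
    show G.Adj (f 3) (g (1 + (r - 1)))
    rw [show 1 + (r - 1) = 0 + r by omega, BE.rot.per]
    exact z2

theorem Adm41.to57 [DecidableEq V] (h : Adm41 G U r Q p q F x y) (hr : 7 ≤ r) (hC : C ∈ F)
    (hE : E ∈ F) (hne : C ≠ E) (BC : Two57 G r x y p q C f) (BE : One57 G r x y p q E g)
    (z1 : G.Adj (f 4) (g 1)) (z2 : G.Adj (f 4) (g 3)) : False := by
  have R' := BC.rot.rot (by omega) 1
  have S' := BE.rot.rot (by omega) 2
  have L := h.lab57 hC hE hne R' S' (by omega)
  have fm : ∀ i, f i ∈ C := fun i => BC.rot.mem' (by omega) i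
  have gm : ∀ i, g i ∈ E := fun i => BE.rot.mem' (by omega) i
  refine h.no57 hC hE hne R' S' (by omega) (L.k3 hr ?_ ?_ ?_ ?_ ?_ ?_ ?_)
  · rw [labx57, labC57 (by omega)]
    exact (BC.hx _ (fm _)).2 (Or.inr rfl)
  · rw [labx57, labE57 (i := 0) (j := r) (by omega) (by omega)]
    exact (BE.hx _ (gm _)).2 rfl
  · rw [laby57, labE57 (i := 0) (j := r) (by omega) (by omega)]
    exact BE.hy _ (gm _)
  · rw [laby57, labC57 (i := 6) (by omega)]
    exact (BC.hy _ (fm _)).2 (BC.rot.inj 2 7 (by omega) (by omega)).symm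
  · rw [labC57 (i := 4) (by omega), labC57 (i := 5) (by omega)]
    exact Or.inl ⟨BC.hp _ (fm _) (BC.rot.inj 2 5 (by omega) (by omega)).symm,
      BC.hq _ (fm _) (BC.rot.inj 2 6 (by omega) (by omega)).symm⟩
  · rw [labC57 (i := 3) (by omega), labE57 (i := r - 1) (by omega) (by omega)]
    show G.Adj (g (2 + (r - 1))) (f 4)
    rw [show 2 + (r - 1) = 1 + r by omega, BE.rot.per]
    exact z1.symm
  · rw [labC57 (i := 3) (by omega), labE57 (i := 1) (by omega) (by omega)]
    exact z2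

theorem Adm41.oo57 [DecidableEq V] (h : Adm41 G U r Q p q F x y) (hr : 6 ≤ r) (hC : C ∈ F)
    (hE : E ∈ F) (hne : C ≠ E) (BC : One57 G r x y p q C f) (BE : One57 G r x y p q E g)
    (z1 : G.Adj (f 3) (g 1)) (z2 : G.Adj (f 3) (g 3)) : False := by
  have R' := BC.rot.rot (by omega) 2
  have S' := BE.rot.rot (by omega) 2
  have L := h.lab57 hC hE hne R' S' (by omega)
  have fm : ∀ i, f i ∈ C := fun i => BC.rot.mem' (by omega) i
  have gm : ∀ i, g i ∈ E := fun i => BE.rot.mem' (by omega) i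
  refine h.no57 hC hE hne R' S' (by omega) (L.k4 (by omega) ?_ ?_ ?_ ?_ ?_ ?_ ?_)
  · rw [labx57, labC57 (by omega)]
    exact (BC.hx _ (fm _)).2 rfl
  · rw [labx57, labE57 (i := 0) (j := r) (by omega) (by omega)]
    exact (BE.hx _ (gm _)).2 rfl
  · rw [laby57, labE57 (i := 0) (j := r) (by omega) (by omega)]
    exact BE.hy _ (gm _)
  · rw [laby57, labC57 (i := 4) (by omega)]
    exact BC.hy _ (fm _)
  · rw [labC57 (i := 2) (by omega), labC57 (i := 3) (by omega)]
    exact Or.inl ⟨BC.hp _ (fm _), BC.hq _ (fm _) (BC.rot.inj 2 5 (by omega) (by omega)).symm⟩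
  · rw [labC57 (i := 1) (by omega), labE57 (i := r - 1) (by omega) (by omega)]
    show G.Adj (g (2 + (r - 1))) (f 3)
    rw [show 2 + (r - 1) = 1 + r by omega, BE.rot.per]
    exact z1.symm
  · rw [labC57 (i := 1) (by omega), labE57 (i := 1) (by omega) (by omega)]
    exact z2

theorem Two57.deg [DecidableEq V] (h : Two57 G r x y p q E g) (hr : 5 ≤ r) :
    r ≤ dg G E y + 1 := by
  classical
  have h1 : E.erase (g 2) ⊆ E.filter fun u => G.Adj y u := by
    intro z hz
    rw [Finset.mem_erase] at hz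
    exact Finset.mem_filter.2 ⟨hz.2, (h.hy z hz.2).2 hz.1⟩
  have h2 := Finset.card_le_card h1
  rw [Finset.card_erase_of_mem (h.rot.mem' (by omega) 2), h.rot.card57 (by omega)] at h2
  have h4 : dg G E y = (E.filter fun u => G.Adj y u).card := by
    unfold dg
    congr
  omega

theorem One57.deg [DecidableEq V] (h : One57 G r x y p q E g) (hr : 5 ≤ r) : r ≤ dg G E y := by
  classical
  have h1 : E ⊆ E.filter fun u => G.Adj y u := by
    intro z hz
    exact Finset.mem_filter.2 ⟨hz, h.hy z hz⟩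
  have h2 := Finset.card_le_card h1
  rw [h.rot.card57 (by omega)] at h2
  have h4 : dg G E y = (E.filter fun u => G.Adj y u).card := by
    unfold dg
    congr
  omega

/-- one missing vertex -/
theorem miss1_57 [DecidableEq V] {z a : V} (ha : a ∈ E) (h : ¬ G.Adj z a) :
    dg G E z + 1 ≤ E.card := by
  have := dg_miss57 (G := G) (M := {a}) (z := z) (E := E) (by simpa using ha) (by simpa using h)
  simpa using this

/-- two missing vertices -/
theorem miss2_57 [DecidableEq V] {z a b : V} (ha : a ∈ E) (hb : b ∈ E) (hab : a ≠ b)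
    (h : ¬ G.Adj z a) (h' : ¬ G.Adj z b) : dg G E z + 2 ≤ E.card := by
  have := dg_miss57 (G := G) (M := {a, b}) (z := z) (E := E) (by
    intro u hu
    rcases Finset.mem_insert.1 hu with e | e
    · rw [e]; exact ha
    · rw [Finset.mem_singleton.1 e]; exact hb) (by
    intro u hu
    rcases Finset.mem_insert.1 hu with e | e
    · rw [e]; exact h
    · rw [Finset.mem_singleton.1 e]; exact h')
  rwa [Finset.card_pair hab] at this

/-- three missing vertices -/
theorem miss3_57 [DecidableEq V] {z a b c : V} (ha : a ∈ E) (hb : b ∈ E) (hc : c ∈ E)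
    (hab : a ≠ b) (hac : a ≠ c) (hbc : b ≠ c) (h : ¬ G.Adj z a) (h' : ¬ G.Adj z b)
    (h'' : ¬ G.Adj z c) : dg G E z + 3 ≤ E.card := by
  have := dg_miss57 (G := G) (M := {a, b, c}) (z := z) (E := E) (by
    intro u hu
    rcases Finset.mem_insert.1 hu with e | e
    · rw [e]; exact ha
    · rcases Finset.mem_insert.1 e with e | e
      · rw [e]; exact hb
      · rw [Finset.mem_singleton.1 e]; exact hc) (by
    intro u hu
    rcases Finset.mem_insert.1 hu with e | e
    · rw [e]; exact h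
    · rcases Finset.mem_insert.1 e with e | e
      · rw [e]; exact h'
      · rw [Finset.mem_singleton.1 e]; exact h'')
  rwa [Finset.card_eq_three.2 ⟨a, b, c, hab, hac, hbc, rfl⟩] at this

/-- counting: `z, z'` both miss `c`; for each of two pairs of possible edges one is missing -/
theorem count57 [DecidableEq V] {z z' a b a' b' c : V} (ha : a ∈ E) (hb : b ∈ E) (ha' : a' ∈ E)
    (hb' : b' ∈ E) (hc : c ∈ E) (hac : a ≠ c) (hbc : b ≠ c) (hac' : a' ≠ c) (hbc' : b' ≠ c)
    (haa : a ≠ a') (hbb : b ≠ b') (h1 : ¬ G.Adj z c) (h2 : ¬ G.Adj z' c)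
    (h3 : ¬ (G.Adj z a ∧ G.Adj z' b)) (h4 : ¬ (G.Adj z a' ∧ G.Adj z' b')) :
    dg G E z + dg G E z' + 4 ≤ 2 * E.card := by
  by_cases k1 : G.Adj z a
  · have k2 : ¬ G.Adj z' b := fun hh => h3 ⟨k1, hh⟩
    by_cases k3 : G.Adj z a'
    · have k4 : ¬ G.Adj z' b' := fun hh => h4 ⟨k3, hh⟩
      have e1 := miss1_57 hc h1
      have e2 := miss3_57 hb hb' hc hbb hbc hbc' k2 k4 h2
      omega
    · have e1 := miss2_57 ha' hc hac' k3 h1
      have e2 := miss2_57 hb hc hbc k2 h2
      omega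
  · by_cases k3 : G.Adj z a'
    · have k4 : ¬ G.Adj z' b' := fun hh => h4 ⟨k3, hh⟩
      have e1 := miss2_57 ha hc hac k1 h1
      have e2 := miss2_57 hb' hc hbc' k4 h2
      omega
    · have e1 := miss3_57 ha ha' hc haa hac hac' k1 k3 h1
      have e2 := miss1_57 hc h2
      omega

/-- **pair lemma**, `C` and `E` of the second kind -/
theorem Adm41.pair_tt57 [DecidableEq V] (h : Adm41 G U r Q p q F x y) (hr : 6 ≤ r) (hC : C ∈ F)
    (hE : E ∈ F) (hne : C ≠ E) (BC : Two57 G r x y p q C f) (BE : Two57 G r x y p q E g) :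
    dg G E (f 0) + dg G E (f 4) + 2 ≤ 2 * dg G E y := by
  have fm : ∀ i, f i ∈ C := fun i => BC.rot.mem' (by omega) i
  have gm : ∀ i, g i ∈ E := fun i => BE.rot.mem' (by omega) i
  have n1 : f 1 ≠ f 2 := BC.rot.ne57 (by omega) (by omega) (by omega)
  have n3 : f 3 ≠ f 2 := BC.rot.ne57 (by omega) (by omega) (by omega)
  have n5 : f 5 ≠ f 2 := BC.rot.ne57 (by omega) (by omega) (by omega)
  have n0 : f 0 ≠ f 2 := BC.rot.ne57 (by omega) (by omega) (by omega)
  have n4 : f 4 ≠ f 2 := BC.rot.ne57 (by omega) (by omega) (by omega)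
  have nr : f (r - 1) ≠ f 2 := BC.rot.ne57 (by omega) (by omega) (by omega)
  have c0 : ¬ G.Adj (f 0) (g 2) := h.centre57 (by omega) hC hE hne BC.rot BE (a := 0)
    ((BC.hy _ (fm _)).2 n1) (by
      rw [Nat.zero_add]
      exact (BC.hy _ (fm _)).2 nr) (BC.hp _ (fm _) n0) (BC.hq _ (fm _) n0)
  have c4 : ¬ G.Adj (f 4) (g 2) := h.centre57 (by omega) hC hE hne BC.rot BE (a := 4)
    ((BC.hy _ (fm _)).2 n5) (by
      rw [show 4 + (r - 1) = 3 + r by omega, BC.rot.per]
      exact (BC.hy _ (fm _)).2 n3) (BC.hp _ (fm _) n4) (BC.hq _ (fm _) n4)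
  have h1 := count57 (G := G) (E := E) (z := f 0) (z' := f 4) (a := g (r - 2)) (b := g 0)
    (a' := g 0) (b' := g (r - 2)) (c := g 2) (gm _) (gm _) (gm _) (gm _) (gm _)
    (BE.rot.ne57 (by omega) (by omega) (by omega)) (BE.rot.ne57 (by omega) (by omega) (by omega))
    (BE.rot.ne57 (by omega) (by omega) (by omega)) (BE.rot.ne57 (by omega) (by omega) (by omega))
    (BE.rot.ne57 (by omega) (by omega) (by omega)) (BE.rot.ne57 (by omega) (by omega) (by omega))
    c0 c4 (fun hh => h.tt57 hr hC hE hne BC BE (Or.inl hh))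
    (fun hh => h.tt57 hr hC hE hne BC BE (Or.inr hh))
  rw [BE.rot.card57 (by omega)] at h1
  have := BE.deg (by omega)
  omega

/-- **pair lemma**, `C` of the first and `E` of the second kind -/
theorem Adm41.pair_ot57 [DecidableEq V] (h : Adm41 G U r Q p q F x y) (hr : 6 ≤ r) (hC : C ∈ F)
    (hE : E ∈ F) (hne : C ≠ E) (BC : One57 G r x y p q C f) (BE : Two57 G r x y p q E g) :
    dg G E (f 1) + dg G E (f 3) + 2 ≤ 2 * dg G E y := by
  have fm : ∀ i, f i ∈ C := fun i => BC.rot.mem' (by omega) i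
  have gm : ∀ i, g i ∈ E := fun i => BE.rot.mem' (by omega) i
  have n1 : f 1 ≠ f 2 := BC.rot.ne57 (by omega) (by omega) (by omega)
  have n3 : f 3 ≠ f 2 := BC.rot.ne57 (by omega) (by omega) (by omega)
  have c1 : ¬ G.Adj (f 1) (g 2) := h.centre57 (by omega) hC hE hne BC.rot BE (a := 1)
    (BC.hy _ (fm _)) (BC.hy _ (fm _)) (BC.hp _ (fm _)) (BC.hq _ (fm _) n1)
  have c3 : ¬ G.Adj (f 3) (g 2) := h.centre57 (by omega) hC hE hne BC.rot BE (a := 3)
    (BC.hy _ (fm _)) (BC.hy _ (fm _)) (BC.hp _ (fm _)) (BC.hq _ (fm _) n3)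
  obtain ⟨g', BE', g0, g4, g2⟩ := BE.refl (by omega)
  have h1 := count57 (G := G) (E := E) (z := f 1) (z' := f 3) (a := g 0) (b := g 0)
    (a' := g 4) (b' := g 4) (c := g 2) (gm _) (gm _) (gm _) (gm _) (gm _)
    (BE.rot.ne57 (by omega) (by omega) (by omega)) (BE.rot.ne57 (by omega) (by omega) (by omega))
    (BE.rot.ne57 (by omega) (by omega) (by omega)) (BE.rot.ne57 (by omega) (by omega) (by omega))
    (BE.rot.ne57 (by omega) (by omega) (by omega)) (BE.rot.ne57 (by omega) (by omega) (by omega))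
    c1 c3 (fun hh => h.ot57 hr hC hE hne BC BE hh.1 hh.2)
    (fun hh => h.ot57 hr hC hE hne BC BE' (by rw [g0]; exact hh.1) (by rw [g0]; exact hh.2))
  rw [BE.rot.card57 (by omega)] at h1
  have := BE.deg (by omega)
  omega

/-- **pair lemma**, `C` of the second and `E` of the first kind -/
theorem Adm41.pair_to57 [DecidableEq V] (h : Adm41 G U r Q p q F x y) (hr : 7 ≤ r) (hC : C ∈ F)
    (hE : E ∈ F) (hne : C ≠ E) (BC : Two57 G r x y p q C f) (BE : One57 G r x y p q E g) :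
    dg G E (f 0) + dg G E (f 4) + 2 ≤ 2 * dg G E y := by
  have gm : ∀ i, g i ∈ E := fun i => BE.rot.mem' (by omega) i
  obtain ⟨f', BC', f0, f4, f2⟩ := BC.refl (by omega)
  have key : ∀ z, ¬ (G.Adj z (g 1) ∧ G.Adj z (g 3)) → dg G E z + 1 ≤ E.card := by
    intro z hz
    by_cases h1 : G.Adj z (g 1)
    · exact miss1_57 (gm 3) fun hh => hz ⟨h1, hh⟩
    · exact miss1_57 (gm 1) h1
  have h1 := key (f 4) fun hh => h.to57 hr hC hE hne BC BE hh.1 hh.2
  have h2 := key (f 0) fun hh => h.to57 hr hC hE hne BC' BE (by rw [f4]; exact hh.1)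
    (by rw [f4]; exact hh.2)
  rw [BE.rot.card57 (by omega)] at h1 h2
  have := BE.deg (by omega)
  omega

/-- **pair lemma**, both of the first kind -/
theorem Adm41.pair_oo57 [DecidableEq V] (h : Adm41 G U r Q p q F x y) (hr : 6 ≤ r) (hC : C ∈ F)
    (hE : E ∈ F) (hne : C ≠ E) (BC : One57 G r x y p q C f) (BE : One57 G r x y p q E g) :
    dg G E (f 1) + dg G E (f 3) + 2 ≤ 2 * dg G E y := by
  have gm : ∀ i, g i ∈ E := fun i => BE.rot.mem' (by omega) i
  obtain ⟨f', BC', f1, f3, f2⟩ := BC.refl (by omega)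
  have key : ∀ z, ¬ (G.Adj z (g 1) ∧ G.Adj z (g 3)) → dg G E z + 1 ≤ E.card := by
    intro z hz
    by_cases h1 : G.Adj z (g 1)
    · exact miss1_57 (gm 3) fun hh => hz ⟨h1, hh⟩
    · exact miss1_57 (gm 1) h1
  have h1 := key (f 3) fun hh => h.oo57 hr hC hE hne BC BE hh.1 hh.2
  have h2 := key (f 1) fun hh => h.oo57 hr hC hE hne BC' BE (by rw [f3]; exact hh.1)
    (by rw [f3]; exact hh.2)
  rw [BE.rot.card57 (by omega)] at h1 h2
  have := BE.deg (by omega)
  omega

end Pool.Agent.P0
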