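import Pool.Agent.P0.BBad57
import Pool.Agent.P0.OutA49

set_option linter.all false

/-!
# P0, I7 (B), part 6: the words of type 1 and of type 2 with the bit missing at the centre are bad
-/

namespace Pool.Agent.P0

open Pool.Agent.Helper14.LongCyc Pool.Agent.LCK Pool.Agent.FRC

universe u

variable {V : Type u} {G : SimpleGraph V} {U : Finset V} {k r : ℕ} {Q : List V} {p q x y : V}
  {F : Finset (Finset V)} {C : Finset V} {c : List V} {n : ℕ}

/-- each position occurs in the window from `n` -/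
theorem pos57 {L : ℕ} (hL : 0 < L) (n i : ℕ) : ∃ j, j < L ∧ (n + j) % L = i % L := by
  refine ⟨(i % L + (L - n % L)) % L, Nat.mod_lt _ hL, ?_⟩
  have h1 := Nat.mod_lt n hL
  rw [Nat.add_mod, Nat.mod_mod, ← Nat.add_mod]
  have h2 : n + (i % L + (L - n % L)) = i % L + L * (n / L) + L := by
    have := Nat.mod_add_div n L
    omega
  rw [h2, Nat.add_mod_right, Nat.add_mul_mod_self_left, Nat.mod_mod]

/-- a cyclic list gives a labelling -/
theorem rot57 (hc : Cyc G c) (hp : 0 < c.length) (hs : ∀ z, z ∈ c ↔ z ∈ C) (hcr : c.length = r)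
    (n : ℕ) : Rot19 G r C (fun j => cf c hp (n + j)) where
  adj := fun i => cf_adj hc hp (n + i)
  per := fun i => by
    rw [← Nat.add_assoc, ← hcr]
    exact cf_congr hp (Nat.add_mod_right _ _)
  inj := fun i j h1 h2 => far49 hc hp n h1 (by omega)
  mem := fun z => by
    rw [← hs]
    constructor
    · intro hz
      obtain ⟨i, _, rfl⟩ := exists_cf hp hz
      obtain ⟨j, hj, he⟩ := pos57 hp n i
      exact ⟨j, by omega, (cf_congr hp he).symm⟩
    · rintro ⟨i, _, rfl⟩
      exact cf_mem hp _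

theorem mod_ne57 {r n i j : ℕ} (hi : i < r) (hj : j < r) (hij : i ≠ j) :
    (n + i) % r ≠ (n + j) % r := by
  intro h
  have h1 : i ≡ j [MOD r] := Nat.ModEq.add_left_cancel' n h
  unfold Nat.ModEq at h1
  rw [Nat.mod_eq_of_lt hi, Nat.mod_eq_of_lt hj] at h1
  exact hij h1

/-- the word of type 1 -/
theorem bad_one57 [DecidableEq V] (hc : Cyc G c) (hp : 0 < c.length) (hs : ∀ z, z ∈ c ↔ z ∈ C)
    (hcr : c.length = r) (hr : 5 ≤ r) (hy : y ∉ C) (hb : 2 * r ≤ dg G C p + dg G C q + 1)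
    (W : OneW49 G c hp x p q y n) : ∃ z1 z2, Bad57 G r p q x y C z1 z2 := by
  obtain ⟨w1, w2, w3⟩ := W
  have R := rot57 hc hp hs hcr n
  obtain ⟨b1, b2⟩ := bitsG49 (hp := hp) hc hs (s := p) (t := q) (by rw [hcr]; exact hb)
  have hn : ∀ j, j < r → j ≠ 2 → G.Adj p (cf c hp (n + j)) ∧ G.Adj q (cf c hp (n + j)) := by
    intro j hj hj2
    exact b2 (n + 2) (n + j) (by rw [hcr]; exact mod_ne57 (by omega) hj (Ne.symm hj2))
      (fun hh => w3 hh.2)
  refine ⟨_, _, hy, _, Or.inl ⟨⟨R, ?_, ?_, ?_, ?_⟩, rfl, rfl⟩⟩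
  · intro z hz
    obtain ⟨j, hj, rfl⟩ := (R.mem z).1 hz
    rw [w1 j (by omega)]
    constructor
    · rintro rfl; rfl
    · intro hh
      by_contra hne
      exact R.ne57 hj (by omega) hne hh
  · intro z hz
    obtain ⟨j, hj, rfl⟩ := (R.mem z).1 hz
    exact w2 _
  · intro z hz
    obtain ⟨j, hj, rfl⟩ := (R.mem z).1 hz
    by_cases hj2 : j = 2
    · rcases b1 (n + 2) with h1 | h1
      · rw [hj2]; exact h1
      · exact absurd h1 w3
    · exact (hn j hj hj2).1
  · intro z hz hne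
    obtain ⟨j, hj, rfl⟩ := (R.mem z).1 hz
    exact (hn j hj fun hh => hne (by rw [hh])).2

/-- the word of type 2 with a bit missing at the centre -/
theorem bad_two57 [DecidableEq V] (hc : Cyc G c) (hp : 0 < c.length) (hs : ∀ z, z ∈ c ↔ z ∈ C)
    (hcr : c.length = r) (hr : 5 ≤ r) (hy : y ∉ C) (hb : 2 * r ≤ dg G C p + dg G C q + 1)
    (W : TwoW49 G c hp x y n)
    (hm : ¬ (G.Adj p (cf c hp (n + 2)) ∧ G.Adj q (cf c hp (n + 2)))) :
    ∃ z1 z2, Bad57 G r p q x y C z1 z2 := by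
  have R := rot57 hc hp hs hcr n
  obtain ⟨b1, b2⟩ := bitsG49 (hp := hp) hc hs (s := p) (t := q) (by rw [hcr]; exact hb)
  have hn : ∀ j, j < r → j ≠ 2 → G.Adj p (cf c hp (n + j)) ∧ G.Adj q (cf c hp (n + j)) := by
    intro j hj hj2
    exact b2 (n + 2) (n + j) (by rw [hcr]; exact mod_ne57 (by omega) hj (Ne.symm hj2)) hm
  refine ⟨_, _, hy, _, Or.inr ⟨⟨R, ?_, ?_, ?_, ?_, b1 _⟩, rfl, rfl⟩⟩
  · intro z hz
    obtain ⟨j, hj, rfl⟩ := (R.mem z).1 hz
    rw [(W j (by omega)).1]
    constructor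
    · rintro (rfl | rfl)
      · exact Or.inl rfl
      · exact Or.inr rfl
    · rintro (hh | hh)
      · left
        by_contra hne
        exact R.ne57 hj (by omega) hne hh
      · right
        by_contra hne
        exact R.ne57 hj (by omega) hne hh
  · intro z hz
    obtain ⟨j, hj, rfl⟩ := (R.mem z).1 hz
    rw [(W j (by omega)).2]
    constructor
    · exact fun hne => R.ne57 hj (by omega) hne
    · intro hne hh
      exact hne (by rw [hh])
  · intro z hz hne
    obtain ⟨j, hj, rfl⟩ := (R.mem z).1 hz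
    exact (hn j hj fun hh => hne (by rw [hh])).1
  · intro z hz hne
    obtain ⟨j, hj, rfl⟩ := (R.mem z).1 hz
    exact (hn j hj fun hh => hne (by rw [hh])).2

end Pool.Agent.P0
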