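import Mathlib

set_option linter.all false

/-!
# P0, row I2: the finite checks for `r = 4` and `r = 5`
-/

namespace Pool.Agent.P0

/-- the largest number of edges in a pair of places, the first free if `s`, the second free if `t`,
not both if `R` -/
def pr61 (s t R : Bool) : ℕ :=
  cond s (cond t (cond R 1 2) 1) (cond t 1 0)

theorem pr61_spec : ∀ (b e s t R : Bool) (h1 : b = true → s = true) (h2 : e = true → t = true)
    (h3 : b = true → e = true → R = false), b.toNat + e.toNat ≤ pr61 s t R := by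
  decide

/-- `p₂` free at a place: `aL, aR` = `p₁` at the two neighbours, `A` = `p_m` at the place, `B` = `p_{m-1}` at
the place, `AL, AR` = `p_m` at the neighbours -/
def fb61 (aL aR A B AL AR : Bool) : Bool :=
  !(aL && aR && A) && !(B && AL && AR)

/-- `p_{m-2}` free at a place -/
def fe61 (a BL BR AL AR AL2 AR2 : Bool) : Bool :=
  !(a && ((BL && BR) || (AL && AR) || (BL && AR2) || (BR && AL2)))

theorem fb61_of : ∀ (b aL aR A B AL AR : Bool)
    (h3 : aL = true → aR = true → b = true → A = true → False)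
    (h4 : b = true → B = true → AL = true → AR = true → False),
    b = true → fb61 aL aR A B AL AR = true := by
  decide

theorem fe61_of : ∀ (e a BL BR AL AR AL2 AR2 : Bool)
    (h2 : a = true → e = true → BL = true → BR = true → False)
    (h6 : a = true → e = true → AL = true → AR = true → False)
    (h7 : a = true → e = true → AR2 = true → BL = true → False)
    (h8 : a = true → e = true → BR = true → AL2 = true → False),
    e = true → fe61 a BL BR AL AR AL2 AR2 = true := by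
  intro e a BL BR AL AR AL2 AR2 h2 h6 h7 h8 he
  subst he
  cases a <;> cases BL <;> cases BR <;> cases AL <;> cases AR <;> cases AL2 <;> cases AR2 <;>
    first
      | rfl
      | exact (h2 rfl rfl rfl rfl).elim
      | exact (h6 rfl rfl rfl rfl).elim
      | exact (h7 rfl rfl rfl rfl).elim
      | exact (h8 rfl rfl rfl rfl).elim

theorem fr61_of : ∀ (b e x y : Bool) (h : b = true → x = true → y = true → e = true → False),
    b = true → e = true → (x && y) = false := by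
  decide

/-- the check for `r = 5` -/
def chk61 (a0 a1 a2 a3 a4 A0 A1 A2 A3 A4 B0 B1 B2 B3 B4 : Bool) : Bool :=
  (a0 && B0 && A4 && A1) || (a1 && B1 && A0 && A2) || (a2 && B2 && A1 && A3) ||
  (a3 && B3 && A2 && A4) || (a4 && B4 && A3 && A0) ||
  Nat.ble (2 * (a0.toNat + a1.toNat + a2.toNat + a3.toNat + a4.toNat + A0.toNat + A1.toNat
    + A2.toNat + A3.toNat + A4.toNat)) 8 ||
  Nat.ble (2 * (a0.toNat + a1.toNat + a2.toNat + a3.toNat + a4.toNat + A0.toNat + A1.toNat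
    + A2.toNat + A3.toNat + A4.toNat) + (B0.toNat + B1.toNat + B2.toNat + B3.toNat + B4.toNat)
    + (pr61 (fb61 a4 a1 A0 B0 A4 A1) (fe61 a4 B3 B0 A3 A0 A2 A1) (a2 && A3)
      + pr61 (fb61 a0 a2 A1 B1 A0 A2) (fe61 a0 B4 B1 A4 A1 A3 A2) (a3 && A4)
      + pr61 (fb61 a1 a3 A2 B2 A1 A3) (fe61 a1 B0 B2 A0 A2 A4 A3) (a4 && A0)
      + pr61 (fb61 a2 a4 A3 B3 A2 A4) (fe61 a2 B1 B3 A1 A3 A0 A4) (a0 && A1)
      + pr61 (fb61 a3 a0 A4 B4 A3 A0) (fe61 a3 B2 B4 A2 A4 A1 A0) (a1 && A2))) 23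

set_option maxRecDepth 100000 in
theorem chk_all61 : ∀ a0 a1 a2 a3 a4 A0 A1 A2 A3 A4 B0 B1 B2 B3 B4 : Bool,
    chk61 a0 a1 a2 a3 a4 A0 A1 A2 A3 A4 B0 B1 B2 B3 B4 = true := by
  decide +kernel

/-- the finite check for `r = 5`: `a, b, e, B, A` are the indicators of `p₁, p₂, p_{m-2}, p_{m-1}, p_m` on a
cycle of length 5 -/
theorem core61 (a b e B A : ℕ → Bool) (pa : ∀ n, a (n + 5) = a n) (pb : ∀ n, b (n + 5) = b n)
    (pe : ∀ n, e (n + 5) = e n) (pB : ∀ n, B (n + 5) = B n) (pA : ∀ n, A (n + 5) = A n)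
    (f1 : ∀ n, a (n + 1) = true → B (n + 1) = true → A n = true → A (n + 2) = true → False)
    (f2 : ∀ n, a (n + 1) = true → e (n + 1) = true → B n = true → B (n + 2) = true → False)
    (f3 : ∀ n, a n = true → a (n + 2) = true → b (n + 1) = true → A (n + 1) = true → False)
    (f4 : ∀ n, b (n + 1) = true → B (n + 1) = true → A n = true → A (n + 2) = true → False)
    (f5 : ∀ n, b n = true → a (n + 2) = true → A (n + 3) = true → e (n + 4) = true → False)
    (f6 : ∀ n, a (n + 1) = true → e (n + 1) = true → A n = true → A (n + 2) = true → False)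
    (f7 : ∀ n, a n = true → e n = true → A (n + 2) = true → B (n + 4) = true → False)
    (f8 : ∀ n, a n = true → e n = true → B (n + 1) = true → A (n + 3) = true → False) :
    2 * ((∑ i ∈ Finset.range 5, (a i).toNat) + ∑ i ∈ Finset.range 5, (A i).toNat)
      + (∑ i ∈ Finset.range 5, (b i).toNat) + (∑ i ∈ Finset.range 5, (e i).toNat)
      + (∑ i ∈ Finset.range 5, (B i).toNat) ≤ 23 := by
  have a5 := pa 0
  have a6 := pa 1
  have a7 := pa 2
  have a8 := pa 3
  have b5 := pb 0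
  have b6 := pb 1
  have b7 := pb 2
  have b8 := pb 3
  have e5 := pe 0
  have e6 := pe 1
  have e7 := pe 2
  have e8 := pe 3
  have B5 := pB 0
  have B6 := pB 1
  have B7 := pB 2
  have B8 := pB 3
  have A5 := pA 0
  have A6 := pA 1
  have A7 := pA 2
  have A8 := pA 3
  have F1 := And.intro (f1 0) (And.intro (f1 1) (And.intro (f1 2) (And.intro (f1 3) (f1 4))))
  have F2 := And.intro (f2 0) (And.intro (f2 1) (And.intro (f2 2) (And.intro (f2 3) (f2 4))))
  have F3 := And.intro (f3 0) (And.intro (f3 1) (And.intro (f3 2) (And.intro (f3 3) (f3 4))))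
  have F4 := And.intro (f4 0) (And.intro (f4 1) (And.intro (f4 2) (And.intro (f4 3) (f4 4))))
  have F5 := And.intro (f5 0) (And.intro (f5 1) (And.intro (f5 2) (And.intro (f5 3) (f5 4))))
  have F6 := And.intro (f6 0) (And.intro (f6 1) (And.intro (f6 2) (And.intro (f6 3) (f6 4))))
  have F7 := And.intro (f7 0) (And.intro (f7 1) (And.intro (f7 2) (And.intro (f7 3) (f7 4))))
  have F8 := And.intro (f8 0) (And.intro (f8 1) (And.intro (f8 2) (And.intro (f8 3) (f8 4))))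
  norm_num only at a5 a6 a7 a8 b5 b6 b7 b8 e5 e6 e7 e8 B5 B6 B7 B8 A5 A6 A7 A8 F1 F2 F3 F4 F5 F6 F7 F8
  simp only [a5, a6, a7, a8, b5, b6, b7, b8, e5, e6, e7, e8, B5, B6, B7, B8, A5, A6, A7, A8]
    at F1 F2 F3 F4 F5 F6 F7 F8
  obtain ⟨F10, F11, F12, F13, F14⟩ := F1
  obtain ⟨F20, F21, F22, F23, F24⟩ := F2
  obtain ⟨F30, F31, F32, F33, F34⟩ := F3
  obtain ⟨F40, F41, F42, F43, F44⟩ := F4
  obtain ⟨F50, F51, F52, F53, F54⟩ := F5
  obtain ⟨F60, F61, F62, F63, F64⟩ := F6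
  obtain ⟨F70, F71, F72, F73, F74⟩ := F7
  obtain ⟨F80, F81, F82, F83, F84⟩ := F8
  have s0 := fb61_of (b 0) (a 4) (a 1) (A 0) (B 0) (A 4) (A 1) F34 F44
  have s1 := fb61_of (b 1) (a 0) (a 2) (A 1) (B 1) (A 0) (A 2) F30 F40
  have s2 := fb61_of (b 2) (a 1) (a 3) (A 2) (B 2) (A 1) (A 3) F31 F41
  have s3 := fb61_of (b 3) (a 2) (a 4) (A 3) (B 3) (A 2) (A 4) F32 F42
  have s4 := fb61_of (b 4) (a 3) (a 0) (A 4) (B 4) (A 3) (A 0) F33 F43
  have t0 := fe61_of (e 0) (a 0) (B 4) (B 1) (A 4) (A 1) (A 3) (A 2) F24 F64 F70 F80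
  have t1 := fe61_of (e 1) (a 1) (B 0) (B 2) (A 0) (A 2) (A 4) (A 3) F20 F60 F71 F81
  have t2 := fe61_of (e 2) (a 2) (B 1) (B 3) (A 1) (A 3) (A 0) (A 4) F21 F61 F72 F82
  have t3 := fe61_of (e 3) (a 3) (B 2) (B 4) (A 2) (A 4) (A 1) (A 0) F22 F62 F73 F83
  have t4 := fe61_of (e 4) (a 4) (B 3) (B 0) (A 3) (A 0) (A 2) (A 1) F23 F63 F74 F84
  have u0 := pr61_spec (b 0) (e 4) _ _ _ s0 t4 (fr61_of _ _ (a 2) (A 3) F50)
  have u1 := pr61_spec (b 1) (e 0) _ _ _ s1 t0 (fr61_of _ _ (a 3) (A 4) F51)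
  have u2 := pr61_spec (b 2) (e 1) _ _ _ s2 t1 (fr61_of _ _ (a 4) (A 0) F52)
  have u3 := pr61_spec (b 3) (e 2) _ _ _ s3 t2 (fr61_of _ _ (a 0) (A 1) F53)
  have u4 := pr61_spec (b 4) (e 3) _ _ _ s4 t3 (fr61_of _ _ (a 1) (A 2) F54)
  have key := chk_all61 (a 0) (a 1) (a 2) (a 3) (a 4) (A 0) (A 1) (A 2) (A 3) (A 4)
    (B 0) (B 1) (B 2) (B 3) (B 4)
  have v : ∀ x : Bool, x.toNat ≤ 1 := by decide
  have b0 := v (b 0)
  have b1 := v (b 1)
  have b2 := v (b 2)
  have b3 := v (b 3)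
  have b4 := v (b 4)
  have e0 := v (e 0)
  have e1 := v (e 1)
  have e2 := v (e 2)
  have e3 := v (e 3)
  have e4 := v (e 4)
  have c0 := v (B 0)
  have c1 := v (B 1)
  have c2 := v (B 2)
  have c3 := v (B 3)
  have c4 := v (B 4)
  simp only [Finset.sum_range_succ, Finset.sum_range_zero, zero_add]
  unfold chk61 at key
  simp only [Bool.or_eq_true, Bool.and_eq_true, Nat.ble_eq] at key
  rcases key with (((((key | key) | key) | key) | key) | key) | key
  · exact (F14 key.1.1.1 key.1.1.2 key.1.2 key.2).elim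
  · exact (F10 key.1.1.1 key.1.1.2 key.1.2 key.2).elim
  · exact (F11 key.1.1.1 key.1.1.2 key.1.2 key.2).elim
  · exact (F12 key.1.1.1 key.1.1.2 key.1.2 key.2).elim
  · exact (F13 key.1.1.1 key.1.1.2 key.1.2 key.2).elim
  · omega
  · omega

/-- the check for `r = 4` -/
theorem chk_four61 : ∀ a0 a1 a2 a3 A0 A1 A2 A3 : Bool,
    2 * (a0.toNat + a1.toNat + a2.toNat + a3.toNat + A0.toNat + A1.toNat + A2.toNat + A3.toNat)
    + (pr61 (!(a3 && a1 && A0)) (!(A2 && A0 && a3)) (a1 && A2)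
      + pr61 (!(a0 && a2 && A1)) (!(A3 && A1 && a0)) (a2 && A3)
      + pr61 (!(a1 && a3 && A2)) (!(A0 && A2 && a1)) (a3 && A0)
      + pr61 (!(a2 && a0 && A3)) (!(A1 && A3 && a2)) (a0 && A1)) ≤ 16 := by
  decide +kernel

theorem ft61_of : ∀ (b x y z : Bool) (h3 : x = true → y = true → b = true → z = true → False),
    b = true → (!(x && y && z)) = true := by
  decide

/-- the finite check for `r = 4`: `a, b, B, A` are the indicators of `p₁, p₂, p_{m-1}, p_m` on a cycle of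
length 4 -/
theorem core_four61 (a b B A : ℕ → Bool) (pa : ∀ n, a (n + 4) = a n) (pb : ∀ n, b (n + 4) = b n)
    (pB : ∀ n, B (n + 4) = B n) (pA : ∀ n, A (n + 4) = A n)
    (f1 : ∀ n, a n = true → a (n + 2) = true → b (n + 1) = true → A (n + 1) = true → False)
    (f2 : ∀ n, A n = true → A (n + 2) = true → B (n + 1) = true → a (n + 1) = true → False)
    (f3 : ∀ n, b (n + 2) = true → a (n + 3) = true → A n = true → B (n + 1) = true → False) :
    2 * ((∑ i ∈ Finset.range 4, (a i).toNat) + ∑ i ∈ Finset.range 4, (A i).toNat)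
      + (∑ i ∈ Finset.range 4, (b i).toNat) + (∑ i ∈ Finset.range 4, (B i).toNat) ≤ 16 := by
  have a5 := pa 0
  have a6 := pa 1
  have a7 := pa 2
  have b5 := pb 0
  have b6 := pb 1
  have b7 := pb 2
  have B5 := pB 0
  have B6 := pB 1
  have B7 := pB 2
  have A5 := pA 0
  have A6 := pA 1
  have A7 := pA 2
  have F1 := And.intro (f1 0) (And.intro (f1 1) (And.intro (f1 2) (f1 3)))
  have F2 := And.intro (f2 0) (And.intro (f2 1) (And.intro (f2 2) (f2 3)))
  have F3 := And.intro (f3 0) (And.intro (f3 1) (And.intro (f3 2) (f3 3)))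
  norm_num only at a5 a6 a7 b5 b6 b7 B5 B6 B7 A5 A6 A7 F1 F2 F3
  simp only [a5, a6, a7, b5, b6, b7, B5, B6, B7, A5, A6, A7] at F1 F2 F3
  obtain ⟨F10, F11, F12, F13⟩ := F1
  obtain ⟨F20, F21, F22, F23⟩ := F2
  obtain ⟨F30, F31, F32, F33⟩ := F3
  have s0 := ft61_of (b 0) (a 3) (a 1) (A 0) F13
  have s1 := ft61_of (b 1) (a 0) (a 2) (A 1) F10
  have s2 := ft61_of (b 2) (a 1) (a 3) (A 2) F11
  have s3 := ft61_of (b 3) (a 2) (a 0) (A 3) F12
  have t0 := ft61_of (B 0) (A 3) (A 1) (a 0) F23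
  have t1 := ft61_of (B 1) (A 0) (A 2) (a 1) F20
  have t2 := ft61_of (B 2) (A 1) (A 3) (a 2) F21
  have t3 := ft61_of (B 3) (A 2) (A 0) (a 3) F22
  have u0 := pr61_spec (b 0) (B 3) _ _ _ s0 t3 (fr61_of _ _ (a 1) (A 2) F32)
  have u1 := pr61_spec (b 1) (B 0) _ _ _ s1 t0 (fr61_of _ _ (a 2) (A 3) F33)
  have u2 := pr61_spec (b 2) (B 1) _ _ _ s2 t1 (fr61_of _ _ (a 3) (A 0) F30)
  have u3 := pr61_spec (b 3) (B 2) _ _ _ s3 t2 (fr61_of _ _ (a 0) (A 1) F31)
  have key := chk_four61 (a 0) (a 1) (a 2) (a 3) (A 0) (A 1) (A 2) (A 3)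
  simp only [Finset.sum_range_succ, Finset.sum_range_zero, zero_add]
  omega

end Pool.Agent.P0
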