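import Pool.Agent.P0.Nf33

set_option linter.all false

/-!
# P0, I7 (A): LL0, sections (1) and (2), and the final statement (page MP_2b93ca_P0_LL0_h33)
-/

namespace Pool.Agent.P0

variable {r : ℕ} {a b b' a' : ZMod r → ℕ}

/-- the sum over `ZMod r` read from `c` -/
theorem sumN33 [NeZero r] (f : ZMod r → ℕ) (c : ZMod r) :
    ∑ j ∈ Finset.range r, f (c + (j : ℕ)) = ∑ i, f i := by
  refine Finset.sum_nbij' (fun j => c + ((j : ℕ) : ZMod r)) (fun x => (x - c).val)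
    (fun j _ => Finset.mem_univ _) ?_ ?_ ?_ (fun j _ => rfl)
  · intro x _
    exact Finset.mem_range.2 (ZMod.val_lt _)
  · intro j hj
    rw [Finset.mem_range] at hj
    simp only [add_sub_cancel_left]
    exact ZMod.val_natCast_of_lt hj
  · intro x _
    simp only [ZMod.natCast_zmod_val]
    ring

/-- every position is `c + n`, `n < r` -/
theorem pos33 [NeZero r] (c j : ZMod r) : ∃ n : ℕ, n < r ∧ j = c + (n : ℕ) :=
  ⟨(j - c).val, ZMod.val_lt _, by rw [ZMod.natCast_zmod_val]; ring⟩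

theorem jP2 [NeZero r] (c : ZMod r) {p t : ℕ}
    (h : P2N r (fun n => a (c + (n : ℕ))) (fun n => a' (c + (n : ℕ))) p t) :
    ∀ j, a' (j - 1) = 1 → a j = 1 → j = c + (p : ℕ) := by
  intro j h1 h2
  obtain ⟨n, hn, rfl⟩ := pos33 (c + ((p : ℕ) : ZMod r)) j
  obtain ⟨e1, e2, e3, e4, e5⟩ := h
  have f1 : c + (p : ℕ) + ((n : ℕ) : ZMod r) = c + ((p + n : ℕ) : ZMod r) := by push_cast; ring
  rcases Nat.eq_zero_or_pos n with h0 | h0
  · rw [h0]; simp
  · exfalso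
    have f2 : c + (p : ℕ) + ((n : ℕ) : ZMod r) - 1 = c + ((p + (n - 1) : ℕ) : ZMod r) := by
      have : ((n : ℕ) : ZMod r) = ((n - 1 : ℕ) : ZMod r) + 1 := by
        have : n = (n - 1) + 1 := by omega
        rw [this]; push_cast; simp
      rw [this]
      push_cast
      ring
    rw [f1] at h2
    rw [f2] at h1
    rcases Nat.lt_or_ge n (2 * t + 1) with h3 | h3
    · obtain ⟨s, hs⟩ := Nat.even_or_odd' n
      rcases hs with hs | hs
      · have k := (e4 (s - 1) (by omega)).2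
        rw [show p + 2 * (s - 1) + 1 = p + (n - 1) by omega] at k
        beta_reduce at k
        omega
      · have k := (e4 s (by omega)).1
        rw [show p + 2 * s + 1 = p + n by omega] at k
        beta_reduce at k
        omega
    · have k := (e5 n h3 hn).1
      beta_reduce at k
      omega

theorem jP1 [NeZero r] (c : ZMod r)
    (h : P1N r (fun n => a (c + (n : ℕ))) (fun n => b (c + (n : ℕ))) (fun n => b' (c + (n : ℕ)))
      (fun n => a' (c + (n : ℕ)))) :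
    ∀ j, a' (j - 1) = 1 → a j = 1 → j = c := by
  intro j h1 h2
  obtain ⟨n, hn, rfl⟩ := pos33 c j
  rcases Nat.eq_zero_or_pos n with h0 | h0
  · rw [h0]; simp
  · exfalso
    have k := h.2.1 n h0 hn
    simp only at k
    omega

/-- one of `J+`, `J-` has at most one element -/
def HJ33 (r : ℕ) (a a' : ZMod r → ℕ) : Prop :=
  (∃ c, ∀ j, a' (j - 1) = 1 → a j = 1 → j = c) ∨ (∃ c, ∀ j, a (j - 1) = 1 → a' j = 1 → j = c)

/-- a window which violates `OK` -/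
def RB33 (a b b' a' : ZMod r → ℕ) (i : ZMod r) : Prop :=
  a (i - 1) = 1 ∧ a' (i - 1) = 1 ∧ (a (i + 2) = 1 ∨ a' (i + 2) = 1) ∧
    ((b i = 1 ∧ b' (i + 1) = 1) ∨ (b (i + 1) = 1 ∧ b' i = 1)) ∧
    ((a (i + 1) = 1 ∧ a' (i + 1) = 1) ∨ (a (i + 1) + a' (i + 1) = 1 ∧ b i = 1 ∧ b' i = 1))

theorem bad33' [NeZero r] (D : LLZ r a b b' a') (hr : 7 ≤ r) (hT : 4 * r + 1 ≤ tot49 a b b' a')
    {i : ZMod r} (h0 : a (i - 1) = 1) (h0' : a' (i - 1) = 1) (h3 : a' (i + 2) = 1)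
    (ph : (b i = 1 ∧ b' (i + 1) = 1) ∨ (b (i + 1) = 1 ∧ b' i = 1))
    (hx : (a (i + 1) = 1 ∧ a' (i + 1) = 1) ∨ (a (i + 1) + a' (i + 1) = 1 ∧ b i = 1 ∧ b' i = 1)) :
    HJ33 r a a' := by
  have e0 : i - 1 + ((0 : ℕ) : ZMod r) = i - 1 := by push_cast; ring
  have e1 : i - 1 + ((1 : ℕ) : ZMod r) = i := by push_cast; ring
  have e2 : i - 1 + ((2 : ℕ) : ZMod r) = i + 1 := by push_cast; ring
  have e3 : i - 1 + ((3 : ℕ) : ZMod r) = i + 2 := by push_cast; ring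
  have H : NF33 r (fun n => a (i - 1 + (n : ℕ))) (fun n => b (i - 1 + (n : ℕ)))
      (fun n => b' (i - 1 + (n : ℕ))) (fun n => a' (i - 1 + (n : ℕ))) := by
    refine ⟨hr, D.toN (i - 1), ?_, ?_, ?_, ?_, ?_⟩
    · simp only [Finset.sum_add_distrib, ← Finset.mul_sum, sumN33]
      unfold tot49 at hT
      exact hT
    · show a (i - 1 + ((0 : ℕ) : ZMod r)) = 1
      rw [e0]; exact h0
    · show a' (i - 1 + ((0 : ℕ) : ZMod r)) = 1
      rw [e0]; exact h0'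
    · show a' (i - 1 + ((3 : ℕ) : ZMod r)) = 1
      rw [e3]; exact h3
    · show (b (i - 1 + ((1 : ℕ) : ZMod r)) = 1 ∧ b' (i - 1 + ((2 : ℕ) : ZMod r)) = 1) ∨
        (b (i - 1 + ((2 : ℕ) : ZMod r)) = 1 ∧ b' (i - 1 + ((1 : ℕ) : ZMod r)) = 1)
      rw [e1, e2]; exact ph
  have hf := (H.final (by
    show (a (i - 1 + ((2 : ℕ) : ZMod r)) = 1 ∧ a' (i - 1 + ((2 : ℕ) : ZMod r)) = 1) ∨
      (a (i - 1 + ((2 : ℕ) : ZMod r)) + a' (i - 1 + ((2 : ℕ) : ZMod r)) = 1 ∧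
        b (i - 1 + ((1 : ℕ) : ZMod r)) = 1 ∧ b' (i - 1 + ((1 : ℕ) : ZMod r)) = 1)
    rw [e1, e2]; exact hx)).2
  rcases hf with h | ⟨p, t, h⟩ | ⟨p, t, h⟩
  · exact Or.inl ⟨_, jP1 (i - 1) h⟩
  · exact Or.inl ⟨_, jP2 (i - 1) h⟩
  · exact Or.inr ⟨_, jP2 (i - 1) h⟩

theorem bad33 [NeZero r] (D : LLZ r a b b' a') (hr : 7 ≤ r) (hT : 4 * r + 1 ≤ tot49 a b b' a')
    {i : ZMod r} (h : RB33 a b b' a' i) : HJ33 r a a' := by
  obtain ⟨h0, h0', h3, ph, hx⟩ := h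
  rcases h3 with h3 | h3
  · have := bad33' D.swap hr (by rw [tot_swap49]; exact hT) h0' h0 h3 (by tauto) (by omega)
    exact this.symm
  · exact bad33' D hr hT h0 h0' h3 ph hx

/-- the reflected window -/
theorem badL33 [NeZero r] (D : LLZ r a b b' a') (hr : 7 ≤ r) (hT : 4 * r + 1 ≤ tot49 a b b' a')
    {i : ZMod r} (h0 : a (i + 1) = 1) (h0' : a' (i + 1) = 1) (h3 : a (i - 2) = 1 ∨ a' (i - 2) = 1)
    (ph : (b i = 1 ∧ b' (i - 1) = 1) ∨ (b (i - 1) = 1 ∧ b' i = 1))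
    (hx : a (i - 1) + a' (i - 1) = 1 ∧ b i = 1 ∧ b' i = 1) : HJ33 r a a' := by
  have e1 : -(-i - 1) = i + 1 := by ring
  have e2 : -(-i + 1) = i - 1 := by ring
  have e3 : -(-i + 2) = i - 2 := by ring
  have e4 : -(-i) = i := by ring
  have hT' : 4 * r + 1 ≤ tot49 (fun i => a (-i)) (fun i => b (-i)) (fun i => b' (-i))
      (fun i => a' (-i)) := by
    unfold tot49
    unfold tot49 at hT
    rw [neg49 a, neg49 b, neg49 b', neg49 a']
    exact hT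
  have hb := bad33 (i := -i) D.refl hr hT' (by
    unfold RB33
    simp only [e1, e2, e3, e4]
    exact ⟨h0, h0', h3, ph, Or.inr hx⟩)
  rcases hb with ⟨c, hc⟩ | ⟨c, hc⟩
  · right
    refine ⟨-c + 1, fun j h1 h2 => ?_⟩
    have := hc (-j + 1) (by
      show a' (-(-j + 1 - 1)) = 1
      rw [show -(-j + 1 - 1) = j by ring]; exact h2) (by
      show a (-(-j + 1)) = 1
      rw [show -(-j + 1) = j - 1 by ring]; exact h1)
    linear_combination -this
  · left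
    refine ⟨-c + 1, fun j h1 h2 => ?_⟩
    have := hc (-j + 1) (by
      show a (-(-j + 1 - 1)) = 1
      rw [show -(-j + 1 - 1) = j by ring]; exact h2) (by
      show a' (-(-j + 1)) = 1
      rw [show -(-j + 1) = j - 1 by ring]; exact h1)
    linear_combination -this

/-- what a position gives to its right neighbour -/
def R33 (a b b' a' : ZMod r → ℕ) (i : ZMod r) : ℕ :=
  if a (i - 1) = 1 ∧ a' (i - 1) = 1 ∧ a (i + 1) = 1 ∧ a' (i + 1) = 1 then b i + b' i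
  else if a (i - 1) = 1 ∧ a' (i - 1) = 1 ∧ a (i + 1) + a' (i + 1) = 1 ∧ b i = 1 ∧ b' i = 1 then 1
  else 0

/-- what a position gives to its left neighbour -/
def L33 (a b b' a' : ZMod r → ℕ) (i : ZMod r) : ℕ :=
  if a (i + 1) = 1 ∧ a' (i + 1) = 1 ∧ a (i - 1) + a' (i - 1) = 1 ∧ b i = 1 ∧ b' i = 1 then 1
  else 0

/-- the discharging inequality, in numbers: positions `-2, …, 2` -/
theorem cellA33 {am am1 a0 a1 a2 cm cm1 c0 c1 c2 b0 b1 b2 d0 d1 d2 R L R0 L0 : ℕ}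
    (h1 : am ≤ 1) (h2 : am1 ≤ 1) (h3 : a0 ≤ 1) (h4 : a1 ≤ 1) (h5 : a2 ≤ 1)
    (h6 : cm ≤ 1) (h7 : cm1 ≤ 1) (h8 : c0 ≤ 1) (h9 : c1 ≤ 1) (h10 : c2 ≤ 1)
    (g0 : b0 ≤ 1) (g1 : b1 ≤ 1) (g2 : b2 ≤ 1) (g3 : d0 ≤ 1) (g4 : d1 ≤ 1) (g5 : d2 ≤ 1)
    -- M1, M1' at -1, 0, 1
    (m1 : am = 1 → a0 = 1 → b0 + cm1 ≤ 1) (m1' : cm = 1 → c0 = 1 → d0 + am1 ≤ 1)
    (m2 : am1 = 1 → a1 = 1 → b1 + c0 ≤ 1) (m2' : cm1 = 1 → c1 = 1 → d1 + a0 ≤ 1)
    (m3 : a0 = 1 → a2 = 1 → b2 + c1 ≤ 1) (m3' : c0 = 1 → c2 = 1 → d2 + a1 ≤ 1)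
    -- no bad windows
    (w1 : am = 1 → cm = 1 → (a1 = 1 ∨ c1 = 1) → (a0 = 1 ∧ c0 = 1) ∨ (a0 + c0 = 1 ∧ b0 = 1 ∧ d0 = 1) →
      b0 + d1 ≤ 1 ∧ b1 + d0 ≤ 1)
    (w2 : a2 = 1 → c2 = 1 → (am1 = 1 ∨ cm1 = 1) → (a0 + c0 = 1 ∧ b2 = 1 ∧ d2 = 1) →
      b2 + d1 ≤ 1 ∧ b1 + d2 ≤ 1)
    (hR : R = if am = 1 ∧ cm = 1 ∧ a0 = 1 ∧ c0 = 1 then b0 + d0
      else if am = 1 ∧ cm = 1 ∧ a0 + c0 = 1 ∧ b0 = 1 ∧ d0 = 1 then 1 else 0)
    (hL : L = if a2 = 1 ∧ c2 = 1 ∧ a0 + c0 = 1 ∧ b2 = 1 ∧ d2 = 1 then 1 else 0)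
    (hR0 : R0 = if am1 = 1 ∧ cm1 = 1 ∧ a1 = 1 ∧ c1 = 1 then b1 + d1
      else if am1 = 1 ∧ cm1 = 1 ∧ a1 + c1 = 1 ∧ b1 = 1 ∧ d1 = 1 then 1 else 0)
    (hL0 : L0 = if a1 = 1 ∧ c1 = 1 ∧ am1 + cm1 = 1 ∧ b1 = 1 ∧ d1 = 1 then 1 else 0) :
    am1 + cm1 + a1 + c1 + b1 + d1 + R + L ≤ 4 + R0 + L0 := by
  by_cases k1 : am = 1 ∧ cm = 1 ∧ a0 = 1 ∧ c0 = 1
  · rw [if_pos k1] at hR
    rw [if_neg (by omega)] at hL
    have e1 := m1 k1.1 k1.2.2.1
    have e2 := m1' k1.2.1 k1.2.2.2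
    by_cases k2 : a1 = 1 ∨ c1 = 1
    · have e3 := w1 k1.1 k1.2.1 k2 (Or.inl ⟨k1.2.2.1, k1.2.2.2⟩)
      by_cases k3 : am1 = 1 ∧ a1 = 1
      · have := m2 k3.1 k3.2
        by_cases k4 : cm1 = 1 ∧ c1 = 1
        · have := m2' k4.1 k4.2
          omega
        · omega
      · by_cases k4 : cm1 = 1 ∧ c1 = 1
        · have := m2' k4.1 k4.2
          omega
        · omega
    · omega
  · rw [if_neg k1] at hR
    by_cases k2 : am = 1 ∧ cm = 1 ∧ a0 + c0 = 1 ∧ b0 = 1 ∧ d0 = 1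
    · rw [if_pos k2] at hR
      have x1 : am1 + cm1 ≤ 1 := by
        by_cases k3 : a0 = 1
        · have := m1 k2.1 k3
          omega
        · have := m1' k2.2.1 (by omega)
          omega
      have x2 : a1 + c1 = 0 ∨ b1 + d1 = 0 := by
        by_cases k3 : a1 = 1 ∨ c1 = 1
        · have := w1 k2.1 k2.2.1 k3 (Or.inr ⟨k2.2.2.1, k2.2.2.2⟩)
          omega
        · omega
      by_cases k3 : a2 = 1 ∧ c2 = 1 ∧ a0 + c0 = 1 ∧ b2 = 1 ∧ d2 = 1
      · rw [if_pos k3] at hL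
        have x3 : a1 + c1 ≤ 1 := by
          by_cases k3' : a0 = 1
          · have := m3 k3' k3.1
            omega
          · have := m3' (by omega) k3.2.1
            omega
        have x4 : am1 + cm1 = 0 ∨ b1 + d1 = 0 := by
          by_cases k4 : am1 = 1 ∨ cm1 = 1
          · have := w2 k3.1 k3.2.1 k4 k3.2.2
            omega
          · omega
        omega
      · rw [if_neg k3] at hL
        omega
    · rw [if_neg k2] at hR
      by_cases k3 : a2 = 1 ∧ c2 = 1 ∧ a0 + c0 = 1 ∧ b2 = 1 ∧ d2 = 1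
      · rw [if_pos k3] at hL
        have x3 : a1 + c1 ≤ 1 := by
          by_cases k3' : a0 = 1
          · have := m3 k3' k3.1
            omega
          · have := m3' (by omega) k3.2.1
            omega
        have x4 : am1 + cm1 = 0 ∨ b1 + d1 = 0 := by
          by_cases k4 : am1 = 1 ∨ cm1 = 1
          · have := w2 k3.1 k3.2.1 k4 k3.2.2
            omega
          · omega
        omega
      · rw [if_neg k3] at hL
        by_cases z1 : am1 = 1 ∧ cm1 = 1 ∧ a1 = 1 ∧ c1 = 1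
        · rw [if_pos z1] at hR0
          omega
        · rw [if_neg z1] at hR0
          by_cases z2 : am1 = 1 ∧ cm1 = 1 ∧ a1 + c1 = 1 ∧ b1 = 1 ∧ d1 = 1
          · rw [if_pos z2] at hR0
            omega
          · rw [if_neg z2] at hR0
            by_cases z3 : a1 = 1 ∧ c1 = 1 ∧ am1 + cm1 = 1 ∧ b1 = 1 ∧ d1 = 1
            · rw [if_pos z3] at hL0
              omega
            · rw [if_neg z3] at hL0
              omega

/-- **LL0**: one of `J+`, `J-` is a singleton -/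
theorem llJ33 [NeZero r] (D : LLZ r a b b' a') (hr : 7 ≤ r) (hT : 4 * r + 1 ≤ tot49 a b b' a') :
    (∃ c, ∀ j, a' (j - 1) = 1 → a j = 1 → j = c) ∨
      (∃ c, ∀ j, a (j - 1) = 1 → a' j = 1 → j = c) := by
  classical
  by_contra hno
  have hno' : ¬ HJ33 r a a' := hno
  have hcell : ∀ i, g49 a b b' a' i + R33 a b b' a' (i - 1) + L33 a b b' a' (i + 1)
      ≤ 4 + R33 a b b' a' i + L33 a b b' a' i := by
    intro i
    have s1 : i - 1 - 1 = i - 2 := by ring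
    have s2 : i - 1 + 1 = i := by ring
    have s3 : i + 1 - 1 = i := by ring
    have s4 : i + 1 + 1 = i + 2 := by ring
    have s5 : i - 1 + 2 = i + 1 := by ring
    have s6 : i + 1 - 2 = i - 1 := by ring
    have M1 := D.m1 (i - 1)
    have M1' := D.m1' (i - 1)
    have M2 := D.m1 i
    have M2' := D.m1' i
    have M3 := D.m1 (i + 1)
    have M3' := D.m1' (i + 1)
    rw [s1, s2] at M1 M1'
    rw [s3, s4] at M3 M3'
    have W1 : a (i - 2) = 1 → a' (i - 2) = 1 → (a (i + 1) = 1 ∨ a' (i + 1) = 1) →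
        (a i = 1 ∧ a' i = 1) ∨ (a i + a' i = 1 ∧ b (i - 1) = 1 ∧ b' (i - 1) = 1) →
        b (i - 1) + b' i ≤ 1 ∧ b i + b' (i - 1) ≤ 1 := by
      intro h1 h2 h3 h4
      by_contra hh
      have e1 := D.bb (i - 1)
      have e2 := D.bb i
      have e3 := D.bb' (i - 1)
      have e4 := D.bb' i
      apply hno'
      refine bad33 D hr hT (i := i - 1) ?_
      unfold RB33
      rw [s1, s2, s5]
      exact ⟨h1, h2, h3, by omega, h4⟩
    have W2 : a (i + 2) = 1 → a' (i + 2) = 1 → (a (i - 1) = 1 ∨ a' (i - 1) = 1) →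
        (a i + a' i = 1 ∧ b (i + 1) = 1 ∧ b' (i + 1) = 1) →
        b (i + 1) + b' i ≤ 1 ∧ b i + b' (i + 1) ≤ 1 := by
      intro h1 h2 h3 h4
      by_contra hh
      have e1 := D.bb (i + 1)
      have e2 := D.bb i
      have e3 := D.bb' (i + 1)
      have e4 := D.bb' i
      apply hno'
      refine badL33 D hr hT (i := i + 1) ?_ ?_ ?_ ?_ ?_
      · rw [s4]; exact h1
      · rw [s4]; exact h2
      · rw [s6]; exact h3
      · rw [s3]; omega
      · rw [s3]; exact h4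
    have key := cellA33 (am := a (i - 2)) (am1 := a (i - 1)) (a0 := a i) (a1 := a (i + 1))
      (a2 := a (i + 2)) (cm := a' (i - 2)) (cm1 := a' (i - 1)) (c0 := a' i) (c1 := a' (i + 1))
      (c2 := a' (i + 2)) (b0 := b (i - 1)) (b1 := b i) (b2 := b (i + 1)) (d0 := b' (i - 1))
      (d1 := b' i) (d2 := b' (i + 1)) (R := R33 a b b' a' (i - 1)) (L := L33 a b b' a' (i + 1))
      (R0 := R33 a b b' a' i) (L0 := L33 a b b' a' i)
      (D.ba _) (D.ba _) (D.ba _) (D.ba _) (D.ba _) (D.ba' _) (D.ba' _) (D.ba' _) (D.ba' _) (D.ba' _)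
      (D.bb _) (D.bb _) (D.bb _) (D.bb' _) (D.bb' _) (D.bb' _)
      M1 M1' M2 M2' M3 M3' W1 W2
      (by unfold R33; rw [s1, s2]) (by unfold L33; rw [s3, s4]) (by unfold R33; rfl)
      (by unfold L33; rfl)
    unfold g49
    omega
  have hsum := Finset.sum_le_sum fun (i : ZMod r) (_ : i ∈ Finset.univ) => hcell i
  simp only [Finset.sum_add_distrib, Finset.sum_const, Finset.card_univ, ZMod.card,
    smul_eq_mul] at hsum
  rw [shiftN49 (fun i => R33 a b b' a' i), shift49 (fun i => L33 a b b' a' i), sum_g49] at hsum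
  omega

end Pool.Agent.P0
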