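import Pool.Agent.P0.Closed61

set_option linter.all false

/-!
# P0, row I3: the chords of a locally shortest long cycle
-/

namespace Pool.Agent.P0

open Pool.Agent.Helper14.LongCyc Pool.Agent.LCK

universe u

variable {V : Type u} {G : SimpleGraph V}

/-- two crossing chords of consecutive vertices shorten the cycle by one vertex -/
theorem cross35 [DecidableEq V] {x : List V} (hx : Cyc G x) (hq : 0 < x.length) (i t : ℕ)
    (h1 : 1 ≤ t) (h2 : t + 2 ≤ x.length) (hL : 4 ≤ x.length)
    (a1 : G.Adj (cf x hq i) (cf x hq (i + t)))
    (a2 : G.Adj (cf x hq (i + 1)) (cf x hq (i + t + 2))) :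
    ∃ D : Finset V, CycSet G D ∧ D ⊆ x.toFinset ∧ D.card + 1 = x.length := by
  have hA := arc_pth hx hq (t - 1) (i + 1) (by omega)
  rw [show i + 1 + (t - 1) = i + t by omega] at hA
  have hB := arc_pth hx hq (x.length - t - 2) (i + t + 2) (by omega)
  rw [show i + t + 2 + (x.length - t - 2) = i + x.length by omega, cf_add hq i] at hB
  obtain ⟨e1, e2⟩ := joinSet hA hB (by
    intro z hz hz'
    rw [mem_seg] at hz hz'
    obtain ⟨j, j1, j2, j3⟩ := hz
    obtain ⟨j', j1', j2', j3'⟩ := hz'
    rw [j3] at j3'
    refine far49 hx hq i (s := j - i) (t := j' - i) (by omega) (by omega) ?_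
    rw [show i + (j - i) = j by omega, show i + (j' - i) = j' by omega]
    exact j3') (by
    rw [seg_length, seg_length]; omega)
    (Or.inl ⟨a2, a1.symm⟩)
  refine ⟨_, e1, ?_, ?_⟩
  · intro z hz
    rw [List.mem_toFinset, List.mem_append] at hz
    rw [List.mem_toFinset]
    rcases hz with hz | hz
    · exact arc_mem49 hq hz
    · exact arc_mem49 hq hz
  · rw [e2, seg_length, seg_length]
    omega

/-- a chord closes an arc -/
theorem cut35 [DecidableEq V] {x : List V} (hx : Cyc G x) (hq : 0 < x.length) (i t : ℕ)
    (h1 : 2 ≤ t) (h2 : t + 1 ≤ x.length)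
    (a1 : G.Adj (cf x hq i) (cf x hq (i + t))) :
    ∃ D : Finset V, CycSet G D ∧ D ⊆ x.toFinset ∧ D.card = t + 1 := by
  have hA := arc_pth hx hq (t - 1) i (by omega)
  have hB := Pth.singleton (G := G) (cf x hq (i + t))
  have a2 := cf_adj hx hq (i + (t - 1))
  rw [show i + (t - 1) + 1 = i + t by omega] at a2
  obtain ⟨e1, e2⟩ := joinSet hA hB (by
    intro z hz hz'
    rw [mem_seg] at hz
    rw [List.mem_singleton] at hz'
    obtain ⟨j, j1, j2, j3⟩ := hz
    rw [j3] at hz'
    refine far49 hx hq i (s := j - i) (t := t) (by omega) (by omega) ?_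
    rw [show i + (j - i) = j by omega]
    exact hz') (by
    rw [seg_length, List.length_singleton]; omega)
    (Or.inl ⟨a1, a2⟩)
  refine ⟨_, e1, ?_, ?_⟩
  · intro z hz
    rw [List.mem_toFinset, List.mem_append, List.mem_singleton] at hz
    rw [List.mem_toFinset]
    rcases hz with hz | hz
    · exact arc_mem49 hq hz
    · rw [hz]; exact cf_mem hq _
  · rw [e2, seg_length, List.length_singleton]
    omega

/-- **chords**: a cycle `X` with more than `r` vertices without shorter long cycle inside -/
theorem chords35 [DecidableEq V] {r : ℕ} (hr : 3 ≤ r) {X : Finset V} (hX : CycSet G X)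
    (hXr : r < X.card) (hs : ∀ D, CycSet G D → D ⊆ X → r ≤ D.card → X.card ≤ D.card) :
    2 * eS G X X ≤ X.card * X.card ∧ (2 * r < X.card → eS G X X ≤ 2 * X.card) := by
  classical
  obtain ⟨x, hx, hs'⟩ := hX
  have hnx := Cyc.nodup hx
  have hcard := card_of_list hnx hs'
  have hXx : x.toFinset = X := by
    ext z; rw [List.mem_toFinset]; exact hs' z
  have hq : 0 < x.length := by omega
  have hin : ∀ i, cf x hq i ∈ X := fun i => (hs' _).1 (cf_mem hq i)
  rw [hcard] at hXr ⊢
  constructor
  · have loc : ∀ i, dg G X (cf x hq i) + dg G X (cf x hq (i + 1)) ≤ x.length := by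
      intro i
      have s1 := bit61_sum (G := G) hq hnx (cf x hq i)
      have s2 := bit61_sum (G := G) hq hnx (cf x hq (i + 1))
      rw [hXx] at s1 s2
      rw [← shift61 (fun n => (bit61 G x hq (cf x hq i) n).toNat) x.length
        (fun n => by rw [bit61_add]) i] at s1
      rw [← shift61 (fun n => (bit61 G x hq (cf x hq (i + 1)) n).toNat) x.length
        (fun n => by rw [bit61_add]) (i + 2)] at s2
      rw [← s1, ← s2, ← Finset.sum_add_distrib]
      have h3 : ∑ t ∈ Finset.range x.length, ((bit61 G x hq (cf x hq i) (t + i)).toNat
          + (bit61 G x hq (cf x hq (i + 1)) (t + (i + 2))).toNat)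
          ≤ ∑ _t ∈ Finset.range x.length, 1 := by
        refine Finset.sum_le_sum fun t ht => ?_
        have ht' := Finset.mem_range.1 ht
        have b1 := Bool.toNat_le (bit61 G x hq (cf x hq i) (t + i))
        have b2 := Bool.toNat_le (bit61 G x hq (cf x hq (i + 1)) (t + (i + 2)))
        by_contra hne
        have c1 : bit61 G x hq (cf x hq i) (t + i) = true := by
          by_contra hc
          rw [Bool.not_eq_true] at hc
          rw [hc] at hne b1
          simp only [Bool.toNat_false] at hne
          omega
        have c2 : bit61 G x hq (cf x hq (i + 1)) (t + (i + 2)) = true := by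
          by_contra hc
          rw [Bool.not_eq_true] at hc
          rw [hc] at hne b2
          simp only [Bool.toNat_false] at hne
          omega
        rw [bit61_iff] at c1 c2
        rcases Nat.eq_zero_or_pos t with h0 | h0
        · rw [h0, Nat.zero_add] at c1
          exact G.loopless.irrefl _ c1
        rcases Nat.lt_or_ge (t + 1) x.length with h4 | h4
        · obtain ⟨D, d1, d2, d3⟩ := cross35 hx hq i t h0 (by omega) (by omega)
            (by rw [show i + t = t + i by ring]; exact c1)
            (by rw [show i + t + 2 = t + (i + 2) by ring]; exact c2)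
          have := hs D d1 (by rw [← hXx]; exact d2) (by omega)
          rw [hcard] at this
          omega
        · rw [show t + (i + 2) = i + 1 + x.length by omega, cf_add hq (i + 1)] at c2
          exact G.loopless.irrefl _ c2
      rw [Finset.sum_const, Finset.card_range, smul_eq_mul, mul_one] at h3
      exact h3
    have hsum := Finset.sum_le_sum fun i (_ : i ∈ Finset.range x.length) => loc i
    rw [Finset.sum_add_distrib, Finset.sum_const, Finset.card_range, smul_eq_mul,
      shift61 (fun i => dg G X (cf x hq i)) x.length (fun i => by rw [cf_add hq i]) 1,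
      sum_cf61 hq hnx, hXx] at hsum
    omega
  · intro hbig
    unfold eS
    have h1 : ∀ v ∈ X, dg G X v ≤ 2 := by
      intro v hv
      obtain ⟨i, hi, hvi⟩ := exists_cf hq ((hs' v).2 hv)
      have h2 : dg G X v ≤ ({cf x hq (i + 1), cf x hq (i + (x.length - 1))} : Finset V).card := by
        unfold dg
        refine Finset.card_le_card fun z hz => ?_
        rw [Finset.mem_filter] at hz
        obtain ⟨hzX, hza⟩ := hz
        obtain ⟨j, hj, hzj⟩ := exists_cf hq ((hs' z).2 hzX)
        -- position of `z` relative to `i`
        obtain ⟨t, ht, hzt⟩ : ∃ t, t < x.length ∧ z = cf x hq (i + t) := by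
          rcases Nat.lt_or_ge j i with h | h
          · refine ⟨j + x.length - i, by omega, ?_⟩
            rw [show i + (j + x.length - i) = j + x.length by omega, cf_add hq j, hzj]
          · exact ⟨j - i, by omega, by rw [show i + (j - i) = j by omega, hzj]⟩
        rw [← hvi, hzt] at hza
        rw [Finset.mem_insert, Finset.mem_singleton, hzt]
        rcases Nat.eq_zero_or_pos t with h0 | h0
        · rw [h0, Nat.add_zero] at hza
          exact absurd hza (G.loopless.irrefl _)
        rcases Nat.lt_or_ge 1 t with h3 | h3
        · rcases Nat.lt_or_ge (t + 1) x.length with h4 | h4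
          · exfalso
            rcases Nat.lt_or_ge (t + 1) r with h5 | h5
            · obtain ⟨D, d1, d2, d3⟩ := cut35 hx hq (i + t) (x.length - t) (by omega) (by omega)
                (by
                  rw [show i + t + (x.length - t) = i + x.length by omega, cf_add hq i]
                  exact hza.symm)
              have := hs D d1 (by rw [← hXx]; exact d2) (by omega)
              rw [hcard] at this
              omega
            · obtain ⟨D, d1, d2, d3⟩ := cut35 hx hq i t (by omega) (by omega) hza
              have := hs D d1 (by rw [← hXx]; exact d2) (by omega)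
              rw [hcard] at this
              omega
          · right
            rw [show t = x.length - 1 by omega]
        · left
          rw [show t = 1 by omega]
      exact h2.trans Finset.card_le_two
    have h2 := Finset.sum_le_card_nsmul X (fun v => dg G X v) 2 h1
    rw [smul_eq_mul, hcard] at h2
    omega

end Pool.Agent.P0
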