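import Pool.Agent.P0.A163
import Pool.Agent.P0.Out97

set_option linter.all false

/-!
# P0, I7 (A): from the full word to the list `Out97`
-/

namespace Pool.Agent.P0

variable {r : ℕ} {a b b' a' : ZMod r → ℕ}

theorem Wd63.one {c : ZMod r} {t : ℕ} (h : Wd63 r a a' c t) {u : ℕ} (hu : u ≤ t) :
    a (c + 2 * (u : ZMod r)) = 1 := (h.2.1 _).2 ⟨u, hu, rfl⟩

theorem Wd63.one' {c : ZMod r} {t : ℕ} (h : Wd63 r a a' c t) {u : ℕ} (hu : u ≤ t) :
    a' (c + 2 * (u : ZMod r)) = 1 := by
  have h1 := h.1
  refine (h.2.2 _).2 ?_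
  rintro ⟨s, hs, he⟩
  have e : ((2 * u : ℕ) : ZMod r) = ((2 * s + 1 : ℕ) : ZMod r) := by
    push_cast
    linear_combination he
  rcases Nat.lt_or_ge (2 * u) (2 * s + 1) with h2 | h2
  · have h3 := (ZMod.natCast_eq_natCast_iff _ _ _).1 e
    have h4 : r ∣ (2 * s + 1) - 2 * u := (Nat.modEq_iff_dvd' (by omega)).1 h3
    have := Nat.le_of_dvd (by omega) h4
    omega
  · have h3 := (ZMod.natCast_eq_natCast_iff _ _ _).1 e.symm
    have h4 : r ∣ 2 * u - (2 * s + 1) := (Nat.modEq_iff_dvd' (by omega)).1 h3
    have := Nat.le_of_dvd (by omega) h4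
    omega

theorem out_of_word63 (D : LLZ r a b b' a') (hr : 7 ≤ r)
    (hbits : ∀ i j, i ≠ j → 3 ≤ b i + b' i + (b j + b' j)) {c : ZMod r} {t : ℕ}
    (h : Wd63 r a a' c t) : Out97 r a b b' a' := by
  have h0 := h.one (u := 0) (by omega)
  have h0' := h.one' (u := 0) (by omega)
  rw [show c + 2 * ((0 : ℕ) : ZMod r) = c by simp] at h0 h0'
  rcases Nat.lt_or_ge t 1 with ht | ht
  · have ht0 : t = 0 := by omega
    subst ht0
    have hall : ∀ i, a' i = 1 := by
      intro i
      refine (h.2.2 i).2 ?_
      rintro ⟨s, hs, _⟩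
      omega
    refine Or.inr (Or.inl ⟨c, fun i => ⟨?_, hall i⟩, ?_⟩)
    · rw [h.2.1 i]
      constructor
      · rintro ⟨s, hs, rfl⟩
        have : s = 0 := by omega
        subst this
        simp
      · rintro rfl
        exact ⟨0, le_rfl, by simp⟩
    · have := D.m1' c (hall _) (hall _)
      omega
  · have h2 := h.one (u := 1) ht
    have h2' := h.one' (u := 1) ht
    rw [show c + 2 * ((1 : ℕ) : ZMod r) = c + 2 by simp] at h2 h2'
    rcases Nat.lt_or_ge t 2 with ht2 | ht2
    · have ht1 : t = 1 := by omega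
      subst ht1
      refine Or.inr (Or.inr (Or.inr (Or.inl ⟨c + 1, fun i => ⟨?_, ?_⟩⟩)))
      · rw [h.2.1 i]
        constructor
        · rintro ⟨s, hs, rfl⟩
          rcases Nat.lt_or_ge s 1 with hs1 | hs1
          · have : s = 0 := by omega
            subst this
            left
            push_cast; ring
          · have : s = 1 := by omega
            subst this
            right
            push_cast; ring
        · rintro (rfl | rfl)
          · exact ⟨0, by omega, by push_cast; ring⟩
          · exact ⟨1, by omega, by push_cast; ring⟩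
      · rw [h.2.2 i]
        apply not_congr
        constructor
        · rintro ⟨s, hs, rfl⟩
          have : s = 0 := by omega
          subst this
          push_cast; ring
        · rintro rfl
          exact ⟨0, by omega, by push_cast; ring⟩
    · have h4 := h.one (u := 2) ht2
      have h4' := h.one' (u := 2) ht2
      rw [show c + 2 * ((2 : ℕ) : ZMod r) = c + 4 by push_cast; ring] at h4 h4'
      have bb := D.bb (c + 2)
      have bb' := D.bb' (c + 2)
      by_cases hm : b (c + 2) = 1 ∧ b' (c + 2) = 1
      · refine Or.inl ⟨c + 2, ?_, h2, ?_, ?_, h2', ?_, hm.1, hm.2⟩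
        · rw [show c + 2 - 2 = c by ring]; exact h0
        · rw [show c + 2 + 2 = c + 4 by ring]; exact h4
        · rw [show c + 2 - 2 = c by ring]; exact h0'
        · rw [show c + 2 + 2 = c + 4 by ring]; exact h4'
      · have hne : c + 2 ≠ c + 4 := by
          intro e
          exact ne49 (by omega : 6 ≤ r) (k := 2) (by omega) (by omega) (x := c + 4) (y := c + 2)
            (by push_cast; ring) e.symm
        have hb4 := hbits (c + 2) (c + 4) hne
        have cb := D.bb (c + 4)
        have cb' := D.bb' (c + 4)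
        rcases Nat.lt_or_ge t 3 with ht3 | ht3
        · have ht2' : t = 2 := by omega
          subst ht2'
          refine Or.inr (Or.inr (Or.inr (Or.inr (Or.inr (Or.inl ⟨c + 2, fun i => ⟨?_, ?_⟩, by omega⟩)))))
          · rw [h.2.1 i]
            constructor
            · rintro ⟨s, hs, rfl⟩
              interval_cases s
              · left; push_cast; ring
              · right; left; push_cast; ring
              · right; right; push_cast; ring
            · rintro (rfl | rfl | rfl)
              · exact ⟨0, by omega, by push_cast; ring⟩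
              · exact ⟨1, by omega, by push_cast; ring⟩
              · exact ⟨2, by omega, by push_cast; ring⟩
          · rw [h.2.2 i]
            constructor
            · intro hne
              refine ⟨fun e => hne ⟨0, by omega, ?_⟩, fun e => hne ⟨1, by omega, ?_⟩⟩
              · rw [e]; push_cast; ring
              · rw [e]; push_cast; ring
            · rintro ⟨g1, g2⟩ ⟨s, hs, rfl⟩
              interval_cases s
              · exact g1 (by push_cast; ring)
              · exact g2 (by push_cast; ring)
        · have h6 := h.one (u := 3) ht3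
          have h6' := h.one' (u := 3) ht3
          rw [show c + 2 * ((3 : ℕ) : ZMod r) = c + 6 by push_cast; ring] at h6 h6'
          refine Or.inl ⟨c + 4, ?_, h4, ?_, ?_, h4', ?_, by omega, by omega⟩
          · rw [show c + 4 - 2 = c + 2 by ring]; exact h2
          · rw [show c + 4 + 2 = c + 6 by ring]; exact h6
          · rw [show c + 4 - 2 = c + 2 by ring]; exact h2'
          · rw [show c + 4 + 2 = c + 6 by ring]; exact h6'

theorem Out97.swap (h : Out97 r a' b' b a) : Out97 r a b b' a' := by
  rcases h with ⟨c, h1, h2, h3, h4, h5, h6, h7, h8⟩ | h | h | h | h | ⟨c, h1, h2⟩ | ⟨c, h1, h2⟩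
  · exact Or.inl ⟨c, h4, h5, h6, h1, h2, h3, h8, h7⟩
  · exact Or.inr (Or.inr (Or.inl h))
  · exact Or.inr (Or.inl h)
  · exact Or.inr (Or.inr (Or.inr (Or.inr (Or.inl h))))
  · exact Or.inr (Or.inr (Or.inr (Or.inl h)))
  · exact Or.inr (Or.inr (Or.inr (Or.inr (Or.inr (Or.inr ⟨c, h1, h2⟩)))))
  · exact Or.inr (Or.inr (Or.inr (Or.inr (Or.inr (Or.inl ⟨c, h1, h2⟩)))))

/-- the bits of an exceptional member: at most one is missing -/
theorem bits63 [NeZero r] (D : LLZ r a b b' a') (hs : 2 * r ≤ ∑ i, b i + ∑ i, b' i + 1)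
    (i j : ZMod r) (hij : i ≠ j) : 3 ≤ b i + b' i + (b j + b' j) := by
  classical
  have h1 := extract49 (S := fun j => b j + b' j) (c := fun _ : ZMod r => 2) (e := 1)
    (fun j => by have := D.bb j; have := D.bb' j; show b j + b' j ≤ 2; omega) (by
      simp only [Finset.sum_add_distrib, Finset.sum_const, Finset.card_univ, ZMod.card,
        smul_eq_mul]
      omega) {i, j}
  rw [Finset.sum_pair hij, Finset.sum_pair hij] at h1
  omega

/-- the complete list, from the output of the first half -/
theorem ll0_63 [NeZero r] (D : LLZ r a b b' a') (hr : 7 ≤ r) (hT : 4 * r + 1 ≤ tot49 a b b' a')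
    (hJ : (∃ c, ∀ j, a' (j - 1) = 1 → a j = 1 → j = c) ∨
      (∃ c, ∀ j, a (j - 1) = 1 → a' j = 1 → j = c)) :
    ∑ i, a i + ∑ i, a' i = r + 1 ∧ 2 * r ≤ ∑ i, b i + ∑ i, b' i + 1 ∧ Out97 r a b b' a' := by
  obtain ⟨h1, c, t, h2⟩ := D.a1 hr hT hJ
  have h3 : 2 * r ≤ ∑ i, b i + ∑ i, b' i + 1 := by
    unfold tot49 at hT
    omega
  refine ⟨h1, h3, ?_⟩
  rcases h2 with h2 | h2
  · exact out_of_word63 D hr (bits63 D h3) h2
  · refine Out97.swap (out_of_word63 D.swap hr ?_ h2)
    intro i j hij
    have := bits63 D h3 i j hij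
    omega

end Pool.Agent.P0
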