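import Pool.Agent.P0.Three53
import Pool.Agent.P0.Out63
import Pool.Agent.P0.Ca33
import Pool.Agent.P0.FourC81
import Pool.Agent.P0.OutA49

set_option linter.all false

/-!
# P0, I7: LL0, (C1) and (C2) without hypotheses
-/

namespace Pool.Agent.P0

open Pool.Agent.Helper14.LongCyc Pool.Agent.LCK

universe u

/-- LL0 -/
theorem llp53 : LLP53 := fun r _ a b b' a' hr D hT => ll0_63 D hr hT (llJ33 D hr hT)

/-- LL0 in the form of `OutA49` -/
theorem llpure53 {r : ℕ} (hr : 7 ≤ r) : LL0Pure49 r := fun D hT => ll0_63 D hr hT (llJ33 D hr hT)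

variable {V : Type u} {G : SimpleGraph V} {U : Finset V} {k r : ℕ} {Q : List V} {p q x y : V}
  {F : Finset (Finset V)}

/-- (C1) -/
theorem noFour53 [DecidableEq V] (S : Set41 G U k r) (hr : 7 ≤ r) : NoFour53 G U r := by
  intro Q p q F x y h C hC c hp _ hc hs hcr h1 h2 h3
  obtain ⟨n, hn⟩ := four_of49 (G := G) (c := c) (hp := hp) h3 (by omega)
  refine hn.false81 S (by omega) h hC hc hs ?_
  rw [sum_indC49 hc hs, sum_indC49 hc hs, hcr] at h2
  exact h2

/-- **(C2)**: no good third end, without hypotheses -/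
theorem Adm41.noThirdEnd53 [DecidableEq V] (S : Set41 G U k r) (hr : 7 ≤ r)
    (h : Adm41 G U r Q p q F x y) {C : Finset V} (hC : C ∈ F) {z : V}
    (hz : z ∈ C) (hDx : CycSet G (insert x (C.erase z))) (hDy : CycSet G (insert y (C.erase z)))
    (hzp : G.Adj z p) (hqz : G.Adj q z) : False :=
  noThird53 llp53 hr S (noFour53 S hr) h hC hz hDx hDy hzp hqz

/-- the same on a cyclic list -/
theorem Adm41.noThird53 [DecidableEq V] (S : Set41 G U k r) (hr : 7 ≤ r)
    (h : Adm41 G U r Q p q F x y) {C : Finset V} (hC : C ∈ F) {c : List V}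
    (hp : 0 < c.length) (hc : Cyc G c) (hs : ∀ z, z ∈ c ↔ z ∈ C) (n : ℕ) :
    ¬ Third49 G c hp x p q y n :=
  noThird53' llp53 hr S (noFour53 S hr) h hC hp hc hs n

end Pool.Agent.P0
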