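import Pool.Agent.P0.Core49
import Pool.Agent.LCK.Pair
import Pool.Agent.FRC.Defs

set_option linter.all false

/-!
# P0, row I1 (graph half): the local lemma LL+

`C` a cycle of length `r ≥ 6`, `p, x, …, y, q` a path with at least `r + 1` vertices, disjoint from `C`.
If there are no two disjoint cycles of length at least `r` inside the union, then
`2 (d p + d q) + d x + d y ≤ 4 r`.
-/

namespace Pool.Agent.P0

open Pool.Agent.Helper14.LongCyc Pool.Agent.LCK

universe u

variable {V : Type u} {G : SimpleGraph V}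

/-- two disjoint long cycles inside `U` -/
def Two49 (G : SimpleGraph V) (r : ℕ) (U : Finset V) : Prop :=
  ∃ D E : Finset V, CycSet G D ∧ CycSet G E ∧ D ⊆ U ∧ E ⊆ U ∧ r ≤ D.card ∧ r ≤ E.card ∧
    Disjoint D E

theorem Two49.mono {r : ℕ} {U U' : Finset V} (h : Two49 G r U) (hU : U ⊆ U') : Two49 G r U' := by
  obtain ⟨D, E, h1, h2, h3, h4, h5, h6, h7⟩ := h
  exact ⟨D, E, h1, h2, h3.trans hU, h4.trans hU, h5, h6, h7⟩

theorem Two49.fam [DecidableEq V] {r : ℕ} {U : Finset V} (h : Two49 G r U) :
    ∃ F, Fam G U (fun L => r ≤ L) F ∧ F.card = 2 := by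
  obtain ⟨D, E, h1, h2, h3, h4, h5, h6, h7⟩ := h
  have hne : D ≠ E := by
    rintro rfl
    have e1 : D = ∅ := by simpa using h7
    have e2 := h1.three_le
    rw [e1] at e2
    simp at e2
  refine ⟨{D, E}, ⟨?_, ?_, ?_, ?_⟩, Finset.card_pair hne⟩
  · intro s hs
    rcases Finset.mem_insert.1 hs with h | h
    · rw [h]; exact h1
    · rw [Finset.mem_singleton.1 h]; exact h2
  · intro s hs
    rcases Finset.mem_insert.1 hs with h | h
    · rw [h]; exact h3
    · rw [Finset.mem_singleton.1 h]; exact h4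
  · intro s hs
    rcases Finset.mem_insert.1 hs with h | h
    · rw [h]; exact h5
    · rw [Finset.mem_singleton.1 h]; exact h6
  · intro s hs t ht hst
    rcases Finset.mem_insert.1 hs with h | h <;> rcases Finset.mem_insert.1 ht with h' | h'
    · exact absurd (h.trans h'.symm) hst
    · rw [h, Finset.mem_singleton.1 h']; exact h7
    · rw [h', Finset.mem_singleton.1 h]; exact h7.symm
    · exact absurd ((Finset.mem_singleton.1 h).trans (Finset.mem_singleton.1 h').symm) hst

/-- two cycles, each given by two paths joined by two edges -/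
theorem mk49 [DecidableEq V] {r : ℕ} {U : Finset V} {a b a' b' c d c' d' : V}
    {l l' m m' : List V} (h1 : Pth G a b l) (h1' : Pth G a' b' l') (h2 : Pth G c d m)
    (h2' : Pth G c' d' m') (hl : ∀ x ∈ l, x ∉ l') (hm : ∀ x ∈ m, x ∉ m')
    (hr : 3 ≤ r) (hlr : r ≤ l.length + l'.length) (hmr : r ≤ m.length + m'.length)
    (hadj : (G.Adj a a' ∧ G.Adj b b') ∨ (G.Adj a b' ∧ G.Adj b a'))
    (hadj' : (G.Adj c c' ∧ G.Adj d d') ∨ (G.Adj c d' ∧ G.Adj d c'))
    (hlU : ∀ x, x ∈ l ∨ x ∈ l' → x ∈ U) (hmU : ∀ x, x ∈ m ∨ x ∈ m' → x ∈ U)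
    (hdis : ∀ x, x ∈ l ∨ x ∈ l' → ¬ (x ∈ m ∨ x ∈ m')) : Two49 G r U := by
  obtain ⟨e1, e2⟩ := joinSet h1 h1' hl (by omega) hadj
  obtain ⟨f1, f2⟩ := joinSet h2 h2' hm (by omega) hadj'
  refine ⟨_, _, e1, f1, ?_, ?_, by rw [e2]; exact hlr, by rw [f2]; exact hmr, ?_⟩
  · intro x hx
    rw [List.mem_toFinset, List.mem_append] at hx
    exact hlU x hx
  · intro x hx
    rw [List.mem_toFinset, List.mem_append] at hx
    exact hmU x hx
  · rw [Finset.disjoint_left]
    intro x hx hx'
    rw [List.mem_toFinset, List.mem_append] at hx hx'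
    exact hdis x hx hx'

section

variable {c : List V} (hc : Cyc G c) (hp : 0 < c.length)

include hc in
/-- different positions on the cycle -/
theorem far49 (n : ℕ) {s t : ℕ} (hst : s < t) (hts : t < s + c.length) :
    cf c hp (n + s) ≠ cf c hp (n + t) := by
  intro h
  have h1 := cf_inj hp (Cyc.nodup hc) h
  have h2 : c.length ∣ (n + t) - (n + s) := (Nat.modEq_iff_dvd' (by omega)).1 h1
  have := Nat.le_of_dvd (by omega) h2
  omega

/-- the data: a path `p, x, …, y, q` disjoint from the cycle `c` -/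
structure Dat49 (G : SimpleGraph V) (c : List V) (p q x y : V) (mid : List V) : Prop where
  cyc : Cyc G c
  path : Pth G x y mid
  px : G.Adj p x
  yq : G.Adj y q
  pq : p ≠ q
  pm : p ∉ mid
  qm : q ∉ mid
  pc : p ∉ c
  qc : q ∉ c
  mc : ∀ z ∈ mid, z ∉ c
  len : c.length ≤ mid.length + 1

variable {p q x y : V} {mid : List V}

theorem Dat49.swap (D : Dat49 G c p q x y mid) : Dat49 G c q p y x mid.reverse where
  cyc := D.cyc
  path := D.path.reverse
  px := D.yq.symm
  yq := D.px.symm
  pq := D.pq.symm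
  pm := by simpa using D.qm
  qm := by simpa using D.pm
  pc := D.qc
  qc := D.pc
  mc := fun z hz => D.mc z (List.mem_reverse.1 hz)
  len := by simpa using D.len

/-- the region -/
def Dat49.U [DecidableEq V] (D : Dat49 G c p q x y mid) : Finset V :=
  insert p (insert q (mid.toFinset ∪ c.toFinset))

theorem Dat49.mem_U [DecidableEq V] (D : Dat49 G c p q x y mid) (z : V) :
    z ∈ D.U ↔ z = p ∨ z = q ∨ z ∈ mid ∨ z ∈ c := by
  unfold Dat49.U
  simp

/-- a member of an arc -/
theorem arc_mem49 {n s : ℕ} {z : V} (hz : z ∈ seg (cf c hp) n s) : z ∈ c := by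
  rw [mem_seg] at hz
  obtain ⟨j, _, _, h⟩ := hz
  rw [h]
  exact cf_mem hp j

/-- moves (M1): `p` replaces `c (n+1)`; the rest closes through `c (n+1)` -/
theorem Dat49.move1 [DecidableEq V] (D : Dat49 G c p q x y mid) (n : ℕ)
    (h1 : G.Adj p (cf c hp n)) (h2 : G.Adj p (cf c hp (n + 2)))
    {R : List V} {w : V} (hR : Pth G x w R) (hRm : ∀ z ∈ R, z = q ∨ z ∈ mid)
    (hRl : c.length ≤ R.length + 1)
    (h3 : G.Adj x (cf c hp (n + 1))) (h4 : G.Adj w (cf c hp (n + 1))) :
    Two49 G c.length D.U := by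
  have hL := D.cyc.1
  have hA := arc_pth D.cyc hp (c.length - 2) (n + 2) (by omega)
  have e0 : cf c hp (n + 2 + (c.length - 2)) = cf c hp n := by
    apply cf_congr
    rw [show n + 2 + (c.length - 2) = n + c.length by omega, Nat.add_mod_right]
  rw [e0] at hA
  have key : ∀ z ∈ seg (cf c hp) (n + 2) (c.length - 2), z ≠ cf c hp (n + 1) := by
    intro z hz hzz
    rw [mem_seg] at hz
    obtain ⟨j, j1, j2, j3⟩ := hz
    rw [hzz, show j = n + (j - n) by omega] at j3
    exact far49 D.cyc hp n (s := 1) (t := j - n) (by omega) (by omega) j3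
  refine mk49 (r := c.length) hA (Pth.singleton p) hR (Pth.singleton (cf c hp (n + 1))) ?_ ?_ hL
    ?_ ?_ (Or.inl ⟨h2.symm, h1.symm⟩) (Or.inl ⟨h3, h4⟩) ?_ ?_ ?_
  · intro z hz hz'
    rw [List.mem_singleton] at hz'
    exact D.pc (hz' ▸ arc_mem49 hp hz)
  · intro z hz hz'
    rw [List.mem_singleton] at hz'
    have h5 : z ∈ c := hz' ▸ cf_mem hp (n + 1)
    rcases hRm z hz with h | h
    · exact D.qc (h ▸ h5)
    · exact D.mc z h h5
  · rw [seg_length]
    simp only [List.length_singleton]
    omega
  · simp only [List.length_singleton]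
    exact hRl
  · intro z hz
    rw [D.mem_U]
    rcases hz with hz | hz
    · exact Or.inr (Or.inr (Or.inr (arc_mem49 hp hz)))
    · exact Or.inl (by simpa using hz)
  · intro z hz
    rw [D.mem_U]
    rcases hz with hz | hz
    · rcases hRm z hz with h | h
      · exact Or.inr (Or.inl h)
      · exact Or.inr (Or.inr (Or.inl h))
    · rw [List.mem_singleton] at hz
      exact Or.inr (Or.inr (Or.inr (hz ▸ cf_mem hp (n + 1))))
  · intro z hz hz'
    rw [List.mem_singleton] at hz hz'
    rcases hz with hz | hz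
    · have h5 := arc_mem49 hp hz
      rcases hz' with h | h
      · rcases hRm z h with h | h
        · exact D.qc (h ▸ h5)
        · exact D.mc z h h5
      · exact key z hz h
    · rcases hz' with h | h
      · rcases hRm z h with h | h
        · exact D.pq (hz.symm.trans h)
        · exact D.pm (hz ▸ h)
      · exact D.pc (hz ▸ h ▸ cf_mem hp (n + 1))

/-- move (M2) -/
theorem Dat49.move2 [DecidableEq V] (D : Dat49 G c p q x y mid) (n k : ℕ)
    (h1 : G.Adj p (cf c hp n)) (h2 : G.Adj p (cf c hp (n + 3)))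
    (hk : 3 ≤ k) (hk' : k + 1 ≤ c.length)
    (h3 : G.Adj q (cf c hp (n + k))) (h4 : G.Adj q (cf c hp (n + k + 1)))
    (h5 : G.Adj x (cf c hp (n + 1)) ∨ G.Adj x (cf c hp (n + 2)))
    (h6 : G.Adj y (cf c hp (n + 1)) ∨ G.Adj y (cf c hp (n + 2))) :
    Two49 G c.length D.U := by
  have hL := D.cyc.1
  -- the piece of the cycle used by the second cycle
  have hT : ∃ (T : List V) (u v : V), Pth G u v T ∧
      (∀ z ∈ T, z = cf c hp (n + 1) ∨ z = cf c hp (n + 2)) ∧
      ((G.Adj x u ∧ G.Adj y v) ∨ (G.Adj x v ∧ G.Adj y u)) := by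
    rcases h5 with h5 | h5 <;> rcases h6 with h6 | h6
    · exact ⟨[cf c hp (n + 1)], _, _, Pth.singleton _, by simp, Or.inl ⟨h5, h6⟩⟩
    · refine ⟨_, _, _, (Pth.singleton (cf c hp (n + 1))).concat (cf_adj D.cyc hp (n + 1)) ?_, ?_,
        Or.inl ⟨h5, h6⟩⟩
      · simpa using (far49 D.cyc hp n (s := 1) (t := 2) (by omega) (by omega)).symm
      · intro z hz
        simpa using hz
    · refine ⟨_, _, _, (Pth.singleton (cf c hp (n + 1))).concat (cf_adj D.cyc hp (n + 1)) ?_, ?_,
        Or.inr ⟨h5, h6⟩⟩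
      · simpa using (far49 D.cyc hp n (s := 1) (t := 2) (by omega) (by omega)).symm
      · intro z hz
        simpa using hz
    · exact ⟨[cf c hp (n + 2)], _, _, Pth.singleton _, by simp, Or.inl ⟨h5, h6⟩⟩
  obtain ⟨T, u, v, hTp, hTm, hTa⟩ := hT
  have hTc : ∀ z ∈ T, z ∈ c := by
    intro z hz
    rcases hTm z hz with h | h
    · rw [h]; exact cf_mem hp _
    · rw [h]; exact cf_mem hp _
  -- the first cycle
  have hA := arc_pth D.cyc hp (k - 3) (n + 3) (by omega)
  rw [show n + 3 + (k - 3) = n + k by omega] at hA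
  have hB := arc_pth D.cyc hp (c.length - k - 1) (n + k + 1) (by omega)
  have e0 : cf c hp (n + k + 1 + (c.length - k - 1)) = cf c hp n := by
    apply cf_congr
    rw [show n + k + 1 + (c.length - k - 1) = n + c.length by omega, Nat.add_mod_right]
  rw [e0] at hB
  have hA' := hA.concat h3.symm (fun h => D.qc (arc_mem49 hp h))
  have hAB := hA'.append hB h4 (by
    intro z hz hz'
    rw [List.mem_append, List.mem_singleton] at hz
    rcases hz with hz | hz
    · rw [mem_seg] at hz hz'
      obtain ⟨j, j1, j2, j3⟩ := hz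
      obtain ⟨i, i1, i2, i3⟩ := hz'
      rw [j3, show j = n + (j - n) by omega, show i = n + (i - n) by omega] at i3
      exact far49 D.cyc hp n (s := j - n) (t := i - n) (by omega) (by omega) i3
    · exact D.qc (hz ▸ arc_mem49 hp hz'))
  have hin : ∀ z ∈ (seg (cf c hp) (n + 3) (k - 3) ++ [q]) ++
      seg (cf c hp) (n + k + 1) (c.length - k - 1), z = q ∨ (z ∈ c ∧ ∃ j, 3 ≤ j ∧ j ≤ c.length ∧
        z = cf c hp (n + j)) := by
    intro z hz
    rw [List.mem_append, List.mem_append, List.mem_singleton] at hz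
    rcases hz with (hz | hz) | hz
    · have hz1 := hz
      rw [mem_seg] at hz
      obtain ⟨j, j1, j2, j3⟩ := hz
      exact Or.inr ⟨arc_mem49 hp hz1, j - n, by omega, by omega, by
        rw [show n + (j - n) = j by omega]; exact j3⟩
    · exact Or.inl hz
    · have hz1 := hz
      rw [mem_seg] at hz
      obtain ⟨j, j1, j2, j3⟩ := hz
      exact Or.inr ⟨arc_mem49 hp hz1, j - n, by omega, by omega, by
        rw [show n + (j - n) = j by omega]; exact j3⟩
  refine mk49 (r := c.length) hAB (Pth.singleton p) D.path hTp ?_ ?_ hL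
    ?_ ?_ (Or.inl ⟨h2.symm, h1.symm⟩) hTa ?_ ?_ ?_
  · intro z hz hz'
    rw [List.mem_singleton] at hz'
    rcases hin z hz with h | h
    · exact D.pq (hz'.symm.trans h)
    · exact D.pc (hz' ▸ h.1)
  · intro z hz hz'
    exact D.mc z hz (hTc z hz')
  · simp only [List.length_append, seg_length, List.length_singleton]
    omega
  · have h7 := D.len
    have h8 := hTp.length_pos
    omega
  · intro z hz
    rw [D.mem_U]
    rcases hz with hz | hz
    · rcases hin z hz with h | h
      · exact Or.inr (Or.inl h)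
      · exact Or.inr (Or.inr (Or.inr h.1))
    · exact Or.inl (by simpa using hz)
  · intro z hz
    rw [D.mem_U]
    rcases hz with hz | hz
    · exact Or.inr (Or.inr (Or.inl hz))
    · exact Or.inr (Or.inr (Or.inr (hTc z hz)))
  · intro z hz hz'
    rw [List.mem_singleton] at hz
    rcases hz with hz | hz
    · rcases hin z hz with h | ⟨h, j, j1, j2, j3⟩
      · rcases hz' with h' | h'
        · exact D.qm (h ▸ h')
        · exact D.qc (h ▸ hTc z h')
      · rcases hz' with h' | h'
        · exact D.mc z h' h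
        · rcases hTm z h' with h'' | h''
          · rw [h''] at j3
            exact far49 D.cyc hp n (s := 1) (t := j) (by omega) (by omega) j3
          · rw [h''] at j3
            exact far49 D.cyc hp n (s := 2) (t := j) (by omega) (by omega) j3
    · rcases hz' with h' | h'
      · exact D.pm (hz ▸ h')
      · exact D.pc (hz ▸ hTc z h')

open Classical in
/-- adjacency indicator along the cycle -/
noncomputable def ind49 (G : SimpleGraph V) (c : List V) (hp : 0 < c.length) (p : V)
    (i : ZMod c.length) : ℕ := if G.Adj p (cf c hp i.val) then 1 else 0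

theorem ind_one49 {p : V} {i : ZMod c.length} : ind49 G c hp p i = 1 ↔ G.Adj p (cf c hp i.val) := by
  classical
  unfold ind49
  split_ifs with h <;> simp [h]

theorem ind_le49 (p : V) (i : ZMod c.length) : ind49 G c hp p i ≤ 1 := by
  classical
  unfold ind49
  split_ifs <;> simp

theorem cf_cast49 (n : ℕ) : cf c hp ((n : ℕ) : ZMod c.length).val = cf c hp n := by
  apply cf_congr
  rw [ZMod.val_natCast, Nat.mod_mod]

/-- position `n + k` as a residue -/
theorem ind_nat49 {p : V} (n : ℕ) {i : ZMod c.length} (h : i = ((n : ℕ) : ZMod c.length)) :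
    ind49 G c hp p i = 1 ↔ G.Adj p (cf c hp n) := by
  rw [ind_one49, h, cf_cast49]

theorem sum_ind49 [DecidableEq V] [NeZero c.length] (hn : c.Nodup) (p : V) :
    ∑ i, ind49 G c hp p i = dg G c.toFinset p := by
  classical
  have h1 : c.toFinset = (Finset.univ : Finset (ZMod c.length)).image (fun i => cf c hp i.val) := by
    ext z
    rw [List.mem_toFinset, Finset.mem_image]
    constructor
    · intro hz
      obtain ⟨i, hi, h⟩ := exists_cf hp hz
      exact ⟨(i : ZMod c.length), Finset.mem_univ _, by rw [cf_cast49]; exact h⟩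
    · rintro ⟨i, _, rfl⟩
      exact cf_mem hp _
  have hinj : Function.Injective (fun i : ZMod c.length => cf c hp i.val) := by
    intro i j hij
    have h2 := cf_inj hp hn hij
    rw [Nat.mod_eq_of_lt (ZMod.val_lt i), Nat.mod_eq_of_lt (ZMod.val_lt j)] at h2
    exact ZMod.val_injective _ h2
  unfold dg
  rw [Finset.card_filter, h1, Finset.sum_image (fun i _ j _ h => hinj h)]
  unfold ind49
  exact Finset.sum_congr rfl fun i _ => by congr

/-- the moves give the combinatorial data -/
theorem Dat49.ll [DecidableEq V] (D : Dat49 G c p q x y mid)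
    (hno : ¬ Two49 G c.length D.U) :
    LL49 c.length (ind49 G c hp p) (ind49 G c hp x) (ind49 G c hp y) (ind49 G c hp q) := by
  haveI : NeZero c.length := ⟨by omega⟩
  have hL := D.cyc.1
  have hU : D.swap.U = D.U := by
    ext z
    rw [D.swap.mem_U, D.mem_U]
    simp only [List.mem_reverse]
    tauto
  have hno' : ¬ Two49 G c.length D.swap.U := by rw [hU]; exact hno
  -- the general form of the four moves for a datum
  have gen1 : ∀ {p q x y : V} {mid : List V} (D : Dat49 G c p q x y mid),
      ¬ Two49 G c.length D.U → ∀ i : ZMod c.length, ind49 G c hp p (i - 1) = 1 →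
      ind49 G c hp p (i + 1) = 1 → ind49 G c hp x i + ind49 G c hp q i ≤ 1 ∧
        ind49 G c hp x i + ind49 G c hp y i ≤ 1 := by
    intro p q x y mid D hno i h1 h2
    obtain ⟨n, hn⟩ : ∃ n : ℕ, i - 1 = ((n : ℕ) : ZMod c.length) :=
      ⟨(i - 1).val, (ZMod.natCast_zmod_val _).symm⟩
    have hi : i = ((n + 1 : ℕ) : ZMod c.length) := by
      push_cast
      rw [← hn]; ring
    have hi' : i + 1 = ((n + 2 : ℕ) : ZMod c.length) := by
      push_cast
      rw [← hn]; ring
    rw [ind_nat49 hp n hn] at h1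
    rw [ind_nat49 hp (n + 2) hi'] at h2
    have l1 := ind_le49 (G := G) hp x i
    have l2 := ind_le49 (G := G) hp q i
    have l3 := ind_le49 (G := G) hp y i
    constructor
    · by_contra hne
      have k1 : ind49 G c hp x i = 1 := by omega
      have k2 : ind49 G c hp q i = 1 := by omega
      rw [ind_nat49 hp (n + 1) hi] at k1 k2
      refine hno (D.move1 hp n h1 h2 (D.path.concat D.yq D.qm) ?_ ?_ k1 k2)
      · intro z hz
        rw [List.mem_append, List.mem_singleton] at hz
        tauto
      · have := D.len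
        simp only [List.length_append, List.length_singleton]
        omega
    · by_contra hne
      have k1 : ind49 G c hp x i = 1 := by omega
      have k2 : ind49 G c hp y i = 1 := by omega
      rw [ind_nat49 hp (n + 1) hi] at k1 k2
      exact hno (D.move1 hp n h1 h2 D.path (fun z hz => Or.inr hz) D.len k1 k2)
  have gen2 : ∀ {p q x y : V} {mid : List V} (D : Dat49 G c p q x y mid),
      ¬ Two49 G c.length D.U → ∀ i j : ZMod c.length, ind49 G c hp p (i - 1) = 1 →
      ind49 G c hp p (i + 2) = 1 → j ≠ i - 1 → j ≠ i → j ≠ i + 1 →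
      ind49 G c hp q j = 1 → ind49 G c hp q (j + 1) = 1 →
      (ind49 G c hp x i = 1 ∨ ind49 G c hp x (i + 1) = 1) →
      (ind49 G c hp y i = 1 ∨ ind49 G c hp y (i + 1) = 1) → False := by
    intro p q x y mid D hno i j h1 h2 j1 j2 j3 h3 h4 h5 h6
    obtain ⟨n, hn⟩ : ∃ n : ℕ, i - 1 = ((n : ℕ) : ZMod c.length) :=
      ⟨(i - 1).val, (ZMod.natCast_zmod_val _).symm⟩
    have hi : i = ((n + 1 : ℕ) : ZMod c.length) := by
      push_cast
      rw [← hn]; ring
    have hi' : i + 1 = ((n + 2 : ℕ) : ZMod c.length) := by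
      push_cast
      rw [← hn]; ring
    have hi'' : i + 2 = ((n + 3 : ℕ) : ZMod c.length) := by
      push_cast
      rw [← hn]; ring
    set k := (j - (i - 1)).val with hk
    have hkc : ((k : ℕ) : ZMod c.length) = j - (i - 1) := by
      rw [hk]; exact ZMod.natCast_zmod_val _
    have hj : j = ((n + k : ℕ) : ZMod c.length) := by
      push_cast
      rw [hkc, ← hn]; ring
    have hj' : j + 1 = ((n + k + 1 : ℕ) : ZMod c.length) := by
      push_cast
      rw [hkc, ← hn]; ring
    have hkl : k < c.length := ZMod.val_lt _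
    have k0 : k ≠ 0 := by
      intro h
      rw [h] at hkc
      push_cast at hkc
      exact j1 (by linear_combination -hkc)
    have k1 : k ≠ 1 := by
      intro h
      rw [h] at hkc
      push_cast at hkc
      exact j2 (by linear_combination -hkc)
    have k2 : k ≠ 2 := by
      intro h
      rw [h] at hkc
      push_cast at hkc
      exact j3 (by linear_combination -hkc)
    rw [ind_nat49 hp n hn] at h1
    rw [ind_nat49 hp (n + 3) hi''] at h2
    rw [ind_nat49 hp (n + k) hj] at h3
    rw [ind_nat49 hp (n + k + 1) hj'] at h4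
    rw [ind_nat49 hp (n + 1) hi, ind_nat49 hp (n + 2) hi'] at h5 h6
    exact hno (D.move2 hp n k h1 h2 (by omega) (by omega) h3 h4 h5 h6)
  exact
    { ba := fun i => ind_le49 hp p i
      bb := fun i => ind_le49 hp x i
      bb' := fun i => ind_le49 hp y i
      ba' := fun i => ind_le49 hp q i
      m1 := fun i h1 h2 => gen1 D hno i h1 h2
      m1' := fun i h1 h2 => by
        have := gen1 D.swap hno' i h1 h2
        omega
      m2 := fun i j h1 h2 j1 j2 j3 h3 h4 h5 h6 => gen2 D hno i j h1 h2 j1 j2 j3 h3 h4 h5 h6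
      m2' := fun i j h1 h2 j1 j2 j3 h3 h4 h5 h6 =>
        gen2 D.swap hno' i j h1 h2 j1 j2 j3 h3 h4 h6 h5 }

/-- **LL+** (list form) -/
theorem Dat49.main [DecidableEq V] (D : Dat49 G c p q x y mid) (hr : 6 ≤ c.length)
    (hno : ¬ Two49 G c.length D.U) :
    2 * (dg G c.toFinset p + dg G c.toFinset q) + dg G c.toFinset x + dg G c.toFinset y
      ≤ 4 * c.length := by
  haveI : NeZero c.length := ⟨by omega⟩
  have hp : 0 < c.length := by omega
  have h1 := (D.ll hp hno).main hr
  have hn := Cyc.nodup D.cyc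
  rw [sum_ind49 hp hn, sum_ind49 hp hn, sum_ind49 hp hn, sum_ind49 hp hn] at h1
  exact h1

end

/-- **LL+** (set form): `C` a cycle of length `r ≥ 6`, `p, x, …, y, q` a path with at least `r + 1`
vertices, disjoint from `C` -/
theorem llplus49 [DecidableEq V] {r : ℕ} (hr : 6 ≤ r) {C : Finset V} (hC : CycSet G C)
    (hCr : C.card = r) {p q x y : V} {mid : List V} (hmid : Pth G x y mid) (hpx : G.Adj p x)
    (hyq : G.Adj y q) (hpq : p ≠ q) (hpm : p ∉ mid) (hqm : q ∉ mid) (hpC : p ∉ C) (hqC : q ∉ C)
    (hmC : ∀ z ∈ mid, z ∉ C) (hlen : r ≤ mid.length + 1)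
    (hno : ¬ Two49 G r (insert p (insert q (mid.toFinset ∪ C)))) :
    2 * (dg G C p + dg G C q) + dg G C x + dg G C y ≤ 4 * r := by
  obtain ⟨c, hc, hs⟩ := hC
  have hcard := card_of_list (Cyc.nodup hc) hs
  have hCc : c.toFinset = C := by
    ext z; rw [List.mem_toFinset]; exact hs z
  have hlr : c.length = r := by omega
  subst hlr
  have D : Dat49 G c p q x y mid :=
    { cyc := hc
      path := hmid
      px := hpx
      yq := hyq
      pq := hpq
      pm := hpm
      qm := hqm
      pc := fun h => hpC ((hs p).1 h)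
      qc := fun h => hqC ((hs q).1 h)
      mc := fun z hz h => hmC z hz ((hs z).1 h)
      len := hlen }
  have h1 := D.main hr (by
    unfold Dat49.U
    rw [hCc]; exact hno)
  rw [hCc] at h1
  exact h1

end Pool.Agent.P0
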