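import Pool.Agent.P0.Closed99A
import Pool.Agent.P0.Graph49

set_option linter.all false

/-!
# P0, row I3 (graph half): a cycle `C` of length `r` and a cycle `X` of length `r + 1`

If there are no two disjoint cycles, each of length at least `r`, inside `C ∪ X` with total length
less than `2 r + 1`, then `3 e(C, X) ≤ 2 r (r + 1)`.
-/

namespace Pool.Agent.P0.Closed99

open Pool.Agent.Helper14.LongCyc Pool.Agent.LCK Pool.Agent.P0

universe u

variable {V : Type u} {G : SimpleGraph V}

section

variable (G : SimpleGraph V) (c x : List V) (hp : 0 < c.length) (hq : 0 < x.length)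

/-- the adjacency, in one cyclic coordinate -/
def PP (n : ZMod (c.length * (c.length + 1))) : Prop :=
  G.Adj (cf c hp n.val) (cf x hq (c.length * n.val))

end

variable {c x : List V} (hp : 0 < c.length) (hq : 0 < x.length)

theorem pp_cast (hx : x.length = c.length + 1) (m : ℕ) :
    PP G c x hp hq ((m : ℕ) : ZMod (c.length * (c.length + 1))) ↔
      G.Adj (cf c hp m) (cf x hq (c.length * m)) := by
  unfold PP
  rw [ZMod.val_natCast]
  have e1 : cf c hp (m % (c.length * (c.length + 1))) = cf c hp m := by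
    apply cf_congr
    exact Nat.mod_mod_of_dvd m (dvd_mul_right _ _)
  have e2 : cf x hq (c.length * (m % (c.length * (c.length + 1)))) = cf x hq (c.length * m) := by
    apply cf_congr
    rw [hx]
    have h1 : m % (c.length * (c.length + 1)) ≡ m [MOD (c.length + 1)] := by
      unfold Nat.ModEq
      exact Nat.mod_mod_of_dvd m (dvd_mul_left _ _)
    exact Nat.ModEq.mul_left _ h1
  rw [e1, e2]

theorem cf_eq (hp : 0 < c.length) {i j k : ℕ} (h : i = j + k * c.length) : cf c hp i = cf c hp j := by
  apply cf_congr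
  rw [h, Nat.add_mul_mod_self_right]

/-- the two cycles -/
theorem two_cycles [DecidableEq V] (hc : Cyc G c) (hX : Cyc G x) (hx : x.length = c.length + 1)
    (hd : ∀ z ∈ c, z ∉ x) (ν a : ℕ) (ha : 1 ≤ a) (ha' : a + 1 ≤ c.length)
    (h1 : G.Adj (cf c hp ν) (cf x hq (c.length * ν)))
    (h2 : G.Adj (cf c hp (ν + 1)) (cf x hq (c.length * ν + 2)))
    (h3 : G.Adj (cf c hp (ν + a)) (cf x hq (c.length * (ν + a))))
    (h4 : G.Adj (cf c hp (ν + a + 1)) (cf x hq (c.length * (ν + a) + 1))) :
    ∃ D E : Finset V, CycSet G D ∧ CycSet G E ∧ D ⊆ c.toFinset ∪ x.toFinset ∧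
      E ⊆ c.toFinset ∪ x.toFinset ∧ c.length ≤ D.card ∧ c.length ≤ E.card ∧ Disjoint D E ∧
      D.card + E.card < c.length + x.length := by
  have hL := hc.1
  set r := c.length with hr
  set J := r * (ν + a) with hJ
  have A1 := arc_pth hc hp (a - 1) (ν + 1) (by omega)
  rw [show ν + 1 + (a - 1) = ν + a by omega] at A1
  have A2 := arc_pth hX hq (r - a - 1) (J + a + 2) (by omega)
  rw [show cf x hq (J + a + 2 + (r - a - 1)) = cf x hq J from
    cf_eq hq (k := 1) (by rw [hx]; omega)] at A2
  have A3 := arc_pth hc hp (r - a - 1) (ν + a + 1) (by omega)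
  rw [show cf c hp (ν + a + 1 + (r - a - 1)) = cf c hp ν from
    cf_eq hp (k := 1) (by rw [← hr]; omega)] at A3
  have A4 := arc_pth hX hq (a - 1) (J + 1) (by omega)
  rw [show J + 1 + (a - 1) = J + a by omega] at A4
  have e1 : cf x hq (J + a + 2) = cf x hq (r * ν + 2) :=
    cf_eq hq (k := a) (by rw [hx, hJ]; ring)
  have e2 : cf x hq (J + a) = cf x hq (r * ν) :=
    cf_eq hq (k := a) (by rw [hx, hJ]; ring)
  have cx : ∀ z, z ∈ c → z ∈ x → False := fun z h h' => hd z h h'
  obtain ⟨e3, e4⟩ := joinSet A1 A2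
    (fun z hz hz' => cx z (arc_mem49 hp hz) (arc_mem49 hq hz')) (by
      rw [seg_length, seg_length]; omega) (Or.inl ⟨by rw [e1]; exact h2, h3⟩)
  obtain ⟨e5, e6⟩ := joinSet A3 A4
    (fun z hz hz' => cx z (arc_mem49 hp hz) (arc_mem49 hq hz')) (by
      rw [seg_length, seg_length]; omega) (Or.inl ⟨h4, by rw [e2]; exact h1⟩)
  rw [seg_length, seg_length] at e4 e6
  refine ⟨_, _, e3, e5, ?_, ?_, by omega, by omega, ?_, by omega⟩
  · intro z hz
    rw [List.mem_toFinset, List.mem_append] at hz
    rw [Finset.mem_union, List.mem_toFinset, List.mem_toFinset]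
    rcases hz with hz | hz
    · exact Or.inl (arc_mem49 hp hz)
    · exact Or.inr (arc_mem49 hq hz)
  · intro z hz
    rw [List.mem_toFinset, List.mem_append] at hz
    rw [Finset.mem_union, List.mem_toFinset, List.mem_toFinset]
    rcases hz with hz | hz
    · exact Or.inl (arc_mem49 hp hz)
    · exact Or.inr (arc_mem49 hq hz)
  · rw [Finset.disjoint_left]
    intro z hz hz'
    rw [List.mem_toFinset, List.mem_append] at hz hz'
    rcases hz with hz | hz <;> rcases hz' with hz' | hz'
    · rw [mem_seg] at hz hz'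
      obtain ⟨j, j1, j2, j3⟩ := hz
      obtain ⟨i, i1, i2, i3⟩ := hz'
      rw [j3, show j = ν + (j - ν) by omega, show i = ν + (i - ν) by omega] at i3
      exact far49 hc hp ν (s := j - ν) (t := i - ν) (by omega) (by omega) i3
    · exact cx z (arc_mem49 hp hz) (arc_mem49 hq hz')
    · exact cx z (arc_mem49 hp hz') (arc_mem49 hq hz)
    · rw [mem_seg] at hz hz'
      obtain ⟨j, j1, j2, j3⟩ := hz'
      obtain ⟨i, i1, i2, i3⟩ := hz
      rw [j3, show j = J + (j - J) by omega, show i = J + (i - J) by omega] at i3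
      exact far49 hX hq J (s := j - J) (t := i - J) (by omega) (by omega) i3

/-- the hypothesis on two cycles -/
def NoShort (G : SimpleGraph V) (r M : ℕ) (U : Finset V) : Prop :=
  ¬ ∃ D E : Finset V, CycSet G D ∧ CycSet G E ∧ D ⊆ U ∧ E ⊆ U ∧ r ≤ D.card ∧ r ≤ E.card ∧
    Disjoint D E ∧ D.card + E.card < M

theorem hyp [DecidableEq V] (hc : Cyc G c) (hX : Cyc G x) (hx : x.length = c.length + 1)
    (hd : ∀ z ∈ c, z ∉ x)
    (hno : NoShort G c.length (c.length + x.length) (c.toFinset ∪ x.toFinset)) :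
    Hyp c.length (PP G c x hp hq) := by
  intro n a ha ha' ⟨h1, h2, h3, h4⟩
  apply hno
  haveI : NeZero (c.length * (c.length + 1)) := ⟨by positivity⟩
  obtain ⟨ν, rfl⟩ : ∃ ν : ℕ, ((ν : ℕ) : ZMod (c.length * (c.length + 1))) = n :=
    ⟨n.val, ZMod.natCast_zmod_val n⟩
  have g2 : ((ν : ℕ) : ZMod (c.length * (c.length + 1))) + 3 * (c.length : ZMod _) + 1 =
    ((ν + 3 * c.length + 1 : ℕ) : ZMod (c.length * (c.length + 1))) := by push_cast; ring
  have g3 : ((ν : ℕ) : ZMod (c.length * (c.length + 1))) + (a : ZMod _) =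
    ((ν + a : ℕ) : ZMod (c.length * (c.length + 1))) := by push_cast; ring
  have g4 : ((ν : ℕ) : ZMod (c.length * (c.length + 1))) + (a : ZMod _) +
      2 * (c.length : ZMod _) + 1 =
    ((ν + a + 2 * c.length + 1 : ℕ) : ZMod (c.length * (c.length + 1))) := by push_cast; ring
  rw [g2, pp_cast hp hq hx] at h2
  rw [g3, pp_cast hp hq hx] at h3
  rw [g4, pp_cast hp hq hx] at h4
  rw [pp_cast hp hq hx] at h1
  have hL := hc.1
  obtain ⟨s, hs⟩ : ∃ s, c.length = s + 1 := ⟨c.length - 1, by omega⟩
  refine two_cycles hp hq hc hX hx hd ν a ha ha' h1 ?_ h3 ?_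
  · rw [show cf c hp (ν + 3 * c.length + 1) = cf c hp (ν + 1) from cf_eq hp (k := 3) (by ring),
      show cf x hq (c.length * (ν + 3 * c.length + 1)) = cf x hq (c.length * ν + 2) from
        cf_eq hq (k := 3 * s + 1) (by rw [hx, hs]; ring)] at h2
    exact h2
  · rw [show cf c hp (ν + a + 2 * c.length + 1) = cf c hp (ν + a + 1) from
        cf_eq hp (k := 2) (by ring),
      show cf x hq (c.length * (ν + a + 2 * c.length + 1)) = cf x hq (c.length * (ν + a) + 1) from
        cf_eq hq (k := 2 * s + 1) (by rw [hx, hs]; ring)] at h4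
    exact h4

/-- all pairs are seen -/
theorem image_pairs [DecidableEq V] [NeZero (c.length * (c.length + 1))] (hc : c.Nodup)
    (hX : x.Nodup) (hx : x.length = c.length + 1) :
    (Finset.univ : Finset (ZMod (c.length * (c.length + 1)))).image
      (fun n => (cf c hp n.val, cf x hq (c.length * n.val))) = c.toFinset ×ˢ x.toFinset := by
  apply Finset.eq_of_subset_of_card_le
  · intro z hz
    obtain ⟨n, _, rfl⟩ := Finset.mem_image.1 hz
    rw [Finset.mem_product, List.mem_toFinset, List.mem_toFinset]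
    exact ⟨cf_mem hp _, cf_mem hq _⟩
  · rw [Finset.card_image_of_injective, Finset.card_univ, ZMod.card, Finset.card_product,
      List.toFinset_card_of_nodup hc, List.toFinset_card_of_nodup hX, hx]
    intro n m hnm
    rw [Prod.mk.injEq] at hnm
    have h1 := cf_inj hp hc hnm.1
    have h2 := cf_inj hq hX hnm.2
    rw [hx] at h2
    have h3 : n.val ≡ m.val [MOD (c.length + 1)] :=
      Nat.ModEq.cancel_left_of_coprime (by simp) h2
    have h4 : n.val ≡ m.val [MOD (c.length * (c.length + 1))] :=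
      (Nat.modEq_and_modEq_iff_modEq_mul (by simp)).1 ⟨h1, h3⟩
    unfold Nat.ModEq at h4
    rw [Nat.mod_eq_of_lt (ZMod.val_lt n), Nat.mod_eq_of_lt (ZMod.val_lt m)] at h4
    exact ZMod.val_injective _ h4

theorem sum_pp [DecidableEq V] [NeZero (c.length * (c.length + 1))] (hc : c.Nodup)
    (hX : x.Nodup) (hx : x.length = c.length + 1) :
    ∑ n, ii (PP G c x hp hq) n = eS G c.toFinset x.toFinset := by
  classical
  have h1 : eS G c.toFinset x.toFinset =
      ∑ z ∈ c.toFinset ×ˢ x.toFinset, if G.Adj z.1 z.2 then 1 else 0 := by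
    unfold eS
    rw [Finset.sum_product]
    refine Finset.sum_congr rfl fun a _ => ?_
    rw [dg_eq_card, Finset.card_filter]
  rw [h1, ← image_pairs hp hq hc hX hx, Finset.sum_image]
  · refine Finset.sum_congr rfl fun n _ => ?_
    unfold ii PP
    by_cases h : G.Adj (cf c hp n.val) (cf x hq (c.length * n.val)) <;> simp [h]
  · intro n _ m _ hnm
    simp only [Prod.mk.injEq] at hnm
    have h1 := cf_inj hp hc hnm.1
    have h2 := cf_inj hq hX hnm.2
    rw [hx] at h2
    have h3 : n.val ≡ m.val [MOD (c.length + 1)] :=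
      Nat.ModEq.cancel_left_of_coprime (by simp) h2
    have h4 : n.val ≡ m.val [MOD (c.length * (c.length + 1))] :=
      (Nat.modEq_and_modEq_iff_modEq_mul (by simp)).1 ⟨h1, h3⟩
    unfold Nat.ModEq at h4
    rw [Nat.mod_eq_of_lt (ZMod.val_lt n), Nat.mod_eq_of_lt (ZMod.val_lt m)] at h4
    exact ZMod.val_injective _ h4

/-- **the closed lemma** (set form), `C` of length `r`, `X` of length `r + 1`: the exact form -/
theorem closed99' [DecidableEq V] {r : ℕ} (hr : 3 ≤ r) {C X : Finset V} (hC : CycSet G C)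
    (hX : CycSet G X) (hCr : C.card = r) (hXr : X.card = r + 1) (hd : Disjoint C X)
    (hno : NoShort G r (2 * r + 1) (C ∪ X)) :
    eS G C X * (5 * r + 6) ≤ r * (r + 1) * (3 * r + 6) := by
  obtain ⟨c, hc, hs⟩ := hC
  obtain ⟨x, hx, hs'⟩ := hX
  have hcard := card_of_list (Cyc.nodup hc) hs
  have hcard' := card_of_list (Cyc.nodup hx) hs'
  have hCc : c.toFinset = C := by
    ext z; rw [List.mem_toFinset]; exact hs z
  have hXx : x.toFinset = X := by
    ext z; rw [List.mem_toFinset]; exact hs' z
  have hlr : c.length = r := by omega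
  subst hlr
  have hxl : x.length = c.length + 1 := by omega
  have hp : 0 < c.length := by omega
  have hq : 0 < x.length := by omega
  haveI : NeZero (c.length * (c.length + 1)) := ⟨by positivity⟩
  have h1 := hyp (G := G) hp hq hc hx hxl (fun z hz hz' =>
    Finset.disjoint_left.1 hd ((hs z).1 hz) ((hs' z).1 hz')) (by
      rw [hCc, hXx, hxl, show c.length + (c.length + 1) = 2 * c.length + 1 by ring]
      exact hno)
  have h2 := main_ineq h1 (by omega)
  rw [sum_pp hp hq (Cyc.nodup hc) (Cyc.nodup hx) hxl, hCc, hXx] at h2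
  exact h2

/-- **the closed lemma** (set form), `C` of length `r`, `X` of length `r + 1` -/
theorem closed99 [DecidableEq V] {r : ℕ} (hr : 3 ≤ r) {C X : Finset V} (hC : CycSet G C)
    (hX : CycSet G X) (hCr : C.card = r) (hXr : X.card = r + 1) (hd : Disjoint C X)
    (hno : NoShort G r (2 * r + 1) (C ∪ X)) :
    3 * eS G C X ≤ 2 * (r * (r + 1)) := by
  obtain ⟨c, hc, hs⟩ := hC
  obtain ⟨x, hx, hs'⟩ := hX
  have hcard := card_of_list (Cyc.nodup hc) hs
  have hcard' := card_of_list (Cyc.nodup hx) hs'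
  have hCc : c.toFinset = C := by
    ext z; rw [List.mem_toFinset]; exact hs z
  have hXx : x.toFinset = X := by
    ext z; rw [List.mem_toFinset]; exact hs' z
  have hlr : c.length = r := by omega
  subst hlr
  have hxl : x.length = c.length + 1 := by omega
  have hp : 0 < c.length := by omega
  have hq : 0 < x.length := by omega
  haveI : NeZero (c.length * (c.length + 1)) := ⟨by positivity⟩
  have h1 := hyp (G := G) hp hq hc hx hxl (fun z hz hz' =>
    Finset.disjoint_left.1 hd ((hs z).1 hz) ((hs' z).1 hz')) (by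
      rw [hCc, hXx, hxl, show c.length + (c.length + 1) = 2 * c.length + 1 by ring]
      exact hno)
  have h2 := two_thirds h1 hr rfl
  rw [sum_pp hp hq (Cyc.nodup hc) (Cyc.nodup hx) hxl, hCc, hXx] at h2
  exact h2

end Pool.Agent.P0.Closed99
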