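import Pool.Agent.P0.Graph61
import Pool.Agent.P0.Closed99B

set_option linter.all false

/-!
# P0, row I3, `r = 4, 5`: the closed lemma for `|C| = r`, `|X| ≥ r + 2`
-/

namespace Pool.Agent.P0

open Pool.Agent.Helper14.LongCyc Pool.Agent.LCK Closed99

universe u

variable {V : Type u} {G : SimpleGraph V}

/-- shifting a periodic sum -/
theorem shift61 (g : ℕ → ℕ) (L : ℕ) (hg : ∀ i, g (i + L) = g i) (s : ℕ) :
    ∑ i ∈ Finset.range L, g (i + s) = ∑ i ∈ Finset.range L, g i := by
  induction s with
  | zero => rfl
  | succ s ih =>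
    rw [← ih]
    have h1 := Finset.sum_range_succ' (fun i => g (i + s)) L
    have h2 := Finset.sum_range_succ (fun i => g (i + s)) L
    rw [h1] at h2
    have h3 : g (L + s) = g (0 + s) := by
      rw [show L + s = s + L by ring, hg, zero_add]
    have h4 : ∑ i ∈ Finset.range L, g (i + (s + 1)) = ∑ i ∈ Finset.range L, g (i + 1 + s) :=
      Finset.sum_congr rfl fun i _ => by rw [show i + (s + 1) = i + 1 + s by ring]
    rw [h4]
    omega

/-- the degrees along a cycle sum up to the number of edges -/
theorem sum_cf61 [DecidableEq V] {x : List V} (hq : 0 < x.length) (hn : x.Nodup) (C : Finset V) :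
    ∑ i ∈ Finset.range x.length, dg G C (cf x hq i) = eS G C x.toFinset := by
  rw [eS_comm]
  unfold eS
  have h1 : x.toFinset = (Finset.range x.length).image (fun i => cf x hq i) := by
    ext z
    rw [List.mem_toFinset, Finset.mem_image]
    constructor
    · intro hz
      obtain ⟨i, hi, h⟩ := exists_cf hq hz
      exact ⟨i, Finset.mem_range.2 hi, h⟩
    · rintro ⟨i, _, rfl⟩
      exact cf_mem hq _
  rw [h1, Finset.sum_image]
  intro i hi j hj hij
  have h2 := cf_inj hq hn hij
  rw [Nat.mod_eq_of_lt (Finset.mem_range.1 hi), Nat.mod_eq_of_lt (Finset.mem_range.1 hj)] at h2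
  exact h2

theorem noShort_two61 [DecidableEq V] {r M : ℕ} {U W : Finset V} (hno : NoShort G r M U)
    (hW : W ⊆ U) (hc : W.card < M) : ¬ Two49 G r W := by
  rintro ⟨D, E, h1, h2, h3, h4, h5, h6, h7⟩
  refine hno ⟨D, E, h1, h2, h3.trans hW, h4.trans hW, h5, h6, h7, ?_⟩
  rw [← Finset.card_union_of_disjoint h7]
  exact (Finset.card_le_card (Finset.union_subset h3 h4)).trans_lt hc

/-- closed lemma, `r = 4` -/
theorem closed_four61 [DecidableEq V] {C X : Finset V} (hC : CycSet G C)
    (hX : CycSet G X) (hCr : C.card = 4) (hXr : 5 ≤ X.card) (hd : Disjoint C X)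
    (hno : NoShort G 4 (4 + X.card) (C ∪ X)) :
    3 * eS G C X ≤ 2 * (4 * X.card) := by
  obtain ⟨x, hx, hs'⟩ := hX
  have hnx := Cyc.nodup hx
  have hcard' := card_of_list hnx hs'
  have hXx : x.toFinset = X := by
    ext z; rw [List.mem_toFinset]; exact hs' z
  have hq : 0 < x.length := by omega
  rw [hcard'] at hXr hno ⊢
  have hin : ∀ i, cf x hq i ∈ X := fun i => (hs' _).1 (cf_mem hq i)
  have hnC : ∀ i, cf x hq i ∉ C := fun i h => Finset.disjoint_left.1 hd h (hin i)
  have loc : ∀ i, 2 * (dg G C (cf x hq (i + 1)) + dg G C (cf x hq (i + (x.length - 1))))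
      + dg G C (cf x hq (i + 2)) + dg G C (cf x hq (i + (x.length - 2))) ≤ 16 := by
    intro i
    have hA := arc_pth hx hq (x.length - 4) (i + 2) (by omega)
    rw [show i + 2 + (x.length - 4) = i + (x.length - 2) by omega] at hA
    have hmem : ∀ z ∈ seg (cf x hq) (i + 2) (x.length - 4),
        ∃ j, 2 ≤ j ∧ j ≤ x.length - 2 ∧ z = cf x hq (i + j) := by
      intro z hz
      rw [mem_seg] at hz
      obtain ⟨j, j1, j2, j3⟩ := hz
      exact ⟨j - i, by omega, by omega, by rw [show i + (j - i) = j by omega]; exact j3⟩
    refine ll4_61 hC hCr hA ?_ ?_ ?_ ?_ ?_ (hnC _) (hnC _) ?_ ?_ ?_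
    · exact cf_adj hx hq (i + 1)
    · have := cf_adj hx hq (i + (x.length - 2))
      rwa [show i + (x.length - 2) + 1 = i + (x.length - 1) by omega] at this
    · exact far49 hx hq i (s := 1) (t := x.length - 1) (by omega) (by omega)
    · intro h
      obtain ⟨j, j1, j2, j3⟩ := hmem _ h
      exact far49 hx hq i (s := 1) (t := j) (by omega) (by omega) j3
    · intro h
      obtain ⟨j, j1, j2, j3⟩ := hmem _ h
      exact far49 hx hq i (s := j) (t := x.length - 1) (by omega) (by omega) j3.symm
    · intro z hz
      obtain ⟨j, _, _, j3⟩ := hmem z hz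
      rw [j3]; exact hnC _
    · rw [seg_length]; omega
    · refine noShort_two61 hno ?_ ?_
      · intro z hz
        rw [Finset.mem_insert, Finset.mem_insert, Finset.mem_union, List.mem_toFinset] at hz
        rcases hz with h | h | h | h
        · rw [h]; exact Finset.mem_union_right _ (hin _)
        · rw [h]; exact Finset.mem_union_right _ (hin _)
        · obtain ⟨j, _, _, j3⟩ := hmem z h
          rw [j3]; exact Finset.mem_union_right _ (hin _)
        · exact Finset.mem_union_left _ h
      · have e1 := Finset.card_insert_le (cf x hq (i + 1)) (insert (cf x hq (i + (x.length - 1)))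
          ((seg (cf x hq) (i + 2) (x.length - 4)).toFinset ∪ C))
        have e2 := Finset.card_insert_le (cf x hq (i + (x.length - 1)))
          ((seg (cf x hq) (i + 2) (x.length - 4)).toFinset ∪ C)
        have e3 := Finset.card_union_le (seg (cf x hq) (i + 2) (x.length - 4)).toFinset C
        have e4 := List.toFinset_card_le (seg (cf x hq) (i + 2) (x.length - 4))
        rw [seg_length] at e4
        omega
  have hsum := Finset.sum_le_sum fun i (_ : i ∈ Finset.range x.length) => loc i
  have per : ∀ i, dg G C (cf x hq (i + x.length)) = dg G C (cf x hq i) := fun i => by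
    rw [cf_add hq i]
  have sh := fun s => shift61 (fun i => dg G C (cf x hq i)) x.length per s
  simp only [Finset.sum_add_distrib, ← Finset.mul_sum, Finset.sum_const, Finset.card_range,
    smul_eq_mul] at hsum
  rw [sh 1, sh (x.length - 1), sh 2, sh (x.length - 2), sum_cf61 hq hnx, hXx] at hsum
  omega

/-- closed lemma, `r = 5` -/
theorem closed_five61 [DecidableEq V] {C X : Finset V} (hC : CycSet G C)
    (hX : CycSet G X) (hCr : C.card = 5) (hXr : 7 ≤ X.card) (hd : Disjoint C X)
    (hno : NoShort G 5 (5 + X.card) (C ∪ X)) :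
    3 * eS G C X ≤ 2 * (5 * X.card) := by
  obtain ⟨x, hx, hs'⟩ := hX
  have hnx := Cyc.nodup hx
  have hcard' := card_of_list hnx hs'
  have hXx : x.toFinset = X := by
    ext z; rw [List.mem_toFinset]; exact hs' z
  have hq : 0 < x.length := by omega
  rw [hcard'] at hXr hno ⊢
  have hin : ∀ i, cf x hq i ∈ X := fun i => (hs' _).1 (cf_mem hq i)
  have hnC : ∀ i, cf x hq i ∉ C := fun i h => Finset.disjoint_left.1 hd h (hin i)
  have loc : ∀ i, 2 * (dg G C (cf x hq (i + 1)) + dg G C (cf x hq (i + (x.length - 1))))
      + dg G C (cf x hq (i + 2)) + dg G C (cf x hq (i + (x.length - 3)))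
      + dg G C (cf x hq (i + (x.length - 2))) ≤ 23 := by
    intro i
    have hA := arc_pth hx hq (x.length - 5) (i + 2) (by omega)
    rw [show i + 2 + (x.length - 5) = i + (x.length - 3) by omega] at hA
    have hmem : ∀ z ∈ seg (cf x hq) (i + 2) (x.length - 5),
        ∃ j, 2 ≤ j ∧ j ≤ x.length - 3 ∧ z = cf x hq (i + j) := by
      intro z hz
      rw [mem_seg] at hz
      obtain ⟨j, j1, j2, j3⟩ := hz
      exact ⟨j - i, by omega, by omega, by rw [show i + (j - i) = j by omega]; exact j3⟩
    refine ll5_61 hC hCr hA ?_ ?_ ?_ ?_ ?_ ?_ ?_ ?_ (hnC _) (hnC _) (hnC _) ?_ ?_ ?_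
    · exact cf_adj hx hq (i + 1)
    · have := cf_adj hx hq (i + (x.length - 3))
      rwa [show i + (x.length - 3) + 1 = i + (x.length - 2) by omega] at this
    · have := cf_adj hx hq (i + (x.length - 2))
      rwa [show i + (x.length - 2) + 1 = i + (x.length - 1) by omega] at this
    · exact far49 hx hq i (s := 1) (t := x.length - 2) (by omega) (by omega)
    · exact far49 hx hq i (s := 1) (t := x.length - 1) (by omega) (by omega)
    · intro h
      obtain ⟨j, j1, j2, j3⟩ := hmem _ h
      exact far49 hx hq i (s := 1) (t := j) (by omega) (by omega) j3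
    · intro h
      obtain ⟨j, j1, j2, j3⟩ := hmem _ h
      exact far49 hx hq i (s := j) (t := x.length - 2) (by omega) (by omega) j3.symm
    · intro h
      obtain ⟨j, j1, j2, j3⟩ := hmem _ h
      exact far49 hx hq i (s := j) (t := x.length - 1) (by omega) (by omega) j3.symm
    · intro z hz
      obtain ⟨j, _, _, j3⟩ := hmem z hz
      rw [j3]; exact hnC _
    · rw [seg_length]; omega
    · refine noShort_two61 hno ?_ ?_
      · intro z hz
        rw [Finset.mem_insert, Finset.mem_insert, Finset.mem_insert, Finset.mem_union,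
          List.mem_toFinset] at hz
        rcases hz with h | h | h | h | h
        · rw [h]; exact Finset.mem_union_right _ (hin _)
        · rw [h]; exact Finset.mem_union_right _ (hin _)
        · rw [h]; exact Finset.mem_union_right _ (hin _)
        · obtain ⟨j, _, _, j3⟩ := hmem z h
          rw [j3]; exact Finset.mem_union_right _ (hin _)
        · exact Finset.mem_union_left _ h
      · have e1 := Finset.card_insert_le (cf x hq (i + 1)) (insert (cf x hq (i + (x.length - 2)))
          (insert (cf x hq (i + (x.length - 1)))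
          ((seg (cf x hq) (i + 2) (x.length - 5)).toFinset ∪ C)))
        have e2 := Finset.card_insert_le (cf x hq (i + (x.length - 2)))
          (insert (cf x hq (i + (x.length - 1)))
          ((seg (cf x hq) (i + 2) (x.length - 5)).toFinset ∪ C))
        have e2' := Finset.card_insert_le (cf x hq (i + (x.length - 1)))
          ((seg (cf x hq) (i + 2) (x.length - 5)).toFinset ∪ C)
        have e3 := Finset.card_union_le (seg (cf x hq) (i + 2) (x.length - 5)).toFinset C
        have e4 := List.toFinset_card_le (seg (cf x hq) (i + 2) (x.length - 5))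
        rw [seg_length] at e4
        omega
  have hsum := Finset.sum_le_sum fun i (_ : i ∈ Finset.range x.length) => loc i
  have per : ∀ i, dg G C (cf x hq (i + x.length)) = dg G C (cf x hq i) := fun i => by
    rw [cf_add hq i]
  have sh := fun s => shift61 (fun i => dg G C (cf x hq i)) x.length per s
  simp only [Finset.sum_add_distrib, ← Finset.mul_sum, Finset.sum_const, Finset.card_range,
    smul_eq_mul] at hsum
  rw [sh 1, sh (x.length - 1), sh 2, sh (x.length - 3), sh (x.length - 2), sum_cf61 hq hnx,
    hXx] at hsum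
  omega

/-- closed lemma for `r = 4, 5`, one member of length exactly `r` -/
theorem closed61 [DecidableEq V] {r : ℕ} (hr : r = 4 ∨ r = 5) {C X : Finset V} (hC : CycSet G C)
    (hX : CycSet G X) (hCr : C.card = r) (hXr : r < X.card) (hd : Disjoint C X)
    (hno : NoShort G r (r + X.card) (C ∪ X)) :
    3 * eS G C X ≤ 2 * (r * X.card) := by
  rcases hr with rfl | rfl
  · exact closed_four61 hC hX hCr hXr hd hno
  · rcases Nat.lt_or_ge X.card 7 with h | h
    · have hX6 : X.card = 5 + 1 := by omega
      rw [hX6] at hno ⊢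
      exact closed99 (by norm_num) hC hX hCr hX6 hd hno
    · exact closed_five61 hC hX hCr h hd hno

end Pool.Agent.P0
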