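import Mathlib

set_option linter.all false

/-!
# P0, row I3, pure half (proof of helper41): a cyclic 0-1 sequence

`P` a set of residues modulo `N` such that `n, n + 3r + 1, m, m + 2r + 1` are never all in `P` when
`m = n + d`, `1 ≤ d ≤ r - 1`.  Then `|P| (5r + 6) ≤ N (3r + 6)`.
-/

namespace Pool.Agent.P0.Closed99

theorem bool_core : ∀ p0 p1 p2 p21 p31 p41 s0 s1 s2 t : Bool,
    (s0 && p0 && p21) = false → (s1 && p1 && p31) = false → (s2 && p2 && p41) = false →
    (p1 && p41 && !t && !s2) = false →
    p0.toNat + p1.toNat + (if s0 then p21.toNat else p2.toNat) + p31.toNat + p41.toNat ≤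
      3 + (p1 && p41 && !s1).toNat + (p1 && p41 && t).toNat + (p0 && p31 && !s0).toNat := by
  decide +kernel

variable {N : ℕ} [NeZero N]

section

variable (r : ℕ) (P : ZMod N → Prop)

/-- both ends of a long pair -/
def rho (n : ZMod N) : Prop := P n ∧ P (n + 3 * r + 1)

/-- shortly after an element of `rho` -/
def star (n : ZMod N) : Prop := ∃ d : ℕ, 1 ≤ d ∧ d + 1 ≤ r ∧ rho r P (n - d)

def head (n : ZMod N) : Prop := rho r P n ∧ ¬ star r P n

def tail (n : ZMod N) : Prop := rho r P n ∧ ∀ d : ℕ, 1 ≤ d → d + 1 ≤ r → ¬ rho r P (n + d)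

/-- the hypothesis -/
def Hyp : Prop := ∀ (n : ZMod N) (d : ℕ), 1 ≤ d → d + 1 ≤ r →
  ¬ (P n ∧ P (n + 3 * r + 1) ∧ P (n + d) ∧ P (n + d + 2 * r + 1))

end

variable {r : ℕ} {P : ZMod N → Prop}

theorem Hyp.star (h : Hyp r P) {m : ZMod N} (hm : star r P m) : ¬ (P m ∧ P (m + 2 * r + 1)) := by
  rintro ⟨h1, h2⟩
  obtain ⟨d, d1, d2, d3, d4⟩ := hm
  apply h (m - d) d d1 d2
  rw [sub_add_cancel]
  exact ⟨d3, d4, h1, h2⟩

open Classical in
/-- indicator -/
noncomputable def ii (Q : ZMod N → Prop) (n : ZMod N) : ℕ := if Q n then 1 else 0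

open Classical in
theorem sum_ii (Q : ZMod N → Prop) :
    ∑ n, ii Q n = (Finset.univ.filter fun n => Q n).card := by
  unfold ii
  rw [Finset.card_filter]

theorem sum_shift (f : ZMod N → ℕ) (a : ZMod N) : ∑ n, f (n + a) = ∑ n, f n :=
  Fintype.sum_equiv (Equiv.addRight a) _ _ fun _ => rfl

theorem ii_le (Q : ZMod N → Prop) (n : ZMod N) : ii Q n ≤ 1 := by
  classical
  unfold ii; split_ifs <;> simp

theorem ii_eq (Q : ZMod N → Prop) (n : ZMod N) [Decidable (Q n)] :
    ii Q n = (decide (Q n)).toNat := by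
  unfold ii
  by_cases h : Q n <;> simp [h]

open Classical in
/-- the pointwise inequality -/
theorem pointwise (h : Hyp r P) (n : ZMod N) :
    ii P n + ii P (n + r) + (if star r P n then ii P (n + 2 * r + 1) else ii P (n + 2 * r)) +
      ii P (n + 3 * r + 1) + ii P (n + 4 * r + 1) ≤
    3 + ii (head r P) (n + r) + ii (tail r P) (n + r) + ii (head r P) n := by
  classical
  have e1 : n + r + 2 * r + 1 = n + 3 * (r : ZMod N) + 1 := by ring
  have e2 : n + r + 3 * r + 1 = n + 4 * (r : ZMod N) + 1 := by ring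
  have e3 : n + 2 * r + 2 * r + 1 = n + 4 * (r : ZMod N) + 1 := by ring
  have key := bool_core (decide (P n)) (decide (P (n + r))) (decide (P (n + 2 * r)))
    (decide (P (n + 2 * r + 1))) (decide (P (n + 3 * r + 1))) (decide (P (n + 4 * r + 1)))
    (decide (star r P n)) (decide (star r P (n + r))) (decide (star r P (n + 2 * r)))
    (decide (tail r P (n + r))) ?_ ?_ ?_ ?_
  · have hh1 : ii (head r P) (n + r) = (decide (P (n + r)) && decide (P (n + 4 * r + 1)) &&
        !decide (star r P (n + r))).toNat := by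
      rw [ii_eq]
      congr 1
      unfold head rho
      rw [e2]
      by_cases a1 : P (n + r) <;> by_cases a2 : P (n + 4 * r + 1) <;>
        by_cases a3 : star r P (n + r) <;> simp [a1, a2, a3]
    have hh2 : ii (tail r P) (n + r) = (decide (P (n + r)) && decide (P (n + 4 * r + 1)) &&
        decide (tail r P (n + r))).toNat := by
      rw [ii_eq]
      congr 1
      by_cases a3 : tail r P (n + r)
      · have a4 := a3.1
        unfold rho at a4
        rw [e2] at a4
        simp [a3, a4.1, a4.2]
      · simp [a3]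
    have hh3 : ii (head r P) n = (decide (P n) && decide (P (n + 3 * r + 1)) &&
        !decide (star r P n)).toNat := by
      rw [ii_eq]
      congr 1
      unfold head rho
      by_cases a1 : P n <;> by_cases a2 : P (n + 3 * r + 1) <;>
        by_cases a3 : star r P n <;> simp [a1, a2, a3]
    rw [hh1, hh2, hh3, ii_eq P n, ii_eq P (n + r), ii_eq P (n + 2 * r + 1), ii_eq P (n + 2 * r),
      ii_eq P (n + 3 * r + 1), ii_eq P (n + 4 * r + 1)]
    simp only [decide_eq_true_eq] at key
    exact key
  · by_contra hc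
    rw [Bool.not_eq_false] at hc
    simp only [Bool.and_eq_true, decide_eq_true_eq] at hc
    exact h.star hc.1.1 ⟨hc.1.2, hc.2⟩
  · by_contra hc
    rw [Bool.not_eq_false] at hc
    simp only [Bool.and_eq_true, decide_eq_true_eq] at hc
    have := h.star hc.1.1
    rw [e1] at this
    exact this ⟨hc.1.2, hc.2⟩
  · by_contra hc
    rw [Bool.not_eq_false] at hc
    simp only [Bool.and_eq_true, decide_eq_true_eq] at hc
    have := h.star hc.1.1
    rw [e3] at this
    exact this ⟨hc.1.2, hc.2⟩
  · by_contra hc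
    rw [Bool.not_eq_false] at hc
    simp only [Bool.and_eq_true, decide_eq_true_eq, Bool.not_eq_true', decide_eq_false_iff_not]
      at hc
    obtain ⟨⟨⟨c1, c2⟩, c3⟩, c4⟩ := hc
    have c5 : rho r P (n + r) := ⟨c1, by rw [e2]; exact c2⟩
    apply c3
    refine ⟨c5, fun d d1 d2 hd => c4 ⟨r - d, by omega, by omega, ?_⟩⟩
    have e4 : n + 2 * r - ((r - d : ℕ) : ZMod N) = n + r + d := by
      rw [Nat.cast_sub (by omega)]; ring
    rw [e4]
    exact hd

/-- the shifted sum -/
theorem sum_z (r : ℕ) (P : ZMod N → Prop) [DecidablePred (star r P)] :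
    ∑ n, ii P n ≤ ∑ n, (if star r P n then ii P (n + 2 * r + 1) else ii P (n + 2 * r)) +
      ∑ n, ii (head r P) n := by
  classical
  have h1 : ∑ n, (if star r P n then ii P (n + 2 * r + 1) else ii P (n + 2 * r)) =
      ∑ n, ii (star r P) n * ii P (n + 2 * r + 1) +
        ∑ n, (1 - ii (star r P) n) * ii P (n + 2 * r) := by
    rw [← Finset.sum_add_distrib]
    refine Finset.sum_congr rfl fun n _ => ?_
    by_cases hs : star r P n
    · simp [ii, hs]
    · simp [ii, hs]
  have h2 : ∑ n : ZMod N, ii (star r P) n * ii P (n + 2 * (r : ZMod N) + 1) =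
      ∑ n : ZMod N, ii (star r P) (n - 1) * ii P (n + 2 * (r : ZMod N)) := by
    refine (Finset.sum_congr rfl fun n _ => ?_).trans
      (sum_shift (fun n : ZMod N => ii (star r P) (n - 1) * ii P (n + 2 * (r : ZMod N))) 1)
    rw [add_sub_cancel_right, show n + 1 + 2 * (r : ZMod N) = n + 2 * (r : ZMod N) + 1 by ring]
  have h3 : ∑ n : ZMod N, ii P n = ∑ n : ZMod N, ii P (n + 2 * (r : ZMod N)) :=
    (sum_shift (ii P) (2 * (r : ZMod N))).symm
  have h4 : ∑ n : ZMod N, ii (head r P) n = ∑ n : ZMod N, ii (head r P) (n - 1) := by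
    refine ((Finset.sum_congr rfl fun n _ => ?_).trans
      (sum_shift (ii (head r P)) (-1))).symm
    rw [sub_eq_add_neg]
  rw [h1, h2, h3, h4, ← Finset.sum_add_distrib, ← Finset.sum_add_distrib]
  refine Finset.sum_le_sum fun n _ => ?_
  have l1 := ii_le P (n + 2 * r)
  -- a start of a run comes after a head
  have l2 : ii (star r P) n ≤ ii (star r P) (n - 1) + ii (head r P) (n - 1) := by
    by_cases s0 : star r P n
    · by_cases s1 : star r P (n - 1)
      · simp [ii, s0, s1]
      · have s2 : head r P (n - 1) := by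
          obtain ⟨d, d1, d2, d3⟩ := s0
          rcases Nat.lt_or_ge 1 d with hd | hd
          · exfalso
            apply s1
            refine ⟨d - 1, by omega, by omega, ?_⟩
            rw [show n - 1 - ((d - 1 : ℕ) : ZMod N) = n - d by
              rw [Nat.cast_sub (by omega)]; push_cast; ring]
            exact d3
          · have hd1 : d = 1 := by omega
            rw [hd1, Nat.cast_one] at d3
            exact ⟨d3, s1⟩
        simp [ii, s0, s1, s2]
    · simp [ii, s0]
  have l3 := ii_le (star r P) n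
  have l4 := ii_le (star r P) (n - 1)
  have l5 := ii_le (head r P) (n - 1)
  interval_cases x1 : ii P (n + 2 * r) <;> interval_cases x2 : ii (star r P) n <;>
    interval_cases x3 : ii (star r P) (n - 1) <;> interval_cases x4 : ii (head r P) (n - 1) <;>
    omega

/-- inequality (2) -/
theorem ineq2 (h : Hyp r P) :
    5 * ∑ n, ii P n ≤ 3 * N + 3 * ∑ n, ii (head r P) n + ∑ n, ii (tail r P) n := by
  classical
  have h1 := Finset.sum_le_sum fun (n : ZMod N) (_ : n ∈ Finset.univ) => pointwise h n
  simp only [Finset.sum_add_distrib] at h1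
  rw [sum_shift (ii P) r, sum_shift (ii (head r P)) r, sum_shift (ii (tail r P)) r] at h1
  have h2 : ∑ n, ii P (n + 3 * r + 1) = ∑ n, ii P n := by
    rw [← sum_shift (ii P) (3 * r + 1)]
    exact Finset.sum_congr rfl fun n _ => by rw [add_assoc]
  have h3 : ∑ n, ii P (n + 4 * r + 1) = ∑ n, ii P n := by
    rw [← sum_shift (ii P) (4 * r + 1)]
    exact Finset.sum_congr rfl fun n _ => by rw [add_assoc]
  rw [h2, h3] at h1
  have h4 := sum_z r P
  have h5 : ∑ _n : ZMod N, 3 = 3 * N := by
    rw [Finset.sum_const, Finset.card_univ, ZMod.card, smul_eq_mul, mul_comm]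
  rw [h5] at h1
  omega

/-- inequality (1), with a set `K` of distinguished elements of `rho` and a window of length
`r - 2` outside a translate of `rho` -/
theorem ineq1 (h : Hyp r P) (hr : 2 ≤ r) (K : ZMod N → Prop) (e : ZMod N)
    (he : ∀ n, rho r P n → star r P (n + e))
    (w : ℕ → ZMod N) (hw : ∀ n, K n → ∀ j < r - 2, star r P (n + w j) ∧
      ¬ rho r P (n + w j - e))
    (hinj : ∀ n n', K n → K n' → ∀ j < r - 2, ∀ j' < r - 2, n + w j = n' + w j' → n = n' ∧ j = j') :
    4 * ∑ n, ii P n + (∑ n, ii K n) * (r - 2) ≤ 3 * N := by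
  classical
  set R := Finset.univ.filter fun n => rho r P n with hR
  set S := Finset.univ.filter fun n => star r P n with hS
  set M := Finset.univ.filter fun n : ZMod N => P n ∧ P (n + 2 * r + 1) with hM
  set KK := Finset.univ.filter fun n => K n with hKK
  set x := ∑ n, ii P n with hx
  -- pairs
  have pairs : ∀ c : ZMod N, 2 * x ≤ N + (Finset.univ.filter fun n => P n ∧ P (n + c)).card := by
    intro c
    have h1 : ∑ n, (ii P n + ii P (n + c)) ≤ ∑ n : ZMod N, (1 + ii (fun n => P n ∧ P (n + c)) n) := by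
      refine Finset.sum_le_sum fun n _ => ?_
      by_cases a1 : P n <;> by_cases a2 : P (n + c) <;> simp [ii, a1, a2]
    have h2 : ∑ n, ii (fun n => P n ∧ P (n + c)) n =
        (Finset.univ.filter fun n => P n ∧ P (n + c)).card := by
      rw [Finset.card_filter]
      refine Finset.sum_congr rfl fun n _ => ?_
      unfold ii
      by_cases a1 : P n ∧ P (n + c)
      · rw [if_pos a1, if_pos a1]
      · rw [if_neg a1, if_neg a1]
    rw [Finset.sum_add_distrib, Finset.sum_add_distrib, sum_shift (ii P) c, h2] at h1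
    simp only [Finset.sum_const, Finset.card_univ, ZMod.card, smul_eq_mul, mul_one] at h1
    omega
  have hR2 : 2 * x ≤ N + R.card := by
    have := pairs (3 * r + 1)
    refine this.trans (le_of_eq ?_)
    congr 2
    rw [hR]
    ext n
    simp only [Finset.mem_filter, Finset.mem_univ, true_and, rho, add_assoc]
  have hM2 : 2 * x ≤ N + M.card := by
    have := pairs (2 * r + 1)
    refine this.trans (le_of_eq ?_)
    congr 2
    rw [hM]
    ext n
    simp only [Finset.mem_filter, Finset.mem_univ, true_and, add_assoc]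
  have hMS : M.card + S.card ≤ N := by
    have hd : Disjoint M S := by
      rw [Finset.disjoint_left]
      intro n h1 h2
      rw [hM, Finset.mem_filter] at h1
      rw [hS, Finset.mem_filter] at h2
      exact h.star h2.2 h1.2
    rw [← Finset.card_union_of_disjoint hd]
    calc (M ∪ S).card ≤ (Finset.univ : Finset (ZMod N)).card := Finset.card_le_univ _
      _ = N := by rw [Finset.card_univ, ZMod.card]
  have hSR : R.card + KK.card * (r - 2) ≤ S.card := by
    set A := R.image fun n => n + e with hA
    set B := (KK ×ˢ Finset.range (r - 2)).image fun z => z.1 + w z.2 with hB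
    have hAc : A.card = R.card := Finset.card_image_of_injective _ (add_left_injective e)
    have hBc : B.card = KK.card * (r - 2) := by
      rw [hB, Finset.card_image_of_injOn, Finset.card_product, Finset.card_range]
      rintro ⟨n, j⟩ hz ⟨n', j'⟩ hz' heq
      rw [Finset.mem_coe, Finset.mem_product, Finset.mem_range, hKK, Finset.mem_filter] at hz hz'
      obtain ⟨q1, q2⟩ := hinj n n' hz.1.2 hz'.1.2 j hz.2 j' hz'.2 heq
      rw [q1, q2]
    have hAB : Disjoint A B := by
      rw [Finset.disjoint_left]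
      intro m h1 h2
      obtain ⟨n, hn, rfl⟩ := Finset.mem_image.1 h1
      obtain ⟨⟨n', j⟩, hz, hzz⟩ := Finset.mem_image.1 h2
      rw [Finset.mem_product, Finset.mem_range, hKK, Finset.mem_filter] at hz
      rw [hR, Finset.mem_filter] at hn
      apply (hw n' hz.1.2 j hz.2).2
      simp only at hzz
      rw [hzz, add_sub_cancel_right]
      exact hn.2
    rw [← hAc, ← hBc, ← Finset.card_union_of_disjoint hAB]
    apply Finset.card_le_card
    intro m hm
    rw [hS, Finset.mem_filter]
    refine ⟨Finset.mem_univ _, ?_⟩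
    rcases Finset.mem_union.1 hm with h1 | h1
    · obtain ⟨n, hn, rfl⟩ := Finset.mem_image.1 h1
      rw [hR, Finset.mem_filter] at hn
      exact he n hn.2
    · obtain ⟨⟨n', j⟩, hz, rfl⟩ := Finset.mem_image.1 h1
      rw [Finset.mem_product, Finset.mem_range, hKK, Finset.mem_filter] at hz
      exact (hw n' hz.1.2 j hz.2).1
  have hK : ∑ n, ii K n = KK.card := sum_ii K
  rw [hK]
  omega

/-- inequality (1) for the tails -/
theorem ineq1_tail (h : Hyp r P) (hr : 2 ≤ r) :
    4 * ∑ n, ii P n + (∑ n, ii (tail r P) n) * (r - 2) ≤ 3 * N := by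
  refine ineq1 h hr _ 1 ?_ (fun j => ((j + 2 : ℕ) : ZMod N)) ?_ ?_
  · intro n hn
    refine ⟨1, le_rfl, by omega, ?_⟩
    rw [Nat.cast_one, add_sub_cancel_right]
    exact hn
  · intro n hn j hj
    refine ⟨⟨j + 2, by omega, by omega, ?_⟩, ?_⟩
    · rw [add_sub_cancel_right]; exact hn.1
    · have e : n + ((j + 2 : ℕ) : ZMod N) - 1 = n + ((j + 1 : ℕ) : ZMod N) := by push_cast; ring
      rw [e]
      exact hn.2 (j + 1) (by omega) (by omega)
  · intro n n' hn hn' j hj j' hj' heq
    rcases lt_trichotomy j j' with hlt | heq' | hlt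
    · exfalso
      apply hn'.2 (j' - j) (by omega) (by omega)
      have e : n' + ((j' - j : ℕ) : ZMod N) = n := by
        rw [Nat.cast_sub hlt.le]
        push_cast at heq
        linear_combination -heq
      rw [e]; exact hn.1
    · subst heq'
      exact ⟨add_right_cancel heq, rfl⟩
    · exfalso
      apply hn.2 (j - j') (by omega) (by omega)
      have e : n + ((j - j' : ℕ) : ZMod N) = n' := by
        rw [Nat.cast_sub hlt.le]
        push_cast at heq
        linear_combination heq
      rw [e]; exact hn'.1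

/-- inequality (1) for the heads -/
theorem ineq1_head (h : Hyp r P) (hr : 2 ≤ r) :
    4 * ∑ n, ii P n + (∑ n, ii (head r P) n) * (r - 2) ≤ 3 * N := by
  refine ineq1 h hr _ ((r - 1 : ℕ) : ZMod N) ?_ (fun j => ((j + 1 : ℕ) : ZMod N)) ?_ ?_
  · intro n hn
    refine ⟨r - 1, by omega, by omega, ?_⟩
    rw [add_sub_cancel_right]
    exact hn
  · intro n hn j hj
    refine ⟨⟨j + 1, by omega, by omega, ?_⟩, ?_⟩
    · rw [add_sub_cancel_right]; exact hn.1
    · intro hrho
      apply hn.2
      refine ⟨r - 2 - j, by omega, by omega, ?_⟩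
      have e : n + ((j + 1 : ℕ) : ZMod N) - ((r - 1 : ℕ) : ZMod N) =
          n - ((r - 2 - j : ℕ) : ZMod N) := by
        have e1 : ((r - 1 : ℕ) : ZMod N) = ((r - 2 - j : ℕ) : ZMod N) + ((j + 1 : ℕ) : ZMod N) := by
          rw [← Nat.cast_add]; congr 1; omega
        rw [e1]; ring
      rw [e] at hrho
      exact hrho
  · intro n n' hn hn' j hj j' hj' heq
    rcases lt_trichotomy j j' with hlt | heq' | hlt
    · exfalso
      apply hn.2
      refine ⟨j' - j, by omega, by omega, ?_⟩
      have e : n - ((j' - j : ℕ) : ZMod N) = n' := by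
        rw [Nat.cast_sub hlt.le]
        push_cast at heq
        linear_combination heq
      rw [e]; exact hn'.1
    · subst heq'
      exact ⟨add_right_cancel heq, rfl⟩
    · exfalso
      apply hn'.2
      refine ⟨j - j', by omega, by omega, ?_⟩
      have e : n' - ((j - j' : ℕ) : ZMod N) = n := by
        rw [Nat.cast_sub hlt.le]
        push_cast at heq
        linear_combination -heq
      rw [e]; exact hn.1

/-- **main inequality** -/
theorem main_ineq (h : Hyp r P) (hr : 2 ≤ r) :
    (∑ n, ii P n) * (5 * r + 6) ≤ N * (3 * r + 6) := by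
  have h1 := ineq1_tail h hr
  have h2 := ineq1_head h hr
  have h3 := ineq2 h
  obtain ⟨s, rfl⟩ := Nat.exists_eq_add_of_le hr
  have e : 2 + s - 2 = s := by omega
  rw [e] at h1 h2
  have h4 := Nat.mul_le_mul_right s h3
  nlinarith

/-- `N = r (r + 1)` -/
theorem two_thirds (h : Hyp r P) (hr : 3 ≤ r) (hN : N = r * (r + 1)) :
    3 * ∑ n, ii P n ≤ 2 * N := by
  have h1 := main_ineq h (by omega)
  rcases Nat.lt_or_ge r 6 with h6 | h6
  · have hr' : r = 3 ∨ r = 4 ∨ r = 5 := by omega
    rcases hr' with rfl | rfl | rfl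
    · have hN' : N = 12 := hN
      omega
    · have hN' : N = 20 := hN
      omega
    · have hN' : N = 30 := hN
      omega
  · by_contra hcon
    push Not at hcon
    have h2 : 2 * N * (5 * r + 6) < 3 * (∑ n, ii P n) * (5 * r + 6) :=
      Nat.mul_lt_mul_of_pos_right hcon (by omega)
    have h3 : 0 < N := NeZero.pos N
    nlinarith

end Pool.Agent.P0.Closed99
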