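import Pool.Agent.P0.Closed61

set_option linter.all false

/-!
# P0, row I3: the closed lemma for `|C| = r`, every `|X| ≥ r + 1`, every `r ≥ 4`
-/

namespace Pool.Agent.P0.Closed99

open Pool.Agent.Helper14.LongCyc Pool.Agent.LCK Pool.Agent.P0

universe u

variable {V : Type u} {G : SimpleGraph V}

/-- closed lemma, `r ≥ 6`, `|X| ≥ r + 2` -/
theorem closed_long99 [DecidableEq V] {r : ℕ} (hr : 6 ≤ r) {C X : Finset V} (hC : CycSet G C)
    (hX : CycSet G X) (hCr : C.card = r) (hXr : r + 2 ≤ X.card) (hd : Disjoint C X)
    (hno : NoShort G r (r + X.card) (C ∪ X)) :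
    3 * eS G C X ≤ 2 * (r * X.card) := by
  obtain ⟨x, hx, hs'⟩ := hX
  have hnx := Cyc.nodup hx
  have hcard' := card_of_list hnx hs'
  have hXx : x.toFinset = X := by
    ext z; rw [List.mem_toFinset]; exact hs' z
  have hq : 0 < x.length := by omega
  rw [hcard'] at hXr hno ⊢
  have hin : ∀ i, cf x hq i ∈ X := fun i => (hs' _).1 (cf_mem hq i)
  have hnC : ∀ i, cf x hq i ∉ C := fun i h => Finset.disjoint_left.1 hd h (hin i)
  have loc : ∀ i, 2 * (dg G C (cf x hq (i + 1)) + dg G C (cf x hq (i + (x.length - 1))))
      + dg G C (cf x hq (i + 2)) + dg G C (cf x hq (i + (x.length - 2))) ≤ 4 * r := by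
    intro i
    have hA := arc_pth hx hq (x.length - 4) (i + 2) (by omega)
    rw [show i + 2 + (x.length - 4) = i + (x.length - 2) by omega] at hA
    have hmem : ∀ z ∈ seg (cf x hq) (i + 2) (x.length - 4),
        ∃ j, 2 ≤ j ∧ j ≤ x.length - 2 ∧ z = cf x hq (i + j) := by
      intro z hz
      rw [mem_seg] at hz
      obtain ⟨j, j1, j2, j3⟩ := hz
      exact ⟨j - i, by omega, by omega, by rw [show i + (j - i) = j by omega]; exact j3⟩
    refine llplus49 hr hC hCr hA ?_ ?_ ?_ ?_ ?_ (hnC _) (hnC _) ?_ ?_ ?_
    · exact cf_adj hx hq (i + 1)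
    · have := cf_adj hx hq (i + (x.length - 2))
      rwa [show i + (x.length - 2) + 1 = i + (x.length - 1) by omega] at this
    · exact far49 hx hq i (s := 1) (t := x.length - 1) (by omega) (by omega)
    · intro h
      obtain ⟨j, j1, j2, j3⟩ := hmem _ h
      exact far49 hx hq i (s := 1) (t := j) (by omega) (by omega) j3
    · intro h
      obtain ⟨j, j1, j2, j3⟩ := hmem _ h
      exact far49 hx hq i (s := j) (t := x.length - 1) (by omega) (by omega) j3.symm
    · intro z hz
      obtain ⟨j, _, _, j3⟩ := hmem z hz
      rw [j3]; exact hnC _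
    · rw [seg_length]; omega
    · refine noShort_two61 hno ?_ ?_
      · intro z hz
        rw [Finset.mem_insert, Finset.mem_insert, Finset.mem_union, List.mem_toFinset] at hz
        rcases hz with h | h | h | h
        · rw [h]; exact Finset.mem_union_right _ (hin _)
        · rw [h]; exact Finset.mem_union_right _ (hin _)
        · obtain ⟨j, _, _, j3⟩ := hmem z h
          rw [j3]; exact Finset.mem_union_right _ (hin _)
        · exact Finset.mem_union_left _ h
      · have e1 := Finset.card_insert_le (cf x hq (i + 1)) (insert (cf x hq (i + (x.length - 1)))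
          ((seg (cf x hq) (i + 2) (x.length - 4)).toFinset ∪ C))
        have e2 := Finset.card_insert_le (cf x hq (i + (x.length - 1)))
          ((seg (cf x hq) (i + 2) (x.length - 4)).toFinset ∪ C)
        have e3 := Finset.card_union_le (seg (cf x hq) (i + 2) (x.length - 4)).toFinset C
        have e4 := List.toFinset_card_le (seg (cf x hq) (i + 2) (x.length - 4))
        rw [seg_length] at e4
        omega
  have hsum := Finset.sum_le_sum fun i (_ : i ∈ Finset.range x.length) => loc i
  have per : ∀ i, dg G C (cf x hq (i + x.length)) = dg G C (cf x hq i) := fun i => by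
    rw [cf_add hq i]
  have sh := fun s => shift61 (fun i => dg G C (cf x hq i)) x.length per s
  simp only [Finset.sum_add_distrib, ← Finset.mul_sum, Finset.sum_const, Finset.card_range,
    smul_eq_mul] at hsum
  rw [sh 1, sh (x.length - 1), sh 2, sh (x.length - 2), sum_cf61 hq hnx, hXx] at hsum
  rw [mul_comm x.length r] at hsum
  omega

/-- **the closed lemma for `|C| = r`** -/
theorem closed_r99 [DecidableEq V] {r : ℕ} (hr : 4 ≤ r) {C X : Finset V} (hC : CycSet G C)
    (hX : CycSet G X) (hCr : C.card = r) (hXr : r < X.card) (hd : Disjoint C X)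
    (hno : NoShort G r (r + X.card) (C ∪ X)) :
    3 * eS G C X ≤ 2 * (r * X.card) := by
  rcases Nat.lt_or_ge r 6 with h6 | h6
  · exact closed61 (by omega) hC hX hCr hXr hd hno
  · rcases Nat.lt_or_ge X.card (r + 2) with h | h
    · have hXe : X.card = r + 1 := by omega
      have h1 := closed99 (by omega) hC hX hCr hXe hd (by
        rw [hXe, show r + (r + 1) = 2 * r + 1 by ring] at hno
        exact hno)
      rw [hXe]
      exact h1
    · exact closed_long99 h6 hC hX hCr h hd hno

end Pool.Agent.P0.Closed99
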