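import Mathlib

set_option linter.all false

/-!
# P0, row I6 (5): the interval lemma in `ZMod L`
-/

namespace Pool.Agent.P0

/-- a nonempty set closed under `+ 1` is everything -/
theorem closed33 {L : ℕ} [NeZero L] {T : Finset (ZMod L)} (hT : T.Nonempty)
    (h : ∀ x ∈ T, x + 1 ∈ T) : T = Finset.univ := by
  obtain ⟨x, hx⟩ := hT
  have h1 : ∀ n : ℕ, x + (n : ZMod L) ∈ T := by
    intro n
    induction n with
    | zero => simpa using hx
    | succ n ih =>
      have := h _ ih
      push_cast
      rwa [← add_assoc]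
  ext y
  simp only [Finset.mem_univ, iff_true]
  have h2 := h1 (y - x).val
  rw [ZMod.natCast_zmod_val] at h2
  simpa using h2

/-- the sumset with an interval grows -/
theorem grow33 {L : ℕ} [NeZero L] (A : Finset (ZMod L)) (hA : A.Nonempty) (j : ℕ) :
    ∀ s : ℕ, ∃ T : Finset (ZMod L), T.Nonempty ∧
      (∀ x ∈ T, ∃ a ∈ A, ∃ t : ℕ, j ≤ t ∧ t ≤ j + s ∧ x = a + (t : ZMod L)) ∧
      (L ≤ T.card ∨ A.card + s ≤ T.card) := by
  classical
  intro s
  induction s with
  | zero =>
    refine ⟨A.image (fun a => a + (j : ZMod L)), hA.image _, ?_, Or.inr ?_⟩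
    · intro x hx
      obtain ⟨a, ha, rfl⟩ := Finset.mem_image.1 hx
      exact ⟨a, ha, j, le_rfl, by omega, rfl⟩
    · rw [Finset.card_image_of_injective _ (add_left_injective _)]
      omega
  | succ s ih =>
    obtain ⟨T, h1, h2, h3⟩ := ih
    refine ⟨T ∪ T.image (fun x => x + 1), h1.mono Finset.subset_union_left, ?_, ?_⟩
    · intro x hx
      rcases Finset.mem_union.1 hx with hx | hx
      · obtain ⟨a, ha, t, ht, ht', rfl⟩ := h2 x hx
        exact ⟨a, ha, t, ht, by omega, rfl⟩
      · obtain ⟨y, hy, rfl⟩ := Finset.mem_image.1 hx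
        obtain ⟨a, ha, t, ht, ht', rfl⟩ := h2 y hy
        exact ⟨a, ha, t + 1, by omega, by omega, by push_cast; ring⟩
    · rcases h3 with h3 | h3
      · left
        exact h3.trans (Finset.card_le_card Finset.subset_union_left)
      · by_cases hcl : ∀ x ∈ T, x + 1 ∈ T
        · left
          have h4 := closed33 h1 hcl
          have h5 : T.card = L := by rw [h4, Finset.card_univ, ZMod.card]
          exact h5.symm.le.trans (Finset.card_le_card Finset.subset_union_left)
        · right
          push Not at hcl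
          obtain ⟨x, hx, hx'⟩ := hcl
          have h4 : insert (x + 1) T ⊆ T ∪ T.image (fun x => x + 1) := by
            intro z hz
            rcases Finset.mem_insert.1 hz with hz | hz
            · rw [hz]
              exact Finset.mem_union_right _ (Finset.mem_image.2 ⟨x, hx, rfl⟩)
            · exact Finset.mem_union_left _ hz
          have h5 := Finset.card_le_card h4
          rw [Finset.card_insert_of_notMem hx'] at h5
          omega

/-- **interval lemma** -/
theorem interval13 {L : ℕ} [NeZero L] (A B : Finset (ZMod L)) (hA : A.Nonempty) (hB : B.Nonempty)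
    (j : ℕ) (hj : 2 * j ≤ L)
    (h : ∀ a ∈ A, ∀ b ∈ B, ∀ t : ℕ, j ≤ t → t + j ≤ L → b ≠ a + (t : ZMod L)) :
    A.card + B.card ≤ 2 * j := by
  classical
  obtain ⟨T, h1, h2, h3⟩ := grow33 A hA j (L - 2 * j)
  have hd : Disjoint T B := by
    rw [Finset.disjoint_left]
    intro x hx hx'
    obtain ⟨a, ha, t, ht, ht', h4⟩ := h2 x hx
    exact h a ha x hx' t ht (by omega) h4
  have h4 : T.card + B.card ≤ L := by
    rw [← Finset.card_union_of_disjoint hd]
    calc (T ∪ B).card ≤ (Finset.univ : Finset (ZMod L)).card := Finset.card_le_univ _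
      _ = L := by rw [Finset.card_univ, ZMod.card]
  have h5 : 0 < B.card := Finset.card_pos.2 hB
  omega

end Pool.Agent.P0
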