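import Pool.Agent.P0.Arc13
import Pool.Agent.P0.Int33

set_option linter.all false

/-!
# P0, row I6: bounds for the number of edges between `K` and a member
-/

namespace Pool.Agent.P0

open Pool.Agent.Helper14.LongCyc Pool.Agent.LCK

universe u

variable {V : Type u} {G : SimpleGraph V}

/-- pairwise bounds give a bound for the sum -/
theorem sum_pair13 {α : Type*} [DecidableEq α] (K : Finset α) (f : α → ℕ) (B M : ℕ)
    (hp : ∀ u ∈ K, ∀ u' ∈ K, u ≠ u' → 0 < f u → 0 < f u' → f u + f u' ≤ 2 * B)
    (hM : ∀ u ∈ K, f u ≤ M) : ∑ u ∈ K, f u ≤ K.card * B ∨ ∑ u ∈ K, f u ≤ M := by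
  classical
  set S := K.filter fun u => 0 < f u with hS
  have hsum : ∑ u ∈ K, f u = ∑ u ∈ S, f u := by
    rw [hS, Finset.sum_filter]
    refine Finset.sum_congr rfl fun u _ => ?_
    by_cases h : 0 < f u
    · rw [if_pos h]
    · rw [if_neg h]; omega
  have hSK : S.card ≤ K.card := Finset.card_filter_le _ _
  rw [hsum]
  rcases Nat.lt_or_ge S.card 2 with h2 | h2
  · right
    rcases Nat.eq_zero_or_pos S.card with h0 | h0
    · rw [Finset.card_eq_zero.1 h0]; simp
    · obtain ⟨a, ha⟩ := Finset.card_eq_one.1 (by omega : S.card = 1)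
      rw [ha, Finset.sum_singleton]
      have : a ∈ S := by rw [ha]; exact Finset.mem_singleton_self a
      exact hM a (Finset.mem_filter.1 this).1
  · left
    obtain ⟨a, haS, hamax⟩ := Finset.exists_max_image S f (Finset.card_pos.1 (by omega))
    have haK := Finset.mem_filter.1 haS
    have h3 : S.card * B ≤ K.card * B := Nat.mul_le_mul_right B hSK
    refine le_trans ?_ h3
    rcases Nat.lt_or_ge B (f a) with hB | hB
    · have h4 : ∀ u ∈ S.erase a, f u ≤ 2 * B - f a := by
        intro u hu
        rw [Finset.mem_erase] at hu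
        have huK := Finset.mem_filter.1 hu.2
        have := hp u huK.1 a haK.1 hu.1 huK.2 haK.2
        omega
      have h5 := Finset.sum_le_card_nsmul _ _ _ h4
      rw [Finset.card_erase_of_mem haS, smul_eq_mul] at h5
      have h6 := Finset.add_sum_erase S f haS
      have h7 : f a ≤ 2 * B := by
        obtain ⟨b, hb⟩ : (S.erase a).Nonempty :=
          Finset.card_pos.1 (by rw [Finset.card_erase_of_mem haS]; omega)
        rw [Finset.mem_erase] at hb
        have hbK := Finset.mem_filter.1 hb.2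
        have := hp b hbK.1 a haK.1 hb.1 hbK.2 haK.2
        omega
      obtain ⟨e, he⟩ : ∃ e, f a = B + e := ⟨f a - B, by omega⟩
      obtain ⟨s, hs⟩ : ∃ s, S.card = s + 2 := ⟨S.card - 2, by omega⟩
      obtain ⟨d, hd⟩ : ∃ d, B = e + d := ⟨B - e, by omega⟩
      have h8 : 2 * B - f a = d := by omega
      rw [h8, hs, show s + 2 - 1 = s + 1 by omega] at h5
      rw [hs]
      subst hd
      nlinarith
    · have h4 : ∀ u ∈ S, f u ≤ B := fun u hu => (hamax u hu).trans hB
      have h5 := Finset.sum_le_card_nsmul _ _ _ h4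
      rwa [smul_eq_mul] at h5

section

variable {c : List V} (hp : 0 < c.length)

/-- pair bound from a forbidden range of differences -/
theorem pair13 [DecidableEq V] (hc : Cyc G c) {C : Finset V} (hs : ∀ x, x ∈ c ↔ x ∈ C)
    {u u' : V} {j₀ : ℕ} (hj₀ : 2 * j₀ ≤ c.length)
    (hbad : ∀ n j : ℕ, j₀ ≤ j → j + j₀ ≤ c.length → G.Adj u (cf c hp n) →
      G.Adj u' (cf c hp (n + j)) → False)
    (hu : 0 < dg G C u) (hu' : 0 < dg G C u') : dg G C u + dg G C u' ≤ 2 * j₀ := by
  classical
  haveI : NeZero c.length := ⟨by omega⟩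
  have hn := Cyc.nodup hc
  have hcF : c.toFinset = C := by
    ext z; rw [List.mem_toFinset]; exact hs z
  have key : ∀ p : V, (Finset.univ.filter fun i : ZMod c.length => ind49 G c hp p i = 1).card =
      dg G C p := by
    intro p
    rw [← hcF, ← sum_ind49 hp hn p, Finset.card_filter]
    refine Finset.sum_congr rfl fun i _ => ?_
    have := ind_le49 (G := G) hp p i
    by_cases h : ind49 G c hp p i = 1
    · rw [if_pos h, h]
    · rw [if_neg h]; omega
  rw [← key u] at hu ⊢
  rw [← key u'] at hu' ⊢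
  refine interval13 _ _ (Finset.card_pos.1 hu) (Finset.card_pos.1 hu') j₀ hj₀ ?_
  intro a ha b hb t ht1 ht2 hab
  rw [Finset.mem_filter] at ha hb
  have h1 : a = ((a.val : ℕ) : ZMod c.length) := (ZMod.natCast_zmod_val _).symm
  have h2 := (ind_nat49 (G := G) hp a.val h1).1 ha.2
  have h3 := (ind_nat49 (G := G) hp (p := u') (a.val + t) (by
    rw [Nat.cast_add, ← h1, hab])).1 hb.2
  exact hbad _ _ ht1 ht2 h2 h3

end

/-- `K` against `C`, general sum bound -/
theorem DatII.sum_le13 [DecidableEq V] {U : Finset V} {r : ℕ} {F : Finset (Finset V)} {w w' : V}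
    {l : List V} {K : Finset V} (D : DatII G U r F w w' l K) {C : Finset V} (hC : C ∈ F)
    {j₀ M : ℕ} (hj₀ : 2 * j₀ ≤ C.card) (hM : ∀ u ∈ K, dg G C u ≤ M)
    (hbad : ∀ (c : List V) (hp : 0 < c.length), Cyc G c → (∀ x, x ∈ c ↔ x ∈ C) →
      c.length = C.card → ∀ u ∈ K, ∀ u' ∈ K, u ≠ u' → ∀ n j : ℕ, j₀ ≤ j → j < c.length →
      j + j₀ ≤ c.length → G.Adj u (cf c hp n) → G.Adj u' (cf c hp (n + j)) → False) :
    ∑ u ∈ K, dg G C u ≤ K.card * j₀ ∨ ∑ u ∈ K, dg G C u ≤ M := by
  classical
  obtain ⟨c, hc, hs⟩ := D.opt.opt.fam.cyc C hC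
  have hcard := card_of_list (Cyc.nodup hc) hs
  have h3 := hc.1
  have hp : 0 < c.length := by omega
  refine sum_pair13 K _ j₀ M ?_ hM
  intro u hu u' hu' hne h1 h2
  refine pair13 hp hc hs (by omega) ?_ h1 h2
  intro n j hj1 hj2 h4 h5
  rcases Nat.lt_or_ge j c.length with h | h
  · exact hbad c hp hc hs hcard.symm u hu u' hu' hne n j hj1 h hj2 h4 h5
  · have hj : j = c.length := by omega
    have e0 : cf c hp (n + j) = cf c hp (n + 0) := by
      apply cf_congr
      rw [hj, Nat.add_mod_right, Nat.add_zero]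
    rw [e0] at h5
    exact hbad c hp hc hs hcard.symm u hu u' hu' hne n 0 (by omega) hp (by omega) h4 h5

/-- `q ≥ r / 2 + 2` -/
theorem DatII.q_ge [DecidableEq V] {U : Finset V} {r : ℕ} {F : Finset (Finset V)} {w w' : V}
    {l : List V} {K : Finset V} (D : DatII G U r F w w' l K) : r + 4 ≤ 2 * K.card := by
  classical
  obtain ⟨u, hu⟩ : K.Nonempty := Finset.card_pos.1 (by have := D.five; omega)
  have h1 := D.deg u hu
  have h2 := dg_erase_self13 (G := G) K u
  have h3 := dg_le (G := G) (K.erase u) u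
  have h4 := Finset.card_erase_of_mem hu
  omega

/-- the three bounds, `r ≥ 8` -/
theorem DatII.cls [DecidableEq V] {U : Finset V} {r : ℕ} {F : Finset (Finset V)} {w w' : V}
    {l : List V} {K : Finset V} (D : DatII G U r F w w' l K) (hr : 8 ≤ r) {C : Finset V}
    (hC : C ∈ F) {g gs : ℕ} (hg : g + K.card = r) (hgs : gs = max (g - 1) 1) :
    (2 ≤ gs ∨ gs = 1) ∧
    ((dg G C w ≤ r ∧ ∑ u ∈ K, dg G C u ≤ K.card * gs) ∨
    (dg G C w ≤ 4 ∧ ∑ u ∈ K, dg G C u ≤ K.card * max gs 4) ∨
    (dg G C w ≤ 2 ∧ ∑ u ∈ K, dg G C u ≤ K.card * r)) := by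
  classical
  have hq := D.q_ge
  have hlt := D.lt
  have hCr := D.opt.opt.fam.len C hC
  have hKsub : ∀ u ∈ K, u ∈ rest U F := fun u hu => D.sub hu
  have hwr := D.opt.sub w D.opt.path.head_mem
  refine ⟨by omega, ?_⟩
  rcases Nat.lt_or_ge r C.card with hL | hL
  · -- a member longer than `r`
    left
    have hx := D.opt.opt.outside (by omega) hC hL hwr
    refine ⟨by omega, ?_⟩
    have h1 := D.sum_le13 hC (j₀ := g - 1) (M := (r + 1) / 2) (by omega)
      (fun u hu => D.opt.opt.outside (by omega) hC hL (hKsub u hu)) (by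
        intro c hp hc hs hcl u hu u' hu' hne n j hj1 hj2 hj3 h4 h5
        exact D.badC hp hC hc hs (by omega) hr hu hu' hne hj2 (by omega) (by omega) h4 h5)
    rcases h1 with h1 | h1
    · exact h1.trans (Nat.mul_le_mul_left _ (by omega))
    · have : K.card * 1 ≤ K.card * gs := Nat.mul_le_mul_left _ (by omega)
      omega
  · have hCc : C.card = r := le_antisymm hL hCr
    rcases Nat.lt_or_ge (dg G C w) 5 with hx | hx
    · rcases Nat.lt_or_ge (dg G C w) 3 with hx3 | hx3
      · -- `x ≤ 2`
        right; right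
        refine ⟨by omega, ?_⟩
        refine (Finset.sum_le_card_nsmul _ _ r fun u hu => ?_).trans (by rw [smul_eq_mul])
        have := dg_le (G := G) C u
        omega
      · -- `x ∈ {3, 4}`
        right; left
        refine ⟨by omega, ?_⟩
        have h1 := D.sum_le13 hC (j₀ := max (g - 1) 4) (M := r) (by omega)
          (fun u hu => by have := dg_le (G := G) C u; omega) (by
            intro c hp hc hs hcl u hu u' hu' hne n j hj1 hj2 hj3 h4 h5
            exact D.badB hp hC hc hs (by omega) hx3 hu hu' hne (by omega) (by omega) (by omega)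
              (by omega) h4 h5)
        rcases h1 with h1 | h1
        · exact h1.trans (Nat.mul_le_mul_left _ (by omega))
        · have : K.card * 4 ≤ K.card * max gs 4 := Nat.mul_le_mul_left _ (by omega)
          omega
    · -- `x ≥ 5`
      left
      have hxr := dg_le (G := G) C w
      refine ⟨by omega, ?_⟩
      have h1 := D.sum_le13 hC (j₀ := g - 1) (M := r - 3) (by omega)
        (fun u hu => by
          have := D.opt.e1 (by omega) (hKsub u hu) (D.off u hu) hC
          omega) (by
          intro c hp hc hs hcl u hu u' hu' hne n j hj1 hj2 hj3 h4 h5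
          exact D.badA hp hC hc hs (by omega) hr hx hu hu' hne hj2 (by omega) (by omega) h4 h5)
      rcases h1 with h1 | h1
      · exact h1.trans (Nat.mul_le_mul_left _ (by omega))
      · rcases Nat.lt_or_ge g 3 with hg3 | hg3
        · have : K.card * 1 ≤ K.card * gs := Nat.mul_le_mul_left _ (by omega)
          omega
        · have : K.card * 2 ≤ K.card * gs := Nat.mul_le_mul_left _ (by omega)
          omega

end Pool.Agent.P0
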