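import Mathlib

set_option linter.all false

/-!
# P0, row I1 (core): the combinatorial form of the local lemma LL+

The cycle is `ZMod r`.  `a`, `b`, `b'`, `a'` are the adjacency indicators of `p 1`, `p 2`, `p (m-1)`, `p m`.
-/

namespace Pool.Agent.P0

/-- the four moves -/
structure LL49 (r : ℕ) (a b b' a' : ZMod r → ℕ) : Prop where
  ba : ∀ i, a i ≤ 1
  bb : ∀ i, b i ≤ 1
  bb' : ∀ i, b' i ≤ 1
  ba' : ∀ i, a' i ≤ 1
  m1 : ∀ i, a (i - 1) = 1 → a (i + 1) = 1 → b i + a' i ≤ 1 ∧ b i + b' i ≤ 1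
  m1' : ∀ i, a' (i - 1) = 1 → a' (i + 1) = 1 → b' i + a i ≤ 1 ∧ b i + b' i ≤ 1
  m2 : ∀ i j, a (i - 1) = 1 → a (i + 2) = 1 → j ≠ i - 1 → j ≠ i → j ≠ i + 1 →
    a' j = 1 → a' (j + 1) = 1 → (b i = 1 ∨ b (i + 1) = 1) → (b' i = 1 ∨ b' (i + 1) = 1) → False
  m2' : ∀ i j, a' (i - 1) = 1 → a' (i + 2) = 1 → j ≠ i - 1 → j ≠ i → j ≠ i + 1 →
    a j = 1 → a (j + 1) = 1 → (b i = 1 ∨ b (i + 1) = 1) → (b' i = 1 ∨ b' (i + 1) = 1) → False

variable {r : ℕ} {a b b' a' : ZMod r → ℕ}

theorem LL49.swap (D : LL49 r a b b' a') : LL49 r a' b' b a where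
  ba := D.ba'
  bb := D.bb'
  bb' := D.bb
  ba' := D.ba
  m1 := fun i h1 h2 => by
    have := D.m1' i h1 h2
    omega
  m1' := fun i h1 h2 => by
    have := D.m1 i h1 h2
    omega
  m2 := fun i j h1 h2 h3 h4 h5 h6 h7 h8 h9 => D.m2' i j h1 h2 h3 h4 h5 h6 h7 h9 h8
  m2' := fun i j h1 h2 h3 h4 h5 h6 h7 h8 h9 => D.m2 i j h1 h2 h3 h4 h5 h6 h7 h9 h8

theorem LL49.refl (D : LL49 r a b b' a') :
    LL49 r (fun i => a (-i)) (fun i => b (-i)) (fun i => b' (-i)) (fun i => a' (-i)) where
  ba := fun i => D.ba _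
  bb := fun i => D.bb _
  bb' := fun i => D.bb' _
  ba' := fun i => D.ba' _
  m1 := fun i h1 h2 => by
    have e1 : -(i - 1) = -i + 1 := by ring
    have e2 : -(i + 1) = -i - 1 := by ring
    rw [e1] at h1
    rw [e2] at h2
    exact D.m1 (-i) h2 h1
  m1' := fun i h1 h2 => by
    have e1 : -(i - 1) = -i + 1 := by ring
    have e2 : -(i + 1) = -i - 1 := by ring
    rw [e1] at h1
    rw [e2] at h2
    exact D.m1' (-i) h2 h1
  m2 := fun i j h1 h2 h3 h4 h5 h6 h7 h8 h9 => by
    have e1 : -(i - 1) = (-i - 1) + 2 := by ring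
    have e2 : -(i + 2) = (-i - 1) - 1 := by ring
    have e3 : -i = (-i - 1) + 1 := by ring
    have e4 : -(i + 1) = -i - 1 := by ring
    have e5 : -j = (-j - 1) + 1 := by ring
    have e6 : -(j + 1) = -j - 1 := by ring
    rw [e1] at h1
    rw [e2] at h2
    rw [e5] at h6
    rw [e6] at h7
    rw [e3, e4] at h8 h9
    refine D.m2 (-i - 1) (-j - 1) h2 h1 ?_ ?_ ?_ h7 h6 h8.symm h9.symm
    · intro h
      exact h5 (by linear_combination -h)
    · intro h
      exact h4 (by linear_combination -h)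
    · intro h
      exact h3 (by linear_combination -h)
  m2' := fun i j h1 h2 h3 h4 h5 h6 h7 h8 h9 => by
    have e1 : -(i - 1) = (-i - 1) + 2 := by ring
    have e2 : -(i + 2) = (-i - 1) - 1 := by ring
    have e3 : -i = (-i - 1) + 1 := by ring
    have e4 : -(i + 1) = -i - 1 := by ring
    have e5 : -j = (-j - 1) + 1 := by ring
    have e6 : -(j + 1) = -j - 1 := by ring
    rw [e1] at h1
    rw [e2] at h2
    rw [e5] at h6
    rw [e6] at h7
    rw [e3, e4] at h8 h9
    refine D.m2' (-i - 1) (-j - 1) h2 h1 ?_ ?_ ?_ h7 h6 h8.symm h9.symm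
    · intro h
      exact h5 (by linear_combination -h)
    · intro h
      exact h4 (by linear_combination -h)
    · intro h
      exact h3 (by linear_combination -h)

/-- small numbers are not zero in `ZMod r` -/
theorem small49 (hr : 6 ≤ r) {k : ℕ} (hk : 1 ≤ k) (hk' : k ≤ 5) : ((k : ℕ) : ZMod r) ≠ 0 := by
  intro h
  rw [ZMod.natCast_eq_zero_iff] at h
  have := Nat.le_of_dvd (by omega) h
  omega

theorem ne49 (hr : 6 ≤ r) {x y : ZMod r} {k : ℕ} (hk : 1 ≤ k) (hk' : k ≤ 5)
    (h : x - y = (k : ℕ)) : x ≠ y := by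
  intro e
  rw [e, sub_self] at h
  exact small49 hr hk hk' h.symm

variable [NeZero r]

theorem shift49 (f : ZMod r → ℕ) : ∑ i, f (i + 1) = ∑ i, f i :=
  Equiv.sum_comp (Equiv.addRight (1 : ZMod r)) f

theorem shiftN49 (f : ZMod r → ℕ) : ∑ i, f (i - 1) = ∑ i, f i :=
  Equiv.sum_comp (Equiv.subRight (1 : ZMod r)) f

theorem neg49 (f : ZMod r → ℕ) : ∑ i, f (-i) = ∑ i, f i :=
  Equiv.sum_comp (Equiv.neg (ZMod r)) f

/-- the total -/
def tot49 (a b b' a' : ZMod r → ℕ) : ℕ := 2 * (∑ i, a i + ∑ i, a' i) + ∑ i, b i + ∑ i, b' i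

/-- the local weight -/
def g49 (a b b' a' : ZMod r → ℕ) (i : ZMod r) : ℕ :=
  a (i - 1) + a' (i - 1) + a (i + 1) + a' (i + 1) + b i + b' i

theorem sum_g49 (a b b' a' : ZMod r → ℕ) : ∑ i, g49 a b b' a' i = tot49 a b b' a' := by
  unfold g49 tot49
  simp only [Finset.sum_add_distrib]
  rw [shiftN49, shiftN49, shift49, shift49]
  ring

/-- the mixed weight -/
def s49 (a b b' a' : ZMod r → ℕ) (i : ZMod r) : ℕ :=
  a (i - 1) + a (i + 1) + b i + b' i + a' i + a' (i + 1)

theorem sum_s49 (a b b' a' : ZMod r → ℕ) : ∑ i, s49 a b b' a' i = tot49 a b b' a' := by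
  unfold s49 tot49
  simp only [Finset.sum_add_distrib]
  rw [shiftN49, shift49, shift49]
  ring

theorem tot_swap49 (a b b' a' : ZMod r → ℕ) : tot49 a' b' b a = tot49 a b b' a' := by
  unfold tot49
  ring

theorem LL49.h_le (D : LL49 r a b b' a') (i : ZMod r) : a (i - 1) + a (i + 1) + b i + b' i ≤ 3 := by
  have h1 := D.ba (i - 1)
  have h2 := D.ba (i + 1)
  have h3 := D.bb i
  have h4 := D.bb' i
  by_cases h5 : a (i - 1) = 1
  · by_cases h6 : a (i + 1) = 1
    · have := D.m1 i h5 h6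
      omega
    · omega
  · omega

/-- `a'` has two consecutive ones -/
theorem LL49.exJ (D : LL49 r a b b' a') (hT : 4 * r < tot49 a b b' a') :
    ∃ j, a' j = 1 ∧ a' (j + 1) = 1 := by
  by_contra hcon
  push Not at hcon
  have h1 : ∀ i ∈ (Finset.univ : Finset (ZMod r)), s49 a b b' a' i ≤ 4 := by
    intro i _
    have e1 := D.h_le i
    have e2 := D.ba' i
    have e3 := D.ba' (i + 1)
    have e4 := hcon i
    unfold s49
    omega
  have h2 := Finset.sum_le_card_nsmul _ _ _ h1
  rw [sum_s49, Finset.card_univ, ZMod.card] at h2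
  simp only [smul_eq_mul] at h2
  omega

/-- extraction of defects: if `S j ≤ c j` for all `j` and `∑ c ≤ ∑ S + e`, then the defects in a set
of positions sum to at most `e` -/
theorem extract49 {S c : ZMod r → ℕ} {e : ℕ} (h : ∀ j, S j ≤ c j) (hs : ∑ j, c j ≤ ∑ j, S j + e)
    (A : Finset (ZMod r)) : ∑ j ∈ A, c j ≤ ∑ j ∈ A, S j + e := by
  have h1 := Finset.sum_add_sum_compl A c
  have h2 := Finset.sum_add_sum_compl A S
  have h3 : ∑ j ∈ Aᶜ, S j ≤ ∑ j ∈ Aᶜ, c j := Finset.sum_le_sum fun j _ => h j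
  omega

/-- case alpha: an excess whose right neighbour has no deficit, `a'` tight -/
theorem LL49.alpha (D : LL49 r a b b' a') (hr : 6 ≤ r) (hT : 4 * r < tot49 a b b' a') (i : ZMod r)
    (x1 : a (i - 1) = 1) (x2 : a' (i - 1) = 1) (x3 : a (i + 1) = 1) (x4 : a' (i + 1) = 1)
    (y : b i + b' i = 1) (z1 : a (i + 2) = 1) (z2 : a' (i + 2) = 0)
    (hJ : ∀ j, a' j = 1 → a' (j + 1) = 1 → j = i - 1 ∨ j = i ∨ j = i + 1) : False := by
  have e12 : i + 1 + 1 = i + 2 := by ring
  have em : i - 1 + 1 = i := by ring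
  -- `J' = {i - 1, i}`
  have hai : a' i = 1 := by
    by_contra hne
    obtain ⟨j, j1, j2⟩ := D.exJ hT
    rcases hJ j j1 j2 with h | h | h
    · rw [h, em] at j2
      exact hne j2
    · rw [h] at j1
      exact hne j1
    · rw [h, e12] at j2
      omega
  have m := D.m1 i x1 x3
  have m' := D.m1' i x2 x4
  have a0 : a i = 0 := by omega
  have ne1 : i - 2 ≠ i - 1 := by
    intro h
    exact ne49 (k := 1) hr (by omega) (by omega) (x := i - 1) (y := i - 2) (by push_cast; ring) h.symm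
  have ne2 : i - 2 ≠ i := by
    intro h
    exact ne49 (k := 2) hr (by omega) (by omega) (x := i) (y := i - 2) (by push_cast; ring) h.symm
  have ne3 : i - 2 ≠ i + 1 := by
    intro h
    exact ne49 (k := 3) hr (by omega) (by omega) (x := i + 1) (y := i - 2) (by push_cast; ring) h.symm
  have a2 : a' (i - 2) = 0 := by
    have h1 := D.ba' (i - 2)
    by_contra hne
    have h2 : a' (i - 2) = 1 := by omega
    rcases hJ (i - 2) h2 (by rw [show i - 2 + 1 = i - 1 by ring]; exact x2) with h | h | h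
    · exact ne1 h
    · exact ne2 h
    · exact ne3 h
  -- the bound
  classical
  set c : ZMod r → ℕ := fun j => 4 + (if j = i - 1 then 1 else 0) + (if j = i then 1 else 0) with hc
  have hS : ∀ j, s49 a b b' a' j ≤ c j := by
    intro j
    have e1 := D.h_le j
    have e2 := D.ba' j
    have e3 := D.ba' (j + 1)
    have e4 : a' j = 1 → a' (j + 1) = 1 → j = i - 1 ∨ j = i := by
      intro h1 h2
      rcases hJ j h1 h2 with h | h | h
      · exact Or.inl h
      · exact Or.inr h
      · rw [h, e12] at h2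
        omega
    rw [hc]
    unfold s49
    simp only
    by_cases h1 : a' j = 1
    · by_cases h2 : a' (j + 1) = 1
      · rcases e4 h1 h2 with h | h
        · rw [if_pos h]; omega
        · rw [if_pos h]; omega
      · omega
    · omega
  have hsum : ∑ j, c j ≤ ∑ j, s49 a b b' a' j + 1 := by
    have h1 : ∑ j, c j = 4 * r + 2 := by
      rw [hc]
      simp only [Finset.sum_add_distrib, Finset.sum_const, Finset.card_univ, ZMod.card,
        Finset.sum_ite_eq', Finset.mem_univ, if_true, smul_eq_mul]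
      ring
    rw [h1, sum_s49]
    omega
  have p1 : i - 1 ≠ i - 3 := ne49 (k := 2) hr (by omega) (by omega) (by push_cast; ring)
  have p2 : i + 1 ≠ i - 3 := ne49 (k := 4) hr (by omega) (by omega) (by push_cast; ring)
  have p3 : i + 2 ≠ i - 3 := ne49 (k := 5) hr (by omega) (by omega) (by push_cast; ring)
  have p4 : i + 1 ≠ i - 1 := ne49 (k := 2) hr (by omega) (by omega) (by push_cast; ring)
  have p5 : i + 2 ≠ i - 1 := ne49 (k := 3) hr (by omega) (by omega) (by push_cast; ring)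
  have p6 : i + 2 ≠ i + 1 := ne49 (k := 1) hr (by omega) (by omega) (by push_cast; ring)
  have p7 : i ≠ i - 1 := ne49 (k := 1) hr (by omega) (by omega) (by push_cast; ring)
  have p8 : i + 1 ≠ i := ne49 (k := 1) hr (by omega) (by omega) (by push_cast; ring)
  have p9 : i + 2 ≠ i := ne49 (k := 2) hr (by omega) (by omega) (by push_cast; ring)
  have p10 : i ≠ i - 3 := ne49 (k := 3) hr (by omega) (by omega) (by push_cast; ring)
  have p11 : i + 1 ≠ i - 2 := ne49 (k := 3) hr (by omega) (by omega) (by push_cast; ring)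
  have hex := extract49 hS hsum {i + 2, i + 1, i - 1, i - 3}
  rw [Finset.sum_insert (by simp [p3, p5, p6]), Finset.sum_insert (by simp [p2, p4]),
    Finset.sum_insert (by simp [p1]), Finset.sum_singleton,
    Finset.sum_insert (by simp [p3, p5, p6]), Finset.sum_insert (by simp [p2, p4]),
    Finset.sum_insert (by simp [p1]), Finset.sum_singleton] at hex
  have c1 : c (i + 2) = 4 := by
    rw [hc]; simp only; rw [if_neg p5, if_neg p9]
  have c2 : c (i + 1) = 4 := by
    rw [hc]; simp only; rw [if_neg p4, if_neg p8]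
  have c3 : c (i - 1) = 5 := by
    rw [hc]; simp only; rw [if_neg p7.symm]; simp
  have c4 : c (i - 3) = 4 := by
    rw [hc]; simp only; rw [if_neg p1.symm, if_neg p10.symm]
  rw [c1, c2, c3, c4] at hex
  unfold s49 at hex
  have q1 : i + 2 - 1 = i + 1 := by ring
  have q2 : i + 2 + 1 = i + 3 := by ring
  have q3 : i + 1 - 1 = i := by ring
  have q4 : i - 1 - 1 = i - 2 := by ring
  have q5 : i - 3 - 1 = i - 4 := by ring
  have q6 : i - 3 + 1 = i - 2 := by ring
  rw [q1, q2, q3, e12, q4, em, q5, q6] at hex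
  -- bounds on the four pieces
  have h2 := D.h_le (i + 2)
  rw [q1, q2] at h2
  have h3 := D.h_le (i - 3)
  rw [q5, q6] at h3
  have t1 := D.ba (i - 2)
  have t2 := D.bb (i - 1)
  have t3 := D.bb' (i - 1)
  have t4 := D.bb (i + 1)
  have t5 := D.bb' (i + 1)
  have t6 := D.ba' (i + 3)
  have t7 := D.ba' (i - 3)
  -- left unit
  have left : a' (i - 3) = 1 → b (i - 1) + b' (i - 1) ≤ 1 := by
    intro h
    by_contra hne
    have k1 : b (i - 1) = 1 := by omega
    have k2 : b' (i - 1) = 1 := by omega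
    have r1 : i - 2 - 1 = i - 3 := by ring
    have r2 : i - 2 + 2 = i := by ring
    have r3 : i - 2 + 1 = i - 1 := by ring
    refine D.m2' (i - 2) (i + 1) (by rw [r1]; exact h) (by rw [r2]; exact hai) ?_ ?_ ?_ x3
      (by rw [e12]; exact z1) (Or.inr (by rw [r3]; exact k1)) (Or.inr (by rw [r3]; exact k2))
    · rw [r1]; exact p2
    · exact p11
    · rw [r3]; exact p4
  by_cases hcase : ∃ j, a j = 1 ∧ a (j + 1) = 1 ∧ j ≠ i ∧ j ≠ i + 1 ∧ j ≠ i + 2
  · obtain ⟨j, j1, j2, j3, j4, j5⟩ := hcase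
    have right : a' (i + 3) = 1 → b (i + 1) + b' (i + 1) ≤ 1 := by
      intro h
      by_contra hne
      have k1 : b (i + 1) = 1 := by omega
      have k2 : b' (i + 1) = 1 := by omega
      have r2 : i + 1 + 2 = i + 3 := by ring
      exact D.m2' (i + 1) j (by rw [q3]; exact hai) (by rw [r2]; exact h) (by rw [q3]; exact j3)
        j4 (by rw [e12]; exact j5) j1 j2 (Or.inl k1) (Or.inl k2)
    omega
  · push Not at hcase
    have a3 : a (i - 2) = 0 := by
      by_contra hne
      have k1 : a (i - 2) = 1 := by omega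
      have r3 : i - 2 + 1 = i - 1 := by ring
      have k2 := hcase (i - 2) k1 (by rw [r3]; exact x1) ne2 p11.symm
      exact ne49 (k := 4) hr (by omega) (by omega) (x := i + 2) (y := i - 2)
        (by push_cast; ring) k2.symm
    omega

/-- case gamma -/
theorem LL49.gamma (D : LL49 r a b b' a') (hr : 6 ≤ r) (hT : 4 * r < tot49 a b b' a') (i : ZMod r)
    (x1 : a (i - 1) = 1) (x2 : a' (i - 1) = 1) (x3 : a (i + 1) = 1) (x4 : a' (i + 1) = 1)
    (y : b i = 1) (z1 : a (i + 2) = 1) (z2 : a' (i + 2) = 1)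
    (hJ : ∀ j, a j = 1 → a (j + 1) = 1 → j = i - 1 ∨ j = i ∨ j = i + 1)
    (hJ' : ∀ j, a' j = 1 → a' (j + 1) = 1 → j = i - 1 ∨ j = i ∨ j = i + 1) : False := by
  have e12 : i + 1 + 1 = i + 2 := by ring
  have em : i - 1 + 1 = i := by ring
  have m := D.m1 i x1 x3
  have a0 : a' i = 0 := by omega
  have hJ1 : ∀ j, a' j = 1 → a' (j + 1) = 1 → j = i + 1 := by
    intro j j1 j2
    rcases hJ' j j1 j2 with h | h | h
    · rw [h, em] at j2
      omega
    · rw [h] at j1
      omega
    · exact h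
  classical
  set c : ZMod r → ℕ := fun j => 4 + (if j = i + 1 then 1 else 0) with hc
  have hS : ∀ j, s49 a b b' a' j ≤ c j := by
    intro j
    have e1 := D.h_le j
    have e2 := D.ba' j
    have e3 := D.ba' (j + 1)
    have e4 := hJ1 j
    rw [hc]
    unfold s49
    simp only
    by_cases h1 : a' j = 1
    · by_cases h2 : a' (j + 1) = 1
      · rw [if_pos (e4 h1 h2)]; omega
      · omega
    · omega
  have hsum : ∑ j, c j ≤ ∑ j, s49 a b b' a' j + 0 := by
    have h1 : ∑ j, c j = 4 * r + 1 := by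
      rw [hc]
      simp only [Finset.sum_add_distrib, Finset.sum_const, Finset.card_univ, ZMod.card,
        Finset.sum_ite_eq', Finset.mem_univ, if_true, smul_eq_mul]
      ring
    rw [h1, sum_s49]
    omega
  have p1 : i + 2 ≠ i + 1 := ne49 (k := 1) hr (by omega) (by omega) (by push_cast; ring)
  have p2 : i + 3 ≠ i + 1 := ne49 (k := 2) hr (by omega) (by omega) (by push_cast; ring)
  have p3 : i + 4 ≠ i + 1 := ne49 (k := 3) hr (by omega) (by omega) (by push_cast; ring)
  have hex : ∀ j, c j ≤ s49 a b b' a' j := by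
    intro j
    have := extract49 hS hsum {j}
    simpa using this
  have q2 : i + 2 + 1 = i + 3 := by ring
  have q3 : i + 3 + 1 = i + 4 := by ring
  have q4 : i + 4 + 1 = i + 5 := by ring
  have q5 : i + 3 - 1 = i + 2 := by ring
  have q6 : i + 4 - 1 = i + 3 := by ring
  -- `a' (i + 3) = 0`
  have s3 : a' (i + 3) = 0 := by
    have h1 := D.ba' (i + 3)
    by_contra hne
    exact p1 (hJ1 (i + 2) z2 (by rw [q2]; omega))
  -- position `i + 3`
  have w3 := hex (i + 3)
  rw [hc] at w3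
  simp only at w3
  rw [if_neg p2] at w3
  unfold s49 at w3
  rw [q3, q5] at w3
  have h3 := D.h_le (i + 3)
  rw [q3, q5] at h3
  have t1 := D.ba' (i + 4)
  have s4 : a' (i + 4) = 1 := by omega
  have m3 := D.m1' (i + 3) (by rw [q5]; exact z2) (by rw [q3]; exact s4)
  have t2 := D.ba (i + 4)
  have t3 := D.ba (i + 3)
  have t4 := D.ba (i + 5)
  have s5 : a (i + 4) = 1 := by omega
  have s6 : a (i + 3) = 0 := by
    by_contra hne
    rcases hJ (i + 2) z1 (by rw [q2]; omega) with h | h | h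
    · exact ne49 (k := 3) hr (by omega) (by omega) (x := i + 2) (y := i - 1) (by push_cast; ring) h
    · exact ne49 (k := 2) hr (by omega) (by omega) (x := i + 2) (y := i) (by push_cast; ring) h
    · exact p1 h
  have s7 : a (i + 5) = 0 := by
    by_contra hne
    rcases hJ (i + 4) s5 (by rw [q4]; omega) with h | h | h
    · exact ne49 (k := 5) hr (by omega) (by omega) (x := i + 4) (y := i - 1) (by push_cast; ring) h
    · exact ne49 (k := 4) hr (by omega) (by omega) (x := i + 4) (y := i) (by push_cast; ring) h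
    · exact p3 h
  -- position `i + 4`
  have w4 := hex (i + 4)
  rw [hc] at w4
  simp only at w4
  rw [if_neg p3] at w4
  unfold s49 at w4
  rw [q4, q6] at w4
  have h4 := D.bb (i + 4)
  have h5 := D.bb' (i + 4)
  have h6 : a' (i + 4) + a' (i + 5) ≤ 1 := by
    have h7 := D.ba' (i + 5)
    by_contra hne
    exact p3 (hJ1 (i + 4) s4 (by rw [q4]; omega))
  omega

/-- the right neighbour of an excess has a deficit -/
theorem LL49.right (D : LL49 r a b b' a') (hr : 6 ≤ r) (hT : 4 * r < tot49 a b b' a') (i : ZMod r)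
    (h5 : 5 ≤ g49 a b b' a' i) (h4 : 4 ≤ g49 a b b' a' (i + 1)) : False := by
  have hT' : 4 * r < tot49 a' b' b a := by rw [tot_swap49]; exact hT
  have e12 : i + 1 + 1 = i + 2 := by ring
  have e10 : i + 1 - 1 = i := by ring
  unfold g49 at h5 h4
  rw [e12, e10] at h4
  have b1 := D.ba (i - 1)
  have b2 := D.ba' (i - 1)
  have b3 := D.ba (i + 1)
  have b4 := D.ba' (i + 1)
  have b5 := D.bb i
  have b6 := D.bb' i
  have b7 := D.ba i
  have b8 := D.ba' i
  have b9 := D.bb (i + 1)
  have b10 := D.bb' (i + 1)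
  have b11 := D.ba (i + 2)
  have b12 := D.ba' (i + 2)
  have hor : (a (i - 1) = 1 ∧ a (i + 1) = 1) ∨ (a' (i - 1) = 1 ∧ a' (i + 1) = 1) := by omega
  have hbb : b i + b' i ≤ 1 := by
    rcases hor with h | h
    · exact (D.m1 i h.1 h.2).2
    · exact (D.m1' i h.1 h.2).2
  have x1 : a (i - 1) = 1 := by omega
  have x2 : a' (i - 1) = 1 := by omega
  have x3 : a (i + 1) = 1 := by omega
  have x4 : a' (i + 1) = 1 := by omega
  have y : b i + b' i = 1 := by omega
  have m := D.m1 i x1 x3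
  have m' := D.m1' i x2 x4
  -- Phi holds
  have hPhi : (b i = 1 ∨ b (i + 1) = 1) ∧ (b' i = 1 ∨ b' (i + 1) = 1) := by
    by_contra hcon
    by_cases hbi : b i = 1
    · have k1 : b' (i + 1) = 0 := by
        by_contra hne
        exact hcon ⟨Or.inl hbi, Or.inr (by omega)⟩
      have k2 : a i = 1 := by omega
      have k3 : a (i + 2) = 1 := by omega
      have k4 := D.m1 (i + 1) (by rw [e10]; exact k2) (by rw [e12]; exact k3)
      omega
    · have k0 : b' i = 1 := by omega
      have k1 : b (i + 1) = 0 := by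
        by_contra hne
        exact hcon ⟨Or.inr (by omega), Or.inl k0⟩
      have k2 : a' i = 1 := by omega
      have k3 : a' (i + 2) = 1 := by omega
      have k4 := D.m1' (i + 1) (by rw [e10]; exact k2) (by rw [e12]; exact k3)
      omega
  have hJ' : a (i + 2) = 1 → ∀ j, a' j = 1 → a' (j + 1) = 1 → j = i - 1 ∨ j = i ∨ j = i + 1 := by
    intro h j j1 j2
    by_contra hne
    push Not at hne
    exact D.m2 i j x1 h hne.1 hne.2.1 hne.2.2 j1 j2 hPhi.1 hPhi.2
  have hJ : a' (i + 2) = 1 → ∀ j, a j = 1 → a (j + 1) = 1 → j = i - 1 ∨ j = i ∨ j = i + 1 := by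
    intro h j j1 j2
    by_contra hne
    push Not at hne
    exact D.m2' i j x2 h hne.1 hne.2.1 hne.2.2 j1 j2 hPhi.1 hPhi.2
  by_cases z1 : a (i + 2) = 1
  · by_cases z2 : a' (i + 2) = 1
    · by_cases hbi : b i = 1
      · exact D.gamma hr hT i x1 x2 x3 x4 hbi z1 z2 (hJ z2) (hJ' z1)
      · exact D.swap.gamma hr hT' i x2 x1 x4 x3 (by omega) z2 z1 (hJ' z1) (hJ z2)
    · exact D.alpha hr hT i x1 x2 x3 x4 y z1 (by omega) (hJ' z1)
  · have z2 : a' (i + 2) = 1 := by omega
    exact D.swap.alpha hr hT' i x2 x1 x4 x3 (by omega) z2 (by omega) (hJ z2)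

theorem g_refl49 (a b b' a' : ZMod r → ℕ) (i : ZMod r) :
    g49 (fun i => a (-i)) (fun i => b (-i)) (fun i => b' (-i)) (fun i => a' (-i)) i
      = g49 a b b' a' (-i) := by
  unfold g49
  have e1 : -(i - 1) = -i + 1 := by ring
  have e2 : -(i + 1) = -i - 1 := by ring
  simp only [e1, e2]
  ring

theorem tot_refl49 (a b b' a' : ZMod r → ℕ) :
    tot49 (fun i => a (-i)) (fun i => b (-i)) (fun i => b' (-i)) (fun i => a' (-i))
      = tot49 a b b' a' := by
  unfold tot49
  rw [neg49 a, neg49 b, neg49 b', neg49 a']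

/-- LL+, combinatorial core -/
theorem LL49.main (D : LL49 r a b b' a') (hr : 6 ≤ r) :
    2 * (∑ i, a i + ∑ i, a' i) + ∑ i, b i + ∑ i, b' i ≤ 4 * r := by
  by_contra hcon
  have hT : 4 * r < tot49 a b b' a' := by
    unfold tot49
    omega
  have hle : ∀ i, g49 a b b' a' i ≤ 5 := by
    intro i
    have b1 := D.ba (i - 1)
    have b2 := D.ba' (i - 1)
    have b3 := D.ba (i + 1)
    have b4 := D.ba' (i + 1)
    have b5 := D.bb i
    have b6 := D.bb' i
    unfold g49
    by_cases h : a (i - 1) = 1 ∧ a (i + 1) = 1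
    · have := (D.m1 i h.1 h.2).2
      omega
    · omega
  have hpair : ∀ i, g49 a b b' a' i + g49 a b b' a' (i + 1) ≤ 8 := by
    intro i
    by_contra hne
    have h1 := hle i
    have h2 := hle (i + 1)
    by_cases h3 : 5 ≤ g49 a b b' a' i
    · exact D.right hr hT i h3 (by omega)
    · have h5 : 5 ≤ g49 a b b' a' (i + 1) := by omega
      have h4 : 4 ≤ g49 a b b' a' i := by omega
      have e1 : -(-(i + 1)) = i + 1 := by ring
      have e2 : -(-(i + 1) + 1) = i := by ring
      refine D.refl.right hr (by rw [tot_refl49]; exact hT) (-(i + 1)) ?_ ?_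
      · rw [g_refl49, e1]; exact h5
      · rw [g_refl49, e2]; exact h4
  have hs : ∑ i, (g49 a b b' a' i + g49 a b b' a' (i + 1)) ≤ ∑ _i : ZMod r, 8 :=
    Finset.sum_le_sum fun i _ => hpair i
  rw [Finset.sum_add_distrib, shift49 (g49 a b b' a'), sum_g49, Finset.sum_const,
    Finset.card_univ, ZMod.card, smul_eq_mul] at hs
  omega

end Pool.Agent.P0
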