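import Pool.Agent.P0.E349

set_option linter.all false

/-!
# P0: helper97's swap inequalities (E1), (E2)
-/

namespace Pool.Agent.P0

open Pool.Agent.Helper14.LongCyc Pool.Agent.LCK

universe u

variable {V : Type u} {G : SimpleGraph V}

/-- an optimal family together with a path of its rest which is longest over all optimal families -/
structure OptP49 (G : SimpleGraph V) (U : Finset V) (r : ℕ) (F : Finset (Finset V)) (w w' : V)
    (l : List V) : Prop where
  opt : Opt49 G U r F
  path : Pth G w w' l
  sub : ∀ z ∈ l, z ∈ rest U F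
  max : ∀ F' a b m, Opt49 G U r F' → Pth G a b m → (∀ z ∈ m, z ∈ rest U F') →
    m.length ≤ l.length

theorem OptP49.reverse {U : Finset V} {r : ℕ} {F : Finset (Finset V)} {w w' : V} {l : List V}
    (h : OptP49 G U r F w w' l) : OptP49 G U r F w' w l.reverse where
  opt := h.opt
  path := h.path.reverse
  sub := fun z hz => h.sub z (List.mem_reverse.1 hz)
  max := fun F' a b m h1 h2 h3 => by
    rw [List.length_reverse]
    exact h.max F' a b m h1 h2 h3

/-- replacing a member by a cycle of the same length keeps optimality -/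
theorem Opt49.replace_same [DecidableEq V] {U : Finset V} {r : ℕ} {F : Finset (Finset V)}
    (hF : Opt49 G U r F) {C D : Finset V} (hC : C ∈ F) (hD : CycSet G D)
    (hDs : D ⊆ C ∪ rest U F) (hcard : D.card = C.card) :
    Opt49 G U r (insert D (F.erase C)) ∧ rest U (insert D (F.erase C)) = (C ∪ rest U F) \ D := by
  have hCr := hF.fam.len C hC
  obtain ⟨h1, h2, h3⟩ := hF.fam.replace hC hD hDs (by show r ≤ D.card; rw [hcard]; exact hCr)
  have h4 : (insert D (F.erase C)).card = F.card := by
    rw [Finset.card_insert_of_notMem h2, Finset.card_erase_of_mem hC]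
    have : 0 < F.card := Finset.card_pos.2 ⟨C, hC⟩
    omega
  have h5 : tot (insert D (F.erase C)) = tot F := by
    unfold tot
    rw [Finset.sum_insert h2, hcard]
    exact Finset.add_sum_erase F (fun s => s.card) hC
  refine ⟨⟨h1, fun F' hF' => ?_, fun F' hF' hc => ?_⟩, h3⟩
  · rw [h4]; exact hF.max F' hF'
  · rw [h5]; exact hF.min F' hF' (by rw [hc, h4])

/-- (E1) -/
theorem OptP49.e1 [DecidableEq V] {U : Finset V} {r : ℕ} (hr : 4 ≤ r) {F : Finset (Finset V)}
    {w w' : V} {l : List V} (h : OptP49 G U r F w w' l) {u : V} (hu : u ∈ rest U F) (hul : u ∉ l)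
    {C : Finset V} (hC : C ∈ F) : 2 * dg G C u + dg G C w ≤ 2 * r := by
  classical
  have hw := h.sub w h.path.head_mem
  have hCr := h.opt.fam.len C hC
  rcases Nat.lt_or_ge r C.card with h0 | h0
  · have h1 := h.opt.outside hr hC h0 hu
    have h2 := h.opt.outside hr hC h0 hw
    omega
  · have hCc : C.card = r := le_antisymm h0 hCr
    obtain ⟨c, hc, hs⟩ := h.opt.fam.cyc C hC
    have hcard := card_of_list (Cyc.nodup hc) hs
    have hCt : c.toFinset = C := by
      ext z; rw [List.mem_toFinset]; exact hs z
    have hp : 0 < c.length := by omega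
    haveI : NeZero c.length := ⟨by omega⟩
    have huC : u ∉ C := (mem_rest.1 hu).2 C hC
    have huc : u ∉ c := fun hh => huC ((hs u).1 hh)
    have hloc : ∀ i : ZMod c.length, ind49 G c hp u (i - 1) + ind49 G c hp u (i + 1)
        + ind49 G c hp w i ≤ 2 := by
      intro i
      have l1 := ind_le49 (G := G) hp u (i - 1)
      have l2 := ind_le49 (G := G) hp u (i + 1)
      have l3 := ind_le49 (G := G) hp w i
      by_contra hne
      have k1 : ind49 G c hp u (i - 1) = 1 := by omega
      have k2 : ind49 G c hp u (i + 1) = 1 := by omega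
      have k3 : ind49 G c hp w i = 1 := by omega
      obtain ⟨n, hn⟩ : ∃ n : ℕ, i - 1 = ((n : ℕ) : ZMod c.length) :=
        ⟨(i - 1).val, (ZMod.natCast_zmod_val _).symm⟩
      have hi : i = ((n + 1 : ℕ) : ZMod c.length) := by
        push_cast
        rw [← hn]; ring
      have hi' : i + 1 = ((n + 2 : ℕ) : ZMod c.length) := by
        push_cast
        rw [← hn]; ring
      rw [ind_nat49 hp n hn] at k1
      rw [ind_nat49 hp (n + 2) hi'] at k2
      rw [ind_nat49 hp (n + 1) hi] at k3
      have hA := arc_pth hc hp (c.length - 2) (n + 2) (by omega)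
      have e0 : cf c hp (n + 2 + (c.length - 2)) = cf c hp n := by
        apply cf_congr
        rw [show n + 2 + (c.length - 2) = n + c.length by omega, Nat.add_mod_right]
      rw [e0] at hA
      have key : ∀ z ∈ seg (cf c hp) (n + 2) (c.length - 2), z ≠ cf c hp (n + 1) := by
        intro z hz hzz
        rw [mem_seg] at hz
        obtain ⟨j, j1, j2, j3⟩ := hz
        rw [hzz, show j = n + (j - n) by omega] at j3
        exact far49 hc hp n (s := 1) (t := j - n) (by omega) (by omega) j3
      obtain ⟨e1, e2⟩ := joinSet hA (Pth.singleton u) (by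
        intro z hz hz'
        rw [List.mem_singleton] at hz'
        exact huc (hz' ▸ arc_mem49 hp hz)) (by
        rw [seg_length]; simp only [List.length_singleton]; omega)
        (Or.inl ⟨k2.symm, k1.symm⟩)
      rw [seg_length, List.length_singleton] at e2
      obtain ⟨o1, o2⟩ := h.opt.replace_same hC e1 (by
        intro z hz
        rw [List.mem_toFinset, List.mem_append, List.mem_singleton] at hz
        rcases hz with hz | hz
        · exact Finset.mem_union_left _ ((hs z).1 (arc_mem49 hp hz))
        · rw [hz]; exact Finset.mem_union_right _ hu) (by rw [e2]; omega)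
      have hcC : cf c hp (n + 1) ∈ C := (hs _).1 (cf_mem hp _)
      have hcl : cf c hp (n + 1) ∉ l := fun hh => (mem_rest.1 (h.sub _ hh)).2 C hC hcC
      have hlong := h.max _ _ _ _ o1 (h.path.cons k3.symm hcl) (by
        intro z hz
        rw [o2, Finset.mem_sdiff, List.mem_toFinset, List.mem_append, List.mem_singleton]
        rcases List.mem_cons.1 hz with hz | hz
        · rw [hz]
          refine ⟨Finset.mem_union_left _ hcC, ?_⟩
          rintro (hh | hh)
          · exact key _ hh rfl
          · exact huC (hh ▸ hcC)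
        · have hzr := h.sub z hz
          refine ⟨Finset.mem_union_right _ hzr, ?_⟩
          rintro (hh | hh)
          · exact (mem_rest.1 hzr).2 C hC ((hs z).1 (arc_mem49 hp hh))
          · exact hul (hh ▸ hz))
      simp only [List.length_cons] at hlong
      omega
    have hsum : ∑ i, (ind49 G c hp u (i - 1) + ind49 G c hp u (i + 1) + ind49 G c hp w i)
        ≤ ∑ _i : ZMod c.length, 2 := Finset.sum_le_sum fun i _ => hloc i
    have hn := Cyc.nodup hc
    rw [Finset.sum_add_distrib, Finset.sum_add_distrib, shiftN49, shift49 (ind49 G c hp u),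
      sum_ind49 hp hn, sum_ind49 hp hn, hCt, Finset.sum_const, Finset.card_univ, ZMod.card,
      smul_eq_mul] at hsum
    omega

/-- (E2) -/
theorem OptP49.e2 [DecidableEq V] {U : Finset V} {k r : ℕ} (hr : 4 ≤ r) {F : Finset (Finset V)}
    {w w' : V} {l : List V} (h : OptP49 G U r F w w' l) (hk : F.card + 1 ≤ k)
    (hdeg : ∀ v ∈ U, 2 * k * r ≤ 3 * dg G U v) {u : V} (hu : u ∈ rest U F) (hul : u ∉ l) :
    2 * r ≤ 2 * dg G (rest U F) u + dg G (rest U F) w := by
  have hw := h.sub w h.path.head_mem
  have h1 := hdeg u (rest_subset _ _ hu)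
  have h2 := hdeg w (rest_subset _ _ hw)
  rw [h.opt.fam.dg_split] at h1 h2
  have h5 : ∑ C ∈ F, (2 * dg G C u + dg G C w) ≤ F.card * (2 * r) := by
    rw [← smul_eq_mul]
    exact Finset.sum_le_card_nsmul _ _ _ fun C hC => h.e1 hr hu hul hC
  simp only [Finset.sum_add_distrib, ← Finset.mul_sum] at h5
  have h6 : F.card * (2 * r) + 2 * r ≤ 2 * (k * r) := by
    have : (F.card + 1) * r ≤ k * r := Nat.mul_le_mul_right r hk
    nlinarith
  have h7 : 2 * k * r = 2 * (k * r) := by ring
  rw [h7] at h1 h2
  omega

end Pool.Agent.P0
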