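import Pool.Agent.P0.Graph49
import Pool.Agent.LCK.Out

set_option linter.all false

/-!
# P0: consequence (E3) of LL+ for an optimal family
-/

namespace Pool.Agent.P0

open Pool.Agent.Helper14.LongCyc Pool.Agent.LCK

universe u

variable {V : Type u} {G : SimpleGraph V}

/-- `F` is a family of disjoint long cycles inside `U`, with the largest possible number of members
and, subject to this, of minimal total length -/
structure Opt49 (G : SimpleGraph V) (U : Finset V) (r : ℕ) (F : Finset (Finset V)) : Prop where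
  fam : Fam G U (fun L => r ≤ L) F
  max : ∀ F', Fam G U (fun L => r ≤ L) F' → F'.card ≤ F.card
  min : ∀ F', Fam G U (fun L => r ≤ L) F' → F'.card = F.card → tot F ≤ tot F'

/-- a long member is locally shortest -/
theorem Opt49.short [DecidableEq V] {U : Finset V} {r : ℕ} {F : Finset (Finset V)}
    (hF : Opt49 G U r F) {C : Finset V} (hC : C ∈ F) {D : Finset V} (hD : CycSet G D)
    (hDs : D ⊆ C ∪ rest U F) (hDr : r ≤ D.card) : C.card ≤ D.card := by
  obtain ⟨h1, h2, h3⟩ := hF.fam.replace hC hD hDs hDr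
  have h4 : (insert D (F.erase C)).card = F.card := by
    rw [Finset.card_insert_of_notMem h2, Finset.card_erase_of_mem hC]
    have : 0 < F.card := Finset.card_pos.2 ⟨C, hC⟩
    omega
  have h5 := hF.min _ h1 h4
  unfold tot at h5
  rw [Finset.sum_insert h2] at h5
  have h6 := Finset.add_sum_erase F (fun s => s.card) hC
  omega

/-- a member longer than `r` sees little from outside -/
theorem Opt49.outside [DecidableEq V] {U : Finset V} {r : ℕ} (hr : 4 ≤ r) {F : Finset (Finset V)}
    (hF : Opt49 G U r F) {C : Finset V} (hC : C ∈ F) (hCr : r < C.card) {v : V}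
    (hv : v ∈ rest U F) : dg G C v ≤ (r + 1) / 2 := by
  refine LCK.outside hr (hF.fam.cyc C hC) hCr ((mem_rest.1 hv).2 C hC) ?_
  intro D hD hDs hDr
  refine hF.short hC hD (hDs.trans ?_) hDr
  intro z hz
  rcases Finset.mem_insert.1 hz with h | h
  · rw [h]; exact Finset.mem_union_right _ hv
  · exact Finset.mem_union_left _ h

/-- no two disjoint long cycles in `C ∪ rest` -/
theorem Opt49.no_two [DecidableEq V] {U : Finset V} {r : ℕ} {F : Finset (Finset V)}
    (hF : Opt49 G U r F) {C : Finset V} (hC : C ∈ F) : ¬ Two49 G r (C ∪ rest U F) := by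
  rintro ⟨D, E, h1, h2, h3, h4, h5, h6, h7⟩
  obtain ⟨F', f1, f2, -⟩ := hF.fam.split_one hC h1 h2 h3 h4 h7 h5 h6
  have := hF.max F' f1
  omega

/-- (E3), per member -/
theorem Opt49.member [DecidableEq V] {U : Finset V} {r : ℕ} (hr : 6 ≤ r) {F : Finset (Finset V)}
    (hF : Opt49 G U r F) {p q x y : V} {mid : List V} (hmid : Pth G x y mid) (hpx : G.Adj p x)
    (hyq : G.Adj y q) (hpq : p ≠ q) (hpm : p ∉ mid) (hqm : q ∉ mid) (hp : p ∈ rest U F)
    (hq : q ∈ rest U F) (hm : ∀ z ∈ mid, z ∈ rest U F) (hlen : r ≤ mid.length + 1)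
    {C : Finset V} (hC : C ∈ F) :
    2 * (dg G C p + dg G C q) + dg G C x + dg G C y ≤ 4 * r := by
  have hCr := hF.fam.len C hC
  have hx := hm x hmid.head_mem
  have hy := hm y hmid.last_mem
  rcases Nat.lt_or_ge r C.card with h | h
  · have h1 := hF.outside (by omega) hC h hp
    have h2 := hF.outside (by omega) hC h hq
    have h3 := hF.outside (by omega) hC h hx
    have h4 := hF.outside (by omega) hC h hy
    omega
  · refine llplus49 hr (hF.fam.cyc C hC) (le_antisymm h hCr) hmid hpx hyq hpq hpm hqm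
      ((mem_rest.1 hp).2 C hC) ((mem_rest.1 hq).2 C hC) (fun z hz => (mem_rest.1 (hm z hz)).2 C hC)
      hlen ?_
    intro h2
    refine hF.no_two hC (h2.mono ?_)
    intro z hz
    rw [Finset.mem_insert, Finset.mem_insert, Finset.mem_union, List.mem_toFinset] at hz
    rcases hz with h | h | h | h
    · rw [h]; exact Finset.mem_union_right _ hp
    · rw [h]; exact Finset.mem_union_right _ hq
    · exact Finset.mem_union_right _ (hm z h)
    · exact Finset.mem_union_left _ h

/-- **(E3)**: every path `p, x, …, y, q` with at least `r + 1` vertices outside the optimal family has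
`2 (d p + d q) + d x + d y ≥ 4 r`, degrees outside the family -/
theorem Opt49.e3 [DecidableEq V] {U : Finset V} {k r : ℕ} (hr : 6 ≤ r) {F : Finset (Finset V)}
    (hF : Opt49 G U r F) (hk : F.card + 1 ≤ k) (hdeg : ∀ v ∈ U, 2 * k * r ≤ 3 * dg G U v)
    {p q x y : V} {mid : List V} (hmid : Pth G x y mid) (hpx : G.Adj p x)
    (hyq : G.Adj y q) (hpq : p ≠ q) (hpm : p ∉ mid) (hqm : q ∉ mid) (hp : p ∈ rest U F)
    (hq : q ∈ rest U F) (hm : ∀ z ∈ mid, z ∈ rest U F) (hlen : r ≤ mid.length + 1) :
    4 * r ≤ 2 * (dg G (rest U F) p + dg G (rest U F) q) + dg G (rest U F) x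
      + dg G (rest U F) y := by
  have hx := hm x hmid.head_mem
  have hy := hm y hmid.last_mem
  have h1 := hdeg p (rest_subset _ _ hp)
  have h2 := hdeg q (rest_subset _ _ hq)
  have h3 := hdeg x (rest_subset _ _ hx)
  have h4 := hdeg y (rest_subset _ _ hy)
  rw [hF.fam.dg_split] at h1 h2 h3 h4
  have h5 : ∑ C ∈ F, (2 * (dg G C p + dg G C q) + dg G C x + dg G C y) ≤ F.card * (4 * r) := by
    rw [← smul_eq_mul]
    exact Finset.sum_le_card_nsmul _ _ _ fun C hC =>
      hF.member hr hmid hpx hyq hpq hpm hqm hp hq hm hlen hC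
  simp only [Finset.sum_add_distrib, ← Finset.mul_sum] at h5
  have h6 : F.card * (4 * r) + 4 * r ≤ 4 * (k * r) := by
    have : (F.card + 1) * r ≤ k * r := Nat.mul_le_mul_right r hk
    nlinarith
  have h7 : 2 * k * r = 2 * (k * r) := by ring
  rw [h7] at h1 h2 h3 h4
  omega

end Pool.Agent.P0
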