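import Pool.Agent.P0.E149
import Pool.Agent.P0.Bits61

set_option linter.all false

/-!
# P0, row I2: the local lemmas LL4 and LL5 and (E3) for `r = 4` and `r = 5`
-/

namespace Pool.Agent.P0

open Pool.Agent.Helper14.LongCyc Pool.Agent.LCK

universe u

variable {V : Type u} {G : SimpleGraph V}

/-- two disjoint arcs of a cycle and two disjoint outside paths attached to their ends -/
theorem arcs61 [DecidableEq V] {c : List V} (hc : Cyc G c) (hp : 0 < c.length) {r : ℕ}
    (hr : 3 ≤ r) {U : Finset V} (n s g t : ℕ) (hs : s < g) (ht : g + t < c.length)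
    {u w u' w' : V} {R R' : List V} (hR : Pth G u w R) (hR' : Pth G u' w' R')
    (hRc : ∀ z ∈ R, z ∉ c) (hRc' : ∀ z ∈ R', z ∉ c) (hRR : ∀ z ∈ R, z ∉ R')
    (h1 : (G.Adj (cf c hp n) u ∧ G.Adj (cf c hp (n + s)) w) ∨
      (G.Adj (cf c hp n) w ∧ G.Adj (cf c hp (n + s)) u))
    (h2 : (G.Adj (cf c hp (n + g)) u' ∧ G.Adj (cf c hp (n + g + t)) w') ∨
      (G.Adj (cf c hp (n + g)) w' ∧ G.Adj (cf c hp (n + g + t)) u'))
    (hl : r ≤ s + 1 + R.length) (hl' : r ≤ t + 1 + R'.length)
    (hU : ∀ z, z ∈ c ∨ z ∈ R ∨ z ∈ R' → z ∈ U) : Two49 G r U := by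
  have hA := arc_pth hc hp s n (by omega)
  have hB := arc_pth hc hp t (n + g) (by omega)
  refine mk49 (r := r) hA hR hB hR' ?_ ?_ hr ?_ ?_ h1 h2 ?_ ?_ ?_
  · intro z hz hz'
    exact hRc z hz' (arc_mem49 hp hz)
  · intro z hz hz'
    exact hRc' z hz' (arc_mem49 hp hz)
  · rw [seg_length]; exact hl
  · rw [seg_length]; exact hl'
  · intro z hz
    rcases hz with hz | hz
    · exact hU z (Or.inl (arc_mem49 hp hz))
    · exact hU z (Or.inr (Or.inl hz))
  · intro z hz
    rcases hz with hz | hz
    · exact hU z (Or.inl (arc_mem49 hp hz))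
    · exact hU z (Or.inr (Or.inr hz))
  · intro z hz hz'
    rcases hz with hz | hz
    · rcases hz' with hz' | hz'
      · rw [mem_seg] at hz hz'
        obtain ⟨i, i1, i2, i3⟩ := hz
        obtain ⟨j, j1, j2, j3⟩ := hz'
        rw [i3, show i = n + (i - n) by omega, show j = n + (j - n) by omega] at j3
        exact far49 hc hp n (s := i - n) (t := j - n) (by omega) (by omega) j3
      · exact hRc' z hz' (arc_mem49 hp hz)
    · rcases hz' with hz' | hz'
      · exact hRc z hz (arc_mem49 hp hz')
      · exact hRR z hz hz'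

/-- adjacency indicator along the cycle -/
noncomputable def bit61 (G : SimpleGraph V) (c : List V) (hp : 0 < c.length) (p : V) (n : ℕ) :
    Bool := @decide (G.Adj p (cf c hp n)) (Classical.propDecidable _)

theorem bit61_iff {c : List V} (hp : 0 < c.length) {p : V} {n : ℕ} :
    bit61 G c hp p n = true ↔ G.Adj p (cf c hp n) := by
  unfold bit61
  exact @decide_eq_true_iff _ (Classical.propDecidable _)

theorem bit61_add {c : List V} (hp : 0 < c.length) (p : V) (n : ℕ) :
    bit61 G c hp p (n + c.length) = bit61 G c hp p n := by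
  unfold bit61
  rw [cf_add hp n]

theorem bit61_sum [DecidableEq V] {c : List V} (hp : 0 < c.length) (hn : c.Nodup) (p : V) :
    ∑ i ∈ Finset.range c.length, (bit61 G c hp p i).toNat = dg G c.toFinset p := by
  classical
  have h1 : c.toFinset = (Finset.range c.length).image (fun i => cf c hp i) := by
    ext z
    rw [List.mem_toFinset, Finset.mem_image]
    constructor
    · intro hz
      obtain ⟨i, hi, h⟩ := exists_cf hp hz
      exact ⟨i, Finset.mem_range.2 hi, h⟩
    · rintro ⟨i, _, rfl⟩
      exact cf_mem hp _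
  unfold dg
  rw [Finset.card_filter, h1, Finset.sum_image]
  · refine Finset.sum_congr rfl fun i _ => ?_
    by_cases h : G.Adj p (cf c hp i)
    · rw [(bit61_iff hp).2 h, if_pos h]; rfl
    · have h2 : bit61 G c hp p i = false := by
        rw [← Bool.not_eq_true, bit61_iff hp]; exact h
      rw [h2, if_neg h]; rfl
  · intro i hi j hj hij
    have h2 := cf_inj hp hn hij
    rw [Nat.mod_eq_of_lt (Finset.mem_range.1 hi), Nat.mod_eq_of_lt (Finset.mem_range.1 hj)] at h2
    exact h2

/-- **LL5**: `C` a cycle of length 5, `p, x, …, e, y, q` a path with at least 6 vertices -/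
theorem ll5_61 [DecidableEq V] {C : Finset V} (hC : CycSet G C) (hCr : C.card = 5)
    {p x e y q : V} {mid : List V} (hmid : Pth G x e mid) (hpx : G.Adj p x) (hey : G.Adj e y)
    (hyq : G.Adj y q) (hpy : p ≠ y) (hpq : p ≠ q) (hpm : p ∉ mid) (hym : y ∉ mid) (hqm : q ∉ mid)
    (hpC : p ∉ C) (hyC : y ∉ C) (hqC : q ∉ C) (hmC : ∀ z ∈ mid, z ∉ C) (hlen : 3 ≤ mid.length)
    (hno : ¬ Two49 G 5 (insert p (insert y (insert q (mid.toFinset ∪ C))))) :
    2 * (dg G C p + dg G C q) + dg G C x + dg G C e + dg G C y ≤ 23 := by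
  obtain ⟨c, hc, hs⟩ := hC
  have hn := Cyc.nodup hc
  have hcard := card_of_list hn hs
  have hCc : c.toFinset = C := by
    ext z; rw [List.mem_toFinset]; exact hs z
  have hlr : c.length = 5 := by omega
  have hp : 0 < c.length := by omega
  have pc : p ∉ c := fun h => hpC ((hs p).1 h)
  have yc : y ∉ c := fun h => hyC ((hs y).1 h)
  have qc : q ∉ c := fun h => hqC ((hs q).1 h)
  have mc : ∀ z ∈ mid, z ∉ c := fun z hz h => hmC z hz ((hs z).1 h)
  have hxm := hmid.head_mem
  have hem := hmid.last_mem
  have hyq' : y ≠ q := hyq.ne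
  have hxe : x ≠ e := by
    rintro rfl
    have := hmid.length_le_one
    rw [this] at hlen
    simp at hlen
  have hxy : x ≠ y := fun h => hym (h ▸ hxm)
  have hxq : x ≠ q := fun h => hqm (h ▸ hxm)
  have hpe : p ≠ e := fun h => hpm (h ▸ hem)
  have hpx' : p ≠ x := hpx.ne
  have hU : ∀ z, z ∈ c ∨ z = p ∨ z = y ∨ z = q ∨ z ∈ mid →
      z ∈ insert p (insert y (insert q (mid.toFinset ∪ C))) := by
    intro z hz
    simp only [Finset.mem_insert, Finset.mem_union, List.mem_toFinset]
    rcases hz with h | h | h | h | h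
    · exact Or.inr (Or.inr (Or.inr (Or.inr ((hs z).1 h))))
    · exact Or.inl h
    · exact Or.inr (Or.inl h)
    · exact Or.inr (Or.inr (Or.inl h))
    · exact Or.inr (Or.inr (Or.inr (Or.inl h)))
  -- the paths
  have P1 : Pth G p e (p :: mid) := hmid.cons hpx hpm
  have P2 : Pth G p y (p :: mid ++ [y]) := P1.concat hey (by
    simp only [List.mem_cons, not_or]; exact ⟨hpy.symm, hym⟩)
  have P4 : Pth G x y (mid ++ [y]) := hmid.concat hey hym
  have P3 : Pth G x q (mid ++ [y] ++ [q]) := P4.concat hyq (by
    simp only [List.mem_append, List.mem_singleton, not_or]; exact ⟨hqm, hyq'.symm⟩)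
  have Ppx : Pth G p x [p, x] := (Pth.singleton x).cons hpx (by simpa using hpx')
  have Pyq : Pth G y q [y, q] := (Pth.singleton q).cons hyq (by simpa using hyq')
  have Peyq : Pth G e q [e, y, q] := Pyq.cons hey (by
    simp only [List.mem_cons, List.not_mem_nil, or_false, not_or]
    exact ⟨hey.ne, fun h => hqm (h ▸ hem)⟩)
  have wrap : ∀ n, cf c hp (n + 5) = cf c hp n := fun n => by
    have := cf_add hp n
    rwa [hlr] at this
  -- the standard move: `v` replaces `c (n+1)`, the path `R` closes through `c (n+1)`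
  have move : ∀ (n : ℕ) (v u w : V) (R : List V), v ∉ c → Pth G u w R → (∀ z ∈ R, z ∉ c) →
      v ∉ R → 4 ≤ R.length → G.Adj v (cf c hp n) → G.Adj v (cf c hp (n + 2)) →
      G.Adj u (cf c hp (n + 1)) → G.Adj w (cf c hp (n + 1)) →
      (∀ z, z ∈ R → z = p ∨ z = y ∨ z = q ∨ z ∈ mid) → (v = p ∨ v = y ∨ v = q ∨ v ∈ mid) →
      Two49 G 5 (insert p (insert y (insert q (mid.toFinset ∪ C)))) := by
    intro n v u w R hvc hR hRc hvR hRl a1 a2 a3 a4 hRU hvU
    refine arcs61 hc hp (by norm_num) (n + 1) 0 1 3 (by norm_num) (by omega) hR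
      (Pth.singleton v) hRc (by simpa using hvc) (by
        intro z hz hz'
        rw [List.mem_singleton] at hz'
        exact hvR (hz' ▸ hz)) (Or.inl ⟨a3.symm, a4.symm⟩) (Or.inl ⟨a2.symm, ?_⟩) (by omega)
      (by simp) ?_
    · rw [show n + 1 + 1 + 3 = n + 5 by ring, wrap]
      exact a1.symm
    · intro z hz
      apply hU
      rcases hz with h | h | h
      · exact Or.inl h
      · exact Or.inr (hRU z h)
      · rw [List.mem_singleton] at h
        rw [h]; exact Or.inr hvU
  have key := core61 (bit61 G c hp p) (bit61 G c hp x) (bit61 G c hp e) (bit61 G c hp y)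
    (bit61 G c hp q) (fun n => by rw [← hlr]; exact bit61_add hp p n)
    (fun n => by rw [← hlr]; exact bit61_add hp x n)
    (fun n => by rw [← hlr]; exact bit61_add hp e n)
    (fun n => by rw [← hlr]; exact bit61_add hp y n)
    (fun n => by rw [← hlr]; exact bit61_add hp q n)
    ?_ ?_ ?_ ?_ ?_ ?_ ?_ ?_
  · rw [← hlr, bit61_sum hp hn, bit61_sum hp hn, bit61_sum hp hn, bit61_sum hp hn,
      bit61_sum hp hn, hCc] at key
    exact key
  -- F1
  · intro n a1 a2 a3 a4
    rw [bit61_iff hp] at a1 a2 a3 a4
    refine hno (move n q p y _ qc P2 ?_ ?_ ?_ a3 a4 a1 a2 ?_ (by tauto))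
    · intro z hz
      simp only [List.mem_append, List.mem_cons, List.mem_singleton, List.not_mem_nil,
        or_false] at hz
      rcases hz with (h | h) | h
      · rw [h]; exact pc
      · exact mc z h
      · rw [h]; exact yc
    · simp only [List.mem_append, List.mem_cons, List.mem_singleton, List.not_mem_nil,
        or_false, not_or]
      exact ⟨⟨hpq.symm, hqm⟩, hyq'.symm⟩
    · simp only [List.length_append, List.length_cons, List.length_nil]; omega
    · intro z hz
      simp only [List.mem_append, List.mem_cons, List.mem_singleton, List.not_mem_nil,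
        or_false] at hz
      tauto
  -- F2
  · intro n a1 a2 a3 a4
    rw [bit61_iff hp] at a1 a2 a3 a4
    refine hno (move n y p e _ yc P1 ?_ ?_ ?_ a3 a4 a1 a2 ?_ (by tauto))
    · intro z hz
      rcases List.mem_cons.1 hz with h | h
      · rw [h]; exact pc
      · exact mc z h
    · simp only [List.mem_cons, not_or]
      exact ⟨hpy.symm, hym⟩
    · simp only [List.length_cons]; omega
    · intro z hz
      rcases List.mem_cons.1 hz with h | h <;> tauto
  -- F3
  · intro n a1 a2 a3 a4
    rw [bit61_iff hp] at a1 a2 a3 a4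
    refine hno (move n p x q _ pc P3 ?_ ?_ ?_ a1 a2 a3 a4 ?_ (by tauto))
    · intro z hz
      simp only [List.mem_append, List.mem_singleton] at hz
      rcases hz with (h | h) | h
      · exact mc z h
      · rw [h]; exact yc
      · rw [h]; exact qc
    · simp only [List.mem_append, List.mem_singleton, not_or]
      exact ⟨⟨hpm, hpy⟩, hpq⟩
    · simp only [List.length_append, List.length_cons, List.length_nil]; omega
    · intro z hz
      simp only [List.mem_append, List.mem_singleton] at hz
      tauto
  -- F4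
  · intro n a1 a2 a3 a4
    rw [bit61_iff hp] at a1 a2 a3 a4
    refine hno (move n q x y _ qc P4 ?_ ?_ ?_ a3 a4 a1 a2 ?_ (by tauto))
    · intro z hz
      simp only [List.mem_append, List.mem_singleton] at hz
      rcases hz with h | h
      · exact mc z h
      · rw [h]; exact yc
    · simp only [List.mem_append, List.mem_singleton, not_or]
      exact ⟨hqm, hyq'.symm⟩
    · simp only [List.length_append, List.length_cons, List.length_nil]; omega
    · intro z hz
      simp only [List.mem_append, List.mem_singleton] at hz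
      tauto
  -- F5
  · intro n a1 a2 a3 a4
    rw [bit61_iff hp] at a1 a2 a3 a4
    refine hno (arcs61 hc hp (by norm_num) n 2 3 1 (by norm_num) (by omega) Ppx Peyq ?_ ?_ ?_
      (Or.inr ⟨a1.symm, a2.symm⟩) (Or.inr ⟨a3.symm, a4.symm⟩) (by simp) (by simp) ?_)
    · intro z hz
      simp only [List.mem_cons, List.not_mem_nil, or_false] at hz
      rcases hz with h | h
      · rw [h]; exact pc
      · rw [h]; exact mc x hxm
    · intro z hz
      simp only [List.mem_cons, List.not_mem_nil, or_false] at hz
      rcases hz with h | h | h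
      · rw [h]; exact mc e hem
      · rw [h]; exact yc
      · rw [h]; exact qc
    · intro z hz hz'
      simp only [List.mem_cons, List.not_mem_nil, or_false] at hz hz'
      rcases hz with h | h <;> rcases hz' with h' | h' | h'
      · exact hpe (h ▸ h')
      · exact hpy (h ▸ h')
      · exact hpq (h ▸ h')
      · exact hxe (h ▸ h')
      · exact hxy (h ▸ h')
      · exact hxq (h ▸ h')
    · intro z hz
      apply hU
      simp only [List.mem_cons, List.not_mem_nil, or_false] at hz
      rcases hz with h | (h | h) | (h | h | h)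
      · exact Or.inl h
      · tauto
      · rw [h]; tauto
      · rw [h]; tauto
      · tauto
      · tauto
  -- F6
  · intro n a1 a2 a3 a4
    rw [bit61_iff hp] at a1 a2 a3 a4
    refine hno (move n q p e _ qc P1 ?_ ?_ ?_ a3 a4 a1 a2 ?_ (by tauto))
    · intro z hz
      rcases List.mem_cons.1 hz with h | h
      · rw [h]; exact pc
      · exact mc z h
    · simp only [List.mem_cons, not_or]
      exact ⟨hpq.symm, hqm⟩
    · simp only [List.length_cons]; omega
    · intro z hz
      rcases List.mem_cons.1 hz with h | h <;> tauto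
  -- F7
  · intro n a1 a2 a3 a4
    rw [bit61_iff hp] at a1 a2 a3 a4
    refine hno (arcs61 hc hp (by norm_num) n 0 2 2 (by norm_num) (by omega) P1 Pyq ?_ ?_ ?_
      (Or.inl ⟨a1.symm, a2.symm⟩) (Or.inr ⟨a3.symm, a4.symm⟩) (by
        simp only [List.length_cons]; omega) (by simp) ?_)
    · intro z hz
      rcases List.mem_cons.1 hz with h | h
      · rw [h]; exact pc
      · exact mc z h
    · intro z hz
      simp only [List.mem_cons, List.not_mem_nil, or_false] at hz
      rcases hz with h | h
      · rw [h]; exact yc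
      · rw [h]; exact qc
    · intro z hz hz'
      simp only [List.mem_cons, List.not_mem_nil, or_false] at hz hz'
      rcases hz with h | h <;> rcases hz' with h' | h'
      · exact hpy (h ▸ h')
      · exact hpq (h ▸ h')
      · exact hym (h' ▸ h)
      · exact hqm (h' ▸ h)
    · intro z hz
      apply hU
      simp only [List.mem_cons, List.not_mem_nil, or_false] at hz
      tauto
  -- F8
  · intro n a1 a2 a3 a4
    rw [bit61_iff hp] at a1 a2 a3 a4
    refine hno (arcs61 hc hp (by norm_num) n 0 1 2 (by norm_num) (by omega) P1 Pyq ?_ ?_ ?_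
      (Or.inl ⟨a1.symm, a2.symm⟩) (Or.inl ⟨a3.symm, a4.symm⟩) (by
        simp only [List.length_cons]; omega) (by simp) ?_)
    · intro z hz
      rcases List.mem_cons.1 hz with h | h
      · rw [h]; exact pc
      · exact mc z h
    · intro z hz
      simp only [List.mem_cons, List.not_mem_nil, or_false] at hz
      rcases hz with h | h
      · rw [h]; exact yc
      · rw [h]; exact qc
    · intro z hz hz'
      simp only [List.mem_cons, List.not_mem_nil, or_false] at hz hz'
      rcases hz with h | h <;> rcases hz' with h' | h'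
      · exact hpy (h ▸ h')
      · exact hpq (h ▸ h')
      · exact hym (h' ▸ h)
      · exact hqm (h' ▸ h)
    · intro z hz
      apply hU
      simp only [List.mem_cons, List.not_mem_nil, or_false] at hz
      tauto

/-- **LL4**: `C` a cycle of length 4, `p, x, …, y, q` a path with at least 4 vertices -/
theorem ll4_61 [DecidableEq V] {C : Finset V} (hC : CycSet G C) (hCr : C.card = 4)
    {p x y q : V} {mid : List V} (hmid : Pth G x y mid) (hpx : G.Adj p x)
    (hyq : G.Adj y q) (hpq : p ≠ q) (hpm : p ∉ mid) (hqm : q ∉ mid)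
    (hpC : p ∉ C) (hqC : q ∉ C) (hmC : ∀ z ∈ mid, z ∉ C) (hlen : 2 ≤ mid.length)
    (hno : ¬ Two49 G 4 (insert p (insert q (mid.toFinset ∪ C)))) :
    2 * (dg G C p + dg G C q) + dg G C x + dg G C y ≤ 16 := by
  obtain ⟨c, hc, hs⟩ := hC
  have hn := Cyc.nodup hc
  have hcard := card_of_list hn hs
  have hCc : c.toFinset = C := by
    ext z; rw [List.mem_toFinset]; exact hs z
  have hlr : c.length = 4 := by omega
  have hp : 0 < c.length := by omega
  have pc : p ∉ c := fun h => hpC ((hs p).1 h)
  have qc : q ∉ c := fun h => hqC ((hs q).1 h)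
  have mc : ∀ z ∈ mid, z ∉ c := fun z hz h => hmC z hz ((hs z).1 h)
  have hxm := hmid.head_mem
  have hym := hmid.last_mem
  have hxy : x ≠ y := by
    rintro rfl
    have := hmid.length_le_one
    rw [this] at hlen
    simp at hlen
  have hyq' : y ≠ q := hyq.ne
  have hpx' : p ≠ x := hpx.ne
  have hxq : x ≠ q := fun h => hqm (h ▸ hxm)
  have hpy : p ≠ y := fun h => hpm (h ▸ hym)
  have hU : ∀ z, z ∈ c ∨ z = p ∨ z = q ∨ z ∈ mid →
      z ∈ insert p (insert q (mid.toFinset ∪ C)) := by
    intro z hz
    simp only [Finset.mem_insert, Finset.mem_union, List.mem_toFinset]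
    rcases hz with h | h | h | h
    · exact Or.inr (Or.inr (Or.inr ((hs z).1 h)))
    · exact Or.inl h
    · exact Or.inr (Or.inl h)
    · exact Or.inr (Or.inr (Or.inl h))
  have P1 : Pth G p y (p :: mid) := hmid.cons hpx hpm
  have P4 : Pth G x q (mid ++ [q]) := hmid.concat hyq hqm
  have Ppx : Pth G p x [p, x] := (Pth.singleton x).cons hpx (by simpa using hpx')
  have Pyq : Pth G y q [y, q] := (Pth.singleton q).cons hyq (by simpa using hyq')
  have wrap : ∀ n, cf c hp (n + 4) = cf c hp n := fun n => by
    have := cf_add hp n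
    rwa [hlr] at this
  have move : ∀ (n : ℕ) (v u w : V) (R : List V), v ∉ c → Pth G u w R → (∀ z ∈ R, z ∉ c) →
      v ∉ R → 3 ≤ R.length → G.Adj v (cf c hp n) → G.Adj v (cf c hp (n + 2)) →
      G.Adj u (cf c hp (n + 1)) → G.Adj w (cf c hp (n + 1)) →
      (∀ z, z ∈ R → z = p ∨ z = q ∨ z ∈ mid) → (v = p ∨ v = q ∨ v ∈ mid) →
      Two49 G 4 (insert p (insert q (mid.toFinset ∪ C))) := by
    intro n v u w R hvc hR hRc hvR hRl a1 a2 a3 a4 hRU hvU
    refine arcs61 hc hp (by norm_num) (n + 1) 0 1 2 (by norm_num) (by omega) hR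
      (Pth.singleton v) hRc (by simpa using hvc) (by
        intro z hz hz'
        rw [List.mem_singleton] at hz'
        exact hvR (hz' ▸ hz)) (Or.inl ⟨a3.symm, a4.symm⟩) (Or.inl ⟨a2.symm, ?_⟩) (by omega)
      (by simp) ?_
    · rw [show n + 1 + 1 + 2 = n + 4 by ring, wrap]
      exact a1.symm
    · intro z hz
      apply hU
      rcases hz with h | h | h
      · exact Or.inl h
      · exact Or.inr (hRU z h)
      · rw [List.mem_singleton] at h
        rw [h]; exact Or.inr hvU
  have key := core_four61 (bit61 G c hp p) (bit61 G c hp x) (bit61 G c hp y)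
    (bit61 G c hp q) (fun n => by rw [← hlr]; exact bit61_add hp p n)
    (fun n => by rw [← hlr]; exact bit61_add hp x n)
    (fun n => by rw [← hlr]; exact bit61_add hp y n)
    (fun n => by rw [← hlr]; exact bit61_add hp q n)
    ?_ ?_ ?_
  · rw [← hlr, bit61_sum hp hn, bit61_sum hp hn, bit61_sum hp hn, bit61_sum hp hn, hCc] at key
    exact key
  -- move 1
  · intro n a1 a2 a3 a4
    rw [bit61_iff hp] at a1 a2 a3 a4
    refine hno (move n p x q _ pc P4 ?_ ?_ ?_ a1 a2 a3 a4 ?_ (by tauto))
    · intro z hz
      simp only [List.mem_append, List.mem_singleton] at hz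
      rcases hz with h | h
      · exact mc z h
      · rw [h]; exact qc
    · simp only [List.mem_append, List.mem_singleton, not_or]
      exact ⟨hpm, hpq⟩
    · simp only [List.length_append, List.length_cons, List.length_nil]; omega
    · intro z hz
      simp only [List.mem_append, List.mem_singleton] at hz
      tauto
  -- move 1'
  · intro n a1 a2 a3 a4
    rw [bit61_iff hp] at a1 a2 a3 a4
    refine hno (move n q p y _ qc P1 ?_ ?_ ?_ a1 a2 a4 a3 ?_ (by tauto))
    · intro z hz
      rcases List.mem_cons.1 hz with h | h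
      · rw [h]; exact pc
      · exact mc z h
    · simp only [List.mem_cons, not_or]
      exact ⟨hpq.symm, hqm⟩
    · simp only [List.length_cons]; omega
    · intro z hz
      rcases List.mem_cons.1 hz with h | h <;> tauto
  -- move 2
  · intro n a1 a2 a3 a4
    rw [bit61_iff hp] at a1 a2 a3 a4
    refine hno (arcs61 hc hp (by norm_num) n 1 2 1 (by norm_num) (by omega) Pyq Ppx ?_ ?_ ?_
      (Or.inr ⟨a3.symm, a4.symm⟩) (Or.inr ⟨a1.symm, a2.symm⟩) (by simp) (by simp) ?_)
    · intro z hz
      simp only [List.mem_cons, List.not_mem_nil, or_false] at hz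
      rcases hz with h | h
      · rw [h]; exact mc y hym
      · rw [h]; exact qc
    · intro z hz
      simp only [List.mem_cons, List.not_mem_nil, or_false] at hz
      rcases hz with h | h
      · rw [h]; exact pc
      · rw [h]; exact mc x hxm
    · intro z hz hz'
      simp only [List.mem_cons, List.not_mem_nil, or_false] at hz hz'
      rcases hz with h | h <;> rcases hz' with h' | h'
      · exact hpy (h'.symm.trans h)
      · exact hxy (h'.symm.trans h)
      · exact hpq (h'.symm.trans h)
      · exact hxq (h'.symm.trans h)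
    · intro z hz
      apply hU
      simp only [List.mem_cons, List.not_mem_nil, or_false] at hz
      rcases hz with h | (h | h) | (h | h)
      · exact Or.inl h
      · rw [h]; tauto
      · tauto
      · tauto
      · rw [h]; tauto

/-- **(E3)**, `r = 5`: every path `p, x, …, e, y, q` with at least 6 vertices outside the optimal
family -/
theorem Opt49.e3_five61 [DecidableEq V] {U : Finset V} {k : ℕ} {F : Finset (Finset V)}
    (hF : Opt49 G U 5 F) (hk : F.card + 1 ≤ k) (hdeg : ∀ v ∈ U, 2 * k * 5 ≤ 3 * dg G U v)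
    {p x e y q : V} {mid : List V} (hmid : Pth G x e mid) (hpx : G.Adj p x) (hey : G.Adj e y)
    (hyq : G.Adj y q) (hpy : p ≠ y) (hpq : p ≠ q) (hpm : p ∉ mid) (hym : y ∉ mid) (hqm : q ∉ mid)
    (hp : p ∈ rest U F) (hy : y ∈ rest U F) (hq : q ∈ rest U F) (hm : ∀ z ∈ mid, z ∈ rest U F)
    (hlen : 3 ≤ mid.length) :
    24 ≤ 2 * (dg G (rest U F) p + dg G (rest U F) q) + dg G (rest U F) x
      + dg G (rest U F) e + dg G (rest U F) y := by
  have hx := hm x hmid.head_mem
  have he := hm e hmid.last_mem
  have h1 := hdeg p (rest_subset _ _ hp)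
  have h2 := hdeg q (rest_subset _ _ hq)
  have h3 := hdeg x (rest_subset _ _ hx)
  have h4 := hdeg e (rest_subset _ _ he)
  have h4' := hdeg y (rest_subset _ _ hy)
  rw [hF.fam.dg_split] at h1 h2 h3 h4 h4'
  have h5 : ∑ C ∈ F, (2 * (dg G C p + dg G C q) + dg G C x + dg G C e + dg G C y)
      ≤ F.card * 23 := by
    rw [← smul_eq_mul]
    refine Finset.sum_le_card_nsmul _ _ _ fun C hC => ?_
    have hCr := hF.fam.len C hC
    rcases Nat.lt_or_ge 5 C.card with h | h
    · have g1 := hF.outside (by omega) hC h hp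
      have g2 := hF.outside (by omega) hC h hq
      have g3 := hF.outside (by omega) hC h hx
      have g4 := hF.outside (by omega) hC h he
      have g5 := hF.outside (by omega) hC h hy
      omega
    · refine ll5_61 (hF.fam.cyc C hC) (le_antisymm h hCr) hmid hpx hey hyq hpy hpq hpm hym hqm
        ((mem_rest.1 hp).2 C hC) ((mem_rest.1 hy).2 C hC) ((mem_rest.1 hq).2 C hC)
        (fun z hz => (mem_rest.1 (hm z hz)).2 C hC) hlen ?_
      intro h2
      refine hF.no_two hC (h2.mono ?_)
      intro z hz
      rw [Finset.mem_insert, Finset.mem_insert, Finset.mem_insert, Finset.mem_union,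
        List.mem_toFinset] at hz
      rcases hz with h | h | h | h | h
      · rw [h]; exact Finset.mem_union_right _ hp
      · rw [h]; exact Finset.mem_union_right _ hy
      · rw [h]; exact Finset.mem_union_right _ hq
      · exact Finset.mem_union_right _ (hm z h)
      · exact Finset.mem_union_left _ h
  simp only [Finset.sum_add_distrib, ← Finset.mul_sum] at h5
  omega

/-- **(E3)**, `r = 4`: every path `p, x, …, y, q` with at least 4 vertices outside the optimal
family -/
theorem Opt49.e3_four61 [DecidableEq V] {U : Finset V} {k : ℕ} {F : Finset (Finset V)}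
    (hF : Opt49 G U 4 F) (hk : F.card + 1 ≤ k) (hdeg : ∀ v ∈ U, 2 * k * 4 ≤ 3 * dg G U v)
    {p x y q : V} {mid : List V} (hmid : Pth G x y mid) (hpx : G.Adj p x)
    (hyq : G.Adj y q) (hpq : p ≠ q) (hpm : p ∉ mid) (hqm : q ∉ mid)
    (hp : p ∈ rest U F) (hq : q ∈ rest U F) (hm : ∀ z ∈ mid, z ∈ rest U F)
    (hlen : 2 ≤ mid.length) :
    16 ≤ 2 * (dg G (rest U F) p + dg G (rest U F) q) + dg G (rest U F) x
      + dg G (rest U F) y := by
  have hx := hm x hmid.head_mem
  have hy := hm y hmid.last_mem
  have h1 := hdeg p (rest_subset _ _ hp)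
  have h2 := hdeg q (rest_subset _ _ hq)
  have h3 := hdeg x (rest_subset _ _ hx)
  have h4 := hdeg y (rest_subset _ _ hy)
  rw [hF.fam.dg_split] at h1 h2 h3 h4
  have h5 : ∑ C ∈ F, (2 * (dg G C p + dg G C q) + dg G C x + dg G C y)
      ≤ F.card * 16 := by
    rw [← smul_eq_mul]
    refine Finset.sum_le_card_nsmul _ _ _ fun C hC => ?_
    have hCr := hF.fam.len C hC
    rcases Nat.lt_or_ge 4 C.card with h | h
    · have g1 := hF.outside (by omega) hC h hp
      have g2 := hF.outside (by omega) hC h hq
      have g3 := hF.outside (by omega) hC h hx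
      have g4 := hF.outside (by omega) hC h hy
      omega
    · refine ll4_61 (hF.fam.cyc C hC) (le_antisymm h hCr) hmid hpx hyq hpq hpm hqm
        ((mem_rest.1 hp).2 C hC) ((mem_rest.1 hq).2 C hC)
        (fun z hz => (mem_rest.1 (hm z hz)).2 C hC) hlen ?_
      intro h2
      refine hF.no_two hC (h2.mono ?_)
      intro z hz
      rw [Finset.mem_insert, Finset.mem_insert, Finset.mem_union, List.mem_toFinset] at hz
      rcases hz with h | h | h | h
      · rw [h]; exact Finset.mem_union_right _ hp
      · rw [h]; exact Finset.mem_union_right _ hq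
      · exact Finset.mem_union_right _ (hm z h)
      · exact Finset.mem_union_left _ h
  simp only [Finset.sum_add_distrib, ← Finset.mul_sum] at h5
  omega

end Pool.Agent.P0
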