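import Pool.Agent.P0.Span17
import Pool.Agent.P0.Ends49
import Pool.Agent.P0.Graph61

set_option linter.all false

/-!
# P0, item I2: the end of the cases `r = 4` and `r = 5`
-/

namespace Pool.Agent.P0

open Pool.Agent.Helper14.LongCyc Pool.Agent.LCK Pool.Agent.FRC

universe u

variable {V : Type u} {G : SimpleGraph V}

section

variable [DecidableEq V] {U : Finset V} {r m : ℕ} {F : Finset (Finset V)} {v : ℕ → V}

/-- the first vertex has degree at most `r - 2` -/
theorem OptV49.deg_first17 (h : OptV49 G U r m F v) (hr : 3 ≤ r) :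
    dg G (rest U F) (v 0) ≤ r - 2 := by
  classical
  have h1 : (Finset.Icc 1 (r - 2)).card = r - 2 := by
    rw [Nat.card_Icc]; omega
  rw [← h1]
  refine (dg_le49 (S := (Finset.Icc 1 (r - 2)).image v) ?_).trans Finset.card_image_le
  intro z hz hza
  obtain ⟨j, j1, j2, j3, rfl⟩ := h.nb hr hz hza
  exact Finset.mem_image.2 ⟨j, Finset.mem_Icc.2 ⟨j1, by omega⟩, rfl⟩

/-- **(SP)** for `r = 4, 5`: the path spans the rest -/
theorem OptV49.span17 (h : OptV49 G U r m F v) {k : ℕ} (hr : 4 ≤ r) (hr5 : r ≤ 5)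
    (hk : F.card + 1 ≤ k) (hdeg : ∀ v ∈ U, 2 * k * r ≤ 3 * dg G U v) {z : V}
    (hz : z ∈ rest U F) : ∃ i, i < m ∧ v i = z := by
  have h0 := h.pos
  have h1 := h.deg_first17 (by omega)
  have h2 := sp17 (by omega) h.opt.noLong h.toP.path h.toP.sub
    (fun a b m' h1 h2 => h.toP.max F a b m' h.opt h1 h2) (by
      intro u hu hul
      have := h.toP.e2 hr hk hdeg hu hul
      omega) z hz
  rw [mem_seg] at h2
  obtain ⟨j, _, j2, j3⟩ := h2
  exact ⟨j, by omega, j3.symm⟩

/-- the rest has at most `m` vertices -/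
theorem OptV49.card17 (h : OptV49 G U r m F v) {k : ℕ} (hr : 4 ≤ r) (hr5 : r ≤ 5)
    (hk : F.card + 1 ≤ k) (hdeg : ∀ v ∈ U, 2 * k * r ≤ 3 * dg G U v) :
    (rest U F).card ≤ m := by
  classical
  have h1 : rest U F ⊆ (Finset.range m).image v := by
    intro z hz
    obtain ⟨i, hi, he⟩ := h.span17 hr hr5 hk hdeg hz
    exact Finset.mem_image.2 ⟨i, Finset.mem_range.2 hi, he⟩
  have h2 := Finset.card_le_card h1
  have h3 := Finset.card_image_le (s := Finset.range m) (f := v)
  rw [Finset.card_range] at h3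
  omega

/-- **`r = 4` is impossible** -/
theorem OptV49.no_four17 {k : ℕ} (h : OptV49 G U 4 m F v) (hk : F.card + 1 ≤ k)
    (hdeg : ∀ v ∈ U, 2 * k * 4 ≤ 3 * dg G U v) (hH : 4 ≤ (rest U F).card) : False := by
  have hm : 4 ≤ m := hH.trans (h.card17 le_rfl (by norm_num) hk hdeg)
  have h1 := seg_pa49 h.pa (m - 3) 1 (by omega)
  rw [show 1 + (m - 3) = m - 2 by omega] at h1
  have h2 := h.opt.e3_four61 hk hdeg h1 (h.pa.ch 0 (by omega)) (by
    have := h.pa.ch (m - 2) (by omega)
    rwa [show m - 2 + 1 = m - 1 by omega] at this) (by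
    intro hh
    have := h.pa.inj _ _ (by omega) (by omega) hh
    omega) (by
    rw [mem_seg]
    rintro ⟨j, j1, j2, j3⟩
    have := h.pa.inj _ _ (by omega) (by omega) j3
    omega) (by
    rw [mem_seg]
    rintro ⟨j, j1, j2, j3⟩
    have := h.pa.inj _ _ (by omega) (by omega) j3
    omega) (h.pa.mem _ (by omega)) (h.pa.mem _ (by omega)) (by
    intro z hz
    rw [mem_seg] at hz
    obtain ⟨j, j1, j2, rfl⟩ := hz
    exact h.pa.mem j (by omega)) (by rw [seg_length]; omega)
  have h3 := h.deg_first17 (by norm_num)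
  have h4 := h.rev.deg_first17 (by norm_num)
  have h5 := h.deg_second le_rfl hk hdeg (by omega)
  have h6 := h.rev.deg_second le_rfl hk hdeg (by omega)
  simp only [Nat.sub_zero] at h4
  rw [show m - 1 - 1 = m - 2 by omega] at h6
  omega

/-- the two first vertices, `r = 5` -/
theorem OptV49.first_two_five17 {k : ℕ} (h : OptV49 G U 5 m F v) (hk : F.card + 1 ≤ k)
    (hdeg : ∀ v ∈ U, 2 * k * 5 ≤ 3 * dg G U v) (hm : 2 ≤ m) :
    2 * dg G (rest U F) (v 0) + dg G (rest U F) (v 1) ≤ 9 := by
  classical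
  have h1 := h.deg_first17 (by norm_num)
  have h2 := h.deg_second (by norm_num) hk hdeg hm
  rcases Nat.lt_or_ge (dg G (rest U F) (v 0)) 3 with h3 | h3
  · omega
  · -- the first vertex sees positions 1, 2, 3
    have hall : ∀ j, 1 ≤ j → j ≤ 3 → j < m ∧ G.Adj (v 0) (v j) := by
      by_contra hcon
      push Not at hcon
      obtain ⟨j, j1, j2, j3⟩ := hcon
      have h4 : dg G (rest U F) (v 0) ≤ ((Finset.Icc 1 3).erase j).card := by
        refine (dg_le49 (S := ((Finset.Icc 1 3).erase j).image v) ?_).trans Finset.card_image_le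
        intro z hz hza
        obtain ⟨i, i1, i2, i3, rfl⟩ := h.nb (by norm_num) hz hza
        refine Finset.mem_image.2 ⟨i, Finset.mem_erase.2 ⟨?_, Finset.mem_Icc.2 ⟨i1, by omega⟩⟩, rfl⟩
        rintro rfl
        exact j3 i3 hza
      rw [Finset.card_erase_of_mem (Finset.mem_Icc.2 ⟨j1, j2⟩), Nat.card_Icc] at h4
      omega
    have hb : dg G (rest U F) (v 1) ≤ 3 := by
      refine (dg_le49 (S := ({0, 2, 3} : Finset ℕ).image v) ?_).trans
        (Finset.card_image_le.trans Finset.card_le_three)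
      intro z hz hza
      obtain ⟨i, i1, i2, i3, rfl⟩ := h.nb_second (by norm_num) hk hdeg hm hz hza
      refine Finset.mem_image.2 ⟨i, ?_, rfl⟩
      rcases Nat.lt_or_ge i 4 with h5 | h5
      · simp only [Finset.mem_insert, Finset.mem_singleton]
        omega
      · exfalso
        obtain rfl : i = 4 := by omega
        -- the cycle 0 2 1 4 3
        have a02 := (hall 2 (by norm_num) (by norm_num)).2
        have a03 := (hall 3 (by norm_num) (by norm_num)).2
        have a12 := h.pa.ch 1 (by omega)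
        have a34 := h.pa.ch 3 (by omega)
        have hinj : ∀ i j, i < 5 → j < 5 → i ≠ j → v i ≠ v j := by
          intro i j hi hj hij hh
          exact hij (h.pa.inj i j (by omega) (by omega) hh)
        have hc : Cyc G [v 0, v 2, v 1, v 4, v 3] := by
          refine ⟨by norm_num, v 0, v 3, ?_, a03.symm⟩
          refine ⟨?_, ?_, rfl, rfl⟩
          · simp only [List.nodup_cons, List.mem_cons, List.not_mem_nil, or_false, not_or,
              not_false_iff, List.nodup_nil, and_true]
            refine ⟨⟨hinj _ _ ?_ ?_ ?_, hinj _ _ ?_ ?_ ?_, hinj _ _ ?_ ?_ ?_, hinj _ _ ?_ ?_ ?_⟩,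
              ⟨hinj _ _ ?_ ?_ ?_, hinj _ _ ?_ ?_ ?_, hinj _ _ ?_ ?_ ?_⟩,
              ⟨hinj _ _ ?_ ?_ ?_, hinj _ _ ?_ ?_ ?_⟩, hinj _ _ ?_ ?_ ?_⟩ <;> norm_num
          · simp only [List.isChain_cons_cons, List.isChain_singleton, and_true]
            exact ⟨a02, a12.symm, hza, a34.symm⟩
        have := h.opt.noLong _ hc (by
          intro z hz
          simp only [List.mem_cons, List.not_mem_nil, or_false] at hz
          rcases hz with rfl | rfl | rfl | rfl | rfl <;> exact h.pa.mem _ (by omega))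
        simp at this
    omega

/-- the third vertex, `r = 5` -/
theorem OptV49.third_five17 {k : ℕ} (h : OptV49 G U 5 m F v) (hk : F.card + 1 ≤ k)
    (hdeg : ∀ v ∈ U, 2 * k * 5 ≤ 3 * dg G U v) (hm : 3 ≤ m) :
    dg G (rest U F) (v 2) ≤ 5 := by
  classical
  have h1 : (({0, 1, 3, 4, 5} : Finset ℕ)).card = 5 := by decide
  rw [← h1]
  refine (dg_le49 (S := ({0, 1, 3, 4, 5} : Finset ℕ).image v) ?_).trans Finset.card_image_le
  intro z hz hza
  obtain ⟨i, hi, rfl⟩ := h.span17 (by norm_num) le_rfl hk hdeg hz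
  refine Finset.mem_image.2 ⟨i, ?_, rfl⟩
  rcases Nat.lt_or_ge i 3 with h2 | h2
  · have h3 : i ≠ 2 := by
      rintro rfl
      exact G.loopless.irrefl _ hza
    simp only [Finset.mem_insert, Finset.mem_singleton]
    omega
  · have hpa : Pa G (rest U F) (m - 2) (fun i => v (i + 2)) :=
      ⟨fun i hi => h.pa.mem _ (by omega), fun i i' hi hi' hii => by
        have := h.pa.inj _ _ (by omega) (by omega) hii
        omega, fun i hi => h.pa.ch (i + 2) (by omega)⟩
    have := Pa.cyc hpa (by norm_num) h.opt.noLong (m := i - 2) (by omega) (by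
      show G.Adj (v (0 + 2)) (v (i - 2 + 2))
      rw [Nat.zero_add, show i - 2 + 2 = i by omega]
      exact hza)
    simp only [Finset.mem_insert, Finset.mem_singleton]
    omega

/-- **`r = 5` is impossible** -/
theorem OptV49.no_five17 {k : ℕ} (h : OptV49 G U 5 m F v) (hk : F.card + 1 ≤ k)
    (hdeg : ∀ v ∈ U, 2 * k * 5 ≤ 3 * dg G U v) (hH : 6 ≤ (rest U F).card) : False := by
  have hm : 6 ≤ m := hH.trans (h.card17 (by norm_num) le_rfl hk hdeg)
  have h1 := seg_pa49 h.pa (m - 4) 1 (by omega)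
  rw [show 1 + (m - 4) = m - 3 by omega] at h1
  have h2 := h.opt.e3_five61 hk hdeg h1 (h.pa.ch 0 (by omega)) (y := v (m - 2)) (q := v (m - 1))
    (by
    have := h.pa.ch (m - 3) (by omega)
    rwa [show m - 3 + 1 = m - 2 by omega] at this) (by
    have := h.pa.ch (m - 2) (by omega)
    rwa [show m - 2 + 1 = m - 1 by omega] at this) (by
    intro hh
    have := h.pa.inj _ _ (by omega) (by omega) hh
    omega) (by
    intro hh
    have := h.pa.inj _ _ (by omega) (by omega) hh
    omega) (by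
    rw [mem_seg]
    rintro ⟨j, j1, j2, j3⟩
    have := h.pa.inj _ _ (by omega) (by omega) j3
    omega) (by
    rw [mem_seg]
    rintro ⟨j, j1, j2, j3⟩
    have := h.pa.inj _ _ (by omega) (by omega) j3
    omega) (by
    rw [mem_seg]
    rintro ⟨j, j1, j2, j3⟩
    have := h.pa.inj _ _ (by omega) (by omega) j3
    omega) (h.pa.mem _ (by omega)) (h.pa.mem _ (by omega)) (h.pa.mem _ (by omega)) (by
    intro z hz
    rw [mem_seg] at hz
    obtain ⟨j, j1, j2, rfl⟩ := hz
    exact h.pa.mem j (by omega)) (by rw [seg_length]; omega)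
  have h3 := h.first_two_five17 hk hdeg (by omega)
  have h4 := h.rev.first_two_five17 hk hdeg (by omega)
  have h5 := h.rev.third_five17 hk hdeg (by omega)
  simp only [Nat.sub_zero] at h4 h5
  rw [show m - 1 - 1 = m - 2 by omega] at h4
  rw [show m - 1 - 2 = m - 3 by omega] at h5
  omega

end

end Pool.Agent.P0
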