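import Pool.Agent.P0.E349

set_option linter.all false

/-!
# P0, row I3: families of minimal total length
-/

namespace Pool.Agent.P0

open Pool.Agent.Helper14.LongCyc Pool.Agent.LCK

universe u

variable {V : Type u} {G : SimpleGraph V}

/-- a family of disjoint long cycles of minimal total length among the families with the same number
of members -/
structure MinK99 (G : SimpleGraph V) (U : Finset V) (r : ℕ) (K : Finset (Finset V)) : Prop where
  fam : Fam G U (fun L => r ≤ L) K
  min : ∀ K', Fam G U (fun L => r ≤ L) K' → K'.card = K.card → tot K ≤ tot K'

end Pool.Agent.P0
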