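import Pool.Agent.P0.Closed61

set_option linter.all false

/-!
# P0, row I3, `r = 4, 5`: the refined local lemmas (one of the two cycles has exactly `r` vertices)
-/

namespace Pool.Agent.P0

open Pool.Agent.Helper14.LongCyc Pool.Agent.LCK Closed99

universe u

variable {V : Type u} {G : SimpleGraph V}

/-- two disjoint long cycles inside `U`, the first one with exactly `r` vertices -/
def TwoR61 (G : SimpleGraph V) (r : ℕ) (U : Finset V) : Prop :=
  ∃ D E : Finset V, CycSet G D ∧ CycSet G E ∧ D ⊆ U ∧ E ⊆ U ∧ D.card = r ∧ r ≤ E.card ∧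
    Disjoint D E

theorem TwoR61.mono {r : ℕ} {U U' : Finset V} (h : TwoR61 G r U) (hU : U ⊆ U') :
    TwoR61 G r U' := by
  obtain ⟨D, E, h1, h2, h3, h4, h5, h6, h7⟩ := h
  exact ⟨D, E, h1, h2, h3.trans hU, h4.trans hU, h5, h6, h7⟩

theorem TwoR61.two {r : ℕ} {U : Finset V} (h : TwoR61 G r U) : Two49 G r U := by
  obtain ⟨D, E, h1, h2, h3, h4, h5, h6, h7⟩ := h
  exact ⟨D, E, h1, h2, h3, h4, h5.ge, h6, h7⟩

/-- two cycles, each given by two paths joined by two edges -/
theorem mkr61 [DecidableEq V] {r : ℕ} {U : Finset V} {a b a' b' c d c' d' : V}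
    {l l' m m' : List V} (h1 : Pth G a b l) (h1' : Pth G a' b' l') (h2 : Pth G c d m)
    (h2' : Pth G c' d' m') (hl : ∀ x ∈ l, x ∉ l') (hm : ∀ x ∈ m, x ∉ m')
    (hr : 3 ≤ r) (hlr : r ≤ l.length + l'.length) (hmr : r ≤ m.length + m'.length)
    (hex : l.length + l'.length = r ∨ m.length + m'.length = r)
    (hadj : (G.Adj a a' ∧ G.Adj b b') ∨ (G.Adj a b' ∧ G.Adj b a'))
    (hadj' : (G.Adj c c' ∧ G.Adj d d') ∨ (G.Adj c d' ∧ G.Adj d c'))
    (hlU : ∀ x, x ∈ l ∨ x ∈ l' → x ∈ U) (hmU : ∀ x, x ∈ m ∨ x ∈ m' → x ∈ U)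
    (hdis : ∀ x, x ∈ l ∨ x ∈ l' → ¬ (x ∈ m ∨ x ∈ m')) : TwoR61 G r U := by
  obtain ⟨e1, e2⟩ := joinSet h1 h1' hl (by omega) hadj
  obtain ⟨f1, f2⟩ := joinSet h2 h2' hm (by omega) hadj'
  have s1 : (l ++ l').toFinset ⊆ U := by
    intro x hx
    rw [List.mem_toFinset, List.mem_append] at hx
    exact hlU x hx
  have s2 : (m ++ m').toFinset ⊆ U := by
    intro x hx
    rw [List.mem_toFinset, List.mem_append] at hx
    exact hmU x hx
  have s3 : Disjoint (l ++ l').toFinset (m ++ m').toFinset := by
    rw [Finset.disjoint_left]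
    intro x hx hx'
    rw [List.mem_toFinset, List.mem_append] at hx hx'
    exact hdis x hx hx'
  rcases hex with h | h
  · exact ⟨_, _, e1, f1, s1, s2, by rw [e2]; exact h, by rw [f2]; exact hmr, s3⟩
  · exact ⟨_, _, f1, e1, s2, s1, by rw [f2]; exact h, by rw [e2]; exact hlr, s3.symm⟩

/-- two disjoint arcs of a cycle and two disjoint outside paths attached to their ends -/
theorem arcsr61 [DecidableEq V] {c : List V} (hc : Cyc G c) (hp : 0 < c.length) {r : ℕ}
    (hr : 3 ≤ r) {U : Finset V} (n s g t : ℕ) (hs : s < g) (ht : g + t < c.length)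
    {u w u' w' : V} {R R' : List V} (hR : Pth G u w R) (hR' : Pth G u' w' R')
    (hRc : ∀ z ∈ R, z ∉ c) (hRc' : ∀ z ∈ R', z ∉ c) (hRR : ∀ z ∈ R, z ∉ R')
    (h1 : (G.Adj (cf c hp n) u ∧ G.Adj (cf c hp (n + s)) w) ∨
      (G.Adj (cf c hp n) w ∧ G.Adj (cf c hp (n + s)) u))
    (h2 : (G.Adj (cf c hp (n + g)) u' ∧ G.Adj (cf c hp (n + g + t)) w') ∨
      (G.Adj (cf c hp (n + g)) w' ∧ G.Adj (cf c hp (n + g + t)) u'))
    (hl : r ≤ s + 1 + R.length) (hl' : r ≤ t + 1 + R'.length)
    (hex : s + 1 + R.length = r ∨ t + 1 + R'.length = r)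
    (hU : ∀ z, z ∈ c ∨ z ∈ R ∨ z ∈ R' → z ∈ U) : TwoR61 G r U := by
  have hA := arc_pth hc hp s n (by omega)
  have hB := arc_pth hc hp t (n + g) (by omega)
  refine mkr61 (r := r) hA hR hB hR' ?_ ?_ hr ?_ ?_ ?_ h1 h2 ?_ ?_ ?_
  · intro z hz hz'
    exact hRc z hz' (arc_mem49 hp hz)
  · intro z hz hz'
    exact hRc' z hz' (arc_mem49 hp hz)
  · rw [seg_length]; exact hl
  · rw [seg_length]; exact hl'
  · rw [seg_length, seg_length]; exact hex
  · intro z hz
    rcases hz with hz | hz
    · exact hU z (Or.inl (arc_mem49 hp hz))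
    · exact hU z (Or.inr (Or.inl hz))
  · intro z hz
    rcases hz with hz | hz
    · exact hU z (Or.inl (arc_mem49 hp hz))
    · exact hU z (Or.inr (Or.inr hz))
  · intro z hz hz'
    rcases hz with hz | hz
    · rcases hz' with hz' | hz'
      · rw [mem_seg] at hz hz'
        obtain ⟨i, i1, i2, i3⟩ := hz
        obtain ⟨j, j1, j2, j3⟩ := hz'
        rw [i3, show i = n + (i - n) by omega, show j = n + (j - n) by omega] at j3
        exact far49 hc hp n (s := i - n) (t := j - n) (by omega) (by omega) j3
      · exact hRc' z hz' (arc_mem49 hp hz)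
    · rcases hz' with hz' | hz'
      · exact hRc z hz (arc_mem49 hp hz')
      · exact hRR z hz hz'

/-- **LL5**, refined: `C` a cycle of length 5, `p, x, …, e, y, q` a path with at least 6 vertices -/
theorem ll5r61 [DecidableEq V] {C : Finset V} (hC : CycSet G C) (hCr : C.card = 5)
    {p x e y q : V} {mid : List V} (hmid : Pth G x e mid) (hpx : G.Adj p x) (hey : G.Adj e y)
    (hyq : G.Adj y q) (hpy : p ≠ y) (hpq : p ≠ q) (hpm : p ∉ mid) (hym : y ∉ mid) (hqm : q ∉ mid)
    (hpC : p ∉ C) (hyC : y ∉ C) (hqC : q ∉ C) (hmC : ∀ z ∈ mid, z ∉ C) (hlen : 3 ≤ mid.length)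
    (hno : ¬ TwoR61 G 5 (insert p (insert y (insert q (mid.toFinset ∪ C))))) :
    2 * (dg G C p + dg G C q) + dg G C x + dg G C e + dg G C y ≤ 23 := by
  obtain ⟨c, hc, hs⟩ := hC
  have hn := Cyc.nodup hc
  have hcard := card_of_list hn hs
  have hCc : c.toFinset = C := by
    ext z; rw [List.mem_toFinset]; exact hs z
  have hlr : c.length = 5 := by omega
  have hp : 0 < c.length := by omega
  have pc : p ∉ c := fun h => hpC ((hs p).1 h)
  have yc : y ∉ c := fun h => hyC ((hs y).1 h)
  have qc : q ∉ c := fun h => hqC ((hs q).1 h)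
  have mc : ∀ z ∈ mid, z ∉ c := fun z hz h => hmC z hz ((hs z).1 h)
  have hxm := hmid.head_mem
  have hem := hmid.last_mem
  have hyq' : y ≠ q := hyq.ne
  have hxe : x ≠ e := by
    rintro rfl
    have := hmid.length_le_one
    rw [this] at hlen
    simp at hlen
  have hxy : x ≠ y := fun h => hym (h ▸ hxm)
  have hxq : x ≠ q := fun h => hqm (h ▸ hxm)
  have hpe : p ≠ e := fun h => hpm (h ▸ hem)
  have hpx' : p ≠ x := hpx.ne
  have hU : ∀ z, z ∈ c ∨ z = p ∨ z = y ∨ z = q ∨ z ∈ mid →
      z ∈ insert p (insert y (insert q (mid.toFinset ∪ C))) := by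
    intro z hz
    simp only [Finset.mem_insert, Finset.mem_union, List.mem_toFinset]
    rcases hz with h | h | h | h | h
    · exact Or.inr (Or.inr (Or.inr (Or.inr ((hs z).1 h))))
    · exact Or.inl h
    · exact Or.inr (Or.inl h)
    · exact Or.inr (Or.inr (Or.inl h))
    · exact Or.inr (Or.inr (Or.inr (Or.inl h)))
  -- the paths
  have P1 : Pth G p e (p :: mid) := hmid.cons hpx hpm
  have P2 : Pth G p y (p :: mid ++ [y]) := P1.concat hey (by
    simp only [List.mem_cons, not_or]; exact ⟨hpy.symm, hym⟩)
  have P4 : Pth G x y (mid ++ [y]) := hmid.concat hey hym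
  have P3 : Pth G x q (mid ++ [y] ++ [q]) := P4.concat hyq (by
    simp only [List.mem_append, List.mem_singleton, not_or]; exact ⟨hqm, hyq'.symm⟩)
  have Ppx : Pth G p x [p, x] := (Pth.singleton x).cons hpx (by simpa using hpx')
  have Pyq : Pth G y q [y, q] := (Pth.singleton q).cons hyq (by simpa using hyq')
  have Peyq : Pth G e q [e, y, q] := Pyq.cons hey (by
    simp only [List.mem_cons, List.not_mem_nil, or_false, not_or]
    exact ⟨hey.ne, fun h => hqm (h ▸ hem)⟩)
  have wrap : ∀ n, cf c hp (n + 5) = cf c hp n := fun n => by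
    have := cf_add hp n
    rwa [hlr] at this
  -- the standard move: `v` replaces `c (n+1)`, the path `R` closes through `c (n+1)`
  have move : ∀ (n : ℕ) (v u w : V) (R : List V), v ∉ c → Pth G u w R → (∀ z ∈ R, z ∉ c) →
      v ∉ R → 4 ≤ R.length → G.Adj v (cf c hp n) → G.Adj v (cf c hp (n + 2)) →
      G.Adj u (cf c hp (n + 1)) → G.Adj w (cf c hp (n + 1)) →
      (∀ z, z ∈ R → z = p ∨ z = y ∨ z = q ∨ z ∈ mid) → (v = p ∨ v = y ∨ v = q ∨ v ∈ mid) →
      TwoR61 G 5 (insert p (insert y (insert q (mid.toFinset ∪ C)))) := by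
    intro n v u w R hvc hR hRc hvR hRl a1 a2 a3 a4 hRU hvU
    refine arcsr61 hc hp (by norm_num) (n + 1) 0 1 3 (by norm_num) (by omega) hR
      (Pth.singleton v) hRc (by simpa using hvc) (by
        intro z hz hz'
        rw [List.mem_singleton] at hz'
        exact hvR (hz' ▸ hz)) (Or.inl ⟨a3.symm, a4.symm⟩) (Or.inl ⟨a2.symm, ?_⟩) (by omega)
      (by simp) (Or.inr (by simp)) ?_
    · rw [show n + 1 + 1 + 3 = n + 5 by ring, wrap]
      exact a1.symm
    · intro z hz
      apply hU
      rcases hz with h | h | h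
      · exact Or.inl h
      · exact Or.inr (hRU z h)
      · rw [List.mem_singleton] at h
        rw [h]; exact Or.inr hvU
  have key := core61 (bit61 G c hp p) (bit61 G c hp x) (bit61 G c hp e) (bit61 G c hp y)
    (bit61 G c hp q) (fun n => by rw [← hlr]; exact bit61_add hp p n)
    (fun n => by rw [← hlr]; exact bit61_add hp x n)
    (fun n => by rw [← hlr]; exact bit61_add hp e n)
    (fun n => by rw [← hlr]; exact bit61_add hp y n)
    (fun n => by rw [← hlr]; exact bit61_add hp q n)
    ?_ ?_ ?_ ?_ ?_ ?_ ?_ ?_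
  · rw [← hlr, bit61_sum hp hn, bit61_sum hp hn, bit61_sum hp hn, bit61_sum hp hn,
      bit61_sum hp hn, hCc] at key
    exact key
  -- F1
  · intro n a1 a2 a3 a4
    rw [bit61_iff hp] at a1 a2 a3 a4
    refine hno (move n q p y _ qc P2 ?_ ?_ ?_ a3 a4 a1 a2 ?_ (by tauto))
    · intro z hz
      simp only [List.mem_append, List.mem_cons, List.mem_singleton, List.not_mem_nil,
        or_false] at hz
      rcases hz with (h | h) | h
      · rw [h]; exact pc
      · exact mc z h
      · rw [h]; exact yc
    · simp only [List.mem_append, List.mem_cons, List.mem_singleton, List.not_mem_nil,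
        or_false, not_or]
      exact ⟨⟨hpq.symm, hqm⟩, hyq'.symm⟩
    · simp only [List.length_append, List.length_cons, List.length_nil]; omega
    · intro z hz
      simp only [List.mem_append, List.mem_cons, List.mem_singleton, List.not_mem_nil,
        or_false] at hz
      tauto
  -- F2
  · intro n a1 a2 a3 a4
    rw [bit61_iff hp] at a1 a2 a3 a4
    refine hno (move n y p e _ yc P1 ?_ ?_ ?_ a3 a4 a1 a2 ?_ (by tauto))
    · intro z hz
      rcases List.mem_cons.1 hz with h | h
      · rw [h]; exact pc
      · exact mc z h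
    · simp only [List.mem_cons, not_or]
      exact ⟨hpy.symm, hym⟩
    · simp only [List.length_cons]; omega
    · intro z hz
      rcases List.mem_cons.1 hz with h | h <;> tauto
  -- F3
  · intro n a1 a2 a3 a4
    rw [bit61_iff hp] at a1 a2 a3 a4
    refine hno (move n p x q _ pc P3 ?_ ?_ ?_ a1 a2 a3 a4 ?_ (by tauto))
    · intro z hz
      simp only [List.mem_append, List.mem_singleton] at hz
      rcases hz with (h | h) | h
      · exact mc z h
      · rw [h]; exact yc
      · rw [h]; exact qc
    · simp only [List.mem_append, List.mem_singleton, not_or]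
      exact ⟨⟨hpm, hpy⟩, hpq⟩
    · simp only [List.length_append, List.length_cons, List.length_nil]; omega
    · intro z hz
      simp only [List.mem_append, List.mem_singleton] at hz
      tauto
  -- F4
  · intro n a1 a2 a3 a4
    rw [bit61_iff hp] at a1 a2 a3 a4
    refine hno (move n q x y _ qc P4 ?_ ?_ ?_ a3 a4 a1 a2 ?_ (by tauto))
    · intro z hz
      simp only [List.mem_append, List.mem_singleton] at hz
      rcases hz with h | h
      · exact mc z h
      · rw [h]; exact yc
    · simp only [List.mem_append, List.mem_singleton, not_or]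
      exact ⟨hqm, hyq'.symm⟩
    · simp only [List.length_append, List.length_cons, List.length_nil]; omega
    · intro z hz
      simp only [List.mem_append, List.mem_singleton] at hz
      tauto
  -- F5
  · intro n a1 a2 a3 a4
    rw [bit61_iff hp] at a1 a2 a3 a4
    refine hno (arcsr61 hc hp (by norm_num) n 2 3 1 (by norm_num) (by omega) Ppx Peyq ?_ ?_ ?_
      (Or.inr ⟨a1.symm, a2.symm⟩) (Or.inr ⟨a3.symm, a4.symm⟩) (by simp) (by simp)
      (Or.inl (by simp)) ?_)
    · intro z hz
      simp only [List.mem_cons, List.not_mem_nil, or_false] at hz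
      rcases hz with h | h
      · rw [h]; exact pc
      · rw [h]; exact mc x hxm
    · intro z hz
      simp only [List.mem_cons, List.not_mem_nil, or_false] at hz
      rcases hz with h | h | h
      · rw [h]; exact mc e hem
      · rw [h]; exact yc
      · rw [h]; exact qc
    · intro z hz hz'
      simp only [List.mem_cons, List.not_mem_nil, or_false] at hz hz'
      rcases hz with h | h <;> rcases hz' with h' | h' | h'
      · exact hpe (h ▸ h')
      · exact hpy (h ▸ h')
      · exact hpq (h ▸ h')
      · exact hxe (h ▸ h')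
      · exact hxy (h ▸ h')
      · exact hxq (h ▸ h')
    · intro z hz
      apply hU
      simp only [List.mem_cons, List.not_mem_nil, or_false] at hz
      rcases hz with h | (h | h) | (h | h | h)
      · exact Or.inl h
      · tauto
      · rw [h]; tauto
      · rw [h]; tauto
      · tauto
      · tauto
  -- F6
  · intro n a1 a2 a3 a4
    rw [bit61_iff hp] at a1 a2 a3 a4
    refine hno (move n q p e _ qc P1 ?_ ?_ ?_ a3 a4 a1 a2 ?_ (by tauto))
    · intro z hz
      rcases List.mem_cons.1 hz with h | h
      · rw [h]; exact pc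
      · exact mc z h
    · simp only [List.mem_cons, not_or]
      exact ⟨hpq.symm, hqm⟩
    · simp only [List.length_cons]; omega
    · intro z hz
      rcases List.mem_cons.1 hz with h | h <;> tauto
  -- F7
  · intro n a1 a2 a3 a4
    rw [bit61_iff hp] at a1 a2 a3 a4
    refine hno (arcsr61 hc hp (by norm_num) n 0 2 2 (by norm_num) (by omega) P1 Pyq ?_ ?_ ?_
      (Or.inl ⟨a1.symm, a2.symm⟩) (Or.inr ⟨a3.symm, a4.symm⟩) (by
        simp only [List.length_cons]; omega) (by simp) (Or.inr (by simp)) ?_)
    · intro z hz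
      rcases List.mem_cons.1 hz with h | h
      · rw [h]; exact pc
      · exact mc z h
    · intro z hz
      simp only [List.mem_cons, List.not_mem_nil, or_false] at hz
      rcases hz with h | h
      · rw [h]; exact yc
      · rw [h]; exact qc
    · intro z hz hz'
      simp only [List.mem_cons, List.not_mem_nil, or_false] at hz hz'
      rcases hz with h | h <;> rcases hz' with h' | h'
      · exact hpy (h ▸ h')
      · exact hpq (h ▸ h')
      · exact hym (h' ▸ h)
      · exact hqm (h' ▸ h)
    · intro z hz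
      apply hU
      simp only [List.mem_cons, List.not_mem_nil, or_false] at hz
      tauto
  -- F8
  · intro n a1 a2 a3 a4
    rw [bit61_iff hp] at a1 a2 a3 a4
    refine hno (arcsr61 hc hp (by norm_num) n 0 1 2 (by norm_num) (by omega) P1 Pyq ?_ ?_ ?_
      (Or.inl ⟨a1.symm, a2.symm⟩) (Or.inl ⟨a3.symm, a4.symm⟩) (by
        simp only [List.length_cons]; omega) (by simp) (Or.inr (by simp)) ?_)
    · intro z hz
      rcases List.mem_cons.1 hz with h | h
      · rw [h]; exact pc
      · exact mc z h
    · intro z hz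
      simp only [List.mem_cons, List.not_mem_nil, or_false] at hz
      rcases hz with h | h
      · rw [h]; exact yc
      · rw [h]; exact qc
    · intro z hz hz'
      simp only [List.mem_cons, List.not_mem_nil, or_false] at hz hz'
      rcases hz with h | h <;> rcases hz' with h' | h'
      · exact hpy (h ▸ h')
      · exact hpq (h ▸ h')
      · exact hym (h' ▸ h)
      · exact hqm (h' ▸ h)
    · intro z hz
      apply hU
      simp only [List.mem_cons, List.not_mem_nil, or_false] at hz
      tauto

/-- **LL4**, refined: `C` a cycle of length 4, `p, x, …, y, q` a path with at least 4 vertices -/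
theorem ll4r61 [DecidableEq V] {C : Finset V} (hC : CycSet G C) (hCr : C.card = 4)
    {p x y q : V} {mid : List V} (hmid : Pth G x y mid) (hpx : G.Adj p x)
    (hyq : G.Adj y q) (hpq : p ≠ q) (hpm : p ∉ mid) (hqm : q ∉ mid)
    (hpC : p ∉ C) (hqC : q ∉ C) (hmC : ∀ z ∈ mid, z ∉ C) (hlen : 2 ≤ mid.length)
    (hno : ¬ TwoR61 G 4 (insert p (insert q (mid.toFinset ∪ C)))) :
    2 * (dg G C p + dg G C q) + dg G C x + dg G C y ≤ 16 := by
  obtain ⟨c, hc, hs⟩ := hC
  have hn := Cyc.nodup hc
  have hcard := card_of_list hn hs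
  have hCc : c.toFinset = C := by
    ext z; rw [List.mem_toFinset]; exact hs z
  have hlr : c.length = 4 := by omega
  have hp : 0 < c.length := by omega
  have pc : p ∉ c := fun h => hpC ((hs p).1 h)
  have qc : q ∉ c := fun h => hqC ((hs q).1 h)
  have mc : ∀ z ∈ mid, z ∉ c := fun z hz h => hmC z hz ((hs z).1 h)
  have hxm := hmid.head_mem
  have hym := hmid.last_mem
  have hxy : x ≠ y := by
    rintro rfl
    have := hmid.length_le_one
    rw [this] at hlen
    simp at hlen
  have hyq' : y ≠ q := hyq.ne
  have hpx' : p ≠ x := hpx.ne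
  have hxq : x ≠ q := fun h => hqm (h ▸ hxm)
  have hpy : p ≠ y := fun h => hpm (h ▸ hym)
  have hU : ∀ z, z ∈ c ∨ z = p ∨ z = q ∨ z ∈ mid →
      z ∈ insert p (insert q (mid.toFinset ∪ C)) := by
    intro z hz
    simp only [Finset.mem_insert, Finset.mem_union, List.mem_toFinset]
    rcases hz with h | h | h | h
    · exact Or.inr (Or.inr (Or.inr ((hs z).1 h)))
    · exact Or.inl h
    · exact Or.inr (Or.inl h)
    · exact Or.inr (Or.inr (Or.inl h))
  have P1 : Pth G p y (p :: mid) := hmid.cons hpx hpm
  have P4 : Pth G x q (mid ++ [q]) := hmid.concat hyq hqm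
  have Ppx : Pth G p x [p, x] := (Pth.singleton x).cons hpx (by simpa using hpx')
  have Pyq : Pth G y q [y, q] := (Pth.singleton q).cons hyq (by simpa using hyq')
  have wrap : ∀ n, cf c hp (n + 4) = cf c hp n := fun n => by
    have := cf_add hp n
    rwa [hlr] at this
  have move : ∀ (n : ℕ) (v u w : V) (R : List V), v ∉ c → Pth G u w R → (∀ z ∈ R, z ∉ c) →
      v ∉ R → 3 ≤ R.length → G.Adj v (cf c hp n) → G.Adj v (cf c hp (n + 2)) →
      G.Adj u (cf c hp (n + 1)) → G.Adj w (cf c hp (n + 1)) →
      (∀ z, z ∈ R → z = p ∨ z = q ∨ z ∈ mid) → (v = p ∨ v = q ∨ v ∈ mid) →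
      TwoR61 G 4 (insert p (insert q (mid.toFinset ∪ C))) := by
    intro n v u w R hvc hR hRc hvR hRl a1 a2 a3 a4 hRU hvU
    refine arcsr61 hc hp (by norm_num) (n + 1) 0 1 2 (by norm_num) (by omega) hR
      (Pth.singleton v) hRc (by simpa using hvc) (by
        intro z hz hz'
        rw [List.mem_singleton] at hz'
        exact hvR (hz' ▸ hz)) (Or.inl ⟨a3.symm, a4.symm⟩) (Or.inl ⟨a2.symm, ?_⟩) (by omega)
      (by simp) (Or.inr (by simp)) ?_
    · rw [show n + 1 + 1 + 2 = n + 4 by ring, wrap]
      exact a1.symm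
    · intro z hz
      apply hU
      rcases hz with h | h | h
      · exact Or.inl h
      · exact Or.inr (hRU z h)
      · rw [List.mem_singleton] at h
        rw [h]; exact Or.inr hvU
  have key := core_four61 (bit61 G c hp p) (bit61 G c hp x) (bit61 G c hp y)
    (bit61 G c hp q) (fun n => by rw [← hlr]; exact bit61_add hp p n)
    (fun n => by rw [← hlr]; exact bit61_add hp x n)
    (fun n => by rw [← hlr]; exact bit61_add hp y n)
    (fun n => by rw [← hlr]; exact bit61_add hp q n)
    ?_ ?_ ?_
  · rw [← hlr, bit61_sum hp hn, bit61_sum hp hn, bit61_sum hp hn, bit61_sum hp hn, hCc] at key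
    exact key
  -- move 1
  · intro n a1 a2 a3 a4
    rw [bit61_iff hp] at a1 a2 a3 a4
    refine hno (move n p x q _ pc P4 ?_ ?_ ?_ a1 a2 a3 a4 ?_ (by tauto))
    · intro z hz
      simp only [List.mem_append, List.mem_singleton] at hz
      rcases hz with h | h
      · exact mc z h
      · rw [h]; exact qc
    · simp only [List.mem_append, List.mem_singleton, not_or]
      exact ⟨hpm, hpq⟩
    · simp only [List.length_append, List.length_cons, List.length_nil]; omega
    · intro z hz
      simp only [List.mem_append, List.mem_singleton] at hz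
      tauto
  -- move 1'
  · intro n a1 a2 a3 a4
    rw [bit61_iff hp] at a1 a2 a3 a4
    refine hno (move n q p y _ qc P1 ?_ ?_ ?_ a1 a2 a4 a3 ?_ (by tauto))
    · intro z hz
      rcases List.mem_cons.1 hz with h | h
      · rw [h]; exact pc
      · exact mc z h
    · simp only [List.mem_cons, not_or]
      exact ⟨hpq.symm, hqm⟩
    · simp only [List.length_cons]; omega
    · intro z hz
      rcases List.mem_cons.1 hz with h | h <;> tauto
  -- move 2
  · intro n a1 a2 a3 a4
    rw [bit61_iff hp] at a1 a2 a3 a4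
    refine hno (arcsr61 hc hp (by norm_num) n 1 2 1 (by norm_num) (by omega) Pyq Ppx ?_ ?_ ?_
      (Or.inr ⟨a3.symm, a4.symm⟩) (Or.inr ⟨a1.symm, a2.symm⟩) (by simp) (by simp)
      (Or.inl (by simp)) ?_)
    · intro z hz
      simp only [List.mem_cons, List.not_mem_nil, or_false] at hz
      rcases hz with h | h
      · rw [h]; exact mc y hym
      · rw [h]; exact qc
    · intro z hz
      simp only [List.mem_cons, List.not_mem_nil, or_false] at hz
      rcases hz with h | h
      · rw [h]; exact pc
      · rw [h]; exact mc x hxm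
    · intro z hz hz'
      simp only [List.mem_cons, List.not_mem_nil, or_false] at hz hz'
      rcases hz with h | h <;> rcases hz' with h' | h'
      · exact hpy (h'.symm.trans h)
      · exact hxy (h'.symm.trans h)
      · exact hpq (h'.symm.trans h)
      · exact hxq (h'.symm.trans h)
    · intro z hz
      apply hU
      simp only [List.mem_cons, List.not_mem_nil, or_false] at hz
      rcases hz with h | (h | h) | (h | h)
      · exact Or.inl h
      · rw [h]; tauto
      · tauto
      · tauto
      · rw [h]; tauto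


/-- no two disjoint long cycles inside `U`, one with exactly `r`, the other with fewer than `M`
vertices -/
def NoR61 (G : SimpleGraph V) (r M : ℕ) (U : Finset V) : Prop :=
  ¬ ∃ D E : Finset V, CycSet G D ∧ CycSet G E ∧ D ⊆ U ∧ E ⊆ U ∧ D.card = r ∧ r ≤ E.card ∧
    Disjoint D E ∧ E.card < M

theorem noR_two61 [DecidableEq V] {r M : ℕ} {U W : Finset V} (hno : NoR61 G r M U)
    (hW : W ⊆ U) (hc : W.card < r + M) : ¬ TwoR61 G r W := by
  rintro ⟨D, E, h1, h2, h3, h4, h5, h6, h7⟩
  refine hno ⟨D, E, h1, h2, h3.trans hW, h4.trans hW, h5, h6, h7, ?_⟩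
  have h8 := Finset.card_le_card (Finset.union_subset h3 h4)
  rw [Finset.card_union_of_disjoint h7] at h8
  omega

theorem NoR61.short {r : ℕ} {U : Finset V} (hno : NoR61 G r (r + 1) U) :
    NoShort G r (2 * r + 1) U := by
  rintro ⟨D, E, h1, h2, h3, h4, h5, h6, h7, h8⟩
  exact hno ⟨D, E, h1, h2, h3, h4, by omega, h6, h7, by omega⟩

/-- closed lemma, `r = 4` -/
theorem closedr_four61 [DecidableEq V] {C X : Finset V} (hC : CycSet G C)
    (hX : CycSet G X) (hCr : C.card = 4) (hXr : 5 ≤ X.card) (hd : Disjoint C X)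
    (hno : NoR61 G 4 X.card (C ∪ X)) :
    3 * eS G C X ≤ 2 * (4 * X.card) := by
  obtain ⟨x, hx, hs'⟩ := hX
  have hnx := Cyc.nodup hx
  have hcard' := card_of_list hnx hs'
  have hXx : x.toFinset = X := by
    ext z; rw [List.mem_toFinset]; exact hs' z
  have hq : 0 < x.length := by omega
  rw [hcard'] at hXr hno ⊢
  have hin : ∀ i, cf x hq i ∈ X := fun i => (hs' _).1 (cf_mem hq i)
  have hnC : ∀ i, cf x hq i ∉ C := fun i h => Finset.disjoint_left.1 hd h (hin i)
  have loc : ∀ i, 2 * (dg G C (cf x hq (i + 1)) + dg G C (cf x hq (i + (x.length - 1))))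
      + dg G C (cf x hq (i + 2)) + dg G C (cf x hq (i + (x.length - 2))) ≤ 16 := by
    intro i
    have hA := arc_pth hx hq (x.length - 4) (i + 2) (by omega)
    rw [show i + 2 + (x.length - 4) = i + (x.length - 2) by omega] at hA
    have hmem : ∀ z ∈ seg (cf x hq) (i + 2) (x.length - 4),
        ∃ j, 2 ≤ j ∧ j ≤ x.length - 2 ∧ z = cf x hq (i + j) := by
      intro z hz
      rw [mem_seg] at hz
      obtain ⟨j, j1, j2, j3⟩ := hz
      exact ⟨j - i, by omega, by omega, by rw [show i + (j - i) = j by omega]; exact j3⟩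
    refine ll4r61 hC hCr hA ?_ ?_ ?_ ?_ ?_ (hnC _) (hnC _) ?_ ?_ ?_
    · exact cf_adj hx hq (i + 1)
    · have := cf_adj hx hq (i + (x.length - 2))
      rwa [show i + (x.length - 2) + 1 = i + (x.length - 1) by omega] at this
    · exact far49 hx hq i (s := 1) (t := x.length - 1) (by omega) (by omega)
    · intro h
      obtain ⟨j, j1, j2, j3⟩ := hmem _ h
      exact far49 hx hq i (s := 1) (t := j) (by omega) (by omega) j3
    · intro h
      obtain ⟨j, j1, j2, j3⟩ := hmem _ h
      exact far49 hx hq i (s := j) (t := x.length - 1) (by omega) (by omega) j3.symm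
    · intro z hz
      obtain ⟨j, _, _, j3⟩ := hmem z hz
      rw [j3]; exact hnC _
    · rw [seg_length]; omega
    · refine noR_two61 hno ?_ ?_
      · intro z hz
        rw [Finset.mem_insert, Finset.mem_insert, Finset.mem_union, List.mem_toFinset] at hz
        rcases hz with h | h | h | h
        · rw [h]; exact Finset.mem_union_right _ (hin _)
        · rw [h]; exact Finset.mem_union_right _ (hin _)
        · obtain ⟨j, _, _, j3⟩ := hmem z h
          rw [j3]; exact Finset.mem_union_right _ (hin _)
        · exact Finset.mem_union_left _ h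
      · have e1 := Finset.card_insert_le (cf x hq (i + 1)) (insert (cf x hq (i + (x.length - 1)))
          ((seg (cf x hq) (i + 2) (x.length - 4)).toFinset ∪ C))
        have e2 := Finset.card_insert_le (cf x hq (i + (x.length - 1)))
          ((seg (cf x hq) (i + 2) (x.length - 4)).toFinset ∪ C)
        have e3 := Finset.card_union_le (seg (cf x hq) (i + 2) (x.length - 4)).toFinset C
        have e4 := List.toFinset_card_le (seg (cf x hq) (i + 2) (x.length - 4))
        rw [seg_length] at e4
        omega
  have hsum := Finset.sum_le_sum fun i (_ : i ∈ Finset.range x.length) => loc i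
  have per : ∀ i, dg G C (cf x hq (i + x.length)) = dg G C (cf x hq i) := fun i => by
    rw [cf_add hq i]
  have sh := fun s => shift61 (fun i => dg G C (cf x hq i)) x.length per s
  simp only [Finset.sum_add_distrib, ← Finset.mul_sum, Finset.sum_const, Finset.card_range,
    smul_eq_mul] at hsum
  rw [sh 1, sh (x.length - 1), sh 2, sh (x.length - 2), sum_cf61 hq hnx, hXx] at hsum
  omega

/-- closed lemma, `r = 5` -/
theorem closedr_five61 [DecidableEq V] {C X : Finset V} (hC : CycSet G C)
    (hX : CycSet G X) (hCr : C.card = 5) (hXr : 7 ≤ X.card) (hd : Disjoint C X)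
    (hno : NoR61 G 5 X.card (C ∪ X)) :
    3 * eS G C X ≤ 2 * (5 * X.card) := by
  obtain ⟨x, hx, hs'⟩ := hX
  have hnx := Cyc.nodup hx
  have hcard' := card_of_list hnx hs'
  have hXx : x.toFinset = X := by
    ext z; rw [List.mem_toFinset]; exact hs' z
  have hq : 0 < x.length := by omega
  rw [hcard'] at hXr hno ⊢
  have hin : ∀ i, cf x hq i ∈ X := fun i => (hs' _).1 (cf_mem hq i)
  have hnC : ∀ i, cf x hq i ∉ C := fun i h => Finset.disjoint_left.1 hd h (hin i)
  have loc : ∀ i, 2 * (dg G C (cf x hq (i + 1)) + dg G C (cf x hq (i + (x.length - 1))))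
      + dg G C (cf x hq (i + 2)) + dg G C (cf x hq (i + (x.length - 3)))
      + dg G C (cf x hq (i + (x.length - 2))) ≤ 23 := by
    intro i
    have hA := arc_pth hx hq (x.length - 5) (i + 2) (by omega)
    rw [show i + 2 + (x.length - 5) = i + (x.length - 3) by omega] at hA
    have hmem : ∀ z ∈ seg (cf x hq) (i + 2) (x.length - 5),
        ∃ j, 2 ≤ j ∧ j ≤ x.length - 3 ∧ z = cf x hq (i + j) := by
      intro z hz
      rw [mem_seg] at hz
      obtain ⟨j, j1, j2, j3⟩ := hz
      exact ⟨j - i, by omega, by omega, by rw [show i + (j - i) = j by omega]; exact j3⟩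
    refine ll5r61 hC hCr hA ?_ ?_ ?_ ?_ ?_ ?_ ?_ ?_ (hnC _) (hnC _) (hnC _) ?_ ?_ ?_
    · exact cf_adj hx hq (i + 1)
    · have := cf_adj hx hq (i + (x.length - 3))
      rwa [show i + (x.length - 3) + 1 = i + (x.length - 2) by omega] at this
    · have := cf_adj hx hq (i + (x.length - 2))
      rwa [show i + (x.length - 2) + 1 = i + (x.length - 1) by omega] at this
    · exact far49 hx hq i (s := 1) (t := x.length - 2) (by omega) (by omega)
    · exact far49 hx hq i (s := 1) (t := x.length - 1) (by omega) (by omega)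
    · intro h
      obtain ⟨j, j1, j2, j3⟩ := hmem _ h
      exact far49 hx hq i (s := 1) (t := j) (by omega) (by omega) j3
    · intro h
      obtain ⟨j, j1, j2, j3⟩ := hmem _ h
      exact far49 hx hq i (s := j) (t := x.length - 2) (by omega) (by omega) j3.symm
    · intro h
      obtain ⟨j, j1, j2, j3⟩ := hmem _ h
      exact far49 hx hq i (s := j) (t := x.length - 1) (by omega) (by omega) j3.symm
    · intro z hz
      obtain ⟨j, _, _, j3⟩ := hmem z hz
      rw [j3]; exact hnC _
    · rw [seg_length]; omega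
    · refine noR_two61 hno ?_ ?_
      · intro z hz
        rw [Finset.mem_insert, Finset.mem_insert, Finset.mem_insert, Finset.mem_union,
          List.mem_toFinset] at hz
        rcases hz with h | h | h | h | h
        · rw [h]; exact Finset.mem_union_right _ (hin _)
        · rw [h]; exact Finset.mem_union_right _ (hin _)
        · rw [h]; exact Finset.mem_union_right _ (hin _)
        · obtain ⟨j, _, _, j3⟩ := hmem z h
          rw [j3]; exact Finset.mem_union_right _ (hin _)
        · exact Finset.mem_union_left _ h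
      · have e1 := Finset.card_insert_le (cf x hq (i + 1)) (insert (cf x hq (i + (x.length - 2)))
          (insert (cf x hq (i + (x.length - 1)))
          ((seg (cf x hq) (i + 2) (x.length - 5)).toFinset ∪ C)))
        have e2 := Finset.card_insert_le (cf x hq (i + (x.length - 2)))
          (insert (cf x hq (i + (x.length - 1)))
          ((seg (cf x hq) (i + 2) (x.length - 5)).toFinset ∪ C))
        have e2' := Finset.card_insert_le (cf x hq (i + (x.length - 1)))
          ((seg (cf x hq) (i + 2) (x.length - 5)).toFinset ∪ C)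
        have e3 := Finset.card_union_le (seg (cf x hq) (i + 2) (x.length - 5)).toFinset C
        have e4 := List.toFinset_card_le (seg (cf x hq) (i + 2) (x.length - 5))
        rw [seg_length] at e4
        omega
  have hsum := Finset.sum_le_sum fun i (_ : i ∈ Finset.range x.length) => loc i
  have per : ∀ i, dg G C (cf x hq (i + x.length)) = dg G C (cf x hq i) := fun i => by
    rw [cf_add hq i]
  have sh := fun s => shift61 (fun i => dg G C (cf x hq i)) x.length per s
  simp only [Finset.sum_add_distrib, ← Finset.mul_sum, Finset.sum_const, Finset.card_range,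
    smul_eq_mul] at hsum
  rw [sh 1, sh (x.length - 1), sh 2, sh (x.length - 3), sh (x.length - 2), sum_cf61 hq hnx,
    hXx] at hsum
  omega

/-- closed lemma for `r = 4, 5`, one member of length exactly `r` -/
theorem closedr61 [DecidableEq V] {r : ℕ} (hr : r = 4 ∨ r = 5) {C X : Finset V} (hC : CycSet G C)
    (hX : CycSet G X) (hCr : C.card = r) (hXr : r < X.card) (hd : Disjoint C X)
    (hno : NoR61 G r X.card (C ∪ X)) :
    3 * eS G C X ≤ 2 * (r * X.card) := by
  rcases hr with rfl | rfl
  · exact closedr_four61 hC hX hCr hXr hd hno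
  · rcases Nat.lt_or_ge X.card 7 with h | h
    · have hX6 : X.card = 5 + 1 := by omega
      rw [hX6] at hno ⊢
      exact closed99 (by norm_num) hC hX hCr hX6 hd hno.short
    · exact closedr_five61 hC hX hCr h hd hno

end Pool.Agent.P0
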