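import Pool.Agent.P0.End17
import Pool.Agent.P0.Ref61
import Pool.Agent.P0.MinK99

set_option linter.all false

/-!
# P0, Lemma X: the end of the cases `r = 4` and `r = 5` (families with `k - 2` members)
-/

namespace Pool.Agent.P0

open Pool.Agent.Helper14.LongCyc Pool.Agent.LCK Pool.Agent.FRC

universe u

variable {V : Type u} {G : SimpleGraph V}

/-- degrees along a spanning path of a set without long cycles -/
theorem span_deg17 [DecidableEq V] {H : Finset V} {r m : ℕ} {v : ℕ → V} (hpa : Pa G H m v)
    (hr : 3 ≤ r) (hno : NoLong G r H) (hspan : ∀ z ∈ H, ∃ i, i < m ∧ v i = z) {i : ℕ}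
    (hi : i < m) : dg G H (v i) ≤ i + (r - 2) := by
  classical
  have h1 : (Finset.range i ∪ Finset.Icc (i + 1) (i + (r - 2))).card ≤ i + (r - 2) := by
    refine (Finset.card_union_le _ _).trans ?_
    rw [Finset.card_range, Nat.card_Icc]
    omega
  refine le_trans ?_ h1
  refine (dg_le49 (S := (Finset.range i ∪ Finset.Icc (i + 1) (i + (r - 2))).image v) ?_).trans
    Finset.card_image_le
  intro z hz hza
  obtain ⟨j, hj, rfl⟩ := hspan z hz
  refine Finset.mem_image.2 ⟨j, ?_, rfl⟩
  rw [Finset.mem_union, Finset.mem_range, Finset.mem_Icc]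
  rcases Nat.lt_or_ge j i with h2 | h2
  · exact Or.inl h2
  · right
    have h3 : j ≠ i := by
      rintro rfl
      exact G.loopless.irrefl _ hza
    have hpa' : Pa G H (m - i) (fun t => v (t + i)) :=
      ⟨fun t ht => hpa.mem _ (by omega), fun t t' ht ht' hh => by
        have := hpa.inj _ _ (by omega) (by omega) hh
        omega, fun t ht => by
        have := hpa.ch (t + i) (by omega)
        rwa [show t + i + 1 = t + 1 + i by ring] at this⟩
    have := Pa.cyc hpa' hr hno (m := j - i) (by omega) (by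
      show G.Adj (v (0 + i)) (v (j - i + i))
      rw [Nat.zero_add, show j - i + i = j by omega]
      exact hza)
    omega

/-- both ends -/
theorem span_deg_rev17 [DecidableEq V] {H : Finset V} {r m : ℕ} {v : ℕ → V} (hpa : Pa G H m v)
    (hr : 3 ≤ r) (hno : NoLong G r H) (hspan : ∀ z ∈ H, ∃ i, i < m ∧ v i = z) {i : ℕ}
    (hi : i < m) : dg G H (v (m - 1 - i)) ≤ i + (r - 2) := by
  refine span_deg17 (v := fun t => v (m - 1 - t)) (Pa.rev49 hpa) hr hno ?_ hi
  intro z hz
  obtain ⟨j, hj, rfl⟩ := hspan z hz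
  refine ⟨m - 1 - j, by omega, ?_⟩
  show v (m - 1 - (m - 1 - j)) = v j
  rw [show m - 1 - (m - 1 - j) = j by omega]

/-- a member of a family of minimal total is locally shortest -/
theorem MinK99.short17 [DecidableEq V] {U : Finset V} {r : ℕ} {K : Finset (Finset V)}
    (hK : MinK99 G U r K) {C : Finset V} (hC : C ∈ K) {D : Finset V} (hD : CycSet G D)
    (hDs : D ⊆ C ∪ rest U K) (hDr : r ≤ D.card) : C.card ≤ D.card := by
  obtain ⟨h1, h2, h3⟩ := hK.fam.replace hC hD hDs hDr
  have h4 : (insert D (K.erase C)).card = K.card := by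
    rw [Finset.card_insert_of_notMem h2, Finset.card_erase_of_mem hC]
    have : 0 < K.card := Finset.card_pos.2 ⟨C, hC⟩
    omega
  have h5 := hK.min _ h1 h4
  unfold tot at h5
  rw [Finset.sum_insert h2] at h5
  have h6 := Finset.add_sum_erase K (fun s => s.card) hC
  omega

/-- a member longer than `r` sees little from outside -/
theorem MinK99.outside17 [DecidableEq V] {U : Finset V} {r : ℕ} (hr : 4 ≤ r)
    {K : Finset (Finset V)} (hK : MinK99 G U r K) {C : Finset V} (hC : C ∈ K)
    (hCr : r < C.card) {v : V} (hv : v ∈ rest U K) : dg G C v ≤ (r + 1) / 2 := by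
  refine LCK.outside hr (hK.fam.cyc C hC) hCr ((mem_rest.1 hv).2 C hC) ?_
  intro D hD hDs hDr
  refine hK.short17 hC hD (hDs.trans ?_) hDr
  intro z hz
  rcases Finset.mem_insert.1 hz with h | h
  · rw [h]; exact Finset.mem_union_right _ hv
  · exact Finset.mem_union_left _ h

/-- replacing a member by a cycle of the same length keeps minimality -/
theorem MinK99.replace_same17 [DecidableEq V] {U : Finset V} {r : ℕ} {K : Finset (Finset V)}
    (hK : MinK99 G U r K) {C D : Finset V} (hC : C ∈ K) (hD : CycSet G D)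
    (hDs : D ⊆ C ∪ rest U K) (hcard : D.card = C.card) :
    MinK99 G U r (insert D (K.erase C)) ∧ (insert D (K.erase C)).card = K.card ∧
      rest U (insert D (K.erase C)) = (C ∪ rest U K) \ D := by
  have hCr := hK.fam.len C hC
  obtain ⟨h1, h2, h3⟩ := hK.fam.replace hC hD hDs (by show r ≤ D.card; rw [hcard]; exact hCr)
  have h4 : (insert D (K.erase C)).card = K.card := by
    rw [Finset.card_insert_of_notMem h2, Finset.card_erase_of_mem hC]
    have : 0 < K.card := Finset.card_pos.2 ⟨C, hC⟩
    omega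
  have h5 : tot (insert D (K.erase C)) = tot K := by
    unfold tot
    rw [Finset.sum_insert h2, hcard]
    exact Finset.add_sum_erase K (fun s => s.card) hC
  refine ⟨⟨h1, fun K' hK' hc => ?_⟩, h4, h3⟩
  rw [h5]; exact hK.min K' hK' (by rw [hc, h4])

/-- if no minimal family leaves a long cycle, there is no pair of cycles in `C ∪ rest`, one of
length exactly `r` -/
theorem MinK99.no_twoR17 [DecidableEq V] {U : Finset V} {r : ℕ} {K : Finset (Finset V)}
    (hK : MinK99 G U r K)
    (hno : ∀ K', MinK99 G U r K' → K'.card = K.card → NoLong G r (rest U K'))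
    {C : Finset V} (hC : C ∈ K) (hCr : C.card = r) : ¬ TwoR61 G r (C ∪ rest U K) := by
  rintro ⟨D, E, h1, h2, h3, h4, h5, h6, h7⟩
  obtain ⟨k1, k2, k3⟩ := hK.replace_same17 hC h1 h3 (by rw [h5, hCr])
  obtain ⟨c, hc, hs⟩ := h2
  have h8 := hno _ k1 k2 c hc (by
    intro z hz
    rw [k3, Finset.mem_sdiff]
    have hzE := (hs z).1 hz
    exact ⟨h4 hzE, Finset.disjoint_right.1 h7 hzE⟩)
  have h9 := card_of_list (Cyc.nodup hc) hs
  omega

section

variable [DecidableEq V] {U : Finset V} {K : Finset (Finset V)} {k m : ℕ} {v : ℕ → V}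

/-- **`r = 4`** -/
theorem MinK99.four17 (hK : MinK99 G U 4 K) (hk : K.card + 2 ≤ k)
    (hdeg : ∀ v ∈ U, 2 * k * 4 ≤ 3 * dg G U v)
    (hno : ∀ K', MinK99 G U 4 K' → K'.card = K.card → NoLong G 4 (rest U K'))
    (hpa : Pa G (rest U K) m v) (hspan : ∀ z ∈ rest U K, ∃ i, i < m ∧ v i = z) (hm : 4 ≤ m) :
    False := by
  have hmid := seg_pa49 hpa (m - 3) 1 (by omega)
  rw [show 1 + (m - 3) = m - 2 by omega] at hmid
  have hp := hpa.mem 0 (by omega)
  have hx := hpa.mem 1 (by omega)
  have hy := hpa.mem (m - 2) (by omega)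
  have hq := hpa.mem (m - 1) (by omega)
  have hyq : G.Adj (v (m - 2)) (v (m - 1)) := by
    have := hpa.ch (m - 2) (by omega)
    rwa [show m - 2 + 1 = m - 1 by omega] at this
  have h1 := hdeg _ (rest_subset _ _ hp)
  have h2 := hdeg _ (rest_subset _ _ hq)
  have h3 := hdeg _ (rest_subset _ _ hx)
  have h4 := hdeg _ (rest_subset _ _ hy)
  rw [hK.fam.dg_split] at h1 h2 h3 h4
  have hseg : ∀ z ∈ seg v 1 (m - 3), z ∈ rest U K := by
    intro z hz
    rw [mem_seg] at hz
    obtain ⟨j, j1, j2, rfl⟩ := hz
    exact hpa.mem j (by omega)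
  have h5 : ∑ C ∈ K, (2 * (dg G C (v 0) + dg G C (v (m - 1))) + dg G C (v 1)
      + dg G C (v (m - 2))) ≤ K.card * 16 := by
    rw [← smul_eq_mul]
    refine Finset.sum_le_card_nsmul _ _ _ fun C hC => ?_
    have hCr := hK.fam.len C hC
    rcases Nat.lt_or_ge 4 C.card with h | h
    · have g1 := hK.outside17 (by omega) hC h hp
      have g2 := hK.outside17 (by omega) hC h hq
      have g3 := hK.outside17 (by omega) hC h hx
      have g4 := hK.outside17 (by omega) hC h hy
      omega
    · have hC4 : C.card = 4 := le_antisymm h hCr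
      refine ll4r61 (hK.fam.cyc C hC) hC4 hmid (hpa.ch 0 (by omega)) hyq ?_ ?_ ?_
        ((mem_rest.1 hp).2 C hC) ((mem_rest.1 hq).2 C hC)
        (fun z hz => (mem_rest.1 (hseg z hz)).2 C hC) (by rw [seg_length]; omega) ?_
      · intro hh
        have := hpa.inj _ _ (by omega) (by omega) hh
        omega
      · rw [mem_seg]
        rintro ⟨j, j1, j2, j3⟩
        have := hpa.inj _ _ (by omega) (by omega) j3
        omega
      · rw [mem_seg]
        rintro ⟨j, j1, j2, j3⟩
        have := hpa.inj _ _ (by omega) (by omega) j3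
        omega
      · intro ht
        refine hK.no_twoR17 hno hC hC4 (ht.mono ?_)
        intro z hz
        rw [Finset.mem_insert, Finset.mem_insert, Finset.mem_union, List.mem_toFinset] at hz
        rcases hz with h | h | h | h
        · rw [h]; exact Finset.mem_union_right _ hp
        · rw [h]; exact Finset.mem_union_right _ hq
        · exact Finset.mem_union_right _ (hseg z h)
        · exact Finset.mem_union_left _ h
  simp only [Finset.sum_add_distrib, ← Finset.mul_sum] at h5
  have n0 := hno K hK rfl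
  have d0 := span_deg17 hpa (by norm_num) n0 hspan (i := 0) (by omega)
  have d1 := span_deg17 hpa (by norm_num) n0 hspan (i := 1) (by omega)
  have d2 := span_deg_rev17 hpa (by norm_num) n0 hspan (i := 0) (by omega)
  have d3 := span_deg_rev17 hpa (by norm_num) n0 hspan (i := 1) (by omega)
  rw [Nat.sub_zero] at d2
  rw [show m - 1 - 1 = m - 2 by omega] at d3
  omega

/-- **`r = 5`** -/
theorem MinK99.five17 (hK : MinK99 G U 5 K) (hk : K.card + 2 ≤ k)
    (hdeg : ∀ v ∈ U, 2 * k * 5 ≤ 3 * dg G U v)
    (hno : ∀ K', MinK99 G U 5 K' → K'.card = K.card → NoLong G 5 (rest U K'))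
    (hpa : Pa G (rest U K) m v) (hspan : ∀ z ∈ rest U K, ∃ i, i < m ∧ v i = z) (hm : 6 ≤ m) :
    False := by
  have hmid := seg_pa49 hpa (m - 4) 1 (by omega)
  rw [show 1 + (m - 4) = m - 3 by omega] at hmid
  have hp := hpa.mem 0 (by omega)
  have hx := hpa.mem 1 (by omega)
  have he := hpa.mem (m - 3) (by omega)
  have hy := hpa.mem (m - 2) (by omega)
  have hq := hpa.mem (m - 1) (by omega)
  have hey : G.Adj (v (m - 3)) (v (m - 2)) := by
    have := hpa.ch (m - 3) (by omega)
    rwa [show m - 3 + 1 = m - 2 by omega] at this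
  have hyq : G.Adj (v (m - 2)) (v (m - 1)) := by
    have := hpa.ch (m - 2) (by omega)
    rwa [show m - 2 + 1 = m - 1 by omega] at this
  have h1 := hdeg _ (rest_subset _ _ hp)
  have h2 := hdeg _ (rest_subset _ _ hq)
  have h3 := hdeg _ (rest_subset _ _ hx)
  have h4 := hdeg _ (rest_subset _ _ hy)
  have h4' := hdeg _ (rest_subset _ _ he)
  rw [hK.fam.dg_split] at h1 h2 h3 h4 h4'
  have hseg : ∀ z ∈ seg v 1 (m - 4), z ∈ rest U K := by
    intro z hz
    rw [mem_seg] at hz
    obtain ⟨j, j1, j2, rfl⟩ := hz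
    exact hpa.mem j (by omega)
  have hnot : ∀ j, m - 4 + 1 < j ∨ j = 0 → j < m → v j ∉ seg v 1 (m - 4) := by
    intro j hj hjm hh
    rw [mem_seg] at hh
    obtain ⟨i, i1, i2, i3⟩ := hh
    have := hpa.inj _ _ (by omega) (by omega) i3
    omega
  have hne : ∀ i j, i < m → j < m → i ≠ j → v i ≠ v j := fun i j hi hj hij hh =>
    hij (hpa.inj _ _ hi hj hh)
  have h5 : ∑ C ∈ K, (2 * (dg G C (v 0) + dg G C (v (m - 1))) + dg G C (v 1)
      + dg G C (v (m - 3)) + dg G C (v (m - 2))) ≤ K.card * 23 := by
    rw [← smul_eq_mul]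
    refine Finset.sum_le_card_nsmul _ _ _ fun C hC => ?_
    have hCr := hK.fam.len C hC
    rcases Nat.lt_or_ge 5 C.card with h | h
    · have g1 := hK.outside17 (by omega) hC h hp
      have g2 := hK.outside17 (by omega) hC h hq
      have g3 := hK.outside17 (by omega) hC h hx
      have g4 := hK.outside17 (by omega) hC h hy
      have g5 := hK.outside17 (by omega) hC h he
      omega
    · have hC5 : C.card = 5 := le_antisymm h hCr
      refine ll5r61 (hK.fam.cyc C hC) hC5 hmid (hpa.ch 0 (by omega)) hey hyq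
        (hne _ _ (by omega) (by omega) (by omega)) (hne _ _ (by omega) (by omega) (by omega))
        (hnot _ (by omega) (by omega)) (hnot _ (by omega) (by omega))
        (hnot _ (by omega) (by omega))
        ((mem_rest.1 hp).2 C hC) ((mem_rest.1 hy).2 C hC) ((mem_rest.1 hq).2 C hC)
        (fun z hz => (mem_rest.1 (hseg z hz)).2 C hC) (by rw [seg_length]; omega) ?_
      intro ht
      refine hK.no_twoR17 hno hC hC5 (ht.mono ?_)
      intro z hz
      rw [Finset.mem_insert, Finset.mem_insert, Finset.mem_insert, Finset.mem_union,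
        List.mem_toFinset] at hz
      rcases hz with h | h | h | h | h
      · rw [h]; exact Finset.mem_union_right _ hp
      · rw [h]; exact Finset.mem_union_right _ hy
      · rw [h]; exact Finset.mem_union_right _ hq
      · exact Finset.mem_union_right _ (hseg z h)
      · exact Finset.mem_union_left _ h
  simp only [Finset.sum_add_distrib, ← Finset.mul_sum] at h5
  have n0 := hno K hK rfl
  have d0 := span_deg17 hpa (by norm_num) n0 hspan (i := 0) (by omega)
  have d1 := span_deg17 hpa (by norm_num) n0 hspan (i := 1) (by omega)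
  have d2 := span_deg_rev17 hpa (by norm_num) n0 hspan (i := 0) (by omega)
  have d3 := span_deg_rev17 hpa (by norm_num) n0 hspan (i := 1) (by omega)
  have d4 := span_deg_rev17 hpa (by norm_num) n0 hspan (i := 2) (by omega)
  rw [Nat.sub_zero] at d2
  rw [show m - 1 - 1 = m - 2 by omega] at d3
  rw [show m - 1 - 2 = m - 3 by omega] at d4
  omega

end

end Pool.Agent.P0
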