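import Pool.Agent.P0.E149

set_option linter.all false

/-!
# P0, item I2: the spanning lemma and the degree bounds along a path without long cycles
-/

namespace Pool.Agent.P0

open Pool.Agent.Helper14.LongCyc Pool.Agent.LCK

universe u

variable {V : Type u} {G : SimpleGraph V}

/-- a path with `m` vertices, as a function of the position -/
structure PV17 (G : SimpleGraph V) (m : ℕ) (v : ℕ → V) : Prop where
  inj : ∀ i j, i < m → j < m → v i = v j → i = j
  adj : ∀ i, i + 1 < m → G.Adj (v i) (v (i + 1))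

theorem PV17.seg {m : ℕ} {v : ℕ → V} (h : PV17 G m v) : ∀ n i, i + n < m →
    Pth G (v i) (v (i + n)) (seg v i n) := by
  intro n
  induction n with
  | zero => intro i _; simpa [Helper14.LongCyc.seg] using Pth.singleton (v i)
  | succ n ih =>
    intro i hi
    have h1 := ih (i + 1) (by omega)
    have e : Helper14.LongCyc.seg v i (n + 1) = v i :: Helper14.LongCyc.seg v (i + 1) n := by
      simp only [Helper14.LongCyc.seg, List.range'_succ, List.map_cons]
    rw [e, show i + (n + 1) = i + 1 + n by ring]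
    refine h1.cons (h.adj i (by omega)) ?_
    rw [mem_seg]
    rintro ⟨j, h2, h3, h4⟩
    have := h.inj _ _ (by omega) (by omega) h4
    omega

theorem PV17.rev {m : ℕ} {v : ℕ → V} (h : PV17 G m v) : PV17 G m (fun i => v (m - 1 - i)) where
  inj := by
    intro i j hi hj he
    have := h.inj _ _ (by omega) (by omega) he
    omega
  adj := by
    intro i hi
    have := h.adj (m - 1 - (i + 1)) (by omega)
    rw [show m - 1 - (i + 1) + 1 = m - 1 - i by omega] at this
    exact this.symm

/-- every path has a parametrisation -/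
theorem exists_pv17 {a b : V} {l : List V} (h : Pth G a b l) :
    ∃ v : ℕ → V, PV17 G l.length v ∧ (∀ x, x ∈ l ↔ ∃ i < l.length, v i = x) ∧ v 0 = a ∧
      v (l.length - 1) = b := by
  have hpos := h.length_pos
  refine ⟨fun i => l.getD i a, ⟨?_, ?_⟩, ?_, ?_, ?_⟩
  · intro i j hi hj he
    simp only [List.getD_eq_getElem?_getD, List.getElem?_eq_getElem hi,
      List.getElem?_eq_getElem hj, Option.getD_some] at he
    exact (List.Nodup.getElem_inj_iff h.1).1 he
  · intro i hi
    have h1 := List.isChain_iff_getElem.1 h.2.1 i hi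
    simp only [List.getD_eq_getElem?_getD, List.getElem?_eq_getElem hi,
      List.getElem?_eq_getElem (show i < l.length by omega), Option.getD_some]
    exact h1
  · intro x
    constructor
    · intro hx
      obtain ⟨i, hi, h1⟩ := List.getElem_of_mem hx
      exact ⟨i, hi, by simp [List.getElem?_eq_getElem hi, h1]⟩
    · rintro ⟨i, hi, rfl⟩
      simp only [List.getD_eq_getElem?_getD, List.getElem?_eq_getElem hi, Option.getD_some]
      exact List.getElem_mem hi
  · have h1 := h.2.2.1
    rw [List.head?_eq_getElem?] at h1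
    simp [h1]
  · have h1 := h.2.2.2
    rw [List.getLast?_eq_getElem?] at h1
    simp [h1]

/-- a longest path inside a nonempty finite set -/
theorem longest17 [DecidableEq V] {K : Finset V} (hK : K.Nonempty) :
    ∃ x y q, Pth G x y q ∧ (∀ z ∈ q, z ∈ K) ∧
      ∀ a b m, Pth G a b m → (∀ z ∈ m, z ∈ K) → m.length ≤ q.length := by
  classical
  let P : ℕ → Prop := fun n => ∃ x y q, Pth G x y q ∧ (∀ z ∈ q, z ∈ K) ∧ q.length = n
  obtain ⟨v, hv⟩ := hK
  have hP : P 1 := ⟨v, v, [v], Pth.singleton v, by simpa using hv, rfl⟩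
  have hc : 1 ≤ K.card := Finset.card_pos.2 ⟨v, hv⟩
  obtain ⟨x, y, q, h1, h2, h3⟩ := Nat.findGreatest_spec (P := P) hc hP
  refine ⟨x, y, q, h1, h2, fun a b m hm hmK => ?_⟩
  rw [h3]
  have hle : m.length ≤ K.card := by
    rw [← List.toFinset_card_of_nodup hm.1]
    exact Finset.card_le_card fun z hz => hmK z (List.mem_toFinset.1 hz)
  exact Nat.le_findGreatest hle ⟨a, b, m, hm, hmK, rfl⟩

/-- positions of neighbours -/
theorem dg_pos17 [DecidableEq V] {m : ℕ} {v : ℕ → V} (h : PV17 G m v) {W : Finset V}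
    (hW : ∀ z ∈ W, ∃ i < m, v i = z) (x : V) {S : Finset ℕ}
    (hS : ∀ i < m, G.Adj x (v i) → i ∈ S) : dg G W x ≤ S.card := by
  classical
  unfold dg
  have h1 : (W.filter fun u => G.Adj x u) ⊆ S.image v := by
    intro z hz
    rw [Finset.mem_filter] at hz
    obtain ⟨i, hi, rfl⟩ := hW z hz.1
    exact Finset.mem_image.2 ⟨i, hS i hi hz.2, rfl⟩
  exact (Finset.card_le_card h1).trans Finset.card_image_le

/-- no two consecutive elements: the set is spread out -/
theorem spread17 {S : Finset ℕ} (hS : S.Nonempty) (h : ∀ i ∈ S, ∀ j ∈ S, i < j → i + 2 ≤ j) :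
    ∃ i ∈ S, ∃ j ∈ S, 2 * S.card ≤ j - i + 2 ∧ i ≤ j := by
  refine ⟨S.min' hS, S.min'_mem hS, S.max' hS, S.max'_mem hS, ?_, S.min'_le _ (S.max'_mem hS)⟩
  have h1 : Disjoint S (S.image (· + 1)) := by
    rw [Finset.disjoint_left]
    intro a ha hb
    obtain ⟨b, hb', hab⟩ := Finset.mem_image.1 hb
    have hab' : b + 1 = a := hab
    have := h b hb' a ha (by omega)
    omega
  have h2 : S ∪ S.image (· + 1) ⊆ Finset.Icc (S.min' hS) (S.max' hS + 1) := by
    intro a ha
    rw [Finset.mem_Icc]
    rcases Finset.mem_union.1 ha with ha | ha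
    · exact ⟨S.min'_le _ ha, (S.le_max' _ ha).trans (Nat.le_succ _)⟩
    · obtain ⟨b, hb, hab⟩ := Finset.mem_image.1 ha
      have hab' : b + 1 = a := hab
      have h3 := S.min'_le _ hb
      have h4 := S.le_max' _ hb
      constructor <;> omega
  have h3 := Finset.card_le_card h2
  rw [Finset.card_union_of_disjoint h1, Finset.card_image_of_injective _ (fun a b hab => by
    simpa using hab), Nat.card_Icc] at h3
  have h4 := S.min'_le _ (S.max'_mem hS)
  omega

section

variable [DecidableEq V] {r m : ℕ} {v : ℕ → V} {H : Finset V}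

/-- a detour can not be longer than what it replaces -/
theorem PV17.detour (h : PV17 G m v) (hH : ∀ i < m, v i ∈ H)
    (hmax : ∀ a b l, Pth G a b l → (∀ z ∈ l, z ∈ H) → l.length ≤ m)
    {x y : V} {q : List V} (hq : Pth G x y q) (hqH : ∀ z ∈ q, z ∈ H)
    (hqP : ∀ z ∈ q, ∀ i < m, v i ≠ z) {i j : ℕ} (hij : i < j) (hj : j < m)
    (hx : G.Adj x (v i)) (hy : G.Adj y (v j)) : i + 1 + q.length ≤ j := by
  have h1 := h.seg i 0 (by omega)
  rw [Nat.zero_add] at h1
  have h2 := h.seg (m - 1 - j) j (by omega)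
  have h3 := h1.append hq hx.symm (by
    intro z hz hz'
    rw [mem_seg] at hz
    obtain ⟨s, s1, s2, s3⟩ := hz
    exact hqP z hz' s (by omega) s3.symm)
  have h4 := h3.append h2 hy (by
    intro z hz hz'
    rw [mem_seg] at hz'
    obtain ⟨s, s1, s2, s3⟩ := hz'
    rw [List.mem_append] at hz
    rcases hz with hz | hz
    · rw [mem_seg] at hz
      obtain ⟨t, t1, t2, t3⟩ := hz
      have := h.inj _ _ (by omega) (by omega) (s3.symm.trans t3)
      omega
    · exact hqP z hz s (by omega) s3.symm)
  have h5 := hmax _ _ _ h4 (by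
    intro z hz
    rw [List.mem_append, List.mem_append] at hz
    rcases hz with (hz | hz) | hz
    · rw [mem_seg] at hz
      obtain ⟨t, t1, t2, t3⟩ := hz
      rw [t3]; exact hH t (by omega)
    · exact hqH z hz
    · rw [mem_seg] at hz
      obtain ⟨t, t1, t2, t3⟩ := hz
      rw [t3]; exact hH t (by omega))
  rw [List.length_append, List.length_append, seg_length, seg_length] at h5
  omega

/-- the cycle through a detour is short -/
theorem PV17.short (h : PV17 G m v) (hH : ∀ i < m, v i ∈ H) (hno : NoLong G r H)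
    {x y : V} {q : List V} (hq : Pth G x y q) (hqH : ∀ z ∈ q, z ∈ H)
    (hqP : ∀ z ∈ q, ∀ i < m, v i ≠ z) {i j : ℕ} (hij : i ≤ j) (hj : j < m)
    (hx : G.Adj x (v i)) (hy : G.Adj y (v j)) (h3 : 3 ≤ j - i + 1 + q.length) :
    j - i + 1 + q.length < r := by
  have h1 := h.seg (j - i) i (by omega)
  rw [show i + (j - i) = j by omega] at h1
  have h2 := h1.append hq.reverse hy.symm (by
    intro z hz hz'
    rw [mem_seg] at hz
    obtain ⟨s, s1, s2, s3⟩ := hz
    exact hqP z (List.mem_reverse.1 hz') s (by omega) s3.symm)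
  have h4 := hno _ ⟨by rw [List.length_append, seg_length, List.length_reverse]; omega, _, _, h2,
    hx⟩ (by
    intro z hz
    rw [List.mem_append, List.mem_reverse] at hz
    rcases hz with hz | hz
    · rw [mem_seg] at hz
      obtain ⟨t, t1, t2, t3⟩ := hz
      rw [t3]; exact hH t (by omega)
    · exact hqH z hz)
  rw [List.length_append, seg_length, List.length_reverse] at h4
  exact h4

/-- chords of the path are short -/
theorem PV17.chord (h : PV17 G m v) (hH : ∀ i < m, v i ∈ H) (hno : NoLong G r H) (hr : 3 ≤ r)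
    {i j : ℕ} (hij : i < j) (hj : j < m) (ha : G.Adj (v i) (v j)) : j - i + 1 < r := by
  by_contra hcon
  have h1 := h.seg (j - i) i (by omega)
  rw [show i + (j - i) = j by omega] at h1
  have h4 := hno _ ⟨by rw [seg_length]; omega, _, _, h1, ha.symm⟩ (by
    intro z hz
    rw [mem_seg] at hz
    obtain ⟨t, t1, t2, t3⟩ := hz
    rw [t3]; exact hH t (by omega))
  rw [seg_length] at h4
  omega

end

/-- **(SP)** if `P` is a longest path of `H`, `H` has no long cycle and all vertices off `P` have
degree at least `r - 1`, then `P` spans `H` -/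
theorem sp17 [DecidableEq V] {r : ℕ} (hr : 3 ≤ r) {H : Finset V} (hno : NoLong G r H) {w w' : V}
    {l : List V} (hl : Pth G w w' l) (hs : ∀ z ∈ l, z ∈ H)
    (hmax : ∀ a b m, Pth G a b m → (∀ z ∈ m, z ∈ H) → m.length ≤ l.length)
    (hdeg : ∀ u ∈ H, u ∉ l → r ≤ dg G H u + 1) : ∀ u ∈ H, u ∈ l := by
  classical
  by_contra hcon
  push Not at hcon
  obtain ⟨u₀, hu₀, hu₀l⟩ := hcon
  obtain ⟨v, hv, hvl, -, -⟩ := exists_pv17 hl
  set m := l.length with hm
  have hvH : ∀ i < m, v i ∈ H := fun i hi => hs _ ((hvl _).2 ⟨i, hi, rfl⟩)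
  have hK : (H \ l.toFinset).Nonempty := ⟨u₀, by
    rw [Finset.mem_sdiff, List.mem_toFinset]; exact ⟨hu₀, hu₀l⟩⟩
  obtain ⟨x, y, q, hq, hqK, hqmax⟩ := longest17 (G := G) hK
  have hqH : ∀ z ∈ q, z ∈ H := fun z hz => (Finset.mem_sdiff.1 (hqK z hz)).1
  have hql : ∀ z ∈ q, z ∉ l := fun z hz hz' =>
    (Finset.mem_sdiff.1 (hqK z hz)).2 (List.mem_toFinset.2 hz')
  have hqP : ∀ z ∈ q, ∀ i < m, v i ≠ z := by
    intro z hz i hi he
    exact hql z hz ((hvl z).2 ⟨i, hi, he⟩)
  -- positions of the neighbours on the path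
  let S : V → Finset ℕ := fun z => (Finset.range m).filter fun i => G.Adj z (v i)
  have hSm : ∀ {z : V} {i : ℕ}, i ∈ S z ↔ i < m ∧ G.Adj z (v i) := by
    intro z i
    simp [S]
  have hpart : ∀ z, dg G H z ≤ (S z).card + dg G (H \ l.toFinset) z := by
    intro z
    have h1 : H ⊆ l.toFinset ∪ (H \ l.toFinset) := by
      intro a ha
      rw [Finset.mem_union, Finset.mem_sdiff]
      tauto
    have h2 := dg_mono (G := G) h1 z
    have h3 := dg_union_le (G := G) l.toFinset (H \ l.toFinset) z
    have h4 : dg G l.toFinset z ≤ (S z).card := by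
      refine dg_pos17 hv ?_ z ?_
      · intro a ha
        exact (hvl a).1 (List.mem_toFinset.1 ha)
      · intro i hi ha
        exact hSm.2 ⟨hi, ha⟩
    omega
  -- ends of the longest outside path
  have hend : ∀ {x y : V} {q : List V}, Pth G x y q → (∀ z ∈ q, z ∈ H \ l.toFinset) →
      (∀ a b m, Pth G a b m → (∀ z ∈ m, z ∈ H \ l.toFinset) → m.length ≤ q.length) →
      r ≤ (S x).card + (r - 2) + 1 ∧ r ≤ (S x).card + q.length := by
    intro x y q hq hqK hqmax
    have hx := hq.head_mem
    have hxK := hqK x hx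
    have hxH := (Finset.mem_sdiff.1 hxK).1
    have hxl : x ∉ l := fun h => (Finset.mem_sdiff.1 hxK).2 (List.mem_toFinset.2 h)
    have h1 := hdeg x hxH hxl
    have h2 := hpart x
    have hcl : ∀ u ∈ H \ l.toFinset, G.Adj x u → u ∈ q := by
      intro u hu hxu
      by_contra huq
      have := hqmax _ _ _ (hq.cons hxu.symm huq) (by
        intro z hz
        rcases List.mem_cons.1 hz with hz | hz
        · rw [hz]; exact hu
        · exact hqK z hz)
      simp at this
    obtain ⟨t, rfl⟩ : ∃ t, q = x :: t := by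
      have h5 := hq.2.2.1
      cases q with
      | nil => simp at h5
      | cons a t =>
        simp only [List.head?_cons, Option.some.injEq] at h5
        exact ⟨t, by rw [h5]⟩
    have h3 : dg G (H \ l.toFinset) x ≤ r - 2 :=
      leaf_deg hr (hno.mono Finset.sdiff_subset) hq hqK hcl
    have h4 : dg G (H \ l.toFinset) x ≤ t.length := by
      unfold dg
      refine le_trans (Finset.card_le_card (t := t.toFinset) ?_) (List.toFinset_card_le _)
      intro u hu
      rw [Finset.mem_filter] at hu
      rw [List.mem_toFinset]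
      rcases List.mem_cons.1 (hcl u hu.1 hu.2) with h6 | h6
      · exact absurd h6.symm hu.2.ne
      · exact h6
    simp only [List.length_cons]
    omega
  have hrev : ∀ a b m, Pth G a b m → (∀ z ∈ m, z ∈ H \ l.toFinset) →
      m.length ≤ q.reverse.length := by
    intro a b m h1 h2
    rw [List.length_reverse]
    exact hqmax a b m h1 h2
  obtain ⟨hx1, hx2⟩ := hend hq hqK hqmax
  obtain ⟨hy1, hy2⟩ := hend hq.reverse (fun z hz => hqK z (List.mem_reverse.1 hz)) hrev
  rw [List.length_reverse] at hy2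
  -- single vertices
  have hsingle : ∀ z ∈ q, ∀ i ∈ S z, ∀ j ∈ S z, i < j → i + 2 ≤ j ∧ j - i + 2 < r := by
    intro z hz i hi j hj hij
    have h1 := hSm.1 hi
    have h2 := hSm.1 hj
    have hzP : ∀ z' ∈ [z], ∀ i < m, v i ≠ z' := by
      intro z' hz'
      rw [List.mem_singleton] at hz'
      rw [hz']; exact hqP z hz
    have hzH : ∀ z' ∈ [z], z' ∈ H := by
      intro z' hz'
      rw [List.mem_singleton] at hz'
      rw [hz']; exact hqH z hz
    have h3 := hv.detour hvH hmax (Pth.singleton z) hzH hzP hij h2.1 h1.2 h2.2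
    have h4 := hv.short hvH hno (Pth.singleton z) hzH hzP hij.le h2.1 h1.2 h2.2 (by
      simp only [List.length_singleton]; omega)
    simp only [List.length_singleton] at h3 h4
    omega
  have hspread : ∀ z ∈ q, (S z).Nonempty → 2 * (S z).card ≤ 2 ∨ 2 * (S z).card < r := by
    intro z hz hne
    obtain ⟨i, hi, j, hj, h1, h2⟩ := spread17 hne (fun i hi j hj hij => (hsingle z hz i hi j hj hij).1)
    rcases Nat.lt_or_ge i j with h3 | h3
    · have := (hsingle z hz i hi j hj h3).2
      right; omega
    · left; omega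
  have hSx : (S x).Nonempty := Finset.card_pos.1 (by omega)
  have hSy : (S y).Nonempty := Finset.card_pos.1 (by omega)
  have hsx := hspread x hq.head_mem hSx
  have hsy := hspread y hq.last_mem hSy
  have hqpos := hq.length_pos
  -- two different positions
  have hdiff : ∀ i ∈ S x, ∀ j ∈ S y, i ≠ j → 2 ≤ q.length → 2 * q.length + 3 ≤ r := by
    intro i hi j hj hne h2q
    have h1 := hSm.1 hi
    have h2 := hSm.1 hj
    rcases Nat.lt_or_gt_of_ne hne with h3 | h3
    · have h4 := hv.detour hvH hmax hq hqH hqP h3 h2.1 h1.2 h2.2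
      have h5 := hv.short hvH hno hq hqH hqP h3.le h2.1 h1.2 h2.2 (by omega)
      omega
    · have hq' := hq.reverse
      have hqH' : ∀ z ∈ q.reverse, z ∈ H := fun z hz => hqH z (List.mem_reverse.1 hz)
      have hqP' : ∀ z ∈ q.reverse, ∀ i < m, v i ≠ z := fun z hz => hqP z (List.mem_reverse.1 hz)
      have h4 := hv.detour hvH hmax hq' hqH' hqP' h3 h1.1 h2.2 h1.2
      have h5 := hv.short hvH hno hq' hqH' hqP' h3.le h1.1 h2.2 h1.2 (by
        rw [List.length_reverse]; omega)
      rw [List.length_reverse] at h4 h5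
      omega
  rcases Nat.lt_or_ge q.length 2 with hq1 | hq2
  · -- one vertex
    omega
  · by_cases hall : ∃ i ∈ S x, ∃ j ∈ S y, i ≠ j
    · obtain ⟨i, hi, j, hj, hne⟩ := hall
      have := hdiff i hi j hj hne hq2
      omega
    · push Not at hall
      obtain ⟨i, hi⟩ := hSx
      obtain ⟨j, hj⟩ := hSy
      have hij := hall i hi j hj
      have hcard : (S x).card ≤ 1 := by
        rw [Finset.card_le_one]
        intro a ha b hb
        exact (hall a ha j hj).trans (hall b hb j hj).symm
      have h1 := hSm.1 hi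
      have h2 := hSm.1 hj
      rw [hij] at h1
      have h5 := hv.short hvH hno hq hqH hqP le_rfl h2.1 h1.2 h2.2 (by omega)
      omega

end Pool.Agent.P0
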