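import Pool.Agent.P0.MinK99
import Pool.Agent.P0.Graph35
import Pool.Agent.P0.Span17
import Pool.Agent.P0.Ends49
import Pool.Agent.P0.Ref61

set_option linter.all false

/-!
# P0, row I3: Lemma X

Among the families of `k - 2` disjoint long cycles of minimal total length there is one whose rest
contains a long cycle.
-/

namespace Pool.Agent.P0

open Pool.Agent.Helper14.LongCyc Pool.Agent.LCK Pool.Agent.FRC

universe u

variable {V : Type u} {G : SimpleGraph V}

/-- a member longer than `r` is locally shortest -/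
theorem MinK99.short35 [DecidableEq V] {U : Finset V} {r : ℕ} {F : Finset (Finset V)}
    (hF : MinK99 G U r F) {C : Finset V} (hC : C ∈ F) {D : Finset V} (hD : CycSet G D)
    (hDs : D ⊆ C ∪ rest U F) (hDr : r ≤ D.card) : C.card ≤ D.card := by
  obtain ⟨h1, h2, h3⟩ := hF.fam.replace hC hD hDs hDr
  have h4 : (insert D (F.erase C)).card = F.card := by
    rw [Finset.card_insert_of_notMem h2, Finset.card_erase_of_mem hC]
    have : 0 < F.card := Finset.card_pos.2 ⟨C, hC⟩
    omega
  have h5 := hF.min _ h1 h4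
  unfold tot at h5
  rw [Finset.sum_insert h2] at h5
  have h6 := Finset.add_sum_erase F (fun s => s.card) hC
  omega

/-- a member longer than `r` sees little from outside -/
theorem MinK99.outside35 [DecidableEq V] {U : Finset V} {r : ℕ} (hr : 4 ≤ r) {F : Finset (Finset V)}
    (hF : MinK99 G U r F) {C : Finset V} (hC : C ∈ F) (hCr : r < C.card) {v : V}
    (hv : v ∈ rest U F) : dg G C v ≤ (r + 1) / 2 := by
  refine LCK.outside hr (hF.fam.cyc C hC) hCr ((mem_rest.1 hv).2 C hC) ?_
  intro D hD hDs hDr
  refine hF.short35 hC hD (hDs.trans ?_) hDr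
  intro z hz
  rcases Finset.mem_insert.1 hz with h | h
  · rw [h]; exact Finset.mem_union_right _ hv
  · exact Finset.mem_union_left _ h

/-- replacing a member by a cycle of the same length keeps minimality -/
theorem MinK99.replace_same35 [DecidableEq V] {U : Finset V} {r : ℕ} {F : Finset (Finset V)}
    (hF : MinK99 G U r F) {C D : Finset V} (hC : C ∈ F) (hD : CycSet G D)
    (hDs : D ⊆ C ∪ rest U F) (hcard : D.card = C.card) :
    MinK99 G U r (insert D (F.erase C)) ∧ (insert D (F.erase C)).card = F.card ∧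
      rest U (insert D (F.erase C)) = (C ∪ rest U F) \ D := by
  have hCr := hF.fam.len C hC
  obtain ⟨h1, h2, h3⟩ := hF.fam.replace hC hD hDs (by show r ≤ D.card; rw [hcard]; exact hCr)
  have h4 : (insert D (F.erase C)).card = F.card := by
    rw [Finset.card_insert_of_notMem h2, Finset.card_erase_of_mem hC]
    have : 0 < F.card := Finset.card_pos.2 ⟨C, hC⟩
    omega
  have h5 : tot (insert D (F.erase C)) = tot F := by
    unfold tot
    rw [Finset.sum_insert h2, hcard]
    exact Finset.add_sum_erase F (fun s => s.card) hC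
  refine ⟨⟨h1, fun F' hF' hc => ?_⟩, h4, h3⟩
  rw [h5]; exact hF.min F' hF' (by rw [hc, h4])

/-- a minimal family of `n` members together with a path of its rest which is longest over all
minimal families of `n` members, none of which has a long cycle in its rest -/
structure MinP35 (G : SimpleGraph V) (U : Finset V) (r : ℕ) (F : Finset (Finset V)) (w w' : V)
    (l : List V) : Prop where
  opt : MinK99 G U r F
  path : Pth G w w' l
  sub : ∀ z ∈ l, z ∈ rest U F
  max : ∀ F' a b m, MinK99 G U r F' → F'.card = F.card → Pth G a b m →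
    (∀ z ∈ m, z ∈ rest U F') → m.length ≤ l.length
  no : ∀ F', MinK99 G U r F' → F'.card = F.card → NoLong G r (rest U F')

/-- (E1) -/
theorem MinP35.e1 [DecidableEq V] {U : Finset V} {r : ℕ} (hr : 4 ≤ r) {F : Finset (Finset V)}
    {w w' : V} {l : List V} (h : MinP35 G U r F w w' l) {u : V} (hu : u ∈ rest U F) (hul : u ∉ l)
    {C : Finset V} (hC : C ∈ F) : 2 * dg G C u + dg G C w ≤ 2 * r := by
  classical
  have hw := h.sub w h.path.head_mem
  have hCr := h.opt.fam.len C hC
  rcases Nat.lt_or_ge r C.card with h0 | h0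
  · have h1 := h.opt.outside35 hr hC h0 hu
    have h2 := h.opt.outside35 hr hC h0 hw
    omega
  · have hCc : C.card = r := le_antisymm h0 hCr
    obtain ⟨c, hc, hs⟩ := h.opt.fam.cyc C hC
    have hcard := card_of_list (Cyc.nodup hc) hs
    have hCt : c.toFinset = C := by
      ext z; rw [List.mem_toFinset]; exact hs z
    have hp : 0 < c.length := by omega
    haveI : NeZero c.length := ⟨by omega⟩
    have huC : u ∉ C := (mem_rest.1 hu).2 C hC
    have huc : u ∉ c := fun hh => huC ((hs u).1 hh)
    have hloc : ∀ i : ZMod c.length, ind49 G c hp u (i - 1) + ind49 G c hp u (i + 1)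
        + ind49 G c hp w i ≤ 2 := by
      intro i
      have l1 := ind_le49 (G := G) hp u (i - 1)
      have l2 := ind_le49 (G := G) hp u (i + 1)
      have l3 := ind_le49 (G := G) hp w i
      by_contra hne
      have k1 : ind49 G c hp u (i - 1) = 1 := by omega
      have k2 : ind49 G c hp u (i + 1) = 1 := by omega
      have k3 : ind49 G c hp w i = 1 := by omega
      obtain ⟨n, hn⟩ : ∃ n : ℕ, i - 1 = ((n : ℕ) : ZMod c.length) :=
        ⟨(i - 1).val, (ZMod.natCast_zmod_val _).symm⟩
      have hi : i = ((n + 1 : ℕ) : ZMod c.length) := by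
        push_cast
        rw [← hn]; ring
      have hi' : i + 1 = ((n + 2 : ℕ) : ZMod c.length) := by
        push_cast
        rw [← hn]; ring
      rw [ind_nat49 hp n hn] at k1
      rw [ind_nat49 hp (n + 2) hi'] at k2
      rw [ind_nat49 hp (n + 1) hi] at k3
      have hA := arc_pth hc hp (c.length - 2) (n + 2) (by omega)
      have e0 : cf c hp (n + 2 + (c.length - 2)) = cf c hp n := by
        apply cf_congr
        rw [show n + 2 + (c.length - 2) = n + c.length by omega, Nat.add_mod_right]
      rw [e0] at hA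
      have key : ∀ z ∈ seg (cf c hp) (n + 2) (c.length - 2), z ≠ cf c hp (n + 1) := by
        intro z hz hzz
        rw [mem_seg] at hz
        obtain ⟨j, j1, j2, j3⟩ := hz
        rw [hzz, show j = n + (j - n) by omega] at j3
        exact far49 hc hp n (s := 1) (t := j - n) (by omega) (by omega) j3
      obtain ⟨e1, e2⟩ := joinSet hA (Pth.singleton u) (by
        intro z hz hz'
        rw [List.mem_singleton] at hz'
        exact huc (hz' ▸ arc_mem49 hp hz)) (by
        rw [seg_length]; simp only [List.length_singleton]; omega)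
        (Or.inl ⟨k2.symm, k1.symm⟩)
      rw [seg_length, List.length_singleton] at e2
      obtain ⟨o1, o3, o2⟩ := h.opt.replace_same35 hC e1 (by
        intro z hz
        rw [List.mem_toFinset, List.mem_append, List.mem_singleton] at hz
        rcases hz with hz | hz
        · exact Finset.mem_union_left _ ((hs z).1 (arc_mem49 hp hz))
        · rw [hz]; exact Finset.mem_union_right _ hu) (by rw [e2]; omega)
      have hcC : cf c hp (n + 1) ∈ C := (hs _).1 (cf_mem hp _)
      have hcl : cf c hp (n + 1) ∉ l := fun hh => (mem_rest.1 (h.sub _ hh)).2 C hC hcC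
      have hlong := h.max _ _ _ _ o1 o3 (h.path.cons k3.symm hcl) (by
        intro z hz
        rw [o2, Finset.mem_sdiff, List.mem_toFinset, List.mem_append, List.mem_singleton]
        rcases List.mem_cons.1 hz with hz | hz
        · rw [hz]
          refine ⟨Finset.mem_union_left _ hcC, ?_⟩
          rintro (hh | hh)
          · exact key _ hh rfl
          · exact huC (hh ▸ hcC)
        · have hzr := h.sub z hz
          refine ⟨Finset.mem_union_right _ hzr, ?_⟩
          rintro (hh | hh)
          · exact (mem_rest.1 hzr).2 C hC ((hs z).1 (arc_mem49 hp hh))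
          · exact hul (hh ▸ hz))
      simp only [List.length_cons] at hlong
      omega
    have hsum : ∑ i, (ind49 G c hp u (i - 1) + ind49 G c hp u (i + 1) + ind49 G c hp w i)
        ≤ ∑ _i : ZMod c.length, 2 := Finset.sum_le_sum fun i _ => hloc i
    have hn := Cyc.nodup hc
    rw [Finset.sum_add_distrib, Finset.sum_add_distrib, shiftN49, shift49 (ind49 G c hp u),
      sum_ind49 hp hn, sum_ind49 hp hn, hCt, Finset.sum_const, Finset.card_univ, ZMod.card,
      smul_eq_mul] at hsum
    omega

/-- (E2) with two members less -/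
theorem MinP35.e2 [DecidableEq V] {U : Finset V} {k r : ℕ} (hr : 4 ≤ r) {F : Finset (Finset V)}
    {w w' : V} {l : List V} (h : MinP35 G U r F w w' l) (hk : F.card + 2 ≤ k)
    (hdeg : ∀ v ∈ U, 2 * k * r ≤ 3 * dg G U v) {u : V} (hu : u ∈ rest U F) (hul : u ∉ l) :
    4 * r ≤ 2 * dg G (rest U F) u + dg G (rest U F) w := by
  have hw := h.sub w h.path.head_mem
  have h1 := hdeg u (rest_subset _ _ hu)
  have h2 := hdeg w (rest_subset _ _ hw)
  rw [h.opt.fam.dg_split] at h1 h2
  have h5 : ∑ C ∈ F, (2 * dg G C u + dg G C w) ≤ F.card * (2 * r) := by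
    rw [← smul_eq_mul]
    exact Finset.sum_le_card_nsmul _ _ _ fun C hC => h.e1 hr hu hul hC
  simp only [Finset.sum_add_distrib, ← Finset.mul_sum] at h5
  have h6 : F.card * (2 * r) + 4 * r ≤ 2 * (k * r) := by
    have : (F.card + 2) * r ≤ k * r := Nat.mul_le_mul_right r hk
    nlinarith
  have h7 : 2 * k * r = 2 * (k * r) := by ring
  rw [h7] at h1 h2
  omega

/-- degrees along a path spanning a set without long cycle -/
theorem degs35 [DecidableEq V] {H : Finset V} {r m : ℕ} (hr : 3 ≤ r) (hno : NoLong G r H)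
    {v : ℕ → V} (h : Pa G H m v) (hsp : ∀ z ∈ H, ∃ i, i < m ∧ v i = z) {s : ℕ} (hs : s < m) :
    dg G H (v s) ≤ s + (r - 2) := by
  classical
  have h1 : ((Finset.range (s + (r - 2) + 1)).erase s).card = s + (r - 2) := by
    rw [Finset.card_erase_of_mem (Finset.mem_range.2 (by omega)), Finset.card_range]
    omega
  rw [← h1]
  refine (dg_le49 (S := ((Finset.range (s + (r - 2) + 1)).erase s).image v) ?_).trans
    Finset.card_image_le
  intro z hz hza
  obtain ⟨j, hj, rfl⟩ := hsp z hz
  refine Finset.mem_image.2 ⟨j, Finset.mem_erase.2 ⟨?_, Finset.mem_range.2 ?_⟩, rfl⟩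
  · rintro rfl
    exact G.loopless.irrefl _ hza
  · rcases Nat.lt_or_ge j (s + 1) with h2 | h2
    · omega
    · have hpa : Pa G H (m - s) (fun i => v (i + s)) :=
        ⟨fun i hi => h.mem _ (by omega), fun i i' hi hi' hii => by
          have := h.inj _ _ (by omega) (by omega) hii
          omega, fun i hi => by
          have := h.ch (i + s) (by omega)
          show G.Adj (v (i + s)) (v (i + 1 + s))
          rw [show i + 1 + s = i + s + 1 by ring]
          exact this⟩
      have := Pa.cyc hpa (by omega) hno (m := j - s) (by omega) (by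
        show G.Adj (v (0 + s)) (v (j - s + s))
        rw [Nat.zero_add, show j - s + s = j by omega]
        exact hza)
      omega

/-- no cycle of length exactly `r` and a disjoint long cycle in a member of length `r` and the rest -/
theorem MinP35.no_two [DecidableEq V] {U : Finset V} {r : ℕ} {F : Finset (Finset V)}
    {w w' : V} {l : List V} (h : MinP35 G U r F w w' l) {C : Finset V} (hC : C ∈ F)
    (hCr : C.card = r) : ¬ TwoR61 G r (C ∪ rest U F) := by
  rintro ⟨D, E, h1, h2, h3, h4, h5, h6, h7⟩
  obtain ⟨o1, o2, o3⟩ := h.opt.replace_same35 hC h1 h3 (by rw [h5, hCr])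
  have h8 := noLong_card (h.no _ o1 o2) h2 (by
    rw [o3]
    intro z hz
    exact Finset.mem_sdiff.2 ⟨h4 hz, fun hz' => Finset.disjoint_left.1 h7 hz' hz⟩)
  omega

section

variable [DecidableEq V] {U : Finset V} {k r : ℕ} {F : Finset (Finset V)} {w w' : V} {l : List V}

/-- the sum of the degrees into the members -/
theorem MinP35.sum (h : MinP35 G U r F w w' l) (hk : F.card + 2 ≤ k)
    (hdeg : ∀ v ∈ U, 2 * k * r ≤ 3 * dg G U v) {v : V} (hv : v ∈ rest U F) :
    2 * (k * r) ≤ 3 * dg G (rest U F) v + 3 * ∑ C ∈ F, dg G C v := by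
  have h1 := hdeg v (rest_subset _ _ hv)
  rw [h.opt.fam.dg_split] at h1
  have h7 : 2 * k * r = 2 * (k * r) := by ring
  omega

theorem MinP35.false_six (h : MinP35 G U r F w w' l) (hr : 6 ≤ r) (hk : F.card + 2 ≤ k)
    (hdeg : ∀ v ∈ U, 2 * k * r ≤ 3 * dg G U v) (hl : r + 1 ≤ l.length)
    (hsp : ∀ z ∈ rest U F, z ∈ l) : False := by
  obtain ⟨v, pa, v0, v1, hvl⟩ := pa_of_pth49 h.path h.sub
  set m := l.length with hm
  have hno := h.no F h.opt rfl
  have sp : ∀ z ∈ rest U F, ∃ i, i < m ∧ v i = z := fun z hz => (hvl z).1 (hsp z hz)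
  have sp' : ∀ z ∈ rest U F, ∃ i, i < m ∧ (fun i => v (m - 1 - i)) i = z := by
    intro z hz
    obtain ⟨i, hi, he⟩ := sp z hz
    refine ⟨m - 1 - i, by omega, ?_⟩
    show v (m - 1 - (m - 1 - i)) = z
    rw [show m - 1 - (m - 1 - i) = i by omega]
    exact he
  have d0 := degs35 (by omega) hno pa sp (s := 0) (by omega)
  have d1 := degs35 (by omega) hno pa sp (s := 1) (by omega)
  have d2 := degs35 (by omega) hno (Pa.rev49 pa) sp' (s := 0) (by omega)
  have d3 := degs35 (by omega) hno (Pa.rev49 pa) sp' (s := 1) (by omega)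
  simp only [Nat.sub_zero] at d2
  rw [show m - 1 - 1 = m - 2 by omega] at d3
  have s0 := h.sum hk hdeg (pa.mem 0 (by omega))
  have s1 := h.sum hk hdeg (pa.mem 1 (by omega))
  have s2 := h.sum hk hdeg (pa.mem (m - 1) (by omega))
  have s3 := h.sum hk hdeg (pa.mem (m - 2) (by omega))
  have hmid := seg_pa49 pa (m - 3) 1 (by omega)
  rw [show 1 + (m - 3) = m - 2 by omega] at hmid
  have hmem : ∀ z ∈ seg v 1 (m - 3), ∃ j, 1 ≤ j ∧ j ≤ m - 2 ∧ z = v j := by
    intro z hz
    rw [mem_seg] at hz
    obtain ⟨j, j1, j2, j3⟩ := hz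
    exact ⟨j, j1, by omega, j3⟩
  have h5 : ∑ C ∈ F, (2 * (dg G C (v 0) + dg G C (v (m - 1))) + dg G C (v 1)
      + dg G C (v (m - 2))) ≤ F.card * (4 * r) := by
    rw [← smul_eq_mul]
    refine Finset.sum_le_card_nsmul _ _ _ fun C hC => ?_
    have hCr := h.opt.fam.len C hC
    rcases Nat.lt_or_ge r C.card with h0 | h0
    · have g1 := h.opt.outside35 (by omega) hC h0 (pa.mem 0 (by omega))
      have g2 := h.opt.outside35 (by omega) hC h0 (pa.mem 1 (by omega))
      have g3 := h.opt.outside35 (by omega) hC h0 (pa.mem (m - 1) (by omega))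
      have g4 := h.opt.outside35 (by omega) hC h0 (pa.mem (m - 2) (by omega))
      omega
    · refine llplus35 hr (h.opt.fam.cyc C hC) (le_antisymm h0 hCr) hmid
        (pa.ch 0 (by omega)) ?_ ?_ ?_ ?_ ((mem_rest.1 (pa.mem 0 (by omega))).2 C hC)
        ((mem_rest.1 (pa.mem (m - 1) (by omega))).2 C hC) ?_ ?_ ?_
      · have := pa.ch (m - 2) (by omega)
        rwa [show m - 2 + 1 = m - 1 by omega] at this
      · intro hh
        have := pa.inj _ _ (by omega) (by omega) hh
        omega
      · intro hh
        obtain ⟨j, j1, j2, j3⟩ := hmem _ hh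
        have := pa.inj _ _ (by omega) (by omega) j3
        omega
      · intro hh
        obtain ⟨j, j1, j2, j3⟩ := hmem _ hh
        have := pa.inj _ _ (by omega) (by omega) j3
        omega
      · intro z hz
        obtain ⟨j, j1, j2, rfl⟩ := hmem z hz
        exact (mem_rest.1 (pa.mem j (by omega))).2 C hC
      · rw [seg_length]; omega
      · intro h2
        refine h.no_two hC (le_antisymm h0 hCr) (Two35.mono h2 ?_)
        intro z hz
        rw [Finset.mem_insert, Finset.mem_insert, Finset.mem_union, List.mem_toFinset] at hz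
        rcases hz with h' | h' | h' | h'
        · rw [h']; exact Finset.mem_union_right _ (pa.mem 0 (by omega))
        · rw [h']; exact Finset.mem_union_right _ (pa.mem (m - 1) (by omega))
        · obtain ⟨j, j1, j2, rfl⟩ := hmem z h'
          exact Finset.mem_union_right _ (pa.mem j (by omega))
        · exact Finset.mem_union_left _ h'
  simp only [Finset.sum_add_distrib, ← Finset.mul_sum] at h5
  have h6 : F.card * (4 * r) + 8 * r ≤ 4 * (k * r) := by
    have : (F.card + 2) * r ≤ k * r := Nat.mul_le_mul_right r hk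
    nlinarith
  omega

theorem MinP35.false_four (h : MinP35 G U 4 F w w' l) (hk : F.card + 2 ≤ k)
    (hdeg : ∀ v ∈ U, 2 * k * 4 ≤ 3 * dg G U v) (hl : 5 ≤ l.length)
    (hsp : ∀ z ∈ rest U F, z ∈ l) : False := by
  obtain ⟨v, pa, v0, v1, hvl⟩ := pa_of_pth49 h.path h.sub
  set m := l.length with hm
  have hno := h.no F h.opt rfl
  have sp : ∀ z ∈ rest U F, ∃ i, i < m ∧ v i = z := fun z hz => (hvl z).1 (hsp z hz)
  have sp' : ∀ z ∈ rest U F, ∃ i, i < m ∧ (fun i => v (m - 1 - i)) i = z := by
    intro z hz
    obtain ⟨i, hi, he⟩ := sp z hz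
    refine ⟨m - 1 - i, by omega, ?_⟩
    show v (m - 1 - (m - 1 - i)) = z
    rw [show m - 1 - (m - 1 - i) = i by omega]
    exact he
  have d0 := degs35 (by omega) hno pa sp (s := 0) (by omega)
  have d1 := degs35 (by omega) hno pa sp (s := 1) (by omega)
  have d2 := degs35 (by omega) hno (Pa.rev49 pa) sp' (s := 0) (by omega)
  have d3 := degs35 (by omega) hno (Pa.rev49 pa) sp' (s := 1) (by omega)
  simp only [Nat.sub_zero] at d2
  rw [show m - 1 - 1 = m - 2 by omega] at d3
  have s0 := h.sum hk hdeg (pa.mem 0 (by omega))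
  have s1 := h.sum hk hdeg (pa.mem 1 (by omega))
  have s2 := h.sum hk hdeg (pa.mem (m - 1) (by omega))
  have s3 := h.sum hk hdeg (pa.mem (m - 2) (by omega))
  have hmid := seg_pa49 pa (m - 3) 1 (by omega)
  rw [show 1 + (m - 3) = m - 2 by omega] at hmid
  have hmem : ∀ z ∈ seg v 1 (m - 3), ∃ j, 1 ≤ j ∧ j ≤ m - 2 ∧ z = v j := by
    intro z hz
    rw [mem_seg] at hz
    obtain ⟨j, j1, j2, j3⟩ := hz
    exact ⟨j, j1, by omega, j3⟩
  have h5 : ∑ C ∈ F, (2 * (dg G C (v 0) + dg G C (v (m - 1))) + dg G C (v 1)
      + dg G C (v (m - 2))) ≤ F.card * 16 := by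
    rw [← smul_eq_mul]
    refine Finset.sum_le_card_nsmul _ _ _ fun C hC => ?_
    have hCr := h.opt.fam.len C hC
    rcases Nat.lt_or_ge 4 C.card with h0 | h0
    · have g1 := h.opt.outside35 (by omega) hC h0 (pa.mem 0 (by omega))
      have g2 := h.opt.outside35 (by omega) hC h0 (pa.mem 1 (by omega))
      have g3 := h.opt.outside35 (by omega) hC h0 (pa.mem (m - 1) (by omega))
      have g4 := h.opt.outside35 (by omega) hC h0 (pa.mem (m - 2) (by omega))
      omega
    · refine ll4r61 (h.opt.fam.cyc C hC) (le_antisymm h0 hCr) hmid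
        (pa.ch 0 (by omega)) ?_ ?_ ?_ ?_ ((mem_rest.1 (pa.mem 0 (by omega))).2 C hC)
        ((mem_rest.1 (pa.mem (m - 1) (by omega))).2 C hC) ?_ ?_ ?_
      · have := pa.ch (m - 2) (by omega)
        rwa [show m - 2 + 1 = m - 1 by omega] at this
      · intro hh
        have := pa.inj _ _ (by omega) (by omega) hh
        omega
      · intro hh
        obtain ⟨j, j1, j2, j3⟩ := hmem _ hh
        have := pa.inj _ _ (by omega) (by omega) j3
        omega
      · intro hh
        obtain ⟨j, j1, j2, j3⟩ := hmem _ hh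
        have := pa.inj _ _ (by omega) (by omega) j3
        omega
      · intro z hz
        obtain ⟨j, j1, j2, rfl⟩ := hmem z hz
        exact (mem_rest.1 (pa.mem j (by omega))).2 C hC
      · rw [seg_length]; omega
      · intro h2
        refine h.no_two hC (le_antisymm h0 hCr) (TwoR61.mono h2 ?_)
        intro z hz
        rw [Finset.mem_insert, Finset.mem_insert, Finset.mem_union, List.mem_toFinset] at hz
        rcases hz with h' | h' | h' | h'
        · rw [h']; exact Finset.mem_union_right _ (pa.mem 0 (by omega))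
        · rw [h']; exact Finset.mem_union_right _ (pa.mem (m - 1) (by omega))
        · obtain ⟨j, j1, j2, rfl⟩ := hmem z h'
          exact Finset.mem_union_right _ (pa.mem j (by omega))
        · exact Finset.mem_union_left _ h'
  simp only [Finset.sum_add_distrib, ← Finset.mul_sum] at h5
  omega

theorem MinP35.false_five (h : MinP35 G U 5 F w w' l) (hk : F.card + 2 ≤ k)
    (hdeg : ∀ v ∈ U, 2 * k * 5 ≤ 3 * dg G U v) (hl : 6 ≤ l.length)
    (hsp : ∀ z ∈ rest U F, z ∈ l) : False := by
  obtain ⟨v, pa, v0, v1, hvl⟩ := pa_of_pth49 h.path h.sub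
  set m := l.length with hm
  have hno := h.no F h.opt rfl
  have sp : ∀ z ∈ rest U F, ∃ i, i < m ∧ v i = z := fun z hz => (hvl z).1 (hsp z hz)
  have sp' : ∀ z ∈ rest U F, ∃ i, i < m ∧ (fun i => v (m - 1 - i)) i = z := by
    intro z hz
    obtain ⟨i, hi, he⟩ := sp z hz
    refine ⟨m - 1 - i, by omega, ?_⟩
    show v (m - 1 - (m - 1 - i)) = z
    rw [show m - 1 - (m - 1 - i) = i by omega]
    exact he
  have d0 := degs35 (by omega) hno pa sp (s := 0) (by omega)
  have d1 := degs35 (by omega) hno pa sp (s := 1) (by omega)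
  have d2 := degs35 (by omega) hno (Pa.rev49 pa) sp' (s := 0) (by omega)
  have d3 := degs35 (by omega) hno (Pa.rev49 pa) sp' (s := 1) (by omega)
  have d4 := degs35 (by omega) hno (Pa.rev49 pa) sp' (s := 2) (by omega)
  simp only [Nat.sub_zero] at d2
  rw [show m - 1 - 1 = m - 2 by omega] at d3
  rw [show m - 1 - 2 = m - 3 by omega] at d4
  have s0 := h.sum hk hdeg (pa.mem 0 (by omega))
  have s1 := h.sum hk hdeg (pa.mem 1 (by omega))
  have s2 := h.sum hk hdeg (pa.mem (m - 1) (by omega))
  have s3 := h.sum hk hdeg (pa.mem (m - 2) (by omega))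
  have s4 := h.sum hk hdeg (pa.mem (m - 3) (by omega))
  have hmid := seg_pa49 pa (m - 4) 1 (by omega)
  rw [show 1 + (m - 4) = m - 3 by omega] at hmid
  have hmem : ∀ z ∈ seg v 1 (m - 4), ∃ j, 1 ≤ j ∧ j ≤ m - 3 ∧ z = v j := by
    intro z hz
    rw [mem_seg] at hz
    obtain ⟨j, j1, j2, j3⟩ := hz
    exact ⟨j, j1, by omega, j3⟩
  have h5 : ∑ C ∈ F, (2 * (dg G C (v 0) + dg G C (v (m - 1))) + dg G C (v 1)
      + dg G C (v (m - 3)) + dg G C (v (m - 2))) ≤ F.card * 23 := by
    rw [← smul_eq_mul]
    refine Finset.sum_le_card_nsmul _ _ _ fun C hC => ?_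
    have hCr := h.opt.fam.len C hC
    rcases Nat.lt_or_ge 5 C.card with h0 | h0
    · have g1 := h.opt.outside35 (by omega) hC h0 (pa.mem 0 (by omega))
      have g2 := h.opt.outside35 (by omega) hC h0 (pa.mem 1 (by omega))
      have g3 := h.opt.outside35 (by omega) hC h0 (pa.mem (m - 1) (by omega))
      have g4 := h.opt.outside35 (by omega) hC h0 (pa.mem (m - 2) (by omega))
      have g5 := h.opt.outside35 (by omega) hC h0 (pa.mem (m - 3) (by omega))
      omega
    · refine ll5r61 (h.opt.fam.cyc C hC) (le_antisymm h0 hCr) hmid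
        (pa.ch 0 (by omega)) ?_ ?_ ?_ ?_ ?_ ?_ ?_ ((mem_rest.1 (pa.mem 0 (by omega))).2 C hC)
        ((mem_rest.1 (pa.mem (m - 2) (by omega))).2 C hC)
        ((mem_rest.1 (pa.mem (m - 1) (by omega))).2 C hC) ?_ ?_ ?_
      · have := pa.ch (m - 3) (by omega)
        rwa [show m - 3 + 1 = m - 2 by omega] at this
      · have := pa.ch (m - 2) (by omega)
        rwa [show m - 2 + 1 = m - 1 by omega] at this
      · intro hh
        have := pa.inj _ _ (by omega) (by omega) hh
        omega
      · intro hh
        have := pa.inj _ _ (by omega) (by omega) hh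
        omega
      · intro hh
        obtain ⟨j, j1, j2, j3⟩ := hmem _ hh
        have := pa.inj _ _ (by omega) (by omega) j3
        omega
      · intro hh
        obtain ⟨j, j1, j2, j3⟩ := hmem _ hh
        have := pa.inj _ _ (by omega) (by omega) j3
        omega
      · intro hh
        obtain ⟨j, j1, j2, j3⟩ := hmem _ hh
        have := pa.inj _ _ (by omega) (by omega) j3
        omega
      · intro z hz
        obtain ⟨j, j1, j2, rfl⟩ := hmem z hz
        exact (mem_rest.1 (pa.mem j (by omega))).2 C hC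
      · rw [seg_length]; omega
      · intro h2
        refine h.no_two hC (le_antisymm h0 hCr) (TwoR61.mono h2 ?_)
        intro z hz
        rw [Finset.mem_insert, Finset.mem_insert, Finset.mem_insert, Finset.mem_union,
          List.mem_toFinset] at hz
        rcases hz with h' | h' | h' | h' | h'
        · rw [h']; exact Finset.mem_union_right _ (pa.mem 0 (by omega))
        · rw [h']; exact Finset.mem_union_right _ (pa.mem (m - 2) (by omega))
        · rw [h']; exact Finset.mem_union_right _ (pa.mem (m - 1) (by omega))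
        · obtain ⟨j, j1, j2, rfl⟩ := hmem z h'
          exact Finset.mem_union_right _ (pa.mem j (by omega))
        · exact Finset.mem_union_left _ h'
  simp only [Finset.sum_add_distrib, ← Finset.mul_sum] at h5
  omega

/-- the path spans the rest -/
theorem MinP35.spans (h : MinP35 G U r F w w' l) (hr : 4 ≤ r) (hk : F.card + 2 ≤ k)
    (hdeg : ∀ v ∈ U, 2 * k * r ≤ 3 * dg G U v) : ∀ z ∈ rest U F, z ∈ l := by
  have hno := h.no F h.opt rfl
  refine sp17 (by omega) hno h.path h.sub (fun a b m h1 h2 => h.max F a b m h.opt rfl h1 h2) ?_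
  intro u hu hul
  have h1 := h.e2 hr hk hdeg hu hul
  have h2 : dg G (rest U F) w ≤ r - 2 := by
    obtain ⟨v, pa, v0, v1, hvl⟩ := pa_of_pth49 h.path h.sub
    have hpos := h.path.length_pos
    have h3 : ((Finset.range (r - 1)).erase 0).card = r - 2 := by
      rw [Finset.card_erase_of_mem (Finset.mem_range.2 (by omega)), Finset.card_range]
      omega
    rw [← h3]
    refine (dg_le49 (S := ((Finset.range (r - 1)).erase 0).image v) ?_).trans
      Finset.card_image_le
    intro z hz hza
    have hzl : z ∈ l := by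
      by_contra hzl
      have := h.max F _ _ _ h.opt rfl (h.path.cons hza.symm hzl) (by
        intro y hy
        rcases List.mem_cons.1 hy with hy | hy
        · rw [hy]; exact hz
        · exact h.sub y hy)
      simp only [List.length_cons] at this
      omega
    obtain ⟨j, hj, rfl⟩ := (hvl z).1 hzl
    refine Finset.mem_image.2 ⟨j, Finset.mem_erase.2 ⟨?_, Finset.mem_range.2 ?_⟩, rfl⟩
    · rintro rfl
      rw [v0] at hza
      exact G.loopless.irrefl _ hza
    · have := Pa.cyc pa (by omega) hno (m := j) hj (by rw [v0]; exact hza)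
      omega
  omega

end

/-- **Lemma X** -/
theorem lemX35 {k r : ℕ} (hk : 3 ≤ k) (hr : 4 ≤ r) {V : Type u} [DecidableEq V]
    {G : SimpleGraph V} {U : Finset V} {F : Finset (Finset V)}
    (hF : Fam G U (fun L => r ≤ L) F) (hFk : F.card + 1 = k) (hU : k * r ≤ U.card)
    (hdeg : ∀ v ∈ U, 2 * k * r ≤ 3 * dg G U v) :
    ∃ K X, MinK99 G U r K ∧ K.card + 2 = k ∧ CycSet G X ∧ X ⊆ rest U K ∧ r ≤ X.card := by
  classical
  by_contra hcon
  have hno : ∀ K, MinK99 G U r K → K.card + 2 = k → NoLong G r (rest U K) := by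
    intro K hK hKk
    by_contra hlong
    obtain ⟨X, h1, h2, h3⟩ := exists_of_not_noLong hlong
    exact hcon ⟨K, X, hK, hKk, h1, h2, h3⟩
  -- the longest member of `F`
  have hne : F.Nonempty := by
    rw [← Finset.card_pos]; omega
  obtain ⟨X, hX, hmax⟩ := Finset.exists_max_image F (fun s => s.card) hne
  have hsub : Fam G U (fun L => r ≤ L) (F.erase X) :=
    ⟨fun s hs => hF.cyc s (Finset.mem_of_mem_erase hs),
      fun s hs => hF.sub s (Finset.mem_of_mem_erase hs),
      fun s hs => hF.len s (Finset.mem_of_mem_erase hs),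
      fun s hs t ht hst => hF.disj s (Finset.mem_of_mem_erase hs) t (Finset.mem_of_mem_erase ht)
        hst⟩
  have hcardE : (F.erase X).card + 2 = k := by
    rw [Finset.card_erase_of_mem hX]; omega
  have htotE : tot (F.erase X) + X.card = tot F := by
    unfold tot
    rw [add_comm]
    exact Finset.add_sum_erase F (fun s => s.card) hX
  have hUE : tot (F.erase X) + (r + 1) ≤ U.card := by
    have h1 := tot_le49 hF
    rcases Nat.lt_or_ge r X.card with h | h
    · omega
    · have h2 : tot (F.erase X) ≤ (F.erase X).card * r := by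
        unfold tot
        rw [← smul_eq_mul]
        exact Finset.sum_le_card_nsmul _ _ _ fun s hs =>
          (hmax s (Finset.mem_of_mem_erase hs)).trans h
      have h3 : (F.erase X).card * r + 2 * r = k * r := by
        rw [← hcardE]; ring
      omega
  -- a minimal family
  obtain ⟨K0, ⟨hK0, hK0c⟩, hK0max⟩ := exists_max_nat (α := Finset (Finset V))
    (fun K => Fam G U (fun L => r ≤ L) K ∧ K.card + 2 = k) (fun K => U.card - tot K) U.card
    (fun K _ => Nat.sub_le _ _) ⟨F.erase X, hsub, hcardE⟩
  have hmin : MinK99 G U r K0 := by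
    refine ⟨hK0, fun K' hK' hc => ?_⟩
    have h1 := hK0max K' ⟨hK', by omega⟩
    have h2 := tot_le49 hK'
    have h3 := tot_le49 hK0
    omega
  -- every minimal family leaves at least `r + 1` vertices
  have hrest : ∀ K, MinK99 G U r K → K.card + 2 = k → r + 1 ≤ (rest U K).card := by
    intro K hK hKk
    have h1 := hK.min _ hsub (by omega)
    have h2 := hK.fam.card_rest
    omega
  have hne0 := hrest K0 hmin hK0c
  obtain ⟨x, hx⟩ := Finset.card_pos.1 (show 0 < (rest U K0).card by omega)
  obtain ⟨⟨K, l⟩, ⟨a, b, h1, h1c, h2, h3⟩, hlmax⟩ :=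
    exists_max_nat (α := Finset (Finset V) × List V)
    (fun w => ∃ a b, MinK99 G U r w.1 ∧ w.1.card + 2 = k ∧ Pth G a b w.2 ∧
      ∀ z ∈ w.2, z ∈ rest U w.1)
    (fun w => w.2.length) U.card (by
      rintro ⟨F, l⟩ ⟨a, b, h1, -, h2, h3⟩
      exact h2.length_le fun z hz => rest_subset _ _ (h3 z hz))
    ⟨(K0, [x]), x, x, hmin, hK0c, Pth.singleton x, fun z hz => by
      rw [List.mem_singleton.1 hz]; exact hx⟩
  have hP : MinP35 G U r K a b l :=
    { opt := h1
      path := h2
      sub := h3
      max := fun F' a' b' l' k1 k2 k3 k4 => hlmax (F', l') ⟨a', b', k1, by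
        have : K.card + 2 = k := h1c
        show F'.card + 2 = k
        omega, k3, k4⟩
      no := fun F' k1 k2 => hno F' k1 (by
        have : K.card + 2 = k := h1c
        omega) }
  have hKk : K.card + 2 ≤ k := le_of_eq h1c
  have hsp := hP.spans hr hKk hdeg
  have hlen : r + 1 ≤ l.length := by
    refine (hrest K h1 h1c).trans ?_
    refine (Finset.card_le_card (t := l.toFinset) fun z hz => List.mem_toFinset.2 (hsp z hz)).trans
      (List.toFinset_card_le _)
  rcases Nat.lt_or_ge r 6 with h6 | h6
  · rcases (by omega : r = 4 ∨ r = 5) with h | h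
    · subst h
      exact hP.false_four hKk hdeg hlen hsp
    · subst h
      exact hP.false_five hKk hdeg hlen hsp
  · exact hP.false_six h6 hKk hdeg hlen hsp

/-- Lemma X in the form used by the final count -/
theorem lemX29 {k r : ℕ} (hk : 3 ≤ k) (hr : 4 ≤ r) {V : Type u} [DecidableEq V]
    {G : SimpleGraph V} {U : Finset V} {F : Finset (Finset V)}
    (hF : Fam G U (fun L => r ≤ L) F) (hFk : F.card + 1 = k) (hU : k * r + 1 ≤ U.card)
    (hdeg : ∀ v ∈ U, 2 * k * r ≤ 3 * dg G U v) :
    ∃ K X, MinK99 G U r K ∧ K.card + 2 = k ∧ CycSet G X ∧ X ⊆ rest U K ∧ r ≤ X.card :=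
  lemX35 hk hr hF hFk (by omega) hdeg

end Pool.Agent.P0
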