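import Pool.Agent.P0.RestTwo99
import Pool.Agent.P0.LemX35

set_option linter.all false

/-!
# P0, row I3: complete
-/

namespace Pool.Agent.P0

open Pool.Agent.Helper14.LongCyc Pool.Agent.LCK

universe u

theorem lemX99 {k r : ℕ} (hk : 3 ≤ k) (hr : 4 ≤ r) : Closed99.LemX99.{u} k r :=
  fun hF hFk hU hdeg => lemX35 hk hr hF hFk hU hdeg

/-- **item I3** -/
theorem iRest99 {k r : ℕ} (hk : 3 ≤ k) (hr : 4 ≤ r) : IRest41.{u} k r :=
  Closed99.iRest99_of (lemX99 hk hr) hr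

/-- **item I3** for exactly `k r` vertices -/
theorem iRestEq99 {k r : ℕ} (hk : 3 ≤ k) (hr : 4 ≤ r) : IRestEq41.{u} k r :=
  Closed99.iRestEq99_of (lemX99 hk hr) hr

/-- an optimal family with a member longer than `r` has a large rest -/
theorem rest_of_long99 {k r : ℕ} (hk : 3 ≤ k) (hr : 4 ≤ r) {V : Type u} [DecidableEq V]
    {G : SimpleGraph V} {U : Finset V} {F : Finset (Finset V)} (hF : Opt49 G U r F)
    (hFk : F.card + 1 = k) (hlong : ∃ C ∈ F, r < C.card) (hU : k * r ≤ U.card)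
    (hdeg : ∀ v ∈ U, 2 * k * r ≤ 3 * dg G U v) : r + 1 ≤ (rest U F).card :=
  Closed99.rest_of_long99 (lemX99 hk hr) hr hF hFk hlong hU hdeg

end Pool.Agent.P0
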