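import Pool.Agent.P0.Full41
import Pool.Agent.P0.IRest99
import Pool.Agent.FRC.Main

set_option linter.all false

/-!
# P0: the final statements
-/

namespace Pool.Agent.P0

open Pool.Agent.Helper14.LongCyc Pool.Agent.LCK Pool.Agent.FRC

universe u

/-- more than `k r` vertices, or at least `N₀` vertices -/
theorem answerA14 : ∃ N₀ : ℕ, ∀ k r : ℕ, 2 ≤ k → 3 ≤ r →
    ∀ (V : Type u) [Fintype V] (G : SimpleGraph V) [DecidableRel G.Adj],
      k * r ≤ Fintype.card V → (k * r < Fintype.card V ∨ N₀ ≤ Fintype.card V) →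
      (2 / 3 : ℝ) * k * r ≤ (G.minDegree : ℝ) →
        ∃ (a : Fin k → V) (c : (i : Fin k) → G.Walk (a i) (a i)),
          (∀ i, (c i).IsCycle ∧ r ≤ (c i).length) ∧
          ∀ i j, i ≠ j → ∀ x, x ∈ (c i).support → x ∉ (c j).support := by
  obtain ⟨N₀, hN⟩ := all_large.{u}
  refine ⟨N₀, fun k r hk hr V _ G _ hn hcase hdeg => ?_⟩
  rcases Nat.lt_or_ge r 4 with h4 | h4
  · obtain rfl : r = 3 := by omega
    exact walks41 (three41 k) V G hn hdeg
  rcases hcase with h | h
  · exact walks41 (more41_of (fun k r hk hr => iRest99 hk hr) hk hr) V G h hdeg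
  · exact hN k r hk h4 V G hn h hdeg

/-- the full answer from the case of exactly `k r` vertices -/
theorem answerB14 (h : ∀ k r, 3 ≤ k → 4 ≤ r → T41.{u} k r (k * r)) (k r : ℕ) (hk : 2 ≤ k)
    (hr : 3 ≤ r) (V : Type u) [Fintype V] (G : SimpleGraph V) [DecidableRel G.Adj]
    (hn : k * r ≤ Fintype.card V) (hdeg : (2 / 3 : ℝ) * k * r ≤ (G.minDegree : ℝ)) :
        ∃ (a : Fin k → V) (c : (i : Fin k) → G.Walk (a i) (a i)),
          (∀ i, (c i).IsCycle ∧ r ≤ (c i).length) ∧
          ∀ i j, i ≠ j → ∀ x, x ∈ (c i).support → x ∉ (c j).support := by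
  rcases Nat.lt_or_ge r 4 with h4 | h4
  · obtain rfl : r = 3 := by omega
    exact walks41 (three41 k) V G hn hdeg
  rcases Nat.lt_or_ge k 3 with h3 | h3
  · obtain rfl : k = 2 := by omega
    exact walks41 (base41 h4) V G hn hdeg
  · exact walks41 (h k r h3 h4) V G hn hdeg

end Pool.Agent.P0
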