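import Pool.Agent.FRC.CH.Main

set_option linter.all false

/-!
# P0, item I7, `r = 6`: `6 k` vertices, degrees at least `4 k`, give `k` disjoint cycles of length 6

Corradi-Hajnal gives `2 k` disjoint triangles; two triangles with at least 4 edges between them
have a Hamilton cycle; the auxiliary graph on the `2 k` triangles has a perfect matching.
-/

namespace Pool.Agent.P0

open Pool.Agent.Helper14.LongCyc Pool.Agent.LCK Pool.Agent.FRC

universe u

/-! ### matchings -/

/-- `M` is a set of pairwise disjoint pairs of related elements of `F` -/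
structure Mt53 {α : Type u} (F : Finset α) (R : α → α → Prop) (M : Finset (Finset α)) : Prop where
  pair : ∀ e ∈ M, ∃ a b, a ∈ F ∧ b ∈ F ∧ a ≠ b ∧ R a b ∧ ∀ x, x ∈ e ↔ x = a ∨ x = b
  disj : ∀ e ∈ M, ∀ e' ∈ M, e ≠ e' → Disjoint e e'

variable {α : Type u} [DecidableEq α] {F : Finset α} {R : α → α → Prop} {M : Finset (Finset α)}

theorem Mt53.card_pair (h : Mt53 F R M) {e : Finset α} (he : e ∈ M) : e.card = 2 := by
  obtain ⟨a, b, _, _, hab, _, hx⟩ := h.pair e he
  have : e = {a, b} := by
    ext x; rw [hx]; simp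
  rw [this, Finset.card_pair hab]

theorem Mt53.card_union (h : Mt53 F R M) : (M.biUnion id).card = 2 * M.card := by
  rw [Finset.card_biUnion (s := M) (t := id) (fun e he e' he' hne => h.disj e he e' he' hne)]
  rw [Finset.sum_congr rfl (fun e he => (h.card_pair he : (id e).card = 2))]
  simp [mul_comm]

/-- add one pair outside -/
theorem Mt53.add (h : Mt53 F R M) {a b : α} (ha : a ∈ F) (hb : b ∈ F) (hab : a ≠ b) (hR : R a b)
    (ha' : ∀ e ∈ M, a ∉ e) (hb' : ∀ e ∈ M, b ∉ e) :
    Mt53 F R (insert {a, b} M) ∧ (insert {a, b} M).card = M.card + 1 := by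
  refine ⟨⟨?_, ?_⟩, ?_⟩
  · intro e he
    rcases Finset.mem_insert.1 he with he | he
    · exact ⟨a, b, ha, hb, hab, hR, fun x => by rw [he]; simp⟩
    · exact h.pair e he
  · have key : ∀ e ∈ M, Disjoint ({a, b} : Finset α) e := by
      intro e he
      rw [Finset.disjoint_left]
      intro x hx hxe
      rw [Finset.mem_insert, Finset.mem_singleton] at hx
      rcases hx with hx | hx
      · exact ha' e he (hx ▸ hxe)
      · exact hb' e he (hx ▸ hxe)
    intro e he e' he' hne
    rcases Finset.mem_insert.1 he with he | he <;> rcases Finset.mem_insert.1 he' with he' | he'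
    · exact absurd (he.trans he'.symm) hne
    · rw [he]; exact key e' he'
    · rw [he']; exact (key e he).symm
    · exact h.disj e he e' he' hne
  · refine Finset.card_insert_of_notMem fun hmem => ha' _ hmem (by simp)

theorem Mt53.erase (h : Mt53 F R M) (e : Finset α) : Mt53 F R (M.erase e) :=
  ⟨fun e' he' => h.pair e' (Finset.mem_of_mem_erase he'), fun e' he' e'' he'' hne =>
    h.disj e' (Finset.mem_of_mem_erase he') e'' (Finset.mem_of_mem_erase he'') hne⟩

/-- one augmentation -/
theorem Mt53.step (hs : ∀ a b, R a b → R b a) {k : ℕ} (hF : 2 * k ≤ F.card)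
    (hd : ∀ a ∈ F, ∃ N : Finset α, N ⊆ F ∧ k ≤ N.card ∧ ∀ b ∈ N, R a b ∧ b ≠ a)
    (h : Mt53 F R M) (hk : M.card < k) : ∃ M', Mt53 F R M' ∧ M'.card = M.card + 1 := by
  classical
  by_contra hcon
  push Not at hcon
  have hW := h.card_union
  have hWF : M.biUnion id ⊆ F := by
    intro x hx
    rw [Finset.mem_biUnion] at hx
    obtain ⟨e, he, hxe⟩ := hx
    obtain ⟨a, b, ha, hb, _, _, hx'⟩ := h.pair e he
    rcases (hx' x).1 hxe with h1 | h1
    · rw [h1]; exact ha
    · rw [h1]; exact hb
  have hout : 2 ≤ (F \ M.biUnion id).card := by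
    rw [Finset.card_sdiff_of_subset hWF]
    omega
  obtain ⟨u, hu, v, hv, huv⟩ := Finset.one_lt_card.1 hout
  rw [Finset.mem_sdiff] at hu hv
  have hu' : ∀ e ∈ M, u ∉ e := fun e he hue => hu.2 (Finset.mem_biUnion.2 ⟨e, he, hue⟩)
  have hv' : ∀ e ∈ M, v ∉ e := fun e he hve => hv.2 (Finset.mem_biUnion.2 ⟨e, he, hve⟩)
  -- neighbours of unmatched elements are matched
  have hin : ∀ w, w ∈ F → (∀ e ∈ M, w ∉ e) → ∀ z ∈ F, z ≠ w → R w z → ∃ e ∈ M, z ∈ e := by
    intro w hw hwe z hz hzw hR
    by_contra hc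
    push Not at hc
    obtain ⟨h1, h2⟩ := h.add hw hz hzw.symm hR hwe hc
    exact hcon _ h1 h2
  obtain ⟨N, hNF, hNk, hN⟩ := hd u hu.1
  obtain ⟨N', hNF', hNk', hN'⟩ := hd v hv.1
  have hsum : ∀ (N : Finset α), (∀ z ∈ N, ∃ e ∈ M, z ∈ e) → N.card = ∑ e ∈ M, (e ∩ N).card := by
    intro N hN
    have e1 : N = M.biUnion (fun e => e ∩ N) := by
      ext z
      rw [Finset.mem_biUnion]
      constructor
      · intro hz
        obtain ⟨e, he, hze⟩ := hN z hz
        exact ⟨e, he, Finset.mem_inter.2 ⟨hze, hz⟩⟩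
      · rintro ⟨e, _, hz⟩
        exact (Finset.mem_inter.1 hz).2
    conv_lhs => rw [e1]
    rw [Finset.card_biUnion]
    intro e he e' he' hne
    exact (h.disj e he e' he' hne).mono Finset.inter_subset_left Finset.inter_subset_left
  have s1 := hsum N fun z hz => hin u hu.1 hu' z (hNF hz) (hN z hz).2 (hN z hz).1
  have s2 := hsum N' fun z hz => hin v hv.1 hv' z (hNF' hz) (hN' z hz).2 (hN' z hz).1
  have s3 : ∃ e ∈ M, 2 < (e ∩ N).card + (e ∩ N').card := by
    by_contra hc
    push Not at hc
    have := Finset.sum_le_card_nsmul M _ _ hc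
    rw [Finset.sum_add_distrib, ← s1, ← s2, smul_eq_mul] at this
    omega
  obtain ⟨e, he, he3⟩ := s3
  obtain ⟨a, b, ha, hb, hab, hR, hx⟩ := h.pair e he
  have hc2 := h.card_pair he
  have l1 : (e ∩ N).card ≤ e.card := Finset.card_le_card Finset.inter_subset_left
  have l2 : (e ∩ N').card ≤ e.card := Finset.card_le_card Finset.inter_subset_left
  -- the exchange
  have fin : ∀ a b : α, a ∈ e → b ∈ e → a ≠ b → a ∈ N → b ∈ N' → False := by
    intro a b hae hbe hab haN hbN
    have f1 := h.erase e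
    have g1 : ∀ e' ∈ M.erase e, u ∉ e' := fun e' he' => hu' e' (Finset.mem_of_mem_erase he')
    have g2 : ∀ e' ∈ M.erase e, a ∉ e' := by
      intro e' he' hae'
      have := h.disj e he e' (Finset.mem_of_mem_erase he') (Finset.ne_of_mem_erase he').symm
      exact (Finset.disjoint_left.1 this) hae hae'
    have g3 : ∀ e' ∈ M.erase e, v ∉ e' := fun e' he' => hv' e' (Finset.mem_of_mem_erase he')
    have g4 : ∀ e' ∈ M.erase e, b ∉ e' := by
      intro e' he' hbe'
      have := h.disj e he e' (Finset.mem_of_mem_erase he') (Finset.ne_of_mem_erase he').symm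
      exact (Finset.disjoint_left.1 this) hbe hbe'
    have hua : u ≠ a := fun hh => hu' e he (hh ▸ hae)
    have hub : u ≠ b := fun hh => hu' e he (hh ▸ hbe)
    have hva : v ≠ a := fun hh => hv' e he (hh ▸ hae)
    have hvb : v ≠ b := fun hh => hv' e he (hh ▸ hbe)
    obtain ⟨k1, k2⟩ := f1.add hu.1 (hNF haN) hua (hN a haN).1 g1 g2
    obtain ⟨k3, k4⟩ := k1.add hv.1 (hNF' hbN) hvb (hN' b hbN).1 (by
      intro e' he' hve'
      rcases Finset.mem_insert.1 he' with h1 | h1
      · rw [h1, Finset.mem_insert, Finset.mem_singleton] at hve'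
        rcases hve' with h2 | h2
        · exact huv h2.symm
        · exact hva h2
      · exact g3 e' h1 hve') (by
      intro e' he' hbe'
      rcases Finset.mem_insert.1 he' with h1 | h1
      · rw [h1, Finset.mem_insert, Finset.mem_singleton] at hbe'
        rcases hbe' with h2 | h2
        · exact hub h2.symm
        · exact hab h2.symm
      · exact g4 e' h1 hbe')
    refine hcon _ k3 ?_
    rw [k4, k2, Finset.card_erase_of_mem he]
    have := Finset.card_pos.2 ⟨e, he⟩
    omega
  have hae : a ∈ e := (hx a).2 (Or.inl rfl)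
  have hbe : b ∈ e := (hx b).2 (Or.inr rfl)
  rcases Nat.lt_or_ge (e ∩ N).card 2 with h1 | h1
  · -- then `e ⊆ N'`
    have h2 : e ∩ N' = e := Finset.eq_of_subset_of_card_le Finset.inter_subset_left (by omega)
    obtain ⟨z, hz⟩ := Finset.card_pos.1 (show 0 < (e ∩ N).card by omega)
    rw [Finset.mem_inter] at hz
    rcases (hx z).1 hz.1 with h3 | h3
    · exact fin a b hae hbe hab (h3 ▸ hz.2) (Finset.mem_inter.1 (h2.symm ▸ hbe)).2
    · exact fin b a hbe hae hab.symm (h3 ▸ hz.2) (Finset.mem_inter.1 (h2.symm ▸ hae)).2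
  · have h2 : e ∩ N = e := Finset.eq_of_subset_of_card_le Finset.inter_subset_left (by omega)
    obtain ⟨z, hz⟩ := Finset.card_pos.1 (show 0 < (e ∩ N').card by omega)
    rw [Finset.mem_inter] at hz
    rcases (hx z).1 hz.1 with h3 | h3
    · exact fin b a hbe hae hab.symm (Finset.mem_inter.1 (h2.symm ▸ hbe)).2 (h3 ▸ hz.2)
    · exact fin a b hae hbe hab (Finset.mem_inter.1 (h2.symm ▸ hae)).2 (h3 ▸ hz.2)

/-- a graph with `2 k` vertices and degrees at least `k` has a perfect matching -/
theorem match53 (F : Finset α) (R : α → α → Prop) (hs : ∀ a b, R a b → R b a) {k : ℕ}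
    (hF : 2 * k ≤ F.card)
    (hd : ∀ a ∈ F, ∃ N : Finset α, N ⊆ F ∧ k ≤ N.card ∧ ∀ b ∈ N, R a b ∧ b ≠ a) :
    ∃ M, Mt53 F R M ∧ M.card = k := by
  have key : ∀ m, m ≤ k → ∃ M, Mt53 F R M ∧ M.card = m := by
    intro m
    induction m with
    | zero => exact fun _ => ⟨∅, ⟨by simp, by simp⟩, by simp⟩
    | succ m ih =>
      intro hm
      obtain ⟨M, hM, hMm⟩ := ih (by omega)
      obtain ⟨M', h1, h2⟩ := hM.step hs hF hd (by omega)
      exact ⟨M', h1, by omega⟩
  exact key k le_rfl

/-! ### two triangles -/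

variable {V : Type u} {G : SimpleGraph V}

/-- the vertices of a triangle are pairwise adjacent -/
theorem tri53 [DecidableEq V] {A : Finset V} (hA : CycSet G A) (h3 : A.card = 3) {x y : V}
    (hx : x ∈ A) (hy : y ∈ A) (hxy : x ≠ y) : G.Adj x y := by
  obtain ⟨l, hl, hs⟩ := hA
  have hlen := card_of_list (Cyc.nodup hl) hs
  rw [h3] at hlen
  obtain ⟨_, p, q, hp, hpq⟩ := hl
  obtain ⟨a, b, c, rfl⟩ := List.length_eq_three.1 hlen.symm
  obtain ⟨_, h2, h3, h4⟩ := hp
  simp only [List.isChain_cons_cons, List.isChain_singleton, and_true] at h2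
  simp only [List.head?_cons, Option.some.injEq] at h3
  simp only [List.getLast?_cons_cons, List.getLast?_singleton, Option.some.injEq] at h4
  subst h3
  subst h4
  have hx' := (hs x).2 hx
  have hy' := (hs y).2 hy
  simp only [List.mem_cons, List.not_mem_nil, or_false] at hx' hy'
  rcases hx' with rfl | rfl | rfl <;> rcases hy' with rfl | rfl | rfl
  · exact absurd rfl hxy
  · exact h2.1
  · exact hpq.symm
  · exact h2.1.symm
  · exact absurd rfl hxy
  · exact h2.2
  · exact hpq
  · exact h2.2.symm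
  · exact absurd rfl hxy

/-- four edges between two triples contain two disjoint ones -/
theorem two53 [DecidableEq V] {A B : Finset V} (hA : A.card = 3) (hB : B.card = 3)
    (h : 4 ≤ eS G A B) : ∃ x ∈ A, ∃ x' ∈ A, ∃ y ∈ B, ∃ y' ∈ B, x ≠ x' ∧ y ≠ y' ∧ G.Adj x y ∧
      G.Adj x' y' := by
  classical
  by_contra hcon
  push Not at hcon
  have h1 : ∃ a ∈ A, 2 ≤ dg G B a := by
    by_contra hc
    push Not at hc
    have := Finset.sum_le_card_nsmul A (fun a => dg G B a) 1 (fun a ha => by
      have := hc a ha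
      omega)
    rw [hA] at this
    unfold eS at h
    simp only [smul_eq_mul, mul_one] at this
    omega
  obtain ⟨a, ha, h2⟩ := h1
  have h3 : ∀ a' ∈ A, a' ≠ a → dg G B a' = 0 := by
    intro a' ha' hne
    by_contra hc
    obtain ⟨z, hz⟩ := Finset.card_pos.1 (Nat.pos_of_ne_zero (by unfold dg at hc; exact hc))
    rw [Finset.mem_filter] at hz
    unfold dg at h2
    obtain ⟨y, hy, y', hy', hyy⟩ := Finset.one_lt_card.1 h2
    rw [Finset.mem_filter] at hy hy'
    by_cases hyz : y = z
    · exact hcon a ha a' ha' y' hy'.1 z hz.1 hne.symm (fun e => hyy (hyz.trans e.symm)) hy'.2 hz.2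
    · exact hcon a ha a' ha' y hy.1 z hz.1 hne.symm hyz hy.2 hz.2
  have h4 : eS G A B = dg G B a := by
    unfold eS
    refine Finset.sum_eq_single a (fun b hb hne => h3 b hb hne) (fun hh => absurd ha hh)
  have h5 := dg_le (G := G) B a
  omega

/-- the third vertex -/
theorem thirdElt53 [DecidableEq V] {A : Finset V} (hA : A.card = 3) {x x' : V} (hx : x ∈ A)
    (hx' : x' ∈ A) (hne : x ≠ x') : ∃ z ∈ A, z ≠ x ∧ z ≠ x' ∧ ∀ y ∈ A, y = x ∨ y = x' ∨ y = z := by
  have h1 : ((A.erase x).erase x').card = 1 := by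
    rw [Finset.card_erase_of_mem (Finset.mem_erase.2 ⟨hne.symm, hx'⟩),
      Finset.card_erase_of_mem hx, hA]
  obtain ⟨z, hz⟩ := Finset.card_eq_one.1 h1
  have hz1 : z ∈ (A.erase x).erase x' := by rw [hz]; simp
  rw [Finset.mem_erase, Finset.mem_erase] at hz1
  refine ⟨z, hz1.2.2, hz1.2.1, hz1.1, fun y hy => ?_⟩
  by_cases h2 : y = x
  · exact Or.inl h2
  · by_cases h3 : y = x'
    · exact Or.inr (Or.inl h3)
    · have : y ∈ (A.erase x).erase x' := Finset.mem_erase.2 ⟨h3, Finset.mem_erase.2 ⟨h2, hy⟩⟩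
      rw [hz, Finset.mem_singleton] at this
      exact Or.inr (Or.inr this)

/-- two triangles with four edges between them span a cycle of length 6 -/
theorem sixcyc53 [DecidableEq V] {A B : Finset V} (hA : CycSet G A) (hB : CycSet G B)
    (hA3 : A.card = 3) (hB3 : B.card = 3) (hd : Disjoint A B) (h : 4 ≤ eS G A B) :
    CycSet G (A ∪ B) := by
  obtain ⟨x, hx, x', hx', y, hy, y', hy', hxx, hyy, h1, h2⟩ := two53 hA3 hB3 h
  obtain ⟨z, hz, hzx, hzx', hzA⟩ := thirdElt53 hA3 hx hx' hxx
  obtain ⟨w, hw, hwy, hwy', hwB⟩ := thirdElt53 hB3 hy hy' hyy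
  have hAB : ∀ p ∈ A, ∀ q ∈ B, p ≠ q := fun p hp q hq e => (Finset.disjoint_left.1 hd) hp (e ▸ hq)
  have p1 : Pth G x' x [x', z, x] := by
    refine ⟨?_, ?_, by simp, by simp⟩
    · simp [hzx, hzx'.symm, hxx.symm]
    · simp only [List.isChain_cons_cons, List.isChain_singleton, and_true]
      exact ⟨tri53 hA hA3 hx' hz hzx'.symm, tri53 hA hA3 hz hx hzx⟩
  have p2 : Pth G y y' [y, w, y'] := by
    refine ⟨?_, ?_, by simp, by simp⟩
    · simp [hwy', hwy.symm, hyy]
    · simp only [List.isChain_cons_cons, List.isChain_singleton, and_true]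
      exact ⟨tri53 hB hB3 hy hw hwy.symm, tri53 hB hB3 hw hy' hwy'⟩
  have p3 := p1.append p2 h1 (by
    intro t ht ht'
    have ha : t ∈ A := by
      simp only [List.mem_cons, List.not_mem_nil, or_false] at ht
      rcases ht with h | h | h
      · rw [h]; exact hx'
      · rw [h]; exact hz
      · rw [h]; exact hx
    have hb : t ∈ B := by
      simp only [List.mem_cons, List.not_mem_nil, or_false] at ht'
      rcases ht' with h | h | h
      · rw [h]; exact hy
      · rw [h]; exact hw
      · rw [h]; exact hy'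
    exact hAB t ha t hb rfl)
  refine ⟨_, ⟨by simp, _, _, p3, h2.symm⟩, ?_⟩
  intro t
  simp only [List.cons_append, List.nil_append, List.mem_cons, List.not_mem_nil, or_false,
    Finset.mem_union]
  constructor
  · rintro (h | h | h | h | h | h)
    · left; rw [h]; exact hx'
    · left; rw [h]; exact hz
    · left; rw [h]; exact hx
    · right; rw [h]; exact hy
    · right; rw [h]; exact hw
    · right; rw [h]; exact hy'
  · rintro (h | h)
    · rcases hzA t h with h | h | h
      · exact Or.inr (Or.inr (Or.inl h))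
      · exact Or.inl h
      · exact Or.inr (Or.inl h)
    · rcases hwB t h with h | h | h
      · exact Or.inr (Or.inr (Or.inr (Or.inl h)))
      · exact Or.inr (Or.inr (Or.inr (Or.inr (Or.inr h))))
      · exact Or.inr (Or.inr (Or.inr (Or.inr (Or.inl h))))

/-! ### the theorem -/

/-- **`r = 6`**: `6 k` vertices, degrees at least `4 k` -/
theorem six53 [DecidableEq V] (G : SimpleGraph V) (U : Finset V) (k : ℕ) (hU : U.card = 6 * k)
    (hdeg : ∀ v ∈ U, 4 * k ≤ dg G U v) :
    ∃ F, Fam G U (fun L => 6 ≤ L) F ∧ F.card = k := by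
  classical
  obtain ⟨F, hF, hFk⟩ := CH G U (2 * k) (by omega) (fun v hv => by
    have := hdeg v hv
    omega)
  -- all members are triangles and they cover everything
  have hcard := hF.card_rest
  have h3 : ∀ s ∈ F, s.card = 3 := by
    by_contra hc
    push Not at hc
    obtain ⟨s, hs, hne⟩ := hc
    have h4 : 3 < s.card := lt_of_le_of_ne (hF.len s hs) (Ne.symm hne)
    have h5 : ∑ t ∈ F, 3 < tot F := Finset.sum_lt_sum (fun t ht => hF.len t ht) ⟨s, hs, h4⟩
    rw [Finset.sum_const, smul_eq_mul, hFk] at h5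
    omega
  have htot : tot F = 6 * k := by
    unfold tot
    rw [Finset.sum_congr rfl h3, Finset.sum_const, smul_eq_mul, hFk]
    ring
  have hrest : rest U F = ∅ := Finset.card_eq_zero.1 (by omega)
  -- the auxiliary graph
  obtain ⟨M, hM, hMk⟩ := match53 F (fun A B => 4 ≤ eS G A B) (fun A B h => by rwa [eS_comm]) (k := k)
    (by omega) (by
      intro A hA
      refine ⟨F.filter fun B => B ≠ A ∧ 4 ≤ eS G A B, Finset.filter_subset _ _, ?_, ?_⟩
      · have e1 : eS G A U = ∑ s ∈ F, eS G A s := by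
          rw [hF.eS_split, hrest]
          simp [eS, dg]
        have e2 : 12 * k ≤ eS G A U := by
          have := Finset.card_nsmul_le_sum A (fun a => dg G U a) (4 * k) (fun a ha =>
            hdeg a (hF.sub A hA ha))
          rw [h3 A hA, smul_eq_mul] at this
          unfold eS
          omega
        have e3 : ∀ B ∈ F, eS G A B ≤ 3 + (if B ≠ A ∧ 4 ≤ eS G A B then 6 else 0)
            + (if B = A then 3 else 0) := by
          intro B hB
          by_cases hBA : B = A
          · have h6 : eS G A A ≤ 6 := by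
              unfold eS
              have := Finset.sum_le_card_nsmul A (fun a => dg G A a) 2 (fun a ha => by
                have := CH.dg_lt_card (G := G) ha
                rw [h3 A hA] at this
                omega)
              rw [h3 A hA, smul_eq_mul] at this
              omega
            rw [if_pos hBA, hBA, if_neg (fun hh => hh.1 rfl)]
            omega
          · rw [if_neg hBA]
            by_cases h7 : 4 ≤ eS G A B
            · rw [if_pos ⟨hBA, h7⟩]
              have := eS_le (G := G) A B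
              rw [h3 A hA, h3 B hB] at this
              omega
            · rw [if_neg (fun hh => h7 hh.2)]
              omega
        have e4 := Finset.sum_le_sum e3
        rw [← e1, Finset.sum_add_distrib, Finset.sum_add_distrib, Finset.sum_const, smul_eq_mul,
          hFk, Finset.sum_ite_eq' F A (fun _ => 3), if_pos hA, ← Finset.sum_filter,
          Finset.sum_const, smul_eq_mul] at e4
        omega
      · intro B hB
        rw [Finset.mem_filter] at hB
        exact ⟨hB.2.2, hB.2.1⟩)
  -- the union of a pair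
  have hun : ∀ e ∈ M, ∃ A B, A ∈ F ∧ B ∈ F ∧ A ≠ B ∧ 4 ≤ eS G A B ∧ e.biUnion id = A ∪ B ∧
      A ∈ e := by
    intro e he
    obtain ⟨A, B, hA, hB, hAB, hR, hx⟩ := hM.pair e he
    refine ⟨A, B, hA, hB, hAB, hR, ?_, (hx A).2 (Or.inl rfl)⟩
    ext v
    rw [Finset.mem_biUnion, Finset.mem_union]
    constructor
    · rintro ⟨s, hs, hv⟩
      rcases (hx s).1 hs with h | h
      · left; rw [← h]; exact hv
      · right; rw [← h]; exact hv
    · rintro (hv | hv)
      · exact ⟨A, (hx A).2 (Or.inl rfl), hv⟩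
      · exact ⟨B, (hx B).2 (Or.inr rfl), hv⟩
  have hMF : ∀ e ∈ M, ∀ s ∈ e, s ∈ F := by
    intro e he s hs
    obtain ⟨A, B, hA, hB, _, _, hx⟩ := hM.pair e he
    rcases (hx s).1 hs with h | h
    · rw [h]; exact hA
    · rw [h]; exact hB
  have hdisj : ∀ e ∈ M, ∀ e' ∈ M, e ≠ e' → Disjoint (e.biUnion id) (e'.biUnion id) := by
    intro e he e' he' hne
    rw [Finset.disjoint_left]
    intro v hv hv'
    rw [Finset.mem_biUnion] at hv hv'
    obtain ⟨s, hs, hvs⟩ := hv
    obtain ⟨t, ht, hvt⟩ := hv'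
    have hst : s ≠ t := by
      rintro rfl
      exact (Finset.disjoint_left.1 (hM.disj e he e' he' hne)) hs ht
    exact (Finset.disjoint_left.1 (hF.disj s (hMF e he s hs) t (hMF e' he' t ht) hst)) hvs hvt
  refine ⟨M.image fun e => e.biUnion id, ⟨?_, ?_, ?_, ?_⟩, ?_⟩
  · intro s hs
    obtain ⟨e, he, rfl⟩ := Finset.mem_image.1 hs
    obtain ⟨A, B, hA, hB, hAB, hR, hx, _⟩ := hun e he
    show CycSet G (e.biUnion id)
    rw [hx]
    exact sixcyc53 (hF.cyc A hA) (hF.cyc B hB) (h3 A hA) (h3 B hB) (hF.disj A hA B hB hAB) hR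
  · intro s hs
    obtain ⟨e, he, rfl⟩ := Finset.mem_image.1 hs
    obtain ⟨A, B, hA, hB, hAB, hR, hx, _⟩ := hun e he
    show e.biUnion id ⊆ U
    rw [hx]
    exact Finset.union_subset (hF.sub A hA) (hF.sub B hB)
  · intro s hs
    obtain ⟨e, he, rfl⟩ := Finset.mem_image.1 hs
    obtain ⟨A, B, hA, hB, hAB, hR, hx, _⟩ := hun e he
    show 6 ≤ (e.biUnion id).card
    rw [hx, Finset.card_union_of_disjoint (hF.disj A hA B hB hAB), h3 A hA, h3 B hB]
  · intro s hs t ht hst
    obtain ⟨e, he, rfl⟩ := Finset.mem_image.1 hs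
    obtain ⟨e', he', rfl⟩ := Finset.mem_image.1 ht
    exact hdisj e he e' he' (fun h => hst (by rw [h]))
  · rw [Finset.card_image_of_injOn, hMk]
    intro e he e' he' hee
    by_contra hne
    have h1 := hdisj e he e' he' hne
    have h2 : e.biUnion id = e'.biUnion id := hee
    rw [h2, disjoint_self] at h1
    obtain ⟨A, B, hA, hB, hAB, hR, hx, _⟩ := hun e' he'
    rw [hx] at h1
    have h4 : A = ∅ := by
      have : A ⊆ A ∪ B := Finset.subset_union_left
      rw [h1] at this
      exact Finset.subset_empty.1 this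
    have h5 := h3 A hA
    rw [h4] at h5
    simp at h5

/-- `r = 6` in the form of the glue -/
theorem eqSix53 {V : Type u} [DecidableEq V] (G : SimpleGraph V) (U : Finset V) (k : ℕ)
    (hU : U.card = k * 6) (hdeg : ∀ v ∈ U, 2 * k * 6 ≤ 3 * dg G U v) :
    ∃ F, Fam G U (fun L => 6 ≤ L) F ∧ F.card = k :=
  six53 G U k (by omega) fun v hv => by
    have := hdeg v hv
    omega

end Pool.Agent.P0
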