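import Pool.Agent.P0.Full41
import Pool.Agent.P0.Adm41
import Pool.Agent.P0.IRest99
import Pool.Agent.P0.Six53

set_option linter.all false

/-!
# P0: the whole statement from the two missing inputs (exactly `k r` vertices, `r = 5` and `r ≥ 7`)
-/

namespace Pool.Agent.P0

open Pool.Agent.Helper14.LongCyc Pool.Agent.LCK Pool.Agent.FRC

universe u

/-- more than `k r` vertices -/
theorem more41 {k r : ℕ} (hk : 2 ≤ k) (hr : 3 ≤ r) : T41.{u} k r (k * r + 1) :=
  more41_of (fun _ _ hk hr => iRest99 hk hr) hk hr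

/-- exactly `k r` vertices suffices -/
theorem T41.of_eq {k r : ℕ} (hk : 2 ≤ k) (hr : 3 ≤ r)
    (h : ∀ {V : Type u} [DecidableEq V] (G : SimpleGraph V) (U : Finset V), U.card = k * r →
      (∀ v ∈ U, 2 * k * r ≤ 3 * dg G U v) → ∃ F, Fam G U (fun L => r ≤ L) F ∧ F.card = k) :
    T41.{u} k r (k * r) := by
  intro V _ G U hU hdeg
  rcases Nat.lt_or_ge (k * r) U.card with h1 | h1
  · exact more41 hk hr G U h1 hdeg
  · exact h G U (le_antisymm h1 hU) hdeg

/-- exactly `k r` vertices, from the core item -/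
theorem T41.of_core {k r : ℕ} (hk : 3 ≤ k) (hr : 4 ≤ r) (h : ICoreEq41.{u} k r) :
    T41.{u} k r (k * r) :=
  T41.of_eq (by omega) (by omega) fun G U hU hdeg =>
    eq41 hk hr (more41 (by omega) (by omega)) (iRestEq99 hk hr) h G U hU hdeg

/-- the core item from the frame of I7 -/
theorem icoreEq41_of {k r : ℕ} (hr : 4 ≤ r)
    (h : ∀ {V : Type u} [DecidableEq V] {G : SimpleGraph V} {U : Finset V} {Q : List V}
      {p q x y : V} {F : Finset (Finset V)}, Set41 G U k r → Adm41 G U r Q p q F x y → False) :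
    ICoreEq41.{u} k r := fun {V} _ {G} {U} {F} {v} hv hU hc hm hR hdeg =>
  h ⟨hU, hdeg, hc, hm, hR⟩ (hv.adm41 hr (hR F hv.opt))

/-- the core item for `r = 4` -/
theorem icoreEq_four41 (k : ℕ) : ICoreEq41.{u} k 4 := fun {V} _ {G} {U} {F} {v} hv hU hc hm hR hdeg =>
  hv.no_four17 (hc F hv.opt).le hdeg (hR F hv.opt).ge

theorem four41 {k : ℕ} (hk : 3 ≤ k) : T41.{u} k 4 (k * 4) :=
  T41.of_core hk le_rfl (icoreEq_four41 k)

theorem six41 {k : ℕ} (hk : 2 ≤ k) : T41.{u} k 6 (k * 6) :=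
  T41.of_eq hk (by norm_num) fun G U hU hdeg => eqSix53 G U k hU hdeg

/-- **the whole statement**, from `r = 5` and `r ≥ 7` with exactly `k r` vertices -/
theorem all41_of (h5 : ∀ k, 3 ≤ k → T41.{u} k 5 (k * 5))
    (h7 : ∀ k r, 3 ≤ k → 7 ≤ r → ICoreEq41.{u} k r) {k r : ℕ} (hk : 2 ≤ k) (hr : 3 ≤ r) :
    T41.{u} k r (k * r) := by
  rcases Nat.lt_or_ge r 4 with h | h
  · obtain rfl : r = 3 := by omega
    exact three41 k
  rcases Nat.lt_or_ge k 3 with h' | h'
  · obtain rfl : k = 2 := by omega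
    exact base41 h
  rcases Nat.lt_or_ge r 7 with h7' | h7'
  · rcases (show r = 4 ∨ r = 5 ∨ r = 6 by omega) with rfl | rfl | rfl
    · exact four41 h'
    · exact h5 k h'
    · exact six41 hk
  · exact T41.of_core h' h (h7 k r h' h7')

/-- what is complete without the two inputs -/
theorem part41 {k r : ℕ} (hk : 2 ≤ k) (hr : 3 ≤ r) (hc : k = 2 ∨ r = 3 ∨ r = 4 ∨ r = 6) :
    T41.{u} k r (k * r) := by
  rcases Nat.lt_or_ge r 4 with h | h
  · obtain rfl : r = 3 := by omega
    exact three41 k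
  rcases Nat.lt_or_ge k 3 with h' | h'
  · obtain rfl : k = 2 := by omega
    exact base41 h
  rcases (show r = 4 ∨ r = 6 by omega) with rfl | rfl
  · exact four41 h'
  · exact six41 hk

end Pool.Agent.P0
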