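import Pool.Agent.P0.Bits61

set_option linter.all false

/-!
# P0, item I7, `r = 5`, `n = 5 k`: the finite checks
-/

namespace Pool.Agent.P0

/-- force a Boolean before continuing -/
def ev61 (b : Bool) (k : Bool → Bool) : Bool := cond b (k true) (k false)

theorem ev61_eq (b : Bool) (k : Bool → Bool) : ev61 b k = k b := by cases b <;> rfl

/-- both values -/
def al61 (f : Bool → Bool) : Bool := cond (f true) (f false) false

theorem al61_spec {f : Bool → Bool} (h : al61 f = true) (b : Bool) : f b = true := by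
  unfold al61 at h
  cases ht : f true
  · rw [ht] at h; exact absurd h (by simp)
  · rw [ht] at h
    cases b
    · exact h
    · exact ht

/-! ### check A: one end of the path has degree one in the rest -/

/-- `p₃` free at a place; arguments: the bits at the places `j, j+1, …, j+4` -/
def fa61 (a0 a1 a2 a3 a4 b1 b2 b3 b4 A1 A4 : Bool) : Bool :=
  !((a0 && A4 && A1) || (A1 && ((a2 && b4) || (a4 && b2))) || (A4 && ((a1 && b3) || (a3 && b1))))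

def chkA61 (a0 a1 a2 a3 a4 A0 A1 A2 A3 A4 b0 b1 b2 b3 b4 : Bool) : Bool :=
  Nat.ble (a0.toNat + a1.toNat + a2.toNat + a3.toNat + a4.toNat + A0.toNat + A1.toNat
    + A2.toNat + A3.toNat + A4.toNat) 5 ||
  (a4 && a1 && b0 && A0) || (a0 && a2 && b1 && A1) || (a1 && a3 && b2 && A2) ||
  (a2 && a4 && b3 && A3) || (a3 && a0 && b4 && A4) ||
  Nat.ble (2 * (a0.toNat + a1.toNat + a2.toNat + a3.toNat + a4.toNat + A0.toNat + A1.toNat
    + A2.toNat + A3.toNat + A4.toNat) + (b0.toNat + b1.toNat + b2.toNat + b3.toNat + b4.toNat)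
    + ((fa61 a0 a1 a2 a3 a4 b1 b2 b3 b4 A1 A4).toNat + (fa61 a1 a2 a3 a4 a0 b2 b3 b4 b0 A2 A0).toNat
      + (fa61 a2 a3 a4 a0 a1 b3 b4 b0 b1 A3 A1).toNat
      + (fa61 a3 a4 a0 a1 a2 b4 b0 b1 b2 A4 A2).toNat
      + (fa61 a4 a0 a1 a2 a3 b0 b1 b2 b3 A0 A3).toNat)) 20

set_option maxRecDepth 100000 in
theorem chkA_all61 : ∀ a0 a1 a2 a3 a4 A0 A1 A2 A3 A4 b0 b1 b2 b3 b4 : Bool,
    chkA61 a0 a1 a2 a3 a4 A0 A1 A2 A3 A4 b0 b1 b2 b3 b4 = true := by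
  decide +kernel

/-! ### check B: the bowtie -/

/-- `p₅` free at a place; arguments: the bits at `j, …, j+4` (`a = p₁`, `b = p₂`, `B = p₄`) -/
def fb62 (a0 a1 a2 a3 a4 b0 b1 b2 b3 b4 B0 B1 B2 B3 B4 : Bool) : Bool :=
  !((B1 && b2 && a4) || (B4 && b3 && a1) || (B3 && b2 && a1) || (B2 && b3 && a4)
    || (b4 && b1 && a0) || (B4 && B1 && a0) || (B4 && B1 && b0))

def chkB61 (a0 a1 a2 a3 a4 b0 b1 b2 b3 b4 B0 B1 B2 B3 B4 : Bool) : Bool :=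
  Nat.ble (a0.toNat + a1.toNat + a2.toNat + a3.toNat + a4.toNat + (b0.toNat + b1.toNat + b2.toNat
    + b3.toNat + b4.toNat) + (B0.toNat + B1.toNat + B2.toNat + B3.toNat + B4.toNat)) 8 ||
  (b4 && b1 && a0 && B0) || (b0 && b2 && a1 && B1) || (b1 && b3 && a2 && B2) ||
  (b2 && b4 && a3 && B3) || (b3 && b0 && a4 && B4) ||
  Nat.ble (a0.toNat + a1.toNat + a2.toNat + a3.toNat + a4.toNat + (b0.toNat + b1.toNat + b2.toNat
    + b3.toNat + b4.toNat) + (B0.toNat + B1.toNat + B2.toNat + B3.toNat + B4.toNat)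
    + ((fb62 a0 a1 a2 a3 a4 b0 b1 b2 b3 b4 B0 B1 B2 B3 B4).toNat
      + (fb62 a1 a2 a3 a4 a0 b1 b2 b3 b4 b0 B1 B2 B3 B4 B0).toNat
      + (fb62 a2 a3 a4 a0 a1 b2 b3 b4 b0 b1 B2 B3 B4 B0 B1).toNat
      + (fb62 a3 a4 a0 a1 a2 b3 b4 b0 b1 b2 B3 B4 B0 B1 B2).toNat
      + (fb62 a4 a0 a1 a2 a3 b4 b0 b1 b2 b3 B4 B0 B1 B2 B3).toNat)) 13

set_option maxRecDepth 100000 in
theorem chkB_all61 : ∀ a0 a1 a2 a3 a4 b0 b1 b2 b3 b4 B0 B1 B2 B3 B4 : Bool,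
    chkB61 a0 a1 a2 a3 a4 b0 b1 b2 b3 b4 B0 B1 B2 B3 B4 = true := by
  decide +kernel

/-! ### check C: `K₂ ∨ 3K₁` -/

/-- `p₄` free at a place; arguments: the bits at `j, …, j+4` (`a = p₁`, `e = p₃`, `A = p₅`) -/
def fc61 (a1 a2 a3 a4 e0 e1 e2 e3 e4 A1 A2 A3 A4 : Bool) : Bool :=
  !((A3 && a1 && e2) || (A2 && a4 && e3) || (A4 && A1 && e0) || (A3 && e4 && a2)
    || (A2 && e1 && a3))

def chkC61 (a0 a1 a2 a3 a4 e0 e1 e2 e3 e4 A0 A1 A2 A3 A4 : Bool) : Bool :=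
  Nat.ble (a0.toNat + a1.toNat + a2.toNat + a3.toNat + a4.toNat + 2 * (e0.toNat + e1.toNat
    + e2.toNat + e3.toNat + e4.toNat) + 2 * (A0.toNat + A1.toNat + A2.toNat + A3.toNat
    + A4.toNat)) 15 ||
  (e4 && e1 && a0 && A0) || (e0 && e2 && a1 && A1) || (e1 && e3 && a2 && A2) ||
  (e2 && e4 && a3 && A3) || (e3 && e0 && a4 && A4) ||
  Nat.ble (a0.toNat + a1.toNat + a2.toNat + a3.toNat + a4.toNat + 2 * (e0.toNat + e1.toNat
    + e2.toNat + e3.toNat + e4.toNat) + 2 * (A0.toNat + A1.toNat + A2.toNat + A3.toNat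
    + A4.toNat)
    + ((fc61 a1 a2 a3 a4 e0 e1 e2 e3 e4 A1 A2 A3 A4).toNat
      + (fc61 a2 a3 a4 a0 e1 e2 e3 e4 e0 A2 A3 A4 A0).toNat
      + (fc61 a3 a4 a0 a1 e2 e3 e4 e0 e1 A3 A4 A0 A1).toNat
      + (fc61 a4 a0 a1 a2 e3 e4 e0 e1 e2 A4 A0 A1 A2).toNat
      + (fc61 a0 a1 a2 a3 e4 e0 e1 e2 e3 A0 A1 A2 A3).toNat)) 20

set_option maxRecDepth 100000 in
theorem chkC_all61 : ∀ a0 a1 a2 a3 a4 e0 e1 e2 e3 e4 A0 A1 A2 A3 A4 : Bool,
    chkC61 a0 a1 a2 a3 a4 e0 e1 e2 e3 e4 A0 A1 A2 A3 A4 = true := by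
  decide +kernel

end Pool.Agent.P0
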