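import Pool.Agent.P0.Five61A

set_option linter.all false

/-!
# P0, item I7, `r = 5`, `n = 5 k`: the finite check for `K_{2,3}`
-/

namespace Pool.Agent.P0

/-- `p₂` free at a place; arguments: the bits at `j, …, j+4` (`a = p₁`, `e = p₃`, `A = p₅`) -/
def sd61 (a0 a1 a2 a3 a4 e0 e1 e2 e3 e4 A0 A1 A2 A3 A4 : Bool) : Bool :=
  !((a4 && a1 && (e0 || A0)) || (e4 && e1 && (a0 || A0)) || (A4 && A1 && (a0 || e0))
    || (a3 && ((e1 && A2) || (e2 && A1))) || (a2 && ((e3 && A4) || (e4 && A3))))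

def chkD61 (a0 a1 a2 a3 a4 e0 e1 e2 e3 e4 A0 A1 A2 A3 A4 : Bool) : Bool :=
  ev61 (sd61 a0 a1 a2 a3 a4 e0 e1 e2 e3 e4 A0 A1 A2 A3 A4) fun s0 =>
  ev61 (sd61 a1 a2 a3 a4 a0 e1 e2 e3 e4 e0 A1 A2 A3 A4 A0) fun s1 =>
  ev61 (sd61 a2 a3 a4 a0 a1 e2 e3 e4 e0 e1 A2 A3 A4 A0 A1) fun s2 =>
  ev61 (sd61 a3 a4 a0 a1 a2 e3 e4 e0 e1 e2 A3 A4 A0 A1 A2) fun s3 =>
  ev61 (sd61 a4 a0 a1 a2 a3 e4 e0 e1 e2 e3 A4 A0 A1 A2 A3) fun s4 =>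
  ev61 (sd61 A0 A1 A2 A3 A4 e0 e1 e2 e3 e4 a0 a1 a2 a3 a4) fun t0 =>
  ev61 (sd61 A1 A2 A3 A4 A0 e1 e2 e3 e4 e0 a1 a2 a3 a4 a0) fun t1 =>
  ev61 (sd61 A2 A3 A4 A0 A1 e2 e3 e4 e0 e1 a2 a3 a4 a0 a1) fun t2 =>
  ev61 (sd61 A3 A4 A0 A1 A2 e3 e4 e0 e1 e2 a3 a4 a0 a1 a2) fun t3 =>
  ev61 (sd61 A4 A0 A1 A2 A3 e4 e0 e1 e2 e3 a4 a0 a1 a2 a3) fun t4 =>
  Nat.ble ((a0.toNat + a1.toNat + a2.toNat + a3.toNat + a4.toNat) + (e0.toNat + e1.toNat + e2.toNat + e3.toNat + e4.toNat) + (A0.toNat + A1.toNat + A2.toNat + A3.toNat + A4.toNat) + (s0.toNat + s1.toNat + s2.toNat + s3.toNat + s4.toNat) + (t0.toNat + t1.toNat + t2.toNat + t3.toNat + t4.toNat)) 16 ||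
  al61 fun b0 => (b0 && !s0) ||
  al61 fun b1 => (b1 && !s1) ||
  al61 fun b2 => (b2 && !s2) ||
  al61 fun b3 => (b3 && !s3) ||
  al61 fun b4 => (b4 && !s4) ||
  Nat.ble ((a0.toNat + a1.toNat + a2.toNat + a3.toNat + a4.toNat) + (e0.toNat + e1.toNat + e2.toNat + e3.toNat + e4.toNat) + (A0.toNat + A1.toNat + A2.toNat + A3.toNat + A4.toNat) + (b0.toNat + b1.toNat + b2.toNat + b3.toNat + b4.toNat) + (t0.toNat + t1.toNat + t2.toNat + t3.toNat + t4.toNat)) 16 ||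
  al61 fun B0 => (B0 && !t0) ||
  al61 fun B1 => (B1 && !t1) ||
  al61 fun B2 => (B2 && !t2) ||
  al61 fun B3 => (B3 && !t3) ||
  al61 fun B4 => (B4 && !t4) ||
  Nat.ble ((a0.toNat + a1.toNat + a2.toNat + a3.toNat + a4.toNat) + (e0.toNat + e1.toNat + e2.toNat + e3.toNat + e4.toNat) + (A0.toNat + A1.toNat + A2.toNat + A3.toNat + A4.toNat) + (b0.toNat + b1.toNat + b2.toNat + b3.toNat + b4.toNat) + (B0.toNat + B1.toNat + B2.toNat + B3.toNat + B4.toNat)) 16 ||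
  (a0 && e0 && A0 && ((b4 && b1 && B0) || (B4 && B1 && b0))) ||
  (a1 && e1 && A1 && ((b0 && b2 && B1) || (B0 && B2 && b1))) ||
  (a2 && e2 && A2 && ((b1 && b3 && B2) || (B1 && B3 && b2))) ||
  (a3 && e3 && A3 && ((b2 && b4 && B3) || (B2 && B4 && b3))) ||
  (a4 && e4 && A4 && ((b3 && b0 && B4) || (B3 && B0 && b4)))

set_option maxRecDepth 100000 in
theorem chkD_all61 : ∀ a0 a1 a2 a3 a4 e0 e1 e2 e3 e4 A0 A1 A2 A3 A4 : Bool,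
    chkD61 a0 a1 a2 a3 a4 e0 e1 e2 e3 e4 A0 A1 A2 A3 A4 = true := by
  decide +kernel

end Pool.Agent.P0
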