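import Pool.Agent.P0.Five61B

set_option linter.all false

/-!
# P0, item I7, `r = 5`, `n = 5 k`: the four cores, for indicator functions along a cycle of length 5
-/

namespace Pool.Agent.P0

theorem toNat_le61 : ∀ x y : Bool, (x = true → y = true) → x.toNat ≤ y.toNat := by decide

theorem fa61_of (e0 a0 a1 a2 a3 a4 b1 b2 b3 b4 A1 A4 : Bool)
    (h0 : A4 = true → A1 = true → a0 = true → e0 = true → False)
    (h1 : a2 = true → b4 = true → e0 = true → A1 = true → False)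
    (h2 : a1 = true → b3 = true → A4 = true → e0 = true → False)
    (h3 : b2 = true → a4 = true → e0 = true → A1 = true → False)
    (h4 : b1 = true → a3 = true → A4 = true → e0 = true → False)
    (he : e0 = true) : fa61 a0 a1 a2 a3 a4 b1 b2 b3 b4 A1 A4 = true := by
  subst he
  cases hh : fa61 a0 a1 a2 a3 a4 b1 b2 b3 b4 A1 A4
  · exfalso
    unfold fa61 at hh
    simp only [Bool.not_eq_false', Bool.or_eq_true, Bool.and_eq_true] at hh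
    rcases hh with (⟨⟨x, y⟩, z⟩ | ⟨x, ⟨y, z⟩ | ⟨y, z⟩⟩) | ⟨x, ⟨y, z⟩ | ⟨y, z⟩⟩
    · exact h0 y z x rfl
    · exact h1 y z rfl x
    · exact h3 z y rfl x
    · exact h2 y z x rfl
    · exact h4 z y x rfl
  · rfl

/-- check A -/
theorem coreA61 (a b e A : ℕ → Bool)
    (pa : ∀ n, a (n + 5) = a n) (pb : ∀ n, b (n + 5) = b n) (pe : ∀ n, e (n + 5) = e n) (pA : ∀ n, A (n + 5) = A n)
    (c1 : ∀ n, a n = true → a (n + 2) = true → b (n + 1) = true → A (n + 1) = true → False)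
    (c2 : ∀ n, A n = true → A (n + 2) = true → a (n + 1) = true → e (n + 1) = true → False)
    (c3 : ∀ n, a n = true → b (n + 2) = true → e (n + 3) = true → A (n + 4) = true → False)
    (c4 : ∀ n, a n = true → b (n + 2) = true → A (n + 3) = true → e (n + 4) = true → False)
    (c5 : ∀ n, b n = true → a (n + 2) = true → e (n + 3) = true → A (n + 4) = true → False)
    (c6 : ∀ n, b n = true → a (n + 2) = true → A (n + 3) = true → e (n + 4) = true → False) :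
    2 * (∑ i ∈ Finset.range 5, (a i).toNat) + 2 * (∑ i ∈ Finset.range 5, (A i).toNat) + (∑ i ∈ Finset.range 5, (b i).toNat) + (∑ i ∈ Finset.range 5, (e i).toNat) ≤ 20 := by
  have qa5 := pa 0
  have qa6 := pa 1
  have qa7 := pa 2
  have qa8 := pa 3
  have qb5 := pb 0
  have qb6 := pb 1
  have qb7 := pb 2
  have qb8 := pb 3
  have qe5 := pe 0
  have qe6 := pe 1
  have qe7 := pe 2
  have qe8 := pe 3
  have qA5 := pA 0
  have qA6 := pA 1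
  have qA7 := pA 2
  have qA8 := pA 3
  have Fc1 := And.intro (c1 0) (And.intro (c1 1) (And.intro (c1 2) (And.intro (c1 3) (c1 4))))
  have Fc2 := And.intro (c2 0) (And.intro (c2 1) (And.intro (c2 2) (And.intro (c2 3) (c2 4))))
  have Fc3 := And.intro (c3 0) (And.intro (c3 1) (And.intro (c3 2) (And.intro (c3 3) (c3 4))))
  have Fc4 := And.intro (c4 0) (And.intro (c4 1) (And.intro (c4 2) (And.intro (c4 3) (c4 4))))
  have Fc5 := And.intro (c5 0) (And.intro (c5 1) (And.intro (c5 2) (And.intro (c5 3) (c5 4))))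
  have Fc6 := And.intro (c6 0) (And.intro (c6 1) (And.intro (c6 2) (And.intro (c6 3) (c6 4))))
  norm_num only at qa5 qa6 qa7 qa8 qb5 qb6 qb7 qb8 qe5 qe6 qe7 qe8 qA5 qA6 qA7 qA8 Fc1 Fc2 Fc3 Fc4 Fc5 Fc6
  simp only [qa5, qa6, qa7, qa8, qb5, qb6, qb7, qb8, qe5, qe6, qe7, qe8, qA5, qA6, qA7, qA8] at Fc1 Fc2 Fc3 Fc4 Fc5 Fc6
  obtain ⟨Fc1_0, Fc1_1, Fc1_2, Fc1_3, Fc1_4⟩ := Fc1
  obtain ⟨Fc2_0, Fc2_1, Fc2_2, Fc2_3, Fc2_4⟩ := Fc2
  obtain ⟨Fc3_0, Fc3_1, Fc3_2, Fc3_3, Fc3_4⟩ := Fc3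
  obtain ⟨Fc4_0, Fc4_1, Fc4_2, Fc4_3, Fc4_4⟩ := Fc4
  obtain ⟨Fc5_0, Fc5_1, Fc5_2, Fc5_3, Fc5_4⟩ := Fc5
  obtain ⟨Fc6_0, Fc6_1, Fc6_2, Fc6_3, Fc6_4⟩ := Fc6
  have ufa610 := toNat_le61 (e 0) (fa61 (a 0) (a 1) (a 2) (a 3) (a 4) (b 1) (b 2) (b 3) (b 4) (A 1) (A 4))
    (fa61_of (e 0) (a 0) (a 1) (a 2) (a 3) (a 4) (b 1) (b 2) (b 3) (b 4) (A 1) (A 4)
      Fc2_4
      Fc3_2
      Fc4_1
      Fc5_2
      Fc6_1)
  have ufa611 := toNat_le61 (e 1) (fa61 (a 1) (a 2) (a 3) (a 4) (a 0) (b 2) (b 3) (b 4) (b 0) (A 2) (A 0))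
    (fa61_of (e 1) (a 1) (a 2) (a 3) (a 4) (a 0) (b 2) (b 3) (b 4) (b 0) (A 2) (A 0)
      Fc2_0
      Fc3_3
      Fc4_2
      Fc5_3
      Fc6_2)
  have ufa612 := toNat_le61 (e 2) (fa61 (a 2) (a 3) (a 4) (a 0) (a 1) (b 3) (b 4) (b 0) (b 1) (A 3) (A 1))
    (fa61_of (e 2) (a 2) (a 3) (a 4) (a 0) (a 1) (b 3) (b 4) (b 0) (b 1) (A 3) (A 1)
      Fc2_1
      Fc3_4
      Fc4_3
      Fc5_4
      Fc6_3)
  have ufa613 := toNat_le61 (e 3) (fa61 (a 3) (a 4) (a 0) (a 1) (a 2) (b 4) (b 0) (b 1) (b 2) (A 4) (A 2))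
    (fa61_of (e 3) (a 3) (a 4) (a 0) (a 1) (a 2) (b 4) (b 0) (b 1) (b 2) (A 4) (A 2)
      Fc2_2
      Fc3_0
      Fc4_4
      Fc5_0
      Fc6_4)
  have ufa614 := toNat_le61 (e 4) (fa61 (a 4) (a 0) (a 1) (a 2) (a 3) (b 0) (b 1) (b 2) (b 3) (A 0) (A 3))
    (fa61_of (e 4) (a 4) (a 0) (a 1) (a 2) (a 3) (b 0) (b 1) (b 2) (b 3) (A 0) (A 3)
      Fc2_3
      Fc3_1
      Fc4_0
      Fc5_1
      Fc6_0)
  have key := chkA_all61 (a 0) (a 1) (a 2) (a 3) (a 4) (A 0) (A 1) (A 2) (A 3) (A 4)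
    (b 0) (b 1) (b 2) (b 3) (b 4)
  have v : ∀ x : Bool, x.toNat ≤ 1 := by decide
  have v0 := v (e 0)
  have v1 := v (e 1)
  have v2 := v (e 2)
  have v3 := v (e 3)
  have v4 := v (e 4)
  have w0 := v (b 0)
  have w1 := v (b 1)
  have w2 := v (b 2)
  have w3 := v (b 3)
  have w4 := v (b 4)
  simp only [Finset.sum_range_succ, Finset.sum_range_zero, zero_add]
  unfold chkA61 at key
  simp only [Bool.or_eq_true, Bool.and_eq_true, Nat.ble_eq] at key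
  rcases key with (((((key | key) | key) | key) | key) | key) | key
  · omega
  · exact (Fc1_4 key.1.1.1 key.1.1.2 key.1.2 key.2).elim
  · exact (Fc1_0 key.1.1.1 key.1.1.2 key.1.2 key.2).elim
  · exact (Fc1_1 key.1.1.1 key.1.1.2 key.1.2 key.2).elim
  · exact (Fc1_2 key.1.1.1 key.1.1.2 key.1.2 key.2).elim
  · exact (Fc1_3 key.1.1.1 key.1.1.2 key.1.2 key.2).elim
  · omega

theorem fb62_of (A0 a0 a1 a2 a3 a4 b0 b1 b2 b3 b4 B0 B1 B2 B3 B4 : Bool)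
    (h0 : A0 = true → B1 = true → b2 = true → a4 = true → False)
    (h1 : A0 = true → B4 = true → b3 = true → a1 = true → False)
    (h2 : a1 = true → b2 = true → B3 = true → A0 = true → False)
    (h3 : a4 = true → b3 = true → B2 = true → A0 = true → False)
    (h4 : b4 = true → b1 = true → a0 = true → A0 = true → False)
    (h5 : B4 = true → B1 = true → A0 = true → a0 = true → False)
    (h6 : B4 = true → B1 = true → A0 = true → b0 = true → False)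
    (he : A0 = true) : fb62 a0 a1 a2 a3 a4 b0 b1 b2 b3 b4 B0 B1 B2 B3 B4 = true := by
  subst he
  cases hh : fb62 a0 a1 a2 a3 a4 b0 b1 b2 b3 b4 B0 B1 B2 B3 B4
  · exfalso
    unfold fb62 at hh
    simp only [Bool.not_eq_false', Bool.or_eq_true, Bool.and_eq_true] at hh
    rcases hh with (((((⟨⟨x, y⟩, z⟩ | ⟨⟨x, y⟩, z⟩) | ⟨⟨x, y⟩, z⟩) | ⟨⟨x, y⟩, z⟩) | ⟨⟨x, y⟩, z⟩) | ⟨⟨x, y⟩, z⟩) |
      ⟨⟨x, y⟩, z⟩
    · exact h0 rfl x y z
    · exact h1 rfl x y z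
    · exact h2 z y x rfl
    · exact h3 z y x rfl
    · exact h4 x y z rfl
    · exact h5 x y rfl z
    · exact h6 x y rfl z
  · rfl

/-- check B (bowtie) -/
theorem coreB61 (a b B A : ℕ → Bool)
    (pa : ∀ n, a (n + 5) = a n) (pb : ∀ n, b (n + 5) = b n) (pB : ∀ n, B (n + 5) = B n) (pA : ∀ n, A (n + 5) = A n)
    (c1 : ∀ n, A n = true → B (n + 1) = true → b (n + 2) = true → a (n + 4) = true → False)
    (c2 : ∀ n, A n = true → B (n + 4) = true → b (n + 3) = true → a (n + 1) = true → False)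
    (c3 : ∀ n, a n = true → b (n + 1) = true → B (n + 2) = true → A (n + 4) = true → False)
    (c4 : ∀ n, a n = true → b (n + 4) = true → B (n + 3) = true → A (n + 1) = true → False)
    (c5 : ∀ n, b n = true → b (n + 2) = true → a (n + 1) = true → A (n + 1) = true → False)
    (c6 : ∀ n, B n = true → B (n + 2) = true → A (n + 1) = true → a (n + 1) = true → False)
    (c7 : ∀ n, b n = true → b (n + 2) = true → a (n + 1) = true → B (n + 1) = true → False)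
    (c8 : ∀ n, B n = true → B (n + 2) = true → A (n + 1) = true → b (n + 1) = true → False) :
    (∑ i ∈ Finset.range 5, (a i).toNat) + (∑ i ∈ Finset.range 5, (b i).toNat) + (∑ i ∈ Finset.range 5, (B i).toNat) + (∑ i ∈ Finset.range 5, (A i).toNat) ≤ 13 := by
  have qa5 := pa 0
  have qa6 := pa 1
  have qa7 := pa 2
  have qa8 := pa 3
  have qb5 := pb 0
  have qb6 := pb 1
  have qb7 := pb 2
  have qb8 := pb 3
  have qB5 := pB 0
  have qB6 := pB 1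
  have qB7 := pB 2
  have qB8 := pB 3
  have qA5 := pA 0
  have qA6 := pA 1
  have qA7 := pA 2
  have qA8 := pA 3
  have Fc1 := And.intro (c1 0) (And.intro (c1 1) (And.intro (c1 2) (And.intro (c1 3) (c1 4))))
  have Fc2 := And.intro (c2 0) (And.intro (c2 1) (And.intro (c2 2) (And.intro (c2 3) (c2 4))))
  have Fc3 := And.intro (c3 0) (And.intro (c3 1) (And.intro (c3 2) (And.intro (c3 3) (c3 4))))
  have Fc4 := And.intro (c4 0) (And.intro (c4 1) (And.intro (c4 2) (And.intro (c4 3) (c4 4))))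
  have Fc5 := And.intro (c5 0) (And.intro (c5 1) (And.intro (c5 2) (And.intro (c5 3) (c5 4))))
  have Fc6 := And.intro (c6 0) (And.intro (c6 1) (And.intro (c6 2) (And.intro (c6 3) (c6 4))))
  have Fc7 := And.intro (c7 0) (And.intro (c7 1) (And.intro (c7 2) (And.intro (c7 3) (c7 4))))
  have Fc8 := And.intro (c8 0) (And.intro (c8 1) (And.intro (c8 2) (And.intro (c8 3) (c8 4))))
  norm_num only at qa5 qa6 qa7 qa8 qb5 qb6 qb7 qb8 qB5 qB6 qB7 qB8 qA5 qA6 qA7 qA8 Fc1 Fc2 Fc3 Fc4 Fc5 Fc6 Fc7 Fc8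
  simp only [qa5, qa6, qa7, qa8, qb5, qb6, qb7, qb8, qB5, qB6, qB7, qB8, qA5, qA6, qA7, qA8] at Fc1 Fc2 Fc3 Fc4 Fc5 Fc6 Fc7 Fc8
  obtain ⟨Fc1_0, Fc1_1, Fc1_2, Fc1_3, Fc1_4⟩ := Fc1
  obtain ⟨Fc2_0, Fc2_1, Fc2_2, Fc2_3, Fc2_4⟩ := Fc2
  obtain ⟨Fc3_0, Fc3_1, Fc3_2, Fc3_3, Fc3_4⟩ := Fc3
  obtain ⟨Fc4_0, Fc4_1, Fc4_2, Fc4_3, Fc4_4⟩ := Fc4
  obtain ⟨Fc5_0, Fc5_1, Fc5_2, Fc5_3, Fc5_4⟩ := Fc5
  obtain ⟨Fc6_0, Fc6_1, Fc6_2, Fc6_3, Fc6_4⟩ := Fc6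
  obtain ⟨Fc7_0, Fc7_1, Fc7_2, Fc7_3, Fc7_4⟩ := Fc7
  obtain ⟨Fc8_0, Fc8_1, Fc8_2, Fc8_3, Fc8_4⟩ := Fc8
  have ufb620 := toNat_le61 (A 0) (fb62 (a 0) (a 1) (a 2) (a 3) (a 4) (b 0) (b 1) (b 2) (b 3) (b 4) (B 0) (B 1) (B 2) (B 3) (B 4))
    (fb62_of (A 0) (a 0) (a 1) (a 2) (a 3) (a 4) (b 0) (b 1) (b 2) (b 3) (b 4) (B 0) (B 1) (B 2) (B 3) (B 4)
      Fc1_0
      Fc2_0
      Fc3_1
      Fc4_4
      Fc5_4
      Fc6_4
      Fc8_4)
  have ufb621 := toNat_le61 (A 1) (fb62 (a 1) (a 2) (a 3) (a 4) (a 0) (b 1) (b 2) (b 3) (b 4) (b 0) (B 1) (B 2) (B 3) (B 4) (B 0))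
    (fb62_of (A 1) (a 1) (a 2) (a 3) (a 4) (a 0) (b 1) (b 2) (b 3) (b 4) (b 0) (B 1) (B 2) (B 3) (B 4) (B 0)
      Fc1_1
      Fc2_1
      Fc3_2
      Fc4_0
      Fc5_0
      Fc6_0
      Fc8_0)
  have ufb622 := toNat_le61 (A 2) (fb62 (a 2) (a 3) (a 4) (a 0) (a 1) (b 2) (b 3) (b 4) (b 0) (b 1) (B 2) (B 3) (B 4) (B 0) (B 1))
    (fb62_of (A 2) (a 2) (a 3) (a 4) (a 0) (a 1) (b 2) (b 3) (b 4) (b 0) (b 1) (B 2) (B 3) (B 4) (B 0) (B 1)
      Fc1_2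
      Fc2_2
      Fc3_3
      Fc4_1
      Fc5_1
      Fc6_1
      Fc8_1)
  have ufb623 := toNat_le61 (A 3) (fb62 (a 3) (a 4) (a 0) (a 1) (a 2) (b 3) (b 4) (b 0) (b 1) (b 2) (B 3) (B 4) (B 0) (B 1) (B 2))
    (fb62_of (A 3) (a 3) (a 4) (a 0) (a 1) (a 2) (b 3) (b 4) (b 0) (b 1) (b 2) (B 3) (B 4) (B 0) (B 1) (B 2)
      Fc1_3
      Fc2_3
      Fc3_4
      Fc4_2
      Fc5_2
      Fc6_2
      Fc8_2)
  have ufb624 := toNat_le61 (A 4) (fb62 (a 4) (a 0) (a 1) (a 2) (a 3) (b 4) (b 0) (b 1) (b 2) (b 3) (B 4) (B 0) (B 1) (B 2) (B 3))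
    (fb62_of (A 4) (a 4) (a 0) (a 1) (a 2) (a 3) (b 4) (b 0) (b 1) (b 2) (b 3) (B 4) (B 0) (B 1) (B 2) (B 3)
      Fc1_4
      Fc2_4
      Fc3_0
      Fc4_3
      Fc5_3
      Fc6_3
      Fc8_3)
  have key := chkB_all61 (a 0) (a 1) (a 2) (a 3) (a 4) (b 0) (b 1) (b 2) (b 3) (b 4)
    (B 0) (B 1) (B 2) (B 3) (B 4)
  have v : ∀ x : Bool, x.toNat ≤ 1 := by decide
  have v0 := v (A 0)
  have v1 := v (A 1)
  have v2 := v (A 2)
  have v3 := v (A 3)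
  have v4 := v (A 4)
  simp only [Finset.sum_range_succ, Finset.sum_range_zero, zero_add]
  unfold chkB61 at key
  simp only [Bool.or_eq_true, Bool.and_eq_true, Nat.ble_eq] at key
  rcases key with (((((key | key) | key) | key) | key) | key) | key
  · omega
  · exact (Fc7_4 key.1.1.1 key.1.1.2 key.1.2 key.2).elim
  · exact (Fc7_0 key.1.1.1 key.1.1.2 key.1.2 key.2).elim
  · exact (Fc7_1 key.1.1.1 key.1.1.2 key.1.2 key.2).elim
  · exact (Fc7_2 key.1.1.1 key.1.1.2 key.1.2 key.2).elim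
  · exact (Fc7_3 key.1.1.1 key.1.1.2 key.1.2 key.2).elim
  · omega

theorem fc61_of (B0 a1 a2 a3 a4 e0 e1 e2 e3 e4 A1 A2 A3 A4 : Bool)
    (h0 : A3 = true → B0 = true → a1 = true → e2 = true → False)
    (h1 : A2 = true → B0 = true → a4 = true → e3 = true → False)
    (h2 : A4 = true → A1 = true → e0 = true → B0 = true → False)
    (h3 : A3 = true → e4 = true → B0 = true → a2 = true → False)
    (h4 : A2 = true → e1 = true → B0 = true → a3 = true → False)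
    (he : B0 = true) : fc61 a1 a2 a3 a4 e0 e1 e2 e3 e4 A1 A2 A3 A4 = true := by
  subst he
  cases hh : fc61 a1 a2 a3 a4 e0 e1 e2 e3 e4 A1 A2 A3 A4
  · exfalso
    unfold fc61 at hh
    simp only [Bool.not_eq_false', Bool.or_eq_true, Bool.and_eq_true] at hh
    rcases hh with (((⟨⟨x, y⟩, z⟩ | ⟨⟨x, y⟩, z⟩) | ⟨⟨x, y⟩, z⟩) | ⟨⟨x, y⟩, z⟩) | ⟨⟨x, y⟩, z⟩
    · exact h0 x rfl y z
    · exact h1 x rfl y z
    · exact h2 x y z rfl
    · exact h3 x y rfl z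
    · exact h4 x y rfl z
  · rfl

/-- check C -/
theorem coreC61 (a e B A : ℕ → Bool)
    (pa : ∀ n, a (n + 5) = a n) (pe : ∀ n, e (n + 5) = e n) (pB : ∀ n, B (n + 5) = B n) (pA : ∀ n, A (n + 5) = A n)
    (c1 : ∀ n, A n = true → B (n + 2) = true → a (n + 3) = true → e (n + 4) = true → False)
    (c2 : ∀ n, A n = true → B (n + 3) = true → a (n + 2) = true → e (n + 1) = true → False)
    (c3 : ∀ n, e n = true → e (n + 2) = true → a (n + 1) = true → A (n + 1) = true → False)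
    (c4 : ∀ n, A n = true → A (n + 2) = true → e (n + 1) = true → B (n + 1) = true → False)
    (c5 : ∀ n, A n = true → e (n + 1) = true → B (n + 2) = true → a (n + 4) = true → False)
    (c6 : ∀ n, A n = true → e (n + 4) = true → B (n + 3) = true → a (n + 1) = true → False) :
    (∑ i ∈ Finset.range 5, (a i).toNat) + 2 * (∑ i ∈ Finset.range 5, (e i).toNat) + 2 * (∑ i ∈ Finset.range 5, (A i).toNat) + (∑ i ∈ Finset.range 5, (B i).toNat) ≤ 20 := by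
  have qa5 := pa 0
  have qa6 := pa 1
  have qa7 := pa 2
  have qa8 := pa 3
  have qe5 := pe 0
  have qe6 := pe 1
  have qe7 := pe 2
  have qe8 := pe 3
  have qB5 := pB 0
  have qB6 := pB 1
  have qB7 := pB 2
  have qB8 := pB 3
  have qA5 := pA 0
  have qA6 := pA 1
  have qA7 := pA 2
  have qA8 := pA 3
  have Fc1 := And.intro (c1 0) (And.intro (c1 1) (And.intro (c1 2) (And.intro (c1 3) (c1 4))))
  have Fc2 := And.intro (c2 0) (And.intro (c2 1) (And.intro (c2 2) (And.intro (c2 3) (c2 4))))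
  have Fc3 := And.intro (c3 0) (And.intro (c3 1) (And.intro (c3 2) (And.intro (c3 3) (c3 4))))
  have Fc4 := And.intro (c4 0) (And.intro (c4 1) (And.intro (c4 2) (And.intro (c4 3) (c4 4))))
  have Fc5 := And.intro (c5 0) (And.intro (c5 1) (And.intro (c5 2) (And.intro (c5 3) (c5 4))))
  have Fc6 := And.intro (c6 0) (And.intro (c6 1) (And.intro (c6 2) (And.intro (c6 3) (c6 4))))
  norm_num only at qa5 qa6 qa7 qa8 qe5 qe6 qe7 qe8 qB5 qB6 qB7 qB8 qA5 qA6 qA7 qA8 Fc1 Fc2 Fc3 Fc4 Fc5 Fc6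
  simp only [qa5, qa6, qa7, qa8, qe5, qe6, qe7, qe8, qB5, qB6, qB7, qB8, qA5, qA6, qA7, qA8] at Fc1 Fc2 Fc3 Fc4 Fc5 Fc6
  obtain ⟨Fc1_0, Fc1_1, Fc1_2, Fc1_3, Fc1_4⟩ := Fc1
  obtain ⟨Fc2_0, Fc2_1, Fc2_2, Fc2_3, Fc2_4⟩ := Fc2
  obtain ⟨Fc3_0, Fc3_1, Fc3_2, Fc3_3, Fc3_4⟩ := Fc3
  obtain ⟨Fc4_0, Fc4_1, Fc4_2, Fc4_3, Fc4_4⟩ := Fc4
  obtain ⟨Fc5_0, Fc5_1, Fc5_2, Fc5_3, Fc5_4⟩ := Fc5
  obtain ⟨Fc6_0, Fc6_1, Fc6_2, Fc6_3, Fc6_4⟩ := Fc6
  have ufc610 := toNat_le61 (B 0) (fc61 (a 1) (a 2) (a 3) (a 4) (e 0) (e 1) (e 2) (e 3) (e 4) (A 1) (A 2) (A 3) (A 4))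
    (fc61_of (B 0) (a 1) (a 2) (a 3) (a 4) (e 0) (e 1) (e 2) (e 3) (e 4) (A 1) (A 2) (A 3) (A 4)
      Fc1_3
      Fc2_2
      Fc4_4
      Fc5_3
      Fc6_2)
  have ufc611 := toNat_le61 (B 1) (fc61 (a 2) (a 3) (a 4) (a 0) (e 1) (e 2) (e 3) (e 4) (e 0) (A 2) (A 3) (A 4) (A 0))
    (fc61_of (B 1) (a 2) (a 3) (a 4) (a 0) (e 1) (e 2) (e 3) (e 4) (e 0) (A 2) (A 3) (A 4) (A 0)
      Fc1_4
      Fc2_3
      Fc4_0
      Fc5_4
      Fc6_3)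
  have ufc612 := toNat_le61 (B 2) (fc61 (a 3) (a 4) (a 0) (a 1) (e 2) (e 3) (e 4) (e 0) (e 1) (A 3) (A 4) (A 0) (A 1))
    (fc61_of (B 2) (a 3) (a 4) (a 0) (a 1) (e 2) (e 3) (e 4) (e 0) (e 1) (A 3) (A 4) (A 0) (A 1)
      Fc1_0
      Fc2_4
      Fc4_1
      Fc5_0
      Fc6_4)
  have ufc613 := toNat_le61 (B 3) (fc61 (a 4) (a 0) (a 1) (a 2) (e 3) (e 4) (e 0) (e 1) (e 2) (A 4) (A 0) (A 1) (A 2))
    (fc61_of (B 3) (a 4) (a 0) (a 1) (a 2) (e 3) (e 4) (e 0) (e 1) (e 2) (A 4) (A 0) (A 1) (A 2)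
      Fc1_1
      Fc2_0
      Fc4_2
      Fc5_1
      Fc6_0)
  have ufc614 := toNat_le61 (B 4) (fc61 (a 0) (a 1) (a 2) (a 3) (e 4) (e 0) (e 1) (e 2) (e 3) (A 0) (A 1) (A 2) (A 3))
    (fc61_of (B 4) (a 0) (a 1) (a 2) (a 3) (e 4) (e 0) (e 1) (e 2) (e 3) (A 0) (A 1) (A 2) (A 3)
      Fc1_2
      Fc2_1
      Fc4_3
      Fc5_2
      Fc6_1)
  have key := chkC_all61 (a 0) (a 1) (a 2) (a 3) (a 4) (e 0) (e 1) (e 2) (e 3) (e 4)
    (A 0) (A 1) (A 2) (A 3) (A 4)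
  have v : ∀ x : Bool, x.toNat ≤ 1 := by decide
  have v0 := v (B 0)
  have v1 := v (B 1)
  have v2 := v (B 2)
  have v3 := v (B 3)
  have v4 := v (B 4)
  simp only [Finset.sum_range_succ, Finset.sum_range_zero, zero_add]
  unfold chkC61 at key
  simp only [Bool.or_eq_true, Bool.and_eq_true, Nat.ble_eq] at key
  rcases key with (((((key | key) | key) | key) | key) | key) | key
  · omega
  · exact (Fc3_4 key.1.1.1 key.1.1.2 key.1.2 key.2).elim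
  · exact (Fc3_0 key.1.1.1 key.1.1.2 key.1.2 key.2).elim
  · exact (Fc3_1 key.1.1.1 key.1.1.2 key.1.2 key.2).elim
  · exact (Fc3_2 key.1.1.1 key.1.1.2 key.1.2 key.2).elim
  · exact (Fc3_3 key.1.1.1 key.1.1.2 key.1.2 key.2).elim
  · omega

end Pool.Agent.P0
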