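import Pool.Agent.P0.Five61C

set_option linter.all false

/-!
# P0, item I7, `r = 5`, `n = 5 k`: the core for `K_{2,3}`
-/

namespace Pool.Agent.P0

theorem sd61_of (b0 a0 a1 a2 a3 a4 e0 e1 e2 e3 e4 A0 A1 A2 A3 A4 : Bool)
    (h0 : a4 = true → a1 = true → e0 = true → b0 = true → False)
    (h1 : a4 = true → a1 = true → A0 = true → b0 = true → False)
    (h2 : e4 = true → e1 = true → a0 = true → b0 = true → False)
    (h3 : e4 = true → e1 = true → A0 = true → b0 = true → False)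
    (h4 : A4 = true → A1 = true → a0 = true → b0 = true → False)
    (h5 : A4 = true → A1 = true → e0 = true → b0 = true → False)
    (h6 : a3 = true → b0 = true → e1 = true → A2 = true → False)
    (h7 : a3 = true → b0 = true → A1 = true → e2 = true → False)
    (h8 : b0 = true → a2 = true → e3 = true → A4 = true → False)
    (h9 : b0 = true → a2 = true → A3 = true → e4 = true → False)
    (hb : b0 = true) : sd61 a0 a1 a2 a3 a4 e0 e1 e2 e3 e4 A0 A1 A2 A3 A4 = true := by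
  subst hb
  cases hh : sd61 a0 a1 a2 a3 a4 e0 e1 e2 e3 e4 A0 A1 A2 A3 A4
  · exfalso
    unfold sd61 at hh
    simp only [Bool.not_eq_false', Bool.or_eq_true, Bool.and_eq_true] at hh
    rcases hh with (((hh | hh) | hh) | hh) | hh
    · rcases hh.2 with h | h
      · exact h0 hh.1.1 hh.1.2 h rfl
      · exact h1 hh.1.1 hh.1.2 h rfl
    · rcases hh.2 with h | h
      · exact h2 hh.1.1 hh.1.2 h rfl
      · exact h3 hh.1.1 hh.1.2 h rfl
    · rcases hh.2 with h | h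
      · exact h4 hh.1.1 hh.1.2 h rfl
      · exact h5 hh.1.1 hh.1.2 h rfl
    · rcases hh.2 with h | h
      · exact h6 hh.1 rfl h.1 h.2
      · exact h7 hh.1 rfl h.2 h.1
    · rcases hh.2 with h | h
      · exact h8 rfl hh.1 h.1 h.2
      · exact h9 rfl hh.1 h.2 h.1
  · rfl

theorem chkD_sound61 (a0 a1 a2 a3 a4 e0 e1 e2 e3 e4 A0 A1 A2 A3 A4 b0 b1 b2 b3 b4 B0 B1 B2 B3 B4 : Bool)
    (hs0 : b0 = true → sd61 a0 a1 a2 a3 a4 e0 e1 e2 e3 e4 A0 A1 A2 A3 A4 = true)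
    (hs1 : b1 = true → sd61 a1 a2 a3 a4 a0 e1 e2 e3 e4 e0 A1 A2 A3 A4 A0 = true)
    (hs2 : b2 = true → sd61 a2 a3 a4 a0 a1 e2 e3 e4 e0 e1 A2 A3 A4 A0 A1 = true)
    (hs3 : b3 = true → sd61 a3 a4 a0 a1 a2 e3 e4 e0 e1 e2 A3 A4 A0 A1 A2 = true)
    (hs4 : b4 = true → sd61 a4 a0 a1 a2 a3 e4 e0 e1 e2 e3 A4 A0 A1 A2 A3 = true)
    (ht0 : B0 = true → sd61 A0 A1 A2 A3 A4 e0 e1 e2 e3 e4 a0 a1 a2 a3 a4 = true)
    (ht1 : B1 = true → sd61 A1 A2 A3 A4 A0 e1 e2 e3 e4 e0 a1 a2 a3 a4 a0 = true)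
    (ht2 : B2 = true → sd61 A2 A3 A4 A0 A1 e2 e3 e4 e0 e1 a2 a3 a4 a0 a1 = true)
    (ht3 : B3 = true → sd61 A3 A4 A0 A1 A2 e3 e4 e0 e1 e2 a3 a4 a0 a1 a2 = true)
    (ht4 : B4 = true → sd61 A4 A0 A1 A2 A3 e4 e0 e1 e2 e3 a4 a0 a1 a2 a3 = true)
    (hu0 : b4 = true → b1 = true → a0 = true → e0 = true → A0 = true → B0 = true → False)
    (hu1 : b0 = true → b2 = true → a1 = true → e1 = true → A1 = true → B1 = true → False)
    (hu2 : b1 = true → b3 = true → a2 = true → e2 = true → A2 = true → B2 = true → False)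
    (hu3 : b2 = true → b4 = true → a3 = true → e3 = true → A3 = true → B3 = true → False)
    (hu4 : b3 = true → b0 = true → a4 = true → e4 = true → A4 = true → B4 = true → False)
    (hv0 : B4 = true → B1 = true → a0 = true → e0 = true → A0 = true → b0 = true → False)
    (hv1 : B0 = true → B2 = true → a1 = true → e1 = true → A1 = true → b1 = true → False)
    (hv2 : B1 = true → B3 = true → a2 = true → e2 = true → A2 = true → b2 = true → False)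
    (hv3 : B2 = true → B4 = true → a3 = true → e3 = true → A3 = true → b3 = true → False)
    (hv4 : B3 = true → B0 = true → a4 = true → e4 = true → A4 = true → b4 = true → False)
    : (a0.toNat + a1.toNat + a2.toNat + a3.toNat + a4.toNat) + (e0.toNat + e1.toNat + e2.toNat + e3.toNat + e4.toNat) + (A0.toNat + A1.toNat + A2.toNat + A3.toNat + A4.toNat) + (b0.toNat + b1.toNat + b2.toNat + b3.toNat + b4.toNat) + (B0.toNat + B1.toNat + B2.toNat + B3.toNat + B4.toNat) ≤ 16 := by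
  have key := chkD_all61 a0 a1 a2 a3 a4 e0 e1 e2 e3 e4 A0 A1 A2 A3 A4
  unfold chkD61 at key
  simp only [ev61_eq] at key
  generalize sd61 a0 a1 a2 a3 a4 e0 e1 e2 e3 e4 A0 A1 A2 A3 A4 = s0 at key hs0
  generalize sd61 a1 a2 a3 a4 a0 e1 e2 e3 e4 e0 A1 A2 A3 A4 A0 = s1 at key hs1
  generalize sd61 a2 a3 a4 a0 a1 e2 e3 e4 e0 e1 A2 A3 A4 A0 A1 = s2 at key hs2
  generalize sd61 a3 a4 a0 a1 a2 e3 e4 e0 e1 e2 A3 A4 A0 A1 A2 = s3 at key hs3
  generalize sd61 a4 a0 a1 a2 a3 e4 e0 e1 e2 e3 A4 A0 A1 A2 A3 = s4 at key hs4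
  generalize sd61 A0 A1 A2 A3 A4 e0 e1 e2 e3 e4 a0 a1 a2 a3 a4 = t0 at key ht0
  generalize sd61 A1 A2 A3 A4 A0 e1 e2 e3 e4 e0 a1 a2 a3 a4 a0 = t1 at key ht1
  generalize sd61 A2 A3 A4 A0 A1 e2 e3 e4 e0 e1 a2 a3 a4 a0 a1 = t2 at key ht2
  generalize sd61 A3 A4 A0 A1 A2 e3 e4 e0 e1 e2 a3 a4 a0 a1 a2 = t3 at key ht3
  generalize sd61 A4 A0 A1 A2 A3 e4 e0 e1 e2 e3 a4 a0 a1 a2 a3 = t4 at key ht4
  have ls0 := toNat_le61 b0 s0 hs0
  have ls1 := toNat_le61 b1 s1 hs1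
  have ls2 := toNat_le61 b2 s2 hs2
  have ls3 := toNat_le61 b3 s3 hs3
  have ls4 := toNat_le61 b4 s4 hs4
  have lt0 := toNat_le61 B0 t0 ht0
  have lt1 := toNat_le61 B1 t1 ht1
  have lt2 := toNat_le61 B2 t2 ht2
  have lt3 := toNat_le61 B3 t3 ht3
  have lt4 := toNat_le61 B4 t4 ht4
  rw [Bool.or_eq_true] at key
  rcases key with key | key
  · rw [Nat.ble_eq] at key; omega
  replace key := al61_spec key b0
  rw [Bool.or_eq_true] at key
  rcases key with key | key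
  · exfalso
    simp only [Bool.and_eq_true, Bool.not_eq_true'] at key
    exact absurd (hs0 key.1) (by rw [key.2]; decide)
  replace key := al61_spec key b1
  rw [Bool.or_eq_true] at key
  rcases key with key | key
  · exfalso
    simp only [Bool.and_eq_true, Bool.not_eq_true'] at key
    exact absurd (hs1 key.1) (by rw [key.2]; decide)
  replace key := al61_spec key b2
  rw [Bool.or_eq_true] at key
  rcases key with key | key
  · exfalso
    simp only [Bool.and_eq_true, Bool.not_eq_true'] at key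
    exact absurd (hs2 key.1) (by rw [key.2]; decide)
  replace key := al61_spec key b3
  rw [Bool.or_eq_true] at key
  rcases key with key | key
  · exfalso
    simp only [Bool.and_eq_true, Bool.not_eq_true'] at key
    exact absurd (hs3 key.1) (by rw [key.2]; decide)
  replace key := al61_spec key b4
  rw [Bool.or_eq_true, Bool.or_eq_true] at key
  rcases key with (key | key) | key
  · exfalso
    simp only [Bool.and_eq_true, Bool.not_eq_true'] at key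
    exact absurd (hs4 key.1) (by rw [key.2]; decide)
  · rw [Nat.ble_eq] at key; omega
  replace key := al61_spec key B0
  rw [Bool.or_eq_true] at key
  rcases key with key | key
  · exfalso
    simp only [Bool.and_eq_true, Bool.not_eq_true'] at key
    exact absurd (ht0 key.1) (by rw [key.2]; decide)
  replace key := al61_spec key B1
  rw [Bool.or_eq_true] at key
  rcases key with key | key
  · exfalso
    simp only [Bool.and_eq_true, Bool.not_eq_true'] at key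
    exact absurd (ht1 key.1) (by rw [key.2]; decide)
  replace key := al61_spec key B2
  rw [Bool.or_eq_true] at key
  rcases key with key | key
  · exfalso
    simp only [Bool.and_eq_true, Bool.not_eq_true'] at key
    exact absurd (ht2 key.1) (by rw [key.2]; decide)
  replace key := al61_spec key B3
  rw [Bool.or_eq_true] at key
  rcases key with key | key
  · exfalso
    simp only [Bool.and_eq_true, Bool.not_eq_true'] at key
    exact absurd (ht3 key.1) (by rw [key.2]; decide)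
  replace key := al61_spec key B4
  simp only [Bool.or_eq_true, Bool.and_eq_true, Nat.ble_eq, Bool.not_eq_true'] at key
  rcases key with (((((key | key) | key) | key) | key) | key) | key
  · exfalso
    exact absurd (ht4 key.1) (by rw [key.2]; decide)
  · omega
  · exfalso
    rcases key.2 with h | h
    · exact hu0 h.1.1 h.1.2 key.1.1.1 key.1.1.2 key.1.2 h.2
    · exact hv0 h.1.1 h.1.2 key.1.1.1 key.1.1.2 key.1.2 h.2
  · exfalso
    rcases key.2 with h | h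
    · exact hu1 h.1.1 h.1.2 key.1.1.1 key.1.1.2 key.1.2 h.2
    · exact hv1 h.1.1 h.1.2 key.1.1.1 key.1.1.2 key.1.2 h.2
  · exfalso
    rcases key.2 with h | h
    · exact hu2 h.1.1 h.1.2 key.1.1.1 key.1.1.2 key.1.2 h.2
    · exact hv2 h.1.1 h.1.2 key.1.1.1 key.1.1.2 key.1.2 h.2
  · exfalso
    rcases key.2 with h | h
    · exact hu3 h.1.1 h.1.2 key.1.1.1 key.1.1.2 key.1.2 h.2
    · exact hv3 h.1.1 h.1.2 key.1.1.1 key.1.1.2 key.1.2 h.2
  · exfalso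
    rcases key.2 with h | h
    · exact hu4 h.1.1 h.1.2 key.1.1.1 key.1.1.2 key.1.2 h.2
    · exact hv4 h.1.1 h.1.2 key.1.1.1 key.1.1.2 key.1.2 h.2

/-- check D (`K_{2,3}`) -/
theorem coreD61 (a b e B A : ℕ → Bool)
    (pa : ∀ n, a (n + 5) = a n) (pb : ∀ n, b (n + 5) = b n) (pe : ∀ n, e (n + 5) = e n) (pB : ∀ n, B (n + 5) = B n) (pA : ∀ n, A (n + 5) = A n)
    (gbae : ∀ n, a n = true → a (n + 2) = true → e (n + 1) = true → b (n + 1) = true → False)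
    (gbaA : ∀ n, a n = true → a (n + 2) = true → A (n + 1) = true → b (n + 1) = true → False)
    (gbea : ∀ n, e n = true → e (n + 2) = true → a (n + 1) = true → b (n + 1) = true → False)
    (gbeA : ∀ n, e n = true → e (n + 2) = true → A (n + 1) = true → b (n + 1) = true → False)
    (gbAa : ∀ n, A n = true → A (n + 2) = true → a (n + 1) = true → b (n + 1) = true → False)
    (gbAe : ∀ n, A n = true → A (n + 2) = true → e (n + 1) = true → b (n + 1) = true → False)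
    (gBae : ∀ n, a n = true → a (n + 2) = true → e (n + 1) = true → B (n + 1) = true → False)
    (gBaA : ∀ n, a n = true → a (n + 2) = true → A (n + 1) = true → B (n + 1) = true → False)
    (gBea : ∀ n, e n = true → e (n + 2) = true → a (n + 1) = true → B (n + 1) = true → False)
    (gBeA : ∀ n, e n = true → e (n + 2) = true → A (n + 1) = true → B (n + 1) = true → False)
    (gBAa : ∀ n, A n = true → A (n + 2) = true → a (n + 1) = true → B (n + 1) = true → False)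
    (gBAe : ∀ n, A n = true → A (n + 2) = true → e (n + 1) = true → B (n + 1) = true → False)
    (d1 : ∀ n, a n = true → b (n + 2) = true → e (n + 3) = true → A (n + 4) = true → False)
    (d2 : ∀ n, a n = true → b (n + 2) = true → A (n + 3) = true → e (n + 4) = true → False)
    (d3 : ∀ n, b n = true → a (n + 2) = true → e (n + 3) = true → A (n + 4) = true → False)
    (d4 : ∀ n, b n = true → a (n + 2) = true → A (n + 3) = true → e (n + 4) = true → False)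
    (d5 : ∀ n, A n = true → B (n + 2) = true → e (n + 3) = true → a (n + 4) = true → False)
    (d6 : ∀ n, A n = true → B (n + 2) = true → a (n + 3) = true → e (n + 4) = true → False)
    (d7 : ∀ n, B n = true → A (n + 2) = true → e (n + 3) = true → a (n + 4) = true → False)
    (d8 : ∀ n, B n = true → A (n + 2) = true → a (n + 3) = true → e (n + 4) = true → False)
    (sb : ∀ n, b n = true → b (n + 2) = true → a (n + 1) = true → e (n + 1) = true → A (n + 1) = true → B (n + 1) = true → False)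
    (sB : ∀ n, B n = true → B (n + 2) = true → a (n + 1) = true → e (n + 1) = true → A (n + 1) = true → b (n + 1) = true → False)
    : (∑ i ∈ Finset.range 5, (a i).toNat) + (∑ i ∈ Finset.range 5, (e i).toNat) + (∑ i ∈ Finset.range 5, (A i).toNat) + (∑ i ∈ Finset.range 5, (b i).toNat) + (∑ i ∈ Finset.range 5, (B i).toNat) ≤ 16 := by
  have qa5 := pa 0
  have qa6 := pa 1
  have qa7 := pa 2
  have qa8 := pa 3
  have qb5 := pb 0
  have qb6 := pb 1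
  have qb7 := pb 2
  have qb8 := pb 3
  have qe5 := pe 0
  have qe6 := pe 1
  have qe7 := pe 2
  have qe8 := pe 3
  have qB5 := pB 0
  have qB6 := pB 1
  have qB7 := pB 2
  have qB8 := pB 3
  have qA5 := pA 0
  have qA6 := pA 1
  have qA7 := pA 2
  have qA8 := pA 3
  have Fgbae := And.intro (gbae 0) (And.intro (gbae 1) (And.intro (gbae 2) (And.intro (gbae 3) (gbae 4))))
  have FgbaA := And.intro (gbaA 0) (And.intro (gbaA 1) (And.intro (gbaA 2) (And.intro (gbaA 3) (gbaA 4))))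
  have Fgbea := And.intro (gbea 0) (And.intro (gbea 1) (And.intro (gbea 2) (And.intro (gbea 3) (gbea 4))))
  have FgbeA := And.intro (gbeA 0) (And.intro (gbeA 1) (And.intro (gbeA 2) (And.intro (gbeA 3) (gbeA 4))))
  have FgbAa := And.intro (gbAa 0) (And.intro (gbAa 1) (And.intro (gbAa 2) (And.intro (gbAa 3) (gbAa 4))))
  have FgbAe := And.intro (gbAe 0) (And.intro (gbAe 1) (And.intro (gbAe 2) (And.intro (gbAe 3) (gbAe 4))))
  have FgBae := And.intro (gBae 0) (And.intro (gBae 1) (And.intro (gBae 2) (And.intro (gBae 3) (gBae 4))))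
  have FgBaA := And.intro (gBaA 0) (And.intro (gBaA 1) (And.intro (gBaA 2) (And.intro (gBaA 3) (gBaA 4))))
  have FgBea := And.intro (gBea 0) (And.intro (gBea 1) (And.intro (gBea 2) (And.intro (gBea 3) (gBea 4))))
  have FgBeA := And.intro (gBeA 0) (And.intro (gBeA 1) (And.intro (gBeA 2) (And.intro (gBeA 3) (gBeA 4))))
  have FgBAa := And.intro (gBAa 0) (And.intro (gBAa 1) (And.intro (gBAa 2) (And.intro (gBAa 3) (gBAa 4))))
  have FgBAe := And.intro (gBAe 0) (And.intro (gBAe 1) (And.intro (gBAe 2) (And.intro (gBAe 3) (gBAe 4))))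
  have Fd1 := And.intro (d1 0) (And.intro (d1 1) (And.intro (d1 2) (And.intro (d1 3) (d1 4))))
  have Fd2 := And.intro (d2 0) (And.intro (d2 1) (And.intro (d2 2) (And.intro (d2 3) (d2 4))))
  have Fd3 := And.intro (d3 0) (And.intro (d3 1) (And.intro (d3 2) (And.intro (d3 3) (d3 4))))
  have Fd4 := And.intro (d4 0) (And.intro (d4 1) (And.intro (d4 2) (And.intro (d4 3) (d4 4))))
  have Fd5 := And.intro (d5 0) (And.intro (d5 1) (And.intro (d5 2) (And.intro (d5 3) (d5 4))))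
  have Fd6 := And.intro (d6 0) (And.intro (d6 1) (And.intro (d6 2) (And.intro (d6 3) (d6 4))))
  have Fd7 := And.intro (d7 0) (And.intro (d7 1) (And.intro (d7 2) (And.intro (d7 3) (d7 4))))
  have Fd8 := And.intro (d8 0) (And.intro (d8 1) (And.intro (d8 2) (And.intro (d8 3) (d8 4))))
  have Fsb := And.intro (sb 0) (And.intro (sb 1) (And.intro (sb 2) (And.intro (sb 3) (sb 4))))
  have FsB := And.intro (sB 0) (And.intro (sB 1) (And.intro (sB 2) (And.intro (sB 3) (sB 4))))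
  norm_num only at qa5 qa6 qa7 qa8 qb5 qb6 qb7 qb8 qe5 qe6 qe7 qe8 qB5 qB6 qB7 qB8 qA5 qA6 qA7 qA8 Fgbae FgbaA Fgbea FgbeA FgbAa FgbAe FgBae FgBaA FgBea FgBeA FgBAa FgBAe Fd1 Fd2 Fd3 Fd4 Fd5 Fd6 Fd7 Fd8 Fsb FsB
  simp only [qa5, qa6, qa7, qa8, qb5, qb6, qb7, qb8, qe5, qe6, qe7, qe8, qB5, qB6, qB7, qB8, qA5, qA6, qA7, qA8] at Fgbae FgbaA Fgbea FgbeA FgbAa FgbAe FgBae FgBaA FgBea FgBeA FgBAa FgBAe Fd1 Fd2 Fd3 Fd4 Fd5 Fd6 Fd7 Fd8 Fsb FsB
  obtain ⟨Fgbae_0, Fgbae_1, Fgbae_2, Fgbae_3, Fgbae_4⟩ := Fgbae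
  obtain ⟨FgbaA_0, FgbaA_1, FgbaA_2, FgbaA_3, FgbaA_4⟩ := FgbaA
  obtain ⟨Fgbea_0, Fgbea_1, Fgbea_2, Fgbea_3, Fgbea_4⟩ := Fgbea
  obtain ⟨FgbeA_0, FgbeA_1, FgbeA_2, FgbeA_3, FgbeA_4⟩ := FgbeA
  obtain ⟨FgbAa_0, FgbAa_1, FgbAa_2, FgbAa_3, FgbAa_4⟩ := FgbAa
  obtain ⟨FgbAe_0, FgbAe_1, FgbAe_2, FgbAe_3, FgbAe_4⟩ := FgbAe
  obtain ⟨FgBae_0, FgBae_1, FgBae_2, FgBae_3, FgBae_4⟩ := FgBae
  obtain ⟨FgBaA_0, FgBaA_1, FgBaA_2, FgBaA_3, FgBaA_4⟩ := FgBaA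
  obtain ⟨FgBea_0, FgBea_1, FgBea_2, FgBea_3, FgBea_4⟩ := FgBea
  obtain ⟨FgBeA_0, FgBeA_1, FgBeA_2, FgBeA_3, FgBeA_4⟩ := FgBeA
  obtain ⟨FgBAa_0, FgBAa_1, FgBAa_2, FgBAa_3, FgBAa_4⟩ := FgBAa
  obtain ⟨FgBAe_0, FgBAe_1, FgBAe_2, FgBAe_3, FgBAe_4⟩ := FgBAe
  obtain ⟨Fd1_0, Fd1_1, Fd1_2, Fd1_3, Fd1_4⟩ := Fd1
  obtain ⟨Fd2_0, Fd2_1, Fd2_2, Fd2_3, Fd2_4⟩ := Fd2
  obtain ⟨Fd3_0, Fd3_1, Fd3_2, Fd3_3, Fd3_4⟩ := Fd3
  obtain ⟨Fd4_0, Fd4_1, Fd4_2, Fd4_3, Fd4_4⟩ := Fd4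
  obtain ⟨Fd5_0, Fd5_1, Fd5_2, Fd5_3, Fd5_4⟩ := Fd5
  obtain ⟨Fd6_0, Fd6_1, Fd6_2, Fd6_3, Fd6_4⟩ := Fd6
  obtain ⟨Fd7_0, Fd7_1, Fd7_2, Fd7_3, Fd7_4⟩ := Fd7
  obtain ⟨Fd8_0, Fd8_1, Fd8_2, Fd8_3, Fd8_4⟩ := Fd8
  obtain ⟨Fsb_0, Fsb_1, Fsb_2, Fsb_3, Fsb_4⟩ := Fsb
  obtain ⟨FsB_0, FsB_1, FsB_2, FsB_3, FsB_4⟩ := FsB
  have key := chkD_sound61 (a 0) (a 1) (a 2) (a 3) (a 4) (e 0) (e 1) (e 2) (e 3) (e 4) (A 0) (A 1) (A 2) (A 3) (A 4) (b 0) (b 1) (b 2) (b 3) (b 4) (B 0) (B 1) (B 2) (B 3) (B 4)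
    (sd61_of (b 0) (a 0) (a 1) (a 2) (a 3) (a 4) (e 0) (e 1) (e 2) (e 3) (e 4) (A 0) (A 1) (A 2) (A 3) (A 4) Fgbae_4 FgbaA_4 Fgbea_4 FgbeA_4 FgbAa_4 FgbAe_4 Fd1_3 Fd2_3 Fd3_0 Fd4_0)
    (sd61_of (b 1) (a 1) (a 2) (a 3) (a 4) (a 0) (e 1) (e 2) (e 3) (e 4) (e 0) (A 1) (A 2) (A 3) (A 4) (A 0) Fgbae_0 FgbaA_0 Fgbea_0 FgbeA_0 FgbAa_0 FgbAe_0 Fd1_4 Fd2_4 Fd3_1 Fd4_1)
    (sd61_of (b 2) (a 2) (a 3) (a 4) (a 0) (a 1) (e 2) (e 3) (e 4) (e 0) (e 1) (A 2) (A 3) (A 4) (A 0) (A 1) Fgbae_1 FgbaA_1 Fgbea_1 FgbeA_1 FgbAa_1 FgbAe_1 Fd1_0 Fd2_0 Fd3_2 Fd4_2)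
    (sd61_of (b 3) (a 3) (a 4) (a 0) (a 1) (a 2) (e 3) (e 4) (e 0) (e 1) (e 2) (A 3) (A 4) (A 0) (A 1) (A 2) Fgbae_2 FgbaA_2 Fgbea_2 FgbeA_2 FgbAa_2 FgbAe_2 Fd1_1 Fd2_1 Fd3_3 Fd4_3)
    (sd61_of (b 4) (a 4) (a 0) (a 1) (a 2) (a 3) (e 4) (e 0) (e 1) (e 2) (e 3) (A 4) (A 0) (A 1) (A 2) (A 3) Fgbae_3 FgbaA_3 Fgbea_3 FgbeA_3 FgbAa_3 FgbAe_3 Fd1_2 Fd2_2 Fd3_4 Fd4_4)
    (sd61_of (B 0) (A 0) (A 1) (A 2) (A 3) (A 4) (e 0) (e 1) (e 2) (e 3) (e 4) (a 0) (a 1) (a 2) (a 3) (a 4) FgBAe_4 FgBAa_4 FgBeA_4 FgBea_4 FgBaA_4 FgBae_4 Fd5_3 Fd6_3 Fd7_0 Fd8_0)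
    (sd61_of (B 1) (A 1) (A 2) (A 3) (A 4) (A 0) (e 1) (e 2) (e 3) (e 4) (e 0) (a 1) (a 2) (a 3) (a 4) (a 0) FgBAe_0 FgBAa_0 FgBeA_0 FgBea_0 FgBaA_0 FgBae_0 Fd5_4 Fd6_4 Fd7_1 Fd8_1)
    (sd61_of (B 2) (A 2) (A 3) (A 4) (A 0) (A 1) (e 2) (e 3) (e 4) (e 0) (e 1) (a 2) (a 3) (a 4) (a 0) (a 1) FgBAe_1 FgBAa_1 FgBeA_1 FgBea_1 FgBaA_1 FgBae_1 Fd5_0 Fd6_0 Fd7_2 Fd8_2)
    (sd61_of (B 3) (A 3) (A 4) (A 0) (A 1) (A 2) (e 3) (e 4) (e 0) (e 1) (e 2) (a 3) (a 4) (a 0) (a 1) (a 2) FgBAe_2 FgBAa_2 FgBeA_2 FgBea_2 FgBaA_2 FgBae_2 Fd5_1 Fd6_1 Fd7_3 Fd8_3)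
    (sd61_of (B 4) (A 4) (A 0) (A 1) (A 2) (A 3) (e 4) (e 0) (e 1) (e 2) (e 3) (a 4) (a 0) (a 1) (a 2) (a 3) FgBAe_3 FgBAa_3 FgBeA_3 FgBea_3 FgBaA_3 FgBae_3 Fd5_2 Fd6_2 Fd7_4 Fd8_4)
    Fsb_4    Fsb_0    Fsb_1    Fsb_2    Fsb_3
    FsB_4    FsB_0    FsB_1    FsB_2    FsB_3
  simp only [Finset.sum_range_succ, Finset.sum_range_zero, zero_add]
  exact key

end Pool.Agent.P0
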