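import Pool.Agent.P0.Five61D
import Pool.Agent.P0.Graph61
import Pool.Agent.P0.Swap49

set_option linter.all false

/-!
# P0, item I7, `r = 5`, `n = 5 k`: the moves
-/

namespace Pool.Agent.P0

open Pool.Agent.Helper14.LongCyc Pool.Agent.LCK Pool.Agent.FRC

universe u

variable {V : Type u} [DecidableEq V] {G : SimpleGraph V}

theorem pth2_61 {a b : V} (h : G.Adj a b) : Pth G a b [a, b] :=
  (Pth.singleton b).cons h (by simpa using h.ne)

theorem pth3_61 {a b c : V} (h1 : G.Adj a b) (h2 : G.Adj b c) (h3 : a ≠ c) :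
    Pth G a c [a, b, c] :=
  (pth2_61 h2).cons h1 (by
    simp only [List.mem_cons, List.not_mem_nil, or_false, not_or]
    exact ⟨h1.ne, h3⟩)

theorem pth4_61 {a b c d : V} (h1 : G.Adj a b) (h2 : G.Adj b c) (h3 : G.Adj c d) (h4 : a ≠ c)
    (h5 : a ≠ d) (h6 : b ≠ d) : Pth G a d [a, b, c, d] :=
  (pth3_61 h2 h3 h6).cons h1 (by
    simp only [List.mem_cons, List.not_mem_nil, or_false, not_or]
    exact ⟨h1.ne, h4, h5⟩)

theorem pth5_61 {a b c d e : V} (h1 : G.Adj a b) (h2 : G.Adj b c) (h3 : G.Adj c d)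
    (h4 : G.Adj d e) (h5 : a ≠ c) (h6 : a ≠ d) (h7 : a ≠ e) (h8 : b ≠ d) (h9 : b ≠ e)
    (h10 : c ≠ e) : Pth G a e [a, b, c, d, e] :=
  (pth4_61 h2 h3 h4 h8 h9 h10).cons h1 (by
    simp only [List.mem_cons, List.not_mem_nil, or_false, not_or]
    exact ⟨h1.ne, h5, h6, h7⟩)

/-- a member `c` and the five vertices `p 0, …, p 4` of the rest -/
structure Mb61 (G : SimpleGraph V) (U : Finset V) (F : Finset (Finset V)) (c : List V)
    (p : Fin 5 → V) : Prop where
  opt : Opt49 G U 5 F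
  cyc : Cyc G c
  len : c.length = 5
  mem : c.toFinset ∈ F
  inj : Function.Injective p
  rst : ∀ i, p i ∈ rest U F
  mx : ∀ F' a b l, Opt49 G U 5 F' → Pth G a b l → (∀ z ∈ l, z ∈ rest U F') → l.length = 5 →
    eS G (rest U F') (rest U F') ≤ eS G (rest U F) (rest U F)

variable {U : Finset V} {F : Finset (Finset V)} {c : List V} {p : Fin 5 → V}

theorem Mb61.pos (M : Mb61 G U F c p) : 0 < c.length := by
  rw [M.len]; norm_num

theorem Mb61.wrap (M : Mb61 G U F c p) (n : ℕ) : cf c M.pos (n + 5) = cf c M.pos n := by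
  have := cf_add M.pos n
  rwa [M.len] at this

theorem Mb61.rc (M : Mb61 G U F c p) {z : V} (hz : z ∈ rest U F) : z ∉ c := fun h =>
  (mem_rest.1 hz).2 _ M.mem (List.mem_toFinset.2 h)

/-- the move `C - c + w`, the others closed by `c` -/
theorem Mb61.mv (M : Mb61 G U F c p) (n : ℕ) {w u u' : V} {R : List V} (hw : w ∈ rest U F)
    (hR : Pth G u u' R) (hRr : ∀ z ∈ R, z ∈ rest U F) (hwR : w ∉ R) (hlen : 4 ≤ R.length)
    (a1 : G.Adj w (cf c M.pos n)) (a2 : G.Adj w (cf c M.pos (n + 2)))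
    (a3 : G.Adj u (cf c M.pos (n + 1))) (a4 : G.Adj u' (cf c M.pos (n + 1))) : False := by
  have hlr := M.len
  refine M.opt.no_two M.mem (arcs61 M.cyc M.pos (by norm_num) (n + 1) 0 1 3 (by norm_num)
    (by omega) hR (Pth.singleton w) (fun z hz => M.rc (hRr z hz)) (by
      intro z hz
      rw [List.mem_singleton] at hz
      rw [hz]; exact M.rc hw) (by
      intro z hz hz'
      rw [List.mem_singleton] at hz'
      exact hwR (hz' ▸ hz)) (Or.inl ⟨a3.symm, a4.symm⟩) (Or.inl ⟨a2.symm, ?_⟩) (by omega)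
      (by simp) ?_)
  · rw [show n + 1 + 1 + 3 = n + 5 by ring, M.wrap]
    exact a1.symm
  · intro z hz
    rcases hz with h | h | h
    · exact Finset.mem_union_left _ (List.mem_toFinset.2 h)
    · exact Finset.mem_union_right _ (hRr z h)
    · rw [List.mem_singleton] at h
      rw [h]; exact Finset.mem_union_right _ hw

/-- the move with two arcs -/
theorem Mb61.ar (M : Mb61 G U F c p) (n : ℕ) {u w u' w' : V} {R R' : List V}
    (hR : Pth G u w R) (hR' : Pth G u' w' R') (hRr : ∀ z ∈ R, z ∈ rest U F)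
    (hRr' : ∀ z ∈ R', z ∈ rest U F) (hRR : ∀ z ∈ R, z ∉ R') (hl : 2 ≤ R.length)
    (hl' : 3 ≤ R'.length)
    (a1 : G.Adj u (cf c M.pos n)) (a2 : G.Adj w (cf c M.pos (n + 2)))
    (a3 : G.Adj u' (cf c M.pos (n + 3))) (a4 : G.Adj w' (cf c M.pos (n + 4))) : False := by
  have hlr := M.len
  refine M.opt.no_two M.mem (arcs61 M.cyc M.pos (by norm_num) n 2 3 1 (by norm_num)
    (by omega) hR hR' (fun z hz => M.rc (hRr z hz)) (fun z hz => M.rc (hRr' z hz)) hRR
    (Or.inl ⟨a1.symm, a2.symm⟩) (Or.inl ⟨a3.symm, a4.symm⟩) (by omega) (by omega) ?_)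
  intro z hz
  rcases hz with h | h | h
  · exact Finset.mem_union_left _ (List.mem_toFinset.2 h)
  · exact Finset.mem_union_right _ (hRr z h)
  · exact Finset.mem_union_right _ (hRr' z h)

/-- the swap of `w` and a vertex of the cycle -/
theorem Mb61.sw (M : Mb61 G U F c p) (n : ℕ) {w a b : V} {l : List V} (hw : w ∈ rest U F)
    (a1 : G.Adj w (cf c M.pos n)) (a2 : G.Adj w (cf c M.pos (n + 2))) (hP : Pth G a b l)
    (hl : l.length = 5) (hlm : ∀ z ∈ l, z = cf c M.pos (n + 1) ∨ (z ∈ rest U F ∧ z ≠ w))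
    (hd : dg G (rest U F) w < dg G ((rest U F).erase w) (cf c M.pos (n + 1))) : False := by
  classical
  have hlr := M.len
  have hn := Cyc.nodup M.cyc
  have hwc := M.rc hw
  have hA := arc_pth M.cyc M.pos 3 (n + 2) (by omega)
  rw [show n + 2 + 3 = n + 5 by ring, M.wrap] at hA
  have key : ∀ z ∈ seg (cf c M.pos) (n + 2) 3, z ≠ cf c M.pos (n + 1) := by
    intro z hz hzz
    rw [mem_seg] at hz
    obtain ⟨j, j1, j2, j3⟩ := hz
    rw [hzz, show j = n + (j - n) by omega] at j3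
    exact far49 M.cyc M.pos n (s := 1) (t := j - n) (by omega) (by omega) j3
  obtain ⟨e1, e2⟩ := joinSet hA (Pth.singleton w) (by
    intro z hz hz'
    rw [List.mem_singleton] at hz'
    exact hwc (hz' ▸ arc_mem49 M.pos hz)) (by
    rw [seg_length]; simp only [List.length_singleton]; omega)
    (Or.inl ⟨a2.symm, a1.symm⟩)
  rw [seg_length, List.length_singleton] at e2
  have hcC : cf c M.pos (n + 1) ∈ c.toFinset := List.mem_toFinset.2 (cf_mem M.pos _)
  have hwC : w ∉ c.toFinset := fun h => hwc (List.mem_toFinset.1 h)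
  have hcard : c.toFinset.card = 5 := by rw [List.toFinset_card_of_nodup hn, hlr]
  have e3 : (seg (cf c M.pos) (n + 2) 3 ++ [w]).toFinset
      = insert w (c.toFinset.erase (cf c M.pos (n + 1))) := by
    refine Finset.eq_of_subset_of_card_le ?_ ?_
    · intro z hz
      rw [List.mem_toFinset, List.mem_append, List.mem_singleton] at hz
      rcases hz with hz | hz
      · exact Finset.mem_insert_of_mem (Finset.mem_erase.2 ⟨key z hz,
          List.mem_toFinset.2 (arc_mem49 M.pos hz)⟩)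
      · rw [hz]; exact Finset.mem_insert_self _ _
    · rw [e2, Finset.card_insert_of_notMem (fun hh => hwC (Finset.mem_of_mem_erase hh)),
        Finset.card_erase_of_mem hcC]
      omega
  rw [e3] at e1
  obtain ⟨o1, o2⟩ := M.opt.replace_same M.mem e1 (by
    intro z hz
    rcases Finset.mem_insert.1 hz with hz | hz
    · rw [hz]; exact Finset.mem_union_right _ hw
    · exact Finset.mem_union_left _ (Finset.mem_of_mem_erase hz)) (by
    rw [Finset.card_insert_of_notMem (fun hh => hwC (Finset.mem_of_mem_erase hh)),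
      Finset.card_erase_of_mem hcC]
    omega)
  set C := c.toFinset with hCdef
  set x := cf c M.pos (n + 1) with hx
  have hcr : x ∉ rest U F := fun hh => (mem_rest.1 hh).2 C M.mem hcC
  have hrest : rest U (insert (insert w (C.erase x)) (F.erase C))
      = insert x ((rest U F).erase w) := by
    rw [o2]
    ext z
    simp only [Finset.mem_sdiff, Finset.mem_union, Finset.mem_insert, Finset.mem_erase]
    constructor
    · rintro ⟨h1 | h1, h2⟩
      · left
        by_contra h3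
        exact h2 (Or.inr ⟨h3, h1⟩)
      · exact Or.inr ⟨fun h3 => h2 (Or.inl h3), h1⟩
    · rintro (h1 | ⟨h1, h2⟩)
      · subst h1
        refine ⟨Or.inl hcC, ?_⟩
        rintro (h3 | h3)
        · exact hwC (h3 ▸ hcC)
        · exact h3.1 rfl
      · refine ⟨Or.inr h2, ?_⟩
        rintro (h3 | h3)
        · exact h1 h3
        · exact (mem_rest.1 h2).2 C M.mem h3.2
  have h1 := M.mx _ a b l o1 hP (by
    intro z hz
    rw [hrest]
    rcases hlm z hz with h | ⟨h, h'⟩
    · rw [h]; exact Finset.mem_insert_self _ _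
    · exact Finset.mem_insert_of_mem (Finset.mem_erase.2 ⟨h', h⟩)) hl
  have hxK : x ∉ (rest U F).erase w := fun hh => hcr (Finset.mem_of_mem_erase hh)
  have hwK : w ∉ (rest U F).erase w := Finset.notMem_erase _ _
  have hH : rest U F = insert w ((rest U F).erase w) := (Finset.insert_erase hw).symm
  have h2 : eS G (rest U F) (rest U F) = eS G ((rest U F).erase w) ((rest U F).erase w)
      + 2 * dg G ((rest U F).erase w) w := by
    conv_lhs => rw [hH]
    exact eS_insert49 hwK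
  have h3 : dg G (rest U F) w = dg G ((rest U F).erase w) w := by
    conv_lhs => rw [hH]
    exact dg_insert_self49 hwK
  rw [hrest, eS_insert49 hxK, h2] at h1
  omega

/-! ### by indices -/

/-- five different indices -/
def nd61 (i0 i1 i2 i3 i4 : Fin 5) : Bool := decide ([i0, i1, i2, i3, i4].Nodup)

theorem nd61_spec {i0 i1 i2 i3 i4 : Fin 5} (h : nd61 i0 i1 i2 i3 i4 = true) :
    i0 ≠ i1 ∧ i0 ≠ i2 ∧ i0 ≠ i3 ∧ i0 ≠ i4 ∧ i1 ≠ i2 ∧ i1 ≠ i3 ∧ i1 ≠ i4 ∧ i2 ≠ i3 ∧ i2 ≠ i4 ∧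
      i3 ≠ i4 := by
  unfold nd61 at h
  have h' := of_decide_eq_true h
  simp only [List.nodup_cons, List.mem_cons, List.not_mem_nil, or_false, not_or,
    List.nodup_nil, and_true, not_false_eq_true] at h'
  tauto

theorem Mb61.mvF (M : Mb61 G U F c p) (i0 i1 i2 i3 i4 : Fin 5)
    (hnd : nd61 i0 i1 i2 i3 i4 = true) (e1 : G.Adj (p i1) (p i2)) (e2 : G.Adj (p i2) (p i3))
    (e3 : G.Adj (p i3) (p i4)) (n : ℕ)
    (a1 : G.Adj (p i0) (cf c M.pos n)) (a2 : G.Adj (p i0) (cf c M.pos (n + 2)))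
    (a3 : G.Adj (p i1) (cf c M.pos (n + 1))) (a4 : G.Adj (p i4) (cf c M.pos (n + 1))) :
    False := by
  obtain ⟨h01, h02, h03, h04, h12, h13, h14, h23, h24, h34⟩ := nd61_spec hnd
  refine M.mv n (M.rst i0) (pth4_61 e1 e2 e3 (M.inj.ne h13) (M.inj.ne h14) (M.inj.ne h24)) ?_ ?_
    (by simp) a1 a2 a3 a4
  · intro z hz
    simp only [List.mem_cons, List.not_mem_nil, or_false] at hz
    rcases hz with rfl | rfl | rfl | rfl <;> exact M.rst _
  · simp only [List.mem_cons, List.not_mem_nil, or_false, not_or]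
    exact ⟨M.inj.ne h01, M.inj.ne h02, M.inj.ne h03, M.inj.ne h04⟩

theorem Mb61.arF (M : Mb61 G U F c p) (i0 i1 i2 i3 i4 : Fin 5)
    (hnd : nd61 i0 i1 i2 i3 i4 = true) (e1 : G.Adj (p i0) (p i1)) (e2 : G.Adj (p i2) (p i3))
    (e3 : G.Adj (p i3) (p i4)) (n : ℕ)
    (a1 : G.Adj (p i0) (cf c M.pos n)) (a2 : G.Adj (p i1) (cf c M.pos (n + 2)))
    (a3 : G.Adj (p i2) (cf c M.pos (n + 3))) (a4 : G.Adj (p i4) (cf c M.pos (n + 4))) :
    False := by
  obtain ⟨h01, h02, h03, h04, h12, h13, h14, h23, h24, h34⟩ := nd61_spec hnd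
  refine M.ar n (pth2_61 e1) (pth3_61 e2 e3 (M.inj.ne h24)) ?_ ?_ ?_ (by simp) (by simp)
    a1 a2 a3 a4
  · intro z hz
    simp only [List.mem_cons, List.not_mem_nil, or_false] at hz
    rcases hz with rfl | rfl <;> exact M.rst _
  · intro z hz
    simp only [List.mem_cons, List.not_mem_nil, or_false] at hz
    rcases hz with rfl | rfl | rfl <;> exact M.rst _
  · intro z hz
    simp only [List.mem_cons, List.not_mem_nil, or_false] at hz ⊢
    rcases hz with rfl | rfl
    · rintro (h | h | h)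
      · exact h02 (M.inj h)
      · exact h03 (M.inj h)
      · exact h04 (M.inj h)
    · rintro (h | h | h)
      · exact h12 (M.inj h)
      · exact h13 (M.inj h)
      · exact h14 (M.inj h)

/-- the degree of `x` into the four vertices -/
theorem Mb61.dg_erase (M : Mb61 G U F c p) (i0 : Fin 5) (x : V) {S : Finset (Fin 5)}
    (hS : i0 ∉ S) (hx : ∀ i ∈ S, G.Adj x (p i)) : S.card ≤ dg G ((rest U F).erase (p i0)) x := by
  classical
  unfold dg
  rw [← Finset.card_image_of_injective S M.inj]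
  refine Finset.card_le_card fun z hz => ?_
  obtain ⟨i, hi, rfl⟩ := Finset.mem_image.1 hz
  exact Finset.mem_filter.2 ⟨Finset.mem_erase.2 ⟨fun h => hS (M.inj h ▸ hi), M.rst i⟩, hx i hi⟩

/-- swap, the new vertex first on the path -/
theorem Mb61.swF1 (M : Mb61 G U F c p) (i0 i1 i2 i3 i4 : Fin 5)
    (hnd : nd61 i0 i1 i2 i3 i4 = true) (e1 : G.Adj (p i1) (p i2)) (e2 : G.Adj (p i2) (p i3))
    (e3 : G.Adj (p i3) (p i4)) (n : ℕ)
    (a1 : G.Adj (p i0) (cf c M.pos n)) (a2 : G.Adj (p i0) (cf c M.pos (n + 2)))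
    (a3 : G.Adj (p i1) (cf c M.pos (n + 1))) {S : Finset (Fin 5)} (hS : i0 ∉ S)
    (hx : ∀ i ∈ S, G.Adj (p i) (cf c M.pos (n + 1))) (hd : dg G (rest U F) (p i0) < S.card) :
    False := by
  obtain ⟨h01, h02, h03, h04, h12, h13, h14, h23, h24, h34⟩ := nd61_spec hnd
  have hne : ∀ i, cf c M.pos (n + 1) ≠ p i := fun i h => M.rc (M.rst i) (h ▸ cf_mem M.pos _)
  refine M.sw n (M.rst i0) a1 a2 (pth5_61 a3.symm e1 e2 e3 (hne _) (hne _) (hne _)
    (M.inj.ne h13) (M.inj.ne h14) (M.inj.ne h24)) (by simp) ?_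
    (hd.trans_le (M.dg_erase i0 _ hS fun i hi => (hx i hi).symm))
  intro z hz
  simp only [List.mem_cons, List.not_mem_nil, or_false] at hz
  rcases hz with rfl | rfl | rfl | rfl | rfl
  · exact Or.inl rfl
  · exact Or.inr ⟨M.rst _, M.inj.ne h01.symm⟩
  · exact Or.inr ⟨M.rst _, M.inj.ne h02.symm⟩
  · exact Or.inr ⟨M.rst _, M.inj.ne h03.symm⟩
  · exact Or.inr ⟨M.rst _, M.inj.ne h04.symm⟩

/-- swap, the new vertex second on the path -/
theorem Mb61.swF2 (M : Mb61 G U F c p) (i0 i1 i2 i3 i4 : Fin 5)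
    (hnd : nd61 i0 i1 i2 i3 i4 = true) (e2 : G.Adj (p i2) (p i3))
    (e3 : G.Adj (p i3) (p i4)) (n : ℕ)
    (a1 : G.Adj (p i0) (cf c M.pos n)) (a2 : G.Adj (p i0) (cf c M.pos (n + 2)))
    (a3 : G.Adj (p i1) (cf c M.pos (n + 1))) (a4 : G.Adj (p i2) (cf c M.pos (n + 1)))
    {S : Finset (Fin 5)} (hS : i0 ∉ S)
    (hx : ∀ i ∈ S, G.Adj (p i) (cf c M.pos (n + 1))) (hd : dg G (rest U F) (p i0) < S.card) :
    False := by
  obtain ⟨h01, h02, h03, h04, h12, h13, h14, h23, h24, h34⟩ := nd61_spec hnd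
  have hne : ∀ i, cf c M.pos (n + 1) ≠ p i := fun i h => M.rc (M.rst i) (h ▸ cf_mem M.pos _)
  refine M.sw n (M.rst i0) a1 a2 (pth5_61 a3 a4.symm e2 e3 (M.inj.ne h12) (M.inj.ne h13)
    (M.inj.ne h14) (hne _) (hne _) (M.inj.ne h24)) (by simp) ?_
    (hd.trans_le (M.dg_erase i0 _ hS fun i hi => (hx i hi).symm))
  intro z hz
  simp only [List.mem_cons, List.not_mem_nil, or_false] at hz
  rcases hz with rfl | rfl | rfl | rfl | rfl
  · exact Or.inr ⟨M.rst _, M.inj.ne h01.symm⟩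
  · exact Or.inl rfl
  · exact Or.inr ⟨M.rst _, M.inj.ne h02.symm⟩
  · exact Or.inr ⟨M.rst _, M.inj.ne h03.symm⟩
  · exact Or.inr ⟨M.rst _, M.inj.ne h04.symm⟩

end Pool.Agent.P0
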