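import Pool.Agent.P0.Five61E

set_option linter.all false

/-!
# P0, item I7, `r = 5`, `n = 5 k`: the bound per member
-/

namespace Pool.Agent.P0

open Pool.Agent.Helper14.LongCyc Pool.Agent.LCK Pool.Agent.FRC

universe u

variable {V : Type u} [DecidableEq V] {G : SimpleGraph V}
variable {U : Finset V} {F : Finset (Finset V)} {c : List V} {p : Fin 5 → V}

theorem Mb61.ad (M : Mb61 G U F c p) {i : Fin 5} {n : ℕ}
    (h : bit61 G c M.pos (p i) n = true) : G.Adj (p i) (cf c M.pos n) := (bit61_iff M.pos).1 h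

theorem Mb61.ad5 (M : Mb61 G U F c p) {i : Fin 5} {n : ℕ}
    (h : bit61 G c M.pos (p i) n = true) : G.Adj (p i) (cf c M.pos (n + 5)) := by
  rw [M.wrap]
  exact M.ad h

theorem Mb61.per (M : Mb61 G U F c p) (i : Fin 5) (n : ℕ) :
    bit61 G c M.pos (p i) (n + 5) = bit61 G c M.pos (p i) n := by
  have := bit61_add (G := G) M.pos (p i) n
  rwa [M.len] at this

theorem Mb61.sum (M : Mb61 G U F c p) (i : Fin 5) :
    ∑ j ∈ Finset.range 5, (bit61 G c M.pos (p i) j).toNat = dg G c.toFinset (p i) := by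
  have := bit61_sum (G := G) M.pos (Cyc.nodup M.cyc) (p i)
  rwa [M.len] at this

/-- case A: one end of the path has degree one in the rest -/
theorem Mb61.mA (M : Mb61 G U F c p) (e01 : G.Adj (p 0) (p 1)) (e12 : G.Adj (p 1) (p 2))
    (e23 : G.Adj (p 2) (p 3)) (e34 : G.Adj (p 3) (p 4)) (hb : dg G (rest U F) (p 4) < 2) :
    2 * dg G c.toFinset (p 0) + 2 * dg G c.toFinset (p 4) + dg G c.toFinset (p 1)
      + dg G c.toFinset (p 2) ≤ 20 := by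
  have key := coreA61 (bit61 G c M.pos (p 0)) (bit61 G c M.pos (p 1)) (bit61 G c M.pos (p 2))
    (bit61 G c M.pos (p 4)) (M.per 0) (M.per 1) (M.per 2) (M.per 4)
    (fun n h1 h2 h3 h4 => M.mvF 0 1 2 3 4 (by decide) e12 e23 e34 n (M.ad h1) (M.ad h2) (M.ad h3)
      (M.ad h4))
    (fun n h1 h2 h3 h4 => M.swF1 4 0 1 2 3 (by decide) e01 e12 e23 n (M.ad h1) (M.ad h2) (M.ad h3)
      (S := {0, 2}) (by decide) (by
        intro i hi
        simp only [Finset.mem_insert, Finset.mem_singleton] at hi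
        rcases hi with rfl | rfl
        · exact M.ad h3
        · exact M.ad h4) hb)
    (fun n h1 h2 h3 h4 => M.arF 0 1 2 3 4 (by decide) e01 e23 e34 n (M.ad h1) (M.ad h2) (M.ad h3)
      (M.ad h4))
    (fun n h1 h2 h3 h4 => M.arF 0 1 4 3 2 (by decide) e01 e34.symm e23.symm n (M.ad h1) (M.ad h2)
      (M.ad h3) (M.ad h4))
    (fun n h1 h2 h3 h4 => M.arF 1 0 2 3 4 (by decide) e01.symm e23 e34 n (M.ad h1) (M.ad h2)
      (M.ad h3) (M.ad h4))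
    (fun n h1 h2 h3 h4 => M.arF 1 0 4 3 2 (by decide) e01.symm e34.symm e23.symm n (M.ad h1)
      (M.ad h2) (M.ad h3) (M.ad h4))
  rw [M.sum, M.sum, M.sum, M.sum] at key
  exact key

/-- case B: the bowtie -/
theorem Mb61.mB (M : Mb61 G U F c p) (e01 : G.Adj (p 0) (p 1)) (e12 : G.Adj (p 1) (p 2))
    (e23 : G.Adj (p 2) (p 3)) (e34 : G.Adj (p 3) (p 4)) (e02 : G.Adj (p 0) (p 2))
    (e24 : G.Adj (p 2) (p 4)) :
    dg G c.toFinset (p 0) + dg G c.toFinset (p 1) + dg G c.toFinset (p 3)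
      + dg G c.toFinset (p 4) ≤ 13 := by
  have key := coreB61 (bit61 G c M.pos (p 0)) (bit61 G c M.pos (p 1)) (bit61 G c M.pos (p 3))
    (bit61 G c M.pos (p 4)) (M.per 0) (M.per 1) (M.per 3) (M.per 4)
    (fun n h1 h2 h3 h4 => M.arF 1 0 4 2 3 (by decide) e01.symm e24.symm e23 (n + 2) (M.ad h3)
      (M.ad h4) (M.ad5 h1) (M.ad5 h2))
    (fun n h1 h2 h3 h4 => M.arF 0 1 3 2 4 (by decide) e01 e23.symm e24 (n + 1) (M.ad h4)
      (M.ad h3) (M.ad h2) (M.ad5 h1))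
    (fun n h1 h2 h3 h4 => M.arF 3 4 0 2 1 (by decide) e34 e02 e12.symm (n + 2) (M.ad h3)
      (M.ad h4) (M.ad5 h1) (M.ad5 h2))
    (fun n h1 h2 h3 h4 => M.arF 4 3 1 2 0 (by decide) e34.symm e12 e02.symm (n + 1) (M.ad h4)
      (M.ad h3) (M.ad h2) (M.ad5 h1))
    (fun n h1 h2 h3 h4 => M.mvF 1 0 2 3 4 (by decide) e02 e23 e34 n (M.ad h1) (M.ad h2) (M.ad h3)
      (M.ad h4))
    (fun n h1 h2 h3 h4 => M.mvF 3 4 2 1 0 (by decide) e24.symm e12.symm e01.symm n (M.ad h1)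
      (M.ad h2) (M.ad h3) (M.ad h4))
    (fun n h1 h2 h3 h4 => M.mvF 1 0 2 4 3 (by decide) e02 e24 e34.symm n (M.ad h1)
      (M.ad h2) (M.ad h3) (M.ad h4))
    (fun n h1 h2 h3 h4 => M.mvF 3 4 2 0 1 (by decide) e24.symm e02.symm e01 n (M.ad h1)
      (M.ad h2) (M.ad h3) (M.ad h4))
  rw [M.sum, M.sum, M.sum, M.sum] at key
  exact key

/-- case C: `K₂ ∨ 3K₁` -/
theorem Mb61.mC (M : Mb61 G U F c p) (e01 : G.Adj (p 0) (p 1)) (e12 : G.Adj (p 1) (p 2))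
    (e23 : G.Adj (p 2) (p 3)) (e34 : G.Adj (p 3) (p 4)) (e03 : G.Adj (p 0) (p 3))
    (e14 : G.Adj (p 1) (p 4)) (e13 : G.Adj (p 1) (p 3)) :
    dg G c.toFinset (p 0) + 2 * dg G c.toFinset (p 2) + 2 * dg G c.toFinset (p 4)
      + dg G c.toFinset (p 3) ≤ 20 := by
  have key := coreC61 (bit61 G c M.pos (p 0)) (bit61 G c M.pos (p 2)) (bit61 G c M.pos (p 3))
    (bit61 G c M.pos (p 4)) (M.per 0) (M.per 2) (M.per 3) (M.per 4)
    (fun n h1 h2 h3 h4 => M.arF 4 3 0 1 2 (by decide) e34.symm e01 e12 n (M.ad h1)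
      (M.ad h2) (M.ad h3) (M.ad h4))
    (fun n h1 h2 h3 h4 => M.arF 3 4 2 1 0 (by decide) e34 e12.symm e01.symm (n + 3) (M.ad h2)
      (M.ad5 h1) (M.ad5 h4) (M.ad5 h3))
    (fun n h1 h2 h3 h4 => M.mvF 2 0 1 3 4 (by decide) e01 e13 e34 n (M.ad h1) (M.ad h2) (M.ad h3)
      (M.ad h4))
    (fun n h1 h2 h3 h4 => M.mvF 4 2 1 0 3 (by decide) e12.symm e01.symm e03 n (M.ad h1) (M.ad h2)
      (M.ad h3) (M.ad h4))
    (fun n h1 h2 h3 h4 => M.arF 3 0 4 1 2 (by decide) e03.symm e14.symm e12 (n + 2) (M.ad h3)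
      (M.ad h4) (M.ad5 h1) (M.ad5 h2))
    (fun n h1 h2 h3 h4 => M.arF 0 3 2 1 4 (by decide) e03 e12.symm e14 (n + 1) (M.ad h4)
      (M.ad h3) (M.ad h2) (M.ad5 h1))
  rw [M.sum, M.sum, M.sum, M.sum] at key
  exact key

/-- case D: `K_{2,3}` -/
theorem Mb61.mD (M : Mb61 G U F c p) (e01 : G.Adj (p 0) (p 1)) (e12 : G.Adj (p 1) (p 2))
    (e23 : G.Adj (p 2) (p 3)) (e34 : G.Adj (p 3) (p 4)) (e03 : G.Adj (p 0) (p 3))
    (e14 : G.Adj (p 1) (p 4)) (hb : dg G (rest U F) (p 1) < 4) (hB : dg G (rest U F) (p 3) < 4) :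
    dg G c.toFinset (p 0) + dg G c.toFinset (p 2) + dg G c.toFinset (p 4)
      + dg G c.toFinset (p 1) + dg G c.toFinset (p 3) ≤ 16 := by
  have key := coreD61 (bit61 G c M.pos (p 0)) (bit61 G c M.pos (p 1)) (bit61 G c M.pos (p 2))
    (bit61 G c M.pos (p 3)) (bit61 G c M.pos (p 4)) (M.per 0) (M.per 1) (M.per 2) (M.per 3)
    (M.per 4)
    (fun n h1 h2 h3 h4 => M.mvF 0 2 3 4 1 (by decide) e23 e34 e14.symm n (M.ad h1) (M.ad h2)
      (M.ad h3) (M.ad h4))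
    (fun n h1 h2 h3 h4 => M.mvF 0 4 3 2 1 (by decide) e34.symm e23.symm e12.symm n (M.ad h1)
      (M.ad h2) (M.ad h3) (M.ad h4))
    (fun n h1 h2 h3 h4 => M.mvF 2 0 3 4 1 (by decide) e03 e34 e14.symm n (M.ad h1) (M.ad h2)
      (M.ad h3) (M.ad h4))
    (fun n h1 h2 h3 h4 => M.mvF 2 4 3 0 1 (by decide) e34.symm e03.symm e01 n (M.ad h1) (M.ad h2)
      (M.ad h3) (M.ad h4))
    (fun n h1 h2 h3 h4 => M.mvF 4 0 3 2 1 (by decide) e03 e23.symm e12.symm n (M.ad h1) (M.ad h2)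
      (M.ad h3) (M.ad h4))
    (fun n h1 h2 h3 h4 => M.mvF 4 2 3 0 1 (by decide) e23 e03.symm e01 n (M.ad h1) (M.ad h2)
      (M.ad h3) (M.ad h4))
    (fun n h1 h2 h3 h4 => M.mvF 0 2 1 4 3 (by decide) e12.symm e14 e34.symm n (M.ad h1) (M.ad h2)
      (M.ad h3) (M.ad h4))
    (fun n h1 h2 h3 h4 => M.mvF 0 4 1 2 3 (by decide) e14.symm e12 e23 n (M.ad h1) (M.ad h2)
      (M.ad h3) (M.ad h4))
    (fun n h1 h2 h3 h4 => M.mvF 2 0 1 4 3 (by decide) e01 e14 e34.symm n (M.ad h1) (M.ad h2)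
      (M.ad h3) (M.ad h4))
    (fun n h1 h2 h3 h4 => M.mvF 2 4 1 0 3 (by decide) e14.symm e01.symm e03 n (M.ad h1) (M.ad h2)
      (M.ad h3) (M.ad h4))
    (fun n h1 h2 h3 h4 => M.mvF 4 0 1 2 3 (by decide) e01 e12 e23 n (M.ad h1) (M.ad h2)
      (M.ad h3) (M.ad h4))
    (fun n h1 h2 h3 h4 => M.mvF 4 2 1 0 3 (by decide) e12.symm e01.symm e03 n (M.ad h1) (M.ad h2)
      (M.ad h3) (M.ad h4))
    (fun n h1 h2 h3 h4 => M.arF 0 1 2 3 4 (by decide) e01 e23 e34 n (M.ad h1) (M.ad h2) (M.ad h3)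
      (M.ad h4))
    (fun n h1 h2 h3 h4 => M.arF 0 1 4 3 2 (by decide) e01 e34.symm e23.symm n (M.ad h1) (M.ad h2)
      (M.ad h3) (M.ad h4))
    (fun n h1 h2 h3 h4 => M.arF 1 0 2 3 4 (by decide) e01.symm e23 e34 n (M.ad h1) (M.ad h2)
      (M.ad h3) (M.ad h4))
    (fun n h1 h2 h3 h4 => M.arF 1 0 4 3 2 (by decide) e01.symm e34.symm e23.symm n (M.ad h1)
      (M.ad h2) (M.ad h3) (M.ad h4))
    (fun n h1 h2 h3 h4 => M.arF 4 3 2 1 0 (by decide) e34.symm e12.symm e01.symm n (M.ad h1)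
      (M.ad h2) (M.ad h3) (M.ad h4))
    (fun n h1 h2 h3 h4 => M.arF 4 3 0 1 2 (by decide) e34.symm e01 e12 n (M.ad h1)
      (M.ad h2) (M.ad h3) (M.ad h4))
    (fun n h1 h2 h3 h4 => M.arF 3 4 2 1 0 (by decide) e34 e12.symm e01.symm n (M.ad h1)
      (M.ad h2) (M.ad h3) (M.ad h4))
    (fun n h1 h2 h3 h4 => M.arF 3 4 0 1 2 (by decide) e34 e01 e12 n (M.ad h1)
      (M.ad h2) (M.ad h3) (M.ad h4))
    (fun n h1 h2 h3 h4 h5 h6 => M.swF2 1 0 2 3 4 (by decide) e23 e34 n (M.ad h1) (M.ad h2)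
      (M.ad h3) (M.ad h4) (S := {0, 2, 3, 4}) (by decide) (by
        intro i hi
        simp only [Finset.mem_insert, Finset.mem_singleton] at hi
        rcases hi with rfl | rfl | rfl | rfl
        · exact M.ad h3
        · exact M.ad h4
        · exact M.ad h6
        · exact M.ad h5) hb)
    (fun n h1 h2 h3 h4 h5 h6 => M.swF2 3 4 2 1 0 (by decide) e12.symm e01.symm n (M.ad h1)
      (M.ad h2) (M.ad h5) (M.ad h4) (S := {0, 1, 2, 4}) (by decide) (by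
        intro i hi
        simp only [Finset.mem_insert, Finset.mem_singleton] at hi
        rcases hi with rfl | rfl | rfl | rfl
        · exact M.ad h3
        · exact M.ad h6
        · exact M.ad h4
        · exact M.ad h5) hB)
  rw [M.sum, M.sum, M.sum, M.sum, M.sum] at key
  exact key

end Pool.Agent.P0
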