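import Pool.Agent.P0.Five61F
import Pool.Agent.P0.Fin41

set_option linter.all false

/-!
# P0, item I7, `r = 5`, `n = 5 k`: the end
-/

namespace Pool.Agent.P0

open Pool.Agent.Helper14.LongCyc Pool.Agent.LCK Pool.Agent.FRC

universe u

variable {V : Type u} [DecidableEq V] {G : SimpleGraph V}
variable {U : Finset V} {F : Finset (Finset V)} {c : List V} {p : Fin 5 → V}

/-- the situation: all members have five vertices, the rest has five vertices and a Hamilton
path, and the number of edges of the rest is as large as possible -/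
structure Si61 (G : SimpleGraph V) (U : Finset V) (F : Finset (Finset V)) (p : Fin 5 → V) :
    Prop where
  opt : Opt49 G U 5 F
  inj : Function.Injective p
  rst : ∀ i, p i ∈ rest U F
  all : ∀ z ∈ rest U F, ∃ i, p i = z
  mx : ∀ F' a b l, Opt49 G U 5 F' → Pth G a b l → (∀ z ∈ l, z ∈ rest U F') → l.length = 5 →
    eS G (rest U F') (rest U F') ≤ eS G (rest U F) (rest U F)
  len : ∀ C ∈ F, C.card = 5
  e01 : G.Adj (p 0) (p 1)
  e12 : G.Adj (p 1) (p 2)
  e23 : G.Adj (p 2) (p 3)
  e34 : G.Adj (p 3) (p 4)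

theorem Si61.mb (S : Si61 G U F p) {C : Finset V} (hC : C ∈ F) :
    ∃ c : List V, c.toFinset = C ∧ Mb61 G U F c p := by
  obtain ⟨c, hc, hs⟩ := S.opt.fam.cyc C hC
  have hn := Cyc.nodup hc
  have hCc : c.toFinset = C := by
    ext z; rw [List.mem_toFinset]; exact hs z
  refine ⟨c, hCc, S.opt, hc, ?_, by rw [hCc]; exact hC, S.inj, S.rst, S.mx⟩
  rw [← S.len C hC, ← hCc, List.toFinset_card_of_nodup hn]

theorem Si61.rev (S : Si61 G U F p) : Si61 G U F (fun i => p (Fin.rev i)) where
  opt := S.opt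
  inj := S.inj.comp Fin.rev_injective
  rst := fun i => S.rst _
  all := fun z hz => by
    obtain ⟨i, hi⟩ := S.all z hz
    exact ⟨Fin.rev i, by rw [Fin.rev_rev]; exact hi⟩
  mx := S.mx
  len := S.len
  e01 := S.e34.symm
  e12 := S.e23.symm
  e23 := S.e12.symm
  e34 := S.e01.symm

/-- no Hamilton cycle of the rest -/
theorem Si61.ham (S : Si61 G U F p) (i0 i1 i2 i3 i4 : Fin 5)
    (hnd : nd61 i0 i1 i2 i3 i4 = true) (e0 : G.Adj (p i0) (p i1)) (e1 : G.Adj (p i1) (p i2))
    (e2 : G.Adj (p i2) (p i3)) (e3 : G.Adj (p i3) (p i4)) (e4 : G.Adj (p i4) (p i0)) : False := by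
  obtain ⟨h01, h02, h03, h04, h12, h13, h14, h23, h24, h34⟩ := nd61_spec hnd
  have h := S.opt.noLong [p i0, p i1, p i2, p i3, p i4] ⟨by simp, _, _,
    pth5_61 e0 e1 e2 e3 (S.inj.ne h02) (S.inj.ne h03) (S.inj.ne h04) (S.inj.ne h13)
      (S.inj.ne h14) (S.inj.ne h24), e4⟩ (by
    intro z hz
    simp only [List.mem_cons, List.not_mem_nil, or_false] at hz
    rcases hz with rfl | rfl | rfl | rfl | rfl <;> exact S.rst _)
  simp at h

theorem Si61.dgl (S : Si61 G U F p) (i : Fin 5) (T : Finset (Fin 5))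
    (h : ∀ j, j ∉ T → ¬ G.Adj (p i) (p j)) : dg G (rest U F) (p i) ≤ T.card := by
  classical
  unfold dg
  rw [← Finset.card_image_of_injective T S.inj]
  refine Finset.card_le_card fun z hz => ?_
  rw [Finset.mem_filter] at hz
  obtain ⟨j, rfl⟩ := S.all z hz.1
  by_contra hcon
  refine h j (fun hj => hcon (Finset.mem_image_of_mem _ hj)) hz.2

theorem Si61.deg (S : Si61 G U F p) {k : ℕ} (hdeg : ∀ v ∈ U, 2 * k * 5 ≤ 3 * dg G U v)
    (i : Fin 5) : 10 * k ≤ 3 * dg G (rest U F) (p i) + 3 * ∑ C ∈ F, dg G C (p i) := by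
  have h := hdeg _ (rest_subset _ _ (S.rst i))
  rw [S.opt.fam.dg_split] at h
  omega

/-- an end of the path of degree one -/
theorem Si61.cA (S : Si61 G U F p) {k : ℕ} (hk : F.card + 1 = k)
    (hdeg : ∀ v ∈ U, 2 * k * 5 ≤ 3 * dg G U v) (h14 : ¬ G.Adj (p 1) (p 4))
    (h24 : ¬ G.Adj (p 2) (p 4)) : False := by
  have h04 : ¬ G.Adj (p 0) (p 4) := fun h =>
    S.ham 0 1 2 3 4 (by decide) S.e01 S.e12 S.e23 S.e34 h.symm
  have d0 := S.dgl 0 {1, 2, 3} (fun j hj => match j, hj with
    | 0, _ => G.loopless.irrefl _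
    | 1, h => absurd (by decide) h
    | 2, h => absurd (by decide) h
    | 3, h => absurd (by decide) h
    | 4, _ => h04)
  have d1 := S.dgl 1 {0, 2, 3} (fun j hj => match j, hj with
    | 0, h => absurd (by decide) h
    | 1, _ => G.loopless.irrefl _
    | 2, h => absurd (by decide) h
    | 3, h => absurd (by decide) h
    | 4, _ => h14)
  have d2 := S.dgl 2 {0, 1, 3} (fun j hj => match j, hj with
    | 0, h => absurd (by decide) h
    | 1, h => absurd (by decide) h
    | 2, _ => G.loopless.irrefl _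
    | 3, h => absurd (by decide) h
    | 4, _ => h24)
  have d4 := S.dgl 4 {3} (fun j hj => match j, hj with
    | 0, _ => fun h => h04 h.symm
    | 1, _ => fun h => h14 h.symm
    | 2, _ => fun h => h24 h.symm
    | 3, h => absurd (by decide) h
    | 4, _ => G.loopless.irrefl _)
  have c0 : ({1, 2, 3} : Finset (Fin 5)).card = 3 := by decide
  have c1 : ({0, 2, 3} : Finset (Fin 5)).card = 3 := by decide
  have c2 : ({0, 1, 3} : Finset (Fin 5)).card = 3 := by decide
  have c4 : ({3} : Finset (Fin 5)).card = 1 := by decide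
  have h5 : ∑ C ∈ F, (2 * dg G C (p 0) + 2 * dg G C (p 4) + dg G C (p 1) + dg G C (p 2))
      ≤ F.card * 20 := by
    rw [← smul_eq_mul]
    refine Finset.sum_le_card_nsmul _ _ _ fun C hC => ?_
    obtain ⟨c, rfl, M⟩ := S.mb hC
    exact M.mA S.e01 S.e12 S.e23 S.e34 (by omega)
  simp only [Finset.sum_add_distrib, ← Finset.mul_sum] at h5
  have g0 := S.deg hdeg 0
  have g1 := S.deg hdeg 1
  have g2 := S.deg hdeg 2
  have g4 := S.deg hdeg 4
  omega

theorem Si61.false (S : Si61 G U F p) {k : ℕ} (hk : F.card + 1 = k)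
    (hdeg : ∀ v ∈ U, 2 * k * 5 ≤ 3 * dg G U v) : False := by
  have h04 : ¬ G.Adj (p 0) (p 4) := fun h =>
    S.ham 0 1 2 3 4 (by decide) S.e01 S.e12 S.e23 S.e34 h.symm
  have g0 := S.deg hdeg 0
  have g1 := S.deg hdeg 1
  have g2 := S.deg hdeg 2
  have g3 := S.deg hdeg 3
  have g4 := S.deg hdeg 4
  by_cases h1 : ¬ G.Adj (p 1) (p 4) ∧ ¬ G.Adj (p 2) (p 4)
  · exact S.cA hk hdeg h1.1 h1.2
  by_cases h2 : ¬ G.Adj (p 0) (p 2) ∧ ¬ G.Adj (p 0) (p 3)
  · exact S.rev.cA hk hdeg (fun h => h2.2 h.symm) (fun h => h2.1 h.symm)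
  by_cases x02 : G.Adj (p 0) (p 2)
  · -- the bowtie
    have x14 : ¬ G.Adj (p 1) (p 4) := fun h =>
      S.ham 0 1 4 3 2 (by decide) S.e01 h S.e34.symm S.e23.symm x02.symm
    have x24 : G.Adj (p 2) (p 4) := by
      by_contra h
      exact h1 ⟨x14, h⟩
    have x03 : ¬ G.Adj (p 0) (p 3) := fun h =>
      S.ham 0 3 4 2 1 (by decide) h S.e34 x24.symm S.e12.symm S.e01.symm
    have x13 : ¬ G.Adj (p 1) (p 3) := fun h =>
      S.ham 0 1 3 4 2 (by decide) S.e01 h S.e34 x24.symm x02.symm
    have d0 := S.dgl 0 {1, 2} (fun j hj => match j, hj with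
      | 0, _ => G.loopless.irrefl _
      | 1, h => absurd (by decide) h
      | 2, h => absurd (by decide) h
      | 3, _ => x03
      | 4, _ => h04)
    have d1 := S.dgl 1 {0, 2} (fun j hj => match j, hj with
      | 0, h => absurd (by decide) h
      | 1, _ => G.loopless.irrefl _
      | 2, h => absurd (by decide) h
      | 3, _ => x13
      | 4, _ => x14)
    have d3 := S.dgl 3 {2, 4} (fun j hj => match j, hj with
      | 0, _ => fun h => x03 h.symm
      | 1, _ => fun h => x13 h.symm
      | 2, h => absurd (by decide) h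
      | 3, _ => G.loopless.irrefl _
      | 4, h => absurd (by decide) h)
    have d4 := S.dgl 4 {2, 3} (fun j hj => match j, hj with
      | 0, _ => fun h => h04 h.symm
      | 1, _ => fun h => x14 h.symm
      | 2, h => absurd (by decide) h
      | 3, h => absurd (by decide) h
      | 4, _ => G.loopless.irrefl _)
    have c0 : ({1, 2} : Finset (Fin 5)).card = 2 := by decide
    have c1 : ({0, 2} : Finset (Fin 5)).card = 2 := by decide
    have c3 : ({2, 4} : Finset (Fin 5)).card = 2 := by decide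
    have c4 : ({2, 3} : Finset (Fin 5)).card = 2 := by decide
    have h5 : ∑ C ∈ F, (dg G C (p 0) + dg G C (p 1) + dg G C (p 3) + dg G C (p 4))
        ≤ F.card * 13 := by
      rw [← smul_eq_mul]
      refine Finset.sum_le_card_nsmul _ _ _ fun C hC => ?_
      obtain ⟨c, rfl, M⟩ := S.mb hC
      exact M.mB S.e01 S.e12 S.e23 S.e34 x02 x24
    simp only [Finset.sum_add_distrib, ← Finset.mul_sum] at h5
    omega
  · have x03 : G.Adj (p 0) (p 3) := by
      by_contra h
      exact h2 ⟨x02, h⟩
    have x24 : ¬ G.Adj (p 2) (p 4) := fun h =>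
      S.ham 0 3 4 2 1 (by decide) x03 S.e34 h.symm S.e12.symm S.e01.symm
    have x14 : G.Adj (p 1) (p 4) := by
      by_contra h
      exact h1 ⟨h, x24⟩
    have d0 := S.dgl 0 {1, 3} (fun j hj => match j, hj with
      | 0, _ => G.loopless.irrefl _
      | 1, h => absurd (by decide) h
      | 2, _ => x02
      | 3, h => absurd (by decide) h
      | 4, _ => h04)
    have d2 := S.dgl 2 {1, 3} (fun j hj => match j, hj with
      | 0, _ => fun h => x02 h.symm
      | 1, h => absurd (by decide) h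
      | 2, _ => G.loopless.irrefl _
      | 3, h => absurd (by decide) h
      | 4, _ => x24)
    have d4 := S.dgl 4 {1, 3} (fun j hj => match j, hj with
      | 0, _ => fun h => h04 h.symm
      | 1, h => absurd (by decide) h
      | 2, _ => fun h => x24 h.symm
      | 3, h => absurd (by decide) h
      | 4, _ => G.loopless.irrefl _)
    have c0 : ({1, 3} : Finset (Fin 5)).card = 2 := by decide
    by_cases x13 : G.Adj (p 1) (p 3)
    · have d3 := S.dgl 3 {0, 1, 2, 4} (fun j hj => match j, hj with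
        | 0, h => absurd (by decide) h
        | 1, h => absurd (by decide) h
        | 2, h => absurd (by decide) h
        | 3, _ => G.loopless.irrefl _
        | 4, h => absurd (by decide) h)
      have c3 : ({0, 1, 2, 4} : Finset (Fin 5)).card = 4 := by decide
      have h5 : ∑ C ∈ F, (dg G C (p 0) + 2 * dg G C (p 2) + 2 * dg G C (p 4) + dg G C (p 3))
          ≤ F.card * 20 := by
        rw [← smul_eq_mul]
        refine Finset.sum_le_card_nsmul _ _ _ fun C hC => ?_
        obtain ⟨c, rfl, M⟩ := S.mb hC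
        exact M.mC S.e01 S.e12 S.e23 S.e34 x03 x14 x13
      simp only [Finset.sum_add_distrib, ← Finset.mul_sum] at h5
      omega
    · have d1 := S.dgl 1 {0, 2, 4} (fun j hj => match j, hj with
        | 0, h => absurd (by decide) h
        | 1, _ => G.loopless.irrefl _
        | 2, h => absurd (by decide) h
        | 3, _ => x13
        | 4, h => absurd (by decide) h)
      have d3 := S.dgl 3 {0, 2, 4} (fun j hj => match j, hj with
        | 0, h => absurd (by decide) h
        | 1, _ => fun h => x13 h.symm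
        | 2, h => absurd (by decide) h
        | 3, _ => G.loopless.irrefl _
        | 4, h => absurd (by decide) h)
      have c3 : ({0, 2, 4} : Finset (Fin 5)).card = 3 := by decide
      have h5 : ∑ C ∈ F, (dg G C (p 0) + dg G C (p 2) + dg G C (p 4) + dg G C (p 1)
          + dg G C (p 3)) ≤ F.card * 16 := by
        rw [← smul_eq_mul]
        refine Finset.sum_le_card_nsmul _ _ _ fun C hC => ?_
        obtain ⟨c, rfl, M⟩ := S.mb hC
        exact M.mD S.e01 S.e12 S.e23 S.e34 x03 x14 (by omega) (by omega)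
      simp only [Finset.sum_add_distrib, ← Finset.mul_sum] at h5
      omega

theorem eS_le61 (A B : Finset V) : eS G A B ≤ A.card * B.card := by
  classical
  unfold eS
  rw [← smul_eq_mul]
  refine Finset.sum_le_card_nsmul _ _ _ fun x _ => ?_
  unfold dg
  exact Finset.card_filter_le _ _

/-- the core item for `r = 5` -/
theorem icoreEq_five61 (k : ℕ) : ICoreEq41.{u} k 5 := by
  intro V _ G U F v h hU hc hm hR hdeg
  obtain ⟨⟨F1, l⟩, ⟨a, b, h1, h2, h3, h4⟩, hmax⟩ := exists_max_nat
    (α := Finset (Finset V) × List V)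
    (fun w => ∃ a b, Opt49 G U 5 w.1 ∧ Pth G a b w.2 ∧ (∀ z ∈ w.2, z ∈ rest U w.1) ∧
      w.2.length = 5)
    (fun w => eS G (rest U w.1) (rest U w.1)) (5 * 5) (by
      rintro ⟨F1, l⟩ ⟨a, b, h1, h2, h3, h4⟩
      have := eS_le61 (G := G) (rest U F1) (rest U F1)
      rw [hR F1 h1] at this
      exact this)
    ⟨(F, seg v 0 4), v 0, v 4, h.opt, h.toP.path, h.toP.sub, by rw [seg_length]⟩
  obtain ⟨w, p1, p2, p3, p4⟩ := pa_of_pth49 h2 h3
  change l.length = 5 at h4
  rw [h4] at p1
  have hinj : Function.Injective (fun i : Fin 5 => w i.val) := fun i j hij =>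
    Fin.ext (p1.inj _ _ i.isLt j.isLt hij)
  have hmem : ∀ i : Fin 5, w i.val ∈ rest U F1 := fun i => p1.mem _ i.isLt
  have hall : ∀ z ∈ rest U F1, ∃ i : Fin 5, w i.val = z := by
    have e : Finset.univ.image (fun i : Fin 5 => w i.val) = rest U F1 := by
      refine Finset.eq_of_subset_of_card_le ?_ ?_
      · intro z hz
        obtain ⟨i, _, rfl⟩ := Finset.mem_image.1 hz
        exact hmem i
      · rw [hR F1 h1, Finset.card_image_of_injective _ hinj, Finset.card_univ, Fintype.card_fin]
    intro z hz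
    rw [← e] at hz
    obtain ⟨i, _, hi⟩ := Finset.mem_image.1 hz
    exact ⟨i, hi⟩
  have S : Si61 G U F1 (fun i : Fin 5 => w i.val) :=
    { opt := h1
      inj := hinj
      rst := hmem
      all := hall
      mx := fun F' a' b' l' k1 k2 k3 k4 => hmax (F', l') ⟨a', b', k1, k2, k3, k4⟩
      len := hm F1 h1
      e01 := p1.ch 0 (by norm_num)
      e12 := p1.ch 1 (by norm_num)
      e23 := p1.ch 2 (by norm_num)
      e34 := p1.ch 3 (by norm_num) }
  exact S.false (hc F1 h1) hdeg

theorem five61 {k : ℕ} (hk : 3 ≤ k) : T41.{u} k 5 (k * 5) :=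
  T41.of_core hk (by norm_num) (icoreEq_five61 k)

end Pool.Agent.P0
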