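import Pool.Agent.P0.Core49

set_option linter.all false

/-!
# P0, row I7 (C): four ends, the pure lemma S4

`x, y, z, w` are the adjacency indicators, along a cycle `ZMod r`, of four ends.
The only information is: if `u` is adjacent to `i - 1` and `i + 1`, then two other ends are not both
adjacent to `i` (for all triples except `(y; z, w)`).  Then the total is at most `8 r / 3`.
The proof is a potential function on pairs of consecutive states, checked by the kernel.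
-/

namespace Pool.Agent.P0

def okS5 (x0 y0 z0 w0 x1 y1 z1 w1 x2 y2 z2 w2 : Bool) : Bool :=
  !(x0 && x2 && ((y1 && z1) || (y1 && w1) || (z1 && w1))) &&
  !(y0 && y2 && ((x1 && z1) || (x1 && w1))) &&
  !(z0 && z2 && ((x1 && y1) || (x1 && w1) || (y1 && w1))) &&
  !(w0 && w2 && ((x1 && y1) || (x1 && z1) || (y1 && z1)))

def phi5 (x0 y0 z0 w0 x1 y1 z1 w1 : Bool) : ℕ :=
  (0x0002022502252558000402250225255800020225022525580004022502252558000202250225255801040425022525580002024502252558111414451225255800020225022525580104022504252558000202250245255811141225144525580202022502254558141414251425455812121245124545584444444544454558 >>>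
    (4 * (16 * (x0.toNat + 2 * y0.toNat + 4 * z0.toNat + 8 * w0.toNat) +
      (x1.toNat + 2 * y1.toNat + 4 * z1.toNat + 8 * w1.toNat)))) % 16

theorem step5 : ∀ x0 y0 z0 w0 x1 y1 z1 w1 x2 y2 z2 w2 : Bool,
    okS5 x0 y0 z0 w0 x1 y1 z1 w1 x2 y2 z2 w2 = true →
    3 * (x2.toNat + y2.toNat + z2.toNat + w2.toNat) + phi5 x1 y1 z1 w1 x2 y2 z2 w2
      ≤ 8 + phi5 x0 y0 z0 w0 x1 y1 z1 w1 := by
  decide +kernel

/-- all single swaps except `(y; z, w)` -/
structure Swaps5 (r : ℕ) (x y z w : ZMod r → ℕ) : Prop where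
  bx : ∀ i, x i ≤ 1
  by' : ∀ i, y i ≤ 1
  bz : ∀ i, z i ≤ 1
  bw : ∀ i, w i ≤ 1
  xyz : ∀ i, x (i - 1) = 1 → x (i + 1) = 1 → y i = 1 → z i = 1 → False
  xyw : ∀ i, x (i - 1) = 1 → x (i + 1) = 1 → y i = 1 → w i = 1 → False
  xzw : ∀ i, x (i - 1) = 1 → x (i + 1) = 1 → z i = 1 → w i = 1 → False
  yxz : ∀ i, y (i - 1) = 1 → y (i + 1) = 1 → x i = 1 → z i = 1 → False
  yxw : ∀ i, y (i - 1) = 1 → y (i + 1) = 1 → x i = 1 → w i = 1 → False
  zxy : ∀ i, z (i - 1) = 1 → z (i + 1) = 1 → x i = 1 → y i = 1 → False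
  zxw : ∀ i, z (i - 1) = 1 → z (i + 1) = 1 → x i = 1 → w i = 1 → False
  zyw : ∀ i, z (i - 1) = 1 → z (i + 1) = 1 → y i = 1 → w i = 1 → False
  wxy : ∀ i, w (i - 1) = 1 → w (i + 1) = 1 → x i = 1 → y i = 1 → False
  wxz : ∀ i, w (i - 1) = 1 → w (i + 1) = 1 → x i = 1 → z i = 1 → False
  wyz : ∀ i, w (i - 1) = 1 → w (i + 1) = 1 → y i = 1 → z i = 1 → False

/-- the Boolean version of an indicator -/
def bit5 (n : ℕ) : Bool := decide (n = 1)

theorem bit5_toNat {n : ℕ} (h : n ≤ 1) : (bit5 n).toNat = n := by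
  unfold bit5
  interval_cases n <;> rfl

theorem bit5_iff {n : ℕ} : bit5 n = true ↔ n = 1 := by
  unfold bit5
  simp

theorem Swaps5.ok {r : ℕ} {x y z w : ZMod r → ℕ} (S : Swaps5 r x y z w) (i : ZMod r) :
    okS5 (bit5 (x (i - 1))) (bit5 (y (i - 1))) (bit5 (z (i - 1))) (bit5 (w (i - 1)))
      (bit5 (x i)) (bit5 (y i)) (bit5 (z i)) (bit5 (w i))
      (bit5 (x (i + 1))) (bit5 (y (i + 1))) (bit5 (z (i + 1))) (bit5 (w (i + 1))) = true := by
  have h1 := S.xyz i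
  have h2 := S.xyw i
  have h3 := S.xzw i
  have h4 := S.yxz i
  have h5 := S.yxw i
  have h6 := S.zxy i
  have h7 := S.zxw i
  have h8 := S.zyw i
  have h9 := S.wxy i
  have h10 := S.wxz i
  have h11 := S.wyz i
  simp only [← bit5_iff] at h1 h2 h3 h4 h5 h6 h7 h8 h9 h10 h11
  unfold okS5
  simp only [Bool.and_eq_true, Bool.not_eq_true', ← Bool.not_eq_true, Bool.or_eq_true]
  refine ⟨⟨⟨?_, ?_⟩, ?_⟩, ?_⟩
  · rintro ⟨⟨a, b⟩, (⟨c, d⟩ | ⟨c, d⟩) | ⟨c, d⟩⟩
    exacts [h1 a b c d, h2 a b c d, h3 a b c d]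
  · rintro ⟨⟨a, b⟩, ⟨c, d⟩ | ⟨c, d⟩⟩
    exacts [h4 a b c d, h5 a b c d]
  · rintro ⟨⟨a, b⟩, (⟨c, d⟩ | ⟨c, d⟩) | ⟨c, d⟩⟩
    exacts [h6 a b c d, h7 a b c d, h8 a b c d]
  · rintro ⟨⟨a, b⟩, (⟨c, d⟩ | ⟨c, d⟩) | ⟨c, d⟩⟩
    exacts [h9 a b c d, h10 a b c d, h11 a b c d]

/-- **S4** (pure): four ends with single swaps have total degree at most `8 r / 3` -/
theorem Swaps5.total {r : ℕ} [NeZero r] {x y z w : ZMod r → ℕ} (S : Swaps5 r x y z w) :
    3 * (∑ i, x i + ∑ i, y i + ∑ i, z i + ∑ i, w i) ≤ 8 * r := by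
  set P : ZMod r → ℕ := fun i =>
    phi5 (bit5 (x (i - 1))) (bit5 (y (i - 1))) (bit5 (z (i - 1))) (bit5 (w (i - 1)))
      (bit5 (x i)) (bit5 (y i)) (bit5 (z i)) (bit5 (w i)) with hP
  have key : ∀ i, 3 * (x (i + 1) + y (i + 1) + z (i + 1) + w (i + 1)) + P (i + 1) ≤ 8 + P i := by
    intro i
    have h := step5 _ _ _ _ _ _ _ _ _ _ _ _ (S.ok i)
    rw [bit5_toNat (S.bx _), bit5_toNat (S.by' _), bit5_toNat (S.bz _), bit5_toNat (S.bw _)] at h
    simp only [hP, add_sub_cancel_right]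
    exact h
  have h1 : ∑ i, (3 * (x (i + 1) + y (i + 1) + z (i + 1) + w (i + 1)) + P (i + 1)) ≤
      ∑ i, (8 + P i) := Finset.sum_le_sum fun i _ => key i
  simp only [Finset.sum_add_distrib, ← Finset.mul_sum] at h1
  rw [shift49 P, shift49 x, shift49 y, shift49 z, shift49 w] at h1
  have h2 : ∑ i : ZMod r, 8 = 8 * r := by
    simp [ZMod.card, mul_comm]
  rw [h2] at h1
  omega

end Pool.Agent.P0
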