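import Pool.Agent.P0.Graph49
import Pool.Agent.P0.FourPure5

set_option linter.all false

/-!
# P0, row I7 (C): four ends, the graph half of S4

`c` is a cycle of length `r`, `x, x₂, …, y₂, y` a path with exactly `r` vertices, disjoint from `c`,
and `e` a third cycle.  If `x, y` are adjacent to `c 1, c 3, c 5` (and `x₂, y₂` to a few of
`c 2, c 3, c 4`), then the four ends `x, y, c 2, c 4` have total degree at most `8 |e| / 3` into `e`,
unless there are three disjoint long cycles in the union.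
-/

namespace Pool.Agent.P0

open Pool.Agent.Helper14.LongCyc Pool.Agent.LCK

universe u

variable {V : Type u} {G : SimpleGraph V}

/-- three disjoint long cycles inside `U` -/
def Three5 (G : SimpleGraph V) (r : ℕ) (U : Finset V) : Prop :=
  ∃ D E F : Finset V, CycSet G D ∧ CycSet G E ∧ CycSet G F ∧ D ⊆ U ∧ E ⊆ U ∧ F ⊆ U ∧
    r ≤ D.card ∧ r ≤ E.card ∧ r ≤ F.card ∧ Disjoint D E ∧ Disjoint D F ∧ Disjoint E F

theorem Three5.mono {r : ℕ} {U U' : Finset V} (h : Three5 G r U) (hU : U ⊆ U') :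
    Three5 G r U' := by
  obtain ⟨D, E, F, h1, h2, h3, h4, h5, h6, h7⟩ := h
  exact ⟨D, E, F, h1, h2, h3, h4.trans hU, h5.trans hU, h6.trans hU, h7⟩

theorem Three5.fam [DecidableEq V] {r : ℕ} {U : Finset V} (h : Three5 G r U) :
    ∃ F, Fam G U (fun L => r ≤ L) F ∧ F.card = 3 := by
  obtain ⟨D, E, F, h1, h2, h3, h4, h5, h6, h7, h8, h9, h10, h11, h12⟩ := h
  have hne : ∀ {A B : Finset V}, CycSet G A → Disjoint A B → A ≠ B := by
    intro A B hA hAB hh
    subst hh
    have e1 : A = ∅ := by simpa using hAB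
    have e2 := hA.three_le
    rw [e1] at e2
    simp at e2
  have n1 := hne h1 h10
  have n2 := hne h1 h11
  have n3 := hne h2 h12
  refine ⟨{D, E, F}, ⟨?_, ?_, ?_, ?_⟩, Finset.card_eq_three.2 ⟨D, E, F, n1, n2, n3, rfl⟩⟩
  · intro s hs
    simp only [Finset.mem_insert, Finset.mem_singleton] at hs
    rcases hs with h | h | h <;> rw [h]
    exacts [h1, h2, h3]
  · intro s hs
    simp only [Finset.mem_insert, Finset.mem_singleton] at hs
    rcases hs with h | h | h <;> rw [h]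
    exacts [h4, h5, h6]
  · intro s hs
    simp only [Finset.mem_insert, Finset.mem_singleton] at hs
    rcases hs with h | h | h <;> rw [h]
    exacts [h7, h8, h9]
  · intro s hs t ht hst
    simp only [Finset.mem_insert, Finset.mem_singleton] at hs ht
    rcases hs with h | h | h <;> rcases ht with h' | h' | h' <;> rw [h, h'] <;>
      first
        | exact absurd (h.trans h'.symm) hst
        | assumption
        | (apply Disjoint.symm; assumption)

/-- a good triple: without `u`, the set `W` contains a long cycle and, disjoint from it, a path from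
`v` to `w` with at least `r - 1` vertices -/
def Good5 (G : SimpleGraph V) (r : ℕ) (W : Finset V) (u v w : V) : Prop :=
  ∃ (D : Finset V) (l : List V), CycSet G D ∧ r ≤ D.card ∧ D ⊆ W ∧ u ∉ D ∧ Pth G v w l ∧
    r ≤ l.length + 1 ∧ ∀ z ∈ l, z ∈ W ∧ z ≠ u ∧ z ∉ D

theorem Good5.symm {r : ℕ} {W : Finset V} {u v w : V} (h : Good5 G r W u v w) :
    Good5 G r W u w v := by
  obtain ⟨D, l, h1, h2, h3, h4, h5, h6, h7⟩ := h
  exact ⟨D, l.reverse, h1, h2, h3, h4, h5.reverse, by simpa using h6, fun z hz =>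
    h7 z (List.mem_reverse.1 hz)⟩

/-- the single swap -/
theorem Good5.three [DecidableEq V] {r : ℕ} {W : Finset V} {u v w : V} (h : Good5 G r W u v w)
    (hr : 3 ≤ r) (hu : u ∈ W) {e : List V} (he : Cyc G e) (hp : 0 < e.length)
    (hre : r ≤ e.length) (hW : ∀ z ∈ e, z ∉ W) (n : ℕ)
    (h1 : G.Adj u (cf e hp n)) (h2 : G.Adj u (cf e hp (n + 2)))
    (h3 : G.Adj v (cf e hp (n + 1))) (h4 : G.Adj w (cf e hp (n + 1))) :
    Three5 G r (W ∪ e.toFinset) := by
  obtain ⟨D, l, k1, k2, k3, k4, k5, k6, k7⟩ := h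
  have hA := arc_pth he hp (e.length - 2) (n + 2) (by omega)
  have e0 : cf e hp (n + 2 + (e.length - 2)) = cf e hp n := by
    apply cf_congr
    rw [show n + 2 + (e.length - 2) = n + e.length by omega, Nat.add_mod_right]
  rw [e0] at hA
  have key : ∀ z ∈ seg (cf e hp) (n + 2) (e.length - 2), z ≠ cf e hp (n + 1) := by
    intro z hz hzz
    rw [mem_seg] at hz
    obtain ⟨j, j1, j2, j3⟩ := hz
    rw [hzz, show j = n + (j - n) by omega] at j3
    exact far49 he hp n (s := 1) (t := j - n) (by omega) (by omega) j3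
  have hme : cf e hp (n + 1) ∈ e := cf_mem hp _
  have hue : u ∉ e := fun hh => hW u hh hu
  obtain ⟨a1, a2⟩ := joinSet hA (Pth.singleton u) (by
    intro z hz hz'
    rw [List.mem_singleton] at hz'
    exact hue (hz' ▸ arc_mem49 hp hz)) (by
    rw [seg_length]
    simp only [List.length_singleton]
    omega) (Or.inl ⟨h2.symm, h1.symm⟩)
  obtain ⟨b1, b2⟩ := joinSet k5 (Pth.singleton (cf e hp (n + 1))) (by
    intro z hz hz'
    rw [List.mem_singleton] at hz'
    exact hW _ hme (hz' ▸ (k7 z hz).1)) (by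
    simp only [List.length_singleton]
    omega) (Or.inl ⟨h3, h4⟩)
  rw [seg_length, List.length_singleton] at a2
  rw [List.length_singleton] at b2
  refine ⟨_, _, D, a1, b1, k1, ?_, ?_, k3.trans Finset.subset_union_left, by rw [a2]; omega,
    by rw [b2]; exact k6, k2, ?_, ?_, ?_⟩
  · intro z hz
    rw [List.mem_toFinset, List.mem_append, List.mem_singleton] at hz
    rw [Finset.mem_union, List.mem_toFinset]
    rcases hz with hz | hz
    · exact Or.inr (arc_mem49 hp hz)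
    · exact Or.inl (hz ▸ hu)
  · intro z hz
    rw [List.mem_toFinset, List.mem_append, List.mem_singleton] at hz
    rw [Finset.mem_union, List.mem_toFinset]
    rcases hz with hz | hz
    · exact Or.inl (k7 z hz).1
    · exact Or.inr (hz ▸ hme)
  · rw [Finset.disjoint_left]
    intro z hz hz'
    rw [List.mem_toFinset, List.mem_append, List.mem_singleton] at hz hz'
    rcases hz with hz | hz <;> rcases hz' with hz' | hz'
    · exact hW z (arc_mem49 hp hz) (k7 z hz').1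
    · exact key z hz hz'
    · exact (k7 z hz').2.1 hz
    · exact hue (hz ▸ hz' ▸ hme)
  · rw [Finset.disjoint_left]
    intro z hz hz'
    rw [List.mem_toFinset, List.mem_append, List.mem_singleton] at hz
    rcases hz with hz | hz
    · exact hW z (arc_mem49 hp hz) (k3 hz')
    · exact k4 (hz ▸ hz')
  · rw [Finset.disjoint_left]
    intro z hz hz'
    rw [List.mem_toFinset, List.mem_append, List.mem_singleton] at hz
    rcases hz with hz | hz
    · exact (k7 z hz).2.2 hz'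
    · exact hW z (hz ▸ hme) (k3 hz')

/-- the data: a cycle `c` and a path `x, x₂, …, y₂, y` with exactly `|c|` vertices, disjoint -/
structure Dat5 (G : SimpleGraph V) (c : List V) (x y x₂ y₂ : V) (mid : List V) : Prop where
  cyc : Cyc G c
  path : Pth G x₂ y₂ mid
  px : G.Adj x x₂
  yq : G.Adj y₂ y
  pq : x ≠ y
  pm : x ∉ mid
  qm : y ∉ mid
  pc : x ∉ c
  qc : y ∉ c
  mc : ∀ z ∈ mid, z ∉ c
  len : mid.length + 2 = c.length

section

variable {c : List V} {x y x₂ y₂ : V} {mid : List V}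

theorem Dat5.swap (D : Dat5 G c x y x₂ y₂ mid) : Dat5 G c y x y₂ x₂ mid.reverse where
  cyc := D.cyc
  path := D.path.reverse
  px := D.yq.symm
  yq := D.px.symm
  pq := D.pq.symm
  pm := by simpa using D.qm
  qm := by simpa using D.pm
  pc := D.qc
  qc := D.pc
  mc := fun z hz => D.mc z (List.mem_reverse.1 hz)
  len := by simpa using D.len

/-- the region -/
def Dat5.W [DecidableEq V] (D : Dat5 G c x y x₂ y₂ mid) : Finset V :=
  insert x (insert y (mid.toFinset ∪ c.toFinset))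

theorem Dat5.mem_W [DecidableEq V] (D : Dat5 G c x y x₂ y₂ mid) (z : V) :
    z ∈ D.W ↔ z = x ∨ z = y ∨ z ∈ mid ∨ z ∈ c := by
  unfold Dat5.W
  simp

theorem Dat5.swap_W [DecidableEq V] (D : Dat5 G c x y x₂ y₂ mid) : D.swap.W = D.W := by
  ext z
  rw [D.swap.mem_W, D.mem_W]
  simp only [List.mem_reverse]
  tauto

/-- the general form of a good triple: the middle part is closed by the edge `a b` -/
theorem Dat5.good [DecidableEq V] (D : Dat5 G c x y x₂ y₂ mid) {u v w a b : V} {l : List V}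
    (hab : G.Adj a b) (hadj : (G.Adj x₂ a ∧ G.Adj y₂ b) ∨ (G.Adj x₂ b ∧ G.Adj y₂ a))
    (hu : u = x ∨ u = y ∨ u ∈ c) (ha : a = x ∨ a = y ∨ a ∈ c) (hb : b = x ∨ b = y ∨ b ∈ c)
    (hau : a ≠ u) (hbu : b ≠ u) (hl : Pth G v w l) (hlen : c.length ≤ l.length + 1)
    (hm : ∀ z ∈ l, (z = x ∨ z = y ∨ z ∈ c) ∧ z ≠ u ∧ z ≠ a ∧ z ≠ b) :
    Good5 G c.length D.W u v w := by
  have hL := D.cyc.1
  have hlen' := D.len
  have hmid : ∀ z, (z = x ∨ z = y ∨ z ∈ c) → z ∉ mid := by
    intro z hz hz'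
    rcases hz with h | h | h
    · exact D.pm (h ▸ hz')
    · exact D.qm (h ▸ hz')
    · exact D.mc z hz' h
  have hT : Pth G a b ([a] ++ [b]) := (Pth.singleton a).append (Pth.singleton b) hab (by
    intro z hz hz'
    rw [List.mem_singleton] at hz hz'
    exact hab.ne (hz ▸ hz'))
  have hmT : ∀ z ∈ mid, z ∉ [a] ++ [b] := by
    intro z hz hz'
    rw [List.mem_append, List.mem_singleton, List.mem_singleton] at hz'
    rcases hz' with h | h
    · exact hmid a ha (h ▸ hz)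
    · exact hmid b hb (h ▸ hz)
  obtain ⟨a1, a2⟩ := joinSet D.path hT hmT (by simp; omega) hadj
  have a3 : ∀ z, z ∈ (mid ++ ([a] ++ [b])).toFinset ↔ z ∈ mid ∨ z = a ∨ z = b := by
    intro z
    simp [List.mem_toFinset]
    tauto
  refine ⟨_, l, a1, ?_, ?_, ?_, hl, hlen, ?_⟩
  · rw [a2]
    simp only [List.length_append, List.length_singleton]
    omega
  · intro z hz
    rw [a3] at hz
    rw [D.mem_W]
    rcases hz with h | h | h
    · exact Or.inr (Or.inr (Or.inl h))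
    · rcases ha with h' | h' | h'
      · exact Or.inl (h.trans h')
      · exact Or.inr (Or.inl (h.trans h'))
      · exact Or.inr (Or.inr (Or.inr (h ▸ h')))
    · rcases hb with h' | h' | h'
      · exact Or.inl (h.trans h')
      · exact Or.inr (Or.inl (h.trans h'))
      · exact Or.inr (Or.inr (Or.inr (h ▸ h')))
  · intro hz
    rw [a3] at hz
    rcases hz with h | h | h
    · exact hmid u hu h
    · exact hau h.symm
    · exact hbu h.symm
  · intro z hz
    obtain ⟨m1, m2, m3, m4⟩ := hm z hz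
    refine ⟨?_, m2, ?_⟩
    · rw [D.mem_W]
      rcases m1 with h | h | h
      · exact Or.inl h
      · exact Or.inr (Or.inl h)
      · exact Or.inr (Or.inr (Or.inr h))
    · intro h
      rw [a3] at h
      rcases h with h | h | h
      · exact hmid z m1 h
      · exact m3 h
      · exact m4 h

/-- the pattern around `c 3` (positions are `n + j`) -/
structure Pat5 (G : SimpleGraph V) (c : List V) (hp : 0 < c.length) (x y x₂ y₂ : V) (n : ℕ) :
    Prop where
  x1 : G.Adj x (cf c hp (n + 1))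
  x3 : G.Adj x (cf c hp (n + 3))
  x5 : G.Adj x (cf c hp (n + 5))
  y1 : G.Adj y (cf c hp (n + 1))
  y3 : G.Adj y (cf c hp (n + 3))
  y5 : G.Adj y (cf c hp (n + 5))
  p3 : G.Adj x₂ (cf c hp (n + 3))
  q3 : G.Adj y₂ (cf c hp (n + 3))
  w2 : G.Adj x₂ (cf c hp (n + 2)) ∨ G.Adj y₂ (cf c hp (n + 2))
  w4 : G.Adj x₂ (cf c hp (n + 4)) ∨ G.Adj y₂ (cf c hp (n + 4))

variable {hp : 0 < c.length} {n : ℕ}

theorem Pat5.swap (P : Pat5 G c hp x y x₂ y₂ n) : Pat5 G c hp y x y₂ x₂ n :=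
  ⟨P.y1, P.y3, P.y5, P.x1, P.x3, P.x5, P.q3, P.p3, P.w2.symm, P.w4.symm⟩

/-- the arc from `c s` to `c (s + k)` -/
theorem arc5 (hc : Cyc G c) (hp : 0 < c.length) (n s k : ℕ) (hk : k < c.length) :
    ∃ l, Pth G (cf c hp (n + s)) (cf c hp (n + (s + k))) l ∧ l.length = k + 1 ∧
      ∀ z ∈ l, ∃ j, s ≤ j ∧ j ≤ s + k ∧ z = cf c hp (n + j) := by
  refine ⟨seg (cf c hp) (n + s) k, ?_, seg_length, ?_⟩
  · have := arc_pth hc hp k (n + s) hk
    rwa [Nat.add_assoc] at this
  · intro z hz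
    rw [mem_seg] at hz
    obtain ⟨j, j1, j2, j3⟩ := hz
    exact ⟨j - n, by omega, by omega, by rw [show n + (j - n) = j by omega]; exact j3⟩

theorem wrap5 (hp : 0 < c.length) (n s : ℕ) :
    cf c hp (n + (s + c.length)) = cf c hp (n + s) := by
  apply cf_congr
  rw [← Nat.add_assoc, Nat.add_mod_right]

theorem Dat5.adj34 (D : Dat5 G c x y x₂ y₂ mid) (hp : 0 < c.length) (n s : ℕ) :
    G.Adj (cf c hp (n + s)) (cf c hp (n + (s + 1))) := cf_adj D.cyc hp (n + s)

/-- window `c 3, c 4` -/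
theorem Pat5.w34 (P : Pat5 G c hp x y x₂ y₂ n) :
    (G.Adj x₂ (cf c hp (n + 3)) ∧ G.Adj y₂ (cf c hp (n + 4))) ∨
      (G.Adj x₂ (cf c hp (n + 4)) ∧ G.Adj y₂ (cf c hp (n + 3))) := by
  rcases P.w4 with h | h
  · exact Or.inr ⟨h, P.q3⟩
  · exact Or.inl ⟨P.p3, h⟩

/-- window `c 3, c 2` -/
theorem Pat5.w32 (P : Pat5 G c hp x y x₂ y₂ n) :
    (G.Adj x₂ (cf c hp (n + 3)) ∧ G.Adj y₂ (cf c hp (n + 2))) ∨
      (G.Adj x₂ (cf c hp (n + 2)) ∧ G.Adj y₂ (cf c hp (n + 3))) := by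
  rcases P.w2 with h | h
  · exact Or.inr ⟨h, P.q3⟩
  · exact Or.inl ⟨P.p3, h⟩

/-- path from `c 4` through `c 5, …, c r, c 1` to `v` -/
theorem Dat5.pathA4 (D : Dat5 G c x y x₂ y₂ mid) (hr : 4 ≤ c.length) {v : V} (hv : v ∉ c)
    (h1 : G.Adj v (cf c hp (n + 1))) :
    ∃ l, Pth G (cf c hp (n + 4)) v l ∧ c.length ≤ l.length + 1 ∧
      ∀ z ∈ l, z = v ∨ ∃ j, 4 ≤ j ∧ j ≤ c.length + 1 ∧ z = cf c hp (n + j) := by
  obtain ⟨l, l1, l2, l3⟩ := arc5 D.cyc hp n 4 (c.length - 3) (by omega)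
  rw [show 4 + (c.length - 3) = 1 + c.length by omega, wrap5] at l1
  have hvl : v ∉ l := by
    intro h
    obtain ⟨j, _, _, j3⟩ := l3 v h
    exact hv (j3 ▸ cf_mem hp _)
  refine ⟨l ++ [v], l1.concat h1.symm hvl, ?_, ?_⟩
  · simp only [List.length_append, List.length_singleton]
    omega
  · intro z hz
    rw [List.mem_append, List.mem_singleton] at hz
    rcases hz with hz | hz
    · obtain ⟨j, j1, j2, j3⟩ := l3 z hz
      exact Or.inr ⟨j, j1, by omega, j3⟩
    · exact Or.inl hz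

/-- path from `v` through `c 5, …, c r, c 1` to `c 2` -/
theorem Dat5.pathA5 (D : Dat5 G c x y x₂ y₂ mid) (hr : 4 ≤ c.length) {v : V} (hv : v ∉ c)
    (h1 : G.Adj v (cf c hp (n + 5))) :
    ∃ l, Pth G v (cf c hp (n + 2)) l ∧ c.length ≤ l.length + 1 ∧
      ∀ z ∈ l, z = v ∨ ∃ j, 5 ≤ j ∧ j ≤ c.length + 2 ∧ z = cf c hp (n + j) := by
  obtain ⟨l, l1, l2, l3⟩ := arc5 D.cyc hp n 5 (c.length - 3) (by omega)
  rw [show 5 + (c.length - 3) = 2 + c.length by omega, wrap5] at l1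
  have hvl : v ∉ l := by
    intro h
    obtain ⟨j, _, _, j3⟩ := l3 v h
    exact hv (j3 ▸ cf_mem hp _)
  refine ⟨v :: l, l1.cons h1 hvl, ?_, ?_⟩
  · simp only [List.length_cons]
    omega
  · intro z hz
    rw [List.mem_cons] at hz
    rcases hz with hz | hz
    · exact Or.inl hz
    · obtain ⟨j, j1, j2, j3⟩ := l3 z hz
      exact Or.inr ⟨j, j1, by omega, j3⟩

/-- path from `x` through `c 5, …, c r, c 1` to `y` -/
theorem Dat5.pathA7 (D : Dat5 G c x y x₂ y₂ mid) (hr : 5 ≤ c.length)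
    (h1 : G.Adj x (cf c hp (n + 5))) (h2 : G.Adj y (cf c hp (n + 1))) :
    ∃ l, Pth G x y l ∧ c.length ≤ l.length + 1 ∧
      ∀ z ∈ l, z = x ∨ z = y ∨ ∃ j, 5 ≤ j ∧ j ≤ c.length + 1 ∧ z = cf c hp (n + j) := by
  obtain ⟨l, l1, l2, l3⟩ := arc5 D.cyc hp n 5 (c.length - 4) (by omega)
  rw [show 5 + (c.length - 4) = 1 + c.length by omega, wrap5] at l1
  have hxl : x ∉ l := by
    intro h
    obtain ⟨j, _, _, j3⟩ := l3 x h
    exact D.pc (j3 ▸ cf_mem hp _)
  have hyl : y ∉ x :: l := by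
    intro h
    rw [List.mem_cons] at h
    rcases h with h | h
    · exact D.pq h.symm
    · obtain ⟨j, _, _, j3⟩ := l3 y h
      exact D.qc (j3 ▸ cf_mem hp _)
  refine ⟨(x :: l) ++ [y], (l1.cons h1 hxl).concat h2.symm hyl, ?_, ?_⟩
  · simp only [List.length_append, List.length_cons, List.length_singleton]
    omega
  · intro z hz
    rw [List.mem_append, List.mem_cons, List.mem_singleton] at hz
    rcases hz with (hz | hz) | hz
    · exact Or.inl hz
    · obtain ⟨j, j1, j2, j3⟩ := l3 z hz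
      exact Or.inr (Or.inr ⟨j, j1, by omega, j3⟩)
    · exact Or.inr (Or.inl hz)

section moves

variable [DecidableEq V] (D : Dat5 G c x y x₂ y₂ mid) (P : Pat5 G c hp x y x₂ y₂ n)
  (hr : 5 ≤ c.length)

include P hr

theorem Dat5.g_xyz : Good5 G c.length D.W x y (cf c hp (n + 2)) := by
  obtain ⟨l, l1, l2, l3⟩ := D.pathA5 (hp := hp) (n := n) (by omega) D.qc P.y5
  have hm := fun j => cf_mem hp (n + j)
  have hx : ∀ j, cf c hp (n + j) ≠ x := fun j h => D.pc (h ▸ hm j)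
  have hy : ∀ j, cf c hp (n + j) ≠ y := fun j h => D.qc (h ▸ hm j)
  refine D.good (D.adj34 hp n 3) P.w34 (Or.inl rfl) (Or.inr (Or.inr (hm 3)))
    (Or.inr (Or.inr (hm 4))) (hx 3) (hx 4) l1 l2 ?_
  intro z hz
  rcases l3 z hz with h | ⟨j, j1, j2, h⟩
  · rw [h]
    exact ⟨Or.inr (Or.inl rfl), D.pq.symm, (hy 3).symm, (hy 4).symm⟩
  · rw [h]
    exact ⟨Or.inr (Or.inr (hm j)), hx j, (far49 D.cyc hp n (by omega) (by omega)).symm,
      (far49 D.cyc hp n (by omega) (by omega)).symm⟩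

theorem Dat5.g_xyw : Good5 G c.length D.W x y (cf c hp (n + 4)) := by
  obtain ⟨l, l1, l2, l3⟩ := D.pathA4 (hp := hp) (n := n) (by omega) D.qc P.y1
  have hm := fun j => cf_mem hp (n + j)
  have hx : ∀ j, cf c hp (n + j) ≠ x := fun j h => D.pc (h ▸ hm j)
  have hy : ∀ j, cf c hp (n + j) ≠ y := fun j h => D.qc (h ▸ hm j)
  refine (D.good (D.adj34 hp n 2).symm P.w32 (Or.inl rfl) (Or.inr (Or.inr (hm 3)))
    (Or.inr (Or.inr (hm 2))) (hx 3) (hx 2) l1 l2 ?_).symm
  intro z hz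
  rcases l3 z hz with h | ⟨j, j1, j2, h⟩
  · rw [h]
    exact ⟨Or.inr (Or.inl rfl), D.pq.symm, (hy 3).symm, (hy 2).symm⟩
  · rw [h]
    exact ⟨Or.inr (Or.inr (hm j)), hx j, (far49 D.cyc hp n (by omega) (by omega)).symm,
      (far49 D.cyc hp n (by omega) (by omega)).symm⟩

theorem Dat5.g_xzw : Good5 G c.length D.W x (cf c hp (n + 2)) (cf c hp (n + 4)) := by
  obtain ⟨l, l1, l2, l3⟩ := arc5 D.cyc hp n 4 (c.length - 2) (by omega)
  rw [show 4 + (c.length - 2) = 2 + c.length by omega, wrap5] at l1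
  have hm := fun j => cf_mem hp (n + j)
  have hx : ∀ j, cf c hp (n + j) ≠ x := fun j h => D.pc (h ▸ hm j)
  have hy : ∀ j, cf c hp (n + j) ≠ y := fun j h => D.qc (h ▸ hm j)
  refine (D.good P.y3.symm (Or.inl ⟨P.p3, D.yq⟩) (Or.inl rfl) (Or.inr (Or.inr (hm 3)))
    (Or.inr (Or.inl rfl)) (hx 3) D.pq.symm l1 (by omega) ?_).symm
  intro z hz
  obtain ⟨j, j1, j2, h⟩ := l3 z hz
  rw [h]
  exact ⟨Or.inr (Or.inr (hm j)), hx j, (far49 D.cyc hp n (by omega) (by omega)).symm, hy j⟩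

theorem Dat5.g_zxy : Good5 G c.length D.W (cf c hp (n + 2)) x y := by
  obtain ⟨l, l1, l2, l3⟩ := D.pathA7 (hp := hp) (n := n) hr P.x5 P.y1
  have hm := fun j => cf_mem hp (n + j)
  have hx : ∀ j, cf c hp (n + j) ≠ x := fun j h => D.pc (h ▸ hm j)
  have hy : ∀ j, cf c hp (n + j) ≠ y := fun j h => D.qc (h ▸ hm j)
  refine D.good (D.adj34 hp n 3) P.w34 (Or.inr (Or.inr (hm 2))) (Or.inr (Or.inr (hm 3)))
    (Or.inr (Or.inr (hm 4))) (far49 D.cyc hp n (by omega) (by omega)).symm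
    (far49 D.cyc hp n (by omega) (by omega)).symm l1 l2 ?_
  intro z hz
  rcases l3 z hz with h | h | ⟨j, j1, j2, h⟩
  · rw [h]
    exact ⟨Or.inl rfl, (hx 2).symm, (hx 3).symm, (hx 4).symm⟩
  · rw [h]
    exact ⟨Or.inr (Or.inl rfl), (hy 2).symm, (hy 3).symm, (hy 4).symm⟩
  · rw [h]
    exact ⟨Or.inr (Or.inr (hm j)), (far49 D.cyc hp n (by omega) (by omega)).symm,
      (far49 D.cyc hp n (by omega) (by omega)).symm,
      (far49 D.cyc hp n (by omega) (by omega)).symm⟩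

theorem Dat5.g_wxy : Good5 G c.length D.W (cf c hp (n + 4)) x y := by
  obtain ⟨l, l1, l2, l3⟩ := D.pathA7 (hp := hp) (n := n) hr P.x5 P.y1
  have hm := fun j => cf_mem hp (n + j)
  have hx : ∀ j, cf c hp (n + j) ≠ x := fun j h => D.pc (h ▸ hm j)
  have hy : ∀ j, cf c hp (n + j) ≠ y := fun j h => D.qc (h ▸ hm j)
  refine D.good (D.adj34 hp n 2).symm P.w32 (Or.inr (Or.inr (hm 4))) (Or.inr (Or.inr (hm 3)))
    (Or.inr (Or.inr (hm 2))) (far49 D.cyc hp n (by omega) (by omega))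
    (far49 D.cyc hp n (by omega) (by omega)) l1 l2 ?_
  intro z hz
  rcases l3 z hz with h | h | ⟨j, j1, j2, h⟩
  · rw [h]
    exact ⟨Or.inl rfl, (hx 4).symm, (hx 3).symm, (hx 2).symm⟩
  · rw [h]
    exact ⟨Or.inr (Or.inl rfl), (hy 4).symm, (hy 3).symm, (hy 2).symm⟩
  · rw [h]
    exact ⟨Or.inr (Or.inr (hm j)), (far49 D.cyc hp n (by omega) (by omega)).symm,
      (far49 D.cyc hp n (by omega) (by omega)).symm,
      (far49 D.cyc hp n (by omega) (by omega)).symm⟩

theorem Dat5.g_zxw : Good5 G c.length D.W (cf c hp (n + 2)) x (cf c hp (n + 4)) := by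
  obtain ⟨l, l1, l2, l3⟩ := D.pathA4 (hp := hp) (n := n) (by omega) D.pc P.x1
  have hm := fun j => cf_mem hp (n + j)
  have hx : ∀ j, cf c hp (n + j) ≠ x := fun j h => D.pc (h ▸ hm j)
  have hy : ∀ j, cf c hp (n + j) ≠ y := fun j h => D.qc (h ▸ hm j)
  refine (D.good P.y3.symm (Or.inl ⟨P.p3, D.yq⟩) (Or.inr (Or.inr (hm 2)))
    (Or.inr (Or.inr (hm 3))) (Or.inr (Or.inl rfl))
    (far49 D.cyc hp n (by omega) (by omega)).symm (hy 2).symm l1 l2 ?_).symm
  intro z hz
  rcases l3 z hz with h | ⟨j, j1, j2, h⟩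
  · rw [h]
    exact ⟨Or.inl rfl, (hx 2).symm, (hx 3).symm, D.pq⟩
  · rw [h]
    exact ⟨Or.inr (Or.inr (hm j)), (far49 D.cyc hp n (by omega) (by omega)).symm,
      (far49 D.cyc hp n (by omega) (by omega)).symm, hy j⟩

theorem Dat5.g_wxz : Good5 G c.length D.W (cf c hp (n + 4)) x (cf c hp (n + 2)) := by
  obtain ⟨l, l1, l2, l3⟩ := D.pathA5 (hp := hp) (n := n) (by omega) D.pc P.x5
  have hm := fun j => cf_mem hp (n + j)
  have hx : ∀ j, cf c hp (n + j) ≠ x := fun j h => D.pc (h ▸ hm j)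
  have hy : ∀ j, cf c hp (n + j) ≠ y := fun j h => D.qc (h ▸ hm j)
  refine D.good P.y3.symm (Or.inl ⟨P.p3, D.yq⟩) (Or.inr (Or.inr (hm 4)))
    (Or.inr (Or.inr (hm 3))) (Or.inr (Or.inl rfl))
    (far49 D.cyc hp n (by omega) (by omega)) (hy 4).symm l1 l2 ?_
  intro z hz
  rcases l3 z hz with h | ⟨j, j1, j2, h⟩
  · rw [h]
    exact ⟨Or.inl rfl, (hx 4).symm, (hx 3).symm, D.pq⟩
  · rw [h]
    exact ⟨Or.inr (Or.inr (hm j)), (far49 D.cyc hp n (by omega) (by omega)).symm,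
      (far49 D.cyc hp n (by omega) (by omega)).symm, hy j⟩

end moves

/-- the good triples exclude the configuration on `e` -/
theorem gen5 [DecidableEq V] {r : ℕ} {W : Finset V} {u v w : V} (h : Good5 G r W u v w)
    (hr : 3 ≤ r) (hu : u ∈ W) {e : List V} (he : Cyc G e) (hq : 0 < e.length)
    (hre : r ≤ e.length) (hW : ∀ z ∈ e, z ∉ W) (hno : ¬ Three5 G r (W ∪ e.toFinset))
    (i : ZMod e.length) (h1 : ind49 G e hq u (i - 1) = 1) (h2 : ind49 G e hq u (i + 1) = 1)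
    (h3 : ind49 G e hq v i = 1) (h4 : ind49 G e hq w i = 1) : False := by
  obtain ⟨m, hm⟩ : ∃ m : ℕ, i - 1 = ((m : ℕ) : ZMod e.length) := by
    haveI : NeZero e.length := ⟨by omega⟩
    exact ⟨(i - 1).val, (ZMod.natCast_zmod_val _).symm⟩
  have hi : i = ((m + 1 : ℕ) : ZMod e.length) := by
    push_cast
    rw [← hm]; ring
  have hi' : i + 1 = ((m + 2 : ℕ) : ZMod e.length) := by
    push_cast
    rw [← hm]; ring
  rw [ind_nat49 hq m hm] at h1
  rw [ind_nat49 hq (m + 2) hi'] at h2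
  rw [ind_nat49 hq (m + 1) hi] at h3 h4
  exact hno (h.three hr hu he hq hre hW m h1 h2 h3 h4)

/-- **FOUR ENDS** (list form) -/
theorem Dat5.four [DecidableEq V] (D : Dat5 G c x y x₂ y₂ mid) (P : Pat5 G c hp x y x₂ y₂ n)
    (hr : 5 ≤ c.length) {e : List V} (he : Cyc G e) (hre : c.length ≤ e.length)
    (hW : ∀ z ∈ e, z ∉ D.W) (hno : ¬ Three5 G c.length (D.W ∪ e.toFinset)) :
    3 * (dg G e.toFinset x + dg G e.toFinset y + dg G e.toFinset (cf c hp (n + 2)) +
      dg G e.toFinset (cf c hp (n + 4))) ≤ 8 * e.length := by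
  have hq : 0 < e.length := by omega
  haveI : NeZero e.length := ⟨by omega⟩
  have mx : x ∈ D.W := (D.mem_W x).2 (Or.inl rfl)
  have my : y ∈ D.W := (D.mem_W y).2 (Or.inr (Or.inl rfl))
  have mz : ∀ j, cf c hp (n + j) ∈ D.W := fun j =>
    (D.mem_W _).2 (Or.inr (Or.inr (Or.inr (cf_mem hp _))))
  have k3 : 3 ≤ c.length := by omega
  have sW := D.swap_W
  have s1 := D.swap.g_xyz P.swap hr
  have s2 := D.swap.g_xyw P.swap hr
  have s3 := D.swap.g_zxw P.swap hr
  have s4 := D.swap.g_wxz P.swap hr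
  rw [sW] at s1 s2 s3 s4
  have S : Swaps5 e.length (ind49 G e hq x) (ind49 G e hq y) (ind49 G e hq (cf c hp (n + 2)))
      (ind49 G e hq (cf c hp (n + 4))) :=
    { bx := fun i => ind_le49 hq _ i
      by' := fun i => ind_le49 hq _ i
      bz := fun i => ind_le49 hq _ i
      bw := fun i => ind_le49 hq _ i
      xyz := gen5 (D.g_xyz P hr) k3 mx he hq hre hW hno
      xyw := gen5 (D.g_xyw P hr) k3 mx he hq hre hW hno
      xzw := gen5 (D.g_xzw P hr) k3 mx he hq hre hW hno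
      yxz := gen5 s1 k3 my he hq hre hW hno
      yxw := gen5 s2 k3 my he hq hre hW hno
      zxy := gen5 (D.g_zxy P hr) k3 (mz 2) he hq hre hW hno
      zxw := gen5 (D.g_zxw P hr) k3 (mz 2) he hq hre hW hno
      zyw := gen5 s3 k3 (mz 2) he hq hre hW hno
      wxy := gen5 (D.g_wxy P hr) k3 (mz 4) he hq hre hW hno
      wxz := gen5 (D.g_wxz P hr) k3 (mz 4) he hq hre hW hno
      wyz := gen5 s4 k3 (mz 4) he hq hre hW hno }
  have h1 := S.total
  have hn := Cyc.nodup he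
  rw [sum_ind49 hq hn, sum_ind49 hq hn, sum_ind49 hq hn, sum_ind49 hq hn] at h1
  exact h1

end

end Pool.Agent.P0
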