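import Pool.Agent.P0.Adm41
import Pool.Agent.P0.Four5

set_option linter.all false

/-!
# P0, row I7 (C1): four ends over the frame `Adm41`
-/

namespace Pool.Agent.P0

open Pool.Agent.Helper14.LongCyc Pool.Agent.LCK Pool.Agent.FRC

universe u

variable {V : Type u} {G : SimpleGraph V}

theorem three41_iff5 {r : ℕ} {W : Finset V} : Three41 G r W ↔ Three5 G r W := Iff.rfl

section

variable {U : Finset V} {r : ℕ} {Q : List V} {p q x y : V} {F : Finset (Finset V)}

/-- the list data of a member of the family -/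
theorem Adm41.dat5 [DecidableEq V] (h : Adm41 G U r Q p q F x y) {C : Finset V} (hC : C ∈ F) (hCr : C.card = r)
    {c : List V} (hc : Cyc G c) (hs : ∀ z, z ∈ c ↔ z ∈ C) : Dat5 G c x y p q Q where
  cyc := hc
  path := h.path
  px := h.xp
  yq := h.qy
  pq := h.ne
  pm := h.xQ
  qm := h.yQ
  pc := fun hz => h.x_notC hC ((hs x).1 hz)
  qc := fun hz => h.y_notC hC ((hs y).1 hz)
  mc := fun z hz hz' => h.notQ hC ((hs z).1 hz') hz
  len := by
    have h1 := card_of_list (Cyc.nodup hc) hs
    rw [h.len]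
    omega

/-- **FOUR ENDS** over `Adm41` -/
theorem Adm41.four5 [DecidableEq V] (h : Adm41 G U r Q p q F x y) (hr : 5 ≤ r) {C E : Finset V}
    (hC : C ∈ F) (hE : E ∈ F) (hCE : C ≠ E) (hCr : C.card = r) (hEr : E.card = r)
    {c : List V} (hc : Cyc G c) (hs : ∀ z, z ∈ c ↔ z ∈ C) {hp : 0 < c.length} {n : ℕ}
    (P : Pat5 G c hp x y p q n) :
    3 * (dg G E x + dg G E y + dg G E (cf c hp (n + 2)) + dg G E (cf c hp (n + 4))) ≤ 8 * r := by
  have D := h.dat5 hC hCr hc hs
  have hcl : c.length = r := by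
    have h1 := card_of_list (Cyc.nodup hc) hs
    omega
  obtain ⟨e, he, hse⟩ := h.opt.fam.cyc E hE
  have hel : e.length = r := by
    have h1 := card_of_list (Cyc.nodup he) hse
    omega
  have hEe : e.toFinset = E := by
    ext z; rw [List.mem_toFinset]; exact hse z
  have hW : ∀ z ∈ e, z ∉ D.W := by
    intro z hz hz'
    have hzE := (hse z).1 hz
    rw [D.mem_W] at hz'
    rcases hz' with h1 | h1 | h1 | h1
    · exact h.x_notC hE (h1 ▸ hzE)
    · exact h.y_notC hE (h1 ▸ hzE)
    · exact h.notQ hE hzE h1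
    · exact Finset.disjoint_left.1 (h.opt.fam.disj C hC E hE hCE) ((hs z).1 h1) hzE
  have hno : ¬ Three5 G c.length (D.W ∪ e.toFinset) := by
    rw [hcl, hEe]
    intro h3
    refine h.opt.no_three hC hE hCE (Three5.mono h3 ?_)
    intro z hz
    rw [Finset.mem_union, D.mem_W] at hz
    rw [Finset.mem_union, Finset.mem_union, h.rest]
    rcases hz with (h1 | h1 | h1 | h1) | h1
    · exact Or.inr (Or.inl h1)
    · exact Or.inr (Or.inr (Or.inl h1))
    · exact Or.inr (Or.inr (Or.inr h1))
    · exact Or.inl (Or.inl ((hs z).1 h1))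
    · exact Or.inl (Or.inr h1)
  have h1 := D.four P (by omega) he (by omega) hW hno
  rw [hEe, hel] at h1
  exact h1

end

end Pool.Agent.P0
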