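import Pool.Agent.P0.LLZ33
import Pool.Agent.P0.Graph49

set_option linter.all false

/-!
# P0, I7 (A), graph half: the moves for a cycle of length `r` and a path with `r` vertices
-/

namespace Pool.Agent.P0

open Pool.Agent.Helper14.LongCyc Pool.Agent.LCK

universe u

variable {V : Type u} {G : SimpleGraph V}

section

variable {c : List V} (hp : 0 < c.length)

/-- the data: a path `p, x, …, y, q` with at least `c.length` vertices, disjoint from the cycle `c` -/
structure DatZ49 (G : SimpleGraph V) (c : List V) (p q x y : V) (mid : List V) : Prop where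
  cyc : Cyc G c
  path : Pth G x y mid
  px : G.Adj p x
  yq : G.Adj y q
  pq : p ≠ q
  pm : p ∉ mid
  qm : q ∉ mid
  pc : p ∉ c
  qc : q ∉ c
  mc : ∀ z ∈ mid, z ∉ c
  len : c.length ≤ mid.length + 2

variable {p q x y : V} {mid : List V}

theorem DatZ49.swap (D : DatZ49 G c p q x y mid) : DatZ49 G c q p y x mid.reverse where
  cyc := D.cyc
  path := D.path.reverse
  px := D.yq.symm
  yq := D.px.symm
  pq := D.pq.symm
  pm := by simpa using D.qm
  qm := by simpa using D.pm
  pc := D.qc
  qc := D.pc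
  mc := fun z hz => D.mc z (List.mem_reverse.1 hz)
  len := by simpa using D.len

/-- the region -/
def DatZ49.U [DecidableEq V] (D : DatZ49 G c p q x y mid) : Finset V :=
  insert p (insert q (mid.toFinset ∪ c.toFinset))

theorem DatZ49.mem_U [DecidableEq V] (D : DatZ49 G c p q x y mid) (z : V) :
    z ∈ D.U ↔ z = p ∨ z = q ∨ z ∈ mid ∨ z ∈ c := by
  unfold DatZ49.U
  simp

/-- move (M1) -/
theorem DatZ49.move1 [DecidableEq V] (D : DatZ49 G c p q x y mid) (n : ℕ)
    (h1 : G.Adj p (cf c hp n)) (h2 : G.Adj p (cf c hp (n + 2)))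
    (h3 : G.Adj x (cf c hp (n + 1))) (h4 : G.Adj q (cf c hp (n + 1))) :
    Two49 G c.length D.U := by
  have hL := D.cyc.1
  have hR := D.path.concat D.yq D.qm
  have hA := arc_pth D.cyc hp (c.length - 2) (n + 2) (by omega)
  have e0 : cf c hp (n + 2 + (c.length - 2)) = cf c hp n := by
    apply cf_congr
    rw [show n + 2 + (c.length - 2) = n + c.length by omega, Nat.add_mod_right]
  rw [e0] at hA
  have key : ∀ z ∈ seg (cf c hp) (n + 2) (c.length - 2), z ≠ cf c hp (n + 1) := by
    intro z hz hzz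
    rw [mem_seg] at hz
    obtain ⟨j, j1, j2, j3⟩ := hz
    rw [hzz, show j = n + (j - n) by omega] at j3
    exact far49 D.cyc hp n (s := 1) (t := j - n) (by omega) (by omega) j3
  have hRm : ∀ z ∈ mid ++ [q], z = q ∨ z ∈ mid := by
    intro z hz
    rw [List.mem_append, List.mem_singleton] at hz
    exact hz.symm
  refine mk49 (r := c.length) hA (Pth.singleton p) hR (Pth.singleton (cf c hp (n + 1))) ?_ ?_ hL
    ?_ ?_ (Or.inl ⟨h2.symm, h1.symm⟩) (Or.inl ⟨h3, h4⟩) ?_ ?_ ?_
  · intro z hz hz'
    rw [List.mem_singleton] at hz'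
    exact D.pc (hz' ▸ arc_mem49 hp hz)
  · intro z hz hz'
    rw [List.mem_singleton] at hz'
    have h5 : z ∈ c := hz' ▸ cf_mem hp (n + 1)
    rcases hRm z hz with h | h
    · exact D.qc (h ▸ h5)
    · exact D.mc z h h5
  · rw [seg_length]
    simp only [List.length_singleton]
    omega
  · have := D.len
    simp only [List.length_append, List.length_singleton]
    omega
  · intro z hz
    rw [D.mem_U]
    rcases hz with hz | hz
    · exact Or.inr (Or.inr (Or.inr (arc_mem49 hp hz)))
    · exact Or.inl (by simpa using hz)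
  · intro z hz
    rw [D.mem_U]
    rcases hz with hz | hz
    · rcases hRm z hz with h | h
      · exact Or.inr (Or.inl h)
      · exact Or.inr (Or.inr (Or.inl h))
    · rw [List.mem_singleton] at hz
      exact Or.inr (Or.inr (Or.inr (hz ▸ cf_mem hp (n + 1))))
  · intro z hz hz'
    rw [List.mem_singleton] at hz hz'
    rcases hz with hz | hz
    · have h5 := arc_mem49 hp hz
      rcases hz' with h | h
      · rcases hRm z h with h | h
        · exact D.qc (h ▸ h5)
        · exact D.mc z h h5
      · exact key z hz h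
    · rcases hz' with h | h
      · rcases hRm z h with h | h
        · exact D.pq (hz.symm.trans h)
        · exact D.pm (hz ▸ h)
      · exact D.pc (hz ▸ h ▸ cf_mem hp (n + 1))

/-- the second cycle of the moves (M2), (M3): the inner path and two consecutive vertices -/
theorem DatZ49.close2 [DecidableEq V] (D : DatZ49 G c p q x y mid) (n : ℕ)
    (h5 : (G.Adj x (cf c hp (n + 1)) ∧ G.Adj y (cf c hp (n + 2))) ∨
      (G.Adj x (cf c hp (n + 2)) ∧ G.Adj y (cf c hp (n + 1))))
    {a b : V} {l : List V} (hl : Pth G a b l) {s : V} (hs : s ∉ l) (h1 : G.Adj b s)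
    (h2 : G.Adj s a) (hlen : l.length + 1 = c.length)
    (hsU : s = p ∨ s = q)
    (hin : ∀ z ∈ l, (z = p ∨ z = q) ∨ ∃ j, 3 ≤ j ∧ j ≤ c.length ∧ z = cf c hp (n + j)) :
    Two49 G c.length D.U := by
  have hL := D.cyc.1
  have hT := (Pth.singleton (G := G) (cf c hp (n + 1))).concat (cf_adj D.cyc hp (n + 1)) (by
    simpa using (far49 D.cyc hp n (s := 1) (t := 2) (by omega) (by omega)).symm)
  have hTm : ∀ z ∈ [cf c hp (n + 1)] ++ [cf c hp (n + 1 + 1)],
      z = cf c hp (n + 1) ∨ z = cf c hp (n + 2) := by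
    intro z hz
    simpa using hz
  have hTc : ∀ z ∈ [cf c hp (n + 1)] ++ [cf c hp (n + 1 + 1)], z ∈ c := by
    intro z hz
    rcases hTm z hz with h | h
    · rw [h]; exact cf_mem hp _
    · rw [h]; exact cf_mem hp _
  have hsc : s ∉ c := by
    rcases hsU with h | h
    · rw [h]; exact D.pc
    · rw [h]; exact D.qc
  have hsm : s ∉ mid := by
    rcases hsU with h | h
    · rw [h]; exact D.pm
    · rw [h]; exact D.qm
  have hlm : ∀ z ∈ l, z ∉ mid := by
    intro z hz hz'
    rcases hin z hz with (h | h) | ⟨j, _, _, h⟩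
    · exact D.pm (h ▸ hz')
    · exact D.qm (h ▸ hz')
    · exact D.mc z hz' (h ▸ cf_mem hp _)
  have hlT : ∀ z ∈ l, ¬ (z = cf c hp (n + 1) ∨ z = cf c hp (n + 2)) := by
    intro z hz hz'
    rcases hin z hz with (h | h) | ⟨j, j1, j2, h⟩
    · rcases hz' with h' | h'
      · exact D.pc (h ▸ h' ▸ cf_mem hp _)
      · exact D.pc (h ▸ h' ▸ cf_mem hp _)
    · rcases hz' with h' | h'
      · exact D.qc (h ▸ h' ▸ cf_mem hp _)
      · exact D.qc (h ▸ h' ▸ cf_mem hp _)
    · rcases hz' with h' | h'
      · rw [h'] at h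
        exact far49 D.cyc hp n (s := 1) (t := j) (by omega) (by omega) h
      · rw [h'] at h
        exact far49 D.cyc hp n (s := 2) (t := j) (by omega) (by omega) h
  refine mk49 (r := c.length) hl (Pth.singleton s) D.path hT ?_ ?_ hL
    ?_ ?_ (Or.inl ⟨h2.symm, h1⟩) h5 ?_ ?_ ?_
  · intro z hz hz'
    rw [List.mem_singleton] at hz'
    exact hs (hz' ▸ hz)
  · intro z hz hz'
    exact D.mc z hz (hTc z hz')
  · simp only [List.length_singleton]
    omega
  · have h7 := D.len
    simp only [List.length_append, List.length_singleton]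
    omega
  · intro z hz
    rw [D.mem_U]
    rcases hz with hz | hz
    · rcases hin z hz with (h | h) | ⟨j, _, _, h⟩
      · exact Or.inl h
      · exact Or.inr (Or.inl h)
      · exact Or.inr (Or.inr (Or.inr (h ▸ cf_mem hp _)))
    · rw [List.mem_singleton] at hz
      rcases hsU with h | h
      · exact Or.inl (hz.trans h)
      · exact Or.inr (Or.inl (hz.trans h))
  · intro z hz
    rw [D.mem_U]
    rcases hz with hz | hz
    · exact Or.inr (Or.inr (Or.inl hz))
    · exact Or.inr (Or.inr (Or.inr (hTc z hz)))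
  · intro z hz hz'
    rw [List.mem_singleton] at hz
    rcases hz with hz | hz
    · rcases hz' with h' | h'
      · exact hlm z hz h'
      · exact hlT z hz (hTm z h')
    · rcases hz' with h' | h'
      · exact hsm (hz ▸ h')
      · exact hsc (hz ▸ hTc z h')

/-- move (M2) -/
theorem DatZ49.move2 [DecidableEq V] (D : DatZ49 G c p q x y mid) (n k : ℕ)
    (h1 : G.Adj p (cf c hp n)) (h2 : G.Adj p (cf c hp (n + 3)))
    (hk : 3 ≤ k) (hk' : k + 1 ≤ c.length)
    (h3 : G.Adj q (cf c hp (n + k))) (h4 : G.Adj q (cf c hp (n + k + 1)))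
    (h5 : (G.Adj x (cf c hp (n + 1)) ∧ G.Adj y (cf c hp (n + 2))) ∨
      (G.Adj x (cf c hp (n + 2)) ∧ G.Adj y (cf c hp (n + 1)))) :
    Two49 G c.length D.U := by
  have hL := D.cyc.1
  have hA := arc_pth D.cyc hp (k - 3) (n + 3) (by omega)
  rw [show n + 3 + (k - 3) = n + k by omega] at hA
  have hB := arc_pth D.cyc hp (c.length - k - 1) (n + k + 1) (by omega)
  have e0 : cf c hp (n + k + 1 + (c.length - k - 1)) = cf c hp n := by
    apply cf_congr
    rw [show n + k + 1 + (c.length - k - 1) = n + c.length by omega, Nat.add_mod_right]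
  rw [e0] at hB
  have hA' := hA.concat h3.symm (fun h => D.qc (arc_mem49 hp h))
  have hAB := hA'.append hB h4 (by
    intro z hz hz'
    rw [List.mem_append, List.mem_singleton] at hz
    rcases hz with hz | hz
    · rw [mem_seg] at hz hz'
      obtain ⟨j, j1, j2, j3⟩ := hz
      obtain ⟨i, i1, i2, i3⟩ := hz'
      rw [j3, show j = n + (j - n) by omega, show i = n + (i - n) by omega] at i3
      exact far49 D.cyc hp n (s := j - n) (t := i - n) (by omega) (by omega) i3
    · exact D.qc (hz ▸ arc_mem49 hp hz'))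
  have hin : ∀ z ∈ (seg (cf c hp) (n + 3) (k - 3) ++ [q]) ++
      seg (cf c hp) (n + k + 1) (c.length - k - 1), (z = p ∨ z = q) ∨
        ∃ j, 3 ≤ j ∧ j ≤ c.length ∧ z = cf c hp (n + j) := by
    intro z hz
    rw [List.mem_append, List.mem_append, List.mem_singleton] at hz
    rcases hz with (hz | hz) | hz
    · rw [mem_seg] at hz
      obtain ⟨j, j1, j2, j3⟩ := hz
      exact Or.inr ⟨j - n, by omega, by omega, by
        rw [show n + (j - n) = j by omega]; exact j3⟩
    · exact Or.inl (Or.inr hz)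
    · rw [mem_seg] at hz
      obtain ⟨j, j1, j2, j3⟩ := hz
      exact Or.inr ⟨j - n, by omega, by omega, by
        rw [show n + (j - n) = j by omega]; exact j3⟩
  refine D.close2 hp n h5 hAB (s := p) ?_ h1.symm h2 ?_ (Or.inl rfl) hin
  · intro h
    rcases List.mem_append.1 h with h | h
    · rcases List.mem_append.1 h with h | h
      · exact D.pc (arc_mem49 hp h)
      · exact D.pq (List.mem_singleton.1 h)
    · exact D.pc (arc_mem49 hp h)
  · simp only [List.length_append, seg_length, List.length_singleton]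
    omega

/-- move (M3) -/
theorem DatZ49.move3 [DecidableEq V] (D : DatZ49 G c p q x y mid) (n k : ℕ)
    (h1 : G.Adj p (cf c hp n)) (h2 : G.Adj q (cf c hp (n + 3)))
    (hk : 3 ≤ k) (hk' : k + 1 ≤ c.length)
    (h3 : G.Adj p (cf c hp (n + k))) (h4 : G.Adj q (cf c hp (n + k + 1)))
    (h5 : (G.Adj x (cf c hp (n + 1)) ∧ G.Adj y (cf c hp (n + 2))) ∨
      (G.Adj x (cf c hp (n + 2)) ∧ G.Adj y (cf c hp (n + 1)))) :
    Two49 G c.length D.U := by
  have hL := D.cyc.1
  have hA := arc_pth D.cyc hp (k - 3) (n + 3) (by omega)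
  rw [show n + 3 + (k - 3) = n + k by omega] at hA
  have hB := arc_pth D.cyc hp (c.length - k - 1) (n + k + 1) (by omega)
  have e0 : cf c hp (n + k + 1 + (c.length - k - 1)) = cf c hp n := by
    apply cf_congr
    rw [show n + k + 1 + (c.length - k - 1) = n + c.length by omega, Nat.add_mod_right]
  rw [e0] at hB
  have hA' := hA.concat h3.symm (fun h => D.pc (arc_mem49 hp h))
  have hAB := hA'.append hB.reverse h1 (by
    intro z hz hz'
    rw [List.mem_reverse] at hz'
    rw [List.mem_append, List.mem_singleton] at hz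
    rcases hz with hz | hz
    · rw [mem_seg] at hz hz'
      obtain ⟨j, j1, j2, j3⟩ := hz
      obtain ⟨i, i1, i2, i3⟩ := hz'
      rw [j3, show j = n + (j - n) by omega, show i = n + (i - n) by omega] at i3
      exact far49 D.cyc hp n (s := j - n) (t := i - n) (by omega) (by omega) i3
    · exact D.pc (hz ▸ arc_mem49 hp hz'))
  have hin : ∀ z ∈ (seg (cf c hp) (n + 3) (k - 3) ++ [p]) ++
      (seg (cf c hp) (n + k + 1) (c.length - k - 1)).reverse, (z = p ∨ z = q) ∨
        ∃ j, 3 ≤ j ∧ j ≤ c.length ∧ z = cf c hp (n + j) := by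
    intro z hz
    rw [List.mem_append, List.mem_append, List.mem_singleton, List.mem_reverse] at hz
    rcases hz with (hz | hz) | hz
    · rw [mem_seg] at hz
      obtain ⟨j, j1, j2, j3⟩ := hz
      exact Or.inr ⟨j - n, by omega, by omega, by
        rw [show n + (j - n) = j by omega]; exact j3⟩
    · exact Or.inl (Or.inl hz)
    · rw [mem_seg] at hz
      obtain ⟨j, j1, j2, j3⟩ := hz
      exact Or.inr ⟨j - n, by omega, by omega, by
        rw [show n + (j - n) = j by omega]; exact j3⟩
  refine D.close2 hp n h5 hAB (s := q) ?_ h4.symm h2 ?_ (Or.inr rfl) hin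
  · intro h
    rcases List.mem_append.1 h with h | h
    · rcases List.mem_append.1 h with h | h
      · exact D.qc (arc_mem49 hp h)
      · exact D.pq (List.mem_singleton.1 h).symm
    · exact D.qc (arc_mem49 hp (List.mem_reverse.1 h))
  · simp only [List.length_append, seg_length, List.length_singleton, List.length_reverse]
    omega

/-- the moves give the combinatorial data -/
theorem DatZ49.llz [DecidableEq V] (D : DatZ49 G c p q x y mid)
    (hno : ¬ Two49 G c.length D.U) :
    LLZ c.length (ind49 G c hp p) (ind49 G c hp x) (ind49 G c hp y) (ind49 G c hp q) := by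
  haveI : NeZero c.length := ⟨by omega⟩
  have hL := D.cyc.1
  have hU : D.swap.U = D.U := by
    ext z
    rw [D.swap.mem_U, D.mem_U]
    simp only [List.mem_reverse]
    tauto
  have hno' : ¬ Two49 G c.length D.swap.U := by rw [hU]; exact hno
  have gen1 : ∀ {p q x y : V} {mid : List V} (D : DatZ49 G c p q x y mid),
      ¬ Two49 G c.length D.U → ∀ i : ZMod c.length, ind49 G c hp p (i - 1) = 1 →
      ind49 G c hp p (i + 1) = 1 → ind49 G c hp x i + ind49 G c hp q i ≤ 1 := by
    intro p q x y mid D hno i h1 h2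
    obtain ⟨n, hn⟩ : ∃ n : ℕ, i - 1 = ((n : ℕ) : ZMod c.length) :=
      ⟨(i - 1).val, (ZMod.natCast_zmod_val _).symm⟩
    have hi : i = ((n + 1 : ℕ) : ZMod c.length) := by
      push_cast
      rw [← hn]; ring
    have hi' : i + 1 = ((n + 2 : ℕ) : ZMod c.length) := by
      push_cast
      rw [← hn]; ring
    rw [ind_nat49 hp n hn] at h1
    rw [ind_nat49 hp (n + 2) hi'] at h2
    have l1 := ind_le49 (G := G) hp x i
    have l2 := ind_le49 (G := G) hp q i
    by_contra hne
    have k1 : ind49 G c hp x i = 1 := by omega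
    have k2 : ind49 G c hp q i = 1 := by omega
    rw [ind_nat49 hp (n + 1) hi] at k1 k2
    exact hno (D.move1 hp n h1 h2 k1 k2)
  -- the windows: `s` at `i - 1`, `s'` at `i + 2`, `t` at `j`, `t'` at `j + 1`
  have gen2 : ∀ {p q x y : V} {mid : List V} (D : DatZ49 G c p q x y mid),
      ¬ Two49 G c.length D.U → ∀ (s' t t' : V), (s' = p ∧ t = q ∧ t' = q) ∨
        (s' = q ∧ t = p ∧ t' = q) → ∀ i j : ZMod c.length,
      j ≠ i - 1 → j ≠ i → j ≠ i + 1 → ind49 G c hp p (i - 1) = 1 →
      ind49 G c hp s' (i + 2) = 1 → ind49 G c hp t j = 1 → ind49 G c hp t' (j + 1) = 1 →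
      ind49 G c hp x i + ind49 G c hp y (i + 1) ≤ 1 ∧
        ind49 G c hp x (i + 1) + ind49 G c hp y i ≤ 1 := by
    intro p q x y mid D hno s' t t' hcase i j j1 j2 j3 h1 h2 h3 h4
    obtain ⟨n, hn⟩ : ∃ n : ℕ, i - 1 = ((n : ℕ) : ZMod c.length) :=
      ⟨(i - 1).val, (ZMod.natCast_zmod_val _).symm⟩
    have hi : i = ((n + 1 : ℕ) : ZMod c.length) := by
      push_cast
      rw [← hn]; ring
    have hi' : i + 1 = ((n + 2 : ℕ) : ZMod c.length) := by
      push_cast
      rw [← hn]; ring
    have hi'' : i + 2 = ((n + 3 : ℕ) : ZMod c.length) := by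
      push_cast
      rw [← hn]; ring
    set k := (j - (i - 1)).val with hk
    have hkc : ((k : ℕ) : ZMod c.length) = j - (i - 1) := by
      rw [hk]; exact ZMod.natCast_zmod_val _
    have hj : j = ((n + k : ℕ) : ZMod c.length) := by
      push_cast
      rw [hkc, ← hn]; ring
    have hj' : j + 1 = ((n + k + 1 : ℕ) : ZMod c.length) := by
      push_cast
      rw [hkc, ← hn]; ring
    have hkl : k < c.length := ZMod.val_lt _
    have k0 : k ≠ 0 := by
      intro h
      rw [h] at hkc
      push_cast at hkc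
      exact j1 (by linear_combination -hkc)
    have k1 : k ≠ 1 := by
      intro h
      rw [h] at hkc
      push_cast at hkc
      exact j2 (by linear_combination -hkc)
    have k2 : k ≠ 2 := by
      intro h
      rw [h] at hkc
      push_cast at hkc
      exact j3 (by linear_combination -hkc)
    rw [ind_nat49 hp n hn] at h1
    rw [ind_nat49 hp (n + 3) hi''] at h2
    rw [ind_nat49 hp (n + k) hj] at h3
    rw [ind_nat49 hp (n + k + 1) hj'] at h4
    have l1 := ind_le49 (G := G) hp x i
    have l2 := ind_le49 (G := G) hp x (i + 1)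
    have l3 := ind_le49 (G := G) hp y i
    have l4 := ind_le49 (G := G) hp y (i + 1)
    have fin : ¬ ((G.Adj x (cf c hp (n + 1)) ∧ G.Adj y (cf c hp (n + 2))) ∨
        (G.Adj x (cf c hp (n + 2)) ∧ G.Adj y (cf c hp (n + 1)))) := by
      intro h5
      rcases hcase with ⟨rfl, rfl, rfl⟩ | ⟨rfl, rfl, rfl⟩
      · exact hno (D.move2 hp n k h1 h2 (by omega) (by omega) h3 h4 h5)
      · exact hno (D.move3 hp n k h1 h2 (by omega) (by omega) h3 h4 h5)
    constructor
    · by_contra hne
      have k1 : ind49 G c hp x i = 1 := by omega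
      have k2 : ind49 G c hp y (i + 1) = 1 := by omega
      rw [ind_nat49 hp (n + 1) hi] at k1
      rw [ind_nat49 hp (n + 2) hi'] at k2
      exact fin (Or.inl ⟨k1, k2⟩)
    · by_contra hne
      have k1 : ind49 G c hp x (i + 1) = 1 := by omega
      have k2 : ind49 G c hp y i = 1 := by omega
      rw [ind_nat49 hp (n + 2) hi'] at k1
      rw [ind_nat49 hp (n + 1) hi] at k2
      exact fin (Or.inr ⟨k1, k2⟩)
  exact
    { ba := fun i => ind_le49 hp p i
      bb := fun i => ind_le49 hp x i
      bb' := fun i => ind_le49 hp y i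
      ba' := fun i => ind_le49 hp q i
      m1 := fun i h1 h2 => gen1 D hno i h1 h2
      m1' := fun i h1 h2 => gen1 D.swap hno' i h1 h2
      w1 := fun i j j1 j2 j3 h1 h2 h3 h4 =>
        gen2 D hno p q q (Or.inl ⟨rfl, rfl, rfl⟩) i j j1 j2 j3 h1 h2 h3 h4
      w1' := fun i j j1 j2 j3 h1 h2 h3 h4 => by
        have := gen2 D.swap hno' q p p (Or.inl ⟨rfl, rfl, rfl⟩) i j j1 j2 j3 h1 h2 h3 h4
        omega
      w2 := fun i j j1 j2 j3 h1 h2 h3 h4 =>
        gen2 D hno q p q (Or.inr ⟨rfl, rfl, rfl⟩) i j j1 j2 j3 h1 h2 h3 h4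
      w2' := fun i j j1 j2 j3 h1 h2 h3 h4 => by
        have := gen2 D.swap hno' p q p (Or.inr ⟨rfl, rfl, rfl⟩) i j j1 j2 j3 h1 h2 h3 h4
        omega }

end

/-- **LLZ for a cycle given as a set**: a listing of the cycle along which the data hold; the degrees
into the cycle are the sums -/
theorem llz49 [DecidableEq V] {r : ℕ} (hr : 3 ≤ r) {C : Finset V} (hC : CycSet G C)
    (hCr : C.card = r) {p q x y : V} {mid : List V} (hmid : Pth G x y mid) (hpx : G.Adj p x)
    (hyq : G.Adj y q) (hpq : p ≠ q) (hpm : p ∉ mid) (hqm : q ∉ mid) (hpC : p ∉ C) (hqC : q ∉ C)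
    (hmC : ∀ z ∈ mid, z ∉ C) (hlen : r ≤ mid.length + 2)
    (hno : ¬ Two49 G r (insert p (insert q (mid.toFinset ∪ C)))) :
    ∃ (c : List V) (hp : 0 < c.length), c.length = r ∧ Cyc G c ∧ (∀ z, z ∈ c ↔ z ∈ C) ∧
      LLZ c.length (ind49 G c hp p) (ind49 G c hp x) (ind49 G c hp y) (ind49 G c hp q) := by
  obtain ⟨c, hc, hs⟩ := hC
  have hcard := card_of_list (Cyc.nodup hc) hs
  have hCc : c.toFinset = C := by
    ext z; rw [List.mem_toFinset]; exact hs z
  have hlr : c.length = r := by omega
  have hp : 0 < c.length := by omega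
  have D : DatZ49 G c p q x y mid :=
    { cyc := hc
      path := hmid
      px := hpx
      yq := hyq
      pq := hpq
      pm := hpm
      qm := hqm
      pc := fun h => hpC ((hs p).1 h)
      qc := fun h => hqC ((hs q).1 h)
      mc := fun z hz h => hmC z hz ((hs z).1 h)
      len := by rw [hlr]; exact hlen }
  refine ⟨c, hp, hlr, hc, hs, D.llz hp ?_⟩
  unfold DatZ49.U
  rw [hCc, hlr]
  exact hno

end Pool.Agent.P0
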