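import Pool.Agent.P0.FourAdm5
import Pool.Agent.P0.LLG49

set_option linter.all false

/-!
# P0, I7 (C1): four ends, the final count
-/

namespace Pool.Agent.P0

open Pool.Agent.Helper14.LongCyc Pool.Agent.LCK Pool.Agent.FRC

universe u

variable {V : Type u} {G : SimpleGraph V}

/-- consequence of the moves (M1) -/
theorem LLZ.sum81 {r : ℕ} [NeZero r] {a b b' a' : ZMod r → ℕ} (h : LLZ r a b b' a') :
    3 * (∑ i, a i + ∑ i, a' i) + ∑ i, b i + ∑ i, b' i ≤ 6 * r := by
  have sh : ∀ f : ZMod r → ℕ, ∑ i, f (i - 1) = ∑ i, f i := fun f =>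
    Equiv.sum_comp (Equiv.subRight (1 : ZMod r)) f
  have sh' : ∀ f : ZMod r → ℕ, ∑ i, f (i + 1) = ∑ i, f i := fun f =>
    Equiv.sum_comp (Equiv.addRight (1 : ZMod r)) f
  have key : ∀ i, (a (i - 1) + a (i + 1) + a' i + b i) + (a' (i - 1) + a' (i + 1) + a i + b' i)
      ≤ 6 := by
    intro i
    have h1 := h.ba (i - 1)
    have h2 := h.ba (i + 1)
    have h3 := h.ba' (i - 1)
    have h4 := h.ba' (i + 1)
    have h5 := h.ba i
    have h6 := h.ba' i
    have h7 := h.bb i
    have h8 := h.bb' i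
    have m1 := h.m1 i
    have m1' := h.m1' i
    by_cases e1 : a (i - 1) = 1 ∧ a (i + 1) = 1
    · have := m1 e1.1 e1.2
      by_cases e2 : a' (i - 1) = 1 ∧ a' (i + 1) = 1
      · have := m1' e2.1 e2.2
        omega
      · omega
    · by_cases e2 : a' (i - 1) = 1 ∧ a' (i + 1) = 1
      · have := m1' e2.1 e2.2
        omega
      · omega
  have hsum := Finset.sum_le_card_nsmul (Finset.univ : Finset (ZMod r)) _ 6 fun i _ => key i
  rw [Finset.card_univ, ZMod.card, smul_eq_mul] at hsum
  simp only [Finset.sum_add_distrib] at hsum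
  rw [sh a, sh' a, sh a', sh' a'] at hsum
  omega

theorem dg_card81 (D : Finset V) (z : V) : dg G D z ≤ D.card := by
  classical
  unfold dg
  exact Finset.card_filter_le _ _

/-- one missing bit -/
theorem dg_miss81 {D : Finset V} {p z : V} (hz : z ∈ D) (hn : ¬ G.Adj p z) :
    dg G D p + 1 ≤ D.card := by
  classical
  unfold dg
  have h1 : (D.filter fun u => G.Adj p u) ⊆ D.erase z := by
    intro u hu
    rw [Finset.mem_filter] at hu
    exact Finset.mem_erase.2 ⟨fun he => hn (he ▸ hu.2), hu.1⟩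
  have h2 := Finset.card_le_card h1
  rw [Finset.card_erase_of_mem hz] at h2
  have h3 := Finset.card_pos.2 ⟨z, hz⟩
  omega

/-- two missing bits -/
theorem dg_miss81' {D : Finset V} {p z z' : V} (hz : z ∈ D) (hz' : z' ∈ D) (hzz : z ≠ z')
    (hn : ¬ G.Adj p z) (hn' : ¬ G.Adj p z') : dg G D p + 2 ≤ D.card := by
  classical
  unfold dg
  have h1 : (D.filter fun u => G.Adj p u) ⊆ (D.erase z).erase z' := by
    intro u hu
    rw [Finset.mem_filter] at hu
    exact Finset.mem_erase.2 ⟨fun he => hn' (he ▸ hu.2),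
      Finset.mem_erase.2 ⟨fun he => hn (he ▸ hu.2), hu.1⟩⟩
  have h2 := Finset.card_le_card h1
  have hz2 : z' ∈ D.erase z := Finset.mem_erase.2 ⟨hzz.symm, hz'⟩
  rw [Finset.card_erase_of_mem hz2, Finset.card_erase_of_mem hz] at h2
  have h3 := Finset.card_pos.2 ⟨z', hz2⟩
  rw [Finset.card_erase_of_mem hz] at h3
  omega

section

variable {U : Finset V} {k r : ℕ} {Q : List V} {p q x y : V} {F : Finset (Finset V)}

/-- the ends of a path with `r` vertices against a member of the family -/
theorem Adm41.member81 [DecidableEq V] (h : Adm41 G U r Q p q F x y) (hr : 3 ≤ r)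
    {C : Finset V} (hC : C ∈ F) (hCr : C.card = r) :
    3 * (dg G C x + dg G C y) + dg G C p + dg G C q ≤ 6 * r := by
  classical
  obtain ⟨c, hp, c1, c2, c3, c4⟩ := llz49 hr (h.opt.fam.cyc C hC) hCr h.path h.xp h.qy h.ne
    h.xQ h.yQ (h.x_notC hC) (h.y_notC hC)
    (fun z hz hzC => h.notQ hC hzC hz)
    (by rw [h.len])
    (by
      intro h2
      refine h.opt.no_two hC (h2.mono ?_)
      intro z hz
      rw [Finset.mem_insert, Finset.mem_insert, Finset.mem_union, List.mem_toFinset] at hz
      rcases hz with hz | hz | hz | hz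
      · rw [hz]; exact Finset.mem_union_right _ h.x_mem
      · rw [hz]; exact Finset.mem_union_right _ h.y_mem
      · exact Finset.mem_union_right _ (h.Q_mem hz)
      · exact Finset.mem_union_left _ hz)
  haveI : NeZero c.length := ⟨by omega⟩
  have hn := Cyc.nodup c2
  have h1 := c4.sum81
  rw [sum_ind49 hp hn, sum_ind49 hp hn, sum_ind49 hp hn, sum_ind49 hp hn] at h1
  have hCt : c.toFinset = C := by
    ext z; rw [List.mem_toFinset]; exact c3 z
  rw [hCt, c1] at h1
  exact h1

/-- the new member is not one of the old members -/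
theorem Set41.notMem81 [DecidableEq V] (S : Set41 G U k r) {C D : Finset V} (hF : Opt49 G U r F)
    (hC : C ∈ F) (hF' : Opt49 G U r (insert D (F.erase C))) : D ∉ F.erase C := by
  intro hD
  have h1 := S.fcard _ hF
  have h2 := S.fcard _ hF'
  rw [Finset.insert_eq_of_mem hD, Finset.card_erase_of_mem hC] at h2
  have := Finset.card_pos.2 ⟨C, hC⟩
  omega

/-- the final count with four ends -/
theorem Adm41.fourCount81 [DecidableEq V] (S : Set41 G U k r) (hr : 3 ≤ r)
    (h : Adm41 G U r Q p q F x y) {C D : Finset V} (hC : C ∈ F) {z z' : V}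
    (h' : Adm41 G U r Q p q (insert D (F.erase C)) z z')
    (hmiss : 2 * r ≤ dg G C p + dg G C q + 5)
    (hS4 : ∀ E ∈ F, E ≠ C → 3 * (dg G E x + dg G E y + dg G E z + dg G E z') ≤ 8 * r) :
    False := by
  have hD := S.notMem81 h.opt hC h'.opt
  have d1 := S.deg x (rest_subset _ _ h.x_mem)
  have d2 := S.deg y (rest_subset _ _ h.y_mem)
  have d3 := S.deg z (rest_subset _ _ h'.x_mem)
  have d4 := S.deg z' (rest_subset _ _ h'.y_mem)
  rw [h.opt.fam.dg_split, ← Finset.add_sum_erase F (fun E => dg G E x) hC] at d1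
  rw [h.opt.fam.dg_split, ← Finset.add_sum_erase F (fun E => dg G E y) hC] at d2
  rw [h'.opt.fam.dg_split, Finset.sum_insert hD] at d3 d4
  have i1 := h.inner hr
  have i2 := h'.inner hr
  have m1 := h.member81 hr hC (S.mem _ h.opt _ hC)
  have hDr := S.mem _ h'.opt D (Finset.mem_insert_self _ _)
  have t1 : dg G D z ≤ r := by rw [← hDr]; exact dg_card81 _ _
  have t2 : dg G D z' ≤ r := by rw [← hDr]; exact dg_card81 _ _
  have hsum := Finset.sum_le_card_nsmul (F.erase C)
    (fun E => 3 * (dg G E x + dg G E y + dg G E z + dg G E z')) (8 * r) fun E hE =>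
      hS4 E (Finset.mem_of_mem_erase hE) (Finset.ne_of_mem_erase hE)
  rw [smul_eq_mul, Finset.card_erase_of_mem hC] at hsum
  simp only [← Finset.mul_sum, Finset.sum_add_distrib] at hsum
  have hk := S.fcard _ h.opt
  have hpos := Finset.card_pos.2 ⟨C, hC⟩
  obtain ⟨m, hm⟩ : ∃ m, F.card = m + 1 := ⟨F.card - 1, by omega⟩
  rw [hm, Nat.add_sub_cancel] at hsum
  rw [← hk, hm] at d1 d2 d3 d4
  have e1 : 2 * (m + 1 + 1) * r = 2 * (m * r) + 4 * r := by ring
  have e2 : m * (8 * r) = 8 * (m * r) := by ring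
  rw [e1] at d1 d2 d3 d4
  rw [e2] at hsum
  omega

end

/-- every vertex of a cycle is in every window -/
theorem window81 {c : List V} (hp : 0 < c.length) (n : ℕ) {z : V} (hz : z ∈ c) :
    ∃ j < c.length, cf c hp (n + j) = z := by
  obtain ⟨i, hi, rfl⟩ := exists_cf hp hz
  have hn := Nat.mod_lt n hp
  have e := Nat.div_add_mod n c.length
  rcases Nat.lt_or_ge i (n % c.length) with h | h
  · refine ⟨i + c.length - n % c.length, by omega, ?_⟩
    apply cf_congr
    have : n + (i + c.length - n % c.length) = i + c.length * (n / c.length + 1) := by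
      rw [Nat.mul_add, Nat.mul_one]
      omega
    rw [this, Nat.add_mul_mod_self_left]
  · refine ⟨i - n % c.length, by omega, ?_⟩
    apply cf_congr
    have : n + (i - n % c.length) = i + c.length * (n / c.length) := by omega
    rw [this, Nat.add_mul_mod_self_left]

/-- `x` replaces `c_2` and `y` replaces `c_4` -/
theorem two_swap81 [DecidableEq V] {c : List V} (hc : Cyc G c) (hp : 0 < c.length) (n : ℕ)
    (h5 : 5 ≤ c.length) {C : Finset V} (hs : ∀ z, z ∈ c ↔ z ∈ C) {x y : V} (hx : x ∉ c)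
    (hy : y ∉ c) (hxy : x ≠ y) (h1 : G.Adj x (cf c hp (n + 1))) (h3 : G.Adj x (cf c hp (n + 3)))
    (h3' : G.Adj y (cf c hp (n + 3))) (h5' : G.Adj y (cf c hp (n + 5))) :
    CycSet G (insert x (insert y ((C.erase (cf c hp (n + 2))).erase (cf c hp (n + 4))))) := by
  have hA := arc_pth hc hp (c.length - 4) (n + 5) (by omega)
  have e0 : cf c hp (n + 5 + (c.length - 4)) = cf c hp (n + 1) := by
    apply cf_congr
    rw [show n + 5 + (c.length - 4) = n + 1 + c.length by omega, Nat.add_mod_right]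
  rw [e0] at hA
  have c3 : cf c hp (n + 3) ∈ c := cf_mem hp _
  have hB : Pth G x y [x, cf c hp (n + 3), y] := by
    refine ((Pth.singleton y).cons h3'.symm ?_).cons h3 ?_
    · rw [List.mem_singleton]
      intro he
      exact hy (he ▸ c3)
    · rw [List.mem_cons, List.mem_singleton]
      rintro (he | he)
      · exact hx (he ▸ c3)
      · exact hxy he
  have hin : ∀ z, z ∈ seg (cf c hp) (n + 5) (c.length - 4) → z ∈ c ∧ z ≠ cf c hp (n + 2) ∧
      z ≠ cf c hp (n + 3) ∧ z ≠ cf c hp (n + 4) := by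
    intro z hz
    refine ⟨arc_mem49 hp hz, ?_, ?_, ?_⟩ <;>
    · intro hzz
      rw [mem_seg] at hz
      obtain ⟨j, j1, j2, j3⟩ := hz
      rw [hzz, show j = n + (j - n) by omega] at j3
      exact far49 hc hp n (by omega) (by omega) j3
  obtain ⟨e1, -⟩ := joinSet hA hB (by
    intro z hz hz'
    obtain ⟨z1, z2, z3, z4⟩ := hin z hz
    simp only [List.mem_cons, List.not_mem_nil, or_false] at hz'
    rcases hz' with rfl | rfl | rfl
    · exact hx z1
    · exact z3 rfl
    · exact hy z1) (by rw [seg_length]; simp only [List.length_cons, List.length_nil]; omega)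
    (Or.inr ⟨h5'.symm, h1.symm⟩)
  have hset : (seg (cf c hp) (n + 5) (c.length - 4) ++ [x, cf c hp (n + 3), y]).toFinset =
      insert x (insert y ((C.erase (cf c hp (n + 2))).erase (cf c hp (n + 4)))) := by
    ext z
    simp only [List.mem_toFinset, List.mem_append, List.mem_cons, List.not_mem_nil, or_false,
      Finset.mem_insert, Finset.mem_erase]
    constructor
    · rintro (hz | hz | hz | hz)
      · obtain ⟨z1, z2, z3, z4⟩ := hin z hz
        exact Or.inr (Or.inr ⟨z4, z2, (hs z).1 z1⟩)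
      · exact Or.inl hz
      · rw [hz]
        exact Or.inr (Or.inr ⟨far49 hc hp n (by omega) (by omega),
          (far49 hc hp n (by omega) (by omega)).symm, (hs _).1 c3⟩)
      · exact Or.inr (Or.inl hz)
    · rintro (hz | hz | ⟨z4, z2, hz⟩)
      · exact Or.inr (Or.inl hz)
      · exact Or.inr (Or.inr (Or.inr hz))
      · obtain ⟨j, hj, rfl⟩ := window81 hp (n + 2) ((hs z).2 hz)
        rcases Nat.lt_or_ge j 3 with h | h
        · rcases (show j = 0 ∨ j = 1 ∨ j = 2 by omega) with rfl | rfl | rfl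
          · exact absurd rfl z2
          · exact Or.inr (Or.inr (Or.inl rfl))
          · exact absurd rfl z4
        · left
          rw [mem_seg]
          exact ⟨n + 2 + j, by omega, by omega, rfl⟩
  rw [← hset]
  exact e1

/-- **(C1)**, final count: both ends adjacent to `c_1`, `c_3`, `c_5` is impossible, if the four ends
`x, y, c_2, c_4` have at most `8 r / 3` neighbours in every other member -/
theorem Adm41.fourEnd81 [DecidableEq V] {U : Finset V} {k r : ℕ} {Q : List V} {p q x y : V}
    {F : Finset (Finset V)} (S : Set41 G U k r) (hr : 5 ≤ r)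
    (h : Adm41 G U r Q p q F x y) {C : Finset V} (hC : C ∈ F) {c : List V} (hc : Cyc G c)
    (hp : 0 < c.length) (hs : ∀ z, z ∈ c ↔ z ∈ C) (n : ℕ)
    (hx1 : G.Adj x (cf c hp (n + 1))) (hx3 : G.Adj x (cf c hp (n + 3)))
    (hy3 : G.Adj y (cf c hp (n + 3))) (hy5 : G.Adj y (cf c hp (n + 5)))
    (hz : (G.Adj p (cf c hp (n + 2)) ∧ G.Adj q (cf c hp (n + 4))) ∨
      (G.Adj p (cf c hp (n + 4)) ∧ G.Adj q (cf c hp (n + 2))))
    (hmiss : 2 * r ≤ dg G C p + dg G C q + 5)
    (hS4 : ∀ E ∈ F, E ≠ C → 3 * (dg G E x + dg G E y + dg G E (cf c hp (n + 2)) +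
      dg G E (cf c hp (n + 4))) ≤ 8 * r) : False := by
  have hCr := S.mem _ h.opt _ hC
  have hlen : c.length = r := by
    have h1 := List.toFinset_card_of_nodup (Cyc.nodup hc)
    have h2 : c.toFinset = C := by
      ext z; rw [List.mem_toFinset]; exact hs z
    rw [h2, hCr] at h1
    exact h1.symm
  have hD := two_swap81 hc hp n (by omega) hs (fun hh => h.x_notC hC ((hs x).1 hh))
    (fun hh => h.y_notC hC ((hs y).1 hh)) h.ne hx1 hx3 hy3 hy5
  have hne : cf c hp (n + 2) ≠ cf c hp (n + 4) := far49 hc hp n (by omega) (by omega)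
  rcases hz with ⟨z1, z2⟩ | ⟨z1, z2⟩
  · have h' := h.swapB hC ((hs _).1 (cf_mem hp _)) ((hs _).1 (cf_mem hp _)) hne hD z1.symm z2
    exact h.fourCount81 S (by omega) hC h' hmiss hS4
  · rw [Finset.erase_right_comm] at hD
    have h' := h.swapB hC ((hs _).1 (cf_mem hp _)) ((hs _).1 (cf_mem hp _)) hne.symm hD z1.symm z2
    refine h.fourCount81 S (by omega) hC h' hmiss ?_
    intro E hE hEC
    have := hS4 E hE hEC
    omega

/-- **(C1)**: no member `C` has three positions `c_1, c_3, c_5` adjacent to both ends, with both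
inner ends adjacent to `c_3` and at most one bit missing at all -/
theorem Adm41.c181 [DecidableEq V] {U : Finset V} {k r : ℕ} {Q : List V} {p q x y : V}
    {F : Finset (Finset V)} (S : Set41 G U k r) (hr : 5 ≤ r)
    (h : Adm41 G U r Q p q F x y) {C : Finset V} (hC : C ∈ F) {c : List V} (hc : Cyc G c)
    (hp : 0 < c.length) (hs : ∀ z, z ∈ c ↔ z ∈ C) (n : ℕ)
    (x1 : G.Adj x (cf c hp (n + 1))) (x3 : G.Adj x (cf c hp (n + 3)))
    (x5 : G.Adj x (cf c hp (n + 5)))
    (y1 : G.Adj y (cf c hp (n + 1))) (y3 : G.Adj y (cf c hp (n + 3)))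
    (y5 : G.Adj y (cf c hp (n + 5)))
    (p3 : G.Adj p (cf c hp (n + 3))) (q3 : G.Adj q (cf c hp (n + 3)))
    (hmiss : 2 * r ≤ dg G C p + dg G C q + 1) : False := by
  have hCr := S.mem _ h.opt _ hC
  have hlen : c.length = r := by
    have h1 := List.toFinset_card_of_nodup (Cyc.nodup hc)
    have h2 : c.toFinset = C := by
      ext z; rw [List.mem_toFinset]; exact hs z
    rw [h2, hCr] at h1
    exact h1.symm
  have hne : cf c hp (n + 2) ≠ cf c hp (n + 4) := far49 hc hp n (by omega) (by omega)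
  have m2 : cf c hp (n + 2) ∈ C := (hs _).1 (cf_mem hp _)
  have m4 : cf c hp (n + 4) ∈ C := (hs _).1 (cf_mem hp _)
  have bp := dg_card81 (G := G) C p
  have bq := dg_card81 (G := G) C q
  rw [hCr] at bp bq
  have hz : (G.Adj p (cf c hp (n + 2)) ∧ G.Adj q (cf c hp (n + 4))) ∨
      (G.Adj p (cf c hp (n + 4)) ∧ G.Adj q (cf c hp (n + 2))) := by
    by_cases e1 : G.Adj p (cf c hp (n + 2))
    · by_cases e2 : G.Adj q (cf c hp (n + 4))
      · exact Or.inl ⟨e1, e2⟩
      · right
        have t1 := dg_miss81 m4 e2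
        constructor
        · by_contra e3
          have t2 := dg_miss81 m4 e3
          omega
        · by_contra e3
          have t2 := dg_miss81' m2 m4 hne e3 e2
          omega
    · right
      have t1 := dg_miss81 m2 e1
      constructor
      · by_contra e3
        have t2 := dg_miss81' m2 m4 hne e1 e3
        omega
      · by_contra e3
        have t2 := dg_miss81 m2 e3
        omega
  have P : Pat5 G c hp x y p q n := ⟨x1, x3, x5, y1, y3, y5, p3, q3, by tauto, by tauto⟩
  exact h.fourEnd81 S hr hC hc hp hs n x1 x3 y3 y5 hz (by omega) fun E hE hEC =>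
    h.four5 hr hC hE hEC.symm hCr (S.mem _ h.opt _ hE) hc hs P

end Pool.Agent.P0
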