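import Pool.Agent.P0.GlueEq41

set_option linter.all false

/-!
# P0: at least `k r` vertices, from the two missing inputs
-/

namespace Pool.Agent.P0

open Pool.Agent.Helper14.LongCyc Pool.Agent.LCK Pool.Agent.FRC

universe u

/-- at least `k r` vertices -/
theorem full41_of (h3 : ∀ k r, 3 ≤ k → 4 ≤ r → IRest41.{u} k r)
    (h3' : ∀ k r, 3 ≤ k → 4 ≤ r → IRestEq41.{u} k r)
    (h7 : ∀ k r, 3 ≤ k → 4 ≤ r → ICoreEq41.{u} k r) {k r : ℕ} (hk : 2 ≤ k) (hr : 3 ≤ r) :
    T41.{u} k r (k * r) := by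
  rcases Nat.lt_or_ge r 4 with h | h
  · obtain rfl : r = 3 := by omega
    exact three41 k
  · rcases Nat.lt_or_ge k 3 with h' | h'
    · obtain rfl : k = 2 := by omega
      exact base41 h
    · intro V _ G U hU hdeg
      rcases Nat.lt_or_ge (k * r) U.card with h'' | h''
      · exact more41_of h3 hk hr G U h'' hdeg
      · exact eq41 h' h (more41_of h3 (by omega) hr) (h3' k r h' h) (h7 k r h' h) G U
          (le_antisymm h'' hU) hdeg

/-- the restricted version: exactly `k r` vertices are allowed only if `Q k r` holds -/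
theorem part41_of (h3 : ∀ k r, 3 ≤ k → 4 ≤ r → IRest41.{u} k r) {k r : ℕ} (hk : 2 ≤ k)
    (hr : 3 ≤ r) {V : Type u} [DecidableEq V] (G : SimpleGraph V) (U : Finset V)
    (hU : k * r ≤ U.card) (hQ : k * r < U.card ∨ k = 2 ∨ r = 3)
    (hdeg : ∀ v ∈ U, 2 * k * r ≤ 3 * dg G U v) :
    ∃ F, Fam G U (fun L => r ≤ L) F ∧ F.card = k := by
  rcases hQ with h | rfl | rfl
  · exact more41_of h3 hk hr G U h hdeg
  · rcases Nat.lt_or_ge r 4 with h | h
    · obtain rfl : r = 3 := by omega
      exact three41 2 G U hU hdeg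
    · exact base41 h G U hU hdeg
  · exact three41 k G U hU hdeg

end Pool.Agent.P0
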