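import Pool.Agent.P0.Main41

set_option linter.all false

/-!
# P0: the glue for exactly `k r` vertices
-/

namespace Pool.Agent.P0

open Pool.Agent.Helper14.LongCyc Pool.Agent.LCK Pool.Agent.FRC

universe u

/-- the rest of an optimal family of `k - 1` cycles has at least `r` vertices (`k r` vertices) -/
def IRestEq41 (k r : ℕ) : Prop := ∀ {V : Type u} [DecidableEq V] {G : SimpleGraph V}
  {U : Finset V} {F : Finset (Finset V)}, Opt49 G U r F → F.card + 1 = k → U.card = k * r →
    (∀ v ∈ U, 2 * k * r ≤ 3 * dg G U v) → r ≤ (rest U F).card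

/-- the core: exactly `k r` vertices, every optimal family consists of `k - 1` cycles with exactly
`r` vertices, the rest has `r` vertices and a Hamilton path `v 0, …, v (r - 1)` -/
def ICoreEq41 (k r : ℕ) : Prop := ∀ {V : Type u} [DecidableEq V] {G : SimpleGraph V}
  {U : Finset V} {F : Finset (Finset V)} {v : ℕ → V}, OptV49 G U r r F v → U.card = k * r →
    (∀ F', Opt49 G U r F' → F'.card + 1 = k) → (∀ F', Opt49 G U r F' → ∀ C ∈ F', C.card = r) →
    (∀ F', Opt49 G U r F' → (rest U F').card = r) →
    (∀ v ∈ U, 2 * k * r ≤ 3 * dg G U v) → False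

/-- exactly `k r` vertices -/
theorem eq41 {k r : ℕ} (hk : 3 ≤ k) (hr : 4 ≤ r) (hT : T41.{u} (k - 1) r ((k - 1) * r + 1))
    (h3 : IRestEq41.{u} k r) (h4 : ICoreEq41.{u} k r) {V : Type u} [DecidableEq V]
    (G : SimpleGraph V) (U : Finset V) (hU : U.card = k * r)
    (hdeg : ∀ v ∈ U, 2 * k * r ≤ 3 * dg G U v) :
    ∃ F, Fam G U (fun L => r ≤ L) F ∧ F.card = k := by
  by_contra hcon
  push Not at hcon
  obtain ⟨j, rfl⟩ : ∃ j, k = j + 1 := ⟨k - 1, by omega⟩
  rw [show j + 1 - 1 = j by omega] at hT
  obtain ⟨F1, hF1, hF1k⟩ := hT G U (by rw [hU]; nlinarith) (fun v hv => by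
    have := hdeg v hv
    nlinarith)
  have hcard : ∀ F, Opt49 G U r F → F.card + 1 = j + 1 := by
    intro F hF
    have h1 := hF.max F1 hF1
    rcases Nat.lt_or_ge j F.card with h | h
    · exfalso
      obtain ⟨F', hs, hc⟩ := Finset.exists_subset_card_eq (s := F) (n := j + 1) h
      refine hcon F' ⟨fun s hs' => hF.fam.cyc s (hs hs'), fun s hs' => hF.fam.sub s (hs hs'),
        fun s hs' => hF.fam.len s (hs hs'), fun s hs' t ht hne => hF.fam.disj s (hs hs') t (hs ht)
          hne⟩ hc
    · omega
  have hrest : ∀ F, Opt49 G U r F → r ≤ (rest U F).card := fun F hF =>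
    h3 hF (hcard F hF) hU hdeg
  have hmem : ∀ F, Opt49 G U r F → ∀ C ∈ F, C.card = r := by
    intro F hF C hC
    have h1 := hrest F hF
    have h2 := hF.fam.card_rest
    have h3 := hcard F hF
    have h4 : ∀ s ∈ F, r ≤ s.card := fun s hs => hF.fam.len s hs
    have h5 : (F.erase C).card * r + C.card ≤ tot F := by
      unfold tot
      rw [← Finset.sum_erase_add F _ hC]
      have h6 := Finset.card_nsmul_le_sum (F.erase C) (fun s => s.card) r
        fun s hs => h4 s (Finset.mem_of_mem_erase hs)
      rw [smul_eq_mul] at h6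
      omega
    rw [Finset.card_erase_of_mem hC] at h5
    have h7 := h4 C hC
    have h8 : F.card = j := by omega
    rw [h8] at h5
    have h9 : (j - 1) * r + r = j * r := by
      obtain ⟨i, rfl⟩ : ∃ i, j = i + 1 := ⟨j - 1, by omega⟩
      rw [Nat.add_sub_cancel]; ring
    have h10 : (j + 1) * r = j * r + r := by ring
    omega
  have hrest' : ∀ F, Opt49 G U r F → (rest U F).card = r := by
    intro F hF
    have h2 := hF.fam.card_rest
    have h3 := hcard F hF
    have h4 : tot F = F.card * r := by
      unfold tot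
      rw [Finset.sum_const_nat (hmem F hF)]
    have h8 : F.card = j := by omega
    have h10 : (j + 1) * r = j * r + r := by ring
    rw [h8] at h4
    omega
  obtain ⟨m, F, v, hv⟩ := exists_optV49 (G := G) (U := U) (r := r) (fun F hF => by
    have := hrest F hF
    exact Finset.card_pos.1 (by omega))
  have hle : m ≤ r := by
    have h1 := Pa.le hv.pa
    rw [hrest' F hv.opt] at h1
    exact h1
  rcases Nat.lt_or_ge m r with hm | hm
  · have hl : (seg v 0 (m - 1)).length < r := by
      rw [seg_length]
      have := hv.pos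
      omega
    exact icaseII41 (by omega) hr hv.toP (hcard F hv.opt) hdeg hl.le
      (by rw [hrest' F hv.opt]; exact hl)
  · obtain rfl : m = r := le_antisymm hle hm
    exact h4 hv hU hcard hmem hrest' hdeg

end Pool.Agent.P0
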