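import Pool.Agent.P0.Graph49

set_option linter.all false

/-!
# P0, I7: the moves for a path with exactly `r` vertices

`C` a cycle of length `r`, `p, x, …, y, q` a path with exactly `r` vertices, disjoint from `C`.
-/

namespace Pool.Agent.P0

open Pool.Agent.Helper14.LongCyc Pool.Agent.LCK

universe u

variable {V : Type u} {G : SimpleGraph V}

/-- a window is open: `x` and `y` are joined to the two vertices of it, in one of the two ways -/
def Phi14 {R : Type*} [Add R] [One R] (b b' : R → ℕ) (i : R) : Prop :=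
  (b i = 1 ∧ b' (i + 1) = 1) ∨ (b (i + 1) = 1 ∧ b' i = 1)

/-- the six moves, weak forms -/
structure LLe14 (r : ℕ) (a b b' a' : ZMod r → ℕ) : Prop where
  ba : ∀ i, a i ≤ 1
  bb : ∀ i, b i ≤ 1
  bb' : ∀ i, b' i ≤ 1
  ba' : ∀ i, a' i ≤ 1
  m1 : ∀ i, a (i - 1) = 1 → a (i + 1) = 1 → b i + a' i ≤ 1
  m1' : ∀ i, a' (i - 1) = 1 → a' (i + 1) = 1 → b' i + a i ≤ 1
  m2 : ∀ i j, a (i - 1) = 1 → a (i + 2) = 1 → j ≠ i - 1 → j ≠ i → j ≠ i + 1 →
    a' j = 1 → a' (j + 1) = 1 → ¬ Phi14 b b' i
  m2' : ∀ i j, a' (i - 1) = 1 → a' (i + 2) = 1 → j ≠ i - 1 → j ≠ i → j ≠ i + 1 →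
    a j = 1 → a (j + 1) = 1 → ¬ Phi14 b b' i
  m3 : ∀ i j, a' (i - 1) = 1 → a (i + 2) = 1 → j ≠ i - 1 → j ≠ i → j ≠ i + 1 →
    a' j = 1 → a (j + 1) = 1 → ¬ Phi14 b b' i
  m3' : ∀ i j, a (i - 1) = 1 → a' (i + 2) = 1 → j ≠ i - 1 → j ≠ i → j ≠ i + 1 →
    a j = 1 → a' (j + 1) = 1 → ¬ Phi14 b b' i

section

variable {c : List V} (hc : Cyc G c) (hp : 0 < c.length)

/-- the data: a path `p, x, …, y, q` with exactly `r` vertices disjoint from the cycle `c` -/
structure DatEq14 (G : SimpleGraph V) (c : List V) (p q x y : V) (mid : List V) : Prop where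
  cyc : Cyc G c
  path : Pth G x y mid
  px : G.Adj p x
  yq : G.Adj y q
  pq : p ≠ q
  pm : p ∉ mid
  qm : q ∉ mid
  pc : p ∉ c
  qc : q ∉ c
  mc : ∀ z ∈ mid, z ∉ c
  len : mid.length + 2 = c.length

variable {p q x y : V} {mid : List V}

theorem DatEq14.swap (D : DatEq14 G c p q x y mid) : DatEq14 G c q p y x mid.reverse where
  cyc := D.cyc
  path := D.path.reverse
  px := D.yq.symm
  yq := D.px.symm
  pq := D.pq.symm
  pm := by simpa using D.qm
  qm := by simpa using D.pm
  pc := D.qc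
  qc := D.pc
  mc := fun z hz => D.mc z (List.mem_reverse.1 hz)
  len := by simpa using D.len

/-- the region -/
def DatEq14.U [DecidableEq V] (D : DatEq14 G c p q x y mid) : Finset V :=
  insert p (insert q (mid.toFinset ∪ c.toFinset))

theorem DatEq14.mem_U [DecidableEq V] (D : DatEq14 G c p q x y mid) (z : V) :
    z ∈ D.U ↔ z = p ∨ z = q ∨ z ∈ mid ∨ z ∈ c := by
  unfold DatEq14.U
  simp

/-- move (M1): `p` replaces `c (n+1)`; the rest closes through `c (n+1)` -/
theorem DatEq14.move1 [DecidableEq V] (D : DatEq14 G c p q x y mid) (n : ℕ)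
    (h1 : G.Adj p (cf c hp n)) (h2 : G.Adj p (cf c hp (n + 2)))
    (h3 : G.Adj x (cf c hp (n + 1))) (h4 : G.Adj q (cf c hp (n + 1))) :
    Two49 G c.length D.U := by
  have hL := D.cyc.1
  have hA := arc_pth D.cyc hp (c.length - 2) (n + 2) (by omega)
  have e0 : cf c hp (n + 2 + (c.length - 2)) = cf c hp n := by
    apply cf_congr
    rw [show n + 2 + (c.length - 2) = n + c.length by omega, Nat.add_mod_right]
  rw [e0] at hA
  have key : ∀ z ∈ seg (cf c hp) (n + 2) (c.length - 2), z ≠ cf c hp (n + 1) := by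
    intro z hz hzz
    rw [mem_seg] at hz
    obtain ⟨j, j1, j2, j3⟩ := hz
    rw [hzz, show j = n + (j - n) by omega] at j3
    exact far49 D.cyc hp n (s := 1) (t := j - n) (by omega) (by omega) j3
  have hR : Pth G x q (mid ++ [q]) := D.path.concat D.yq D.qm
  have hRm : ∀ z ∈ mid ++ [q], z = q ∨ z ∈ mid := by
    intro z hz
    rw [List.mem_append, List.mem_singleton] at hz
    tauto
  have hRl : c.length ≤ (mid ++ [q]).length + 1 := by
    have := D.len
    simp only [List.length_append, List.length_singleton]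
    omega
  refine mk49 (r := c.length) hA (Pth.singleton p) hR (Pth.singleton (cf c hp (n + 1))) ?_ ?_ hL
    ?_ ?_ (Or.inl ⟨h2.symm, h1.symm⟩) (Or.inl ⟨h3, h4⟩) ?_ ?_ ?_
  · intro z hz hz'
    rw [List.mem_singleton] at hz'
    exact D.pc (hz' ▸ arc_mem49 hp hz)
  · intro z hz hz'
    rw [List.mem_singleton] at hz'
    have h5 : z ∈ c := hz' ▸ cf_mem hp (n + 1)
    rcases hRm z hz with h | h
    · exact D.qc (h ▸ h5)
    · exact D.mc z h h5
  · rw [seg_length]
    simp only [List.length_singleton]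
    omega
  · simp only [List.length_singleton]
    exact hRl
  · intro z hz
    rw [D.mem_U]
    rcases hz with hz | hz
    · exact Or.inr (Or.inr (Or.inr (arc_mem49 hp hz)))
    · exact Or.inl (by simpa using hz)
  · intro z hz
    rw [D.mem_U]
    rcases hz with hz | hz
    · rcases hRm z hz with h | h
      · exact Or.inr (Or.inl h)
      · exact Or.inr (Or.inr (Or.inl h))
    · rw [List.mem_singleton] at hz
      exact Or.inr (Or.inr (Or.inr (hz ▸ cf_mem hp (n + 1))))
  · intro z hz hz'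
    rw [List.mem_singleton] at hz hz'
    rcases hz with hz | hz
    · have h5 := arc_mem49 hp hz
      rcases hz' with h | h
      · rcases hRm z h with h | h
        · exact D.qc (h ▸ h5)
        · exact D.mc z h h5
      · exact key z hz h
    · rcases hz' with h | h
      · rcases hRm z h with h | h
        · exact D.pq (hz.symm.trans h)
        · exact D.pm (hz ▸ h)
      · exact D.pc (hz ▸ h ▸ cf_mem hp (n + 1))

/-- the general exchange at a window: the outside part `A` of the cycle, with `q` inserted, closes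
through `p`; the inner path closes through the window -/
theorem DatEq14.window [DecidableEq V] (D : DatEq14 G c p q x y mid) (n : ℕ) {s t : V} {A : List V}
    (hA : Pth G s t A)
    (hin : ∀ z ∈ A, z = q ∨ (z ∈ c ∧ ∃ j, 3 ≤ j ∧ j ≤ c.length ∧ z = cf c hp (n + j)))
    (hlen : A.length + 1 = c.length) (hs : G.Adj p s) (ht : G.Adj p t)
    (hw : (G.Adj x (cf c hp (n + 1)) ∧ G.Adj y (cf c hp (n + 2))) ∨
      (G.Adj x (cf c hp (n + 2)) ∧ G.Adj y (cf c hp (n + 1)))) :
    Two49 G c.length D.U := by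
  have hL := D.cyc.1
  have hT : Pth G (cf c hp (n + 1)) (cf c hp (n + 2)) [cf c hp (n + 1), cf c hp (n + 2)] := by
    refine (Pth.singleton (cf c hp (n + 1))).concat (cf_adj D.cyc hp (n + 1)) ?_
    simpa using (far49 D.cyc hp n (s := 1) (t := 2) (by omega) (by omega)).symm
  have hTm : ∀ z ∈ [cf c hp (n + 1), cf c hp (n + 2)],
      z = cf c hp (n + 1) ∨ z = cf c hp (n + 2) := by
    intro z hz
    simpa using hz
  have hTc : ∀ z ∈ [cf c hp (n + 1), cf c hp (n + 2)], z ∈ c := by
    intro z hz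
    rcases hTm z hz with h | h
    · rw [h]; exact cf_mem hp _
    · rw [h]; exact cf_mem hp _
  refine mk49 (r := c.length) hA (Pth.singleton p) D.path hT ?_ ?_ hL
    ?_ ?_ (Or.inl ⟨hs.symm, ht.symm⟩) hw ?_ ?_ ?_
  · intro z hz hz'
    rw [List.mem_singleton] at hz'
    rcases hin z hz with h | h
    · exact D.pq (hz'.symm.trans h)
    · exact D.pc (hz' ▸ h.1)
  · intro z hz hz'
    exact D.mc z hz (hTc z hz')
  · simp only [List.length_singleton]
    omega
  · have h7 := D.len
    simp only [List.length_cons, List.length_nil]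
    omega
  · intro z hz
    rw [D.mem_U]
    rcases hz with hz | hz
    · rcases hin z hz with h | h
      · exact Or.inr (Or.inl h)
      · exact Or.inr (Or.inr (Or.inr h.1))
    · exact Or.inl (by simpa using hz)
  · intro z hz
    rw [D.mem_U]
    rcases hz with hz | hz
    · exact Or.inr (Or.inr (Or.inl hz))
    · exact Or.inr (Or.inr (Or.inr (hTc z hz)))
  · intro z hz hz'
    rw [List.mem_singleton] at hz
    rcases hz with hz | hz
    · rcases hin z hz with h | ⟨h, j, j1, j2, j3⟩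
      · rcases hz' with h' | h'
        · exact D.qm (h ▸ h')
        · exact D.qc (h ▸ hTc z h')
      · rcases hz' with h' | h'
        · exact D.mc z h' h
        · rcases hTm z h' with h'' | h''
          · rw [h''] at j3
            exact far49 D.cyc hp n (s := 1) (t := j) (by omega) (by omega) j3
          · rw [h''] at j3
            exact far49 D.cyc hp n (s := 2) (t := j) (by omega) (by omega) j3
    · rcases hz' with h' | h'
      · exact D.pm (hz ▸ h')
      · exact D.pc (hz ▸ hTc z h')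

/-- the two arcs outside the window `c (n+1), c (n+2)`, cut between `c (n+k)` and `c (n+k+1)` -/
theorem DatEq14.arcs (D : DatEq14 G c p q x y mid) (n k : ℕ) (hk : 3 ≤ k)
    (hk' : k + 1 ≤ c.length) :
    Pth G (cf c hp (n + 3)) (cf c hp (n + k)) (seg (cf c hp) (n + 3) (k - 3)) ∧
    Pth G (cf c hp (n + k + 1)) (cf c hp n)
      (seg (cf c hp) (n + k + 1) (c.length - k - 1)) ∧
    (∀ z ∈ seg (cf c hp) (n + 3) (k - 3), z ∉ seg (cf c hp) (n + k + 1) (c.length - k - 1)) ∧
    (∀ z, z ∈ seg (cf c hp) (n + 3) (k - 3) ∨ z ∈ seg (cf c hp) (n + k + 1) (c.length - k - 1) →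
      z ∈ c ∧ ∃ j, 3 ≤ j ∧ j ≤ c.length ∧ z = cf c hp (n + j)) := by
  have hL := D.cyc.1
  have hA := arc_pth D.cyc hp (k - 3) (n + 3) (by omega)
  rw [show n + 3 + (k - 3) = n + k by omega] at hA
  have hB := arc_pth D.cyc hp (c.length - k - 1) (n + k + 1) (by omega)
  have e0 : cf c hp (n + k + 1 + (c.length - k - 1)) = cf c hp n := by
    apply cf_congr
    rw [show n + k + 1 + (c.length - k - 1) = n + c.length by omega, Nat.add_mod_right]
  rw [e0] at hB
  refine ⟨hA, hB, ?_, ?_⟩
  · intro z hz hz'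
    rw [mem_seg] at hz hz'
    obtain ⟨j, j1, j2, j3⟩ := hz
    obtain ⟨i, i1, i2, i3⟩ := hz'
    rw [j3, show j = n + (j - n) by omega, show i = n + (i - n) by omega] at i3
    exact far49 D.cyc hp n (s := j - n) (t := i - n) (by omega) (by omega) i3
  · intro z hz
    rcases hz with hz | hz
    · have hz1 := hz
      rw [mem_seg] at hz
      obtain ⟨j, j1, j2, j3⟩ := hz
      exact ⟨arc_mem49 hp hz1, j - n, by omega, by omega, by
        rw [show n + (j - n) = j by omega]; exact j3⟩
    · have hz1 := hz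
      rw [mem_seg] at hz
      obtain ⟨j, j1, j2, j3⟩ := hz
      exact ⟨arc_mem49 hp hz1, j - n, by omega, by omega, by
        rw [show n + (j - n) = j by omega]; exact j3⟩

/-- move (M2) -/
theorem DatEq14.move2 [DecidableEq V] (D : DatEq14 G c p q x y mid) (n k : ℕ)
    (h1 : G.Adj p (cf c hp n)) (h2 : G.Adj p (cf c hp (n + 3)))
    (hk : 3 ≤ k) (hk' : k + 1 ≤ c.length)
    (h3 : G.Adj q (cf c hp (n + k))) (h4 : G.Adj q (cf c hp (n + k + 1)))
    (hw : (G.Adj x (cf c hp (n + 1)) ∧ G.Adj y (cf c hp (n + 2))) ∨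
      (G.Adj x (cf c hp (n + 2)) ∧ G.Adj y (cf c hp (n + 1)))) :
    Two49 G c.length D.U := by
  obtain ⟨hA, hB, hdis, hmem⟩ := D.arcs hp n k hk hk'
  have hqA : q ∉ seg (cf c hp) (n + 3) (k - 3) := fun h => D.qc (arc_mem49 hp h)
  have hqB : q ∉ seg (cf c hp) (n + k + 1) (c.length - k - 1) := fun h => D.qc (arc_mem49 hp h)
  have hA' := hA.concat h3.symm hqA
  have hAB := hA'.append hB h4 (by
    intro z hz hz'
    rw [List.mem_append, List.mem_singleton] at hz
    rcases hz with hz | hz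
    · exact hdis z hz hz'
    · exact hqB (hz ▸ hz'))
  refine D.window hp n hAB ?_ ?_ h2 h1 hw
  · intro z hz
    rw [List.mem_append, List.mem_append, List.mem_singleton] at hz
    rcases hz with (hz | hz) | hz
    · exact Or.inr (hmem z (Or.inl hz))
    · exact Or.inl hz
    · exact Or.inr (hmem z (Or.inr hz))
  · simp only [List.length_append, seg_length, List.length_singleton]
    omega

/-- move (M3): crossing -/
theorem DatEq14.move3 [DecidableEq V] (D : DatEq14 G c p q x y mid) (n k : ℕ)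
    (h1 : G.Adj q (cf c hp n)) (h2 : G.Adj p (cf c hp (n + 3)))
    (hk : 3 ≤ k) (hk' : k + 1 ≤ c.length)
    (h3 : G.Adj q (cf c hp (n + k))) (h4 : G.Adj p (cf c hp (n + k + 1)))
    (hw : (G.Adj x (cf c hp (n + 1)) ∧ G.Adj y (cf c hp (n + 2))) ∨
      (G.Adj x (cf c hp (n + 2)) ∧ G.Adj y (cf c hp (n + 1)))) :
    Two49 G c.length D.U := by
  obtain ⟨hA, hB, hdis, hmem⟩ := D.arcs hp n k hk hk'
  have hqA : q ∉ seg (cf c hp) (n + 3) (k - 3) := fun h => D.qc (arc_mem49 hp h)
  have hqB : q ∉ seg (cf c hp) (n + k + 1) (c.length - k - 1) := fun h => D.qc (arc_mem49 hp h)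
  have hA' := hA.concat h3.symm hqA
  have hAB := hA'.append hB.reverse h1 (by
    intro z hz hz'
    rw [List.mem_reverse] at hz'
    rw [List.mem_append, List.mem_singleton] at hz
    rcases hz with hz | hz
    · exact hdis z hz hz'
    · exact hqB (hz ▸ hz'))
  refine D.window hp n hAB ?_ ?_ h2 h4 hw
  · intro z hz
    rw [List.mem_append, List.mem_append, List.mem_singleton, List.mem_reverse] at hz
    rcases hz with (hz | hz) | hz
    · exact Or.inr (hmem z (Or.inl hz))
    · exact Or.inl hz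
    · exact Or.inr (hmem z (Or.inr hz))
  · simp only [List.length_append, seg_length, List.length_singleton, List.length_reverse]
    omega

/-- the moves give the combinatorial data -/
theorem DatEq14.ll [DecidableEq V] (D : DatEq14 G c p q x y mid)
    (hno : ¬ Two49 G c.length D.U) :
    LLe14 c.length (ind49 G c hp p) (ind49 G c hp x) (ind49 G c hp y) (ind49 G c hp q) := by
  haveI : NeZero c.length := ⟨by omega⟩
  have hL := D.cyc.1
  have hU : D.swap.U = D.U := by
    ext z
    rw [D.swap.mem_U, D.mem_U]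
    simp only [List.mem_reverse]
    tauto
  have hno' : ¬ Two49 G c.length D.swap.U := by rw [hU]; exact hno
  have gen1 : ∀ {p q x y : V} {mid : List V} (D : DatEq14 G c p q x y mid),
      ¬ Two49 G c.length D.U → ∀ i : ZMod c.length, ind49 G c hp p (i - 1) = 1 →
      ind49 G c hp p (i + 1) = 1 → ind49 G c hp x i + ind49 G c hp q i ≤ 1 := by
    intro p q x y mid D hno i h1 h2
    obtain ⟨n, hn⟩ : ∃ n : ℕ, i - 1 = ((n : ℕ) : ZMod c.length) :=
      ⟨(i - 1).val, (ZMod.natCast_zmod_val _).symm⟩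
    have hi : i = ((n + 1 : ℕ) : ZMod c.length) := by
      push_cast
      rw [← hn]; ring
    have hi' : i + 1 = ((n + 2 : ℕ) : ZMod c.length) := by
      push_cast
      rw [← hn]; ring
    rw [ind_nat49 hp n hn] at h1
    rw [ind_nat49 hp (n + 2) hi'] at h2
    have l1 := ind_le49 (G := G) hp x i
    have l2 := ind_le49 (G := G) hp q i
    by_contra hne
    have k1 : ind49 G c hp x i = 1 := by omega
    have k2 : ind49 G c hp q i = 1 := by omega
    rw [ind_nat49 hp (n + 1) hi] at k1 k2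
    exact hno (D.move1 hp n h1 h2 k1 k2)
  -- positions: the window `i, i+1` and a place `j, j+1` outside
  have pos : ∀ i j : ZMod c.length, j ≠ i - 1 → j ≠ i → j ≠ i + 1 → ∃ n k : ℕ,
      3 ≤ k ∧ k + 1 ≤ c.length ∧ i - 1 = ((n : ℕ) : ZMod c.length) ∧
      i = ((n + 1 : ℕ) : ZMod c.length) ∧ i + 1 = ((n + 2 : ℕ) : ZMod c.length) ∧
      i + 2 = ((n + 3 : ℕ) : ZMod c.length) ∧ j = ((n + k : ℕ) : ZMod c.length) ∧
      j + 1 = ((n + k + 1 : ℕ) : ZMod c.length) := by
    intro i j j1 j2 j3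
    obtain ⟨n, hn⟩ : ∃ n : ℕ, i - 1 = ((n : ℕ) : ZMod c.length) :=
      ⟨(i - 1).val, (ZMod.natCast_zmod_val _).symm⟩
    have hkc : (((j - (i - 1)).val : ℕ) : ZMod c.length) = j - (i - 1) :=
      ZMod.natCast_zmod_val _
    have hkl : (j - (i - 1)).val < c.length := ZMod.val_lt _
    generalize (j - (i - 1)).val = k at hkc hkl
    have k0 : k ≠ 0 := by
      intro h
      rw [h] at hkc
      push_cast at hkc
      exact j1 (by linear_combination -hkc)
    have k1 : k ≠ 1 := by
      intro h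
      rw [h] at hkc
      push_cast at hkc
      exact j2 (by linear_combination -hkc)
    have k2 : k ≠ 2 := by
      intro h
      rw [h] at hkc
      push_cast at hkc
      exact j3 (by linear_combination -hkc)
    refine ⟨n, k, by omega, by omega, hn, ?_, ?_, ?_, ?_, ?_⟩
    · push_cast
      rw [← hn]; ring
    · push_cast
      rw [← hn]; ring
    · push_cast
      rw [← hn]; ring
    · push_cast
      rw [hkc, ← hn]; ring
    · push_cast
      rw [hkc, ← hn]; ring
  have win : ∀ {x y : V} {i : ZMod c.length} {n : ℕ}, i = ((n + 1 : ℕ) : ZMod c.length) →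
      i + 1 = ((n + 2 : ℕ) : ZMod c.length) → Phi14 (ind49 G c hp x) (ind49 G c hp y) i →
      (G.Adj x (cf c hp (n + 1)) ∧ G.Adj y (cf c hp (n + 2))) ∨
      (G.Adj x (cf c hp (n + 2)) ∧ G.Adj y (cf c hp (n + 1))) := by
    intro x y i n h1 h2 h3
    unfold Phi14 at h3
    rw [ind_nat49 hp (n + 1) h1, ind_nat49 hp (n + 2) h2, ind_nat49 hp (n + 1) h1,
      ind_nat49 hp (n + 2) h2] at h3
    exact h3
  have gen2 : ∀ {p q x y : V} {mid : List V} (D : DatEq14 G c p q x y mid),
      ¬ Two49 G c.length D.U → ∀ i j : ZMod c.length, ind49 G c hp p (i - 1) = 1 →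
      ind49 G c hp p (i + 2) = 1 → j ≠ i - 1 → j ≠ i → j ≠ i + 1 →
      ind49 G c hp q j = 1 → ind49 G c hp q (j + 1) = 1 →
      ¬ Phi14 (ind49 G c hp x) (ind49 G c hp y) i := by
    intro p q x y mid D hno i j h1 h2 j1 j2 j3 h3 h4 h5
    obtain ⟨n, k, k1, k2, e1, e2, e3, e4, e5, e6⟩ := pos i j j1 j2 j3
    rw [ind_nat49 hp n e1] at h1
    rw [ind_nat49 hp (n + 3) e4] at h2
    rw [ind_nat49 hp (n + k) e5] at h3
    rw [ind_nat49 hp (n + k + 1) e6] at h4
    exact hno (D.move2 hp n k h1 h2 k1 k2 h3 h4 (win e2 e3 h5))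
  have gen3 : ∀ {p q x y : V} {mid : List V} (D : DatEq14 G c p q x y mid),
      ¬ Two49 G c.length D.U → ∀ i j : ZMod c.length, ind49 G c hp q (i - 1) = 1 →
      ind49 G c hp p (i + 2) = 1 → j ≠ i - 1 → j ≠ i → j ≠ i + 1 →
      ind49 G c hp q j = 1 → ind49 G c hp p (j + 1) = 1 →
      ¬ Phi14 (ind49 G c hp x) (ind49 G c hp y) i := by
    intro p q x y mid D hno i j h1 h2 j1 j2 j3 h3 h4 h5
    obtain ⟨n, k, k1, k2, e1, e2, e3, e4, e5, e6⟩ := pos i j j1 j2 j3
    rw [ind_nat49 hp n e1] at h1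
    rw [ind_nat49 hp (n + 3) e4] at h2
    rw [ind_nat49 hp (n + k) e5] at h3
    rw [ind_nat49 hp (n + k + 1) e6] at h4
    exact hno (D.move3 hp n k h1 h2 k1 k2 h3 h4 (win e2 e3 h5))
  have phi : ∀ {b b' : ZMod c.length → ℕ} {i : ZMod c.length}, Phi14 b b' i → Phi14 b' b i := by
    intro b b' i h
    rcases h with h | h
    · exact Or.inr ⟨h.2, h.1⟩
    · exact Or.inl ⟨h.2, h.1⟩
  exact
    { ba := fun i => ind_le49 hp p i
      bb := fun i => ind_le49 hp x i
      bb' := fun i => ind_le49 hp y i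
      ba' := fun i => ind_le49 hp q i
      m1 := fun i h1 h2 => gen1 D hno i h1 h2
      m1' := fun i h1 h2 => gen1 D.swap hno' i h1 h2
      m2 := fun i j h1 h2 j1 j2 j3 h3 h4 => gen2 D hno i j h1 h2 j1 j2 j3 h3 h4
      m2' := fun i j h1 h2 j1 j2 j3 h3 h4 h =>
        gen2 D.swap hno' i j h1 h2 j1 j2 j3 h3 h4 (phi h)
      m3 := fun i j h1 h2 j1 j2 j3 h3 h4 => gen3 D hno i j h1 h2 j1 j2 j3 h3 h4
      m3' := fun i j h1 h2 j1 j2 j3 h3 h4 h =>
        gen3 D.swap hno' i j h1 h2 j1 j2 j3 h3 h4 (phi h) }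

end

end Pool.Agent.P0
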