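import Pool.Agent.P0.MinK99
import Pool.Agent.P0.Ref61
import Pool.Agent.P0.Graph35
import Pool.Agent.P0.Chord35
import Pool.Agent.P0.Glue41
import Pool.Agent.P0.GlueEq41

set_option linter.all false

/-!
# P0, row I3: the two-stage choice (helper35, helper29) and the final count
-/

namespace Pool.Agent.P0.Closed99

open Pool.Agent.Helper14.LongCyc Pool.Agent.LCK Pool.Agent.P0

universe u

variable {V : Type u} {G : SimpleGraph V}

/-- closed lemma, refined, `r ≥ 6`, `|X| ≥ r + 2` -/
theorem closed_longR99 [DecidableEq V] {r : ℕ} (hr : 6 ≤ r) {C X : Finset V}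
    (hC : CycSet G C)
    (hX : CycSet G X) (hCr : C.card = r) (hXr : r + 2 ≤ X.card) (hd : Disjoint C X)
    (hno : NoR61 G r X.card (C ∪ X)) :
    3 * eS G C X ≤ 2 * (r * X.card) := by
  obtain ⟨x, hx, hs'⟩ := hX
  have hnx := Cyc.nodup hx
  have hcard' := card_of_list hnx hs'
  have hXx : x.toFinset = X := by
    ext z; rw [List.mem_toFinset]; exact hs' z
  have hq : 0 < x.length := by omega
  rw [hcard'] at hXr hno ⊢
  have hin : ∀ i, cf x hq i ∈ X := fun i => (hs' _).1 (cf_mem hq i)
  have hnC : ∀ i, cf x hq i ∉ C := fun i h => Finset.disjoint_left.1 hd h (hin i)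
  have loc : ∀ i, 2 * (dg G C (cf x hq (i + 1)) + dg G C (cf x hq (i + (x.length - 1))))
      + dg G C (cf x hq (i + 2)) + dg G C (cf x hq (i + (x.length - 2))) ≤ 4 * r := by
    intro i
    have hA := arc_pth hx hq (x.length - 4) (i + 2) (by omega)
    rw [show i + 2 + (x.length - 4) = i + (x.length - 2) by omega] at hA
    have hmem : ∀ z ∈ seg (cf x hq) (i + 2) (x.length - 4),
        ∃ j, 2 ≤ j ∧ j ≤ x.length - 2 ∧ z = cf x hq (i + j) := by
      intro z hz
      rw [mem_seg] at hz
      obtain ⟨j, j1, j2, j3⟩ := hz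
      exact ⟨j - i, by omega, by omega, by rw [show i + (j - i) = j by omega]; exact j3⟩
    refine llplus35 hr hC hCr hA ?_ ?_ ?_ ?_ ?_ (hnC _) (hnC _) ?_ ?_ ?_
    · exact cf_adj hx hq (i + 1)
    · have := cf_adj hx hq (i + (x.length - 2))
      rwa [show i + (x.length - 2) + 1 = i + (x.length - 1) by omega] at this
    · exact far49 hx hq i (s := 1) (t := x.length - 1) (by omega) (by omega)
    · intro h
      obtain ⟨j, j1, j2, j3⟩ := hmem _ h
      exact far49 hx hq i (s := 1) (t := j) (by omega) (by omega) j3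
    · intro h
      obtain ⟨j, j1, j2, j3⟩ := hmem _ h
      exact far49 hx hq i (s := j) (t := x.length - 1) (by omega) (by omega) j3.symm
    · intro z hz
      obtain ⟨j, _, _, j3⟩ := hmem z hz
      rw [j3]; exact hnC _
    · rw [seg_length]; omega
    · refine noR_two61 hno ?_ ?_
      · intro z hz
        rw [Finset.mem_insert, Finset.mem_insert, Finset.mem_union, List.mem_toFinset] at hz
        rcases hz with h | h | h | h
        · rw [h]; exact Finset.mem_union_right _ (hin _)
        · rw [h]; exact Finset.mem_union_right _ (hin _)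
        · obtain ⟨j, _, _, j3⟩ := hmem z h
          rw [j3]; exact Finset.mem_union_right _ (hin _)
        · exact Finset.mem_union_left _ h
      · have e1 := Finset.card_insert_le (cf x hq (i + 1)) (insert (cf x hq (i + (x.length - 1)))
          ((seg (cf x hq) (i + 2) (x.length - 4)).toFinset ∪ C))
        have e2 := Finset.card_insert_le (cf x hq (i + (x.length - 1)))
          ((seg (cf x hq) (i + 2) (x.length - 4)).toFinset ∪ C)
        have e3 := Finset.card_union_le (seg (cf x hq) (i + 2) (x.length - 4)).toFinset C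
        have e4 := List.toFinset_card_le (seg (cf x hq) (i + 2) (x.length - 4))
        rw [seg_length] at e4
        omega
  have hsum := Finset.sum_le_sum fun i (_ : i ∈ Finset.range x.length) => loc i
  have per : ∀ i, dg G C (cf x hq (i + x.length)) = dg G C (cf x hq i) := fun i => by
    rw [cf_add hq i]
  have sh := fun s => shift61 (fun i => dg G C (cf x hq i)) x.length per s
  simp only [Finset.sum_add_distrib, ← Finset.mul_sum, Finset.sum_const, Finset.card_range,
    smul_eq_mul] at hsum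
  rw [sh 1, sh (x.length - 1), sh 2, sh (x.length - 2), sum_cf61 hq hnx, hXx] at hsum
  rw [mul_comm x.length r] at hsum
  omega

/-- **the closed lemma for `|C| = r`, refined form** -/
theorem closedR99 [DecidableEq V] {r : ℕ} (hr : 4 ≤ r)
    {C X : Finset V} (hC : CycSet G C)
    (hX : CycSet G X) (hCr : C.card = r) (hXr : r < X.card) (hd : Disjoint C X)
    (hno : NoR61 G r X.card (C ∪ X)) :
    3 * eS G C X ≤ 2 * (r * X.card) := by
  rcases Nat.lt_or_ge r 6 with h6 | h6
  · exact closedr61 (by omega) hC hX hCr hXr hd hno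
  · rcases Nat.lt_or_ge X.card (r + 2) with h | h
    · have hXe : X.card = r + 1 := by omega
      rw [hXe] at hno ⊢
      exact closed99 (by omega) hC hX hCr hXe hd hno.short
    · exact closed_longR99 h6 hC hX hCr h hd hno

/-- the data of the two-stage choice -/
structure TwoStage (G : SimpleGraph V) (U : Finset V) (r : ℕ) (K : Finset (Finset V))
    (X : Finset V) : Prop where
  minK : MinK99 G U r K
  cyc : CycSet G X
  sub : X ⊆ rest U K
  len : r ≤ X.card
  minX : ∀ K' X', MinK99 G U r K' → K'.card = K.card → CycSet G X' → X' ⊆ rest U K' →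
    r ≤ X'.card → X.card ≤ X'.card

/-- existence -/
theorem exists_twoStage {U : Finset V} {r q : ℕ}
    (h : ∃ K X, MinK99 G U r K ∧ K.card = q ∧ CycSet G X ∧ X ⊆ rest U K ∧ r ≤ X.card) :
    ∃ K X, TwoStage G U r K X ∧ K.card = q := by
  classical
  have hP : ∃ n, ∃ K X, MinK99 G U r K ∧ K.card = q ∧ CycSet G X ∧ X ⊆ rest U K ∧ r ≤ X.card ∧
      X.card = n := by
    obtain ⟨K, X, h1, h2, h3, h4, h5⟩ := h
    exact ⟨X.card, K, X, h1, h2, h3, h4, h5, rfl⟩
  obtain ⟨K, X, h1, h2, h3, h4, h5, h6⟩ := Nat.find_spec hP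
  refine ⟨K, X, ⟨h1, h3, h4, h5, ?_⟩, h2⟩
  intro K' X' g1 g2 g3 g4 g5
  rw [h6]
  exact Nat.find_min' hP ⟨K', X', g1, g2.trans h2, g3, g4, g5, rfl⟩

/-- replacing a member -/
theorem _root_.Pool.Agent.P0.MinK99.le_of_replace [DecidableEq V] {U : Finset V} {r : ℕ} {K : Finset (Finset V)}
    (hK : MinK99 G U r K) {C : Finset V} (hC : C ∈ K) {D : Finset V} (hD : CycSet G D)
    (hDs : D ⊆ C ∪ rest U K) (hDr : r ≤ D.card) : C.card ≤ D.card := by
  obtain ⟨h1, h2, h3⟩ := hK.fam.replace hC hD hDs hDr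
  have h4 : (insert D (K.erase C)).card = K.card := by
    rw [Finset.card_insert_of_notMem h2, Finset.card_erase_of_mem hC]
    have : 0 < K.card := Finset.card_pos.2 ⟨C, hC⟩
    omega
  have h5 := hK.min _ h1 h4
  unfold tot at h5
  rw [Finset.sum_insert h2] at h5
  have h6 := Finset.add_sum_erase K (fun s => s.card) hC
  omega

/-- replacing a member by a cycle of the same length -/
theorem _root_.Pool.Agent.P0.MinK99.replace_same99 [DecidableEq V] {U : Finset V} {r : ℕ} {K : Finset (Finset V)}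
    (hK : MinK99 G U r K) {C : Finset V} (hC : C ∈ K) {D : Finset V} (hD : CycSet G D)
    (hDs : D ⊆ C ∪ rest U K) (hDr : D.card = C.card) :
    MinK99 G U r (insert D (K.erase C)) ∧ (insert D (K.erase C)).card = K.card ∧
      rest U (insert D (K.erase C)) = (C ∪ rest U K) \ D := by
  have hCr := hK.fam.len C hC
  obtain ⟨h1, h2, h3⟩ := hK.fam.replace hC hD hDs (by show r ≤ D.card; rw [hDr]; exact hCr)
  have h4 : (insert D (K.erase C)).card = K.card := by
    rw [Finset.card_insert_of_notMem h2, Finset.card_erase_of_mem hC]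
    have : 0 < K.card := Finset.card_pos.2 ⟨C, hC⟩
    omega
  have h5 : tot (insert D (K.erase C)) = tot K := by
    unfold tot
    rw [Finset.sum_insert h2, hDr]
    exact Finset.add_sum_erase K (fun s => s.card) hC
  refine ⟨⟨h1, fun K' hK' hc => ?_⟩, h4, h3⟩
  rw [h5]
  exact hK.min K' hK' (by rw [hc, h4])

/-- a member longer than `r` sees little from outside -/
theorem _root_.Pool.Agent.P0.MinK99.outside99 [DecidableEq V] {U : Finset V} {r : ℕ} (hr : 4 ≤ r)
    {K : Finset (Finset V)} (hK : MinK99 G U r K) {C : Finset V} (hC : C ∈ K) (hCr : r < C.card)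
    {v : V} (hv : v ∈ rest U K) : dg G C v ≤ (r + 1) / 2 := by
  refine LCK.outside hr (hK.fam.cyc C hC) hCr ((mem_rest.1 hv).2 C hC) ?_
  intro D hD hDs hDr
  refine hK.le_of_replace hC hD (hDs.trans ?_) hDr
  intro z hz
  rcases Finset.mem_insert.1 hz with h | h
  · rw [h]; exact Finset.mem_union_right _ hv
  · exact Finset.mem_union_left _ h

/-- the final arithmetic -/
theorem count_false {r L e : ℕ} (hr : 4 ≤ r) (hXr : r < L)
    (main : 8 * (r * L) ≤ 3 * (r * (r + 1)) + 6 * e) (c1 : 2 * e ≤ L * L)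
    (c2 : 2 * r < L → e ≤ 2 * L) : False := by
  rcases Nat.lt_or_ge (2 * r) L with h | h
  · have h3 := c2 h
    have h4 : 8 * (r * L) ≤ 3 * (r * (r + 1)) + 12 * L := by omega
    obtain ⟨s, rfl⟩ : ∃ s, r = s + 4 := ⟨r - 4, by omega⟩
    obtain ⟨t, ht⟩ : ∃ t, L = 2 * (s + 4) + 1 + t := ⟨L - (2 * (s + 4) + 1), by omega⟩
    rw [ht] at h4
    nlinarith
  · have h4 : 8 * (r * L) ≤ 3 * (r * (r + 1)) + 3 * (L * L) := by omega
    obtain ⟨a, ha⟩ : ∃ a, L = r + 1 + a := ⟨L - (r + 1), by omega⟩
    obtain ⟨b, hb⟩ : ∃ b, 2 * r = L + b := ⟨2 * r - L, by omega⟩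
    obtain ⟨s, hs⟩ : ∃ s, r = s + 4 := ⟨r - 4, by omega⟩
    have h5 : 8 * ((r : ℤ) * L) ≤ 3 * (r * (r + 1)) + 3 * (L * L) := by exact_mod_cast h4
    have ha' : (L : ℤ) = r + 1 + a := by exact_mod_cast ha
    have hb' : (2 : ℤ) * r = L + b := by exact_mod_cast hb
    have hs' : (r : ℤ) = s + 4 := by exact_mod_cast hs
    have a0 : (0 : ℤ) ≤ a := Int.natCast_nonneg a
    have b0 : (0 : ℤ) ≤ b := Int.natCast_nonneg b
    have s0 : (0 : ℤ) ≤ s := Int.natCast_nonneg s
    have e5 : 8 * ((r : ℤ) * L) - 3 * (r * (r + 1)) - 3 * (L * L) =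
        3 * (a * b) + (s + 4) * (s + 1) + (r + 3) * b := by
      have ha'' : (a : ℤ) = L - r - 1 := by linarith
      have hb'' : (b : ℤ) = 2 * r - L := by linarith
      have hs'' : (s : ℤ) = r - 4 := by linarith
      rw [ha'', hb'', hs'']
      ring
    have p1 : (0 : ℤ) ≤ a * b := mul_nonneg a0 b0
    have p2 : (0 : ℤ) < (s + 4) * (s + 1) := by positivity
    have p3 : (0 : ℤ) ≤ (r + 3) * b := by positivity
    linarith

section

variable [DecidableEq V] {U : Finset V} {r : ℕ} {K : Finset (Finset V)} {X : Finset V}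

/-- (a) -/
theorem TwoStage.le (h : TwoStage G U r K X) {C : Finset V} (hC : C ∈ K) : C.card ≤ X.card :=
  h.minK.le_of_replace hC h.cyc (h.sub.trans Finset.subset_union_right) h.len

/-- (b) -/
theorem TwoStage.outside (hr : 4 ≤ r) (h : TwoStage G U r K X) (hX : r < X.card) {v : V}
    (hv : v ∈ rest U K \ X) : dg G X v ≤ (r + 1) / 2 := by
  rw [Finset.mem_sdiff] at hv
  refine LCK.outside hr h.cyc hX hv.2 ?_
  intro D hD hDs hDr
  refine h.minX K D h.minK rfl hD (hDs.trans ?_) hDr
  intro z hz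
  rcases Finset.mem_insert.1 hz with h' | h'
  · rw [h']; exact hv.1
  · exact h.sub h'

theorem TwoStage.disj (h : TwoStage G U r K X) {C : Finset V} (hC : C ∈ K) : Disjoint C X := by
  rw [Finset.disjoint_right]
  intro z hz
  exact (mem_rest.1 (h.sub hz)).2 C hC

/-- (c) -/
theorem TwoStage.noR (h : TwoStage G U r K X) {C : Finset V} (hC : C ∈ K) (hCr : C.card = r) :
    NoR61 G r X.card (C ∪ X) := by
  rintro ⟨D, E, hD, hE, hDs, hEs, hDr, hEr, hdd, hEX⟩
  have hsub : C ∪ X ⊆ C ∪ rest U K := Finset.union_subset_union_right h.sub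
  obtain ⟨g1, g2, g3⟩ := h.minK.replace_same99 hC hD (hDs.trans hsub) (by rw [hDr, hCr])
  have := h.minX _ E g1 g2 hE (by
    rw [g3]
    intro z hz
    rw [Finset.mem_sdiff]
    exact ⟨hsub (hEs hz), fun hz' => Finset.disjoint_left.1 hdd hz' hz⟩) hEr
  omega

/-- **the end of I3**: the final count -/
theorem TwoStage.count {k : ℕ} (hr : 4 ≤ r)
    (h : TwoStage G U r K X) (hKk : K.card + 2 = k) (hXr : r < X.card)
    (hdeg : ∀ v ∈ U, 2 * k * r ≤ 3 * dg G U v) : r + 1 ≤ (rest U K \ X).card := by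
  by_contra hcon
  have hrest : (rest U K \ X).card ≤ r := by omega
  set L := X.card with hL
  have hXU : X ⊆ U := h.sub.trans (rest_subset _ _)
  have hsumX : 2 * k * r * L ≤ 3 * eS G X U := by
    unfold eS
    rw [Finset.mul_sum]
    have h1 : ∀ v ∈ X, 2 * k * r ≤ 3 * dg G U v := fun v hv => hdeg v (hXU hv)
    have h2 := Finset.card_nsmul_le_sum X (fun v => 3 * dg G U v) (2 * k * r) h1
    rw [smul_eq_mul, mul_comm] at h2
    exact h2
  have hsplit := h.minK.fam.eS_split X
  have hsplit2 := eS_split_right (G := G) h.sub X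
  have h0 : eS G X (rest U K \ X) ≤ r * ((r + 1) / 2) := by
    rw [eS_comm]
    unfold eS
    have h1 := Finset.sum_le_card_nsmul (rest U K \ X) (fun v => dg G X v) ((r + 1) / 2)
      fun v hv => h.outside hr hXr hv
    rw [smul_eq_mul] at h1
    exact h1.trans (Nat.mul_le_mul_right _ hrest)
  have e2 : 2 * ((r + 1) / 2) ≤ r + 1 := by omega
  have hothers : ∑ C ∈ K, 3 * eS G X C ≤ K.card * (2 * (r * L)) := by
    have h1 := Finset.sum_le_card_nsmul K (fun C => 3 * eS G X C) (2 * (r * L)) ?_
    · rw [smul_eq_mul] at h1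
      exact h1
    · intro C hC
      have hCr := h.minK.fam.len C hC
      show 3 * eS G X C ≤ 2 * (r * L)
      rcases Nat.lt_or_ge r C.card with h' | h'
      · have h2 : eS G X C ≤ L * ((r + 1) / 2) := by
          unfold eS
          have h3 := Finset.sum_le_card_nsmul X (fun v => dg G C v) ((r + 1) / 2)
            fun v hv => h.minK.outside99 hr hC h' (h.sub hv)
          rw [smul_eq_mul] at h3
          exact h3
        have h4 : 3 * ((r + 1) / 2) ≤ 2 * r := by omega
        calc 3 * eS G X C ≤ 3 * (L * ((r + 1) / 2)) := Nat.mul_le_mul_left _ h2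
          _ = L * (3 * ((r + 1) / 2)) := by ring
          _ ≤ L * (2 * r) := Nat.mul_le_mul_left _ h4
          _ = 2 * (r * L) := by ring
      · have hCe : C.card = r := le_antisymm h' hCr
        rw [eS_comm]
        exact closedR99 hr (h.minK.fam.cyc C hC) h.cyc hCe hXr (h.disj hC) (h.noR hC hCe)
  have hsum : 3 * ∑ C ∈ K, eS G X C = ∑ C ∈ K, 3 * eS G X C := by
    rw [Finset.mul_sum]
  obtain ⟨c1, c2⟩ := chords35 (by omega) h.cyc hXr (fun D hD hDX hDr =>
    h.minX K D h.minK rfl hD (hDX.trans h.sub) hDr)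
  rw [← hL] at c1 c2
  obtain ⟨k', rfl⟩ : ∃ k', k = k' + 2 := ⟨k - 2, by omega⟩
  have e1 : K.card = k' := by omega
  rw [e1] at hothers
  have e3 : 2 * (r * ((r + 1) / 2)) ≤ r * (r + 1) := by
    calc 2 * (r * ((r + 1) / 2)) = r * (2 * ((r + 1) / 2)) := by ring
      _ ≤ r * (r + 1) := Nat.mul_le_mul_left _ e2
  have e4 : 2 * (k' + 2) * r * L = k' * (2 * (r * L)) + 4 * (r * L) := by ring
  rw [e4] at hsumX
  have main : 8 * (r * L) ≤ 3 * (r * (r + 1)) + 6 * eS G X X := by omega
  exact count_false hr hXr main c1 c2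

end

/-- existence of a first stage family -/
def LemX99 (k r : ℕ) : Prop := ∀ {V : Type u} [DecidableEq V] {G : SimpleGraph V}
  {U : Finset V} {F : Finset (Finset V)}, Fam G U (fun L => r ≤ L) F → F.card + 1 = k →
    k * r ≤ U.card → (∀ v ∈ U, 2 * k * r ≤ 3 * dg G U v) →
      ∃ K X, MinK99 G U r K ∧ K.card + 2 = k ∧ CycSet G X ∧ X ⊆ rest U K ∧ r ≤ X.card

/-- an optimal family with a member longer than `r` has a large rest -/
theorem rest_of_long99 {k r : ℕ} (hX : LemX99.{u} k r) (hr : 4 ≤ r) {V : Type u} [DecidableEq V]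
    {G : SimpleGraph V} {U : Finset V} {F : Finset (Finset V)} (hF : Opt49 G U r F)
    (hFk : F.card + 1 = k) (hlong : ∃ C ∈ F, r < C.card) (hU : k * r ≤ U.card)
    (hdeg : ∀ v ∈ U, 2 * k * r ≤ 3 * dg G U v) : r + 1 ≤ (rest U F).card := by
  obtain ⟨K0, X0, g1, g2, g3, g4, g5⟩ := hX hF.fam hFk hU hdeg
  obtain ⟨K, X, h, hKc⟩ := exists_twoStage ⟨K0, X0, g1, rfl, g3, g4, g5⟩
  have hKk : K.card + 2 = k := by rw [hKc]; exact g2
  obtain ⟨a1, a2⟩ := h.minK.fam.add h.cyc h.sub h.len
  have a3 := hF.min _ a1 (by omega)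
  have hXK : X ∉ K := by
    intro hmem
    rw [Finset.insert_eq_of_mem hmem] at a2
    omega
  have a4 : tot (insert X K) = X.card + tot K := by
    unfold tot
    rw [Finset.sum_insert hXK]
  have htot : tot K ≤ K.card * X.card := by
    unfold tot
    rw [← smul_eq_mul]
    exact Finset.sum_le_card_nsmul _ _ _ fun s hs => h.le hs
  have hXr : r < X.card := by
    by_contra hle
    have hle' : X.card ≤ r := by omega
    have h1 : K.card * X.card ≤ K.card * r := Nat.mul_le_mul_left _ hle'
    have h2 : F.card * r < tot F := by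
      unfold tot
      have h3 : ∑ _s ∈ F, r < ∑ s ∈ F, s.card := by
        obtain ⟨C, hC, hCr⟩ := hlong
        exact Finset.sum_lt_sum (fun s hs => hF.fam.len s hs) ⟨C, hC, hCr⟩
      rwa [Finset.sum_const, smul_eq_mul] at h3
    have h4 : F.card * r = K.card * r + r := by
      rw [show F.card = K.card + 1 by omega]; ring
    omega
  have hcount := h.count hr hKk hXr hdeg
  have c1 := hF.fam.card_rest
  have c2 := h.minK.fam.card_rest
  have c3 : (rest U K \ X).card + X.card = (rest U K).card := by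
    rw [Finset.card_sdiff_of_subset h.sub]
    have := Finset.card_le_card h.sub
    omega
  omega

/-- the rest, when every member has exactly `r` vertices -/
theorem rest_of_exact99 {k r : ℕ} {V : Type u} [DecidableEq V] {G : SimpleGraph V} {U : Finset V}
    {F : Finset (Finset V)} (hF : Opt49 G U r F) (hFk : F.card + 1 = k)
    (hex : ¬ ∃ C ∈ F, r < C.card) : (rest U F).card + k * r = U.card + r := by
  have c1 := hF.fam.card_rest
  have h1 : tot F = F.card * r := by
    unfold tot
    rw [Finset.sum_congr rfl (fun s hs => ?_), Finset.sum_const, smul_eq_mul]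
    have := hF.fam.len s hs
    by_contra hne
    exact hex ⟨s, hs, lt_of_le_of_ne this (fun e => hne e.symm)⟩
  have h2 : k * r = F.card * r + r := by rw [← hFk]; ring
  omega

/-- **item I3** -/
theorem iRest99_of {k r : ℕ} (hX : LemX99.{u} k r) (hr : 4 ≤ r) : IRest41.{u} k r := by
  intro V _ G U F hF hFk hU hdeg
  by_cases hlong : ∃ C ∈ F, r < C.card
  · exact rest_of_long99 hX hr hF hFk hlong (by omega) hdeg
  · have := rest_of_exact99 hF hFk hlong
    omega

/-- **item I3** for exactly `k r` vertices -/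
theorem iRestEq99_of {k r : ℕ} (hX : LemX99.{u} k r) (hr : 4 ≤ r) : IRestEq41.{u} k r := by
  intro V _ G U F hF hFk hU hdeg
  by_cases hlong : ∃ C ∈ F, r < C.card
  · have := rest_of_long99 hX hr hF hFk hlong (by omega) hdeg
    omega
  · have := rest_of_exact99 hF hFk hlong
    omega

end Pool.Agent.P0.Closed99
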