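import Pool.Agent.P0.LemX35
import Pool.Agent.P0.RestTwo99

set_option linter.all false

/-!
# P0, item I3: the rest of an optimal family of `k - 1` cycles has more than `r` vertices
-/

namespace Pool.Agent.P0

open Pool.Agent.Helper14.LongCyc Pool.Agent.LCK

universe u

theorem lemX_all35 {k r : ℕ} (hk : 3 ≤ k) (hr : 4 ≤ r) : Closed99.LemX99.{u} k r :=
  fun hF hFk hU hdeg => lemX35 hk hr hF hFk hU hdeg

/-- item I3 -/
theorem iRest35 {k r : ℕ} (hk : 3 ≤ k) (hr : 4 ≤ r) : IRest41.{u} k r :=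
  Closed99.iRest99_of (lemX_all35 hk hr) hr

/-- item I3 for exactly `k r` vertices -/
theorem iRestEq35 {k r : ℕ} (hk : 3 ≤ k) (hr : 4 ≤ r) : IRestEq41.{u} k r :=
  Closed99.iRestEq99_of (lemX_all35 hk hr) hr

end Pool.Agent.P0
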