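import Pool.Agent.P0.Cons49
import Pool.Agent.P0.Out63
import Pool.Agent.P0.Ca33

set_option linter.all false

/-!
# P0, I7 (A): LL0 without hypotheses
-/

namespace Pool.Agent.P0

open Pool.Agent.Helper14.LongCyc Pool.Agent.LCK

universe u

/-- the pure statement LL0 holds -/
theorem ll0pure49 {r : ℕ} (hr : 7 ≤ r) : LL0Pure49 r := by
  intro _ a b b' a' D hT
  exact ll0_63 D hr hT (llJ33 D hr hT)

variable {V : Type u} {G : SimpleGraph V}

variable {U : Finset V} {k r : ℕ} {Q : List V} {p q x y : V} {F : Finset (Finset V)}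

/-- **LL0** on a given cyclic order of the member -/
theorem Adm41.ll0C [DecidableEq V] (h : Adm41 G U r Q p q F x y)
    (hr : 7 ≤ r) {C : Finset V} (hC : C ∈ F) {c : List V} (hc : Cyc G c)
    (hs : ∀ z, z ∈ c ↔ z ∈ C) (hcr : c.length = r) (hp : 0 < c.length)
    (hT : 4 * r + 1 ≤ TT41 G p q x y C) :
    dg G C x + dg G C y = r + 1 ∧ 2 * r ≤ dg G C p + dg G C q + 1 ∧ OutA49 G c hp x p q y :=
  h.ll0C49 (ll0pure49 hr) hr hC hc hs hcr hp hT

/-- **LL0** for a member -/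
theorem Adm41.ll0 [DecidableEq V] (h : Adm41 G U r Q p q F x y)
    (hr : 7 ≤ r) {C : Finset V} (hC : C ∈ F) (hCr : C.card = r)
    (hT : 4 * r + 1 ≤ TT41 G p q x y C) :
    dg G C x + dg G C y = r + 1 ∧ 2 * r ≤ dg G C p + dg G C q + 1 ∧
      ∃ (c : List V) (hp : 0 < c.length), c.length = r ∧ Cyc G c ∧ (∀ z, z ∈ c ↔ z ∈ C) ∧
        OutA49 G c hp x p q y :=
  h.ll0_49 (ll0pure49 hr) hr hC hCr hT

end Pool.Agent.P0
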