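import Pool.Agent.P0.Core49

set_option linter.all false

/-!
# P0, I7 (A): the local data for `n = k r`, on `ZMod r` and on `ℕ` (periodic)

`a`, `b`, `b'`, `a'` are the adjacency indicators of `x`, `p 2`, `p (r-1)`, `y` on a cycle of length `r`.
-/

namespace Pool.Agent.P0

/-- the moves, cyclic form -/
structure LLZ (r : ℕ) (a b b' a' : ZMod r → ℕ) : Prop where
  ba : ∀ i, a i ≤ 1
  bb : ∀ i, b i ≤ 1
  bb' : ∀ i, b' i ≤ 1
  ba' : ∀ i, a' i ≤ 1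
  m1 : ∀ i, a (i - 1) = 1 → a (i + 1) = 1 → b i + a' i ≤ 1
  m1' : ∀ i, a' (i - 1) = 1 → a' (i + 1) = 1 → b' i + a i ≤ 1
  w1 : ∀ i j, j ≠ i - 1 → j ≠ i → j ≠ i + 1 → a (i - 1) = 1 → a (i + 2) = 1 →
    a' j = 1 → a' (j + 1) = 1 → b i + b' (i + 1) ≤ 1 ∧ b (i + 1) + b' i ≤ 1
  w1' : ∀ i j, j ≠ i - 1 → j ≠ i → j ≠ i + 1 → a' (i - 1) = 1 → a' (i + 2) = 1 →
    a j = 1 → a (j + 1) = 1 → b i + b' (i + 1) ≤ 1 ∧ b (i + 1) + b' i ≤ 1
  w2 : ∀ i j, j ≠ i - 1 → j ≠ i → j ≠ i + 1 → a (i - 1) = 1 → a' (i + 2) = 1 →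
    a j = 1 → a' (j + 1) = 1 → b i + b' (i + 1) ≤ 1 ∧ b (i + 1) + b' i ≤ 1
  w2' : ∀ i j, j ≠ i - 1 → j ≠ i → j ≠ i + 1 → a' (i - 1) = 1 → a (i + 2) = 1 →
    a' j = 1 → a (j + 1) = 1 → b i + b' (i + 1) ≤ 1 ∧ b (i + 1) + b' i ≤ 1

variable {r : ℕ} {a b b' a' : ZMod r → ℕ}

/-- a third end -/
def Third33 (r : ℕ) (a b b' a' : ZMod r → ℕ) : Prop :=
  ∃ i : ZMod r, a (i - 1) = 1 ∧ a' (i - 1) = 1 ∧ a (i + 1) = 1 ∧ a' (i + 1) = 1 ∧
    b i = 1 ∧ b' i = 1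

/-- type 1 -/
def TypeOne33 (r : ℕ) (a b b' a' : ZMod r → ℕ) : Prop :=
  ∃ c : ZMod r, ∀ i, (a i = 1 ↔ i = c) ∧ a' i = 1 ∧ b i = 1 ∧ (b' i = 1 ↔ i ≠ c)

/-- type 2 minus one bit -/
def TypeTwo33 (r : ℕ) (a b b' a' : ZMod r → ℕ) : Prop :=
  ∃ c : ZMod r, (∀ i, (a i = 1 ↔ i = c - 1 ∨ i = c + 1) ∧ (a' i = 1 ↔ i ≠ c)) ∧
    (∀ i, i ≠ c → b i = 1 ∧ b' i = 1) ∧ b c + b' c = 1

/-- the exceptional patterns -/
def Out33 (r : ℕ) (a b b' a' : ZMod r → ℕ) : Prop :=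
  Third33 r a b b' a' ∨ TypeOne33 r a b b' a' ∨ TypeOne33 r a' b' b a ∨
    TypeTwo33 r a b b' a' ∨ TypeTwo33 r a' b' b a

/-- the moves, periodic form on `ℕ` -/
structure LN33 (r : ℕ) (a b b' a' : ℕ → ℕ) : Prop where
  ba : ∀ i, a i ≤ 1
  bb : ∀ i, b i ≤ 1
  bb' : ∀ i, b' i ≤ 1
  ba' : ∀ i, a' i ≤ 1
  pa : ∀ i, a (i + r) = a i
  pb : ∀ i, b (i + r) = b i
  pb' : ∀ i, b' (i + r) = b' i
  pa' : ∀ i, a' (i + r) = a' i
  m1 : ∀ i, a i = 1 → a (i + 2) = 1 → b (i + 1) + a' (i + 1) ≤ 1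
  m1' : ∀ i, a' i = 1 → a' (i + 2) = 1 → b' (i + 1) + a (i + 1) ≤ 1
  w1 : ∀ i j, i + 3 ≤ j → j + 1 ≤ i + r → a i = 1 → a (i + 3) = 1 → a' j = 1 → a' (j + 1) = 1 →
    b (i + 1) + b' (i + 2) ≤ 1 ∧ b (i + 2) + b' (i + 1) ≤ 1
  w1' : ∀ i j, i + 3 ≤ j → j + 1 ≤ i + r → a' i = 1 → a' (i + 3) = 1 → a j = 1 → a (j + 1) = 1 →
    b (i + 1) + b' (i + 2) ≤ 1 ∧ b (i + 2) + b' (i + 1) ≤ 1
  w2 : ∀ i j, i + 3 ≤ j → j + 1 ≤ i + r → a i = 1 → a' (i + 3) = 1 → a j = 1 → a' (j + 1) = 1 →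
    b (i + 1) + b' (i + 2) ≤ 1 ∧ b (i + 2) + b' (i + 1) ≤ 1
  w2' : ∀ i j, i + 3 ≤ j → j + 1 ≤ i + r → a' i = 1 → a (i + 3) = 1 → a' j = 1 → a (j + 1) = 1 →
    b (i + 1) + b' (i + 2) ≤ 1 ∧ b (i + 2) + b' (i + 1) ≤ 1

theorem cast_ne33 {i j d : ℕ} (h1 : i + d < j) (h2 : j < i + d + r) (c : ZMod r) :
    c + (j : ℕ) ≠ c + (i : ℕ) + (d : ℕ) := by
  intro h
  have h3 : ((j : ℕ) : ZMod r) = ((i + d : ℕ) : ZMod r) := by
    push_cast
    linear_combination h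
  have h4 := (ZMod.natCast_eq_natCast_iff _ _ _).1 h3
  have h5 : r ∣ j - (i + d) := (Nat.modEq_iff_dvd' (by omega)).1 h4.symm
  have := Nat.le_of_dvd (by omega) h5
  omega

/-- the periodic form read from the position `c` -/
theorem LLZ.toN (D : LLZ r a b b' a') (c : ZMod r) :
    LN33 r (fun n => a (c + (n : ℕ))) (fun n => b (c + (n : ℕ))) (fun n => b' (c + (n : ℕ)))
      (fun n => a' (c + (n : ℕ))) := by
  have per : ∀ (f : ZMod r → ℕ) (i : ℕ), f (c + ((i + r : ℕ) : ZMod r)) = f (c + (i : ℕ)) := by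
    intro f i
    push_cast
    rw [ZMod.natCast_self, add_zero]
  have e1 : ∀ i : ℕ, c + ((i + 1 : ℕ) : ZMod r) - 1 = c + (i : ℕ) := by
    intro i; push_cast; ring
  have e2 : ∀ i : ℕ, c + ((i + 1 : ℕ) : ZMod r) + 1 = c + ((i + 2 : ℕ) : ZMod r) := by
    intro i; push_cast; ring
  have e3 : ∀ i : ℕ, c + ((i + 1 : ℕ) : ZMod r) + 2 = c + ((i + 3 : ℕ) : ZMod r) := by
    intro i; push_cast; ring
  have e4 : ∀ i : ℕ, c + ((i : ℕ) : ZMod r) + 1 = c + ((i + 1 : ℕ) : ZMod r) := by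
    intro i; push_cast; ring
  have n0 : ∀ i j : ℕ, i + 3 ≤ j → j + 1 ≤ i + r → c + ((j : ℕ) : ZMod r) ≠
      c + ((i + 1 : ℕ) : ZMod r) - 1 := by
    intro i j h1 h2
    rw [e1]
    have := cast_ne33 (r := r) (i := i) (j := j) (d := 0) (by omega) (by omega) c
    simpa using this
  have n1 : ∀ i j : ℕ, i + 3 ≤ j → j + 1 ≤ i + r → c + ((j : ℕ) : ZMod r) ≠
      c + ((i + 1 : ℕ) : ZMod r) := by
    intro i j h1 h2
    have := cast_ne33 (r := r) (i := i) (j := j) (d := 1) (by omega) (by omega) c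
    intro h
    apply this
    rw [h]; push_cast; ring
  have n2 : ∀ i j : ℕ, i + 3 ≤ j → j + 1 ≤ i + r → c + ((j : ℕ) : ZMod r) ≠
      c + ((i + 1 : ℕ) : ZMod r) + 1 := by
    intro i j h1 h2
    have := cast_ne33 (r := r) (i := i) (j := j) (d := 2) (by omega) (by omega) c
    intro h
    apply this
    rw [h]; push_cast; ring
  refine ⟨fun i => D.ba _, fun i => D.bb _, fun i => D.bb' _, fun i => D.ba' _, per a, per b, per b',
    per a', ?_, ?_, ?_, ?_, ?_, ?_⟩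
  · intro i h1 h2
    exact D.m1 (c + ((i + 1 : ℕ) : ZMod r)) (by rw [e1]; exact h1) (by rw [e2]; exact h2)
  · intro i h1 h2
    exact D.m1' (c + ((i + 1 : ℕ) : ZMod r)) (by rw [e1]; exact h1) (by rw [e2]; exact h2)
  · intro i j hj hj' h1 h2 h3 h4
    have := D.w1 (c + ((i + 1 : ℕ) : ZMod r)) (c + (j : ℕ)) (n0 i j hj hj') (n1 i j hj hj')
      (n2 i j hj hj') (by rw [e1]; exact h1) (by rw [e3]; exact h2) h3 (by rw [e4]; exact h4)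
    rw [e2] at this
    exact this
  · intro i j hj hj' h1 h2 h3 h4
    have := D.w1' (c + ((i + 1 : ℕ) : ZMod r)) (c + (j : ℕ)) (n0 i j hj hj') (n1 i j hj hj')
      (n2 i j hj hj') (by rw [e1]; exact h1) (by rw [e3]; exact h2) h3 (by rw [e4]; exact h4)
    rw [e2] at this
    exact this
  · intro i j hj hj' h1 h2 h3 h4
    have := D.w2 (c + ((i + 1 : ℕ) : ZMod r)) (c + (j : ℕ)) (n0 i j hj hj') (n1 i j hj hj')
      (n2 i j hj hj') (by rw [e1]; exact h1) (by rw [e3]; exact h2) h3 (by rw [e4]; exact h4)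
    rw [e2] at this
    exact this
  · intro i j hj hj' h1 h2 h3 h4
    have := D.w2' (c + ((i + 1 : ℕ) : ZMod r)) (c + (j : ℕ)) (n0 i j hj hj') (n1 i j hj hj')
      (n2 i j hj hj') (by rw [e1]; exact h1) (by rw [e3]; exact h2) h3 (by rw [e4]; exact h4)
    rw [e2] at this
    exact this

/-- `x ↔ y`, `p 2 ↔ p (r-1)` -/
theorem LLZ.swap (D : LLZ r a b b' a') : LLZ r a' b' b a where
  ba := D.ba'
  bb := D.bb'
  bb' := D.bb
  ba' := D.ba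
  m1 := D.m1'
  m1' := D.m1
  w1 := fun i j h1 h2 h3 h4 h5 h6 h7 => by
    have := D.w1' i j h1 h2 h3 h4 h5 h6 h7
    omega
  w1' := fun i j h1 h2 h3 h4 h5 h6 h7 => by
    have := D.w1 i j h1 h2 h3 h4 h5 h6 h7
    omega
  w2 := fun i j h1 h2 h3 h4 h5 h6 h7 => by
    have := D.w2' i j h1 h2 h3 h4 h5 h6 h7
    omega
  w2' := fun i j h1 h2 h3 h4 h5 h6 h7 => by
    have := D.w2 i j h1 h2 h3 h4 h5 h6 h7
    omega

/-- reflection of the cycle -/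
theorem LLZ.refl (D : LLZ r a b b' a') :
    LLZ r (fun i => a (-i)) (fun i => b (-i)) (fun i => b' (-i)) (fun i => a' (-i)) := by
  have key : ∀ (i j : ZMod r), j ≠ i - 1 → j ≠ i → j ≠ i + 1 →
      (-j - 1 ≠ (-i - 1) - 1 ∧ -j - 1 ≠ -i - 1 ∧ -j - 1 ≠ (-i - 1) + 1) := by
    intro i j h1 h2 h3
    refine ⟨fun h => h3 (by linear_combination -h), fun h => h2 (by linear_combination -h),
      fun h => h1 (by linear_combination -h)⟩
  have e1 : ∀ i : ZMod r, -(i - 1) = (-i - 1) + 2 := fun i => by ring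
  have e2 : ∀ i : ZMod r, -(i + 2) = (-i - 1) - 1 := fun i => by ring
  have e3 : ∀ i : ZMod r, -i = (-i - 1) + 1 := fun i => by ring
  have e4 : ∀ i : ZMod r, -(i + 1) = -i - 1 := fun i => by ring
  have f1 : ∀ i : ZMod r, -(i - 1) = -i + 1 := fun i => by ring
  have f2 : ∀ i : ZMod r, -(i + 1) = -i - 1 := fun i => by ring
  refine ⟨fun i => D.ba _, fun i => D.bb _, fun i => D.bb' _, fun i => D.ba' _, ?_, ?_, ?_, ?_, ?_,
    ?_⟩
  · intro i h1 h2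
    simp only [f1, f2] at h1 h2
    exact D.m1 (-i) h2 h1
  · intro i h1 h2
    simp only [f1, f2] at h1 h2
    exact D.m1' (-i) h2 h1
  · intro i j g1 g2 g3 h1 h2 h3 h4
    obtain ⟨k1, k2, k3⟩ := key i j g1 g2 g3
    have := D.w1 (-i - 1) (-j - 1) k1 k2 k3 (by rw [← e2]; exact h2) (by rw [← e1]; exact h1)
      (by rw [← e4]; exact h4) (by rw [← e3]; exact h3)
    rw [← e3] at this
    simp only [e4]
    omega
  · intro i j g1 g2 g3 h1 h2 h3 h4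
    obtain ⟨k1, k2, k3⟩ := key i j g1 g2 g3
    have := D.w1' (-i - 1) (-j - 1) k1 k2 k3 (by rw [← e2]; exact h2) (by rw [← e1]; exact h1)
      (by rw [← e4]; exact h4) (by rw [← e3]; exact h3)
    rw [← e3] at this
    simp only [e4]
    omega
  · intro i j g1 g2 g3 h1 h2 h3 h4
    obtain ⟨k1, k2, k3⟩ := key i j g1 g2 g3
    have := D.w2' (-i - 1) (-j - 1) k1 k2 k3 (by rw [← e2]; exact h2) (by rw [← e1]; exact h1)
      (by rw [← e4]; exact h4) (by rw [← e3]; exact h3)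
    rw [← e3] at this
    simp only [e4]
    omega
  · intro i j g1 g2 g3 h1 h2 h3 h4
    obtain ⟨k1, k2, k3⟩ := key i j g1 g2 g3
    have := D.w2 (-i - 1) (-j - 1) k1 k2 k3 (by rw [← e2]; exact h2) (by rw [← e1]; exact h1)
      (by rw [← e4]; exact h4) (by rw [← e3]; exact h3)
    rw [← e3] at this
    simp only [e4]
    omega

end Pool.Agent.P0
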