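import Pool.Agent.P0.Glue41
import Pool.Agent.P0.End81
import Pool.Agent.P0.CaseII13
import Pool.Agent.P0.Case17
import Pool.Agent.P0.Two9

set_option linter.all false

/-!
# P0: the assembly
-/

namespace Pool.Agent.P0

open Pool.Agent.Helper14.LongCyc Pool.Agent.LCK Pool.Agent.FRC

universe u

theorem icaseI41 {k r : ℕ} (hk : 3 ≤ k) (hr : 4 ≤ r) : ICaseI41.{u} k r := by
  rcases Nat.lt_or_ge r 6 with h | h
  · rcases (show r = 4 ∨ r = 5 by omega) with rfl | rfl
    · exact icaseI_four17 k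
    · exact icaseI_five17 k
  · exact caseI81 hk h

theorem icaseII41 {k r : ℕ} (hk : 2 ≤ k) (hr : 4 ≤ r) : ICaseII41.{u} k r :=
  fun h hc hdeg hm hH => caseII hr hk h (by omega) hdeg hm hH

theorem base41 {r : ℕ} (hr : 4 ≤ r) : T41.{u} 2 r (2 * r) :=
  fun G U hU hdeg => two9_fam hr hU hdeg

theorem T41.mono {k r N N' : ℕ} (h : T41.{u} k r N) (hN : N ≤ N') : T41.{u} k r N' :=
  fun G U hU hdeg => h G U (hN.trans hU) hdeg

/-- more than `k r` vertices -/
theorem more41_of (h3 : ∀ k r, 3 ≤ k → 4 ≤ r → IRest41.{u} k r) {k r : ℕ} (hk : 2 ≤ k)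
    (hr : 3 ≤ r) : T41.{u} k r (k * r + 1) := by
  rcases Nat.lt_or_ge r 4 with h | h
  · obtain rfl : r = 3 := by omega
    exact T41.mono (three41 k) (by omega)
  · exact all41 hr (T41.mono (base41 h) (by omega)) (fun k hk => h3 k r hk h)
      (fun k hk => icaseII41 (by omega) h) (fun k hk => icaseI41 hk h) k hk

end Pool.Agent.P0
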