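import Pool.Agent.P0.MinK99
import Pool.Agent.P0.E149

set_option linter.all false

/-!
# P0, row I3: families of minimal total length, common tools

`MinP29` is a family of minimal total length together with a path of its rest which is longest over
all families of minimal total length (with the same number of members), in the situation where no
such family has a long cycle in its rest.
-/

namespace Pool.Agent.P0

open Pool.Agent.Helper14.LongCyc Pool.Agent.LCK

universe u

variable {V : Type u} {G : SimpleGraph V}

/-- a long member is locally shortest -/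
theorem MinK99.short [DecidableEq V] {U : Finset V} {r : ℕ} {F : Finset (Finset V)}
    (hF : MinK99 G U r F) {C : Finset V} (hC : C ∈ F) {D : Finset V} (hD : CycSet G D)
    (hDs : D ⊆ C ∪ rest U F) (hDr : r ≤ D.card) : C.card ≤ D.card := by
  obtain ⟨h1, h2, h3⟩ := hF.fam.replace hC hD hDs hDr
  have h4 : (insert D (F.erase C)).card = F.card := by
    rw [Finset.card_insert_of_notMem h2, Finset.card_erase_of_mem hC]
    have : 0 < F.card := Finset.card_pos.2 ⟨C, hC⟩
    omega
  have h5 := hF.min _ h1 h4
  unfold tot at h5
  rw [Finset.sum_insert h2] at h5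
  have h6 := Finset.add_sum_erase F (fun s => s.card) hC
  omega

/-- a member longer than `r` sees little from outside -/
theorem MinK99.outside [DecidableEq V] {U : Finset V} {r : ℕ} (hr : 4 ≤ r) {F : Finset (Finset V)}
    (hF : MinK99 G U r F) {C : Finset V} (hC : C ∈ F) (hCr : r < C.card) {v : V}
    (hv : v ∈ rest U F) : dg G C v ≤ (r + 1) / 2 := by
  refine LCK.outside hr (hF.fam.cyc C hC) hCr ((mem_rest.1 hv).2 C hC) ?_
  intro D hD hDs hDr
  refine hF.short hC hD (hDs.trans ?_) hDr
  intro z hz
  rcases Finset.mem_insert.1 hz with h | h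
  · rw [h]; exact Finset.mem_union_right _ hv
  · exact Finset.mem_union_left _ h

/-- replacing a member by a cycle of the same length keeps minimality -/
theorem MinK99.replace_same [DecidableEq V] {U : Finset V} {r : ℕ} {F : Finset (Finset V)}
    (hF : MinK99 G U r F) {C D : Finset V} (hC : C ∈ F) (hD : CycSet G D)
    (hDs : D ⊆ C ∪ rest U F) (hcard : D.card = C.card) :
    MinK99 G U r (insert D (F.erase C)) ∧ (insert D (F.erase C)).card = F.card ∧
      rest U (insert D (F.erase C)) = (C ∪ rest U F) \ D := by
  have hCr := hF.fam.len C hC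
  obtain ⟨h1, h2, h3⟩ := hF.fam.replace hC hD hDs (by show r ≤ D.card; rw [hcard]; exact hCr)
  have h4 : (insert D (F.erase C)).card = F.card := by
    rw [Finset.card_insert_of_notMem h2, Finset.card_erase_of_mem hC]
    have : 0 < F.card := Finset.card_pos.2 ⟨C, hC⟩
    omega
  have h5 : tot (insert D (F.erase C)) = tot F := by
    unfold tot
    rw [Finset.sum_insert h2, hcard]
    exact Finset.add_sum_erase F (fun s => s.card) hC
  refine ⟨⟨h1, fun F' hF' hc => ?_⟩, h4, h3⟩
  rw [h5]; exact hF.min F' hF' (by rw [hc, h4])

/-- a family of minimal total length with a path of its rest, longest over all families of minimal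
total length; none of these families has a long cycle in its rest -/
structure MinP29 (G : SimpleGraph V) (U : Finset V) (r : ℕ) (K : Finset (Finset V)) (w w' : V)
    (l : List V) : Prop where
  opt : MinK99 G U r K
  path : Pth G w w' l
  sub : ∀ z ∈ l, z ∈ rest U K
  max : ∀ K' a b m, MinK99 G U r K' → K'.card = K.card → Pth G a b m →
    (∀ z ∈ m, z ∈ rest U K') → m.length ≤ l.length
  nol : ∀ K' X, MinK99 G U r K' → K'.card = K.card → CycSet G X → X ⊆ rest U K' → X.card < r

theorem MinP29.reverse {U : Finset V} {r : ℕ} {F : Finset (Finset V)} {w w' : V} {l : List V}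
    (h : MinP29 G U r F w w' l) : MinP29 G U r F w' w l.reverse where
  opt := h.opt
  path := h.path.reverse
  sub := fun z hz => h.sub z (List.mem_reverse.1 hz)
  max := fun F' a b m h1 h2 h3 h4 => by
    rw [List.length_reverse]
    exact h.max F' a b m h1 h2 h3 h4
  nol := h.nol

/-- the rest has no long cycle -/
theorem MinP29.nolong {U : Finset V} {r : ℕ} {F : Finset (Finset V)} {w w' : V} {l : List V}
    (h : MinP29 G U r F w w' l) {X : Finset V} (hX : CycSet G X) (hXs : X ⊆ rest U F) :
    X.card < r := h.nol F X h.opt rfl hX hXs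

/-- no disjoint cycles in `C ∪ rest`, one with exactly `r` and one with at least `r` vertices, when
the member `C` has exactly `r` vertices -/
theorem MinP29.no_two [DecidableEq V] {U : Finset V} {r : ℕ} {F : Finset (Finset V)} {w w' : V}
    {l : List V} (h : MinP29 G U r F w w' l) {C : Finset V} (hC : C ∈ F) (hCr : C.card = r) :
    ¬ ∃ D E, CycSet G D ∧ CycSet G E ∧ D ⊆ C ∪ rest U F ∧ E ⊆ C ∪ rest U F ∧ D.card = r ∧
      r ≤ E.card ∧ Disjoint D E := by
  rintro ⟨D, E, h1, h2, h3, h4, h5, h6, h7⟩
  obtain ⟨o1, o2, o3⟩ := h.opt.replace_same hC h1 h3 (by omega)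
  have := h.nol _ E o1 o2 h2 (by
    rw [o3]
    exact Finset.subset_sdiff.2 ⟨h4, h7.symm⟩)
  omega

end Pool.Agent.P0
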