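import Pool.Agent.P0.LLZ33

set_option linter.all false

/-!
# P0, I7 (A): the normal form of the exceptional patterns (page MP_2b93ca_P0_LL0_h33, sections 2 - 6)
-/

namespace Pool.Agent.P0

/-- the interval pattern: `2, 0, 2, …, 0, 2` on `p, …, p + 2 t`, and `a = 0`, `a' = 1` outside -/
def P2N (r : ℕ) (a a' : ℕ → ℕ) (p t : ℕ) : Prop :=
  1 ≤ t ∧ 2 * t + 1 ≤ r ∧ (∀ s, s ≤ t → a (p + 2 * s) = 1 ∧ a' (p + 2 * s) = 1) ∧
    (∀ s, s < t → a (p + 2 * s + 1) = 0 ∧ a' (p + 2 * s + 1) = 0) ∧
    (∀ n, 2 * t + 1 ≤ n → n < r → a (p + n) = 0 ∧ a' (p + n) = 1)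

/-- type 1 read from its special vertex -/
def P1N (r : ℕ) (a b b' a' : ℕ → ℕ) : Prop :=
  a 0 = 1 ∧ (∀ n, 0 < n → n < r → a n = 0) ∧ (∀ n, n < r → a' n = 1) ∧ (∀ n, n < r → b n = 1) ∧
    b' 0 = 0 ∧ (∀ n, 0 < n → n < r → b' n = 1)

variable {r : ℕ} {a b b' a' : ℕ → ℕ}

/-- the weight of a position -/
def e33 (a b b' a' : ℕ → ℕ) (j : ℕ) : ℕ := 2 * (a j + a' (j + 1)) + b j + b' j

theorem sum_e33 (D : LN33 r a b b' a') :
    ∑ j ∈ Finset.range r, e33 a b b' a' j =
      ∑ j ∈ Finset.range r, (2 * (a j + a' j) + b j + b' j) := by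
  have h1 : ∑ j ∈ Finset.range r, a' (j + 1) = ∑ j ∈ Finset.range r, a' j := by
    have h2 := Finset.sum_range_succ' a' r
    have h3 := Finset.sum_range_succ a' r
    have h4 := D.pa' 0
    rw [Nat.zero_add] at h4
    omega
  unfold e33
  simp only [Finset.sum_add_distrib, mul_add, ← Finset.mul_sum]
  rw [h1]

/-- the budget -/
theorem budget33 (hr : 7 ≤ r) (D : LN33 r a b b' a')
    (hT : 4 * r + 1 ≤ ∑ j ∈ Finset.range r, (2 * (a j + a' j) + b j + b' j))
    (hN1 : ∀ j, 3 ≤ j → j + 1 ≤ r → a j + a' (j + 1) ≤ 1) (A : Finset ℕ)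
    (hA : ∀ j ∈ A, 3 ≤ j ∧ j < r) :
    13 + 4 * A.card ≤ e33 a b b' a' 0 + e33 a b b' a' 1 + e33 a b b' a' 2
      + ∑ j ∈ A, e33 a b b' a' j := by
  classical
  rw [← sum_e33 D] at hT
  set e := e33 a b b' a' with he
  have hle : ∀ j, 3 ≤ j → j < r → e j ≤ 4 := by
    intro j h1 h2
    have k1 := hN1 j h1 h2
    have k2 := D.bb j
    have k3 := D.bb' j
    rw [he]
    unfold e33
    omega
  have h0 : ∑ j ∈ Finset.range r, e j = e 0 + e 1 + e 2 + ∑ j ∈ Finset.Ico 3 r, e j := by
    rw [Finset.range_eq_Ico, ← Finset.sum_Ico_consecutive e (Nat.zero_le 3) (by omega : 3 ≤ r)]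
    simp [Finset.sum_Ico_eq_sum_range, Finset.sum_range_succ]
  have hAs : A ⊆ Finset.Ico 3 r := fun j hj => Finset.mem_Ico.2 (hA j hj)
  have h1 := Finset.sum_sdiff (f := e) hAs
  have h2 : ∑ j ∈ Finset.Ico 3 r \ A, e j ≤ (Finset.Ico 3 r \ A).card * 4 := by
    rw [← smul_eq_mul]
    refine Finset.sum_le_card_nsmul _ _ _ fun j hj => ?_
    rw [Finset.mem_sdiff, Finset.mem_Ico] at hj
    exact hle j hj.1.1 hj.1.2
  have h3 := Finset.card_sdiff_add_card_eq_card hAs
  rw [Nat.card_Ico] at h3
  omega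

/-- the hypotheses of the normal form -/
structure NF33 (r : ℕ) (a b b' a' : ℕ → ℕ) : Prop where
  hr : 7 ≤ r
  D : LN33 r a b b' a'
  hT : 4 * r + 1 ≤ ∑ j ∈ Finset.range r, (2 * (a j + a' j) + b j + b' j)
  h0 : a 0 = 1
  h0' : a' 0 = 1
  h3' : a' 3 = 1
  phi : (b 1 = 1 ∧ b' 2 = 1) ∨ (b 2 = 1 ∧ b' 1 = 1)

namespace NF33

theorem n1 (H : NF33 r a b b' a') : ∀ j, 3 ≤ j → j + 1 ≤ r → a j + a' (j + 1) ≤ 1 := by
  intro j h1 h2
  have k1 := H.D.ba j
  have k2 := H.D.ba' (j + 1)
  by_contra hne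
  have := H.D.w2 0 j (by omega) (by omega) H.h0 (by simpa using H.h3') (by omega) (by omega)
  simp only [Nat.zero_add] at this
  have := H.phi
  omega

theorem n2 (H : NF33 r a b b' a') : ∀ j, 3 ≤ j → j + 1 ≤ r → a j + a (j + 1) ≤ 1 := by
  intro j h1 h2
  have k1 := H.D.ba j
  have k2 := H.D.ba (j + 1)
  by_contra hne
  have := H.D.w1' 0 j (by omega) (by omega) H.h0' (by simpa using H.h3') (by omega) (by omega)
  simp only [Nat.zero_add] at this
  have := H.phi
  omega

theorem n3 (H : NF33 r a b b' a') (h3 : a 3 = 1) :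
    ∀ j, 3 ≤ j → j + 1 ≤ r → a' j + a' (j + 1) ≤ 1 := by
  intro j h1 h2
  have k1 := H.D.ba' j
  have k2 := H.D.ba' (j + 1)
  by_contra hne
  have := H.D.w1 0 j (by omega) (by omega) H.h0 (by simpa using h3) (by omega) (by omega)
  simp only [Nat.zero_add] at this
  have := H.phi
  omega

theorem n4 (H : NF33 r a b b' a') (h3 : a 3 = 1) :
    ∀ j, 3 ≤ j → j + 1 ≤ r → a' j + a (j + 1) ≤ 1 := by
  intro j h1 h2
  have k1 := H.D.ba' j
  have k2 := H.D.ba (j + 1)
  by_contra hne
  have := H.D.w2' 0 j (by omega) (by omega) H.h0' (by simpa using h3) (by omega) (by omega)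
  simp only [Nat.zero_add] at this
  have := H.phi
  omega

theorem ar (H : NF33 r a b b' a') : a r = 1 := by
  have := H.D.pa 0
  rw [Nat.zero_add] at this
  rw [this]; exact H.h0

theorem ar' (H : NF33 r a b b' a') : a' r = 1 := by
  have := H.D.pa' 0
  rw [Nat.zero_add] at this
  rw [this]; exact H.h0'

theorem per (H : NF33 r a b b' a') (i : ℕ) : a (r + i) = a i ∧ b (r + i) = b i ∧ b' (r + i) = b' i ∧
    a' (r + i) = a' i := by
  rw [Nat.add_comm r i]
  exact ⟨H.D.pa i, H.D.pb i, H.D.pb' i, H.D.pa' i⟩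

/-- the three free positions -/
def m (a b b' a' : ℕ → ℕ) : ℕ := e33 a b b' a' 0 + e33 a b b' a' 1 + e33 a b b' a' 2

theorem b0 (H : NF33 r a b b' a') : 13 ≤ m a b b' a' := by
  have := budget33 H.hr H.D H.hT H.n1 ∅ (by simp)
  simp only [Finset.card_empty, Finset.sum_empty] at this
  unfold m
  omega

theorem b1 (H : NF33 r a b b' a') {j : ℕ} (h1 : 3 ≤ j) (h2 : j < r) :
    17 ≤ m a b b' a' + e33 a b b' a' j := by
  have := budget33 H.hr H.D H.hT H.n1 {j} (by simp; omega)
  simp only [Finset.card_singleton, Finset.sum_singleton] at this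
  unfold m
  omega

theorem b2 (H : NF33 r a b b' a') {j k : ℕ} (h1 : 3 ≤ j) (h2 : j < k) (h3 : k < r) :
    21 ≤ m a b b' a' + e33 a b b' a' j + e33 a b b' a' k := by
  have := budget33 H.hr H.D H.hT H.n1 {j, k} (by
    intro i hi
    simp only [Finset.mem_insert, Finset.mem_singleton] at hi
    omega)
  rw [Finset.card_pair (by omega), Finset.sum_pair (by omega)] at this
  unfold m
  omega

theorem b3 (H : NF33 r a b b' a') :
    25 ≤ m a b b' a' + e33 a b b' a' 3 + e33 a b b' a' 4 + e33 a b b' a' 5 := by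
  have hr := H.hr
  have := budget33 H.hr H.D H.hT H.n1 {3, 4, 5} (by
    intro i hi
    simp only [Finset.mem_insert, Finset.mem_singleton] at hi
    omega)
  simp only [Finset.sum_insert, Finset.mem_insert, Finset.mem_singleton, Finset.sum_singleton,
    show ¬ (3 = 4 ∨ 3 = 5) by omega, show ¬ (4 = 5) by omega, not_false_eq_true,
    Finset.card_insert_of_notMem, Finset.card_singleton] at this
  unfold m
  omega

theorem b4 (H : NF33 r a b b' a') :
    29 ≤ m a b b' a' + e33 a b b' a' 3 + e33 a b b' a' 4 + e33 a b b' a' 5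
      + e33 a b b' a' 6 := by
  have hr := H.hr
  have := budget33 H.hr H.D H.hT H.n1 {3, 4, 5, 6} (by
    intro i hi
    simp only [Finset.mem_insert, Finset.mem_singleton] at hi
    omega)
  simp only [Finset.sum_insert, Finset.mem_insert, Finset.mem_singleton, Finset.sum_singleton,
    show ¬ (3 = 4 ∨ 3 = 5 ∨ 3 = 6) by omega, show ¬ (4 = 5 ∨ 4 = 6) by omega,
    show ¬ (5 = 6) by omega, not_false_eq_true,
    Finset.card_insert_of_notMem, Finset.card_singleton] at this
  unfold m
  omega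

/-- the chain `2, 0, 2, 0, …` when both `n3` and `n4` are available -/
theorem chain3 (H : NF33 r a b b' a') (h3 : a 3 = 1)
    (hy : ∀ j, 3 ≤ j → j < r → a j + a' (j + 1) = 1) :
    (∀ s, 3 + 2 * s ≤ r → a (3 + 2 * s) = 1 ∧ a' (3 + 2 * s) = 1) ∧ ∃ t, r = 3 + 2 * t := by
  have hr := H.hr
  have key : ∀ s, 3 + 2 * s ≤ r → a (3 + 2 * s) = 1 ∧ a' (3 + 2 * s) = 1 := by
    intro s
    induction s with
    | zero => intro _; exact ⟨h3, H.h3'⟩
    | succ s ih =>
      intro hs
      obtain ⟨i1, i2⟩ := ih (by omega)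
      have k1 := H.n2 (3 + 2 * s) (by omega) (by omega)
      have k2 := hy (3 + 2 * s + 1) (by omega) (by omega)
      have e1 : 3 + 2 * (s + 1) = 3 + 2 * s + 1 + 1 := by ring
      rw [e1]
      have i3 : a' (3 + 2 * s + 1 + 1) = 1 := by omega
      refine ⟨?_, i3⟩
      rcases Nat.lt_or_ge (3 + 2 * s + 1 + 1) r with h | h
      · have k3 := H.n3 h3 (3 + 2 * s + 1 + 1) (by omega) (by omega)
        have k4 := hy (3 + 2 * s + 1 + 1) (by omega) h
        omega
      · have e2 : 3 + 2 * s + 1 + 1 = r := by omega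
        rw [e2]
        exact H.ar
  refine ⟨key, ?_⟩
  by_contra hcon
  push Not at hcon
  have h1 : r = 3 + 2 * ((r - 4) / 2) + 1 := by
    have := hcon ((r - 3) / 2)
    omega
  have h2 := (key ((r - 4) / 2) (by omega)).1
  have h4 := H.n2 (3 + 2 * ((r - 4) / 2)) (by omega) (by omega)
  rw [← h1, H.ar] at h4
  omega

/-- case (5b-i) -/
theorem case1 (H : NF33 r a b b' a') (h1 : b 1 = 1) (h1' : b' 1 = 1) (h2 : a 2 = 1)
    (h2' : a' 2 = 0) : ∃ p t, P2N r a' a p t := by
  have hr := H.hr
  have m1 := H.D.m1 0 H.h0 (by simpa using h2)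
  simp only [Nat.zero_add] at m1
  have c0 := H.h0
  have c1 := H.h0'
  have c2 := H.h3'
  have q0 := H.D.bb 0
  have q0' := H.D.bb' 0
  have q2 := H.D.bb 2
  have q2' := H.D.bb' 2
  have q1 := H.D.ba 1
  have B0 := H.b0
  have hm : m a b b' a' = 8 + 2 * a 1 + b 0 + b' 0 + b 2 + b' 2 := by
    unfold m e33
    simp only [Nat.zero_add, show (1 : ℕ) + 1 = 2 from rfl, show (2 : ℕ) + 1 = 3 from rfl]
    omega
  have a1 : a 1 = 1 := by omega
  have a1' : a' 1 = 0 := by omega
  have hy : ∀ j, 3 ≤ j → j < r → a j + a' (j + 1) = 1 := by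
    intro j g1 g2
    have k1 := H.b1 g1 g2
    have k2 := H.n1 j g1 (by omega)
    have k3 := H.D.bb j
    have k4 := H.D.bb' j
    unfold e33 at k1
    omega
  have hb : ∀ j, 3 ≤ j → j + 1 < r → 3 ≤ b j + b' j + b (j + 1) + b' (j + 1) := by
    intro j g1 g2
    have k1 := H.b2 g1 (Nat.lt_succ_self j) g2
    have k2 := hy j g1 (by omega)
    have k3 := hy (j + 1) (by omega) g2
    have k4 := H.D.bb j
    have k5 := H.D.bb' j
    have k6 := H.D.bb (j + 1)
    have k7 := H.D.bb' (j + 1)
    unfold e33 at k1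
    simp only [Nat.succ_eq_add_one] at k1
    omega
  have P1 := H.per 1
  have hv : ∀ i, 3 ≤ i → i + 3 ≤ r → a' i = 1 → a' (i + 3) = 1 → False := by
    intro i g1 g2 g3 g4
    have k1 := H.D.w1' i r (by omega) (by omega) g3 g4 H.ar (by rw [P1.1]; exact a1)
    have k2 := hb (i + 1) (by omega) (by omega)
    simp only [Nat.add_assoc, Nat.reduceAdd] at k1 k2
    omega
  have w3 := H.D.ba 3
  by_cases h3 : a 3 = 1
  · obtain ⟨key, t, ht⟩ := H.chain3 h3 hy
    refine ⟨3, t, by omega, by omega, ?_, ?_, ?_⟩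
    · intro s hs
      exact (key s (by omega)).symm
    · intro s hs
      obtain ⟨i1, i2⟩ := key s (by omega)
      have k1 := H.n2 (3 + 2 * s) (by omega) (by omega)
      have k2 := H.n3 h3 (3 + 2 * s) (by omega) (by omega)
      omega
    · intro n g1 g2
      have P2 := H.per 2
      rcases Nat.lt_or_ge n (r - 1) with h | h
      · rw [show 3 + n = r + 1 by omega, P1.1, P1.2.2.2]
        exact ⟨a1', a1⟩
      · rw [show 3 + n = r + 2 by omega, P2.1, P2.2.2.2]
        exact ⟨h2', h2⟩
  · exfalso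
    have y3 := hy 3 (by omega) (by omega)
    have y5 := hy 5 (by omega) (by omega)
    have y6 := hy 6 (by omega) (by omega)
    have g4 : a' 4 = 1 := by
      simp only [show (3 : ℕ) + 1 = 4 from rfl] at y3
      omega
    have g6 : a' 6 ≠ 1 := fun h => hv 3 (by omega) (by omega) c2 h
    have g7 : a' 7 ≠ 1 := fun h => hv 4 (by omega) (by omega) g4 h
    have k6 := H.D.ba' 6
    have k7 := H.D.ba' 7
    have k := H.n2 5 (by omega) (by omega)
    simp only [show (5 : ℕ) + 1 = 6 from rfl, show (6 : ℕ) + 1 = 7 from rfl] at y5 y6 k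
    omega

/-- the general chain `2, 0, 2, 0, …, 2` from `p` to `r` -/
theorem chainP (H : NF33 r a b b' a') (hy : ∀ j, 3 ≤ j → j < r → a j + a' (j + 1) = 1)
    {p : ℕ} (hp : 3 ≤ p) (hap : a p = 1) (hap' : a' p = 1)
    (hs : ∀ j, p ≤ j → j < r → a' j + a (j + 1) ≤ 1) :
    (∀ s, p + 2 * s ≤ r → a (p + 2 * s) = 1 ∧ a' (p + 2 * s) = 1) ∧
      (∀ s, p + 2 * s < r → a (p + 2 * s + 1) = 0 ∧ a' (p + 2 * s + 1) = 0) ∧
      (p ≤ r → ∃ t, r = p + 2 * t) := by
  have hr := H.hr
  have ar := H.ar
  have tl : ∀ n m, m + n = r → p ≤ m → a m = 0 → a' m = 1 → False := by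
    intro n
    induction n with
    | zero =>
      intro m h1 _ h3 _
      rw [Nat.add_zero] at h1
      rw [h1, ar] at h3
      omega
    | succ n ih =>
      intro m h1 h2 h3 h4
      have k1 := hs m h2 (by omega)
      have k2 := hy m (by omega) (by omega)
      exact ih (m + 1) (by omega) (by omega) (by omega) (by omega)
  have key : ∀ s, p + 2 * s ≤ r → a (p + 2 * s) = 1 ∧ a' (p + 2 * s) = 1 := by
    intro s
    induction s with
    | zero => intro _; exact ⟨hap, hap'⟩
    | succ s ih =>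
      intro hs'
      obtain ⟨i1, i2⟩ := ih (by omega)
      have k1 := H.n2 (p + 2 * s) (by omega) (by omega)
      have k2 := hy (p + 2 * s + 1) (by omega) (by omega)
      have e1 : p + 2 * (s + 1) = p + 2 * s + 1 + 1 := by ring
      rw [e1]
      have i3 : a' (p + 2 * s + 1 + 1) = 1 := by omega
      refine ⟨?_, i3⟩
      have k3 := H.D.ba (p + 2 * s + 1 + 1)
      by_contra hne
      exact tl (r - (p + 2 * s + 1 + 1)) (p + 2 * s + 1 + 1) (by omega) (by omega) (by omega) i3
  refine ⟨key, ?_, ?_⟩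
  · intro s h1
    obtain ⟨i1, i2⟩ := key s (by omega)
    have k1 := H.n2 (p + 2 * s) (by omega) (by omega)
    have k2 := hy (p + 2 * s) (by omega) (by omega)
    omega
  · intro hpr
    by_contra hcon
    push Not at hcon
    have h1 : r = p + 2 * ((r - p - 1) / 2) + 1 := by
      have := hcon ((r - p) / 2)
      omega
    have h2 := (key ((r - p - 1) / 2) (by omega)).1
    have h4 := H.n2 (p + 2 * ((r - p - 1) / 2)) (by omega) (by omega)
    rw [← h1, ar] at h4
    omega

/-- the first position `p ≥ 3` with `a p = 1` -/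
theorem first (H : NF33 r a b b' a') (hy : ∀ j, 3 ≤ j → j < r → a j + a' (j + 1) = 1) :
    ∃ p, 3 ≤ p ∧ p ≤ r ∧ a p = 1 ∧ (∀ j, 3 ≤ j → j < p → a j = 0) ∧
      (∀ j, 3 ≤ j → j ≤ p → a' j = 1) ∧ p ≠ r - 1 := by
  classical
  have hr := H.hr
  have hex : ∃ p, 3 ≤ p ∧ a p = 1 := ⟨r, by omega, H.ar⟩
  refine ⟨Nat.find hex, (Nat.find_spec hex).1, Nat.find_min' hex ⟨by omega, H.ar⟩,
    (Nat.find_spec hex).2, ?_, ?_, ?_⟩
  · intro j h1 h2
    have h3 := Nat.find_min hex h2
    have h4 := H.D.ba j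
    by_contra hne
    exact h3 ⟨h1, by omega⟩
  · intro j h1 h2
    rcases Nat.lt_or_ge 3 j with h | h
    · have h3 := Nat.find_min hex (m := j - 1) (by omega)
      have h4 := H.D.ba (j - 1)
      have h5 : a (j - 1) = 0 := by
        by_contra hne
        exact h3 ⟨by omega, by omega⟩
      have h6 : Nat.find hex ≤ r := Nat.find_min' hex ⟨by omega, H.ar⟩
      have h7 := hy (j - 1) (by omega) (by omega)
      rw [show j - 1 + 1 = j by omega] at h7
      omega
    · have : j = 3 := by omega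
      rw [this]
      exact H.h3'
  · intro h
    have h1 := H.n2 (r - 1) (by omega) (by omega)
    rw [show r - 1 + 1 = r by omega, H.ar, ← h, (Nat.find_spec hex).2] at h1
    omega

/-- case (5b-ii) -/
theorem case2 (H : NF33 r a b b' a') (h1 : b 1 = 1) (h1' : b' 1 = 1) (h2 : a 2 = 0)
    (h2' : a' 2 = 1) : P1N r a b b' a' ∨ ∃ p t, P2N r a a' p t := by
  have hr := H.hr
  have m1 := H.D.m1' 0 H.h0' (by simpa using h2')
  simp only [Nat.zero_add] at m1
  have c0 := H.h0
  have c1 := H.h0'
  have c2 := H.h3'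
  have q0 := H.D.bb 0
  have q0' := H.D.bb' 0
  have q2 := H.D.bb 2
  have q2' := H.D.bb' 2
  have q1 := H.D.ba' 1
  have B0 := H.b0
  have a1 : a 1 = 0 := by omega
  have hm : m a b b' a' = 8 + 2 * a' 1 + b 0 + b' 0 + b 2 + b' 2 := by
    unfold m e33
    simp only [Nat.zero_add, show (1 : ℕ) + 1 = 2 from rfl, show (2 : ℕ) + 1 = 3 from rfl]
    omega
  have a1' : a' 1 = 1 := by omega
  have hy : ∀ j, 3 ≤ j → j < r → a j + a' (j + 1) = 1 := by
    intro j g1 g2
    have k1 := H.b1 g1 g2
    have k2 := H.n1 j g1 (by omega)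
    have k3 := H.D.bb j
    have k4 := H.D.bb' j
    unfold e33 at k1
    omega
  have hb1 : ∀ j, 3 ≤ j → j < r → 5 ≤ b 0 + b' 0 + b 2 + b' 2 + b j + b' j := by
    intro j g1 g2
    have k1 := H.b1 g1 g2
    have k2 := hy j g1 g2
    unfold e33 at k1
    omega
  have hb : ∀ j, 3 ≤ j → j + 1 < r → 3 ≤ b j + b' j + b (j + 1) + b' (j + 1) := by
    intro j g1 g2
    have k1 := H.b2 g1 (Nat.lt_succ_self j) g2
    have k2 := hy j g1 (by omega)
    have k3 := hy (j + 1) (by omega) g2
    unfold e33 at k1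
    simp only [Nat.succ_eq_add_one] at k1
    omega
  obtain ⟨p, p1, p2, p3, p4, p5, p6⟩ := H.first hy
  have p4' : ∀ j, 1 ≤ j → j < p → a j = 0 := by
    intro j g1 g2
    rcases Nat.lt_or_ge j 3 with h | h
    · have : j = 1 ∨ j = 2 := by omega
      rcases this with h | h <;> rw [h] <;> assumption
    · exact p4 j h g2
  have p5' : ∀ j, j ≤ p → a' j = 1 := by
    intro j g2
    rcases Nat.lt_or_ge j 3 with h | h
    · have : j = 0 ∨ j = 1 ∨ j = 2 := by omega
      rcases this with h | h | h <;> rw [h] <;> assumption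
    · exact p5 j h g2
  rcases Nat.lt_or_ge p r with hpr | hpr
  · right
    have hs : ∀ j, p ≤ j → j < r → a' j + a (j + 1) ≤ 1 := by
      intro j g1 g2
      have k1 := H.D.ba' j
      have k2 := H.D.ba (j + 1)
      by_contra hne
      have k3 := H.D.w2' (p - 3) j (by omega) (by omega) (p5' _ (by omega))
        (by rw [show p - 3 + 3 = p by omega]; exact p3) (by omega) (by omega)
      rcases Nat.lt_or_ge p 4 with h | h
      · have h3 : p = 3 := by omega
        rw [h3] at k3
        simp only [show 3 - 3 + 1 = 1 from rfl, show 3 - 3 + 2 = 2 from rfl] at k3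
        have := H.phi
        omega
      · rcases Nat.lt_or_ge p 5 with h' | h'
        · have h3 : p = 4 := by omega
          rw [h3] at k3
          simp only [show 4 - 3 + 1 = 2 from rfl, show 4 - 3 + 2 = 3 from rfl] at k3
          have := hb1 3 (by omega) (by omega)
          omega
        · have := hb (p - 2) (by omega) (by omega)
          rw [show p - 3 + 1 = p - 2 by omega, show p - 3 + 2 = p - 2 + 1 by omega] at k3
          omega
    obtain ⟨x1, x2, x3⟩ := H.chainP hy p1 p3 (p5' p (le_refl _)) hs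
    obtain ⟨t, ht⟩ := x3 p2
    refine ⟨p, t, by omega, by omega, fun s h => x1 s (by omega), fun s h => x2 s (by omega), ?_⟩
    intro n g1 g2
    have P := H.per (p + n - r)
    rw [show r + (p + n - r) = p + n by omega] at P
    rw [P.1, P.2.2.2]
    exact ⟨p4' _ (by omega) (by omega), p5' _ (by omega)⟩
  · left
    have hpr' : p = r := by omega
    have P := H.per 1
    have k := H.D.m1' (r - 1) (p5' _ (by omega)) (by
      rw [show r - 1 + 2 = r + 1 by omega, P.2.2.2]; exact a1')
    have P0 := H.per 0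
    rw [Nat.add_zero] at P0
    rw [show r - 1 + 1 = r by omega, P0.1, P0.2.2.1, c0] at k
    have f0 : b' 0 = 0 := by omega
    have full : ∀ j, 3 ≤ j → j < r → b j = 1 ∧ b' j = 1 := by
      intro j g1 g2
      have k1 := hb1 j g1 g2
      have k3 := H.D.bb j
      have k4 := H.D.bb' j
      omega
    refine ⟨c0, fun n g1 g2 => p4' n g1 (by omega), fun n g => p5' n (by omega), ?_, f0, ?_⟩
    · intro n g
      rcases Nat.lt_or_ge n 3 with h | h
      · have : n = 0 ∨ n = 1 ∨ n = 2 := by omega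
        rcases this with h | h | h <;> rw [h] <;> omega
      · exact (full n h g).1
    · intro n g1 g2
      rcases Nat.lt_or_ge n 3 with h | h
      · have : n = 1 ∨ n = 2 := by omega
        rcases this with h | h <;> rw [h] <;> omega
      · exact (full n h g2).2

/-- case (6) and (5a), `x 1 = 0` -/
theorem case3 (H : NF33 r a b b' a') (h2 : a 2 = 1) (h2' : a' 2 = 1) (h1 : a 1 = 0)
    (h1' : a' 1 = 0) : ∃ p t, P2N r a a' p t := by
  have hr := H.hr
  have c0 := H.h0
  have c1 := H.h0'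
  have c2 := H.h3'
  have q0 := H.D.bb 0
  have q0' := H.D.bb' 0
  have q1 := H.D.bb 1
  have q1' := H.D.bb' 1
  have q2 := H.D.bb 2
  have q2' := H.D.bb' 2
  have B0 := H.b0
  have hm : m a b b' a' = 8 + b 0 + b' 0 + b 1 + b' 1 + b 2 + b' 2 := by
    unfold m e33
    simp only [Nat.zero_add, show (1 : ℕ) + 1 = 2 from rfl, show (2 : ℕ) + 1 = 3 from rfl]
    omega
  have hy : ∀ j, 3 ≤ j → j < r → a j + a' (j + 1) = 1 := by
    intro j g1 g2
    have k1 := H.b1 g1 g2
    have k2 := H.n1 j g1 (by omega)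
    have k3 := H.D.bb j
    have k4 := H.D.bb' j
    unfold e33 at k1
    omega
  have hb : ∀ j, 3 ≤ j → j + 1 < r → 3 ≤ b j + b' j + b (j + 1) + b' (j + 1) := by
    intro j g1 g2
    have k1 := H.b2 g1 (Nat.lt_succ_self j) g2
    have k2 := hy j g1 (by omega)
    have k3 := hy (j + 1) (by omega) g2
    unfold e33 at k1
    simp only [Nat.succ_eq_add_one] at k1
    omega
  have P1 := H.per 1
  have P2 := H.per 2
  obtain ⟨p, p1, p2, p3, p4, p5, p6⟩ := H.first hy
  -- the common end
  have fin : (∀ s, p + 2 * s ≤ r → a (p + 2 * s) = 1 ∧ a' (p + 2 * s) = 1) →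
      (∀ s, p + 2 * s < r → a (p + 2 * s + 1) = 0 ∧ a' (p + 2 * s + 1) = 0) →
      (∃ t, r = p + 2 * t) → ∃ p t, P2N r a a' p t := by
    intro x1 x2 x3
    obtain ⟨t, ht⟩ := x3
    refine ⟨p, t + 1, by omega, by omega, ?_, ?_, ?_⟩
    · intro s h
      rcases Nat.lt_or_ge t s with h' | h'
      · rw [show p + 2 * s = r + 2 by omega, P2.1, P2.2.2.2]
        exact ⟨h2, h2'⟩
      · exact x1 s (by omega)
    · intro s h
      rcases Nat.lt_or_ge s t with h' | h'
      · exact x2 s (by omega)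
      · rw [show p + 2 * s + 1 = r + 1 by omega, P1.1, P1.2.2.2]
        exact ⟨h1, h1'⟩
    · intro n g1 g2
      have P := H.per (p + n - r)
      rw [show r + (p + n - r) = p + n by omega] at P
      rw [P.1, P.2.2.2]
      exact ⟨p4 _ (by omega) (by omega), p5 _ (by omega) (by omega)⟩
  rcases Nat.lt_or_ge p r with hpr | hpr
  · rcases Nat.lt_or_ge p 4 with h | h
    · have h3 : p = 3 := by omega
      rw [h3] at p3
      obtain ⟨x1, x3⟩ := H.chain3 p3 hy
      rw [← h3] at x1 x3
      refine fin x1 ?_ x3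
      intro s g
      obtain ⟨i1, i2⟩ := x1 s (by omega)
      have k1 := H.n2 (p + 2 * s) (by omega) (by omega)
      have k2 := H.n3 p3 (p + 2 * s) (by omega) (by omega)
      omega
    · rcases Nat.lt_or_ge p 5 with h' | h'
      · have h4 : p = 4 := by omega
        -- everything except `b 3` is full
        have k0 := H.D.m1 2 h2 (by rw [show 2 + 2 = p by omega]; exact p3)
        simp only [show (2 : ℕ) + 1 = 3 from rfl] at k0
        have b3 : b 3 = 0 := by omega
        have k3 := H.b1 (j := 3) (by omega) (by omega)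
        have y3 := hy 3 (by omega) (by omega)
        have q3 := H.D.bb' 3
        unfold e33 at k3
        have f0 : b 0 = 1 ∧ b' 0 = 1 ∧ b 1 = 1 ∧ b' 1 = 1 := by omega
        have full : ∀ j, 4 ≤ j → j < r → b j = 1 ∧ b' j = 1 := by
          intro j g1 g2
          have k1 := H.b2 (j := 3) (k := j) (by omega) (by omega) g2
          have k2 := hy j (by omega) g2
          have k3 := H.D.bb j
          have k4 := H.D.bb' j
          unfold e33 at k1
          omega
        have P0 := H.per 0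
        rw [Nat.add_zero] at P0
        have full' : ∀ j, 4 ≤ j → j ≤ r + 1 → b j = 1 ∧ b' j = 1 := by
          intro j g1 g2
          rcases Nat.lt_or_ge j r with h | h
          · exact full j g1 h
          · have : j = r ∨ j = r + 1 := by omega
            rcases this with h | h
            · rw [h, P0.2.1, P0.2.2.1]; exact ⟨f0.1, f0.2.1⟩
            · rw [h, P1.2.1, P1.2.2.1]; exact ⟨f0.2.2.1, f0.2.2.2⟩
        have P3 := H.per 3
        have w : ∀ i, 4 ≤ i → i < r → a i = 1 → a' (i + 3) = 0 := by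
          intro i g1 g2 g3
          have k1 := H.D.ba' (i + 3)
          by_contra hne
          have k2 := H.D.w2 i (r + 2) (by omega) (by omega) g3 (by omega)
            (by rw [P2.1]; exact h2) (by rw [show r + 2 + 1 = r + 3 by omega, P3.2.2.2]; exact c2)
          have k3 := full' (i + 1) (by omega) (by omega)
          have k4 := full' (i + 2) (by omega) (by omega)
          omega
        have key : ∀ s, p + 2 * s ≤ r → a (p + 2 * s) = 1 ∧ a' (p + 2 * s) = 1 := by
          intro s
          induction s with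
          | zero => intro _; exact ⟨p3, p5 p p1 (le_refl _)⟩
          | succ s ih =>
            intro hs'
            obtain ⟨i1, i2⟩ := ih (by omega)
            have k1 := H.n2 (p + 2 * s) (by omega) (by omega)
            have k2 := hy (p + 2 * s + 1) (by omega) (by omega)
            have e1 : p + 2 * (s + 1) = p + 2 * s + 1 + 1 := by ring
            rw [e1]
            have i3 : a' (p + 2 * s + 1 + 1) = 1 := by omega
            refine ⟨?_, i3⟩
            rcases Nat.lt_or_ge (p + 2 * s + 1 + 1) r with h | h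
            · have k3 := w (p + 2 * s) (by omega) (by omega) i1
              have k4 := hy (p + 2 * s + 1 + 1) (by omega) h
              rw [show p + 2 * s + 1 + 1 + 1 = p + 2 * s + 3 by ring] at k4
              omega
            · rw [show p + 2 * s + 1 + 1 = r by omega]
              exact H.ar
        refine fin key ?_ ?_
        · intro s g
          obtain ⟨i1, i2⟩ := key s (by omega)
          have k1 := H.n2 (p + 2 * s) (by omega) (by omega)
          have k2 := hy (p + 2 * s) (by omega) (by omega)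
          omega
        · by_contra hcon
          push Not at hcon
          have g1 : r = p + 2 * ((r - p - 1) / 2) + 1 := by
            have := hcon ((r - p) / 2)
            omega
          have g2 := (key ((r - p - 1) / 2) (by omega)).1
          have g4 := H.n2 (p + 2 * ((r - p - 1) / 2)) (by omega) (by omega)
          rw [← g1, H.ar] at g4
          omega
      · have hs : ∀ j, p ≤ j → j < r → a' j + a (j + 1) ≤ 1 := by
          intro j g1 g2
          have k1 := H.D.ba' j
          have k2 := H.D.ba (j + 1)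
          by_contra hne
          have k0 : a' (p - 3) = 1 := by
            rcases Nat.lt_or_ge p 6 with h | h
            · rw [show p - 3 = 2 by omega]; exact h2'
            · exact p5 _ (by omega) (by omega)
          have k3 := H.D.w2' (p - 3) j (by omega) (by omega) k0
            (by rw [show p - 3 + 3 = p by omega]; exact p3) (by omega) (by omega)
          have := hb (p - 2) (by omega) (by omega)
          rw [show p - 3 + 1 = p - 2 by omega, show p - 3 + 2 = p - 2 + 1 by omega] at k3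
          omega
        obtain ⟨x1, x2, x3⟩ := H.chainP hy p1 p3 (p5 p p1 (le_refl _)) hs
        exact fin x1 x2 (x3 p2)
  · have hpr' : p = r := by omega
    refine ⟨0, 1, by omega, by omega, ?_, ?_, ?_⟩
    · intro s h
      have : s = 0 ∨ s = 1 := by omega
      rcases this with h | h <;> rw [h]
      · simp only [Nat.mul_zero, Nat.add_zero]; exact ⟨c0, c1⟩
      · simp only [Nat.mul_one, Nat.zero_add]; exact ⟨h2, h2'⟩
    · intro s h
      have : s = 0 := by omega
      rw [this]
      simp only [Nat.mul_zero, Nat.add_zero, Nat.zero_add]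
      exact ⟨h1, h1'⟩
    · intro n g1 g2
      rw [Nat.zero_add]
      exact ⟨p4 _ (by omega) (by omega), p5 _ (by omega) (by omega)⟩

/-- the budget for four positions -/
theorem b4' (H : NF33 r a b b' a') {i j k l : ℕ} (h1 : 3 ≤ i) (h2 : i < j) (h3 : j < k)
    (h4 : k < l) (h5 : l < r) :
    29 ≤ m a b b' a' + e33 a b b' a' i + e33 a b b' a' j + e33 a b b' a' k
      + e33 a b b' a' l := by
  have hr := H.hr
  have := budget33 H.hr H.D H.hT H.n1 {i, j, k, l} (by
    intro n hn
    simp only [Finset.mem_insert, Finset.mem_singleton] at hn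
    omega)
  have e1 : i ∉ ({j, k, l} : Finset ℕ) := by
    simp only [Finset.mem_insert, Finset.mem_singleton]; omega
  have e2 : j ∉ ({k, l} : Finset ℕ) := by
    simp only [Finset.mem_insert, Finset.mem_singleton]; omega
  have e3 : k ∉ ({l} : Finset ℕ) := by
    simp only [Finset.mem_singleton]; omega
  rw [Finset.card_insert_of_notMem e1, Finset.card_insert_of_notMem e2,
    Finset.card_insert_of_notMem e3, Finset.card_singleton, Finset.sum_insert e1,
    Finset.sum_insert e2, Finset.sum_insert e3, Finset.sum_singleton] at this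
  unfold m
  omega

/-- case (5a) with `x 1 = 1`, first half -/
theorem case4 (H : NF33 r a b b' a') (h2 : a 2 = 1) (h2' : a' 2 = 1) (h1 : a 1 = 1)
    (h1' : a' 1 = 0) : False := by
  have hr := H.hr
  have c0 := H.h0
  have c1 := H.h0'
  have c2 := H.h3'
  have q0 := H.D.bb 0
  have q0' := H.D.bb' 0
  have q1 := H.D.bb 1
  have q1' := H.D.bb' 1
  have q2 := H.D.bb 2
  have q2' := H.D.bb' 2
  have B0 := H.b0
  have ph := H.phi
  have m1 := H.D.m1' 0 c1 (by simpa using h2')
  simp only [Nat.zero_add] at m1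
  have hm : m a b b' a' = 10 + b 0 + b' 0 + b 1 + b' 1 + b 2 + b' 2 := by
    unfold m e33
    simp only [Nat.zero_add, show (1 : ℕ) + 1 = 2 from rfl, show (2 : ℕ) + 1 = 3 from rfl]
    omega
  have f1 : b 1 = 1 ∧ b' 1 = 0 ∧ b' 2 = 1 := by omega
  have P1 := H.per 1
  have P2 := H.per 2
  have ar := H.ar
  have ar' := H.ar'
  have q3 := H.D.bb 3
  have q3' := H.D.bb' 3
  have q4 := H.D.bb 4
  have q4' := H.D.bb' 4
  have q5 := H.D.bb 5
  have q5' := H.D.bb' 5
  have q6 := H.D.bb 6
  have q6' := H.D.bb' 6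
  have t3 := H.D.ba 3
  have t4 := H.D.ba 4
  have t5 := H.D.ba 5
  have t6 := H.D.ba 6
  have t7 := H.D.ba 7
  have t4' := H.D.ba' 4
  have t5' := H.D.ba' 5
  have t6' := H.D.ba' 6
  have t7' := H.D.ba' 7
  have n3 := H.n1 3 (by omega) (by omega)
  have n4 := H.n1 4 (by omega) (by omega)
  have n5 := H.n1 5 (by omega) (by omega)
  have n6 := H.n1 6 (by omega) (by omega)
  have n5a := H.n2 5 (by omega) (by omega)
  have n3a := H.n2 3 (by omega) (by omega)
  have B3 := H.b1 (j := 3) (by omega) (by omega)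
  have B4 := H.b1 (j := 4) (by omega) (by omega)
  have B5 := H.b1 (j := 5) (by omega) (by omega)
  have B6 := H.b1 (j := 6) (by omega) (by omega)
  have B34 := H.b2 (j := 3) (k := 4) (by omega) (by omega) (by omega)
  have B35 := H.b2 (j := 3) (k := 5) (by omega) (by omega) (by omega)
  have B36 := H.b2 (j := 3) (k := 6) (by omega) (by omega) (by omega)
  have B45 := H.b2 (j := 4) (k := 5) (by omega) (by omega) (by omega)
  have B46 := H.b2 (j := 4) (k := 6) (by omega) (by omega) (by omega)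
  have B56 := H.b2 (j := 5) (k := 6) (by omega) (by omega) (by omega)
  have B345 := H.b3
  have B3456 := H.b4
  unfold e33 at B3 B4 B5 B6 B34 B35 B36 B45 B46 B56 B345 B3456
  simp only [show (3 : ℕ) + 1 = 4 from rfl, show (4 : ℕ) + 1 = 5 from rfl,
    show (5 : ℕ) + 1 = 6 from rfl, show (6 : ℕ) + 1 = 7 from rfl] at B3 B4 B5 B6 B34 B35 B36 B45 B46 B56 B345 B3456 n3 n4 n5 n6 n5a n3a
  have F3 : a 5 = 1 ∨ a' 5 = 1 → b 3 + b' 4 ≤ 1 ∧ b 4 + b' 3 ≤ 1 := by
    rintro (h | h)
    · exact H.D.w2' 2 r (by omega) (by omega) h2' h ar' (by rw [P1.1]; exact h1)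
    · exact H.D.w1' 2 r (by omega) (by omega) h2' h ar (by rw [P1.1]; exact h1)
  by_cases h3 : a 3 = 1
  · have k := H.D.m1 1 h1 h3
    simp only [show (1 : ℕ) + 1 = 2 from rfl] at k
    have k5 : a' 5 = 1 := by omega
    have := F3 (Or.inr k5)
    omega
  · have h3' : a 3 = 0 := by omega
    have F4 : a 6 = 1 ∨ a' 6 = 1 → b 4 + b' 5 ≤ 1 ∧ b 5 + b' 4 ≤ 1 := by
      rintro (h | h)
      · exact H.D.w2' 3 r (by omega) (by omega) c2 h ar' (by rw [P1.1]; exact h1)
      · exact H.D.w1' 3 r (by omega) (by omega) c2 h ar (by rw [P1.1]; exact h1)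
    have F5 : a' 4 = 1 → a 7 = 1 ∨ a' 7 = 1 → b 5 + b' 6 ≤ 1 ∧ b 6 + b' 5 ≤ 1 := by
      rintro h0 (h | h)
      · exact H.D.w2' 4 r (by omega) (by omega) h0 h ar' (by rw [P1.1]; exact h1)
      · exact H.D.w1' 4 r (by omega) (by omega) h0 h ar (by rw [P1.1]; exact h1)
    have M2 : a 4 = 1 → b 3 = 0 := by
      intro h
      have k := H.D.m1 2 h2 h
      simp only [show (2 : ℕ) + 1 = 3 from rfl] at k
      omega
    -- all `y j = 1`
    have hy : ∀ j, 3 ≤ j → j < r → a j + a' (j + 1) = 1 := by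
      intro j g1 g2
      by_contra hne
      have g3 := H.n1 j g1 (by omega)
      have g4 : a j = 0 ∧ a' (j + 1) = 0 := by omega
      have full : ∀ k, 3 ≤ k → k < r → b k = 1 ∧ b' k = 1 ∧ (k ≠ j → a k + a' (k + 1) = 1) := by
        intro k s1 s2
        have s3 := H.b1 g1 g2
        have s4 := H.D.bb k
        have s5 := H.D.bb' k
        have s6 := H.D.bb j
        have s7 := H.D.bb' j
        unfold e33 at s3
        rcases lt_trichotomy k j with h | h | h
        · have s8 := H.b2 s1 h g2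
          have s9 := H.n1 k s1 (by omega)
          unfold e33 at s8
          omega
        · subst h
          omega
        · have s8 := H.b2 g1 h s2
          have s9 := H.n1 k s1 (by omega)
          unfold e33 at s8
          omega
      have f3 := full 3 (by omega) (by omega)
      have f4 := full 4 (by omega) (by omega)
      have f5 := full 5 (by omega) (by omega)
      simp only [show (3 : ℕ) + 1 = 4 from rfl, show (4 : ℕ) + 1 = 5 from rfl,
        show (5 : ℕ) + 1 = 6 from rfl] at f3 f4 f5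
      have x5 : a 5 = 0 ∧ a' 5 = 0 := by
        by_contra hh
        have := F3 (by omega)
        omega
      have x6 : a 6 = 0 ∧ a' 6 = 0 := by
        by_contra hh
        have := F4 (by omega)
        omega
      have x4 : a 4 = 0 := by
        by_contra hh
        have := M2 (by omega)
        omega
      by_cases j4 : j = 4
      · have := f5.2.2 (by omega)
        omega
      · have := f4.2.2 (by omega)
        omega
    have y3 := hy 3 (by omega) (by omega)
    have y4 := hy 4 (by omega) (by omega)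
    have y5 := hy 5 (by omega) (by omega)
    have y6 := hy 6 (by omega) (by omega)
    simp only [show (3 : ℕ) + 1 = 4 from rfl, show (4 : ℕ) + 1 = 5 from rfl,
      show (5 : ℕ) + 1 = 6 from rfl, show (6 : ℕ) + 1 = 7 from rfl] at y3 y4 y5 y6
    have g4 : a' 4 = 1 := by omega
    have x5 : a 5 = 1 ∨ a' 5 = 1 := by
      by_contra hh
      have e1 : a 5 = 0 ∧ a' 5 = 0 := by omega
      have e2 := M2 (by omega)
      have e3 := F4 (Or.inr (by omega))
      omega
    have x6 : a 6 = 1 ∨ a' 6 = 1 := by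
      by_contra hh
      have e1 : a 6 = 0 ∧ a' 6 = 0 := by omega
      have e2 := F3 x5
      have e3 := F5 g4 (Or.inr (by omega))
      omega
    have e3 := F3 x5
    have e4 := F4 x6
    have z : b 4 = 0 ∧ b' 4 = 0 ∧ b 3 = 1 ∧ b' 3 = 1 ∧ b 5 = 1 ∧ b' 5 = 1 ∧ b 6 = 1 ∧ b' 6 = 1 := by
      omega
    have x7 : a 7 = 0 ∧ a' 7 = 0 := by
      by_contra hh
      have := F5 g4 (by omega)
      omega
    have r8 : 8 ≤ r := by
      by_contra hh
      have : r = 7 := by omega
      rw [this] at ar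
      omega
    have y7 := hy 7 (by omega) (by omega)
    simp only [show (7 : ℕ) + 1 = 8 from rfl] at y7
    have k := H.D.w1' 5 (r + 1) (by omega) (by omega) (by omega)
      (by simp only [show (5 : ℕ) + 3 = 8 from rfl]; omega) (by rw [P1.1]; exact h1)
      (by rw [show r + 1 + 1 = r + 2 by omega, P2.1]; exact h2)
    simp only [show (5 : ℕ) + 1 = 6 from rfl, show (5 : ℕ) + 2 = 7 from rfl] at k
    have q7 := H.D.bb 7
    have q7' := H.D.bb' 7
    have B := H.b4' (i := 3) (j := 4) (k := 6) (l := 7) (by omega) (by omega) (by omega) (by omega)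
      (by omega)
    unfold e33 at B
    simp only [show (3 : ℕ) + 1 = 4 from rfl, show (4 : ℕ) + 1 = 5 from rfl,
      show (6 : ℕ) + 1 = 7 from rfl, show (7 : ℕ) + 1 = 8 from rfl] at B
    omega

/-- case (5a) with `x 1 = 1`, second half -/
theorem case5 (H : NF33 r a b b' a') (h2 : a 2 = 1) (h2' : a' 2 = 1) (h1 : a 1 = 0)
    (h1' : a' 1 = 1) : False := by
  have hr := H.hr
  have c0 := H.h0
  have c1 := H.h0'
  have c2 := H.h3'
  have q0 := H.D.bb 0
  have q0' := H.D.bb' 0
  have q1 := H.D.bb 1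
  have q1' := H.D.bb' 1
  have q2 := H.D.bb 2
  have q2' := H.D.bb' 2
  have B0 := H.b0
  have ph := H.phi
  have m1 := H.D.m1 0 c0 (by simpa using h2)
  simp only [Nat.zero_add] at m1
  have m2 := H.D.m1' 1 h1' (by simpa using c2)
  simp only [show (1 : ℕ) + 1 = 2 from rfl] at m2
  have hm : m a b b' a' = 10 + b 0 + b' 0 + b 1 + b' 1 + b 2 + b' 2 := by
    unfold m e33
    simp only [Nat.zero_add, show (1 : ℕ) + 1 = 2 from rfl, show (2 : ℕ) + 1 = 3 from rfl]
    omega
  have f1 : b 1 = 0 ∧ b' 1 = 1 ∧ b 2 = 1 ∧ b' 2 = 0 := by omega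
  have P0 := H.per 0
  rw [Nat.add_zero] at P0
  have P1 := H.per 1
  have P2 := H.per 2
  have P3 := H.per 3
  have hy : ∀ j, 3 ≤ j → j < r → a j + a' (j + 1) = 1 := by
    intro j g1 g2
    have k1 := H.b1 g1 g2
    have k2 := H.n1 j g1 (by omega)
    have k3 := H.D.bb j
    have k4 := H.D.bb' j
    unfold e33 at k1
    omega
  have hb1 : ∀ j, 3 ≤ j → j < r → 3 ≤ b 0 + b' 0 + b j + b' j := by
    intro j g1 g2
    have k1 := H.b1 g1 g2
    have k2 := hy j g1 g2
    unfold e33 at k1
    omega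
  have hb2 : ∀ j, 4 ≤ j → j < r → 5 ≤ b 0 + b' 0 + b 3 + b' 3 + b j + b' j := by
    intro j g1 g2
    have k1 := H.b2 (j := 3) (k := j) (by omega) (by omega) g2
    have k2 := hy j (by omega) g2
    have k3 := hy 3 (by omega) (by omega)
    unfold e33 at k1
    omega
  have q3 := H.D.bb 3
  have q3' := H.D.bb' 3
  have q4 := H.D.bb 4
  have q4' := H.D.bb' 4
  have t5 := H.D.ba 5
  have t5' := H.D.ba' 5
  have B34 := hb2 4 (by omega) (by omega)
  have a5 : a 5 = 0 := by
    by_contra hh
    have k := H.D.w1 2 r (by omega) (by omega) h2 (by show a 5 = 1; omega) H.ar'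
      (by rw [P1.2.2.2]; exact h1')
    simp only [show (2 : ℕ) + 1 = 3 from rfl, show (2 : ℕ) + 2 = 4 from rfl] at k
    omega
  have a5' : a' 5 = 0 := by
    by_contra hh
    have k := H.D.w2 2 r (by omega) (by omega) h2 (by show a' 5 = 1; omega) H.ar
      (by rw [P1.2.2.2]; exact h1')
    simp only [show (2 : ℕ) + 1 = 3 from rfl, show (2 : ℕ) + 2 = 4 from rfl] at k
    omega
  have y4 := hy 4 (by omega) (by omega)
  simp only [show (4 : ℕ) + 1 = 5 from rfl] at y4
  have k := H.D.m1 2 h2 (by show a 4 = 1; omega)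
  simp only [show (2 : ℕ) + 1 = 3 from rfl] at k
  have B3 := hb1 3 (by omega) (by omega)
  have f0 : b 0 = 1 ∧ b' 0 = 1 := by omega
  have ka := H.D.ba' (r - 1)
  have z1 : a' (r - 1) = 0 := by
    by_contra hh
    have k := H.D.m1' (r - 1) (by omega) (by
      rw [show r - 1 + 2 = r + 1 by omega, P1.2.2.2]; exact h1')
    rw [show r - 1 + 1 = r by omega, P0.1, P0.2.2.1] at k
    omega
  have y := hy (r - 2) (by omega) (by omega)
  rw [show r - 2 + 1 = r - 1 by omega] at y
  have z2 : a (r - 2) = 1 := by omega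
  have kk := H.D.w2 (r - 2) (r + 2) (by omega) (by omega) z2
    (by rw [show r - 2 + 3 = r + 1 by omega, P1.2.2.2]; exact h1') (by rw [P2.1]; exact h2)
    (by rw [show r + 2 + 1 = r + 3 by omega, P3.2.2.2]; exact c2)
  rw [show r - 2 + 1 = r - 1 by omega, show r - 2 + 2 = r by omega, P0.2.1, P0.2.2.1] at kk
  have B := hb2 (r - 1) (by omega) (by omega)
  have qa := H.D.bb (r - 1)
  have qa' := H.D.bb' (r - 1)
  omega

/-- the bound on `S` -/
theorem sumS (H : NF33 r a b b' a') (h1 : a 1 + a' 1 + a 2 + a' 2 ≤ 2) :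
    ∑ j ∈ Finset.range r, a j + ∑ j ∈ Finset.range r, a' j ≤ r + 1 := by
  have hr := H.hr
  have e1 : ∑ j ∈ Finset.range r, a' j = ∑ j ∈ Finset.range r, a' (j + 1) := by
    have h2 := Finset.sum_range_succ' a' r
    have h3 := Finset.sum_range_succ a' r
    have h4 := H.D.pa' 0
    rw [Nat.zero_add] at h4
    omega
  rw [e1, ← Finset.sum_add_distrib]
  have h0 : ∑ j ∈ Finset.range r, (a j + a' (j + 1)) = (a 0 + a' 1) + (a 1 + a' 2) + (a 2 + a' 3)
      + ∑ j ∈ Finset.Ico 3 r, (a j + a' (j + 1)) := by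
    rw [Finset.range_eq_Ico, ← Finset.sum_Ico_consecutive _ (Nat.zero_le 3) (by omega : 3 ≤ r)]
    simp [Finset.sum_Ico_eq_sum_range, Finset.sum_range_succ]
  have h2 : ∑ j ∈ Finset.Ico 3 r, (a j + a' (j + 1)) ≤ (Finset.Ico 3 r).card * 1 := by
    rw [← smul_eq_mul]
    refine Finset.sum_le_card_nsmul _ _ _ fun j hj => ?_
    rw [Finset.mem_Ico] at hj
    exact H.n1 j hj.1 hj.2
  rw [Nat.card_Ico] at h2
  rw [h0]
  have := H.h0
  have := H.h3'
  omega

/-- the normal form -/
theorem final (H : NF33 r a b b' a')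
    (hx : (a 2 = 1 ∧ a' 2 = 1) ∨ (a 2 + a' 2 = 1 ∧ b 1 = 1 ∧ b' 1 = 1)) :
    ∑ j ∈ Finset.range r, a j + ∑ j ∈ Finset.range r, a' j ≤ r + 1 ∧
      (P1N r a b b' a' ∨ (∃ p t, P2N r a a' p t) ∨ ∃ p t, P2N r a' a p t) := by
  have q0 := H.D.ba 1
  have q1 := H.D.ba' 1
  have q2 := H.D.ba 2
  have q3 := H.D.ba' 2
  rcases hx with ⟨h2, h2'⟩ | ⟨h2, h1, h1'⟩
  · by_cases x1 : a 1 = 0 ∧ a' 1 = 0
    · refine ⟨H.sumS (by omega), Or.inr (Or.inl (H.case3 h2 h2' x1.1 x1.2))⟩
    · exfalso
      by_cases x2 : a 1 = 1 ∧ a' 1 = 1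
      · have m1 := H.D.m1 0 H.h0 (by simpa using h2)
        have m1' := H.D.m1' 0 H.h0' (by simpa using h2')
        simp only [Nat.zero_add] at m1 m1'
        have := H.phi
        omega
      · by_cases x3 : a 1 = 1
        · exact H.case4 h2 h2' x3 (by omega)
        · exact H.case5 h2 h2' (by omega) (by omega)
  · by_cases x : a 2 = 1
    · have m1 := H.D.m1 0 H.h0 (by simpa using x)
      simp only [Nat.zero_add] at m1
      exact ⟨H.sumS (by omega), Or.inr (Or.inr (H.case1 h1 h1' x (by omega)))⟩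
    · have m1 := H.D.m1' 0 H.h0' (by show a' 2 = 1; omega)
      simp only [Nat.zero_add] at m1
      refine ⟨H.sumS (by omega), ?_⟩
      rcases H.case2 h1 h1' (by omega) (by omega) with h | h
      · exact Or.inl h
      · exact Or.inr (Or.inl h)

end NF33

end Pool.Agent.P0
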