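import Pool.Agent.P0.FourC81
import Pool.Agent.P0.Three53

set_option linter.all false

/-!
# P0, I7 (C1) in the form used by (C2)
-/

namespace Pool.Agent.P0

open Pool.Agent.Helper14.LongCyc Pool.Agent.LCK Pool.Agent.FRC

universe u

variable {V : Type u} {G : SimpleGraph V}

theorem noFour81 [DecidableEq V] {U : Finset V} {k r : ℕ} (S : Set41 G U k r) (hr : 7 ≤ r) :
    NoFour53 G U r := by
  intro Q p q F x y h C hC c hp _ hc hs hcr _ hbit hfour
  obtain ⟨n, hn⟩ := four_of49 (G := G) (hp := hp) (u := x) (s := p) (t := q) (v := y) hfour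
    (by omega)
  have hnd := Cyc.nodup hc
  have hCt : c.toFinset = C := by
    ext z; rw [List.mem_toFinset]; exact hs z
  rw [sum_ind49 hp hnd, sum_ind49 hp hnd, hCt, hcr] at hbit
  exact hn.false81 S (by omega) h hC hc hs hbit

end Pool.Agent.P0
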