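import Pool.Agent.P0.LLG49

set_option linter.all false

/-!
# P0, I7 (A): the output of the local lemma LL0 as statements about the cycle

`u, v` the two ends of the path, `s, t` their neighbours on the path (`s` next to `u`).
Positions on the cycle `c` are `cf c hp n`.
-/

namespace Pool.Agent.P0

open Pool.Agent.Helper14.LongCyc Pool.Agent.LCK

universe u

variable {V : Type u} {G : SimpleGraph V}

/-- the cycle through `w`, skipping position `n + 1` -/
theorem cyc_repl49 [DecidableEq V] {c : List V} (hc : Cyc G c) (hp : 0 < c.length) (n : ℕ) {w : V}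
    (hw : w ∉ c) (h1 : G.Adj w (cf c hp n)) (h2 : G.Adj w (cf c hp (n + 2))) {C : Finset V}
    (hC : ∀ z, z ∈ c ↔ z ∈ C) :
    CycSet G (insert w (C.erase (cf c hp (n + 1)))) := by
  have hL := hc.1
  have hA := arc_pth hc hp (c.length - 2) (n + 2) (by omega)
  have e0 : cf c hp (n + 2 + (c.length - 2)) = cf c hp n := by
    apply cf_congr
    rw [show n + 2 + (c.length - 2) = n + c.length by omega, Nat.add_mod_right]
  rw [e0] at hA
  have hA' := hA.cons h2 (fun h => hw (arc_mem49 hp h))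
  refine ⟨w :: seg (cf c hp) (n + 2) (c.length - 2), ⟨?_, w, _, hA', h1.symm⟩, ?_⟩
  · rw [List.length_cons, seg_length]; omega
  · intro z
    rw [List.mem_cons, Finset.mem_insert, Finset.mem_erase, ← hC z]
    constructor
    · rintro (h | h)
      · exact Or.inl h
      · refine Or.inr ⟨?_, arc_mem49 hp h⟩
        rw [mem_seg] at h
        obtain ⟨j, j1, j2, j3⟩ := h
        rw [j3, show j = n + (j - n) by omega]
        exact (far49 hc hp n (s := 1) (t := j - n) (by omega) (by omega)).symm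
    · rintro (h | ⟨h, h'⟩)
      · exact Or.inl h
      · right
        obtain ⟨i, hi, rfl⟩ := exists_cf hp h'
        rw [mem_seg]
        -- the representative of `i` in `[n + 2, n + 1 + c.length]`
        have hm := Nat.mod_lt (i + (n + 2) * (c.length - 1)) hp
        refine ⟨n + 2 + (i + (n + 2) * (c.length - 1)) % c.length, by omega, ?_, ?_⟩
        · by_contra hcon
          have e1 : (i + (n + 2) * (c.length - 1)) % c.length = c.length - 1 := by omega
          apply h
          apply cf_congr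
          have e2 : (n + 2 + (i + (n + 2) * (c.length - 1))) % c.length = i % c.length := by
            rw [show n + 2 + (i + (n + 2) * (c.length - 1)) = i + (n + 2) * (1 + (c.length - 1)) by
              ring, show 1 + (c.length - 1) = c.length by omega, Nat.add_mul_mod_self_right]
          have e3 : i + (n + 2) * (c.length - 1) ≡ c.length - 1 [MOD c.length] := by
            unfold Nat.ModEq
            rw [e1, Nat.mod_eq_of_lt (by omega)]
          have e4 : (n + 2 + (i + (n + 2) * (c.length - 1))) % c.length =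
              (n + 2 + (c.length - 1)) % c.length := Nat.ModEq.add_left (n + 2) e3
          rw [← e2, e4, show n + 2 + (c.length - 1) = n + 1 + c.length by omega,
            Nat.add_mod_right]
        · apply cf_congr
          rw [Nat.add_mod, Nat.mod_mod, ← Nat.add_mod,
            show n + 2 + (i + (n + 2) * (c.length - 1)) = i + (n + 2) * (1 + (c.length - 1)) by
              ring, show 1 + (c.length - 1) = c.length by omega, Nat.add_mul_mod_self_right]

/-- a third end: position `n + 1` -/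
def Third49 (G : SimpleGraph V) (c : List V) (hp : 0 < c.length) (u s t v : V) (n : ℕ) : Prop :=
  G.Adj u (cf c hp n) ∧ G.Adj u (cf c hp (n + 2)) ∧ G.Adj v (cf c hp n) ∧
    G.Adj v (cf c hp (n + 2)) ∧ G.Adj s (cf c hp (n + 1)) ∧ G.Adj t (cf c hp (n + 1))

/-- type 1, position `n + 2`, small end `u` -/
structure TOne49 (G : SimpleGraph V) (c : List V) (hp : 0 < c.length) (u s t v : V) (n : ℕ) :
    Prop where
  hu : ∀ j, j < c.length → (G.Adj u (cf c hp (n + j)) ↔ j = 2)
  hv : ∀ j, G.Adj v (cf c hp j)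
  hs : ∀ j, G.Adj s (cf c hp j)
  ht : ∀ j, j < c.length → (G.Adj t (cf c hp (n + j)) ↔ j ≠ 2)

/-- type 2 minus one bit, centre at position `n + 2`, small end `u` -/
structure TTwo49 (G : SimpleGraph V) (c : List V) (hp : 0 < c.length) (u s t v : V) (n : ℕ) :
    Prop where
  hu : ∀ j, j < c.length → (G.Adj u (cf c hp (n + j)) ↔ j = 1 ∨ j = 3)
  hv : ∀ j, j < c.length → (G.Adj v (cf c hp (n + j)) ↔ j ≠ 2)
  hs : ∀ j, j < c.length → j ≠ 2 → G.Adj s (cf c hp (n + j))
  ht : ∀ j, j < c.length → j ≠ 2 → G.Adj t (cf c hp (n + j))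
  one : ¬ (G.Adj s (cf c hp (n + 2)) ↔ G.Adj t (cf c hp (n + 2)))

/-- every residue is `n + j` for a suitable shift -/
theorem shiftZ49 {L : ℕ} (hL : 3 ≤ L) (z : ZMod L) (k : ℕ) (hk : k ≤ L) :
    ∃ n : ℕ, ((n + k : ℕ) : ZMod L) = z := by
  haveI : NeZero L := ⟨by omega⟩
  refine ⟨z.val + (L - k), ?_⟩
  rw [show z.val + (L - k) + k = z.val + L by omega, Nat.cast_add, ZMod.natCast_self, add_zero]
  exact ZMod.natCast_zmod_val z

theorem cast_eq49 {L n j k : ℕ} (hj : j < L) (hk : k < L) :
    ((n + j : ℕ) : ZMod L) = ((n + k : ℕ) : ZMod L) ↔ j = k := by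
  constructor
  · intro h
    rw [ZMod.natCast_eq_natCast_iff] at h
    have h1 : j ≡ k [MOD L] := Nat.ModEq.add_left_cancel' n h
    unfold Nat.ModEq at h1
    rwa [Nat.mod_eq_of_lt hj, Nat.mod_eq_of_lt hk] at h1
  · rintro rfl; rfl

variable {c : List V} {hp : 0 < c.length} {u s t v : V}

theorem third_of49 (h : Third33 c.length (ind49 G c hp u) (ind49 G c hp s) (ind49 G c hp t)
    (ind49 G c hp v)) (hL : 3 ≤ c.length) : ∃ n, Third49 G c hp u s t v n := by
  obtain ⟨i, h1, h2, h3, h4, h5, h6⟩ := h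
  obtain ⟨n, hn⟩ := shiftZ49 hL i 1 (by omega)
  have e0 : i - 1 = ((n : ℕ) : ZMod c.length) := by rw [← hn]; push_cast; ring
  have e1 : i = ((n + 1 : ℕ) : ZMod c.length) := hn.symm
  have e2 : i + 1 = ((n + 2 : ℕ) : ZMod c.length) := by rw [← hn]; push_cast; ring
  exact ⟨n, (ind_nat49 hp n e0).1 h1, (ind_nat49 hp (n + 2) e2).1 h3, (ind_nat49 hp n e0).1 h2,
    (ind_nat49 hp (n + 2) e2).1 h4, (ind_nat49 hp (n + 1) e1).1 h5,
    (ind_nat49 hp (n + 1) e1).1 h6⟩

theorem one_of49 (h : TypeOne33 c.length (ind49 G c hp u) (ind49 G c hp s) (ind49 G c hp t)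
    (ind49 G c hp v)) (hL : 3 ≤ c.length) : ∃ n, TOne49 G c hp u s t v n := by
  obtain ⟨i, h⟩ := h
  obtain ⟨n, hn⟩ := shiftZ49 hL i 2 (by omega)
  refine ⟨n, ⟨?_, ?_, ?_, ?_⟩⟩
  · intro j hj
    rw [← ind_nat49 hp (n + j) rfl, (h _).1, ← hn, cast_eq49 hj (by omega)]
  · intro j
    exact (ind_nat49 hp j rfl).1 (h _).2.1
  · intro j
    exact (ind_nat49 hp j rfl).1 (h _).2.2.1
  · intro j hj
    rw [← ind_nat49 hp (n + j) rfl, (h _).2.2.2, ← hn, Ne, Ne, not_iff_not, cast_eq49 hj (by omega)]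

theorem two_of49 (h : TypeTwo33 c.length (ind49 G c hp u) (ind49 G c hp s) (ind49 G c hp t)
    (ind49 G c hp v)) (hL : 4 ≤ c.length) : ∃ n, TTwo49 G c hp u s t v n := by
  obtain ⟨i, h, h', h''⟩ := h
  obtain ⟨n, hn⟩ := shiftZ49 (L := c.length) (by omega) i 2 (by omega)
  have e1 : i - 1 = ((n + 1 : ℕ) : ZMod c.length) := by rw [← hn]; push_cast; ring
  have e3 : i + 1 = ((n + 3 : ℕ) : ZMod c.length) := by rw [← hn]; push_cast; ring
  refine ⟨n, ⟨?_, ?_, ?_, ?_, ?_⟩⟩
  · intro j hj
    rw [← ind_nat49 hp (n + j) rfl, (h _).1, e1, e3, cast_eq49 hj (by omega),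
      cast_eq49 hj (by omega)]
  · intro j hj
    rw [← ind_nat49 hp (n + j) rfl, (h _).2, ← hn, Ne, Ne, not_iff_not, cast_eq49 hj (by omega)]
  · intro j hj hj2
    exact (ind_nat49 hp (n + j) rfl).1 (h' _ (fun e => hj2 ((cast_eq49 hj (by omega)).1
      (e.trans hn.symm)))).1
  · intro j hj hj2
    exact (ind_nat49 hp (n + j) rfl).1 (h' _ (fun e => hj2 ((cast_eq49 hj (by omega)).1
      (e.trans hn.symm)))).2
  · rw [← ind_nat49 hp (n + 2) rfl, ← ind_nat49 hp (n + 2) rfl, hn]
    intro hh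
    have l1 := ind_le49 (G := G) hp s i
    have l2 := ind_le49 (G := G) hp t i
    by_cases hs : ind49 G c hp s i = 1
    · have := hh.1 hs
      omega
    · have : ¬ ind49 G c hp t i = 1 := fun h => hs (hh.2 h)
      omega

/-- the outcomes of LL0 on the cycle `c` -/
def Out49 (G : SimpleGraph V) (c : List V) (hp : 0 < c.length) (u s t v : V) : Prop :=
  (∃ n, Third49 G c hp u s t v n) ∨ (∃ n, TOne49 G c hp u s t v n) ∨
    (∃ n, TOne49 G c hp v t s u n) ∨ (∃ n, TTwo49 G c hp u s t v n) ∨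
    (∃ n, TTwo49 G c hp v t s u n)

theorem out_of49 (h : Out33 c.length (ind49 G c hp u) (ind49 G c hp s) (ind49 G c hp t)
    (ind49 G c hp v)) (hL : 4 ≤ c.length) : Out49 G c hp u s t v := by
  rcases h with h | h | h | h | h
  · exact Or.inl (third_of49 h (by omega))
  · exact Or.inr (Or.inl (one_of49 h (by omega)))
  · exact Or.inr (Or.inr (Or.inl (one_of49 h (by omega))))
  · exact Or.inr (Or.inr (Or.inr (Or.inl (two_of49 h hL))))
  · exact Or.inr (Or.inr (Or.inr (Or.inr (two_of49 h hL))))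

end Pool.Agent.P0
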