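import Pool.Agent.P0.Three19

set_option linter.all false

/-!
# P0, I7 (B): the pair lemma
-/

namespace Pool.Agent.P0

open Pool.Agent.Helper14.LongCyc Pool.Agent.LCK Pool.Agent.FRC

universe u

variable {V : Type u} {G : SimpleGraph V}

/-- the vertices of `L` can be arranged to a closed walk -/
def Clo19 (G : SimpleGraph V) (L : List V) : Prop :=
  ∃ (l : List V) (a b : V), l.Perm L ∧ Wk19 G a b l ∧ G.Adj b a

theorem Wk19.clo {a b : V} {l : List V} (h : Wk19 G a b l) (hba : G.Adj b a) : Clo19 G l :=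
  ⟨l, a, b, List.Perm.refl _, h, hba⟩

/-- two walks joined by two edges, one way or the other -/
theorem clo_join19 {a b c d : V} {l l' : List V} (h : Wk19 G a b l) (h' : Wk19 G c d l')
    (hadj : (G.Adj b c ∧ G.Adj d a) ∨ (G.Adj b d ∧ G.Adj c a)) : Clo19 G (l ++ l') := by
  rcases hadj with ⟨h1, h2⟩ | ⟨h1, h2⟩
  · exact (h.append h' h1).clo h2
  · exact ⟨l ++ l'.reverse, a, c, List.Perm.append (List.Perm.refl _) (List.reverse_perm _),
      h.append h'.reverse h1, h2⟩

theorem seg_split19 (v : ℕ → V) (a m n : ℕ) :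
    seg v a (m + n + 1) = seg v a m ++ seg v (a + m + 1) n := by
  unfold seg
  rw [← List.map_append]
  congr 1
  rw [show m + n + 1 + 1 = (m + 1) + (n + 1) by ring, ← List.range'_append_1]
  congr 2

/-- the setting: cycles `C`, `E` with `r` vertices, the path `Q` with `r - 2` vertices and two
vertices `x`, `y`, everything disjoint -/
structure Env19 (G : SimpleGraph V) (r : ℕ) (W : Finset V) (C E : Finset V) (f g : ℕ → V)
    (Q : List V) (p q x y : V) : Prop where
  rf : Rot19 G r C f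
  rg : Rot19 G r E g
  path : Pth G p q Q
  len : Q.length + 2 = r
  ne : x ≠ y
  xQ : x ∉ Q
  yQ : y ∉ Q
  xC : x ∉ C
  yC : y ∉ C
  xE : x ∉ E
  yE : y ∉ E
  QC : ∀ z ∈ Q, z ∉ C
  QE : ∀ z ∈ Q, z ∉ E
  CE : ∀ z ∈ C, z ∉ E
  CW : ∀ z ∈ C, z ∈ W
  EW : ∀ z ∈ E, z ∈ W
  QW : ∀ z ∈ Q, z ∈ W
  xW : x ∈ W
  yW : y ∈ W

section

variable [DecidableEq V] {r : ℕ} {W C E : Finset V} {f g : ℕ → V} {Q : List V} {p q x y : V}

/-- the tool in this setting -/
theorem Env19.three (h : Env19 G r W C E f g Q p q x y) (hr : 3 ≤ r) (n m : ℕ)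
    {L₁ L₂ L₃ : List V} (c₁ : Clo19 G L₁) (c₂ : Clo19 G L₂) (c₃ : Clo19 G L₃)
    (n₁ : r ≤ L₁.length) (n₂ : r ≤ L₂.length) (n₃ : r ≤ L₃.length)
    (hp : (L₁ ++ (L₂ ++ L₃)).Perm
      (seg f n (r - 1) ++ (seg g m (r - 1) ++ ([x] ++ ([y] ++ Q))))) : Three41 G r W := by
  obtain ⟨l₁, a₁, b₁, p₁, w₁, e₁⟩ := c₁
  obtain ⟨l₂, a₂, b₂, p₂, w₂, e₂⟩ := c₂
  obtain ⟨l₃, a₃, b₃, p₃, w₃, e₃⟩ := c₃
  have hr0 : 0 < r := by omega
  have hxy : ([x] ++ ([y] ++ Q)).Nodup := by
    rw [List.singleton_append, List.singleton_append, List.nodup_cons, List.nodup_cons,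
      List.mem_cons]
    exact ⟨fun hh => hh.elim h.ne h.xQ, h.yQ, h.path.1⟩
  have hmem : ∀ z, z ∈ [x] ++ ([y] ++ Q) ↔ z = x ∨ z = y ∨ z ∈ Q := by
    intro z
    rw [List.singleton_append, List.singleton_append, List.mem_cons, List.mem_cons]
  refine three19 hr (L := seg f n (r - 1) ++ (seg g m (r - 1) ++ ([x] ++ ([y] ++ Q)))) ?_ ?_ w₁ e₁
    w₂ e₂ w₃ e₃ (by rw [p₁.length_eq]; exact n₁) (by rw [p₂.length_eq]; exact n₂)
    (by rw [p₃.length_eq]; exact n₃) ((p₁.append (p₂.append p₃)).trans hp)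
  · rw [List.nodup_append, List.nodup_append]
    refine ⟨h.rf.nodup n _ (by omega), ⟨h.rg.nodup m _ (by omega), hxy, ?_⟩, ?_⟩
    · intro z hz w hw hzw
      rw [h.rg.mem_seg hr0] at hz
      rw [hmem] at hw
      rw [hzw] at hz
      rcases hw with hw | hw | hw
      · exact h.xE (hw ▸ hz)
      · exact h.yE (hw ▸ hz)
      · exact h.QE w hw hz
    · intro z hz w hw hzw
      rw [h.rf.mem_seg hr0] at hz
      rw [List.mem_append, h.rg.mem_seg hr0, hmem] at hw
      rw [hzw] at hz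
      rcases hw with hw | hw | hw | hw
      · exact h.CE w hz hw
      · exact h.xC (hw ▸ hz)
      · exact h.yC (hw ▸ hz)
      · exact h.QC w hw hz
  · intro z hz
    rw [List.mem_append, List.mem_append, h.rf.mem_seg hr0, h.rg.mem_seg hr0, hmem] at hz
    rcases hz with hz | hz | hz | hz | hz
    · exact h.CW z hz
    · exact h.EW z hz
    · rw [hz]; exact h.xW
    · rw [hz]; exact h.yW
    · exact h.QW z hz

/-- the path `Q` closed by two consecutive vertices -/
theorem clo_two19 {r : ℕ} {E : Finset V} {g : ℕ → V} {Q : List V} {p q : V} (hg : Rot19 G r E g)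
    (hQ : Pth G p q Q) (n : ℕ)
    (h : (G.Adj q (g n) ∧ G.Adj p (g (n + 1))) ∨ (G.Adj q (g (n + 1)) ∧ G.Adj p (g n))) :
    Clo19 G (Q ++ seg g n 1) :=
  clo_join19 (Wk19.of hQ) (hg.wk n 1) (by
    rcases h with ⟨h1, h2⟩ | ⟨h1, h2⟩
    · exact Or.inl ⟨h1, h2.symm⟩
    · exact Or.inr ⟨h1, h2.symm⟩)

/-- construction (i): `E - e₂ + x`, `C - z + y`, `Q + e₂ + z` with `z = f n` -/
theorem Env19.con1 (h : Env19 G r W C E f g Q p q x y) (hr : 6 ≤ r) (n : ℕ)
    (x1 : G.Adj x (g 1)) (x3 : G.Adj x (g 3)) (y1 : G.Adj y (f (n + 1)))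
    (y2 : G.Adj y (f (n + (r - 1)))) (hz : G.Adj (f n) (g 2))
    (hpq : (G.Adj q (g 2) ∧ G.Adj p (f n)) ∨ (G.Adj q (f n) ∧ G.Adj p (g 2))) :
    Three41 G r W := by
  have e1 : g 1 = g (3 + (r - 2)) := by
    rw [show 3 + (r - 2) = 1 + r by omega, h.rg.per]
  have c1 : Clo19 G (seg g 3 (r - 2) ++ [x]) :=
    ((h.rg.wk 3 (r - 2)).append (Wk19.single x) (e1 ▸ x1.symm)).clo x3
  have c2 : Clo19 G (seg f (n + 1) (r - 2) ++ [y]) :=
    ((h.rf.wk (n + 1) (r - 2)).append (Wk19.single y) (by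
      rw [show n + 1 + (r - 2) = n + (r - 1) by omega]; exact y2.symm)).clo y1
  have c3 : Clo19 G (Q ++ ([g 2] ++ [f n])) :=
    clo_join19 (Wk19.of h.path) ((Wk19.single (g 2)).append (Wk19.single (f n)) hz.symm) (by
      rcases hpq with ⟨h1, h2⟩ | ⟨h1, h2⟩
      · exact Or.inl ⟨h1, h2.symm⟩
      · exact Or.inr ⟨h1, h2.symm⟩)
  have s1 : seg f n (r - 1) = [f n] ++ seg f (n + 1) (r - 2) := by
    rw [show r - 1 = 0 + (r - 2) + 1 by omega, seg_split19]
    rfl
  have s2 : seg g 2 (r - 1) = [g 2] ++ seg g 3 (r - 2) := by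
    rw [show r - 1 = 0 + (r - 2) + 1 by omega, seg_split19]
    rfl
  have hl := h.len
  refine h.three (by omega) n 2 c1 c2 c3 ?_ ?_ ?_ ?_
  · simp only [List.length_append, seg_length, List.length_singleton]; omega
  · simp only [List.length_append, seg_length, List.length_singleton]; omega
  · simp only [List.length_append, List.length_singleton]; omega
  · rw [s1, s2, List.perm_iff_count]
    intro z
    simp only [List.count_append]
    omega

/-- construction (ii): `C` and `E` of type 2- -/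
theorem Env19.con2 (h : Env19 G r W C E f g Q p q x y) (hr : 6 ≤ r)
    (hpq : (G.Adj q (g 1) ∧ G.Adj p (g 2)) ∨ (G.Adj q (g 2) ∧ G.Adj p (g 1)))
    (x3 : G.Adj x (g 3)) (yg : G.Adj y (g (r - 3))) (y1 : G.Adj y (f 1)) (xf : G.Adj x (f 3))
    (hz : (G.Adj (f r) (g (r - 2)) ∧ G.Adj (f 4) (g r)) ∨
      (G.Adj (f r) (g r) ∧ G.Adj (f 4) (g (r - 2)))) : Three41 G r W := by
  have c1 : Clo19 G (Q ++ seg g 1 1) := clo_two19 h.rg h.path 1 hpq
  have c2 : Clo19 G ([x] ++ (seg g 3 (r - 6) ++ ([y] ++ seg f 1 2))) :=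
    ((Wk19.single x).append ((h.rg.wk 3 (r - 6)).append
      ((Wk19.single y).append (h.rf.wk 1 2) y1) (by
        rw [show 3 + (r - 6) = r - 3 by omega]; exact yg.symm)) x3).clo xf.symm
  have c3 : Clo19 G (seg f 4 (r - 4) ++ seg g (r - 2) 2) :=
    clo_join19 (h.rf.wk 4 (r - 4)) (h.rg.wk (r - 2) 2) (by
      rw [show 4 + (r - 4) = r by omega, show r - 2 + 2 = r by omega]
      rcases hz with ⟨h1, h2⟩ | ⟨h1, h2⟩
      · exact Or.inl ⟨h1, h2.symm⟩
      · exact Or.inr ⟨h1, h2.symm⟩)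
  have s1 : seg f 1 (r - 1) = seg f 1 2 ++ seg f 4 (r - 4) := by
    rw [show r - 1 = 2 + (r - 4) + 1 by omega, seg_split19]
  have s2 : seg g 1 (r - 1) = seg g 1 1 ++ (seg g 3 (r - 6) ++ seg g (r - 2) 2) := by
    rw [show r - 1 = 1 + ((r - 6) + 2 + 1) + 1 by omega, seg_split19, seg_split19]
    rw [show 1 + 1 + 1 + (r - 6) + 1 = r - 2 by omega]
  have hl := h.len
  refine h.three (by omega) 1 1 c1 c2 c3 ?_ ?_ ?_ ?_
  · simp only [List.length_append, seg_length, List.length_singleton]; omega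
  · simp only [List.length_append, seg_length, List.length_singleton]; omega
  · simp only [List.length_append, seg_length, List.length_singleton]; omega
  · rw [s1, s2, List.perm_iff_count]
    intro z
    simp only [List.count_append]
    omega

/-- construction (iii), `e_r`: `C` of type 1, `E` of type 2- -/
theorem Env19.con3 (h : Env19 G r W C E f g Q p q x y) (hr : 6 ≤ r)
    (hpq : (G.Adj q (g 1) ∧ G.Adj p (g 2)) ∨ (G.Adj q (g 2) ∧ G.Adj p (g 1)))
    (x3 : G.Adj x (g 3)) (yg : G.Adj y (g (r - 1))) (y2 : G.Adj y (f 2)) (xf : G.Adj x (f 2))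
    (z1 : G.Adj (f 1) (g r)) (z2 : G.Adj (f 3) (g r)) : Three41 G r W := by
  have c1 : Clo19 G (Q ++ seg g 1 1) := clo_two19 h.rg h.path 1 hpq
  have c2 : Clo19 G ([x] ++ (seg g 3 (r - 4) ++ ([y] ++ [f 2]))) :=
    ((Wk19.single x).append ((h.rg.wk 3 (r - 4)).append
      ((Wk19.single y).append (Wk19.single (f 2)) y2) (by
        rw [show 3 + (r - 4) = r - 1 by omega]; exact yg.symm)) x3).clo xf.symm
  have e1 : f 1 = f (3 + (r - 2)) := by
    rw [show 3 + (r - 2) = 1 + r by omega, h.rf.per]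
  have c3 : Clo19 G (seg f 3 (r - 2) ++ [g r]) :=
    ((h.rf.wk 3 (r - 2)).append (Wk19.single (g r)) (e1 ▸ z1)).clo z2.symm
  have s1 : seg f 2 (r - 1) = [f 2] ++ seg f 3 (r - 2) := by
    rw [show r - 1 = 0 + (r - 2) + 1 by omega, seg_split19]
    rfl
  have s2 : seg g 1 (r - 1) = seg g 1 1 ++ (seg g 3 (r - 4) ++ [g r]) := by
    have s3 := seg_split19 g 3 (r - 4) 0
    rw [show 3 + (r - 4) + 1 = r by omega, show r - 4 + 0 + 1 = r - 3 by omega] at s3
    rw [show r - 1 = 1 + (r - 3) + 1 by omega, seg_split19, show 1 + 1 + 1 = 3 from rfl, s3]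
    rfl
  have hl := h.len
  refine h.three (by omega) 2 1 c1 c2 c3 ?_ ?_ ?_ ?_
  · simp only [List.length_append, seg_length, List.length_singleton]; omega
  · simp only [List.length_append, seg_length, List.length_singleton]; omega
  · simp only [List.length_append, seg_length, List.length_singleton]; omega
  · rw [s1, s2, List.perm_iff_count]
    intro z
    simp only [List.count_append]
    omega

/-- construction (iii), `e₄`: `C` of type 1, `E` of type 2- -/
theorem Env19.con4 (h : Env19 G r W C E f g Q p q x y) (hr : 6 ≤ r)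
    (hpq : (G.Adj q (g 2) ∧ G.Adj p (g 3)) ∨ (G.Adj q (g 3) ∧ G.Adj p (g 2)))
    (x1 : G.Adj x (g 1)) (yg : G.Adj y (g 5)) (y2 : G.Adj y (f 2)) (xf : G.Adj x (f 2))
    (z1 : G.Adj (f 1) (g 4)) (z2 : G.Adj (f 3) (g 4)) : Three41 G r W := by
  have c1 : Clo19 G (Q ++ seg g 2 1) := clo_two19 h.rg h.path 2 hpq
  have e0 : g 1 = g (5 + (r - 4)) := by
    rw [show 5 + (r - 4) = 1 + r by omega, h.rg.per]
  have c2 : Clo19 G ([x] ++ ((seg g 5 (r - 4)).reverse ++ ([y] ++ [f 2]))) :=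
    ((Wk19.single x).append ((h.rg.wk 5 (r - 4)).reverse.append
      ((Wk19.single y).append (Wk19.single (f 2)) y2) yg.symm) (e0 ▸ x1)).clo xf.symm
  have e1 : f 1 = f (3 + (r - 2)) := by
    rw [show 3 + (r - 2) = 1 + r by omega, h.rf.per]
  have c3 : Clo19 G (seg f 3 (r - 2) ++ [g 4]) :=
    ((h.rf.wk 3 (r - 2)).append (Wk19.single (g 4)) (e1 ▸ z1)).clo z2.symm
  have s1 : seg f 2 (r - 1) = [f 2] ++ seg f 3 (r - 2) := by
    rw [show r - 1 = 0 + (r - 2) + 1 by omega, seg_split19]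
    rfl
  have s2 : seg g 2 (r - 1) = seg g 2 1 ++ ([g 4] ++ seg g 5 (r - 4)) := by
    rw [show r - 1 = 1 + (0 + (r - 4) + 1) + 1 by omega, seg_split19, seg_split19]
    rfl
  have hl := h.len
  refine h.three (by omega) 2 2 c1 c2 c3 ?_ ?_ ?_ ?_
  · simp only [List.length_append, seg_length, List.length_singleton]; omega
  · simp only [List.length_append, List.length_reverse, seg_length, List.length_singleton]; omega
  · simp only [List.length_append, seg_length, List.length_singleton]; omega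
  · rw [s1, s2, List.perm_iff_count]
    intro z
    simp only [List.count_append, List.count_reverse]
    omega

/-- construction (iv): `E` of type 1, `C` of type 2-, `z = f 4` -/
theorem Env19.con5 (h : Env19 G r W C E f g Q p q x y) (hr : 6 ≤ r)
    (hz1 : G.Adj (f 4) (g 1)) (hz3 : G.Adj (f 4) (g 3)) (hq : G.Adj q (f 5)) (hp : G.Adj p (f 6))
    (xf : G.Adj x (f 3)) (xg : G.Adj x (g 2)) (yg : G.Adj y (g 2)) (yf : G.Adj y (f 7)) :
    Three41 G r W := by
  have e1 : g 1 = g (3 + (r - 2)) := by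
    rw [show 3 + (r - 2) = 1 + r by omega, h.rg.per]
  have c1 : Clo19 G (seg g 3 (r - 2) ++ [f 4]) :=
    ((h.rg.wk 3 (r - 2)).append (Wk19.single (f 4)) (e1 ▸ hz1.symm)).clo hz3
  have c2 : Clo19 G (Q ++ seg f 5 1) := clo_two19 h.rf h.path 5 (Or.inl ⟨hq, hp⟩)
  have e2 : f 3 = f (7 + (r - 4)) := by
    rw [show 7 + (r - 4) = 3 + r by omega, h.rf.per]
  have c3 : Clo19 G (seg f 7 (r - 4) ++ ([x] ++ ([g 2] ++ [y]))) :=
    ((h.rf.wk 7 (r - 4)).append ((Wk19.single x).append ((Wk19.single (g 2)).append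
      (Wk19.single y) yg.symm) xg) (e2 ▸ xf.symm)).clo yf
  have s1 : seg f 4 (r - 1) = [f 4] ++ (seg f 5 1 ++ seg f 7 (r - 4)) := by
    rw [show r - 1 = 0 + (1 + (r - 4) + 1) + 1 by omega, seg_split19, seg_split19]
    rfl
  have s2 : seg g 2 (r - 1) = [g 2] ++ seg g 3 (r - 2) := by
    rw [show r - 1 = 0 + (r - 2) + 1 by omega, seg_split19]
    rfl
  have hl := h.len
  refine h.three (by omega) 4 2 c1 c2 c3 ?_ ?_ ?_ ?_
  · simp only [List.length_append, seg_length, List.length_singleton]; omega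
  · simp only [List.length_append, seg_length, List.length_singleton]; omega
  · simp only [List.length_append, seg_length, List.length_singleton]; omega
  · rw [s1, s2, List.perm_iff_count]
    intro z
    simp only [List.count_append]
    omega

/-- construction (iv): `E` of type 1, `C` of type 1, `z = f 3` -/
theorem Env19.con6 (h : Env19 G r W C E f g Q p q x y) (hr : 6 ≤ r)
    (hz1 : G.Adj (f 3) (g 1)) (hz3 : G.Adj (f 3) (g 3)) (hq : G.Adj q (f 4)) (hp : G.Adj p (f 5))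
    (xf : G.Adj x (f 2)) (xg : G.Adj x (g 2)) (yg : G.Adj y (g 2)) (yf : G.Adj y (f 6)) :
    Three41 G r W := by
  have e1 : g 1 = g (3 + (r - 2)) := by
    rw [show 3 + (r - 2) = 1 + r by omega, h.rg.per]
  have c1 : Clo19 G (seg g 3 (r - 2) ++ [f 3]) :=
    ((h.rg.wk 3 (r - 2)).append (Wk19.single (f 3)) (e1 ▸ hz1.symm)).clo hz3
  have c2 : Clo19 G (Q ++ seg f 4 1) := clo_two19 h.rf h.path 4 (Or.inl ⟨hq, hp⟩)
  have e2 : f 2 = f (6 + (r - 4)) := by
    rw [show 6 + (r - 4) = 2 + r by omega, h.rf.per]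
  have c3 : Clo19 G (seg f 6 (r - 4) ++ ([x] ++ ([g 2] ++ [y]))) :=
    ((h.rf.wk 6 (r - 4)).append ((Wk19.single x).append ((Wk19.single (g 2)).append
      (Wk19.single y) yg.symm) xg) (e2 ▸ xf.symm)).clo yf
  have s1 : seg f 3 (r - 1) = [f 3] ++ (seg f 4 1 ++ seg f 6 (r - 4)) := by
    rw [show r - 1 = 0 + (1 + (r - 4) + 1) + 1 by omega, seg_split19, seg_split19]
    rfl
  have s2 : seg g 2 (r - 1) = [g 2] ++ seg g 3 (r - 2) := by
    rw [show r - 1 = 0 + (r - 2) + 1 by omega, seg_split19]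
    rfl
  have hl := h.len
  refine h.three (by omega) 3 2 c1 c2 c3 ?_ ?_ ?_ ?_
  · simp only [List.length_append, seg_length, List.length_singleton]; omega
  · simp only [List.length_append, seg_length, List.length_singleton]; omega
  · simp only [List.length_append, seg_length, List.length_singleton]; omega
  · rw [s1, s2, List.perm_iff_count]
    intro z
    simp only [List.count_append]
    omega

end

end Pool.Agent.P0
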