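import Pool.Agent.P0.Three19

set_option linter.all false

/-!
# P0, I7 (B): the pair lemma, second cycle of type 2

`E` is a cycle with `x ~ g 1, g 3`, `y` and the path ends see everything except `g 2`.
-/

namespace Pool.Agent.P0

open Pool.Agent.Helper14.LongCyc Pool.Agent.LCK Pool.Agent.FRC

universe u

variable {V : Type u} {G : SimpleGraph V}

theorem seg_split9 {v : ℕ → V} (n i j : ℕ) :
    seg v n (i + 1 + j) = seg v n i ++ seg v (n + i + 1) j := by
  unfold seg
  rw [← List.map_append, show i + 1 + j + 1 = (i + 1) + (j + 1) by ring]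
  congr 1
  rw [← List.range'_append_1]
  rfl

theorem seg_zero9 {v : ℕ → V} (n : ℕ) : seg v n 0 = [v n] := by simp [seg]

theorem seg_two9 {v : ℕ → V} (n : ℕ) : seg v n 1 = [v n, v (n + 1)] := by
  simp [seg, List.range'_succ]

theorem seg_three9 {v : ℕ → V} (n : ℕ) : seg v n 2 = [v n, v (n + 1), v (n + 2)] := by
  simp [seg, List.range'_succ]

theorem Rot19.card9 [DecidableEq V] {r : ℕ} {C : Finset V} {f : ℕ → V} (h : Rot19 G r C f)
    (hr : 0 < r) : C.card = r := by
  have e : C = (seg f 0 (r - 1)).toFinset := by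
    ext z
    rw [List.mem_toFinset, h.mem_seg hr]
  rw [e, List.toFinset_card_of_nodup (h.nodup 0 (r - 1) (by omega)), seg_length]
  omega

/-- the sets `C`, `E`, the path and its two outer vertices are disjoint and lie in `W` -/
structure Dis9 (C E W : Finset V) (Q : List V) (x y : V) : Prop where
  nd : Q.Nodup
  xQ : x ∉ Q
  yQ : y ∉ Q
  xy : x ≠ y
  xC : x ∉ C
  yC : y ∉ C
  QC : ∀ z ∈ Q, z ∉ C
  xE : x ∉ E
  yE : y ∉ E
  QE : ∀ z ∈ Q, z ∉ E
  CE : ∀ z ∈ C, z ∉ E
  CW : ∀ z ∈ C, z ∈ W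
  EW : ∀ z ∈ E, z ∈ W
  QW : ∀ z ∈ Q, z ∈ W
  xW : x ∈ W
  yW : y ∈ W

theorem Dis9.list {r : ℕ} (hr : 0 < r) {C E W : Finset V} {Q : List V} {x y : V}
    (D : Dis9 C E W Q x y) {f g : ℕ → V} (hf : Rot19 G r C f) (hg : Rot19 G r E g) (n m : ℕ) :
    (seg f n (r - 1) ++ (seg g m (r - 1) ++ (x :: y :: Q))).Nodup ∧
      ∀ z ∈ seg f n (r - 1) ++ (seg g m (r - 1) ++ (x :: y :: Q)), z ∈ W := by
  constructor
  · rw [List.nodup_append]
    refine ⟨hf.nodup n (r - 1) (by omega), ?_, ?_⟩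
    · rw [List.nodup_append]
      refine ⟨hg.nodup m (r - 1) (by omega), ?_, ?_⟩
      · rw [List.nodup_cons, List.nodup_cons]
        refine ⟨?_, D.yQ, D.nd⟩
        intro h
        rcases List.mem_cons.1 h with h | h
        · exact D.xy h
        · exact D.xQ h
      · intro a ha b hb hab
        subst hab
        rw [hg.mem_seg hr] at ha
        rcases List.mem_cons.1 hb with h | h
        · exact D.xE (h ▸ ha)
        · rcases List.mem_cons.1 h with h | h
          · exact D.yE (h ▸ ha)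
          · exact D.QE a h ha
    · intro a ha b hb hab
      subst hab
      rw [hf.mem_seg hr] at ha
      rcases List.mem_append.1 hb with h | h
      · rw [hg.mem_seg hr] at h
        exact D.CE a ha h
      · rcases List.mem_cons.1 h with h | h
        · exact D.xC (h ▸ ha)
        · rcases List.mem_cons.1 h with h | h
          · exact D.yC (h ▸ ha)
          · exact D.QC a h ha
  · intro a ha
    rcases List.mem_append.1 ha with h | h
    · exact D.CW a ((hf.mem_seg hr n a).1 h)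
    · rcases List.mem_append.1 h with h | h
      · exact D.EW a ((hg.mem_seg hr m a).1 h)
      · rcases List.mem_cons.1 h with h | h
        · rw [h]; exact D.xW
        · rcases List.mem_cons.1 h with h | h
          · rw [h]; exact D.yW
          · exact D.QW a h

section

variable [DecidableEq V] {r : ℕ} {C E W : Finset V} {Q : List V} {x y : V} {f g : ℕ → V}

/-- (i): `f m` is adjacent to `g 2`: exchange `x` for `g 2`, `y` for `f m` -/
theorem cons1_9 (hr : 6 ≤ r) (D : Dis9 C E W Q x y) (hf : Rot19 G r C f) (hg : Rot19 G r E g)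
    {m : ℕ} {a b : V} {Q' : List V} (hQ : Wk19 G a b Q') (hp : Q'.Perm Q) (hl : Q.length + 2 = r)
    (h1 : G.Adj b (g 2)) (h2 : G.Adj (g 2) (f m)) (h3 : G.Adj (f m) a)
    (h4 : G.Adj x (g 1)) (h5 : G.Adj x (g 3)) (h6 : G.Adj y (f (m + 1)))
    (h7 : G.Adj y (f (m + r - 1))) : Three41 G r W := by
  obtain ⟨hL, hW⟩ := D.list (by omega) hf hg m 2
  have w1 : Wk19 G x (g 1) (x :: seg g 3 (r - 2)) := by
    have := hg.wk 3 (r - 2)
    rw [show 3 + (r - 2) = 1 + r by omega, hg.per] at this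
    exact this.cons h5
  have w2 : Wk19 G y (f (m + r - 1)) (y :: seg f (m + 1) (r - 2)) := by
    have := hf.wk (m + 1) (r - 2)
    rw [show m + 1 + (r - 2) = m + r - 1 by omega] at this
    exact this.cons h6
  have w3 : Wk19 G a (f m) (Q' ++ [g 2] ++ [f m]) := (hQ.concat h1).concat h2
  refine three19 (by omega) hL hW w1 h4.symm w2 h7.symm w3 h3 ?_ ?_ ?_ ?_
  · rw [List.length_cons, seg_length]; omega
  · rw [List.length_cons, seg_length]; omega
  · have := hp.length_eq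
    simp only [List.length_append, List.length_cons, List.length_nil]
    omega
  · have e1 : seg f m (r - 1) = [f m] ++ seg f (m + 1) (r - 2) := by
      have := seg_split9 (v := f) m 0 (r - 2)
      rw [seg_zero9] at this
      rw [← this]
      congr 1
      omega
    have e2 : seg g 2 (r - 1) = [g 2] ++ seg g 3 (r - 2) := by
      have := seg_split9 (v := g) 2 0 (r - 2)
      rw [seg_zero9] at this
      rw [← this]
      congr 1
      omega
    rw [e1, e2, List.perm_iff_count]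
    intro z
    have hz := hp.count_eq z
    simp only [List.count_append, List.count_cons, List.count_nil, hz]
    omega

/-- (ii): both cycles of type 2 -/
theorem cons2_9 (hr : 6 ≤ r) (D : Dis9 C E W Q x y) (hf : Rot19 G r C f) (hg : Rot19 G r E g)
    {a b : V} {Q' : List V} (hQ : Wk19 G a b Q') (hp : Q'.Perm Q) (hl : Q.length + 2 = r)
    (h1 : G.Adj b (g 1)) (h2 : G.Adj (g 2) a) (h3 : G.Adj x (g 3)) (h4 : G.Adj y (g (r - 3)))
    (h5 : G.Adj y (f 1)) (h6 : G.Adj x (f 3))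
    (h7 : (G.Adj (f r) (g (r - 2)) ∧ G.Adj (f 4) (g r)) ∨
      (G.Adj (f r) (g r) ∧ G.Adj (f 4) (g (r - 2)))) : Three41 G r W := by
  obtain ⟨hL, hW⟩ := D.list (by omega) hf hg 1 1
  have w1 : Wk19 G a (g 2) (Q' ++ [g 1] ++ [g 2]) := (hQ.concat h1).concat (hg.adj 1)
  have w2 : Wk19 G x (f 3) ((x :: seg g 3 (r - 6)) ++ [y] ++ seg f 1 2) := by
    have s1 := (hg.wk 3 (r - 6)).cons h3
    rw [show 3 + (r - 6) = r - 3 by omega] at s1
    exact (s1.concat h4.symm).append (hf.wk 1 2) h5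
  have w3 : ∃ c d l, Wk19 G c d (seg f 4 (r - 4) ++ l) ∧ G.Adj d c ∧
      l.Perm (seg g (r - 2) 2) := by
    have s1 := hf.wk 4 (r - 4)
    rw [show 4 + (r - 4) = r by omega] at s1
    have s2 := hg.wk (r - 2) 2
    rw [show r - 2 + 2 = r by omega] at s2
    rcases h7 with h7 | h7
    · exact ⟨_, _, _, s1.append s2 h7.1, h7.2.symm, List.Perm.refl _⟩
    · exact ⟨_, _, _, s1.append s2.reverse h7.1, h7.2.symm, List.reverse_perm _⟩
  obtain ⟨c, d, l, w3, h8, h9⟩ := w3
  refine three19 (by omega) hL hW w1 h2 w2 h6.symm w3 h8 ?_ ?_ ?_ ?_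
  · have := hp.length_eq
    simp only [List.length_append, List.length_cons, List.length_nil]
    omega
  · simp only [List.length_append, List.length_cons, List.length_nil, seg_length]
    omega
  · have := h9.length_eq
    simp only [List.length_append, List.length_cons, List.length_nil, seg_length] at this ⊢
    omega
  · have e1 : seg f 1 (r - 1) = seg f 1 2 ++ seg f 4 (r - 4) := by
      have := seg_split9 (v := f) 1 2 (r - 4)
      rw [← this]
      congr 1
      omega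
    have e2 : seg g 1 (r - 1) = [g 1] ++ ([g 2] ++ (seg g 3 (r - 6) ++ seg g (r - 2) 2)) := by
      have s1 := seg_split9 (v := g) 1 0 (r - 2)
      have s2 := seg_split9 (v := g) 2 0 (r - 3)
      have s3 := seg_split9 (v := g) 3 (r - 6) 2
      rw [seg_zero9] at s1 s2
      rw [show 0 + 1 + (r - 2) = r - 1 by omega] at s1
      rw [show 0 + 1 + (r - 3) = r - 2 by omega] at s2
      rw [show r - 6 + 1 + 2 = r - 3 by omega, show 3 + (r - 6) + 1 = r - 2 by omega] at s3
      rw [s1, show 1 + 0 + 1 = 2 by omega, s2, show 2 + 0 + 1 = 3 by omega, s3]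
    rw [e1, e2, List.perm_iff_count]
    intro z
    have hz := hp.count_eq z
    have hz' := h9.count_eq z
    simp only [List.count_append, List.count_cons, List.count_nil, hz, hz']
    omega

/-- (iii a): `C` of type 1, the neighbours `f 1`, `f 3` of the centre see `g r` -/
theorem cons3_9 (hr : 6 ≤ r) (D : Dis9 C E W Q x y) (hf : Rot19 G r C f) (hg : Rot19 G r E g)
    {a b : V} {Q' : List V} (hQ : Wk19 G a b Q') (hp : Q'.Perm Q) (hl : Q.length + 2 = r)
    (h1 : G.Adj b (g 1)) (h2 : G.Adj (g 2) a) (h3 : G.Adj x (g 3)) (h4 : G.Adj y (g (r - 1)))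
    (h5 : G.Adj y (f 2)) (h6 : G.Adj x (f 2)) (h7 : G.Adj (f 1) (g r))
    (h8 : G.Adj (f 3) (g r)) : Three41 G r W := by
  obtain ⟨hL, hW⟩ := D.list (by omega) hf hg 2 1
  have w1 : Wk19 G a (g 2) (Q' ++ [g 1] ++ [g 2]) := (hQ.concat h1).concat (hg.adj 1)
  have w2 : Wk19 G x (f 2) ((x :: seg g 3 (r - 4)) ++ [y] ++ [f 2]) := by
    have s1 := (hg.wk 3 (r - 4)).cons h3
    rw [show 3 + (r - 4) = r - 1 by omega] at s1
    exact (s1.concat h4.symm).concat h5
  have w3 : Wk19 G (f 3) (g r) (seg f 3 (r - 2) ++ [g r]) := by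
    have s1 := hf.wk 3 (r - 2)
    rw [show 3 + (r - 2) = 1 + r by omega, hf.per] at s1
    exact s1.concat h7
  refine three19 (by omega) hL hW w1 h2 w2 h6.symm w3 h8.symm ?_ ?_ ?_ ?_
  · have := hp.length_eq
    simp only [List.length_append, List.length_cons, List.length_nil]
    omega
  · simp only [List.length_append, List.length_cons, List.length_nil, seg_length]
    omega
  · simp only [List.length_append, List.length_cons, List.length_nil, seg_length]
    omega
  · have e1 : seg f 2 (r - 1) = [f 2] ++ seg f 3 (r - 2) := by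
      have := seg_split9 (v := f) 2 0 (r - 2)
      rw [seg_zero9] at this
      rw [← this]
      congr 1
      omega
    have e2 : seg g 1 (r - 1) = [g 1] ++ ([g 2] ++ (seg g 3 (r - 4) ++ [g r])) := by
      have s1 := seg_split9 (v := g) 1 0 (r - 2)
      have s2 := seg_split9 (v := g) 2 0 (r - 3)
      have s3 := seg_split9 (v := g) 3 (r - 4) 0
      rw [seg_zero9] at s1 s2 s3
      rw [show 0 + 1 + (r - 2) = r - 1 by omega] at s1
      rw [show 0 + 1 + (r - 3) = r - 2 by omega] at s2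
      rw [show r - 4 + 1 + 0 = r - 3 by omega, show 3 + (r - 4) + 1 = r by omega] at s3
      rw [s1, show 1 + 0 + 1 = 2 by omega, s2, show 2 + 0 + 1 = 3 by omega, s3]
    rw [e1, e2, List.perm_iff_count]
    intro z
    have hz := hp.count_eq z
    simp only [List.count_append, List.count_cons, List.count_nil, hz]
    omega

/-- (iii b): `C` of type 1, the neighbours `f 1`, `f 3` of the centre see `g 4` -/
theorem cons4_9 (hr : 6 ≤ r) (D : Dis9 C E W Q x y) (hf : Rot19 G r C f) (hg : Rot19 G r E g)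
    {a b : V} {Q' : List V} (hQ : Wk19 G a b Q') (hp : Q'.Perm Q) (hl : Q.length + 2 = r)
    (h1 : G.Adj b (g 3)) (h2 : G.Adj (g 2) a) (h3 : G.Adj x (g 1)) (h4 : G.Adj y (g 5))
    (h5 : G.Adj y (f 2)) (h6 : G.Adj x (f 2)) (h7 : G.Adj (f 1) (g 4))
    (h8 : G.Adj (f 3) (g 4)) : Three41 G r W := by
  obtain ⟨hL, hW⟩ := D.list (by omega) hf hg 2 2
  have w1 : Wk19 G a (g 2) (Q' ++ [g 3] ++ [g 2]) := (hQ.concat h1).concat (hg.adj 2).symm
  have w2 : Wk19 G (g 5) y (seg g 5 (r - 4) ++ [x] ++ [f 2] ++ [y]) := by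
    have s1 := hg.wk 5 (r - 4)
    rw [show 5 + (r - 4) = 1 + r by omega, hg.per] at s1
    exact ((s1.concat h3.symm).concat h6).concat h5.symm
  have w3 : Wk19 G (f 3) (g 4) (seg f 3 (r - 2) ++ [g 4]) := by
    have s1 := hf.wk 3 (r - 2)
    rw [show 3 + (r - 2) = 1 + r by omega, hf.per] at s1
    exact s1.concat h7
  refine three19 (by omega) hL hW w1 h2 w2 h4 w3 h8.symm ?_ ?_ ?_ ?_
  · have := hp.length_eq
    simp only [List.length_append, List.length_cons, List.length_nil]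
    omega
  · simp only [List.length_append, List.length_cons, List.length_nil, seg_length]
    omega
  · simp only [List.length_append, List.length_cons, List.length_nil, seg_length]
    omega
  · have e1 : seg f 2 (r - 1) = [f 2] ++ seg f 3 (r - 2) := by
      have := seg_split9 (v := f) 2 0 (r - 2)
      rw [seg_zero9] at this
      rw [← this]
      congr 1
      omega
    have e2 : seg g 2 (r - 1) = [g 2] ++ ([g 3] ++ ([g 4] ++ seg g 5 (r - 4))) := by
      have s1 := seg_split9 (v := g) 2 0 (r - 2)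
      have s2 := seg_split9 (v := g) 3 0 (r - 3)
      have s3 := seg_split9 (v := g) 4 0 (r - 4)
      rw [seg_zero9] at s1 s2 s3
      rw [show 0 + 1 + (r - 2) = r - 1 by omega] at s1
      rw [show 0 + 1 + (r - 3) = r - 2 by omega] at s2
      rw [show 0 + 1 + (r - 4) = r - 3 by omega] at s3
      rw [s1, show 2 + 0 + 1 = 3 by omega, s2, show 3 + 0 + 1 = 4 by omega, s3]
    rw [e1, e2, List.perm_iff_count]
    intro z
    have hz := hp.count_eq z
    simp only [List.count_append, List.count_cons, List.count_nil, hz]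
    omega

/-- degrees into `E` with missing vertices -/
theorem dgm9 {z : V} {S : Finset V} (hS : S ⊆ E) (hn : ∀ s ∈ S, ¬ G.Adj z s) :
    dg G E z + S.card ≤ E.card := by
  classical
  unfold dg
  rw [← Finset.card_union_of_disjoint]
  · refine Finset.card_le_card ?_
    intro s hs
    rcases Finset.mem_union.1 hs with h | h
    · exact (Finset.mem_filter.1 h).1
    · exact hS h
  · rw [Finset.disjoint_left]
    intro s hs hs'
    exact hn s hs' (Finset.mem_filter.1 hs).2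

/-- the degree of a vertex that sees everything but one vertex -/
theorem dgone9 {z a : V} (ha : a ∈ E) (h : ∀ s ∈ E, s ≠ a → G.Adj z s) :
    E.card ≤ dg G E z + 1 := by
  classical
  unfold dg
  have := Finset.card_erase_add_one ha
  rw [← this]
  refine Nat.add_le_add_right (Finset.card_le_card ?_) 1
  intro s hs
  rw [Finset.mem_erase] at hs
  exact Finset.mem_filter.2 ⟨hs.2, h s hs.2 hs.1⟩

/-- two vertices which together miss at most one vertex of `E - a` -/
theorem miss9 {z z' a u w : V} (ha : a ∈ E) (hu : u ∈ E) (hw : w ∈ E) (hau : a ≠ u) (haw : a ≠ w)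
    (huw : u ≠ w) (h : ¬ G.Adj z a) (h' : ¬ G.Adj z' a)
    (hd : 2 * E.card ≤ dg G E z + dg G E z' + 3) :
    ((G.Adj z u ∧ G.Adj z' w) ∨ (G.Adj z w ∧ G.Adj z' u)) ∧
      ((G.Adj z u ∧ G.Adj z' u) ∨ (G.Adj z w ∧ G.Adj z' w)) := by
  have k1 : ∀ t, ¬ G.Adj t a → dg G E t + 1 ≤ E.card := by
    intro t ht
    have := dgm9 (G := G) (E := E) (z := t) (S := {a}) (by simpa using ha) (by simpa using ht)
    simpa using this
  have k2 : ∀ t v, v ∈ E → a ≠ v → ¬ G.Adj t a → ¬ G.Adj t v → dg G E t + 2 ≤ E.card := by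
    intro t v hv hav ht htv
    have := dgm9 (G := G) (E := E) (z := t) (S := {a, v})
      (by intro s hs; simp at hs; rcases hs with rfl | rfl <;> assumption)
      (by intro s hs; simp at hs; rcases hs with rfl | rfl <;> assumption)
    rwa [Finset.card_pair hav] at this
  have k3 : ∀ t, ¬ G.Adj t a → ¬ G.Adj t u → ¬ G.Adj t w → dg G E t + 3 ≤ E.card := by
    intro t ht htu htw
    have := dgm9 (G := G) (E := E) (z := t) (S := {a, u, w})
      (by intro s hs; simp at hs; rcases hs with rfl | rfl | rfl <;> assumption)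
      (by intro s hs; simp at hs; rcases hs with rfl | rfl | rfl <;> assumption)
    rwa [Finset.card_eq_three.2 ⟨a, u, w, hau, haw, huw, rfl⟩] at this
  have a1 := k1 z h
  have a2 := k1 z' h'
  by_cases b1 : G.Adj z u <;> by_cases b2 : G.Adj z w <;> by_cases b3 : G.Adj z' u <;>
    by_cases b4 : G.Adj z' w <;> simp only [b1, b2, b3, b4, and_true, and_false, true_and,
      false_and, or_false, or_true, false_or, true_or, and_self, or_self]
  all_goals exfalso
  all_goals first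
    | (have := k3 z h b1 b2; omega)
    | (have := k3 z' h' b3 b4; omega)
    | (have := k2 z u hu hau h b1; have := k2 z' u hu hau h' b3; omega)
    | (have := k2 z u hu hau h b1; have := k2 z' w hw haw h' b4; omega)
    | (have := k2 z w hw haw h b2; have := k2 z' u hu hau h' b3; omega)
    | (have := k2 z w hw haw h b2; have := k2 z' w hw haw h' b4; omega)

/-- common part: the third ends are not adjacent to `g 2`, hence together they miss at most one
vertex of `E` besides `g 2` -/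
theorem pairAux9 (hr : 6 ≤ r) (D : Dis9 C E W Q x y) (hf : Rot19 G r C f) (hg : Rot19 G r E g)
    {a b : V} {Q' : List V} (hQ : Wk19 G a b Q') (hp : Q'.Perm Q) (hl : Q.length + 2 = r)
    (ha2 : G.Adj a (g 2)) (hx1 : G.Adj x (g 1)) (hx3 : G.Adj x (g 3))
    (hy : ∀ s ∈ E, s ≠ g 2 → G.Adj y s) {m n : ℕ} (hbm : G.Adj b (f m)) (hbn : G.Adj b (f n))
    (ym : G.Adj y (f (m + 1))) (ym' : G.Adj y (f (m + r - 1)))
    (yn : G.Adj y (f (n + 1))) (yn' : G.Adj y (f (n + r - 1)))
    (hno : ¬ Three41 G r W)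
    (hd : ¬ dg G E (f m) + dg G E (f n) + 2 ≤ 2 * dg G E y)
    {u w : V} (hu : u ∈ E) (hw : w ∈ E) (hau : g 2 ≠ u) (haw : g 2 ≠ w) (huw : u ≠ w) :
    ((G.Adj (f m) u ∧ G.Adj (f n) w) ∨ (G.Adj (f m) w ∧ G.Adj (f n) u)) ∧
      ((G.Adj (f m) u ∧ G.Adj (f n) u) ∨ (G.Adj (f m) w ∧ G.Adj (f n) w)) := by
  have hg2 : g 2 ∈ E := hg.mem' (by omega) 2
  have h1 : ¬ G.Adj (f m) (g 2) := by
    intro h
    exact hno (cons1_9 hr D hf hg hQ.reverse ((List.reverse_perm Q').trans hp) hl ha2 h.symm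
      hbm.symm hx1 hx3 ym ym')
  have h2 : ¬ G.Adj (f n) (g 2) := by
    intro h
    exact hno (cons1_9 hr D hf hg hQ.reverse ((List.reverse_perm Q').trans hp) hl ha2 h.symm
      hbn.symm hx1 hx3 yn yn')
  have h3 : E.card ≤ dg G E y + 1 := dgone9 hg2 hy
  exact miss9 hg2 hu hw hau haw huw h1 h2 (by omega)

/-- **the pair lemma, `C` of type 1 and `E` of type 2** -/
theorem pairOneTwo9 (hr : 6 ≤ r) (D : Dis9 C E W Q x y) (hf : Rot19 G r C f) (hg : Rot19 G r E g)
    {p q : V} (hQ : Pth G p q Q) (hl : Q.length + 2 = r)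
    (hxf : G.Adj x (f 2)) (hyf : ∀ s ∈ C, G.Adj y s)
    (hpf : ∀ s ∈ C, s ≠ f 2 → G.Adj p s) (hqf : ∀ s ∈ C, s ≠ f 2 → G.Adj q s)
    (hx1 : G.Adj x (g 1)) (hx3 : G.Adj x (g 3)) (hy : ∀ s ∈ E, s ≠ g 2 → G.Adj y s)
    (hpg : ∀ s ∈ E, s ≠ g 2 → G.Adj p s) (hqg : ∀ s ∈ E, s ≠ g 2 → G.Adj q s)
    (h2 : G.Adj p (g 2) ∨ G.Adj q (g 2)) (hno : ¬ Three41 G r W) :
    dg G E (f 1) + dg G E (f 3) + 2 ≤ 2 * dg G E y := by
  by_contra hd
  have hC : ∀ i, f i ∈ C := hf.mem' (by omega)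
  have hE : ∀ i, g i ∈ E := hg.mem' (by omega)
  have f1 : f 1 ≠ f 2 := hf.inj 1 2 (by omega) (by omega)
  have f3 : f 3 ≠ f 2 := (hf.inj 2 3 (by omega) (by omega)).symm
  have g1 : g 1 ≠ g 2 := hg.inj 1 2 (by omega) (by omega)
  have gne : ∀ j, 2 < j → j < 2 + r → g j ≠ g 2 := fun j h1 h2 => (hg.inj 2 j h1 h2).symm
  obtain ⟨a, b, Q', w1, w2, a1, a2, a3, a4, b1, b2, b3⟩ : ∃ a b Q', Wk19 G a b Q' ∧ Q'.Perm Q ∧
      (∀ s ∈ E, s ≠ g 2 → G.Adj a s) ∧ G.Adj a (f 1) ∧ G.Adj a (f 3) ∧ G.Adj a (g 2) ∧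
      (∀ s ∈ E, s ≠ g 2 → G.Adj b s) ∧ G.Adj b (f 1) ∧ G.Adj b (f 3) := by
    rcases h2 with h2 | h2
    · exact ⟨p, q, Q, Wk19.of hQ, List.Perm.refl _, hpg, hpf _ (hC 1) f1, hpf _ (hC 3) f3, h2, hqg,
        hqf _ (hC 1) f1, hqf _ (hC 3) f3⟩
    · exact ⟨q, p, Q.reverse, (Wk19.of hQ).reverse, List.reverse_perm _, hqg, hqf _ (hC 1) f1,
        hqf _ (hC 3) f3, h2, hpg, hpf _ (hC 1) f1, hpf _ (hC 3) f3⟩
  have key := (pairAux9 hr D hf hg w1 w2 hl a4 hx1 hx3 hy b2 b3 (hyf _ (hC _)) (hyf _ (hC _))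
    (hyf _ (hC _)) (hyf _ (hC _)) hno hd (u := g r) (w := g 4) (hE _) (hE _)
    (gne r (by omega) (by omega)).symm (gne 4 (by omega) (by omega)).symm
    (hg.inj 4 r (by omega) (by omega)).symm).2
  rcases key with ⟨k1, k2⟩ | ⟨k1, k2⟩
  · exact hno (cons3_9 hr D hf hg w1 w2 hl (b1 _ (hE 1) g1) a4.symm hx3
      (hy _ (hE _) (gne (r - 1) (by omega) (by omega))) (hyf _ (hC 2)) hxf k1 k2)
  · exact hno (cons4_9 hr D hf hg w1 w2 hl (b1 _ (hE 3) (gne 3 (by omega) (by omega))) a4.symm hx1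
      (hy _ (hE _) (gne 5 (by omega) (by omega))) (hyf _ (hC 2)) hxf k1 k2)

/-- **the pair lemma, `C` and `E` of type 2** -/
theorem pairTwoTwo9 (hr : 6 ≤ r) (D : Dis9 C E W Q x y) (hf : Rot19 G r C f) (hg : Rot19 G r E g)
    {p q : V} (hQ : Pth G p q Q) (hl : Q.length + 2 = r)
    (hxf : G.Adj x (f 3)) (hyf : ∀ s ∈ C, s ≠ f 2 → G.Adj y s)
    (hpf : ∀ s ∈ C, s ≠ f 2 → G.Adj p s) (hqf : ∀ s ∈ C, s ≠ f 2 → G.Adj q s)
    (hx1 : G.Adj x (g 1)) (hx3 : G.Adj x (g 3)) (hy : ∀ s ∈ E, s ≠ g 2 → G.Adj y s)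
    (hpg : ∀ s ∈ E, s ≠ g 2 → G.Adj p s) (hqg : ∀ s ∈ E, s ≠ g 2 → G.Adj q s)
    (h2 : G.Adj p (g 2) ∨ G.Adj q (g 2)) (hno : ¬ Three41 G r W) :
    dg G E (f 0) + dg G E (f 4) + 2 ≤ 2 * dg G E y := by
  by_contra hd
  have hC : ∀ i, f i ∈ C := hf.mem' (by omega)
  have hE : ∀ i, g i ∈ E := hg.mem' (by omega)
  have fne : ∀ j, 2 < j → j < 2 + r → f j ≠ f 2 := fun j h1 h2 => (hf.inj 2 j h1 h2).symm
  have f0 : f 0 ≠ f 2 := hf.inj 0 2 (by omega) (by omega)
  have f1 : f 1 ≠ f 2 := hf.inj 1 2 (by omega) (by omega)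
  have f4 : f 4 ≠ f 2 := fne 4 (by omega) (by omega)
  have g1 : g 1 ≠ g 2 := hg.inj 1 2 (by omega) (by omega)
  have gne : ∀ j, 2 < j → j < 2 + r → g j ≠ g 2 := fun j h1 h2 => (hg.inj 2 j h1 h2).symm
  obtain ⟨a, b, Q', w1, w2, a1, a2, a3, a4, b1, b2, b3⟩ : ∃ a b Q', Wk19 G a b Q' ∧ Q'.Perm Q ∧
      (∀ s ∈ E, s ≠ g 2 → G.Adj a s) ∧ G.Adj a (f 0) ∧ G.Adj a (f 4) ∧ G.Adj a (g 2) ∧
      (∀ s ∈ E, s ≠ g 2 → G.Adj b s) ∧ G.Adj b (f 0) ∧ G.Adj b (f 4) := by
    rcases h2 with h2 | h2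
    · exact ⟨p, q, Q, Wk19.of hQ, List.Perm.refl _, hpg, hpf _ (hC 0) f0, hpf _ (hC 4) f4, h2, hqg,
        hqf _ (hC 0) f0, hqf _ (hC 4) f4⟩
    · exact ⟨q, p, Q.reverse, (Wk19.of hQ).reverse, List.reverse_perm _, hqg, hqf _ (hC 0) f0,
        hqf _ (hC 4) f4, h2, hpg, hpf _ (hC 0) f0, hpf _ (hC 4) f4⟩
  have y1 : G.Adj y (f (0 + r - 1)) := hyf _ (hC _) (fne _ (by omega) (by omega))
  have y2 : G.Adj y (f (4 + r - 1)) := by
    rw [show 4 + r - 1 = 3 + r by omega, hf.per]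
    exact hyf _ (hC _) (fne _ (by omega) (by omega))
  have key := (pairAux9 hr D hf hg w1 w2 hl a4 hx1 hx3 hy b2 b3 (hyf _ (hC _) f1) y1
    (hyf _ (hC _) (fne 5 (by omega) (by omega))) y2 hno hd (u := g (r - 2)) (w := g r) (hE _)
    (hE _) (gne (r - 2) (by omega) (by omega)).symm (gne r (by omega) (by omega)).symm
    (hg.inj (r - 2) r (by omega) (by omega))).1
  have fr : f r = f 0 := by have := hf.per 0; rwa [Nat.zero_add] at this
  refine hno (cons2_9 hr D hf hg w1 w2 hl (b1 _ (hE 1) g1) a4.symm hx3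
    (hy _ (hE _) (gne (r - 3) (by omega) (by omega))) (hyf _ (hC 1) f1) hxf ?_)
  rw [fr]
  exact key

end

end Pool.Agent.P0
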