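import Pool.Agent.P0.PL19
import Pool.Agent.P0.B35

set_option linter.all false

/-!
# P0, I7 (B): the exceptional types and the pair lemma
-/

namespace Pool.Agent.P0

open Pool.Agent.Helper14.LongCyc Pool.Agent.LCK Pool.Agent.FRC

universe u

variable {V : Type u} {G : SimpleGraph V}

/-- type 1 -/
structure BadOne19 (G : SimpleGraph V) (r : ℕ) (p q x y : V) (C : Finset V) (f : ℕ → V) :
    Prop where
  rot : Rot19 G r C f
  ax : ∀ z ∈ C, (G.Adj x z ↔ z = f 2)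
  ay : ∀ z ∈ C, G.Adj y z
  ap : ∀ z ∈ C, G.Adj p z
  aq : ∀ z ∈ C, (G.Adj q z ↔ z ≠ f 2)

/-- type 2 minus one bit -/
structure BadTwo19 (G : SimpleGraph V) (r : ℕ) (p q x y : V) (C : Finset V) (f : ℕ → V) :
    Prop where
  rot : Rot19 G r C f
  ax : ∀ z ∈ C, (G.Adj x z ↔ z = f 1 ∨ z = f 3)
  ay : ∀ z ∈ C, (G.Adj y z ↔ z ≠ f 2)
  ap : ∀ z ∈ C, z ≠ f 2 → G.Adj p z
  aq : ∀ z ∈ C, z ≠ f 2 → G.Adj q z
  one : (G.Adj p (f 2) ∧ ¬ G.Adj q (f 2)) ∨ (¬ G.Adj p (f 2) ∧ G.Adj q (f 2))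

/-- exceptional with small end `x` and third ends `z1`, `z2` -/
def Bad19 (G : SimpleGraph V) (r : ℕ) (p q x y : V) (C : Finset V) (z1 z2 : V) : Prop :=
  ∃ f, (BadOne19 G r p q x y C f ∧ z1 = f 1 ∧ z2 = f 3) ∨
    (BadTwo19 G r p q x y C f ∧ z1 = f 0 ∧ z2 = f 4)

section

variable {r : ℕ} {p q x y : V} {C E : Finset V} {f g : ℕ → V}

theorem Rot19.ne2 (h : Rot19 G r C f) {i : ℕ} (h1 : 2 < i) (h2 : i < 2 + r) : f i ≠ f 2 :=
  (h.inj 2 i h1 h2).symm

theorem Rot19.ne2' (h : Rot19 G r C f) (hr : 3 ≤ r) {i : ℕ} (h1 : i < 2) : f i ≠ f 2 := by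
  have h2 := h.inj 2 (i + r) (by omega) (by omega)
  rw [h.per] at h2
  exact h2.symm

/-- the reflected labels -/
def ref19 (r : ℕ) (f : ℕ → V) : ℕ → V := fun j => f (4 + (r - 1) * j)

theorem Rot19.ref_val (h : Rot19 G r C f) (hr : 0 < r) {j : ℕ} (hj : j ≤ 4) :
    ref19 r f j = f (4 - j) := by
  have e : 4 + (r - 1) * j = (4 - j) + r * j := by
    obtain ⟨s, rfl⟩ : ∃ s, r = s + 1 := ⟨r - 1, by omega⟩
    rw [Nat.add_sub_cancel]
    have e1 : (s + 1) * j = s * j + j := by ring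
    rw [e1]
    omega
  unfold ref19
  rw [e, h.perq]

theorem BadOne19.ref (h : BadOne19 G r p q x y C f) (hr : 0 < r) :
    BadOne19 G r p q x y C (ref19 r f) := by
  have e : ref19 r f 2 = f 2 := h.rot.ref_val hr (by norm_num)
  refine ⟨h.rot.ref hr 4, ?_, h.ay, h.ap, ?_⟩
  · rw [e]; exact h.ax
  · rw [e]; exact h.aq

theorem BadTwo19.ref (h : BadTwo19 G r p q x y C f) (hr : 0 < r) :
    BadTwo19 G r p q x y C (ref19 r f) := by
  have e : ref19 r f 2 = f 2 := h.rot.ref_val hr (by norm_num)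
  have e1 : ref19 r f 1 = f 3 := h.rot.ref_val hr (by norm_num)
  have e3 : ref19 r f 3 = f 1 := h.rot.ref_val hr (by norm_num)
  refine ⟨h.rot.ref hr 4, ?_, ?_, ?_, ?_, ?_⟩
  · intro z hz
    rw [e1, e3, h.ax z hz]
    tauto
  · rw [e]; exact h.ay
  · rw [e]; exact h.ap
  · rw [e]; exact h.aq
  · rw [e]; exact h.one

/-- two neighbourhoods without two disjoint pairs -/
theorem miss19 (S : Finset V) {a b u v u' v' : V} (hu : u ∈ S) (hv : v ∈ S) (hu' : u' ∈ S)
    (hv' : v' ∈ S) (huu : u ≠ u') (hvv : v ≠ v') (h1 : ¬ (G.Adj a u ∧ G.Adj b v))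
    (h2 : ¬ (G.Adj a u' ∧ G.Adj b v')) : dg G S a + dg G S b + 2 ≤ 2 * S.card := by
  classical
  have key : ∀ {w : V} (T : Finset V), T ⊆ S → (∀ t ∈ T, ¬ G.Adj w t) →
      dg G S w + T.card ≤ S.card := by
    intro w T hT hn
    have h3 : (S.filter fun t => G.Adj w t) ⊆ S \ T := by
      intro t ht
      rw [Finset.mem_filter] at ht
      exact Finset.mem_sdiff.2 ⟨ht.1, fun h4 => hn t h4 ht.2⟩
    have h4 := Finset.card_le_card h3
    rw [Finset.card_sdiff_of_subset hT] at h4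
    have h5 := Finset.card_le_card hT
    have h6 : dg G S w = (S.filter fun t => G.Adj w t).card := by
      unfold dg
      congr 1
    omega
  have k1 : ∀ {w t : V}, t ∈ S → ¬ G.Adj w t → dg G S w + 1 ≤ S.card := by
    intro w t ht hn
    have := key (w := w) {t} (Finset.singleton_subset_iff.2 ht) (fun s hs => by
      rw [Finset.mem_singleton.1 hs]; exact hn)
    simpa using this
  have k2 : ∀ {w t s : V}, t ∈ S → s ∈ S → t ≠ s → ¬ G.Adj w t → ¬ G.Adj w s →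
      dg G S w + 2 ≤ S.card := by
    intro w t s ht hs hts hn hn'
    have := key (w := w) {t, s} (by
      intro i hi
      rcases Finset.mem_insert.1 hi with h | h
      · rw [h]; exact ht
      · rw [Finset.mem_singleton.1 h]; exact hs) (fun i hi => by
      rcases Finset.mem_insert.1 hi with h | h
      · rw [h]; exact hn
      · rw [Finset.mem_singleton.1 h]; exact hn')
    rwa [Finset.card_pair hts] at this
  have k0 : ∀ w, dg G S w ≤ S.card := by
    intro w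
    have := key (w := w) ∅ (Finset.empty_subset _) (fun t ht => absurd ht (Finset.notMem_empty _))
    simpa using this
  have ka := k0 a
  have kb := k0 b
  rcases not_and_or.1 h1 with h3 | h3 <;> rcases not_and_or.1 h2 with h4 | h4
  · have := k2 hu hu' huu h3 h4
    omega
  · have := k1 hu h3
    have := k1 hv' h4
    omega
  · have := k1 hv h3
    have := k1 hu' h4
    omega
  · have := k2 hv hv' hvv h3 h4
    omega

theorem dg_all19 {S : Finset V} {w : V} (h : ∀ z ∈ S, G.Adj w z) : dg G S w = S.card := by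
  classical
  unfold dg
  congr 1
  exact Finset.filter_true_of_mem h

theorem adj_of_dg19 {S : Finset V} {w : V} (h : S.card ≤ dg G S w) : ∀ z ∈ S, G.Adj w z := by
  classical
  unfold dg at h
  have h1 := Finset.eq_of_subset_of_card_le (Finset.filter_subset _ _) h
  intro z hz
  rw [← h1] at hz
  exact (Finset.mem_filter.1 hz).2

theorem dg_erase19 [DecidableEq V] {S : Finset V} {w t : V} (h : ¬ G.Adj w t) :
    dg G S w = dg G (S.erase t) w := by
  classical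
  unfold dg
  congr 1
  ext z
  rw [Finset.mem_filter, Finset.mem_filter, Finset.mem_erase]
  constructor
  · rintro ⟨h1, h2⟩
    exact ⟨⟨fun he => h (he ▸ h2), h1⟩, h2⟩
  · rintro ⟨⟨_, h1⟩, h2⟩
    exact ⟨h1, h2⟩

variable [DecidableEq V] {W : Finset V} {Q : List V}

/-- the pair lemma, `E` of type 2- -/
theorem pair_two19 (h : Env19 G r W C E f g Q p q x y) (hr : 6 ≤ r)
    (hE : BadTwo19 G r p q x y E g)
    (hC : BadOne19 G r p q x y C f ∨ BadTwo19 G r p q x y C f) (hno : ¬ Three41 G r W)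
    {z1 z2 : V} (hz : (BadOne19 G r p q x y C f ∧ z1 = f 1 ∧ z2 = f 3) ∨
      (BadTwo19 G r p q x y C f ∧ z1 = f 0 ∧ z2 = f 4)) :
    dg G E z1 + dg G E z2 + 2 ≤ 2 * dg G E y := by
  have hr0 : 0 < r := by omega
  have mf := h.rf.mem' hr0
  have mg := h.rg.mem' hr0
  have g2 : ∀ i, 2 < i → i < 2 + r → g i ≠ g 2 := fun i h1 h2 => h.rg.ne2 h1 h2
  have f2 : ∀ i, 2 < i → i < 2 + r → f i ≠ f 2 := fun i h1 h2 => h.rf.ne2 h1 h2
  have xg1 : G.Adj x (g 1) := (hE.ax _ (mg 1)).2 (Or.inl rfl)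
  have xg3 : G.Adj x (g 3) := (hE.ax _ (mg 3)).2 (Or.inr rfl)
  have yg : ∀ i, 2 < i → i < 2 + r → G.Adj y (g i) := fun i h1 h2 =>
    (hE.ay _ (mg i)).2 (g2 i h1 h2)
  have pg : ∀ i, 2 < i → i < 2 + r → G.Adj p (g i) := fun i h1 h2 => hE.ap _ (mg i) (g2 i h1 h2)
  have qg : ∀ i, 2 < i → i < 2 + r → G.Adj q (g i) := fun i h1 h2 => hE.aq _ (mg i) (g2 i h1 h2)
  have g1 : g 1 ≠ g 2 := h.rg.ne2' (by omega) (by norm_num)
  have pg1 : G.Adj p (g 1) := hE.ap _ (mg 1) g1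
  have qg1 : G.Adj q (g 1) := hE.aq _ (mg 1) g1
  -- the degree of `y`
  have dy : dg G E y = (E.erase (g 2)).card := by
    rw [dg_erase19 (t := g 2) (fun hh => ((hE.ay _ (mg 2)).1 hh) rfl)]
    refine dg_all19 fun z hz => ?_
    rw [Finset.mem_erase] at hz
    exact (hE.ay z hz.2).2 hz.1
  -- construction (i)
  have key : ∀ n, G.Adj p (f n) → G.Adj q (f n) → G.Adj y (f (n + 1)) →
      G.Adj y (f (n + (r - 1))) → ¬ G.Adj (f n) (g 2) := by
    intro n hp hq h1 h2 h3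
    refine hno (h.con1 hr n xg1 xg3 h1 h2 h3 ?_)
    rcases hE.one with ⟨h4, _⟩ | ⟨_, h4⟩
    · exact Or.inr ⟨hq, h4⟩
    · exact Or.inl ⟨h4, hp⟩
  have hne : ∀ i, 2 < i → i < 2 + r → g i ∈ E.erase (g 2) := fun i h1 h2 =>
    Finset.mem_erase.2 ⟨g2 i h1 h2, mg i⟩
  rw [dy]
  rcases hz with ⟨hC1, rfl, rfl⟩ | ⟨hC2, rfl, rfl⟩
  · have n1 : ¬ G.Adj (f 1) (g 2) := key 1 (hC1.ap _ (mf _))
      ((hC1.aq _ (mf _)).2 (h.rf.ne2' (by omega) (by norm_num))) (hC1.ay _ (mf _))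
      (hC1.ay _ (mf _))
    have n3 : ¬ G.Adj (f 3) (g 2) := key 3 (hC1.ap _ (mf _))
      ((hC1.aq _ (mf _)).2 (f2 3 (by omega) (by omega))) (hC1.ay _ (mf _)) (hC1.ay _ (mf _))
    have xf2 : G.Adj x (f 2) := (hC1.ax _ (mf 2)).2 rfl
    rw [dg_erase19 n1, dg_erase19 n3]
    refine miss19 (E.erase (g 2)) (u := g r) (v := g r) (u' := g 4) (v' := g 4)
      (hne r (by omega) (by omega)) (hne r (by omega) (by omega)) (hne 4 (by omega) (by omega))
      (hne 4 (by omega) (by omega)) (h.rg.inj 4 r (by omega) (by omega)).symm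
      (h.rg.inj 4 r (by omega) (by omega)).symm ?_ ?_
    · rintro ⟨h1, h2⟩
      refine hno (h.con3 hr ?_ xg3 (yg (r - 1) (by omega) (by omega)) (hC1.ay _ (mf _)) xf2 h1 h2)
      rcases hE.one with ⟨h4, _⟩ | ⟨_, h4⟩
      · exact Or.inl ⟨qg1, h4⟩
      · exact Or.inr ⟨h4, pg1⟩
    · rintro ⟨h1, h2⟩
      refine hno (h.con4 hr ?_ xg1 (yg 5 (by omega) (by omega)) (hC1.ay _ (mf _)) xf2 h1 h2)
      rcases hE.one with ⟨h4, _⟩ | ⟨_, h4⟩
      · exact Or.inr ⟨qg 3 (by omega) (by omega), h4⟩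
      · exact Or.inl ⟨h4, pg 3 (by omega) (by omega)⟩
  · have f0 : f 0 ≠ f 2 := h.rf.ne2' (by omega) (by norm_num)
    have f1 : f 1 ≠ f 2 := h.rf.ne2' (by omega) (by norm_num)
    have n0 : ¬ G.Adj (f 0) (g 2) := key 0 (hC2.ap _ (mf _) f0) (hC2.aq _ (mf _) f0)
      ((hC2.ay _ (mf _)).2 f1) ((hC2.ay _ (mf _)).2 (f2 _ (by omega) (by omega)))
    have f4 := f2 4 (by omega) (by omega)
    have n4 : ¬ G.Adj (f 4) (g 2) := key 4 (hC2.ap _ (mf _) f4) (hC2.aq _ (mf _) f4)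
      ((hC2.ay _ (mf _)).2 (f2 _ (by omega) (by omega))) ((hC2.ay _ (mf _)).2 (by
        rw [show 4 + (r - 1) = 3 + r by omega, h.rf.per]
        exact f2 _ (by omega) (by omega)))
    have xf3 : G.Adj x (f 3) := (hC2.ax _ (mf 3)).2 (Or.inr rfl)
    have yf1 : G.Adj y (f 1) := (hC2.ay _ (mf 1)).2 f1
    have e0 : f r = f 0 := by
      have := h.rf.per 0
      rwa [Nat.zero_add] at this
    rw [dg_erase19 n0, dg_erase19 n4]
    have hpq : (G.Adj q (g 1) ∧ G.Adj p (g 2)) ∨ (G.Adj q (g 2) ∧ G.Adj p (g 1)) := by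
      rcases hE.one with ⟨h4, _⟩ | ⟨_, h4⟩
      · exact Or.inl ⟨qg1, h4⟩
      · exact Or.inr ⟨h4, pg1⟩
    refine miss19 (E.erase (g 2)) (u := g (r - 2)) (v := g r) (u' := g r) (v' := g (r - 2))
      (hne _ (by omega) (by omega)) (hne _ (by omega) (by omega)) (hne _ (by omega) (by omega))
      (hne _ (by omega) (by omega)) (h.rg.inj (r - 2) r (by omega) (by omega))
      (h.rg.inj (r - 2) r (by omega) (by omega)).symm ?_ ?_
    · rintro ⟨h1, h2⟩
      exact hno (h.con2 hr hpq xg3 (yg _ (by omega) (by omega)) yf1 xf3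
        (Or.inl ⟨by rw [e0]; exact h1, h2⟩))
    · rintro ⟨h1, h2⟩
      exact hno (h.con2 hr hpq xg3 (yg _ (by omega) (by omega)) yf1 xf3
        (Or.inr ⟨by rw [e0]; exact h1, h2⟩))

/-- the pair lemma, `E` of type 1: a third end (`f 4`, resp. `f 3`) is not adjacent to all of `E` -/
theorem pair_full19 (h : Env19 G r W C E f g Q p q x y) (hr : 6 ≤ r)
    (hE : BadOne19 G r p q x y E g) (hno : ¬ Three41 G r W) :
    (BadOne19 G r p q x y C f → dg G E (f 3) + 1 ≤ E.card) ∧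
      (BadTwo19 G r p q x y C f → dg G E (f 4) + 1 ≤ E.card) := by
  have hr0 : 0 < r := by omega
  have mf := h.rf.mem' hr0
  have mg := h.rg.mem' hr0
  have f2 : ∀ i, 2 < i → i < 2 + r → f i ≠ f 2 := fun i h1 h2 => h.rf.ne2 h1 h2
  have xg2 : G.Adj x (g 2) := (hE.ax _ (mg 2)).2 rfl
  have yg2 : G.Adj y (g 2) := hE.ay _ (mg 2)
  constructor
  · intro hC
    by_contra hcon
    have hz := adj_of_dg19 (G := G) (S := E) (w := f 3) (by omega)
    exact hno (h.con6 hr (hz _ (mg 1)) (hz _ (mg 3))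
      ((hC.aq _ (mf _)).2 (f2 _ (by omega) (by omega))) (hC.ap _ (mf _))
      ((hC.ax _ (mf 2)).2 rfl) xg2 yg2 (hC.ay _ (mf _)))
  · intro hC
    by_contra hcon
    have hz := adj_of_dg19 (G := G) (S := E) (w := f 4) (by omega)
    exact hno (h.con5 hr (hz _ (mg 1)) (hz _ (mg 3))
      (hC.aq _ (mf _) (f2 _ (by omega) (by omega))) (hC.ap _ (mf _) (f2 _ (by omega) (by omega)))
      ((hC.ax _ (mf 3)).2 (Or.inr rfl)) xg2 yg2
      ((hC.ay _ (mf _)).2 (f2 _ (by omega) (by omega))))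

/-- the same setting with the cycle `C` reflected -/
theorem Env19.ref (h : Env19 G r W C E f g Q p q x y) (hr : 0 < r) :
    Env19 G r W C E (ref19 r f) g Q p q x y := { h with rf := h.rf.ref hr 4 }

/-- the pair lemma, `E` of type 1 -/
theorem pair_one19 (h : Env19 G r W C E f g Q p q x y) (hr : 6 ≤ r)
    (hE : BadOne19 G r p q x y E g) (hno : ¬ Three41 G r W)
    {z1 z2 : V} (hz : (BadOne19 G r p q x y C f ∧ z1 = f 1 ∧ z2 = f 3) ∨
      (BadTwo19 G r p q x y C f ∧ z1 = f 0 ∧ z2 = f 4)) :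
    dg G E z1 + dg G E z2 + 2 ≤ 2 * dg G E y := by
  have hr0 : 0 < r := by omega
  have h1 := pair_full19 h hr hE hno
  have h2 := pair_full19 (h.ref hr0) hr hE hno
  rw [dg_all19 (w := y) hE.ay]
  rcases hz with ⟨hC, rfl, rfl⟩ | ⟨hC, rfl, rfl⟩
  · have h3 := h1.1 hC
    have h4 := h2.1 (hC.ref hr0)
    rw [h.rf.ref_val hr0 (by norm_num)] at h4
    change dg G E (f 1) + 1 ≤ E.card at h4
    omega
  · have h3 := h1.2 hC
    have h4 := h2.2 (hC.ref hr0)
    rw [h.rf.ref_val hr0 (by norm_num)] at h4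
    change dg G E (f 0) + 1 ≤ E.card at h4
    omega

/-- **the pair lemma** -/
theorem plb19 {U : Finset V} (hr : 6 ≤ r) : PLB35 G U r (Bad19 G r) := by
  intro Q p q F x y h C hC E hE hCE z1 z2 e1 e2 ⟨f, hf⟩ ⟨g, hg⟩
  have hno := h.opt.no_three hC hE hCE
  have rf : Rot19 G r C f := by
    rcases hf with ⟨h1, _⟩ | ⟨h1, _⟩ <;> exact h1.rot
  have rg : Rot19 G r E g := by
    rcases hg with ⟨h1, _⟩ | ⟨h1, _⟩ <;> exact h1.rot
  have env : Env19 G r (C ∪ E ∪ Pool.Agent.LCK.rest U F) C E f g Q p q x y :=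
    { rf := rf
      rg := rg
      path := h.path
      len := h.len
      ne := h.ne
      xQ := h.xQ
      yQ := h.yQ
      xC := h.x_notC hC
      yC := h.y_notC hC
      xE := h.x_notC hE
      yE := h.y_notC hE
      QC := fun z hz hz' => h.notQ hC hz' hz
      QE := fun z hz hz' => h.notQ hE hz' hz
      CE := fun z hz hz' => Finset.disjoint_left.1 (h.opt.fam.disj C hC E hE hCE) hz hz'
      CW := fun z hz => Finset.mem_union_left _ (Finset.mem_union_left _ hz)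
      EW := fun z hz => Finset.mem_union_left _ (Finset.mem_union_right _ hz)
      QW := fun z hz => Finset.mem_union_right _ (h.Q_mem hz)
      xW := Finset.mem_union_right _ h.x_mem
      yW := Finset.mem_union_right _ h.y_mem }
  rcases hg with ⟨hE1, _⟩ | ⟨hE2, _⟩
  · exact pair_one19 env hr hE1 hno hf
  · exact pair_two19 env hr hE2 (hf.imp (fun h => h.1) (fun h => h.1)) hno hf

end

end Pool.Agent.P0
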