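import Pool.Agent.P0.Four5
import Pool.Agent.P0.AdmL49

set_option linter.all false

/-!
# P0, I7 (B): the pair lemma when the second member is of type 1
-/

namespace Pool.Agent.P0

open Pool.Agent.Helper14.LongCyc Pool.Agent.LCK

universe u

variable {V : Type u} {G : SimpleGraph V}

section

variable {c : List V} {x y x₂ y₂ : V} {mid : List V} {hp : 0 < c.length}

/-- the arc `c 4, …, c r` joins the ends; among `c 1, c 2, c 3` one outer vertex is free and the two
others close the middle part -/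
theorem Dat5.win99 [DecidableEq V] (D : Dat5 G c x y x₂ y₂ mid) (hr : 4 ≤ c.length) (m : ℕ)
    (hends : (G.Adj x (cf c hp m) ∧ G.Adj y (cf c hp (m + 4))) ∨
      (G.Adj y (cf c hp m) ∧ G.Adj x (cf c hp (m + 4)))) {s a b : ℕ}
    (h : (s = 1 ∧ a = 2 ∧ b = 3) ∨ (s = 3 ∧ a = 1 ∧ b = 2))
    (hadj : (G.Adj x₂ (cf c hp (m + a)) ∧ G.Adj y₂ (cf c hp (m + b))) ∨
      (G.Adj x₂ (cf c hp (m + b)) ∧ G.Adj y₂ (cf c hp (m + a)))) :
    Good5 G c.length D.W (cf c hp (m + s)) x y := by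
  obtain ⟨l, l1, l2, l3⟩ := arc5 D.cyc hp m 4 (c.length - 4) (by omega)
  rw [show 4 + (c.length - 4) = 0 + c.length by omega, wrap5, Nat.add_zero] at l1
  have hm := fun j => cf_mem hp (m + j)
  have hx : ∀ j, cf c hp (m + j) ≠ x := fun j h => D.pc (h ▸ hm j)
  have hy : ∀ j, cf c hp (m + j) ≠ y := fun j h => D.qc (h ▸ hm j)
  have hxl : x ∉ l := by
    intro h
    obtain ⟨j, _, _, j3⟩ := l3 x h
    exact hx j j3.symm
  have hyl : y ∉ l := by
    intro h
    obtain ⟨j, _, _, j3⟩ := l3 y h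
    exact hy j j3.symm
  have hP : ∃ l' : List V, Pth G x y l' ∧ c.length ≤ l'.length + 1 ∧
      ∀ z ∈ l', z = x ∨ z = y ∨ z ∈ l := by
    rcases hends with ⟨e1, e2⟩ | ⟨e1, e2⟩
    · have hR := l1.reverse
      refine ⟨(x :: l.reverse) ++ [y], (hR.cons e1 (by simpa using hxl)).concat e2.symm ?_, ?_, ?_⟩
      · intro h
        rw [List.mem_cons, List.mem_reverse] at h
        rcases h with h | h
        · exact D.pq h.symm
        · exact hyl h
      · simp only [List.length_append, List.length_cons, List.length_singleton,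
          List.length_reverse]
        omega
      · intro z hz
        rw [List.mem_append, List.mem_cons, List.mem_singleton, List.mem_reverse] at hz
        tauto
    · refine ⟨(x :: l) ++ [y], (l1.cons e2 hxl).concat e1.symm ?_, ?_, ?_⟩
      · intro h
        rw [List.mem_cons] at h
        rcases h with h | h
        · exact D.pq h.symm
        · exact hyl h
      · simp only [List.length_append, List.length_cons, List.length_singleton]
        omega
      · intro z hz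
        rw [List.mem_append, List.mem_cons, List.mem_singleton] at hz
        tauto
  obtain ⟨l', k1, k2, k3⟩ := hP
  have hab : G.Adj (cf c hp (m + a)) (cf c hp (m + b)) := by
    rcases h with ⟨-, rfl, rfl⟩ | ⟨-, rfl, rfl⟩
    · exact D.adj34 hp m 2
    · exact D.adj34 hp m 1
  have h1 : ∀ i j, 1 ≤ i → i ≤ 3 → 1 ≤ j → j ≤ 3 → i ≠ j →
      cf c hp (m + i) ≠ cf c hp (m + j) := by
    intro i j i1 i3 j1 j3 hij
    rcases Nat.lt_or_gt_of_ne hij with hlt | hlt
    · exact far49 D.cyc hp m hlt (by omega)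
    · exact (far49 D.cyc hp m hlt (by omega)).symm
  have h2 : ∀ i, 1 ≤ i → i ≤ 3 → ∀ z ∈ l', z ≠ cf c hp (m + i) := by
    intro i i1 i3 z hz
    rcases k3 z hz with h | h | h
    · rw [h]; exact (hx i).symm
    · rw [h]; exact (hy i).symm
    · obtain ⟨j, j1, j2, j3⟩ := l3 z h
      rw [j3]
      exact (far49 D.cyc hp m (s := i) (t := j) (by omega) (by omega)).symm
  have hs : 1 ≤ s ∧ s ≤ 3 ∧ 1 ≤ a ∧ a ≤ 3 ∧ 1 ≤ b ∧ b ≤ 3 ∧ a ≠ s ∧ b ≠ s := by omega
  obtain ⟨s1, s2, s3, s4, s5, s6, s7, s8⟩ := hs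
  refine D.good hab hadj (Or.inr (Or.inr (hm s))) (Or.inr (Or.inr (hm a)))
    (Or.inr (Or.inr (hm b))) (h1 a s s3 s4 s1 s2 s7) (h1 b s s5 s6 s1 s2 s8) k1 k2 ?_
  intro z hz
  refine ⟨?_, h2 s s1 s2 z hz, h2 a s3 s4 z hz, h2 b s5 s6 z hz⟩
  rcases k3 z hz with h | h | h
  · exact Or.inl h
  · exact Or.inr (Or.inl h)
  · obtain ⟨j, j1, j2, j3⟩ := l3 z h
    exact Or.inr (Or.inr (j3 ▸ hm j))

/-- positions modulo the length -/
theorem cf_mod99 (hp : 0 < c.length) (n j : ℕ) :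
    cf c hp (n + j) = cf c hp (n + j % c.length) := by
  apply cf_congr
  rw [Nat.add_mod, Nat.add_mod n (j % c.length), Nat.mod_mod]

theorem TOne49.t99 {n : ℕ} (T : TOne49 G c hp x x₂ y₂ y n) {j i : ℕ} (hi : i < c.length)
    (hj : j = i ∨ j = i + c.length) (h2 : i ≠ 2) : G.Adj y₂ (cf c hp (n + j)) := by
  have e : cf c hp (n + j) = cf c hp (n + i) := by
    rcases hj with rfl | rfl
    · rfl
    · exact wrap5 hp n i
  rw [e]
  exact (T.ht i hi).2 h2

theorem TOne49.goodR99 [DecidableEq V] {n : ℕ} (D : Dat5 G c x y x₂ y₂ mid)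
    (T : TOne49 G c hp x x₂ y₂ y n) (hr : 6 ≤ c.length) :
    Good5 G c.length D.W (cf c hp (n + 3)) x y := by
  have h1 : G.Adj x (cf c hp (n + 2)) := (T.hu 2 (by omega)).2 rfl
  have h5 : G.Adj y₂ (cf c hp (n + 5)) := (T.ht 5 (by omega)).2 (by omega)
  exact D.win99 (by omega) (n + 2) (Or.inl ⟨h1, T.hv _⟩) (s := 1) (a := 2) (b := 3)
    (Or.inl ⟨rfl, rfl, rfl⟩) (Or.inl ⟨T.hs _, h5⟩)

theorem TOne49.goodL99 [DecidableEq V] {n : ℕ} (D : Dat5 G c x y x₂ y₂ mid)
    (T : TOne49 G c hp x x₂ y₂ y n) (hr : 6 ≤ c.length) :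
    Good5 G c.length D.W (cf c hp (n + 1)) x y := by
  have h1 : G.Adj x (cf c hp (n + (c.length - 2) + 4)) := by
    rw [show n + (c.length - 2) + 4 = n + (2 + c.length) by omega, wrap5]
    exact (T.hu 2 (by omega)).2 rfl
  have h5 : G.Adj y₂ (cf c hp (n + (c.length - 2) + 1)) := by
    rw [show n + (c.length - 2) + 1 = n + (c.length - 1) by omega]
    exact (T.ht _ (by omega)).2 (by omega)
  have := D.win99 (by omega) (n + (c.length - 2)) (Or.inr ⟨T.hv _, h1⟩) (s := 3) (a := 1) (b := 2)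
    (Or.inr ⟨rfl, rfl, rfl⟩) (Or.inr ⟨T.hs _, h5⟩)
  rwa [show n + (c.length - 2) + 3 = n + (1 + c.length) by omega, wrap5] at this

theorem TTwo49.all99 {n : ℕ} (T : TTwo49 G c hp x x₂ y₂ y n) {j i : ℕ} (hi : i < c.length)
    (hj : j = i ∨ j = i + c.length) (h2 : i ≠ 2) :
    G.Adj y (cf c hp (n + j)) ∧ G.Adj x₂ (cf c hp (n + j)) ∧ G.Adj y₂ (cf c hp (n + j)) := by
  have e : cf c hp (n + j) = cf c hp (n + i) := by
    rcases hj with rfl | rfl
    · rfl
    · exact wrap5 hp n i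
  rw [e]
  exact ⟨(T.hv i hi).2 h2, T.hs i hi h2, T.ht i hi h2⟩

theorem TTwo49.goodR99 [DecidableEq V] {n : ℕ} (D : Dat5 G c x y x₂ y₂ mid)
    (T : TTwo49 G c hp x x₂ y₂ y n) (hr : 6 ≤ c.length) :
    Good5 G c.length D.W (cf c hp (n + 4)) x y := by
  have h1 : G.Adj x (cf c hp (n + 3)) := (T.hu 3 (by omega)).2 (Or.inr rfl)
  have key : ∀ j, 5 ≤ j → j ≤ 7 →
      G.Adj y (cf c hp (n + j)) ∧ G.Adj x₂ (cf c hp (n + j)) ∧ G.Adj y₂ (cf c hp (n + j)) := by
    intro j j1 j2
    rcases Nat.lt_or_ge j c.length with h | h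
    · exact T.all99 h (Or.inl rfl) (by omega)
    · exact T.all99 (i := j - c.length) (by omega) (Or.inr (by omega)) (by omega)
  exact D.win99 (by omega) (n + 3) (Or.inl ⟨h1, (key 7 (by omega) (by omega)).1⟩)
    (s := 1) (a := 2) (b := 3) (Or.inl ⟨rfl, rfl, rfl⟩)
    (Or.inl ⟨(key 5 (by omega) (by omega)).2.1, (key 6 (by omega) (by omega)).2.2⟩)

theorem TTwo49.goodL99 [DecidableEq V] {n : ℕ} (D : Dat5 G c x y x₂ y₂ mid)
    (T : TTwo49 G c hp x x₂ y₂ y n) (hr : 6 ≤ c.length) :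
    Good5 G c.length D.W (cf c hp n) x y := by
  have h1 : G.Adj x (cf c hp (n + (c.length - 3) + 4)) := by
    rw [show n + (c.length - 3) + 4 = n + (1 + c.length) by omega, wrap5]
    exact (T.hu 1 (by omega)).2 (Or.inl rfl)
  have key : ∀ j, c.length - 3 ≤ j → j < c.length →
      G.Adj y (cf c hp (n + j)) ∧ G.Adj x₂ (cf c hp (n + j)) ∧ G.Adj y₂ (cf c hp (n + j)) :=
    fun j j1 j2 => T.all99 j2 (Or.inl rfl) (by omega)
  have h0 : G.Adj y (cf c hp (n + (c.length - 3))) := (key _ (by omega) (by omega)).1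
  have ha : G.Adj x₂ (cf c hp (n + (c.length - 3) + 1)) := by
    rw [show n + (c.length - 3) + 1 = n + (c.length - 2) by omega]
    exact (key _ (by omega) (by omega)).2.1
  have hb : G.Adj y₂ (cf c hp (n + (c.length - 3) + 2)) := by
    rw [show n + (c.length - 3) + 2 = n + (c.length - 1) by omega]
    exact (key _ (by omega) (by omega)).2.2
  have := D.win99 (by omega) (n + (c.length - 3)) (Or.inr ⟨h0, h1⟩) (s := 3) (a := 1) (b := 2)
    (Or.inr ⟨rfl, rfl, rfl⟩) (Or.inl ⟨ha, hb⟩)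
  rwa [show n + (c.length - 3) + 3 = n + (0 + c.length) by omega, wrap5, Nat.add_zero] at this

end

variable {U : Finset V} {k r : ℕ} {Q : List V} {p q x y : V} {F : Finset (Finset V)}

/-- the data of an admissible pair on a member -/
theorem Adm41.dat99 (h : Adm41 G U r Q p q F x y) {C : Finset V} (hC : C ∈ F) {c : List V}
    (hc : Cyc G c) (hs : ∀ z, z ∈ c ↔ z ∈ C) (hcr : c.length = r) : Dat5 G c x y p q Q where
  cyc := hc
  path := h.path
  px := h.xp
  yq := h.qy
  pq := h.ne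
  pm := h.xQ
  qm := h.yQ
  pc := fun hh => h.x_notC hC ((hs _).1 hh)
  qc := fun hh => h.y_notC hC ((hs _).1 hh)
  mc := fun z hz hh => h.notQ hC ((hs _).1 hh) hz
  len := by have := h.len; omega

/-- a good triple on `C` excludes the single swap on another member -/
theorem Adm41.good_false99 [DecidableEq V] (h : Adm41 G U r Q p q F x y) (hr : 3 ≤ r)
    {C E : Finset V} (hC : C ∈ F) (hE : E ∈ F) (hCE : C ≠ E) {c : List V} (hc : Cyc G c)
    (hcs : ∀ z, z ∈ c ↔ z ∈ C) (hcr : c.length = r) {u v w : V}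
    (hg : Good5 G c.length (h.dat99 hC hc hcs hcr).W u v w)
    (hu : u ∈ (h.dat99 hC hc hcs hcr).W) {e : List V} (he : Cyc G e)
    (hes : ∀ z, z ∈ e ↔ z ∈ E) (her : e.length = r) (hq : 0 < e.length) (n : ℕ)
    (h1 : G.Adj u (cf e hq n)) (h2 : G.Adj u (cf e hq (n + 2)))
    (h3 : G.Adj v (cf e hq (n + 1))) (h4 : G.Adj w (cf e hq (n + 1))) : False := by
  have hD := h.dat99 hC hc hcs hcr
  have hsub : ∀ z ∈ (h.dat99 hC hc hcs hcr).W, z ∈ C ∨ z ∈ Pool.Agent.LCK.rest U F := by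
    intro z hz
    rw [Dat5.mem_W] at hz
    rcases hz with rfl | rfl | hz | hz
    · exact Or.inr h.x_mem
    · exact Or.inr h.y_mem
    · exact Or.inr (h.Q_mem hz)
    · exact Or.inl ((hcs z).1 hz)
  have hd := h.opt.fam.disj C hC E hE hCE
  have hW : ∀ z ∈ e, z ∉ (h.dat99 hC hc hcs hcr).W := by
    intro z hz hz'
    have hzE := (hes z).1 hz
    rcases hsub z hz' with hh | hh
    · exact Finset.disjoint_left.1 hd hh hzE
    · exact (mem_rest.1 hh).2 E hE hzE
  have hT := hg.three (by omega) hu he hq (by omega) hW n h1 h2 h3 h4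
  rw [hcr] at hT
  refine h.opt.no_three hC hE hCE (Three41.mono (W := (h.dat99 hC hc hcs hcr).W ∪ e.toFinset)
    hT ?_)
  intro z hz
  rw [Finset.mem_union, List.mem_toFinset] at hz
  rcases hz with hz | hz
  · rcases hsub z hz with hh | hh
    · exact Finset.mem_union_left _ (Finset.mem_union_left _ hh)
    · exact Finset.mem_union_right _ hh
  · exact Finset.mem_union_left _ (Finset.mem_union_right _ ((hes z).1 hz))

/-- a vertex of `C` that misses a vertex of `E` -/
theorem dg_miss99 [DecidableEq V] {E : Finset V} {r : ℕ} (hEr : E.card = r) {w z : V} (hz : z ∈ E)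
    (h : ¬ G.Adj w z) : dg G E w + 1 ≤ r := by
  classical
  unfold dg
  have h1 : (E.filter fun u => G.Adj w u) ⊆ E.erase z := by
    intro u hu
    rw [Finset.mem_filter] at hu
    exact Finset.mem_erase.2 ⟨fun he => h (he ▸ hu.2), hu.1⟩
  have h2 := Finset.card_le_card h1
  rw [Finset.card_erase_of_mem hz, hEr] at h2
  have h3 := Finset.card_pos.2 ⟨z, hz⟩
  omega

/-- **pair lemma, second member of type 1**: every third end of the first member misses a vertex -/
theorem Adm41.missOne99 [DecidableEq V] (h : Adm41 G U r Q p q F x y) (hr : 3 ≤ r)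
    {C E : Finset V} (hC : C ∈ F) (hE : E ∈ F) (hCE : C ≠ E) {c : List V} (hc : Cyc G c)
    (hcs : ∀ z, z ∈ c ↔ z ∈ C) (hcr : c.length = r) (hp : 0 < c.length) {j : ℕ}
    (hg : Good5 G c.length (h.dat99 hC hc hcs hcr).W (cf c hp j) x y)
    {e : List V} (he : Cyc G e) (hes : ∀ z, z ∈ e ↔ z ∈ E) (her : e.length = r)
    (hq : 0 < e.length) {m : ℕ} (hT : TOne49 G e hq x p q y m) :
    dg G E (cf c hp j) + 1 ≤ r := by
  have hEr : E.card = r := by
    rw [← her]
    have : e.toFinset = E := by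
      ext z; rw [List.mem_toFinset]; exact hes z
    rw [← this, List.toFinset_card_of_nodup (Cyc.nodup he)]
  have hu : cf c hp j ∈ (h.dat99 hC hc hcs hcr).W := by
    rw [Dat5.mem_W]
    exact Or.inr (Or.inr (Or.inr (cf_mem hp j)))
  by_cases h1 : G.Adj (cf c hp j) (cf e hq (m + 1))
  · by_cases h2 : G.Adj (cf c hp j) (cf e hq (m + 1 + 2))
    · exact absurd (h.good_false99 hr hC hE hCE hc hcs hcr hg hu he hes her hq (m + 1) h1 h2
        ((hT.hu 2 (by omega)).2 rfl) (hT.hv _)) id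
    · exact dg_miss99 hEr ((hes _).1 (cf_mem hq _)) h2
  · exact dg_miss99 hEr ((hes _).1 (cf_mem hq _)) h1

theorem dg_full99 [DecidableEq V] {e : List V} (hq : 0 < e.length) (he : Cyc G e) {E : Finset V}
    (hes : ∀ z, z ∈ e ↔ z ∈ E) {r : ℕ} (her : e.length = r) {w : V}
    (h : ∀ j, G.Adj w (cf e hq j)) : dg G E w = r := by
  have hEr : E.card = r := by
    rw [← her]
    have : e.toFinset = E := by
      ext z; rw [List.mem_toFinset]; exact hes z
    rw [← this, List.toFinset_card_of_nodup (Cyc.nodup he)]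
  classical
  unfold dg
  rw [Finset.filter_true_of_mem, hEr]
  intro z hz
  obtain ⟨j, -, rfl⟩ := exists_cf hq ((hes z).2 hz)
  exact h j

/-- **PAIR LEMMA, `C` of type 1, `E` of type 1** -/
theorem Adm41.pair11 [DecidableEq V] (h : Adm41 G U r Q p q F x y) (hr : 6 ≤ r)
    {C E : Finset V} (hC : C ∈ F) (hE : E ∈ F) (hCE : C ≠ E) {c : List V} (hc : Cyc G c)
    (hcs : ∀ z, z ∈ c ↔ z ∈ C) (hcr : c.length = r) (hp : 0 < c.length) {n : ℕ}
    (hCT : TOne49 G c hp x p q y n)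
    {e : List V} (he : Cyc G e) (hes : ∀ z, z ∈ e ↔ z ∈ E) (her : e.length = r)
    (hq : 0 < e.length) {m : ℕ} (hT : TOne49 G e hq x p q y m) :
    dg G E (cf c hp (n + 1)) + dg G E (cf c hp (n + 3)) + 2 ≤ 2 * dg G E y := by
  have D := h.dat99 hC hc hcs hcr
  have h1 := h.missOne99 (by omega) hC hE hCE hc hcs hcr hp (hCT.goodL99 D (by omega)) he hes her
    hq hT
  have h2 := h.missOne99 (by omega) hC hE hCE hc hcs hcr hp (hCT.goodR99 D (by omega)) he hes her
    hq hT
  rw [dg_full99 hq he hes her hT.hv]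
  omega

/-- **PAIR LEMMA, `C` of type 2 minus a bit, `E` of type 1** -/
theorem Adm41.pair21 [DecidableEq V] (h : Adm41 G U r Q p q F x y) (hr : 6 ≤ r)
    {C E : Finset V} (hC : C ∈ F) (hE : E ∈ F) (hCE : C ≠ E) {c : List V} (hc : Cyc G c)
    (hcs : ∀ z, z ∈ c ↔ z ∈ C) (hcr : c.length = r) (hp : 0 < c.length) {n : ℕ}
    (hCT : TTwo49 G c hp x p q y n)
    {e : List V} (he : Cyc G e) (hes : ∀ z, z ∈ e ↔ z ∈ E) (her : e.length = r)
    (hq : 0 < e.length) {m : ℕ} (hT : TOne49 G e hq x p q y m) :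
    dg G E (cf c hp n) + dg G E (cf c hp (n + 4)) + 2 ≤ 2 * dg G E y := by
  have D := h.dat99 hC hc hcs hcr
  have h1 := h.missOne99 (by omega) hC hE hCE hc hcs hcr hp (hCT.goodL99 D (by omega)) he hes her
    hq hT
  have h2 := h.missOne99 (by omega) hC hE hCE hc hcs hcr hp (hCT.goodR99 D (by omega)) he hes her
    hq hT
  rw [dg_full99 hq he hes her hT.hv]
  omega

end Pool.Agent.P0
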