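import Pool.Agent.P0.E149
import Pool.Agent.FRC.LemL

set_option linter.all false

/-!
# P0, row I6: Dirac's theorem and panconnectedness with exact lengths
-/

namespace Pool.Agent.P0

open Pool.Agent.Helper14.LongCyc Pool.Agent.LCK

universe u

variable {V : Type u} {G : SimpleGraph V}

/-- Dirac's theorem -/
theorem dirac13 [DecidableEq V] {K : Finset V} (h3 : 3 ≤ K.card)
    (hd : ∀ v ∈ K, K.card ≤ 2 * dg G K v) :
    ∃ c : List V, Cyc G c ∧ c.length = K.card ∧ ∀ z, z ∈ c ↔ z ∈ K := by
  classical
  by_cases hno : NoLong G K.card K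
  · exfalso
    obtain ⟨D, c, hDn, hDK, hcK, hcD, hDc, hcl⟩ :=
      FRC.lemL h3 (Finset.card_pos.1 (by omega)) hno hd
    obtain ⟨v, hv⟩ := hDn
    have h1 := hd v (hDK hv)
    have h2 : dg G K v ≤ D.card := by
      unfold dg
      have hsub : (K.filter fun u => G.Adj v u) ⊆ insert c (D.erase v) := by
        intro z hz
        rw [Finset.mem_filter] at hz
        rcases hcl v hv z hz.1 hz.2 with h | h
        · refine Finset.mem_insert_of_mem (Finset.mem_erase.2 ⟨?_, h⟩)
          rintro rfl
          exact G.loopless.irrefl _ hz.2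
        · rw [h]; exact Finset.mem_insert_self _ _
      have := Finset.card_le_card hsub
      have h5 := Finset.card_insert_le c (D.erase v)
      have h6 := Finset.card_erase_of_mem hv
      have h7 := Finset.card_pos.2 ⟨v, hv⟩
      omega
    obtain ⟨y, hyK, hy⟩ : ∃ y ∈ K, y ∉ insert c D := by
      by_contra hcon
      push Not at hcon
      have := Finset.card_le_card (fun z hz => hcon z hz : K ⊆ insert c D)
      have h5 := Finset.card_insert_le c D
      omega
    have h4 := hd y hyK
    have h5 : dg G K y + D.card + 1 ≤ K.card := by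
      unfold dg
      have hsub : (K.filter fun u => G.Adj y u) ⊆ (K \ D).erase y := by
        intro z hz
        rw [Finset.mem_filter] at hz
        refine Finset.mem_erase.2 ⟨?_, Finset.mem_sdiff.2 ⟨hz.1, ?_⟩⟩
        · rintro rfl
          exact G.loopless.irrefl _ hz.2
        · intro hzD
          rcases hcl z hzD y hyK hz.2.symm with h | h
          · exact hy (Finset.mem_insert_of_mem h)
          · exact hy (h ▸ Finset.mem_insert_self _ _)
      have h6 := Finset.card_le_card hsub
      have h7 : y ∈ K \ D := Finset.mem_sdiff.2 ⟨hyK, fun h => hy (Finset.mem_insert_of_mem h)⟩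
      have h8 := Finset.card_erase_of_mem h7
      have h9 := Finset.card_sdiff_of_subset hDK
      have h10 := Finset.card_le_card hDK
      have h11 := Finset.card_pos.2 ⟨y, h7⟩
      omega
    omega
  · unfold NoLong at hno
    push Not at hno
    obtain ⟨l, hl, hm, hlen⟩ := hno
    have h1 : l.toFinset ⊆ K := fun x hx => hm x (List.mem_toFinset.1 hx)
    have h2 : l.toFinset.card = l.length := List.toFinset_card_of_nodup (Cyc.nodup hl)
    have h3 := Finset.card_le_card h1
    have h4 : l.toFinset = K := Finset.eq_of_subset_of_card_le h1 (by omega)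
    refine ⟨l, hl, by omega, fun z => ?_⟩
    rw [← h4, List.mem_toFinset]

theorem dg_erase13 [DecidableEq V] (K : Finset V) (v z : V) :
    dg G K v ≤ dg G (K.erase z) v + 1 := by
  classical
  unfold dg
  have hsub : (K.filter fun u => G.Adj v u) ⊆ insert z ((K.erase z).filter fun u => G.Adj v u) := by
    intro y hy
    rw [Finset.mem_filter] at hy
    by_cases h : y = z
    · rw [h]; exact Finset.mem_insert_self _ _
    · exact Finset.mem_insert_of_mem
        (Finset.mem_filter.2 ⟨Finset.mem_erase.2 ⟨h, hy.1⟩, hy.2⟩)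
  exact (Finset.card_le_card hsub).trans (Finset.card_insert_le _ _)

theorem dg_erase_self13 [DecidableEq V] (K : Finset V) (v : V) :
    dg G (K.erase v) v = dg G K v := by
  classical
  unfold dg
  congr 1
  ext y
  rw [Finset.mem_filter, Finset.mem_filter, Finset.mem_erase]
  constructor
  · rintro ⟨⟨_, h⟩, h'⟩
    exact ⟨h, h'⟩
  · rintro ⟨h, h'⟩
    exact ⟨⟨fun hh => G.loopless.irrefl _ (hh ▸ h'), h⟩, h'⟩

/-- `K` with minimum degree at least `(|K| + 3) / 2` is panconnected -/
theorem pan13 [DecidableEq V] {K : Finset V} (h5 : 5 ≤ K.card)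
    (hd : ∀ v ∈ K, K.card + 3 ≤ 2 * dg G K v)
    {u u' : V} (hu : u ∈ K) (hu' : u' ∈ K) (hne : u ≠ u') {t : ℕ} (ht : 3 ≤ t)
    (htq : t ≤ K.card) : ∃ l : List V, Pth G u u' l ∧ l.length = t ∧ ∀ x ∈ l, x ∈ K := by
  classical
  set K' := (K.erase u).erase u' with hK'
  have hc1 : (K.erase u).card = K.card - 1 := Finset.card_erase_of_mem hu
  have hu'1 : u' ∈ K.erase u := Finset.mem_erase.2 ⟨hne.symm, hu'⟩
  have hc2 : K'.card = K.card - 2 := by
    rw [hK', Finset.card_erase_of_mem hu'1, hc1]; omega
  have hdl : ∀ v, dg G K v ≤ dg G K' v + 2 := by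
    intro v
    have h1 := dg_erase13 (G := G) K v u
    have h2 := dg_erase13 (G := G) (K.erase u) v u'
    rw [← hK'] at h2
    omega
  obtain ⟨c, hc, hcl, hcm⟩ := dirac13 (G := G) (K := K') (by omega) (by
    intro v hv
    have hvK : v ∈ K := Finset.mem_of_mem_erase (Finset.mem_of_mem_erase hv)
    have h1 := hd v hvK
    have h2 := hdl v
    omega)
  have hp : 0 < c.length := by omega
  haveI : NeZero c.length := ⟨by omega⟩
  have hn := Cyc.nodup hc
  have hcF : c.toFinset = K' := by
    ext z; rw [List.mem_toFinset]; exact hcm z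
  -- degrees of the two ends
  have hdu : K.card + 1 ≤ 2 * dg G K' u := by
    have h1 := hd u hu
    have h2 := dg_erase_self13 (G := G) K u
    have h3 := dg_erase13 (G := G) (K.erase u) u u'
    rw [← hK'] at h3
    omega
  have hdu' : K.card + 1 ≤ 2 * dg G K' u' := by
    have h1 := hd u' hu'
    have h2 := dg_erase13 (G := G) K u' u
    have h3 := dg_erase_self13 (G := G) (K.erase u) u'
    rw [← hK'] at h3
    omega
  have hex : ∃ i : ZMod c.length, ind49 G c hp u i = 1 ∧
      ind49 G c hp u' (i + ((t - 3 : ℕ) : ZMod c.length)) = 1 := by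
    by_contra hcon
    push Not at hcon
    have hle : ∀ i : ZMod c.length, ind49 G c hp u i +
        ind49 G c hp u' (i + ((t - 3 : ℕ) : ZMod c.length)) ≤ 1 := by
      intro i
      have l1 := ind_le49 (G := G) hp u i
      have l2 := ind_le49 (G := G) hp u' (i + ((t - 3 : ℕ) : ZMod c.length))
      have l3 := hcon i
      by_contra hh
      exact l3 (by omega) (by omega)
    have hs := Finset.sum_le_sum (s := Finset.univ) fun i _ => hle i
    have hshift : ∑ i : ZMod c.length, ind49 G c hp u' (i + ((t - 3 : ℕ) : ZMod c.length)) =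
        ∑ i : ZMod c.length, ind49 G c hp u' i :=
      Equiv.sum_comp (Equiv.addRight ((t - 3 : ℕ) : ZMod c.length)) fun i => ind49 G c hp u' i
    rw [Finset.sum_add_distrib, hshift, sum_ind49 hp hn, sum_ind49 hp hn, hcF, Finset.sum_const,
      Finset.card_univ, ZMod.card, smul_eq_mul] at hs
    omega
  obtain ⟨i, hi1, hi2⟩ := hex
  have hin : i = ((i.val : ℕ) : ZMod c.length) := (ZMod.natCast_zmod_val _).symm
  set n := i.val with hndef
  rw [ind_nat49 hp n hin] at hi1
  rw [ind_nat49 hp (n + (t - 3)) (by rw [Nat.cast_add, ← hin])] at hi2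
  have hA := arc_pth hc hp (t - 3) n (by omega)
  have hsm : ∀ z ∈ seg (cf c hp) n (t - 3), z ∈ K' := fun z hz => (hcm z).1 (arc_mem49 hp hz)
  have hu1 : u ∉ seg (cf c hp) n (t - 3) := by
    intro h
    have := hsm u h
    rw [hK', Finset.mem_erase, Finset.mem_erase] at this
    exact this.2.1 rfl
  have hu2 : u' ∉ seg (cf c hp) n (t - 3) := by
    intro h
    have := hsm u' h
    rw [hK', Finset.mem_erase] at this
    exact this.1 rfl
  have h1 := hA.cons hi1 hu1
  have h2 := h1.concat hi2.symm (by
    intro h
    rcases List.mem_cons.1 h with h | h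
    · exact hne h.symm
    · exact hu2 h)
  refine ⟨_, h2, ?_, ?_⟩
  · rw [List.length_append, List.length_cons, seg_length]
    simp only [List.length_cons, List.length_nil]
    omega
  · intro x hx
    rw [List.mem_append, List.mem_singleton] at hx
    rcases hx with hx | hx
    · rcases List.mem_cons.1 hx with hx | hx
      · rw [hx]; exact hu
      · exact Finset.mem_of_mem_erase (Finset.mem_of_mem_erase (hsm x hx))
    · rw [hx]; exact hu'

end Pool.Agent.P0
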