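import Pool.Agent.P0.TwoDefs49

set_option linter.all false

/-!
# P0, I4: the piece lemma and the swap of a sparse end
-/

namespace Pool.Agent.P0

open Pool.Agent.Helper14.LongCyc Pool.Agent.LCK Pool.Agent.FRC

universe u

variable {V : Type u} {G : SimpleGraph V}

/-- the first `s + 1` vertices -/
def ini49 [DecidableEq V] (v : ℕ → V) (s : ℕ) : Finset V := (Finset.range (s + 1)).image v

theorem mem_ini49 [DecidableEq V] {v : ℕ → V} {s : ℕ} {z : V} :
    z ∈ ini49 v s ↔ ∃ i, i ≤ s ∧ z = v i := by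
  unfold ini49
  rw [Finset.mem_image]
  constructor
  · rintro ⟨i, hi, rfl⟩
    exact ⟨i, by rw [Finset.mem_range] at hi; omega, rfl⟩
  · rintro ⟨i, hi, rfl⟩
    exact ⟨i, Finset.mem_range.2 (by omega), rfl⟩

theorem lst_ini49 [DecidableEq V] {U : Finset V} {m : ℕ} {v : ℕ → V} (h : Pa G U m v) {s : ℕ}
    (hs : s < m) : Lst (ini49 v s) (s + 1) v := by
  refine ⟨fun i hi => mem_ini49.2 ⟨i, by omega, rfl⟩, fun i j hi hj hij =>
    h.inj i j (by omega) (by omega) hij, fun x hx => ?_⟩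
  obtain ⟨i, hi, rfl⟩ := mem_ini49.1 hx
  exact ⟨i, by omega, rfl⟩

/-- continue a Hamilton path of the first `s + 1` vertices along the path -/
theorem ext_start49 [DecidableEq V] {U : Finset V} {m : ℕ} {v : ℕ → V} (h : Pa G U m v) {s : ℕ}
    (hs : s < m) {w : ℕ → V} (hw : Lst (ini49 v s) (s + 1) w) (hch : Ch G (s + 1) w)
    (hlast : w s = v s) :
    ∃ v', Pa G U m v' ∧ (∀ i, i ≤ s → v' i = w i) ∧ (∀ i, s ≤ i → v' i = v i) ∧
      (∀ i, i < s → ∃ j, j < s ∧ v' i = v j) ∧ (∀ i, i < s → ∃ j, j < s ∧ v i = v' j) := by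
  have a1 : ∀ i, i ≤ s → ∃ j, j ≤ s ∧ w i = v j := fun i hi => by
    obtain ⟨j, hj, e⟩ := mem_ini49.1 (hw.mem i (by omega))
    exact ⟨j, hj, e⟩
  have a2 : ∀ j, j ≤ s → ∃ i, i ≤ s ∧ w i = v j := fun j hj => by
    obtain ⟨i, hi, e⟩ := hw.sur (v j) (mem_ini49.2 ⟨j, hj, rfl⟩)
    exact ⟨i, by omega, e⟩
  obtain ⟨v', e1, e2⟩ : ∃ v' : ℕ → V, (∀ i, i ≤ s → v' i = w i) ∧ (∀ i, s ≤ i → v' i = v i) := by
    refine ⟨fun i => if i ≤ s then w i else v i, fun i hi => if_pos hi, fun i hi => ?_⟩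
    rcases Nat.lt_or_ge s i with h1 | h1
    · exact if_neg (by omega)
    · have : i = s := by omega
      subst this
      exact (if_pos le_rfl).trans hlast
  refine ⟨v', ⟨fun i hi => ?_, fun i j hi hj hij => ?_,
    fun i hi => ?_⟩, e1, e2, fun i hi => ?_, fun i hi => ?_⟩
  · rcases Nat.lt_or_ge s i with h1 | h1
    · rw [e2 i (by omega)]; exact h.mem i hi
    · rw [e1 i h1]
      obtain ⟨j, hj, e⟩ := a1 i h1
      rw [e]; exact h.mem j (by omega)
  · rcases Nat.lt_or_ge s i with h1 | h1 <;> rcases Nat.lt_or_ge s j with h2 | h2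
    · rw [e2 i (by omega), e2 j (by omega)] at hij
      exact h.inj i j hi hj hij
    · rw [e2 i (by omega), e1 j h2] at hij
      obtain ⟨t, ht, e⟩ := a1 j h2
      rw [e] at hij
      have := h.inj i t hi (by omega) hij
      omega
    · rw [e1 i h1, e2 j (by omega)] at hij
      obtain ⟨t, ht, e⟩ := a1 i h1
      rw [e] at hij
      have := h.inj t j (by omega) hj hij
      omega
    · rw [e1 i h1, e1 j h2] at hij
      exact hw.inj i j (by omega) (by omega) hij
  · rcases Nat.lt_or_ge i s with h1 | h1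
    · rw [e1 i (by omega), e1 (i + 1) (by omega)]
      exact hch i (by omega)
    · rw [e2 i h1, e2 (i + 1) (by omega)]
      exact h.ch i hi
  · obtain ⟨j, hj, e⟩ := a1 i (by omega)
    refine ⟨j, ?_, (e1 i (by omega)).trans e⟩
    rcases Nat.lt_or_ge j s with h1 | h1
    · exact h1
    · have : j = s := by omega
      subst this
      rw [← hlast] at e
      have := hw.inj i j (by omega) (by omega) e
      omega
  · obtain ⟨j, hj, e⟩ := a2 i (by omega)
    refine ⟨j, ?_, e.symm.trans (e1 j hj).symm⟩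
    rcases Nat.lt_or_ge j s with h1 | h1
    · exact h1
    · have : j = s := by omega
      subst this
      rw [hlast] at e
      have := h.inj j i (by omega) (by omega) e
      omega

/-- a closed piece: the first `s` vertices of the path -/
structure Piece49 (G : SimpleGraph V) (U : Finset V) (r s : ℕ) (v : ℕ → V) : Prop where
  lt : s + 1 < r
  three : 3 ≤ s
  adj : G.Adj (v 0) (v s)
  nb : ∀ j, j < s → ∀ z ∈ U, G.Adj (v j) z → ∃ i, i ≤ s ∧ z = v i
  deg : ∀ j, j < s → r + 1 ≤ 2 * dg G U (v j)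

/-- the piece lemma -/
theorem piece49 [DecidableEq V] {U : Finset V} {r m t : ℕ} (hr : 4 ≤ r) {v : ℕ → V}
    (hpa : Pa G U m v) (ht : t < m) (hno : NoLong G r U)
    (hst : ∀ s, s ≤ t → ∀ v', Pa G U m v' → (∀ i, s ≤ i → v' i = v i) →
      (∀ i, i < s → ∃ j, j < s ∧ v' i = v j) → (∀ i, i < s → ∃ j, j < s ∧ v i = v' j) →
      (∀ z ∈ U, G.Adj (v' 0) z → ∃ j, j ≤ t ∧ z = v j) ∧ r + 1 ≤ 2 * dg G U (v' 0)) :
    ∃ s v', s ≤ t ∧ Pa G U m v' ∧ (∀ i, s ≤ i → v' i = v i) ∧
      (∀ i, i < s → ∃ j, j < s ∧ v' i = v j) ∧ (∀ i, i < s → ∃ j, j < s ∧ v i = v' j) ∧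
      Piece49 G U r s v' := by
  classical
  -- `s` maximal
  have hex : ∃ s, s ≤ t ∧ ∃ v', Pa G U m v' ∧ (∀ i, s ≤ i → v' i = v i) ∧
      (∀ i, i < s → ∃ j, j < s ∧ v' i = v j) ∧ (∀ i, i < s → ∃ j, j < s ∧ v i = v' j) ∧
      G.Adj (v' 0) (v' s) := by
    obtain ⟨h1, h2⟩ := hst 0 (Nat.zero_le _) v hpa (fun _ _ => rfl)
      (fun i hi => absurd hi (Nat.not_lt_zero _)) (fun i hi => absurd hi (Nat.not_lt_zero _))
    have h3 : 0 < dg G U (v 0) := by omega
    unfold dg at h3
    obtain ⟨z, hz⟩ := Finset.card_pos.1 h3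
    rw [Finset.mem_filter] at hz
    obtain ⟨j, hj, rfl⟩ := h1 z hz.1 hz.2
    exact ⟨j, hj, v, hpa, fun _ _ => rfl, fun i hi => ⟨i, hi, rfl⟩, fun i hi => ⟨i, hi, rfl⟩, hz.2⟩
  obtain ⟨s, ⟨hs, v1, hv1, f1, f2, f3, f4⟩, hmax⟩ := exists_max_nat (α := ℕ)
    (fun s => s ≤ t ∧ ∃ v', Pa G U m v' ∧ (∀ i, s ≤ i → v' i = v i) ∧
      (∀ i, i < s → ∃ j, j < s ∧ v' i = v j) ∧ (∀ i, i < s → ∃ j, j < s ∧ v i = v' j) ∧
      G.Adj (v' 0) (v' s)) (fun s => s) t (fun s hs => hs.1) hex
  have hlt : s + 1 < r := Pa.cyc hv1 (by omega) hno (by omega) f4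
  -- starts of the first `s + 1` vertices are closed
  have hcl : ∀ x, St G (ini49 v1 s) (s + 1) (v1 (s + 1 - 1)) x →
      (∀ z ∈ U, G.Adj x z → z ∈ ini49 v1 s) ∧ r + 1 ≤ 2 * dg G U x := by
    rintro x ⟨w, w1, w2, w3, w4⟩
    rw [show s + 1 - 1 = s by omega] at w4
    obtain ⟨v2, g0, g1, g2, g3, g4⟩ := ext_start49 hv1 (by omega : s < m) w1 w2 w4
    have k1 : ∀ i, s ≤ i → v2 i = v i := fun i hi => (g2 i hi).trans (f1 i hi)
    have k2 : ∀ i, i < s → ∃ j, j < s ∧ v2 i = v j := fun i hi => by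
      obtain ⟨j, hj, e⟩ := g3 i hi
      obtain ⟨j', hj', e'⟩ := f2 j hj
      exact ⟨j', hj', e.trans e'⟩
    have k3 : ∀ i, i < s → ∃ j, j < s ∧ v i = v2 j := fun i hi => by
      obtain ⟨j, hj, e⟩ := f3 i hi
      obtain ⟨j', hj', e'⟩ := g4 j hj
      exact ⟨j', hj', e.trans e'⟩
    obtain ⟨c1, c2⟩ := hst s hs v2 g0 k1 k2 k3
    have hx : v2 0 = x := (g1 0 (Nat.zero_le _)).trans w3
    rw [hx] at c1 c2
    refine ⟨fun z hz hza => ?_, c2⟩
    obtain ⟨j, hj, rfl⟩ := c1 z hz hza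
    rcases Nat.lt_or_ge j s with h1 | h1
    · obtain ⟨j', hj', e'⟩ := f3 j h1
      exact mem_ini49.2 ⟨j', by omega, e'⟩
    · rcases Nat.lt_or_ge s j with h2 | h2
      · exfalso
        have := hmax j ⟨hj, v2, g0, fun i hi => k1 i (by omega), fun i hi => ?_, fun i hi => ?_, ?_⟩
        · omega
        · rcases Nat.lt_or_ge i s with h3 | h3
          · obtain ⟨j', q1, q2⟩ := k2 i h3
            exact ⟨j', by omega, q2⟩
          · exact ⟨i, hi, k1 i h3⟩
        · rcases Nat.lt_or_ge i s with h3 | h3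
          · obtain ⟨j', q1, q2⟩ := k3 i h3
            exact ⟨j', by omega, q2⟩
          · exact ⟨i, hi, (k1 i h3).symm⟩
        · rw [hx, k1 j (by omega)]; exact hza
      · have : j = s := by omega
        subst this
        exact mem_ini49.2 ⟨j, le_rfl, (f1 j le_rfl).symm⟩
  have hd : ∀ x, St G (ini49 v1 s) (s + 1) (v1 (s + 1 - 1)) x →
      s + 1 + 1 ≤ 2 * dT G (ini49 v1 s) x := by
    intro x hx
    obtain ⟨c1, c2⟩ := hcl x hx
    have h1 : dg G U x ≤ dT G (ini49 v1 s) x := by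
      rw [dT_eq_dg]
      unfold dg
      refine Finset.card_le_card fun z hz => ?_
      rw [Finset.mem_filter] at hz ⊢
      exact ⟨c1 z hz.1 hz.2, hz.2⟩
    omega
  have hs1 : 1 ≤ s := by
    rcases Nat.eq_zero_or_pos s with h1 | h1
    · subst h1; exact absurd f4 (G.loopless.irrefl _)
    · exact h1
  have hall := all_starts (G := G) (T := ini49 v1 s) (m := s + 1) (v := v1)
    (lst_ini49 hv1 (by omega)) (fun i hi => hv1.ch i (by omega)) (by omega) hd (by
      rw [show s + 1 - 1 = s by omega]; exact f4)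
  have hnb : ∀ j, j < s → ∀ z ∈ U, G.Adj (v1 j) z → ∃ i, i ≤ s ∧ z = v1 i := by
    intro j hj z hz hza
    exact mem_ini49.1 ((hcl _ (hall j (by omega))).1 z hz hza)
  have hdeg : ∀ j, j < s → r + 1 ≤ 2 * dg G U (v1 j) := fun j hj => (hcl _ (hall j (by omega))).2
  refine ⟨s, v1, hs, hv1, f1, f2, f3, hlt, ?_, f4, hnb, hdeg⟩
  have h1 := hdeg 0 (by omega)
  have h2 : dg G U (v1 0) ≤ s := by
    refine (dg_le49 (S := (Finset.Icc 1 s).image v1) ?_).trans (Finset.card_image_le.trans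
      (by simp))
    intro z hz hza
    obtain ⟨i, hi, rfl⟩ := hnb 0 (by omega) z hz hza
    refine Finset.mem_image.2 ⟨i, Finset.mem_Icc.2 ⟨?_, hi⟩, rfl⟩
    rcases Nat.eq_zero_or_pos i with h3 | h3
    · subst h3; exact absurd hza (G.loopless.irrefl _)
    · exact h3
  omega

/-- one vertex of a cycle can be replaced by `u` while it is adjacent to `w` -/
theorem sandwich49 [DecidableEq V] {C : Finset V} (hC : CycSet G C) (hC4 : 4 ≤ C.card) {u w : V}
    (hu : u ∉ C) (hd : 2 * C.card < 2 * dg G C u + dg G C w) :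
    ∃ c ∈ C, G.Adj w c ∧ CycSet G (insert u (C.erase c)) := by
  classical
  obtain ⟨c, hc, hs⟩ := hC
  have hcard := card_of_list (Cyc.nodup hc) hs
  have hCt : c.toFinset = C := by
    ext z; rw [List.mem_toFinset]; exact hs z
  have hp : 0 < c.length := by omega
  haveI : NeZero c.length := ⟨by omega⟩
  have huc : u ∉ c := fun hh => hu ((hs u).1 hh)
  by_contra hcon
  push Not at hcon
  have hloc : ∀ i : ZMod c.length, ind49 G c hp u (i - 1) + ind49 G c hp u (i + 1)
      + ind49 G c hp w i ≤ 2 := by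
    intro i
    have l1 := ind_le49 (G := G) hp u (i - 1)
    have l2 := ind_le49 (G := G) hp u (i + 1)
    have l3 := ind_le49 (G := G) hp w i
    by_contra hne
    have k1 : ind49 G c hp u (i - 1) = 1 := by omega
    have k2 : ind49 G c hp u (i + 1) = 1 := by omega
    have k3 : ind49 G c hp w i = 1 := by omega
    obtain ⟨n, hn⟩ : ∃ n : ℕ, i - 1 = ((n : ℕ) : ZMod c.length) :=
      ⟨(i - 1).val, (ZMod.natCast_zmod_val _).symm⟩
    have hi : i = ((n + 1 : ℕ) : ZMod c.length) := by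
      push_cast
      rw [← hn]; ring
    have hi' : i + 1 = ((n + 2 : ℕ) : ZMod c.length) := by
      push_cast
      rw [← hn]; ring
    rw [ind_nat49 hp n hn] at k1
    rw [ind_nat49 hp (n + 2) hi'] at k2
    rw [ind_nat49 hp (n + 1) hi] at k3
    have hA := arc_pth hc hp (c.length - 2) (n + 2) (by omega)
    have e0 : cf c hp (n + 2 + (c.length - 2)) = cf c hp n := by
      apply cf_congr
      rw [show n + 2 + (c.length - 2) = n + c.length by omega, Nat.add_mod_right]
    rw [e0] at hA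
    have key : ∀ z ∈ seg (cf c hp) (n + 2) (c.length - 2), z ≠ cf c hp (n + 1) := by
      intro z hz hzz
      rw [mem_seg] at hz
      obtain ⟨j, j1, j2, j3⟩ := hz
      rw [hzz, show j = n + (j - n) by omega] at j3
      exact far49 hc hp n (s := 1) (t := j - n) (by omega) (by omega) j3
    obtain ⟨e1, e2⟩ := joinSet hA (Pth.singleton u) (by
      intro z hz hz'
      rw [List.mem_singleton] at hz'
      exact huc (hz' ▸ arc_mem49 hp hz)) (by
      rw [seg_length]; simp only [List.length_singleton]; omega)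
      (Or.inl ⟨k2.symm, k1.symm⟩)
    rw [seg_length, List.length_singleton] at e2
    have hcC : cf c hp (n + 1) ∈ C := (hs _).1 (cf_mem hp _)
    refine hcon _ hcC k3.symm.symm ?_
    have e3 : (seg (cf c hp) (n + 2) (c.length - 2) ++ [u]).toFinset
        = insert u (C.erase (cf c hp (n + 1))) := by
      refine Finset.eq_of_subset_of_card_le ?_ ?_
      · intro z hz
        rw [List.mem_toFinset, List.mem_append, List.mem_singleton] at hz
        rcases hz with hz | hz
        · exact Finset.mem_insert_of_mem (Finset.mem_erase.2 ⟨key z hz,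
            (hs z).1 (arc_mem49 hp hz)⟩)
        · rw [hz]; exact Finset.mem_insert_self _ _
      · rw [e2, Finset.card_insert_of_notMem (fun hh => hu (Finset.mem_of_mem_erase hh)),
          Finset.card_erase_of_mem hcC]
        omega
    rw [← e3]
    exact e1
  have hsum : ∑ i, (ind49 G c hp u (i - 1) + ind49 G c hp u (i + 1) + ind49 G c hp w i)
      ≤ ∑ _i : ZMod c.length, 2 := Finset.sum_le_sum fun i _ => hloc i
  have hn := Cyc.nodup hc
  rw [Finset.sum_add_distrib, Finset.sum_add_distrib, shiftN49, shift49 (ind49 G c hp u),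
    sum_ind49 hp hn, sum_ind49 hp hn, hCt, Finset.sum_const, Finset.card_univ, ZMod.card,
    smul_eq_mul] at hsum
  omega

end Pool.Agent.P0
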