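import Pool.Agent.P0.Closed99C
import Pool.Agent.P0.Glue41

set_option linter.all false

/-!
# P0, row I3: the final count.  The rest of an optimal family has more than `r` vertices.
-/

namespace Pool.Agent.P0.Closed99

open Pool.Agent.Helper14.LongCyc Pool.Agent.LCK Pool.Agent.P0

universe u

variable {V : Type u} {G : SimpleGraph V}

/-- two members of an optimal family cannot be shortened together -/
theorem pair_noShort [DecidableEq V] {U : Finset V} {r : ℕ} {F : Finset (Finset V)}
    (hF : Opt49 G U r F) {C X : Finset V} (hC : C ∈ F) (hX : X ∈ F) (hne : C ≠ X) :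
    NoShort G r (C.card + X.card) (C ∪ X) := by
  rintro ⟨D, E, hD, hE, hDs, hEs, hDr, hEr, hdd, hlt⟩
  have hne' : D ≠ E := by
    rintro rfl
    have h1 : D = ∅ := by simpa using hdd
    have h2 := hD.three_le
    rw [h1] at h2; simp at h2
  have hA : ({C, X} : Finset (Finset V)) ⊆ F := by
    intro s hs
    rw [Finset.mem_insert, Finset.mem_singleton] at hs
    rcases hs with hs | hs
    · rw [hs]; exact hC
    · rw [hs]; exact hX
  have hAU : C ∪ X ⊆ ({C, X} : Finset (Finset V)).biUnion id ∪ rest U F := by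
    intro z hz
    refine Finset.mem_union_left _ ?_
    rw [Finset.mem_biUnion]
    rcases Finset.mem_union.1 hz with hz | hz
    · exact ⟨C, by simp, hz⟩
    · exact ⟨X, by simp, hz⟩
  have hB : Fam G (({C, X} : Finset (Finset V)).biUnion id ∪ rest U F) (fun L => r ≤ L) {D, E} := by
    refine ⟨?_, ?_, ?_, ?_⟩
    · intro s hs
      rw [Finset.mem_insert, Finset.mem_singleton] at hs
      rcases hs with hs | hs
      · rw [hs]; exact hD
      · rw [hs]; exact hE
    · intro s hs
      rw [Finset.mem_insert, Finset.mem_singleton] at hs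
      rcases hs with hs | hs
      · rw [hs]; exact hDs.trans hAU
      · rw [hs]; exact hEs.trans hAU
    · intro s hs
      rw [Finset.mem_insert, Finset.mem_singleton] at hs
      rcases hs with hs | hs
      · rw [hs]; exact hDr
      · rw [hs]; exact hEr
    · intro s hs t ht hst
      rw [Finset.mem_insert, Finset.mem_singleton] at hs ht
      rcases hs with hs | hs <;> rcases ht with ht | ht
      · exact absurd (hs.trans ht.symm) hst
      · rw [hs, ht]; exact hdd
      · rw [hs, ht]; exact hdd.symm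
      · exact absurd (hs.trans ht.symm) hst
  obtain ⟨h1, h2, h3⟩ := hF.fam.swap hA hB
  have e1 : ((F \ {C, X}) ∪ {D, E}).card = F.card := by
    rw [Finset.card_union_of_disjoint h2, Finset.card_sdiff_of_subset hA, Finset.card_pair hne,
      Finset.card_pair hne']
    have := Finset.card_le_card hA
    rw [Finset.card_pair hne] at this
    omega
  have e2 := hF.min _ h1 e1
  unfold tot at e2
  rw [Finset.sum_union h2, Finset.sum_pair hne', ← Finset.sum_sdiff hA, Finset.sum_pair hne] at e2
  omega

/-- the closed lemma for two members which are both longer than `r` -/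
def ClosedBig (r : ℕ) : Prop := ∀ {V : Type u} [DecidableEq V] {G : SimpleGraph V} {C X : Finset V},
  CycSet G C → CycSet G X → r < C.card → C.card ≤ X.card → Disjoint C X →
    NoShort G r (C.card + X.card) (C ∪ X) → 3 * eS G C X ≤ 2 * (r * X.card)

/-- the chord bound for a locally shortest long cycle -/
def Chords (r : ℕ) : Prop := ∀ {V : Type u} [DecidableEq V] {G : SimpleGraph V} {X : Finset V},
  CycSet G X → r < X.card → (∀ D, CycSet G D → D ⊆ X → r ≤ D.card → X.card ≤ D.card) →
    2 * eS G X X ≤ X.card * X.card ∧ (2 * r < X.card → eS G X X ≤ 2 * X.card)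

theorem rest99 {k r : ℕ} (hk : 2 ≤ k) (hr : 4 ≤ r) (hbig : ClosedBig.{u} r) (hch : Chords.{u} r) :
    IRest41.{u} k r := by
  intro V _ G U F hF hFk hU hdeg
  by_contra hcon
  have hrest : (rest U F).card ≤ r := by omega
  have hcr := hF.fam.card_rest
  -- the longest member
  have hne : F.Nonempty := by
    rw [← Finset.card_pos]; omega
  obtain ⟨X, hX, hmax⟩ := Finset.exists_max_image F (fun s => s.card) hne
  have htot : tot F ≤ F.card * X.card := by
    unfold tot
    rw [← smul_eq_mul]
    exact Finset.sum_le_card_nsmul _ _ _ fun s hs => hmax s hs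
  have hXr : r < X.card := by
    by_contra hle
    have hle' : X.card ≤ r := by omega
    have h1 : F.card * X.card ≤ F.card * r := Nat.mul_le_mul_left _ hle'
    have h2 : k * r = F.card * r + r := by
      rw [← hFk]; ring
    omega
  set L := X.card with hL
  -- degrees along `X`
  have hsumX : 2 * k * r * L ≤ 3 * eS G X U := by
    unfold eS
    rw [Finset.mul_sum]
    have h1 : ∀ v ∈ X, 2 * k * r ≤ 3 * dg G U v := fun v hv => hdeg v (hF.fam.sub X hX hv)
    have h2 := Finset.card_nsmul_le_sum X (fun v => 3 * dg G U v) (2 * k * r) h1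
    rw [smul_eq_mul, mul_comm] at h2
    exact h2
  have hsplit := hF.fam.eS_split X
  -- the rest
  have h0 : eS G X (rest U F) ≤ r * ((r + 1) / 2) := by
    rw [eS_comm]
    unfold eS
    have h1 := Finset.sum_le_card_nsmul (rest U F) (fun v => dg G X v) ((r + 1) / 2)
      fun v hv => hF.outside hr hX hXr hv
    rw [smul_eq_mul] at h1
    exact h1.trans (Nat.mul_le_mul_right _ hrest)
  -- the other members
  have hothers : ∑ C ∈ F.erase X, 3 * eS G X C ≤ (F.card - 1) * (2 * (r * L)) := by
    have h1 := Finset.sum_le_card_nsmul (F.erase X) (fun C => 3 * eS G X C) (2 * (r * L)) ?_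
    · rw [smul_eq_mul, Finset.card_erase_of_mem hX] at h1
      exact h1
    · intro C hC
      have hCF := Finset.mem_of_mem_erase hC
      have hCX := Finset.ne_of_mem_erase hC
      have hns := pair_noShort hF hCF hX hCX
      have hd := hF.fam.disj C hCF X hX hCX
      have hCr := hF.fam.len C hCF
      show 3 * eS G X C ≤ 2 * (r * L)
      rw [eS_comm]
      rcases Nat.lt_or_ge r C.card with h | h
      · exact hbig (hF.fam.cyc C hCF) (hF.fam.cyc X hX) h (hmax C hCF) hd hns
      · have hCe : C.card = r := le_antisymm h hCr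
        rw [hCe] at hns
        exact closed_r99 hr (hF.fam.cyc C hCF) (hF.fam.cyc X hX) hCe hXr hd hns
  have hsum : 3 * ∑ C ∈ F, eS G X C = 3 * eS G X X + ∑ C ∈ F.erase X, 3 * eS G X C := by
    rw [← Finset.add_sum_erase F (fun C => eS G X C) hX, mul_add, Finset.mul_sum]
  obtain ⟨c1, c2⟩ := hch (hF.fam.cyc X hX) hXr (fun D hD hDX hDr =>
    hF.short hX hD (hDX.trans Finset.subset_union_left) hDr)
  rw [← hL] at c1 c2
  have hkF : F.card = k - 1 := by omega
  obtain ⟨k', rfl⟩ : ∃ k', k = k' + 2 := ⟨k - 2, by omega⟩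
  have e1 : F.card - 1 = k' := by omega
  rw [e1] at hothers
  have e2 : 2 * ((r + 1) / 2) ≤ r + 1 := by omega
  have e3 : 2 * (r * ((r + 1) / 2)) ≤ r * (r + 1) := by
    calc 2 * (r * ((r + 1) / 2)) = r * (2 * ((r + 1) / 2)) := by ring
      _ ≤ r * (r + 1) := Nat.mul_le_mul_left _ e2
  have e4 : 2 * (k' + 2) * r * L = k' * (2 * (r * L)) + 4 * (r * L) := by ring
  rw [e4] at hsumX
  have main : 8 * (r * L) ≤ 3 * (r * (r + 1)) + 6 * eS G X X := by omega
  rcases Nat.lt_or_ge (2 * r) L with h | h
  · have h3 := c2 h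
    have h4 : 8 * (r * L) ≤ 3 * (r * (r + 1)) + 12 * L := by omega
    obtain ⟨s, rfl⟩ : ∃ s, r = s + 4 := ⟨r - 4, by omega⟩
    obtain ⟨t, ht⟩ : ∃ t, L = 2 * (s + 4) + 1 + t := ⟨L - (2 * (s + 4) + 1), by omega⟩
    rw [ht] at h4
    nlinarith
  · have h4 : 8 * (r * L) ≤ 3 * (r * (r + 1)) + 3 * (L * L) := by omega
    obtain ⟨a, ha⟩ : ∃ a, L = r + 1 + a := ⟨L - (r + 1), by omega⟩
    obtain ⟨b, hb⟩ : ∃ b, 2 * r = L + b := ⟨2 * r - L, by omega⟩
    obtain ⟨s, hs⟩ : ∃ s, r = s + 4 := ⟨r - 4, by omega⟩
    have h5 : 8 * ((r : ℤ) * L) ≤ 3 * (r * (r + 1)) + 3 * (L * L) := by exact_mod_cast h4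
    have ha' : (L : ℤ) = r + 1 + a := by exact_mod_cast ha
    have hb' : (2 : ℤ) * r = L + b := by exact_mod_cast hb
    have hs' : (r : ℤ) = s + 4 := by exact_mod_cast hs
    have a0 : (0 : ℤ) ≤ a := Int.natCast_nonneg a
    have b0 : (0 : ℤ) ≤ b := Int.natCast_nonneg b
    have s0 : (0 : ℤ) ≤ s := Int.natCast_nonneg s
    have e5 : 8 * ((r : ℤ) * L) - 3 * (r * (r + 1)) - 3 * (L * L) =
        3 * (a * b) + (s + 4) * (s + 1) + (r + 3) * b := by
      have ha'' : (a : ℤ) = L - r - 1 := by linarith
      have hb'' : (b : ℤ) = 2 * r - L := by linarith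
      have hs'' : (s : ℤ) = r - 4 := by linarith
      rw [ha'', hb'', hs'']
      ring
    have p1 : (0 : ℤ) ≤ a * b := mul_nonneg a0 b0
    have p2 : (0 : ℤ) < (s + 4) * (s + 1) := by positivity
    have p3 : (0 : ℤ) ≤ (r + 3) * b := by positivity
    linarith

end Pool.Agent.P0.Closed99
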