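import Pool.Agent.P0.LLZ33

set_option linter.all false

/-!
# P0, I7 (A): from the rigid form to the list of exceptional words
-/

namespace Pool.Agent.P0

variable {r : ℕ} {a b b' a' : ℕ → ℕ}

/-- the exceptional words, periodic form on `ℕ` -/
def OutN97 (r : ℕ) (a b b' a' : ℕ → ℕ) : Prop :=
  (∃ c, a c = 1 ∧ a (c + 2) = 1 ∧ a (c + 4) = 1 ∧ a' c = 1 ∧ a' (c + 2) = 1 ∧ a' (c + 4) = 1 ∧
    b (c + 2) = 1 ∧ b' (c + 2) = 1) ∨
  (∃ c, (∀ j, j < r → (a (c + j) = 1 ↔ j = 0) ∧ a' (c + j) = 1) ∧ b' c = 0) ∨
  (∃ c, ∀ j, j < r → (a (c + j) = 1 ↔ j = 0 ∨ j = 2) ∧ (a' (c + j) = 1 ↔ j ≠ 1)) ∨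
  (∃ c, (∀ j, j < r → (a (c + j) = 1 ↔ j = 0 ∨ j = 2 ∨ j = 4) ∧
    (a' (c + j) = 1 ↔ j ≠ 1 ∧ j ≠ 3)) ∧ b (c + 2) + b' (c + 2) = 1) ∨
  (∃ c, (∀ j, j < r → (a' (c + j) = 1 ↔ j = 0 ∨ j = 2 ∨ j = 4) ∧
    (a (c + j) = 1 ↔ j ≠ 1 ∧ j ≠ 3)) ∧ b (c + 2) + b' (c + 2) = 1)

/-- the rigid form -/
structure Rig97 (r : ℕ) (a b b' a' : ℕ → ℕ) : Prop where
  ln : LN33 r a b b' a'
  z0 : a 0 = 1
  z0' : a' 0 = 1
  z3 : a' 3 = 1
  y : ∀ j, 3 ≤ j → j < r → a j + a' (j + 1) = 1
  n2 : ∀ j, 3 ≤ j → j < r → a j + a (j + 1) ≤ 1
  n3 : a 3 = 1 → ∀ j, 3 ≤ j → j < r → a' j + a' (j + 1) ≤ 1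
  one : ∀ i, 1 ≤ b i + b' i
  two : ∀ i j, i < j → j < i + r → 3 ≤ b i + b' i + (b j + b' j)
  alt : (a 1 = 0 ∧ a' 1 = 0 ∧ a 2 = 1 ∧ a' 2 = 1) ∨
    (a 1 + a' 1 = 1 ∧ a 2 + a' 2 = 1 ∧ b 1 = 1 ∧ b' 1 = 1)

section

variable (R : Rig97 r a b b' a') (hr : 7 ≤ r)

include R hr

theorem Rig97.x1 {i j : ℕ} (h1 : i + 3 ≤ j) (h2 : j + 1 ≤ i + r) (h3 : a i = 1)
    (h4 : a (i + 3) = 1) (h5 : a' j = 1) (h6 : a' (j + 1) = 1) : False := by
  have h7 := R.ln.w1 i j h1 h2 h3 h4 h5 h6
  have h8 := R.two (i + 1) (i + 2) (by omega) (by omega)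
  omega

theorem Rig97.x1' {i j : ℕ} (h1 : i + 3 ≤ j) (h2 : j + 1 ≤ i + r) (h3 : a' i = 1)
    (h4 : a' (i + 3) = 1) (h5 : a j = 1) (h6 : a (j + 1) = 1) : False := by
  have h7 := R.ln.w1' i j h1 h2 h3 h4 h5 h6
  have h8 := R.two (i + 1) (i + 2) (by omega) (by omega)
  omega

theorem Rig97.x2 {i j : ℕ} (h1 : i + 3 ≤ j) (h2 : j + 1 ≤ i + r) (h3 : a i = 1)
    (h4 : a' (i + 3) = 1) (h5 : a j = 1) (h6 : a' (j + 1) = 1) : False := by
  have h7 := R.ln.w2 i j h1 h2 h3 h4 h5 h6
  have h8 := R.two (i + 1) (i + 2) (by omega) (by omega)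
  omega

theorem Rig97.x2' {i j : ℕ} (h1 : i + 3 ≤ j) (h2 : j + 1 ≤ i + r) (h3 : a' i = 1)
    (h4 : a (i + 3) = 1) (h5 : a' j = 1) (h6 : a (j + 1) = 1) : False := by
  have h7 := R.ln.w2' i j h1 h2 h3 h4 h5 h6
  have h8 := R.two (i + 1) (i + 2) (by omega) (by omega)
  omega

theorem Rig97.per (i : ℕ) : a (i + r) = a i ∧ b (i + r) = b i ∧ b' (i + r) = b' i ∧
    a' (i + r) = a' i := ⟨R.ln.pa i, R.ln.pb i, R.ln.pb' i, R.ln.pa' i⟩

/-- four ends at `c + 2` -/
theorem Rig97.o4 {c : ℕ} (h1 : a c = 1) (h2 : a (c + 2) = 1) (h3 : a (c + 4) = 1)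
    (h4 : a' c = 1) (h5 : a' (c + 2) = 1) (h6 : a' (c + 4) = 1)
    (h7 : 2 ≤ b (c + 2) + b' (c + 2)) : OutN97 r a b b' a' := by
  have h8 := R.ln.bb (c + 2)
  have h9 := R.ln.bb' (c + 2)
  exact Or.inl ⟨c, h1, h2, h3, h4, h5, h6, by omega, by omega⟩

/-- the case `a 3 = 1` -/
theorem Rig97.caseA (h3 : a 3 = 1) : OutN97 r a b b' a' := by
  have ba := R.ln.ba
  have ba' := R.ln.ba'
  have y3 := R.y 3 (by omega) (by omega)
  have y4 := R.y 4 (by omega) (by omega)
  have y5 := R.y 5 (by omega) (by omega)
  have y6 := R.y 6 (by omega) (by omega)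
  have m3 := R.n2 3 (by omega) (by omega)
  have m5 := R.n2 5 (by omega) (by omega)
  have k5 := R.n3 h3 5 (by omega) (by omega)
  have z3 := R.z3
  have z0 := R.z0
  have z0' := R.z0'
  norm_num at y3 y4 y5 y6 m3 m5 k5
  have c4 : a 4 = 0 := by omega
  have c4' : a' 4 = 0 := by omega
  have c5' : a' 5 = 1 := by omega
  have c6' : a' 6 = 0 := by omega
  have c5 : a 5 = 1 := by omega
  have c6 : a 6 = 0 := by omega
  have c7' : a' 7 = 1 := by omega
  have p0 := R.per hr 0
  have p1 := R.per hr 1
  have p2 := R.per hr 2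
  norm_num at p0
  rcases Nat.lt_or_ge r 8 with h7 | h7
  · -- r = 7
    have hr7 : r = 7 := by omega
    subst hr7
    norm_num at p0 p1 p2
    by_cases hb : 2 ≤ b 5 + b' 5
    · exact R.o4 hr (c := 3) h3 c5 (show a 7 = 1 by omega) z3 c5' (show a' 7 = 1 by omega) hb
    · have hb7 := R.two 5 7 (by omega) (by omega)
      have hb8 := R.one 5
      rcases R.alt with ⟨g1, g2, g3, g4⟩ | ⟨g1, g2, g3, g4⟩
      · exact R.o4 hr (c := 5) c5 (show a 7 = 1 by omega) (show a 9 = 1 by omega) c5'
          (show a' 7 = 1 by omega) (show a' 9 = 1 by omega)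
          (show 2 ≤ b 7 + b' 7 by omega)
      · have q1 := R.ln.m1 0
        have q2 := R.ln.m1' 0
        have t1 := ba 1
        have t2 := ba 2
        have t1' := ba' 1
        have t2' := ba' 2
        norm_num at q1 q2
        rcases Nat.eq_zero_or_pos (a 2) with g5 | g5
        · -- a' 2 = 1
          have e2' : a' 2 = 1 := by omega
          have := q2 z0' e2'
          have e1 : a 1 = 0 := by omega
          have e1' : a' 1 = 1 := by omega
          refine Or.inr (Or.inr (Or.inr (Or.inl ⟨3, fun j hj => ?_, by norm_num; omega⟩)))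
          have : j = 0 ∨ j = 1 ∨ j = 2 ∨ j = 3 ∨ j = 4 ∨ j = 5 ∨ j = 6 := by omega
          rcases this with h | h | h | h | h | h | h <;> subst h <;> norm_num <;> omega
        · have e2 : a 2 = 1 := by omega
          have := q1 z0 e2
          have e1' : a' 1 = 0 := by omega
          have e1 : a 1 = 1 := by omega
          have e2' : a' 2 = 0 := by omega
          refine Or.inr (Or.inr (Or.inr (Or.inr ⟨3, fun j hj => ?_, by norm_num; omega⟩)))
          have : j = 0 ∨ j = 1 ∨ j = 2 ∨ j = 3 ∨ j = 4 ∨ j = 5 ∨ j = 6 := by omega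
          rcases this with h | h | h | h | h | h | h <;> subst h <;> norm_num <;> omega
  · have k7 := R.n3 h3 7 (by omega) (by omega)
    norm_num at k7
    have c8' : a' 8 = 0 := by omega
    have hr9 : 9 ≤ r := by
      by_contra hcon
      have : r = 8 := by omega
      subst this
      norm_num at p0
      omega
    have y7 := R.y 7 (by omega) (by omega)
    have y8 := R.y 8 (by omega) (by omega)
    have m7 := R.n2 7 (by omega) (by omega)
    norm_num at y7 y8 m7
    have c7 : a 7 = 1 := by omega
    have c8 : a 8 = 0 := by omega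
    have c9' : a' 9 = 1 := by omega
    by_cases hb : 2 ≤ b 5 + b' 5
    · exact R.o4 hr (c := 3) h3 c5 c7 z3 c5' c7' hb
    · have hb7 := R.two 5 7 (by omega) (by omega)
      have t5 := R.one 5
      have c9 : a 9 = 1 := by
        rcases Nat.lt_or_ge r 10 with h9 | h9
        · have : r = 9 := by omega
          subst this
          norm_num at p0
          omega
        · have k9 := R.n3 h3 9 (by omega) (by omega)
          have y9 := R.y 9 (by omega) (by omega)
          norm_num at k9 y9
          omega
      exact R.o4 hr (c := 5) c5 c7 c9 c5' c7' c9' (show 2 ≤ b 7 + b' 7 by omega)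

/-- the case `a 3 = 0`, `a 2 = 1` in the second alternative is impossible -/
theorem Rig97.noQ (h3 : a 3 = 0) (h1 : a 1 = 1) (h1' : a' 1 = 0) : False := by
  have ba := R.ln.ba
  have ba' := R.ln.ba'
  have y3 := R.y 3 (by omega) (by omega)
  have y5 := R.y 5 (by omega) (by omega)
  have y6 := R.y 6 (by omega) (by omega)
  have m5 := R.n2 5 (by omega) (by omega)
  have z3 := R.z3
  have z0 := R.z0
  have z0' := R.z0'
  norm_num at y3 y5 y6 m5
  have c4' : a' 4 = 1 := by omega
  have p0 := R.per hr 0
  have p1 := R.per hr 1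
  rw [Nat.zero_add] at p0
  rw [Nat.add_comm 1 r] at p1
  have e0 : a r = 1 := by omega
  have e1 : a (r + 1) = 1 := by omega
  have t6 := ba' 6
  have t7 := ba' 7
  have c6' : a' 6 = 0 := by
    by_contra hcon
    exact R.x1' hr (i := 3) (j := r) (by omega) (by omega) z3 (show a' 6 = 1 by omega) e0 e1
  have c7' : a' 7 = 0 := by
    by_contra hcon
    exact R.x1' hr (i := 4) (j := r) (by omega) (by omega) c4' (show a' 7 = 1 by omega) e0 e1
  omega

/-- the position `r - 1` -/
theorem Rig97.last {p : ℕ} (h4 : 4 ≤ p) (hp : p + 2 ≤ r) (hap : a p = 1)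
    (hap' : a' (p - 3) = 1) :
    (∀ j, p ≤ j → j + 4 ≤ p + r → a' j = 1 → a (j + 1) = 1 → False) ∧
    a' (r - 1) = 0 ∧ a (r - 1) = 0 ∧ a (r - 2) = 1 ∧ a (r - 3) = 0 ∧ a' (r - 2) = 1 := by
  have ba := R.ln.ba
  have ba' := R.ln.ba'
  have p0 := R.per hr 0
  rw [Nat.zero_add] at p0
  have z0 := R.z0
  have z0' := R.z0'
  have st : ∀ j, p ≤ j → j + 4 ≤ p + r → a' j = 1 → a (j + 1) = 1 → False := by
    intro j h5 h6 h7 h8
    refine R.x2' hr (i := p - 3) (j := j) (by omega) (by omega) hap' ?_ h7 h8
    rw [show p - 3 + 3 = p by omega]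
    exact hap
  have c1' : a' (r - 1) = 0 := by
    have t := ba' (r - 1)
    by_contra hcon
    refine st (r - 1) (by omega) (by omega) (by omega) ?_
    rw [show r - 1 + 1 = r by omega]
    omega
  have y2 := R.y (r - 2) (by omega) (by omega)
  have y3 := R.y (r - 3) (by omega) (by omega)
  have n1 := R.n2 (r - 1) (by omega) (by omega)
  have n3 := R.n2 (r - 3) (by omega) (by omega)
  rw [show r - 2 + 1 = r - 1 by omega] at y2
  rw [show r - 3 + 1 = r - 2 by omega] at y3 n3
  rw [show r - 1 + 1 = r by omega] at n1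
  exact ⟨st, c1', by omega, by omega, by omega, by omega⟩

/-- the positions `r - 4`, `r - 5` -/
theorem Rig97.back (h3 : a 3 = 0) (h : a' (r - 3) = 0) : 8 ≤ r ∧ a (r - 4) = 1 ∧
    a (r - 5) = 0 ∧ a' (r - 4) = 1 := by
  have y4 := R.y (r - 4) (by omega) (by omega)
  rw [show r - 4 + 1 = r - 3 by omega] at y4
  have c4 : a (r - 4) = 1 := by omega
  have h8 : 8 ≤ r := by
    by_contra hcon
    have : r = 7 := by omega
    subst this
    norm_num at c4
    omega
  have n5 := R.n2 (r - 5) (by omega) (by omega)
  have y5 := R.y (r - 5) (by omega) (by omega)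
  rw [show r - 5 + 1 = r - 4 by omega] at n5 y5
  exact ⟨h8, c4, by omega, by omega⟩

/-- the case `a 3 = 0`, first alternative -/
theorem Rig97.caseP (h3 : a 3 = 0) (h1 : a 1 = 0) (h1' : a' 1 = 0) (h2 : a 2 = 1)
    (h2' : a' 2 = 1) : OutN97 r a b b' a' := by
  have ba := R.ln.ba
  have ba' := R.ln.ba'
  have y3 := R.y 3 (by omega) (by omega)
  have z3 := R.z3
  have z0 := R.z0
  have z0' := R.z0'
  norm_num at y3
  have c4' : a' 4 = 1 := by omega
  have p0 := R.per hr 0
  have p2 := R.per hr 2
  rw [Nat.zero_add] at p0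
  rw [Nat.add_comm 2 r] at p2
  by_cases hex : ∃ j, 4 ≤ j ∧ j + 2 ≤ r ∧ a j = 1
  · classical
    obtain ⟨h4, hp, hap⟩ := Nat.find_spec hex
    have hmin : ∀ m, m < Nat.find hex → ¬ (4 ≤ m ∧ m + 2 ≤ r ∧ a m = 1) :=
      fun m hm => Nat.find_min hex hm
    generalize Nat.find hex = p at h4 hp hap hmin
    have hz : ∀ m, 3 ≤ m → m < p → a m = 0 := by
      intro m hm1 hm2
      have t := ba m
      rcases Nat.lt_or_ge m 4 with h | h
      · have : m = 3 := by omega
        subst this
        exact h3
      · have := hmin m hm2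
        by_contra hcon
        exact this ⟨h, by omega, by omega⟩
    rcases Nat.lt_or_ge p 5 with hp5 | hp5
    · have : p = 4 := by omega
      subst this
      have q := R.ln.m1 2 h2 hap
      norm_num at q
      have hb3 : b 3 = 0 := by omega
      have t3 := R.ln.bb' 3
      have n4 := R.n2 4 (by omega) (by omega)
      norm_num at n4
      have e3 : a' (3 + r) = 1 := by rw [R.ln.pa']; exact z3
      have e4 : a (3 + r + 1) = 1 := by
        rw [show 3 + r + 1 = 4 + r by omega, R.ln.pa]; exact hap
      have c1' : a' (r - 1) = 0 := by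
        have t := ba' (r - 1)
        by_contra hcon
        refine R.x2' hr (i := r - 1) (j := 3 + r) (by omega) (by omega) (by omega) ?_ e3 e4
        rw [show r - 1 + 3 = r + 2 by omega]
        omega
      have y2 := R.y (r - 2) (by omega) (by omega)
      rw [show r - 2 + 1 = r - 1 by omega] at y2
      have c2 : a (r - 2) = 1 := by omega
      have n3 := R.n2 (r - 3) (by omega) (by omega)
      have y3 := R.y (r - 3) (by omega) (by omega)
      rw [show r - 3 + 1 = r - 2 by omega] at n3 y3
      have hb := R.two 3 r (by omega) (by omega)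
      refine R.o4 hr (c := r - 2) c2 ?_ ?_ (by omega) ?_ ?_ ?_
      · rw [show r - 2 + 2 = r by omega]; omega
      · rw [show r - 2 + 4 = r + 2 by omega]; omega
      · rw [show r - 2 + 2 = r by omega]; omega
      · rw [show r - 2 + 4 = r + 2 by omega]; omega
      · rw [show r - 2 + 2 = r by omega]; omega
    · have hap' : a' (p - 3) = 1 := by
        rcases Nat.lt_or_ge p 8 with h | h
        · have : p = 5 ∨ p = 6 ∨ p = 7 := by omega
          rcases this with h | h | h <;> subst h <;> assumption
        · have y := R.y (p - 4) (by omega) (by omega)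
          have := hz (p - 4) (by omega) (by omega)
          rw [show p - 4 + 1 = p - 3 by omega] at y
          omega
      obtain ⟨st, c1', c1, c2, c3, c2'⟩ := R.last hr h4 hp hap hap'
      by_cases hb : 2 ≤ b r + b' r
      · refine R.o4 hr (c := r - 2) c2 ?_ ?_ c2' ?_ ?_ ?_
        · rw [show r - 2 + 2 = r by omega]; omega
        · rw [show r - 2 + 4 = r + 2 by omega]; omega
        · rw [show r - 2 + 2 = r by omega]; omega
        · rw [show r - 2 + 4 = r + 2 by omega]; omega
        · rw [show r - 2 + 2 = r by omega]; omega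
      · have h1b := R.one r
        have t3' := ba' (r - 3)
        rcases Nat.eq_zero_or_pos (a' (r - 3)) with g | g
        · obtain ⟨h8, d4, d5, d4'⟩ := R.back hr h3 g
          have hb2 := R.two (r - 2) r (by omega) (by omega)
          refine R.o4 hr (c := r - 4) d4 ?_ ?_ d4' ?_ ?_ ?_
          · rw [show r - 4 + 2 = r - 2 by omega]; omega
          · rw [show r - 4 + 4 = r by omega]; omega
          · rw [show r - 4 + 2 = r - 2 by omega]; omega
          · rw [show r - 4 + 4 = r by omega]; omega
          · rw [show r - 4 + 2 = r - 2 by omega]; omega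
        · have hpr : p = r - 2 := by
            by_contra hcon
            refine st (r - 3) (by omega) (by omega) (by omega) ?_
            rw [show r - 3 + 1 = r - 2 by omega]
            exact c2
          subst hpr
          refine Or.inr (Or.inr (Or.inr (Or.inl ⟨r - 2, fun j hj => ?_, ?_⟩)))
          · have key : j = 0 ∨ j = 1 ∨ j = 2 ∨ j = 3 ∨ j = 4 ∨ 5 ≤ j := by omega
            rcases key with h | h | h | h | h | h
            · subst h
              exact ⟨⟨fun _ => Or.inl rfl, fun _ => c2⟩, ⟨fun _ => by omega, fun _ => c2'⟩⟩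
            · subst h
              rw [show r - 2 + 1 = r - 1 by omega]
              omega
            · subst h
              rw [show r - 2 + 2 = r by omega]
              omega
            · subst h
              rw [show r - 2 + 3 = 1 + r by omega, R.ln.pa, R.ln.pa']
              omega
            · subst h
              rw [show r - 2 + 4 = 2 + r by omega, R.ln.pa, R.ln.pa']
              omega
            · rw [show r - 2 + j = (j - 2) + r by omega, R.ln.pa, R.ln.pa']
              have g1 := hz (j - 2) (by omega) (by omega)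
              have g2 : a' (j - 2) = 1 := by
                rcases Nat.lt_or_ge j 6 with h | h
                · have : j = 5 := by omega
                  subst this
                  exact z3
                · have y := R.y (j - 3) (by omega) (by omega)
                  have := hz (j - 3) (by omega) (by omega)
                  rw [show j - 3 + 1 = j - 2 by omega] at y
                  omega
              omega
          · rw [show r - 2 + 2 = r by omega]
            omega
  · push Not at hex
    have hz : ∀ m, 3 ≤ m → m + 2 ≤ r → a m = 0 := by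
      intro m hm1 hm2
      have t := ba m
      rcases Nat.lt_or_ge m 4 with h | h
      · have : m = 3 := by omega
        subst this
        exact h3
      · have := hex m h hm2
        omega
    have n1 := R.n2 (r - 1) (by omega) (by omega)
    rw [show r - 1 + 1 = r by omega] at n1
    have hz1 : ∀ m, 3 ≤ m → m < r → a m = 0 := by
      intro m hm1 hm2
      rcases Nat.lt_or_ge (m + 1) r with h | h
      · exact hz m hm1 (by omega)
      · rw [show m = r - 1 by omega]
        omega
    refine Or.inr (Or.inr (Or.inl ⟨0, fun j hj => ?_⟩))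
    rw [Nat.zero_add]
    have key : j = 0 ∨ j = 1 ∨ j = 2 ∨ j = 3 ∨ 4 ≤ j := by omega
    rcases key with h | h | h | h | h
    · subst h
      omega
    · subst h
      omega
    · subst h
      omega
    · subst h
      omega
    · have g1 := hz1 j (by omega) hj
      have g0 := hz1 (j - 1) (by omega) (by omega)
      have y := R.y (j - 1) (by omega) (by omega)
      rw [show j - 1 + 1 = j by omega] at y
      omega

/-- the case `a 3 = 0`, second alternative -/
theorem Rig97.caseQ (h3 : a 3 = 0) (h1 : a 1 = 0) (h1' : a' 1 = 1) (h2 : a 2 = 0)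
    (h2' : a' 2 = 1) : OutN97 r a b b' a' := by
  have ba := R.ln.ba
  have ba' := R.ln.ba'
  have y3 := R.y 3 (by omega) (by omega)
  have z3 := R.z3
  have z0 := R.z0
  have z0' := R.z0'
  norm_num at y3
  have c4' : a' 4 = 1 := by omega
  have p0 := R.per hr 0
  have p1 := R.per hr 1
  have p2 := R.per hr 2
  rw [Nat.zero_add] at p0
  rw [Nat.add_comm 1 r] at p1
  rw [Nat.add_comm 2 r] at p2
  by_cases hex : ∃ j, 4 ≤ j ∧ j + 2 ≤ r ∧ a j = 1
  · classical
    obtain ⟨h4, hp, hap⟩ := Nat.find_spec hex
    have hmin : ∀ m, m < Nat.find hex → ¬ (4 ≤ m ∧ m + 2 ≤ r ∧ a m = 1) :=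
      fun m hm => Nat.find_min hex hm
    generalize Nat.find hex = p at h4 hp hap hmin
    have hz : ∀ m, 1 ≤ m → m < p → a m = 0 := by
      intro m hm1 hm2
      have t := ba m
      rcases Nat.lt_or_ge m 4 with h | h
      · have : m = 1 ∨ m = 2 ∨ m = 3 := by omega
        rcases this with h | h | h <;> subst h <;> assumption
      · have := hmin m hm2
        by_contra hcon
        exact this ⟨h, by omega, by omega⟩
    have hap' : a' (p - 3) = 1 := by
      rcases Nat.lt_or_ge p 8 with h | h
      · have : p = 4 ∨ p = 5 ∨ p = 6 ∨ p = 7 := by omega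
        rcases this with h | h | h | h <;> subst h <;> assumption
      · have y := R.y (p - 4) (by omega) (by omega)
        have := hz (p - 4) (by omega) (by omega)
        rw [show p - 4 + 1 = p - 3 by omega] at y
        omega
    obtain ⟨st, c1', c1, c2, c3, c2'⟩ := R.last hr h4 hp hap hap'
    have hz' : ∀ m, 1 ≤ m → m ≤ p → a' m = 1 := by
      intro m hm1 hm2
      rcases Nat.lt_or_ge m 5 with h | h
      · have : m = 1 ∨ m = 2 ∨ m = 3 ∨ m = 4 := by omega
        rcases this with h | h | h | h <;> subst h <;> assumption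
      · have y := R.y (m - 1) (by omega) (by omega)
        have := hz (m - 1) (by omega) (by omega)
        rw [show m - 1 + 1 = m by omega] at y
        omega
    have t3' := ba' (r - 3)
    rcases Nat.eq_zero_or_pos (a' (r - 3)) with g | g
    · obtain ⟨h8, d4, d5, d4'⟩ := R.back hr h3 g
      by_cases hb : 2 ≤ b (r - 2) + b' (r - 2)
      · refine R.o4 hr (c := r - 4) d4 ?_ ?_ d4' ?_ ?_ ?_
        · rw [show r - 4 + 2 = r - 2 by omega]; omega
        · rw [show r - 4 + 4 = r by omega]; omega
        · rw [show r - 4 + 2 = r - 2 by omega]; omega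
        · rw [show r - 4 + 4 = r by omega]; omega
        · rw [show r - 4 + 2 = r - 2 by omega]; omega
      · have h1b := R.one (r - 2)
        have t5' := ba' (r - 5)
        rcases Nat.eq_zero_or_pos (a' (r - 5)) with g5 | g5
        · have h10 : 10 ≤ r := by
            by_contra hcon
            have : r = 8 ∨ r = 9 := by omega
            rcases this with h | h <;> subst h <;> norm_num at g5 <;> omega
          have y6 := R.y (r - 6) (by omega) (by omega)
          rw [show r - 6 + 1 = r - 5 by omega] at y6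
          have n7 := R.n2 (r - 7) (by omega) (by omega)
          have y7 := R.y (r - 7) (by omega) (by omega)
          rw [show r - 7 + 1 = r - 6 by omega] at n7 y7
          have hb2 := R.two (r - 4) (r - 2) (by omega) (by omega)
          refine R.o4 hr (c := r - 6) (by omega) ?_ ?_ (by omega) ?_ ?_ ?_
          · rw [show r - 6 + 2 = r - 4 by omega]; omega
          · rw [show r - 6 + 4 = r - 2 by omega]; omega
          · rw [show r - 6 + 2 = r - 4 by omega]; omega
          · rw [show r - 6 + 4 = r - 2 by omega]; omega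
          · rw [show r - 6 + 2 = r - 4 by omega]; omega
        · have hle : p ≤ r - 4 := by
            by_contra hcon
            have := hz (r - 4) (by omega) (by omega)
            omega
          have hpr : p = r - 4 := by
            by_contra hcon
            refine st (r - 5) (by omega) (by omega) (by omega) ?_
            rw [show r - 5 + 1 = r - 4 by omega]
            exact d4
          subst hpr
          refine Or.inr (Or.inr (Or.inr (Or.inl ⟨r - 4, fun j hj => ?_, ?_⟩)))
          · have key : j = 0 ∨ j = 1 ∨ j = 2 ∨ j = 3 ∨ j = 4 ∨ 5 ≤ j := by omega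
            rcases key with h | h | h | h | h | h
            · subst h
              exact ⟨⟨fun _ => Or.inl rfl, fun _ => d4⟩, ⟨fun _ => by omega, fun _ => d4'⟩⟩
            · subst h
              rw [show r - 4 + 1 = r - 3 by omega]
              omega
            · subst h
              rw [show r - 4 + 2 = r - 2 by omega]
              omega
            · subst h
              rw [show r - 4 + 3 = r - 1 by omega]
              omega
            · subst h
              rw [show r - 4 + 4 = r by omega]
              omega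
            · rw [show r - 4 + j = (j - 4) + r by omega, R.ln.pa, R.ln.pa']
              have g1 := hz (j - 4) (by omega) (by omega)
              have g2 := hz' (j - 4) (by omega) (by omega)
              omega
          · rw [show r - 4 + 2 = r - 2 by omega]
            omega
    · have hpr : p = r - 2 := by
        by_contra hcon
        refine st (r - 3) (by omega) (by omega) (by omega) ?_
        rw [show r - 3 + 1 = r - 2 by omega]
        exact c2
      subst hpr
      refine Or.inr (Or.inr (Or.inl ⟨r - 2, fun j hj => ?_⟩))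
      have key : j = 0 ∨ j = 1 ∨ j = 2 ∨ 3 ≤ j := by omega
      rcases key with h | h | h | h
      · subst h
        exact ⟨⟨fun _ => Or.inl rfl, fun _ => c2⟩, ⟨fun _ => by omega, fun _ => c2'⟩⟩
      · subst h
        rw [show r - 2 + 1 = r - 1 by omega]
        omega
      · subst h
        rw [show r - 2 + 2 = r by omega]
        omega
      · rw [show r - 2 + j = (j - 2) + r by omega, R.ln.pa, R.ln.pa']
        have g1 := hz (j - 2) (by omega) (by omega)
        have g2 := hz' (j - 2) (by omega) (by omega)
        omega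
  · push Not at hex
    have hz : ∀ m, 1 ≤ m → m + 2 ≤ r → a m = 0 := by
      intro m hm1 hm2
      have t := ba m
      rcases Nat.lt_or_ge m 4 with h | h
      · have : m = 1 ∨ m = 2 ∨ m = 3 := by omega
        rcases this with h | h | h <;> subst h <;> assumption
      · have := hex m h hm2
        omega
    have n1 := R.n2 (r - 1) (by omega) (by omega)
    rw [show r - 1 + 1 = r by omega] at n1
    have hz1 : ∀ m, 1 ≤ m → m < r → a m = 0 := by
      intro m hm1 hm2
      rcases Nat.lt_or_ge (m + 1) r with h | h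
      · exact hz m hm1 (by omega)
      · rw [show m = r - 1 by omega]
        omega
    have hz' : ∀ m, 1 ≤ m → m < r → a' m = 1 := by
      intro m hm1 hm2
      rcases Nat.lt_or_ge m 5 with h | h
      · have : m = 1 ∨ m = 2 ∨ m = 3 ∨ m = 4 := by omega
        rcases this with h | h | h | h <;> subst h <;> assumption
      · have y := R.y (m - 1) (by omega) (by omega)
        have := hz1 (m - 1) (by omega) (by omega)
        rw [show m - 1 + 1 = m by omega] at y
        omega
    refine Or.inr (Or.inl ⟨0, fun j hj => ?_, ?_⟩)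
    · rw [Nat.zero_add]
      rcases Nat.eq_zero_or_pos j with h | h
      · subst h
        omega
      · have g1 := hz1 j (by omega) hj
        have g2 := hz' j (by omega) hj
        omega
    · have q := R.ln.m1' (r - 1) (hz' (r - 1) (by omega) (by omega)) (by
        rw [show r - 1 + 2 = r + 1 by omega]
        omega)
      rw [show r - 1 + 1 = r by omega] at q
      omega

theorem rigid97 : OutN97 r a b b' a' := by
  have ba := R.ln.ba
  have ba' := R.ln.ba'
  have t3 := ba 3
  have z0 := R.z0
  have z0' := R.z0'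
  rcases Nat.eq_zero_or_pos (a 3) with h3 | h3
  · rcases R.alt with ⟨g1, g2, g3, g4⟩ | ⟨g1, g2, g3, g4⟩
    · exact R.caseP hr h3 g1 g2 g3 g4
    · rcases Nat.eq_zero_or_pos (a 2) with h2 | h2
      · have q := R.ln.m1' 0 z0' (show a' 2 = 1 by omega)
        norm_num at q
        exact R.caseQ hr h3 (by omega) (by omega) h2 (by omega)
      · have t2 := ba 2
        have q := R.ln.m1 0 z0 (show a 2 = 1 by omega)
        norm_num at q
        exact (R.noQ hr h3 (by omega) (by omega)).elim
  · exact R.caseA hr (by omega)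

end

end Pool.Agent.P0
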