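import Pool.Agent.P0.Ends49
import Pool.Agent.P0.Arcs9

set_option linter.all false

/-!
# P0 / I5: extremal pairs (cycle, path), basic facts
-/

namespace Pool.Agent.P0

open Pool.Agent.Helper14.LongCyc Pool.Agent.LCK Pool.Agent.FRC

universe u

variable {V : Type u} {G : SimpleGraph V}

/-- a long cycle `C` and a path `l` with at least `r` vertices outside `C` -/
structure Pair9 [DecidableEq V] (G : SimpleGraph V) (U C : Finset V) (r : ℕ) (a b : V)
    (l : List V) : Prop where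
  cyc : CycSet G C
  sub : C ⊆ U
  len : r ≤ C.card
  path : Pth G a b l
  mem : ∀ z ∈ l, z ∈ U \ C
  big : r ≤ l.length

/-- the extremal values: `L` is the least cycle length of a pair, `m` the largest path order of
a pair with cycle length `L`, and `A` bounds the degree sum of the ends of such pairs -/
structure Ext9 [DecidableEq V] (G : SimpleGraph V) (U : Finset V) (r L m A : ℕ) : Prop where
  two : ¬ Two49 G r U
  minL : ∀ C a b l, Pair9 G U C r a b l → L ≤ C.card
  maxm : ∀ C a b l, Pair9 G U C r a b l → C.card = L → l.length ≤ m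
  maxs : ∀ C a b l, Pair9 G U C r a b l → C.card = L → l.length = m →
    dg G (U \ C) a + dg G (U \ C) b ≤ A

/-- a cycle with `L` vertices and a path with `m` vertices, given as a sequence, outside it -/
structure PV9 [DecidableEq V] (G : SimpleGraph V) (U C : Finset V) (L m : ℕ) (v : ℕ → V) :
    Prop where
  cyc : CycSet G C
  sub : C ⊆ U
  card : C.card = L
  pa : Pa G (U \ C) m v

theorem exists_ext9 [DecidableEq V] {U : Finset V} {r : ℕ} (hr : 1 ≤ r) (htwo : ¬ Two49 G r U)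
    (hne : ∃ C a b l, Pair9 G U C r a b l) : ∃ L m A C v, Ext9 G U r L m A ∧ PV9 G U C L m v ∧
      r ≤ L ∧ r ≤ m ∧ dg G (U \ C) (v 0) + dg G (U \ C) (v (m - 1)) = A := by
  -- the cycle
  obtain ⟨C1, a1, b1, l1, h1⟩ := hne
  obtain ⟨⟨C2, a2, b2, l2⟩, h2, h2max⟩ := exists_max_nat (α := Finset V × V × V × List V)
    (fun w => Pair9 G U w.1 r w.2.1 w.2.2.1 w.2.2.2) (fun w => U.card - w.1.card) U.card
    (fun w _ => Nat.sub_le _ _) ⟨(C1, a1, b1, l1), h1⟩
  simp only at h2 h2max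
  have hcU : ∀ {C a b l}, Pair9 G U C r a b l → C.card ≤ U.card := fun h =>
    Finset.card_le_card h.sub
  have hlU : ∀ {C a b l}, Pair9 G U C r a b l → l.length ≤ U.card := fun h =>
    h.path.length_le fun z hz => (Finset.mem_sdiff.1 (h.mem z hz)).1
  obtain ⟨⟨C3, a3, b3, l3⟩, ⟨h3, h3c⟩, h3max⟩ := exists_max_nat (α := Finset V × V × V × List V)
    (fun w => Pair9 G U w.1 r w.2.1 w.2.2.1 w.2.2.2 ∧ w.1.card = C2.card)
    (fun w => w.2.2.2.length) U.card
    (fun w hw => hlU hw.1) ⟨(C2, a2, b2, l2), h2, rfl⟩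
  simp only at h3 h3c h3max
  obtain ⟨⟨C4, a4, b4, l4⟩, ⟨h4, h4c, h4l⟩, h4max⟩ := exists_max_nat
    (α := Finset V × V × V × List V)
    (fun w => Pair9 G U w.1 r w.2.1 w.2.2.1 w.2.2.2 ∧ w.1.card = C2.card ∧
      w.2.2.2.length = l3.length)
    (fun w => dg G (U \ w.1) w.2.1 + dg G (U \ w.1) w.2.2.1) (U.card + U.card)
    (fun w hw => by
      have e1 := dg_le (G := G) (U \ w.1) w.2.1
      have e2 := dg_le (G := G) (U \ w.1) w.2.2.1
      have e3 := Finset.card_le_card (Finset.sdiff_subset (s := U) (t := w.1))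
      omega) ⟨(C3, a3, b3, l3), h3, h3c, rfl⟩
  simp only at h4 h4c h4l h4max
  obtain ⟨v, p1, p2, p3, p4⟩ := pa_of_pth49 h4.path h4.mem
  refine ⟨C2.card, l3.length, dg G (U \ C4) a4 + dg G (U \ C4) b4, C4, v, ⟨htwo, ?_, ?_, ?_⟩,
    ⟨h4.cyc, h4.sub, h4c, ?_⟩, h2.len, h3.big, ?_⟩
  · intro C a b l h
    have e1 := h2max (C, a, b, l) h
    have e2 := hcU h
    have e3 := hcU h2
    simp only at e1
    omega
  · intro C a b l h hc
    exact h3max (C, a, b, l) ⟨h, hc⟩
  · intro C a b l h hc hl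
    exact h4max (C, a, b, l) ⟨h, hc, hl⟩
  · rw [← h4l]; exact p1
  · rw [← h4l, p2, p3]

section

variable [DecidableEq V] {U C : Finset V} {r L m A : ℕ} {v : ℕ → V}

theorem PV9.toPair (h : PV9 G U C L m v) (hr : 1 ≤ r) (hL : r ≤ L) (hm : r ≤ m) :
    Pair9 G U C r (v 0) (v (m - 1)) (seg v 0 (m - 1)) where
  cyc := h.cyc
  sub := h.sub
  len := by rw [h.card]; exact hL
  path := by
    have h1 := seg_pa49 h.pa (m - 1) 0 (by omega)
    rwa [Nat.zero_add] at h1
  mem := fun z hz => by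
    rw [mem_seg] at hz
    obtain ⟨j, _, h2, rfl⟩ := hz
    exact h.pa.mem j (by omega)
  big := by rw [seg_length]; omega

theorem PV9.rev (h : PV9 G U C L m v) : PV9 G U C L m (fun i => v (m - 1 - i)) :=
  ⟨h.cyc, h.sub, h.card, Pa.rev49 h.pa⟩

theorem Ext9.noLong (E : Ext9 G U r L m A) (h : PV9 G U C L m v) (hL : r ≤ L) :
    NoLong G r (U \ C) := by
  refine noLong_of fun D hD hDs => ?_
  by_contra hcon
  refine E.two ⟨C, D, h.cyc, hD, h.sub, hDs.trans Finset.sdiff_subset, by rw [h.card]; exact hL,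
    by omega, ?_⟩
  rw [Finset.disjoint_left]
  intro z hz hz'
  exact (Finset.mem_sdiff.1 (hDs hz')).2 hz

/-- the degree sum of the ends -/
theorem Ext9.sum (E : Ext9 G U r L m A) (h : PV9 G U C L m v) (hr : 1 ≤ r) (hL : r ≤ L)
    (hm : r ≤ m) : dg G (U \ C) (v 0) + dg G (U \ C) (v (m - 1)) ≤ A :=
  E.maxs C _ _ _ (h.toPair hr hL hm) h.card (by rw [seg_length]; omega)

/-- a vertex off the path is not adjacent to its first vertex -/
theorem Ext9.off (E : Ext9 G U r L m A) (h : PV9 G U C L m v) (hr : 1 ≤ r) (hL : r ≤ L)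
    (hm : r ≤ m) {z : V} (hz : z ∈ U \ C) (hzl : ∀ i, i < m → v i ≠ z) : ¬ G.Adj (v 0) z := by
  intro ha
  have h0 := h.toPair hr hL hm
  have h1 := h0.path.cons ha.symm (by
    rw [mem_seg]
    rintro ⟨j, _, h2, h3⟩
    exact hzl j (by omega) h3.symm)
  have h2 := E.maxm C _ _ _ ⟨h0.cyc, h0.sub, h0.len, h1, by
    intro y hy
    rcases List.mem_cons.1 hy with hy | hy
    · rw [hy]; exact hz
    · exact h0.mem y hy, by rw [List.length_cons]; have := h0.big; omega⟩ h.card
  rw [List.length_cons, seg_length] at h2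
  omega

/-- the neighbours of the first vertex are among the first `r - 1` vertices -/
theorem Ext9.nb (E : Ext9 G U r L m A) (h : PV9 G U C L m v) (hr : 3 ≤ r) (hL : r ≤ L)
    (hm : r ≤ m) {z : V} (hz : z ∈ U \ C) (ha : G.Adj (v 0) z) :
    ∃ j, 1 ≤ j ∧ j + 1 < r ∧ j < m ∧ z = v j := by
  by_contra hcon
  refine E.off h (by omega) hL hm hz ?_ ha
  rintro j hj rfl
  refine hcon ⟨j, ?_, Pa.cyc h.pa hr (E.noLong h hL) hj ha, hj, rfl⟩
  rcases Nat.eq_zero_or_pos j with h1 | h1
  · exact absurd ha (by rw [h1]; exact G.loopless.irrefl _)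
  · exact h1

/-- rotation -/
theorem PV9.rot (h : PV9 G U C L m v) {j : ℕ} (hj : 1 ≤ j) (hjm : j < m)
    (ha : G.Adj (v 0) (v j)) : ∃ w, PV9 G U C L m w ∧ w 0 = v (j - 1) ∧ w (m - 1) = v (m - 1) := by
  classical
  have hlst : Lst ((Finset.range m).image v) m v := by
    refine ⟨fun i hi => Finset.mem_image.2 ⟨i, Finset.mem_range.2 hi, rfl⟩, h.pa.inj, ?_⟩
    intro x hx
    obtain ⟨i, hi, hix⟩ := Finset.mem_image.1 hx
    exact ⟨i, Finset.mem_range.1 hi, hix⟩
  obtain ⟨w, w1, w2, w3, w4⟩ := St.rot (G := G) hlst h.pa.ch hj hjm ha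
  refine ⟨w, ⟨h.cyc, h.sub, h.card, ⟨?_, w1.inj, w2⟩⟩, w3, w4⟩
  intro i hi
  obtain ⟨i', hi', he⟩ := Finset.mem_image.1 (w1.mem i hi)
  rw [← he]
  exact h.pa.mem i' (Finset.mem_range.1 hi')

/-- the cycle of a crossing -/
theorem Ext9.gap (E : Ext9 G U r L m A) (h : PV9 G U C L m v) (hr : 3 ≤ r) (hL : r ≤ L)
    (hm : r ≤ m) {i j : ℕ} (hij : i < j) (hj : j < m) (hi : G.Adj (v (m - 1)) (v i))
    (hja : G.Adj (v 0) (v j)) : i + 1 + (m - j) < r := by
  have hno := E.noLong h hL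
  by_contra hcon
  have hi1 : i ≠ 0 := by
    rintro rfl
    have := Pa.cyc h.pa hr hno (m := m - 1) (by omega) hi.symm
    omega
  have s1 := seg_pa49 h.pa i 0 (by omega)
  have s2 := seg_pa49 h.pa (m - 1 - j) j (by omega)
  rw [Nat.zero_add] at s1
  rw [show j + (m - 1 - j) = m - 1 by omega] at s2
  have s3 := s1.append s2.reverse hi.symm (by
    intro x hx hx'
    rw [List.mem_reverse, mem_seg] at hx'
    obtain ⟨t, t1, t2, rfl⟩ := hx'
    rw [mem_seg] at hx
    obtain ⟨t', _, t4, t5⟩ := hx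
    have := h.pa.inj t t' (by omega) (by omega) t5
    omega)
  have s4 : Cyc G (seg v 0 i ++ (seg v j (m - 1 - j)).reverse) := by
    refine ⟨?_, _, _, s3, hja.symm⟩
    rw [List.length_append, List.length_reverse, seg_length, seg_length]
    omega
  have s5 := hno _ s4 (by
    intro x hx
    rcases List.mem_append.1 hx with hx | hx
    · rw [mem_seg] at hx
      obtain ⟨t', _, t4, rfl⟩ := hx
      exact h.pa.mem t' (by omega)
    · rw [List.mem_reverse, mem_seg] at hx
      obtain ⟨t', _, t4, rfl⟩ := hx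
      exact h.pa.mem t' (by omega))
  rw [List.length_append, List.length_reverse, seg_length, seg_length] at s5
  omega

/-- the number of neighbours of the first vertex, by positions -/
theorem Ext9.cntL (E : Ext9 G U r L m A) (h : PV9 G U C L m v) (hr : 3 ≤ r) (hL : r ≤ L)
    (hm : r ≤ m) [DecidablePred fun j => 1 ≤ j ∧ G.Adj (v 0) (v j)] :
    dg G (U \ C) (v 0) ≤ ((Finset.range m).filter fun j => 1 ≤ j ∧ G.Adj (v 0) (v j)).card := by
  refine (dg_le49 (S := (((Finset.range m).filter fun j => 1 ≤ j ∧ G.Adj (v 0) (v j))).image v)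
    ?_).trans Finset.card_image_le
  intro y hy hya
  obtain ⟨j, j1, j2, j3, rfl⟩ := E.nb h hr hL hm hy hya
  exact Finset.mem_image.2 ⟨j, Finset.mem_filter.2 ⟨Finset.mem_range.2 (by omega), j1, hya⟩, rfl⟩

theorem Ext9.cntR (E : Ext9 G U r L m A) (h : PV9 G U C L m v) (hr : 3 ≤ r) (hL : r ≤ L)
    (hm : r ≤ m) [DecidablePred fun j => G.Adj (v (m - 1)) (v j)] :
    dg G (U \ C) (v (m - 1)) ≤
      ((Finset.range (m - 1)).filter fun j => G.Adj (v (m - 1)) (v j)).card := by
  refine (dg_le49 (S := (((Finset.range (m - 1)).filter fun j =>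
    G.Adj (v (m - 1)) (v j))).image v) ?_).trans Finset.card_image_le
  intro y hy hya
  obtain ⟨j, j1, j2, j3, j4⟩ := E.nb h.rev hr hL hm hy (by simpa using hya)
  subst j4
  exact Finset.mem_image.2 ⟨m - 1 - j, Finset.mem_filter.2 ⟨Finset.mem_range.2 (by omega), hya⟩,
    rfl⟩

/-- the path is open: the degree sum of its ends is at most `m - 1` -/
theorem Ext9.open (E : Ext9 G U r L m A) (h : PV9 G U C L m v) (hr : 3 ≤ r) (hL : r ≤ L)
    (hm : r ≤ m) : dg G (U \ C) (v 0) + dg G (U \ C) (v (m - 1)) + 1 ≤ m := by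
  classical
  set X := (Finset.range m).filter (fun j => 1 ≤ j ∧ G.Adj (v 0) (v j)) with hX
  set Y := (Finset.range (m - 1)).filter (fun j => G.Adj (v (m - 1)) (v j)) with hY
  have d1 : dg G (U \ C) (v 0) ≤ X.card := E.cntL h hr hL hm
  have d2 : dg G (U \ C) (v (m - 1)) ≤ Y.card := E.cntR h hr hL hm
  have d3 : (X.image (fun j => j - 1)).card = X.card := by
    refine Finset.card_image_of_injOn fun i hi j hj hij => ?_
    have h1 := (Finset.mem_filter.1 (Finset.mem_coe.1 hi)).2.1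
    have h2 := (Finset.mem_filter.1 (Finset.mem_coe.1 hj)).2.1
    change i - 1 = j - 1 at hij
    omega
  have d4 : Disjoint (X.image (fun j => j - 1)) Y := by
    rw [Finset.disjoint_left]
    intro i hi hiB
    obtain ⟨j, hj, rfl⟩ := Finset.mem_image.1 hi
    obtain ⟨j0', j1, j2⟩ := Finset.mem_filter.1 hj
    obtain ⟨b0, b1⟩ := Finset.mem_filter.1 hiB
    rw [Finset.mem_range] at j0'
    have := E.gap h hr hL hm (i := j - 1) (j := j) (by omega) (by omega) b1 j2
    omega
  have d5 : (X.image (fun j => j - 1) ∪ Y) ⊆ Finset.range (m - 1) := by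
    intro t ht
    rw [Finset.mem_range]
    rcases Finset.mem_union.1 ht with ht | ht
    · obtain ⟨j, hj, rfl⟩ := Finset.mem_image.1 ht
      obtain ⟨j0', j1, j2⟩ := Finset.mem_filter.1 hj
      rw [Finset.mem_range] at j0'
      omega
    · exact Finset.mem_range.1 (Finset.mem_filter.1 ht).1
  have d6 := Finset.card_le_card d5
  rw [Finset.card_union_of_disjoint d4, d3, Finset.card_range] at d6
  omega

/-- **no crossing** -/
theorem Ext9.no_cross (E : Ext9 G U r L m A) (h : PV9 G U C L m v) (hr : 3 ≤ r) (hL : r ≤ L)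
    (hm : r ≤ m) (hsum : r ≤ dg G (U \ C) (v 0) + dg G (U \ C) (v (m - 1))) {i j : ℕ}
    (hij : i < j) (hj : j < m) (hi : G.Adj (v (m - 1)) (v i)) (hja : G.Adj (v 0) (v j)) :
    False := by
  classical
  obtain ⟨⟨i0, j0⟩, ⟨p1, p2, p3, p4⟩, pmin⟩ := exists_max_nat (α := ℕ × ℕ)
    (fun w => w.1 < w.2 ∧ w.2 < m ∧ G.Adj (v (m - 1)) (v w.1) ∧ G.Adj (v 0) (v w.2))
    (fun w => m - (w.2 - w.1)) m (fun w hw => Nat.sub_le _ _) ⟨(i, j), hij, hj, hi, hja⟩
  simp only at p1 p2 p3 p4 pmin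
  have hmin : ∀ i j, i < j → j < m → G.Adj (v (m - 1)) (v i) → G.Adj (v 0) (v j) →
      j0 - i0 ≤ j - i := by
    intro i j h1 h2 h3 h4
    have := pmin (i, j) ⟨h1, h2, h3, h4⟩
    simp only at this
    omega
  have hc0 := E.gap h hr hL hm p1 p2 p3 p4
  set X := (Finset.range m).filter (fun j => 1 ≤ j ∧ G.Adj (v 0) (v j)) with hX
  set Y := (Finset.range (m - 1)).filter (fun j => G.Adj (v (m - 1)) (v j)) with hY
  have d1 : dg G (U \ C) (v 0) ≤ X.card := E.cntL h hr hL hm
  have d2 : dg G (U \ C) (v (m - 1)) ≤ Y.card := E.cntR h hr hL hm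
  have d3 : (X.image (fun j => j - 1)).card = X.card := by
    refine Finset.card_image_of_injOn fun i hi j hj hij => ?_
    have h1 := (Finset.mem_filter.1 (Finset.mem_coe.1 hi)).2.1
    have h2 := (Finset.mem_filter.1 (Finset.mem_coe.1 hj)).2.1
    change i - 1 = j - 1 at hij
    omega
  have d4 : Disjoint (X.image (fun j => j - 1)) Y := by
    rw [Finset.disjoint_left]
    intro i hi hiB
    obtain ⟨j, hj, rfl⟩ := Finset.mem_image.1 hi
    obtain ⟨j0', j1, j2⟩ := Finset.mem_filter.1 hj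
    obtain ⟨b0, b1⟩ := Finset.mem_filter.1 hiB
    rw [Finset.mem_range] at j0'
    have := E.gap h hr hL hm (i := j - 1) (j := j) (by omega) (by omega) b1 j2
    omega
  have d5 : (X.image (fun j => j - 1) ∪ Y) ⊆
      (Finset.range (m - 1)) \ (Finset.Ico (i0 + 1) (j0 - 1)) := by
    intro t ht
    rw [Finset.mem_sdiff, Finset.mem_range, Finset.mem_Ico]
    rcases Finset.mem_union.1 ht with ht | ht
    · obtain ⟨j, hj, rfl⟩ := Finset.mem_image.1 ht
      obtain ⟨j0', j1, j2⟩ := Finset.mem_filter.1 hj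
      rw [Finset.mem_range] at j0'
      refine ⟨by omega, fun hh => ?_⟩
      have := hmin i0 j (by omega) (by omega) p3 j2
      omega
    · obtain ⟨b0, b1⟩ := Finset.mem_filter.1 ht
      rw [Finset.mem_range] at b0
      refine ⟨b0, fun hh => ?_⟩
      have := hmin t j0 (by omega) (by omega) b1 p4
      omega
  have d6 := Finset.card_le_card d5
  rw [Finset.card_union_of_disjoint d4, d3] at d6
  have d7 : ((Finset.range (m - 1)) \ (Finset.Ico (i0 + 1) (j0 - 1))).card
      = m - 1 - (j0 - 1 - (i0 + 1)) := by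
    rw [Finset.card_sdiff_of_subset, Finset.card_range, Nat.card_Ico]
    intro t ht
    rw [Finset.mem_Ico] at ht
    exact Finset.mem_range.2 (by omega)
  rw [d7] at d6
  omega

end

end Pool.Agent.P0
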