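import Pool.Agent.P0.Two9A

set_option linter.all false

/-!
# P0 / I5: a pair exists in an edge-maximal counterexample
-/

namespace Pool.Agent.P0

open Pool.Agent.Helper14.LongCyc Pool.Agent.LCK Pool.Agent.FRC

universe u

variable {V : Type u}

/-- a cycle of the graph with one more edge is a cycle, or a path between the ends of the edge -/
theorem conv9 [DecidableEq V] {G G' : SimpleGraph V} {x y : V}
    (hG : ∀ a b, G'.Adj a b → G.Adj a b ∨ (a = x ∧ b = y) ∨ (a = y ∧ b = x)) {D : Finset V}
    (hD : CycSet G' D) : CycSet G D ∨ ∃ l, Pth G x y l ∧ ∀ z, z ∈ l ↔ z ∈ D := by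
  obtain ⟨c, hc, hs⟩ := hD
  have hL := hc.1
  have hp : 0 < c.length := by omega
  -- a shifted parametrisation without the new edge
  have key : ∀ i : ℕ, (∀ t, t + 1 < c.length → G.Adj (cf c hp (i + t)) (cf c hp (i + (t + 1)))) →
      ∃ l, Pth G (cf c hp i) (cf c hp (i + (c.length - 1))) l ∧ ∀ z, z ∈ l ↔ z ∈ D := by
    intro i hi
    have hpa : Pa G D c.length (fun t => cf c hp (i + t)) := by
      refine ⟨fun t _ => (hs _).1 (cf_mem hp _), fun s t hs' ht hst => ?_, fun t ht => hi t ht⟩
      rcases Nat.lt_trichotomy s t with h | h | h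
      · exact absurd hst (far49 hc hp i (by omega) (by omega))
      · exact h
      · exact absurd hst.symm (far49 hc hp i (by omega) (by omega))
    have h1 := seg_pa49 hpa (c.length - 1) 0 (by omega)
    simp only [Nat.zero_add, Nat.add_zero] at h1
    refine ⟨_, h1, fun z => ?_⟩
    rw [mem_seg]
    constructor
    · rintro ⟨j, _, _, rfl⟩
      exact (hs _).1 (cf_mem hp _)
    · intro hz
      obtain ⟨j, hj, rfl⟩ := exists_cf hp ((hs z).2 hz)
      -- position `j` is `i + t` modulo the length
      have h2 := Nat.mod_lt i hp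
      refine ⟨(j + (c.length - i % c.length)) % c.length, Nat.zero_le _, ?_, ?_⟩
      · have := Nat.mod_lt (j + (c.length - i % c.length)) hp
        omega
      · show cf c hp j = cf c hp (i + (j + (c.length - i % c.length)) % c.length)
        apply cf_congr
        rw [Nat.add_mod_mod]
        have h3 : i = c.length * (i / c.length) + i % c.length := (Nat.div_add_mod i _).symm
        have h4 : i + (j + (c.length - i % c.length)) = j + c.length * (i / c.length + 1) := by
          rw [Nat.mul_add, Nat.mul_one]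
          omega
        rw [h4, Nat.add_mul_mod_self_left]
  by_cases h : ∀ i, G.Adj (cf c hp i) (cf c hp (i + 1))
  · left
    obtain ⟨l, h1, h2⟩ := key 0 (fun t _ => by simpa using h t)
    have h3 : l.length = c.length := by
      rw [← card_of_list h1.1 h2, card_of_list (Cyc.nodup hc) hs]
    refine ⟨l, ⟨by omega, _, _, h1, ?_⟩, h2⟩
    have h4 := h (c.length - 1)
    have h5 : cf c hp (c.length - 1 + 1) = cf c hp 0 := by
      apply cf_congr
      rw [show c.length - 1 + 1 = c.length by omega, Nat.mod_self, Nat.zero_mod]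
    rw [h5] at h4
    rwa [Nat.zero_add]
  · right
    push Not at h
    obtain ⟨i, hi⟩ := h
    have hxy : (cf c hp i = x ∧ cf c hp (i + 1) = y) ∨ (cf c hp i = y ∧ cf c hp (i + 1) = x) := by
      rcases hG _ _ (cf_adj hc hp i) with h1 | h1
      · exact absurd h1 hi
      · exact h1
    obtain ⟨l, h1, h2⟩ := key (i + 1) (by
      intro t ht
      rcases hG _ _ (cf_adj hc hp (i + 1 + t)) with h1 | h1
      · exact h1
      · exfalso
        have f1 : cf c hp (i + 1 + t) ≠ cf c hp i := by
          have := far49 hc hp i (s := 0) (t := 1 + t) (by omega) (by omega)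
          rw [show i + 1 + t = i + (1 + t) by omega]
          exact this.symm
        have f2 : cf c hp (i + 1 + t + 1) ≠ cf c hp (i + 1) := by
          have := far49 hc hp (i + 1) (s := 0) (t := t + 1) (by omega) (by omega)
          exact this.symm
        have f3 : t ≠ 0 ∨ cf c hp (i + 1 + t + 1) ≠ cf c hp i := by
          by_cases ht0 : t = 0
          · right
            subst ht0
            exact (far49 hc hp i (s := 0) (t := 2) (by omega) (by omega)).symm
          · exact Or.inl ht0
        have f4 : t = 0 ∨ cf c hp (i + 1 + t) ≠ cf c hp (i + 1) := by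
          by_cases ht0 : t = 0
          · exact Or.inl ht0
          · right
            exact (far49 hc hp (i + 1) (s := 0) (t := t) (by omega) (by omega)).symm
        rcases hxy with ⟨e1, e2⟩ | ⟨e1, e2⟩ <;> rcases h1 with ⟨e3, e4⟩ | ⟨e3, e4⟩
        · exact f1 (e3.trans e1.symm)
        · rcases f4 with h | h
          · rcases f3 with h' | h'
            · exact h' h
            · exact h' (e4.trans e1.symm)
          · exact h (e3.trans e2.symm)
        · rcases f4 with h | h
          · rcases f3 with h' | h'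
            · exact h' h
            · exact h' (e4.trans e1.symm)
          · exact h (e3.trans e2.symm)
        · exact f1 (e3.trans e1.symm))
    have e5 : cf c hp (i + 1 + (c.length - 1)) = cf c hp i := by
      apply cf_congr
      rw [show i + 1 + (c.length - 1) = i + c.length by omega, Nat.add_mod_right]
    rw [e5] at h1
    rcases hxy with ⟨e1, e2⟩ | ⟨e1, e2⟩
    · rw [e1, e2] at h1
      exact ⟨l.reverse, h1.reverse, fun z => by rw [List.mem_reverse]; exact h2 z⟩
    · rw [e1, e2] at h1
      exact ⟨l, h1, h2⟩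

/-- a complete set with at least three vertices is the vertex set of a cycle -/
theorem complete_cyc9 [DecidableEq V] {G : SimpleGraph V} {S : Finset V}
    (h : ∀ x ∈ S, ∀ y ∈ S, x ≠ y → G.Adj x y) (h3 : 3 ≤ S.card) : CycSet G S := by
  have hn : S.toList.Nodup := S.nodup_toList
  have hm : ∀ x, x ∈ S.toList ↔ x ∈ S := fun x => Finset.mem_toList
  have hl : S.toList.length = S.card := Finset.length_toList S
  refine ⟨S.toList, ?_, hm⟩
  have hch : S.toList.IsChain G.Adj := by
    refine List.Pairwise.isChain ?_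
    refine List.Pairwise.imp_of_mem ?_ hn
    intro a b ha hb hab
    exact h a ((hm a).1 ha) b ((hm b).1 hb) hab
  obtain ⟨a, t, hat⟩ : ∃ a t, S.toList = a :: t := by
    cases hS : S.toList with
    | nil => rw [hS] at hl; simp at hl; omega
    | cons a t => exact ⟨a, t, rfl⟩
  rw [hat] at hn hch hl ⊢
  have htne : t ≠ [] := by
    rintro rfl
    simp only [List.length_cons, List.length_nil] at hl
    omega
  refine ⟨by omega, a, t.getLast htne, ⟨hn, hch, rfl, ?_⟩, ?_⟩
  · rw [List.getLast?_cons, List.getLast?_eq_some_getLast htne]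
    rfl
  · have h1 : t.getLast htne ∈ t := List.getLast_mem htne
    have h2 : t.getLast htne ≠ a := by
      intro hh
      exact (List.nodup_cons.1 hn).1 (hh ▸ h1)
    refine h _ ((hm _).1 ?_) _ ((hm _).1 ?_) h2
    · rw [hat]; exact List.mem_cons_of_mem _ h1
    · rw [hat]; exact List.mem_cons_self

/-- **an edge-maximal counterexample has a pair** -/
theorem exists_pair9 [DecidableEq V] {G : SimpleGraph V} {r : ℕ} (hr : 3 ≤ r) {U : Finset V}
    (hU : 2 * r ≤ U.card) (h : ¬ Two49 G r U) :
    ∃ G' : SimpleGraph V, G ≤ G' ∧ ¬ Two49 G' r U ∧ ∃ C a b l, Pair9 G' U C r a b l := by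
  classical
  obtain ⟨G1, ⟨hG1, h1⟩, hmax⟩ := exists_max_nat (α := SimpleGraph V)
    (fun G' => G ≤ G' ∧ ¬ Two49 G' r U) (fun G' => eS G' U U) (U.card * U.card)
    (fun G' _ => eS_le U U) ⟨G, le_rfl, h⟩
  refine ⟨G1, hG1, h1, ?_⟩
  -- the graph is not complete
  obtain ⟨x, hx, y, hy, hxy, hna⟩ : ∃ x ∈ U, ∃ y ∈ U, x ≠ y ∧ ¬ G1.Adj x y := by
    by_contra hcon
    push Not at hcon
    obtain ⟨S, hS, hSc⟩ := Finset.exists_subset_card_eq (show r ≤ U.card by omega)
    have h2 : (U \ S).card = U.card - r := by rw [Finset.card_sdiff_of_subset hS, hSc]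
    refine h1 ⟨S, U \ S, complete_cyc9 (fun x hx y hy => hcon x (hS hx) y (hS hy)) (by omega),
      complete_cyc9 (fun x hx y hy => hcon x (Finset.sdiff_subset hx) y (Finset.sdiff_subset hy))
        (by omega), hS, Finset.sdiff_subset, by omega, by omega, Finset.disjoint_sdiff⟩
  obtain ⟨G2, hG2a⟩ : ∃ G2 : SimpleGraph V, ∀ a b, G2.Adj a b ↔
      (G1.Adj a b ∨ (a = x ∧ b = y) ∨ (a = y ∧ b = x)) := by
    refine ⟨{ Adj := fun a b => G1.Adj a b ∨ (a = x ∧ b = y) ∨ (a = y ∧ b = x)
              symm := ?_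
              loopless := ?_ }, fun a b => Iff.rfl⟩
    · constructor
      rintro a b (h | ⟨h, h'⟩ | ⟨h, h'⟩)
      · exact Or.inl h.symm
      · exact Or.inr (Or.inr ⟨h', h⟩)
      · exact Or.inr (Or.inl ⟨h', h⟩)
    · constructor
      rintro a (h | ⟨h, h'⟩ | ⟨h, h'⟩)
      · exact G1.loopless.irrefl a h
      · exact hxy (h.symm.trans h')
      · exact hxy (h'.symm.trans h)
  have hG2 : ∀ a b, G2.Adj a b → G1.Adj a b ∨ (a = x ∧ b = y) ∨ (a = y ∧ b = x) :=
    fun a b h => (hG2a a b).1 h
  have hle : G1 ≤ G2 := fun a b h => (hG2a a b).2 (Or.inl h)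
  have hdg : ∀ a, dg G1 U a ≤ dg G2 U a := by
    intro a
    unfold dg
    refine Finset.card_le_card fun z hz => ?_
    rw [Finset.mem_filter] at hz ⊢
    exact ⟨hz.1, hle hz.2⟩
  have hlt : dg G1 U x < dg G2 U x := by
    unfold dg
    refine Finset.card_lt_card ?_
    rw [Finset.ssubset_iff_of_subset (fun z hz => by
      rw [Finset.mem_filter] at hz ⊢
      exact ⟨hz.1, hle hz.2⟩)]
    refine ⟨y, Finset.mem_filter.2 ⟨hy, (hG2a x y).2 (Or.inr (Or.inl ⟨rfl, rfl⟩))⟩, fun hh => ?_⟩
    exact hna (Finset.mem_filter.1 hh).2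
  have hsum : eS G1 U U < eS G2 U U := by
    unfold eS
    exact Finset.sum_lt_sum (fun a _ => hdg a) ⟨x, hx, hlt⟩
  have htwo : Two49 G2 r U := by
    by_contra hcon
    have := hmax G2 ⟨hG1.trans hle, hcon⟩
    omega
  obtain ⟨D, E, d1, d2, d3, d4, d5, d6, d7⟩ := htwo
  -- the path
  have fin : ∀ {D E : Finset V} {l : List V}, Pth G1 x y l → (∀ z, z ∈ l ↔ z ∈ D) →
      CycSet G1 E → D ⊆ U → E ⊆ U → r ≤ D.card → r ≤ E.card → Disjoint D E →
      ∃ C a b l, Pair9 G1 U C r a b l := by
    intro D E l k1 k2 k3 k4 k5 k6 k7 k8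
    refine ⟨E, x, y, l, k3, k5, k7, k1, fun z hz => ?_, ?_⟩
    · rw [Finset.mem_sdiff]
      exact ⟨k4 ((k2 z).1 hz), fun hh => (Finset.disjoint_left.1 k8) ((k2 z).1 hz) hh⟩
    · rw [← card_of_list k1.1 k2]; exact k6
  rcases conv9 hG2 d1 with e1 | ⟨l, e1, e1'⟩ <;> rcases conv9 hG2 d2 with e2 | ⟨l', e2, e2'⟩
  · exact absurd ⟨D, E, e1, e2, d3, d4, d5, d6, d7⟩ h1
  · exact fin e2 e2' e1 d4 d3 d6 d5 d7.symm
  · exact fin e1 e1' e2 d3 d4 d5 d6 d7
  · exact absurd ((e2' x).1 e2.head_mem) ((Finset.disjoint_left.1 d7) ((e1' x).1 e1.head_mem))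

end Pool.Agent.P0
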