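import Pool.Agent.P0.Ends49
import Pool.Agent.P0.Arcs9

set_option linter.all false

/-!
# P0 / I5: two disjoint arcs of a cycle and two disjoint paths outside give two disjoint long cycles
-/

namespace Pool.Agent.P0

open Pool.Agent.Helper14.LongCyc Pool.Agent.LCK Pool.Agent.FRC

universe u

variable {V : Type u} {G : SimpleGraph V}

open Classical in
/-- the positions of the neighbours of `x` on the cycle `c` -/
noncomputable def nbr9 (G : SimpleGraph V) (c : List V) (hp : 0 < c.length) [NeZero c.length]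
    (x : V) : Finset (ZMod c.length) := Finset.univ.filter fun i => G.Adj x (cf c hp i.val)

variable {c : List V} {hp : 0 < c.length} [NeZero c.length]

theorem mem_nbr9_val {x : V} {i : ZMod c.length} :
    i ∈ nbr9 G c hp x ↔ G.Adj x (cf c hp i.val) := by
  classical
  unfold nbr9
  rw [Finset.mem_filter]
  exact ⟨fun h => h.2, fun h => ⟨Finset.mem_univ _, h⟩⟩

theorem mem_nbr9 {x : V} (n : ℕ) :
    ((n : ℕ) : ZMod c.length) ∈ nbr9 G c hp x ↔ G.Adj x (cf c hp n) := by
  rw [mem_nbr9_val, cf_cast49]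

theorem nbr9_card [DecidableEq V] (hn : c.Nodup) (x : V) :
    (nbr9 G c hp x).card = dg G c.toFinset x := by
  classical
  rw [← sum_ind49 hp hn]
  unfold nbr9
  rw [Finset.card_filter]
  unfold ind49
  exact Finset.sum_congr rfl fun i _ => by congr

/-- two disjoint arcs and two disjoint paths outside the cycle -/
theorem fin9 [DecidableEq V] {U : Finset V} {r : ℕ} (hc : Cyc G c) (hcU : ∀ z ∈ c, z ∈ U)
    (hr : 3 ≤ r) {x1 y1 x2 y2 : V} {l1 l2 : List V} (h1 : Pth G x1 y1 l1) (h2 : Pth G x2 y2 l2)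
    (hl1 : ∀ z ∈ l1, z ∈ U ∧ z ∉ c) (hl2 : ∀ z ∈ l2, z ∈ U ∧ z ∉ c) (hd : ∀ z ∈ l1, z ∉ l2)
    {s t : ℕ} (hs : r ≤ l1.length + s) (ht : r ≤ l2.length + t)
    (hA : Arcs9 (nbr9 G c hp x1) (nbr9 G c hp y1) (nbr9 G c hp x2) (nbr9 G c hp y2) s t) :
    Two49 G r U := by
  obtain ⟨x, e, g, f, hse, htf, hL, hX, hY⟩ := hA
  have key : ∀ k : ℕ, x + ((k : ℕ) : ZMod c.length) = ((x.val + k : ℕ) : ZMod c.length) := by
    intro k
    rw [Nat.cast_add, ZMod.natCast_zmod_val]
  have key0 : x = ((x.val : ℕ) : ZMod c.length) := (ZMod.natCast_zmod_val x).symm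
  set n := x.val with hn
  have a1 := arc_pth hc hp e n (by omega)
  have a2 := arc_pth hc hp f (n + (e + 1 + g)) (by omega)
  rw [show n + (e + 1 + g) + f = n + (e + 1 + g + f) by omega] at a2
  rw [key, key] at hY
  rw [key] at hX
  simp only [mem_nbr9] at hX hY
  simp only [mem_nbr9_val, ← hn] at hX
  refine mk49 h1 a1 h2 a2 ?_ ?_ hr ?_ ?_ ?_ ?_ ?_ ?_ ?_
  · intro z hz hz'
    exact (hl1 z hz).2 (arc_mem49 hp hz')
  · intro z hz hz'
    exact (hl2 z hz).2 (arc_mem49 hp hz')
  · rw [seg_length]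
    omega
  · rw [seg_length]
    omega
  · rcases hX with h | h
    · exact Or.inl h
    · exact Or.inr ⟨h.2, h.1⟩
  · rcases hY with h | h
    · exact Or.inl h
    · exact Or.inr ⟨h.2, h.1⟩
  · rintro z (hz | hz)
    · exact (hl1 z hz).1
    · exact hcU z (arc_mem49 hp hz)
  · rintro z (hz | hz)
    · exact (hl2 z hz).1
    · exact hcU z (arc_mem49 hp hz)
  · rintro z (hz | hz) (hz' | hz')
    · exact hd z hz hz'
    · exact (hl1 z hz).2 (arc_mem49 hp hz')
    · exact (hl2 z hz').2 (arc_mem49 hp hz)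
    · rw [mem_seg] at hz hz'
      obtain ⟨j, j1, j2, j3⟩ := hz
      obtain ⟨i, i1, i2, i3⟩ := hz'
      have h := far49 hc hp n (s := j - n) (t := i - n) (by omega) (by omega)
      apply h
      rw [show n + (j - n) = j by omega, show n + (i - n) = i by omega, ← j3, ← i3]

end Pool.Agent.P0
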