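import Pool.Agent.P0.Ends49

set_option linter.all false

/-!
# P0, I4: the interface between the structure of the ends and the counting
-/

namespace Pool.Agent.P0

open Pool.Agent.Helper14.LongCyc Pool.Agent.LCK Pool.Agent.FRC

universe u

variable {V : Type u}

/-- two disjoint dense pieces `D₁, D₂` of `H`, each attached to the rest of `H` at one vertex
(`z₁`, `z₂`, possibly equal), up to the edges between `D₁` and one more vertex `x₀`, which are fewer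
than the vertices of `D₁` -/
structure TwoEnds49 [DecidableEq V] (G : SimpleGraph V) (H : Finset V) (r : ℕ)
    (D₁ D₂ : Finset V) (z₁ z₂ x₀ : V) : Prop where
  sub1 : D₁ ⊆ H
  sub2 : D₂ ⊆ H
  z1 : z₁ ∈ H
  z2 : z₂ ∈ H
  z11 : z₁ ∉ D₁
  z12 : z₁ ∉ D₂
  z21 : z₂ ∉ D₁
  z22 : z₂ ∉ D₂
  x01 : x₀ ∉ D₁
  disj : Disjoint D₁ D₂
  le1 : D₁.card + 2 ≤ r
  le2 : D₂.card + 2 ≤ r
  nb1 : ∀ u ∈ D₁, ∀ y ∈ H, G.Adj u y → y ∈ D₁ ∨ y = z₁ ∨ y = x₀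
  nb2 : ∀ u ∈ D₂, ∀ y ∈ H, G.Adj u y → y ∈ D₂ ∨ y = z₂
  deg1 : ∀ u ∈ D₁, r + 1 ≤ 2 * dg G (insert z₁ D₁) u
  deg2 : ∀ u ∈ D₂, r + 1 ≤ 2 * dg G (insert z₂ D₂) u
  few : dg G D₁ x₀ < D₁.card
  size : 4 * r ≤ 3 * (D₁.card + D₂.card)

end Pool.Agent.P0
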