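import Pool.Agent.P0.Ca33
import Pool.Agent.P0.A163

set_option linter.all false

/-!
# P0, I7 (A): the full word of an exceptional member
-/

namespace Pool.Agent.P0

/-- **LL0 with the full word** -/
theorem ll0w33 {r : ℕ} [NeZero r] {a b b' a' : ZMod r → ℕ} (D : LLZ r a b b' a') (hr : 7 ≤ r)
    (hT : 4 * r + 1 ≤ tot49 a b b' a') :
    ∑ i, a i + ∑ i, a' i = r + 1 ∧ 2 * r ≤ ∑ i, b i + ∑ i, b' i + 1 ∧
      ∃ c t, Wd63 r a a' c t ∨ Wd63 r a' a c t := by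
  obtain ⟨h1, h2⟩ := D.a1 hr hT (llJ33 D hr hT)
  refine ⟨h1, ?_, h2⟩
  unfold tot49 at hT
  omega

end Pool.Agent.P0
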